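import Pool.Agent.Lib.MP_435322_an.Comp

/-! Multi-scale gadgets. -/

set_option linter.unusedSectionVars false

namespace Pool.Agent.Lib.MP_435322_an

open Finset

variable {𝕜 : Type*} [RCLike 𝕜] {X : ℕ → Type*} [∀ n, NormedAddCommGroup (X n)]
  [∀ n, NormedSpace 𝕜 (X n)]

variable (𝕜 X) in
/-- gadgets: good at a prescribed scale with a fixed constant, arbitrarily bad at a larger one -/
def Gad (b : Bool) (C : ℝ) : Prop :=
  ∀ (m : ℕ) (D : ℝ), ∃ (M : ℕ) (F : (Fin M → 𝕜) → ℝ), Rep X F ∧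
    (∃ η : ℝ, 0 < η ∧ ∀ c, η * eo Finset.univ c ≤ F c) ∧ Inv b F m C ∧ ¬ Inv b F M D

theorem norm_sum_single {M : ℕ} (ε : Fin M → ℤˣ) (j : Fin M) :
    ‖(∑ l, ε l • (Pi.single l 1 : Fin M → 𝕜)) j‖ = 1 := by
  simp only [Finset.sum_apply, Pi.smul_apply]
  rw [Finset.sum_eq_single j]
  · rw [Pi.single_eq_same, norm_units_smul, norm_one]
  · intro l _ hl; rw [Pi.single_eq_of_ne hl.symm, smul_zero]
  · intro h; exact (h (Finset.mem_univ _)).elim

theorem eo_flat {M : ℕ} (ε : Fin M → ℤˣ) (σ : Finset (Fin M)) :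
    eo σ (∑ l, ε l • (Pi.single l 1 : Fin M → 𝕜)) = σ.card := by
  unfold eo
  simp only [norm_sum_single]
  simp

theorem eo_single {M : ℕ} (l : Fin M) (σ : Finset (Fin M)) :
    eo σ (Pi.single l 1 : Fin M → 𝕜) = if l ∈ σ then 1 else 0 := by
  unfold eo
  have : ∀ j, ‖(Pi.single l 1 : Fin M → 𝕜) j‖ ^ 2 = if l = j then 1 else 0 := by
    intro j
    by_cases h : l = j
    · subst h; simp
    · rw [Pi.single_eq_of_ne (Ne.symm h), if_neg h]; simp
  simp only [this]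
  rw [Finset.sum_ite_eq]

theorem card_biUnion_le' {n m r : ℕ} (hn : n ≤ m) {ι : Type} [DecidableEq ι]
    (σ : Fin n → Finset ι) (h : ∀ l, (σ l).card ≤ r) :
    (Finset.univ.biUnion σ).card ≤ m * r := by
  refine Finset.card_biUnion_le.trans ?_
  calc ∑ l, (σ l).card ≤ ∑ _l : Fin n, r := Finset.sum_le_sum fun l _ => h l
    _ = n * r := by simp
    _ ≤ m * r := Nat.mul_le_mul_right _ hn

theorem sum_two_pow_le (n : ℕ) : ∑ ω ∈ Finset.range n, (2 : ℝ) ^ ω ≤ 2 ^ n := by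
  induction n with
  | zero => simp
  | succ n ih => rw [Finset.sum_range_succ, pow_succ]; linarith

theorem sum_half_pow_le (n : ℕ) : ∑ ω ∈ Finset.range n, (1 / 2 : ℝ) ^ ω ≤ 2 :=
  sum_geometric_two_le n

theorem gadI (hX : ∀ N, ∃ n, N ≤ n ∧ ∃ x : X n, ‖x‖ = 1)
    (hA : ∀ B : ℝ, ∃ (d m : ℕ) (q : (Fin d → 𝕜) → ℝ), Rep X q ∧ ¬ Inv true q m B) :
    Gad 𝕜 X true 18432 := by
  intro m D
  obtain ⟨n, hn⟩ := pow_unbounded_of_one_lt (9216 * (2 * |D| + 1)) (show (1 : ℝ) < 2 by norm_num)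
  set δ : ℝ := 1 / 2 ^ (n + 1) with hδdef
  have hδ : 0 < δ := by positivity
  have hδ1 : δ * 2 ^ (n + 1) = 1 := by rw [hδdef]; field_simp
  have hδ2 : δ ≤ 1 := by
    rw [hδdef, div_le_one (by positivity)]; exact one_le_pow₀ (by norm_num)
  have hsum : δ * ∑ ω ∈ Finset.range (n + 1), (2 : ℝ) ^ ω ≤ 1 := by
    rw [← hδ1]; exact mul_le_mul_of_nonneg_left (sum_two_pow_le _) hδ.le
  choose r' FF hF hup hlow using fun r => compI hX hA r hδ
  let R : ℕ → ℕ := fun ω => Nat.rec 1 (fun _ a => m * r' a + 1) ω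
  have hR0 : ∀ ω, 1 ≤ R ω := fun ω => by cases ω <;> simp [R]
  have hR : ∀ ω, R (ω + 1) = m * r' (R ω) + 1 := fun ω => rfl
  set M := 2 * r' (R n) + 1 with hM
  let F : ℕ → (Fin M → 𝕜) → ℝ := fun ω => FF (R ω) M
  have hF0 : ∀ ω c, 0 ≤ F ω c := fun ω c => (hF _ _).1.nonneg c
  have hsum0 : ∀ c, 0 ≤ ∑ ω ∈ Finset.range (n + 1), 2 ^ ω * F ω c := fun c =>
    Finset.sum_nonneg fun ω _ => mul_nonneg (by positivity) (hF0 ω c)
  refine ⟨M, fun c => eo Finset.univ c + ∑ ω ∈ Finset.range (n + 1), 2 ^ ω * F ω c,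
    (rep_eo hX _).add (Rep.sum _ fun ω _ => (hF _ _).mul (by positivity)),
    ⟨1, one_pos, fun c => by linarith [hsum0 c]⟩, fun k hk x => ?_, fun hI => ?_⟩
  · simp only [Ineq, if_true]
    set A := ∑ l, eo Finset.univ (x l) with hAdef
    have hA0 : 0 ≤ A := Finset.sum_nonneg fun _ _ => eo_nonneg _ _
    let s : ℕ → ℝ := fun ω => ∑ l, F ω (x l)
    have hs0 : ∀ ω, 0 ≤ s ω := fun ω => Finset.sum_nonneg fun _ _ => hF0 _ _
    have gen : ∀ ω (σ : Finset (Fin M)), σ.card ≤ R ω →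
        rad (F ω) x ≤ δ * A + 2 * ∑ l, eo σᶜ (x l) := by
      intro ω σ hσ
      refine (rad_mono (fun c => hup (R ω) M c σ hσ) x).trans ?_
      rw [rad_add, rad_mul, rad_mul, rad_eo, rad_eo]
    have a0 : rad (F 0) x ≤ 3 * A := by
      have := gen 0 ∅ (by simp)
      rw [Finset.compl_empty] at this
      nlinarith
    have a1 : ∀ ω, rad (F (ω + 1)) x ≤ 9217 * δ * A + 9216 * s ω := by
      intro ω
      choose σ hσ1 hσ2 using fun l => hlow (R ω) M (x l)
      have h1 := gen (ω + 1) (Finset.univ.biUnion σ)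
        ((card_biUnion_le' hk σ hσ1).trans (by rw [hR]; omega))
      have h2 : ∑ l, eo (Finset.univ.biUnion σ)ᶜ (x l)
          ≤ ∑ l, 4608 * (F ω (x l) + δ * eo Finset.univ (x l)) := by
        refine Finset.sum_le_sum fun l _ => ?_
        have h3 : eo (Finset.univ.biUnion σ)ᶜ (x l) ≤ eo (σ l)ᶜ (x l) :=
          eo_mono (Finset.compl_subset_compl.2
            (Finset.subset_biUnion_of_mem σ (Finset.mem_univ l))) _
        have h4 := hσ2 l
        simp only [F]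
        linarith
      rw [← Finset.mul_sum, Finset.sum_add_distrib, ← Finset.mul_sum] at h2
      simp only [s]
      linarith
    have e1 : rad (fun c => eo Finset.univ c + ∑ ω ∈ Finset.range (n + 1), 2 ^ ω * F ω c) x
        = A + ∑ ω ∈ Finset.range (n + 1), 2 ^ ω * rad (F ω) x := by
      rw [rad_add, rad_eo, rad_sum]
      simp only [rad_mul]
      rfl
    have e2 : ∑ l, (eo Finset.univ (x l) + ∑ ω ∈ Finset.range (n + 1), 2 ^ ω * F ω (x l))
        = A + ∑ ω ∈ Finset.range (n + 1), 2 ^ ω * s ω := by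
      rw [Finset.sum_add_distrib, Finset.sum_comm]
      simp only [s, Finset.mul_sum]
      rfl
    rw [e1, e2, Finset.sum_range_succ' (fun ω => 2 ^ ω * rad (F ω) x)]
    have a2 : ∑ ω ∈ Finset.range n, 2 ^ (ω + 1) * rad (F (ω + 1)) x
        ≤ ∑ ω ∈ Finset.range n, (9217 * A * δ * 2 ^ (ω + 1) + 18432 * (2 ^ ω * s ω)) := by
      refine Finset.sum_le_sum fun ω _ => ?_
      have := mul_le_mul_of_nonneg_left (a1 ω) (show (0 : ℝ) ≤ 2 ^ (ω + 1) by positivity)
      refine this.trans (le_of_eq ?_)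
      rw [pow_succ]; ring
    rw [Finset.sum_add_distrib, ← Finset.mul_sum, ← Finset.mul_sum] at a2
    have a3 : δ * ∑ ω ∈ Finset.range n, (2 : ℝ) ^ (ω + 1) ≤ 1 := by
      refine le_trans (mul_le_mul_of_nonneg_left ?_ hδ.le) hsum
      rw [Finset.sum_range_succ' (fun ω => (2 : ℝ) ^ ω)]
      simp
    have a4 : ∑ ω ∈ Finset.range n, 2 ^ ω * s ω ≤ ∑ ω ∈ Finset.range (n + 1), 2 ^ ω * s ω := by
      rw [Finset.sum_range_succ]
      have := mul_nonneg (show (0 : ℝ) ≤ 2 ^ n by positivity) (hs0 n)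
      linarith
    have a5 := mul_le_mul_of_nonneg_left a3 hA0
    rw [pow_zero, one_mul]
    nlinarith
  · have h := hI M le_rfl (fun l => Pi.single l 1)
    simp only [Ineq, if_true] at h
    have hMpos : (0 : ℝ) < M := by rw [hM]; positivity
    have b1 : ∀ l : Fin M, eo Finset.univ (Pi.single l 1 : Fin M → 𝕜)
        + ∑ ω ∈ Finset.range (n + 1), 2 ^ ω * F ω (Pi.single l 1) ≤ 2 := by
      intro l
      have h1 : ∑ ω ∈ Finset.range (n + 1), 2 ^ ω * F ω (Pi.single l 1)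
          ≤ ∑ ω ∈ Finset.range (n + 1), δ * 2 ^ ω := by
        refine Finset.sum_le_sum fun ω _ => ?_
        have h2 := hup (R ω) M (Pi.single l 1) {l} (by simpa using hR0 ω)
        rw [eo_single, eo_single, if_pos (Finset.mem_univ _), if_neg (by simp)] at h2
        rw [mul_comm δ]
        exact mul_le_mul_of_nonneg_left (by simpa using h2) (by positivity)
      rw [← Finset.mul_sum] at h1
      rw [eo_single, if_pos (Finset.mem_univ _)]
      linarith
    have b2 : ∑ l : Fin M, (eo Finset.univ (Pi.single l 1 : Fin M → 𝕜)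
        + ∑ ω ∈ Finset.range (n + 1), 2 ^ ω * F ω (Pi.single l 1)) ≤ 2 * M := by
      refine (Finset.sum_le_sum fun l _ => b1 l).trans ?_
      simp [mul_comm]
    have b3 : 0 ≤ ∑ l : Fin M, (eo Finset.univ (Pi.single l 1 : Fin M → 𝕜)
        + ∑ ω ∈ Finset.range (n + 1), 2 ^ ω * F ω (Pi.single l 1)) :=
      Finset.sum_nonneg fun l _ => add_nonneg (eo_nonneg _ _) (hsum0 _)
    have b4 : (2 : ℝ) ^ n * M / 9216 - M / 2 ≤ rad (fun c => eo Finset.univ c
        + ∑ ω ∈ Finset.range (n + 1), 2 ^ ω * F ω c)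
          (fun l : Fin M => (Pi.single l 1 : Fin M → 𝕜)) := by
      rw [← Ex_const (ι := Fin M) isW_hf ((2 : ℝ) ^ n * M / 9216 - M / 2)]
      refine Ex_mono isW_hf fun ε => ?_
      set v := ∑ l, ε l • (Pi.single l 1 : Fin M → 𝕜) with hv
      obtain ⟨σ, hσ1, hσ2⟩ := hlow (R n) M v
      rw [hv, eo_flat, eo_flat, ← hv, Finset.card_compl, Finset.card_univ, Fintype.card_fin] at hσ2
      have c1 : (M : ℝ) / 2 ≤ ((M - σ.card : ℕ) : ℝ) := by
        have : M ≤ 2 * (M - σ.card) := by omega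
        have : (M : ℝ) ≤ 2 * ((M - σ.card : ℕ) : ℝ) := by exact_mod_cast this
        linarith
      have c2 : 2 ^ n * F n v ≤ ∑ ω ∈ Finset.range (n + 1), 2 ^ ω * F ω v :=
        Finset.single_le_sum (f := fun ω => 2 ^ ω * F ω v)
          (fun ω _ => mul_nonneg (by positivity) (hF0 ω v)) (Finset.mem_range.2 (by omega))
      have c3 : (M : ℝ) / 9216 - δ * M ≤ F n v := by simp only [F]; linarith
      have c4 := mul_le_mul_of_nonneg_left c3 (show (0 : ℝ) ≤ 2 ^ n by positivity)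
      have c5 : (2 : ℝ) ^ n * δ = 1 / 2 := by rw [pow_succ] at hδ1; linarith
      have c6 := eo_nonneg Finset.univ v
      have c7 : (2 : ℝ) ^ n * (M / 9216 - δ * M) = 2 ^ n * M / 9216 - M / 2 := by
        rw [mul_sub, ← mul_assoc, c5]; ring
      show _ ≤ eo Finset.univ v + _
      linarith
    have b5 := mul_le_mul (le_abs_self D) b2 b3 (abs_nonneg D)
    have b6 := mul_lt_mul_of_pos_right hn hMpos
    nlinarith

theorem gadII (hX : ∀ N, ∃ n, N ≤ n ∧ ∃ x : X n, ‖x‖ = 1) {T : ℝ} (hT0 : 0 ≤ T)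
    (hT : ∀ (d : ℕ) (q : (Fin d → 𝕜) → ℝ), Rep X q → ∀ m, Inv true q m T)
    (hB : ∀ B : ℝ, ∃ (d m : ℕ) (q : (Fin d → 𝕜) → ℝ), Rep X q ∧ ¬ Inv false q m B)
    (hC : ∀ r : ℕ, ∃ C : ℝ, 0 < C ∧ ∀ (d : ℕ) (q : (Fin d → 𝕜) → ℝ), Rep X q →
      ∀ (k : ℕ) (y : Fin (r ^ k) → Fin d → 𝕜), (∀ j, q (y j) = 1) →
        (r : ℝ) ^ k ≤ C * (3 / 2) ^ k * rad q y) :
    Gad 𝕜 X false (4 * T * (4608 * T) + 4 * T + 5) := by
  intro m D
  set c2 := 4608 * T with hc2
  have hc20 : 0 ≤ c2 := by positivity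
  obtain ⟨n, hn⟩ := pow_unbounded_of_one_lt (4 * c2 * |D|) (show (1 : ℝ) < 2 by norm_num)
  set δ : ℝ := (1 / 2) ^ (n + 1) with hδdef
  have hδ : 0 < δ := by positivity
  have hδ1 : δ * 2 ^ (n + 1) = 1 := by rw [hδdef, ← mul_pow]; norm_num
  have hδ2 : δ ≤ 1 := pow_le_one₀ (by norm_num) (by norm_num)
  have hδ3 : (1 / 2 : ℝ) ^ n = 2 * δ := by rw [hδdef, pow_succ]; ring
  choose r' FF hF hlow hup using fun r => compII hX hT0 hT hB hC r hδ
  let R : ℕ → ℕ := fun ω => Nat.rec 1 (fun _ a => m * r' a) ω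
  have hR0 : R 0 = 1 := rfl
  have hR : ∀ ω, R (ω + 1) = m * r' (R ω) := fun ω => rfl
  obtain ⟨M, hM⟩ := exists_nat_gt (2 * T * (∑ ω ∈ Finset.range (n + 1), (r' (R ω) : ℝ)) / δ)
  have hM0 : 0 ≤ 2 * T * (∑ ω ∈ Finset.range (n + 1), (r' (R ω) : ℝ)) := by positivity
  have hMpos : (0 : ℝ) < M := lt_of_le_of_lt (by positivity) hM
  rw [div_lt_iff₀ hδ] at hM
  let F : ℕ → (Fin M → 𝕜) → ℝ := fun ω => FF (R ω) M
  have hF0 : ∀ ω c, 0 ≤ F ω c := fun ω c => (hF _ _).1.nonneg c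
  have hsum0 : ∀ c, 0 ≤ ∑ ω ∈ Finset.range (n + 1), (1 / 2) ^ ω * F ω c := fun c =>
    Finset.sum_nonneg fun ω _ => mul_nonneg (by positivity) (hF0 ω c)
  refine ⟨M, fun c => δ * eo Finset.univ c + ∑ ω ∈ Finset.range (n + 1), (1 / 2) ^ ω * F ω c,
    ((rep_eo hX _).mul hδ.le).add (Rep.sum _ fun ω _ => (hF _ _).mul (by positivity)),
    ⟨δ, hδ, fun c => by linarith [hsum0 c]⟩, fun k hk x => ?_, fun hI => ?_⟩
  · simp only [Ineq, Bool.false_eq_true, if_false]
    set A := ∑ l, eo Finset.univ (x l) with hAdef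
    have hA0 : 0 ≤ A := Finset.sum_nonneg fun _ _ => eo_nonneg _ _
    let s : ℕ → ℝ := fun ω => ∑ l, F ω (x l)
    have gen : ∀ ω, ∃ σ : Finset (Fin M), σ.card ≤ R (ω + 1) ∧
        s ω ≤ 2 * T * rad (eo σ) x + δ * A := by
      intro ω
      choose σ hσ1 hσ2 using fun l => hup (R ω) M (x l)
      refine ⟨Finset.univ.biUnion σ, card_biUnion_le' hk σ hσ1, ?_⟩
      rw [rad_eo, hAdef, Finset.mul_sum, Finset.mul_sum, ← Finset.sum_add_distrib]
      refine Finset.sum_le_sum fun l _ => (hσ2 l).trans ?_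
      have h3 : eo (σ l) (x l) ≤ eo (Finset.univ.biUnion σ) (x l) :=
        eo_mono (Finset.subset_biUnion_of_mem σ (Finset.mem_univ l)) _
      have := mul_le_mul_of_nonneg_left h3 (show 0 ≤ 2 * T by positivity)
      linarith
    have a0 : s n ≤ (2 * T + 1) * A := by
      obtain ⟨σ, -, h⟩ := gen n
      have h1 : rad (eo σ) x ≤ A := by
        rw [hAdef, ← rad_eo]; exact rad_mono (fun c => eo_mono (Finset.subset_univ _) c) x
      have := mul_le_mul_of_nonneg_left h1 (show 0 ≤ 2 * T by positivity)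
      nlinarith
    have a1 : ∀ ω, s ω ≤ 2 * T * c2 * rad (F (ω + 1)) x + δ * A := by
      intro ω
      obtain ⟨σ, hσ, h⟩ := gen ω
      have h1 : rad (eo σ) x ≤ c2 * rad (F (ω + 1)) x := by
        rw [← rad_mul]; exact rad_mono (fun c => hlow (R (ω + 1)) M c σ hσ) x
      have := mul_le_mul_of_nonneg_left h1 (show 0 ≤ 2 * T by positivity)
      linarith
    have e1 : rad (fun c => δ * eo Finset.univ c
        + ∑ ω ∈ Finset.range (n + 1), (1 / 2) ^ ω * F ω c) x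
        = δ * A + ∑ ω ∈ Finset.range (n + 1), (1 / 2) ^ ω * rad (F ω) x := by
      rw [rad_add, rad_mul, rad_eo, rad_sum]
      simp only [rad_mul]
      rfl
    have e2 : ∑ l, (δ * eo Finset.univ (x l)
        + ∑ ω ∈ Finset.range (n + 1), (1 / 2) ^ ω * F ω (x l))
        = δ * A + ∑ ω ∈ Finset.range (n + 1), (1 / 2) ^ ω * s ω := by
      rw [Finset.sum_add_distrib, Finset.sum_comm, ← Finset.mul_sum, ← hAdef]
      simp only [s, Finset.mul_sum]
    rw [e1, e2, Finset.sum_range_succ' (fun ω => (1 / 2) ^ ω * rad (F ω) x),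
      Finset.sum_range_succ (fun ω => (1 / 2) ^ ω * s ω)]
    have a2 : ∑ ω ∈ Finset.range n, (1 / 2) ^ ω * s ω
        ≤ ∑ ω ∈ Finset.range n, (4 * T * c2 * ((1 / 2) ^ (ω + 1) * rad (F (ω + 1)) x)
          + δ * A * (1 / 2) ^ ω) := by
      refine Finset.sum_le_sum fun ω _ => ?_
      have := mul_le_mul_of_nonneg_left (a1 ω) (show (0 : ℝ) ≤ (1 / 2) ^ ω by positivity)
      refine this.trans (le_of_eq ?_)
      rw [pow_succ]; ring
    rw [Finset.sum_add_distrib, ← Finset.mul_sum, ← Finset.mul_sum] at a2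
    have a3 := mul_le_mul_of_nonneg_left (sum_half_pow_le n) (mul_nonneg hδ.le hA0)
    have a4 := mul_le_mul_of_nonneg_left a0 (show (0 : ℝ) ≤ (1 / 2) ^ n by positivity)
    have a5 : 0 ≤ ∑ ω ∈ Finset.range n, (1 / 2) ^ (ω + 1) * rad (F (ω + 1)) x :=
      Finset.sum_nonneg fun ω _ => mul_nonneg (by positivity) (rad_nonneg (hF0 (ω + 1)) x)
    have a6 := rad_nonneg (hF0 0) x
    rw [hδ3] at a4 ⊢
    rw [pow_zero, one_mul]
    set Z := ∑ ω ∈ Finset.range n, (1 / 2) ^ (ω + 1) * rad (F (ω + 1)) x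
    have a7 := mul_nonneg hδ.le hA0
    have a8 := mul_nonneg (mul_nonneg hT0 hc20) a7
    have a9 := mul_nonneg (mul_nonneg hT0 hc20) a6
    have a10 := mul_nonneg hT0 a5
    have a11 := mul_nonneg hT0 a6
    nlinarith
  · have h := hI M le_rfl (fun l => Pi.single l 1)
    simp only [Ineq, Bool.false_eq_true, if_false] at h
    have b1 : ∀ l : Fin M, 1 ≤ c2 * (δ * eo Finset.univ (Pi.single l 1 : Fin M → 𝕜)
        + ∑ ω ∈ Finset.range (n + 1), (1 / 2) ^ ω * F ω (Pi.single l 1)) := by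
      intro l
      have h1 := hlow (R 0) M (Pi.single l 1) {l} (by simp [hR0])
      rw [eo_single, if_pos (Finset.mem_singleton_self _)] at h1
      refine h1.trans (mul_le_mul_of_nonneg_left ?_ hc20)
      have h2 : (1 / 2) ^ 0 * F 0 (Pi.single l 1)
          ≤ ∑ ω ∈ Finset.range (n + 1), (1 / 2) ^ ω * F ω (Pi.single l 1) :=
        Finset.single_le_sum (f := fun ω => (1 / 2) ^ ω * F ω (Pi.single l 1))
          (fun ω _ => mul_nonneg (by positivity) (hF0 ω _)) (Finset.mem_range.2 (by omega))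
      rw [pow_zero, one_mul] at h2
      have h3 := mul_nonneg hδ.le (eo_nonneg Finset.univ (Pi.single l 1 : Fin M → 𝕜))
      simp only [F] at h2 ⊢
      linarith
    have b2 : (M : ℝ) ≤ c2 * ∑ l : Fin M, (δ * eo Finset.univ (Pi.single l 1 : Fin M → 𝕜)
        + ∑ ω ∈ Finset.range (n + 1), (1 / 2) ^ ω * F ω (Pi.single l 1)) := by
      rw [Finset.mul_sum]
      refine le_trans ?_ (Finset.sum_le_sum fun l _ => b1 l)
      simp
    set ρ := rad (fun c => δ * eo Finset.univ c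
        + ∑ ω ∈ Finset.range (n + 1), (1 / 2) ^ ω * F ω c)
          (fun l : Fin M => (Pi.single l 1 : Fin M → 𝕜)) with hρ
    have b3 : 0 ≤ ρ :=
      rad_nonneg (fun c => add_nonneg (mul_nonneg hδ.le (eo_nonneg _ _)) (hsum0 _)) _
    have b4 : ρ ≤ 4 * δ * M := by
      rw [← Ex_const (ι := Fin M) isW_hf (4 * δ * M)]
      refine Ex_mono isW_hf fun ε => ?_
      set v := ∑ l, ε l • (Pi.single l 1 : Fin M → 𝕜) with hv
      have c1 : ∑ ω ∈ Finset.range (n + 1), (1 / 2) ^ ω * F ω v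
          ≤ ∑ ω ∈ Finset.range (n + 1), (2 * T * (r' (R ω) : ℝ) + δ * M * (1 / 2) ^ ω) := by
        refine Finset.sum_le_sum fun ω _ => ?_
        obtain ⟨σ, hσ1, hσ2⟩ := hup (R ω) M v
        rw [hv, eo_flat, eo_flat, ← hv, Finset.card_univ, Fintype.card_fin] at hσ2
        have c2 : (σ.card : ℝ) ≤ r' (R ω) := by exact_mod_cast hσ1
        have c3 : (1 / 2 : ℝ) ^ ω ≤ 1 := pow_le_one₀ (by norm_num) (by norm_num)
        have c4 : F ω v ≤ 2 * T * (r' (R ω) : ℝ) + δ * M := by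
          have := mul_le_mul_of_nonneg_left c2 (show 0 ≤ 2 * T by positivity)
          simp only [F]; linarith
        have c5 := mul_le_mul_of_nonneg_left c4 (show (0 : ℝ) ≤ (1 / 2) ^ ω by positivity)
        have c6 := mul_le_mul_of_nonneg_right c3
          (show 0 ≤ 2 * T * (r' (R ω) : ℝ) by positivity)
        nlinarith
      rw [Finset.sum_add_distrib, ← Finset.mul_sum, ← Finset.mul_sum] at c1
      have c2 := mul_le_mul_of_nonneg_left (sum_half_pow_le (n + 1)) (mul_nonneg hδ.le hMpos.le)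
      have c3 : eo Finset.univ v = M := by
        rw [hv, eo_flat, Finset.card_univ, Fintype.card_fin]
      show δ * eo Finset.univ v + _ ≤ _
      rw [c3]
      linarith
    have b5 := mul_le_mul (le_abs_self D) b4 b3 (abs_nonneg D)
    have b6 : (M : ℝ) ≤ c2 * (|D| * (4 * δ * M)) :=
      b2.trans (mul_le_mul_of_nonneg_left (h.trans b5) hc20)
    have b7 := mul_lt_mul_of_pos_right hn (mul_pos hδ hMpos)
    have b8 : (2 : ℝ) ^ n * δ = 1 / 2 := by rw [pow_succ] at hδ1; linarith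
    have b9 : (2 : ℝ) ^ n * (δ * M) = M / 2 := by rw [← mul_assoc, b8]; ring
    nlinarith

end Pool.Agent.Lib.MP_435322_an
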