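import Pool.Agent.Lib.MP_435322_an.Core
import Pool.Agent.Lib.MP_435322_an.Model

/-! Gadgets realised in an l2-sum, and the resulting family of subspaces. -/

set_option linter.unusedSectionVars false

namespace Pool.Agent.Lib.MP_435322_an

open Finset Filter Topology

variable {𝕜 : Type*} [RCLike 𝕜] {X : ℕ → Type*} [∀ n, NormedAddCommGroup (X n)]
  [∀ n, NormedSpace 𝕜 (X n)]

theorem lp_hasSum (w : lp X 2) : HasSum (fun k => ‖w k‖ ^ 2) (‖w‖ ^ 2) := by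
  have h := lp.hasSum_norm (E := X) (p := 2) (by norm_num) w
  simpa using h

theorem lp_sum_single_apply (f : ∀ k, X k) (s : Finset ℕ) (k : ℕ) :
    (∑ i ∈ s, lp.single 2 i (f i) : lp X 2) k = if k ∈ s then f k else 0 := by
  simp only [lp.coeFn_single, lp.coeFn_sum, Finset.sum_apply, Finset.sum_pi_single]

theorem lp_norm_sum_single (f : ∀ k, X k) (s : Finset ℕ) :
    ‖(∑ i ∈ s, lp.single 2 i (f i) : lp X 2)‖ ^ 2 = ∑ i ∈ s, ‖f i‖ ^ 2 := by
  have h := lp.norm_sum_single (E := X) (p := 2) (by norm_num) f s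
  simpa using h

variable (𝕜 X) in
/-- restriction to a finite set of coordinates -/
noncomputable def blk (s : Finset ℕ) : lp X 2 →L[𝕜] lp X 2 :=
  ∑ k ∈ s, (lp.singleContinuousLinearMap 𝕜 X 2 k).comp (lp.evalCLM 𝕜 X 2 k)

theorem blk_eq (s : Finset ℕ) (w : lp X 2) :
    blk 𝕜 X s w = ∑ k ∈ s, lp.single 2 k (w k) := by
  unfold blk
  rw [_root_.sum_apply]
  rfl

theorem blk_apply (s : Finset ℕ) (w : lp X 2) (k : ℕ) :
    blk 𝕜 X s w k = if k ∈ s then w k else 0 := by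
  rw [blk_eq, lp_sum_single_apply]

theorem blk_self (s : Finset ℕ) (w : lp X 2) (h : ∀ k, k ∉ s → w k = 0) : blk 𝕜 X s w = w := by
  apply lp.ext
  funext k
  rw [blk_apply]
  split_ifs with hk
  · rfl
  · exact (h k hk).symm

theorem blk_hasSum {N : ℕ → ℕ} (h0 : N 0 = 0) (hN : StrictMono N) (w : lp X 2) :
    HasSum (fun n => ‖blk 𝕜 X (Finset.Ico (N n) (N (n + 1))) w‖ ^ 2) (‖w‖ ^ 2) := by
  rw [hasSum_iff_tendsto_nat_of_nonneg (fun _ => sq_nonneg _)]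
  have key : ∀ n, ∑ i ∈ Finset.range n, ‖blk 𝕜 X (Finset.Ico (N i) (N (i + 1))) w‖ ^ 2
      = ∑ k ∈ Finset.range (N n), ‖w k‖ ^ 2 := by
    intro n
    induction n with
    | zero => simp [h0]
    | succ n ih =>
      rw [Finset.sum_range_succ, ih, blk_eq, lp_norm_sum_single,
        Finset.sum_range_add_sum_Ico _ (hN.monotone (Nat.le_succ n))]
  simp only [key]
  exact (lp_hasSum w).tendsto_sum_nat.comp hN.tendsto_atTop

variable (𝕜 X) in
/-- finite dimensional gadget subspaces supported arbitrarily far out -/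
def GadW (b : Bool) (C : ℝ) : Prop :=
  ∀ (m : ℕ) (D : ℝ) (N : ℕ), ∃ N', N ≤ N' ∧ ∃ G : Submodule 𝕜 (lp X 2),
    FiniteDimensional 𝕜 G ∧ (∀ g ∈ G, ∀ k, k ∉ Finset.Ico N N' → g k = 0) ∧
    Inv b (nsq G) m C ∧ ∃ d, ¬ Inv b (nsq G) d D

theorem realize {ι : Type} [Fintype ι] {F : (ι → 𝕜) → ℝ} (hF : Rep X F) {η : ℝ} (hη : 0 < η)
    (h : ∀ c, η * eo Finset.univ c ≤ F c) (N : ℕ) :
    ∃ N', N ≤ N' ∧ ∃ G : Submodule 𝕜 (lp X 2), ∃ e : (ι → 𝕜) ≃ₗ[𝕜] G,
      (∀ g ∈ G, ∀ k, k ∉ Finset.Ico N N' → g k = 0) ∧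
      ∀ c, F c ≤ 2 * nsq G (e c) ∧ nsq G (e c) ≤ 2 * F c := by
  obtain ⟨N', hN, T, hT⟩ := hF.2 (η / 2) (by positivity) N
  let φ : (ι → 𝕜) →ₗ[𝕜] lp X 2 := ∑ k ∈ Finset.Ico N N', (lp.lsingle 2 k).comp (T k)
  have hφ : ∀ c, φ c = ∑ k ∈ Finset.Ico N N', lp.single 2 k (T k c) := fun c => by
    simp only [φ, LinearMap.sum_apply]; rfl
  have hb : ∀ c, F c ≤ 2 * ‖φ c‖ ^ 2 ∧ ‖φ c‖ ^ 2 ≤ 2 * F c := fun c => by
    rw [hφ, lp_norm_sum_single]
    have h1 := abs_le.1 (hT c)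
    have h2 := h c
    have h3 := hF.1.nonneg c
    constructor <;> linarith [h1.1, h1.2]
  have hinj : Function.Injective φ := by
    rw [injective_iff_map_eq_zero]
    intro c hc
    have h1 := (hb c).1
    rw [hc, norm_zero] at h1
    refine eq_zero_of_eo ?_
    have h2 := (h c).trans h1
    by_contra h3
    have := mul_pos hη (not_le.1 h3)
    linarith
  refine ⟨N', hN, LinearMap.range φ, LinearEquiv.ofInjective φ hinj, ?_, fun c => hb c⟩
  rintro g ⟨c, rfl⟩ k hk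
  rw [hφ, lp_sum_single_apply, if_neg hk]

theorem gadW_of_gad {b : Bool} {C : ℝ} (hC : 0 ≤ C) (h : Gad 𝕜 X b C) : GadW 𝕜 X b (4 * C) := by
  intro m D N
  obtain ⟨M, F, hF, ⟨η, hη, h1⟩, h2, h3⟩ := h m (4 * |D|)
  obtain ⟨N', hN, G, e, hG, hb⟩ := realize hF hη h1 N
  refine ⟨N', hN, G, e.finiteDimensional, hG, ?_, M, fun h4 => h3 ?_⟩
  · have := Inv.transfer (q := nsq G) (α := 2) (β := 2) e.symm.toLinearMap.toAddMonoidHom
      (by norm_num) (by norm_num) (fun g => by simpa using (hb (e.symm g)).2)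
      (fun g => by simpa using (hb (e.symm g)).1) hC h2
    rwa [show (2 : ℝ) * 2 = 4 by norm_num] at this
  · have := Inv.transfer (q := F) (α := 2) (β := 2) e.toLinearMap.toAddMonoidHom
      (by norm_num) (by norm_num) (fun c => (hb c).1) (fun c => (hb c).2) (abs_nonneg D)
      (h4.const (fun _ => sq_nonneg _) (le_abs_self D))
    rwa [show (2 : ℝ) * 2 = 4 by norm_num] at this

theorem hilb (hX : ∀ N, ∃ n, N ≤ n ∧ ∃ x : X n, ‖x‖ = 1) (b : Bool) (d N : ℕ) :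
    ∃ N', N ≤ N' ∧ ∃ G : Submodule 𝕜 (lp X 2), FiniteDimensional 𝕜 G ∧ Module.finrank 𝕜 G = d ∧
      (∀ g ∈ G, ∀ k, k ∉ Finset.Ico N N' → g k = 0) ∧ ∀ m, Inv b (nsq G) m 4 := by
  obtain ⟨N', hN, G, e, hG, hb⟩ := realize (rep_eo (𝕜 := 𝕜) (ι := Fin d) hX Finset.univ) one_pos
    (fun c => by rw [one_mul]) N
  refine ⟨N', hN, G, e.finiteDimensional, by rw [← e.finrank_eq]; simp, hG, fun m => ?_⟩
  have := Inv.transfer (q := nsq G) (α := 2) (β := 2) e.symm.toLinearMap.toAddMonoidHom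
    (by norm_num) (by norm_num) (fun g => by simpa using (hb (e.symm g)).2)
    (fun g => by simpa using (hb (e.symm g)).1) zero_le_one (inv_eo Finset.univ b m)
  rwa [show (2 : ℝ) * 2 * 1 = 4 by norm_num] at this

theorem findim_inv {W : Type*} [NormedAddCommGroup W] [NormedSpace 𝕜 W] (G : Submodule 𝕜 W)
    [FiniteDimensional 𝕜 G] (b : Bool) : ∃ K, 0 ≤ K ∧ ∀ m, Inv b (nsq G) m K := by
  let e : (Fin (Module.finrank 𝕜 G) → 𝕜) ≃L[𝕜] G := ContinuousLinearEquiv.ofFinrankEq (by simp)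
  have hq : CQ (fun c => ‖e.toLinearEquiv.toLinearMap c‖ ^ 2) := cq_normsq _
  set a := ‖(e.symm : G →L[𝕜] (Fin (Module.finrank 𝕜 G) → 𝕜))‖ with ha
  have hpos : (0 : ℝ) < Module.finrank 𝕜 G * a ^ 2 + 1 := by positivity
  obtain ⟨K, hK0, hK⟩ := hq.exists_inv (η := 1 / (Module.finrank 𝕜 G * a ^ 2 + 1)) (by positivity)
    (fun c => by
      have h1 := (e.symm : G →L[𝕜] (Fin (Module.finrank 𝕜 G) → 𝕜)).le_opNorm (e c)
      simp only [ContinuousLinearEquiv.coe_coe, ContinuousLinearEquiv.symm_apply_apply] at h1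
      have h2 : eo Finset.univ c ≤ Module.finrank 𝕜 G * (a * ‖e c‖) ^ 2 := by
        have := Finset.sum_le_card_nsmul Finset.univ (fun j => ‖c j‖ ^ 2) ((a * ‖e c‖) ^ 2)
          (fun j _ => by
            have h3 := (norm_le_pi_norm c j).trans h1
            gcongr)
        simpa [eo] using this
      rw [one_div, inv_mul_eq_div, div_le_iff₀ hpos]
      show _ ≤ ‖e c‖ ^ 2 * _
      nlinarith [sq_nonneg ‖e c‖]) b
  refine ⟨K, hK0, fun m => ?_⟩
  have := Inv.transfer (q := nsq G) e.symm.toLinearEquiv.toLinearMap.toAddMonoidHom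
    zero_le_one zero_le_one (fun g => by simp [nsq]) (fun g => by simp [nsq]) hK0 (hK m)
  simpa using this

theorem step (hX : ∀ N, ∃ n, N ≤ n ∧ ∃ x : X n, ‖x‖ = 1) {b : Bool} {C : ℝ} (hC : 4 ≤ C)
    (h : GadW 𝕜 X b C) (m : ℕ) (D : ℝ) (N : ℕ) :
    ∃ (N' : ℕ) (G : Bool → Submodule 𝕜 (lp X 2)) (d : ℕ) (K : ℝ), N < N' ∧
      (∀ c, FiniteDimensional 𝕜 (G c)) ∧ Module.finrank 𝕜 (G true) = Module.finrank 𝕜 (G false) ∧
      (∀ c, ∀ g ∈ G c, ∀ k, k ∉ Finset.Ico N N' → g k = 0) ∧ Inv b (nsq (G true)) m C ∧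
      (∀ m', Inv b (nsq (G false)) m' C) ∧ ¬ Inv b (nsq (G true)) d D ∧ 0 ≤ K ∧
      ∀ m', Inv b (nsq (G true)) m' K := by
  obtain ⟨N1, hN1, G1, f1, s1, g1, d, b1⟩ := h m D N
  obtain ⟨N2, hN2, G0, f0, r0, s0, g0⟩ := hilb (𝕜 := 𝕜) hX b (Module.finrank 𝕜 G1) N1
  obtain ⟨K, hK0, hK⟩ := findim_inv G1 b
  refine ⟨N2 + 1, fun c => Bool.rec G0 G1 c, d, K, by omega, fun c => by cases c <;> assumption,
    r0.symm, fun c => ?_, g1, fun m' => (g0 m').const (fun _ => sq_nonneg _) hC, b1, hK0, hK⟩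
  cases c
  · intro g hg k hk
    exact s0 g hg k fun h1 => hk (by rw [Finset.mem_Ico] at h1 ⊢; omega)
  · intro g hg k hk
    exact s1 g hg k fun h1 => hk (by rw [Finset.mem_Ico] at h1 ⊢; omega)

theorem exists_family (hX : ∀ N, ∃ n, N ≤ n ∧ ∃ x : X n, ‖x‖ = 1) {b : Bool} {C : ℝ} (hC : 4 ≤ C)
    (h : GadW 𝕜 X b C) :
    ∃ S : (ℕ → Bool) → Submodule 𝕜 (lp X 2), (∀ u, IsClosed (S u : Set (lp X 2))) ∧
      (∀ U : Set (lp X 2), IsOpen U → IsOpen {u : ℕ → Bool | ((S u : Set (lp X 2)) ∩ U).Nonempty}) ∧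
      ∀ u v, (∀ᶠ n in atTop, u n = v n) ↔ Nonempty (S u ≃L[𝕜] S v) := by
  choose NN' GG dd KK h1 h2 h3 h4 h5 h6 h7 h8 h9 using step hX hC h
  let s : ℕ → ℕ × ℕ × ℝ := fun n => Nat.rec (0, 0, C) (fun n p =>
    (NN' p.2.1 ((n + 1) * p.2.2) p.1, max p.2.1 (dd p.2.1 ((n + 1) * p.2.2) p.1),
      p.2.2 + KK p.2.1 ((n + 1) * p.2.2) p.1)) n
  let N : ℕ → ℕ := fun n => (s n).1
  let m : ℕ → ℕ := fun n => (s n).2.1
  let K : ℕ → ℝ := fun n => (s n).2.2
  let G : ℕ → Bool → Submodule 𝕜 (lp X 2) := fun n => GG (m n) ((n + 1) * K n) (N n)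
  let d : ℕ → ℕ := fun n => dd (m n) ((n + 1) * K n) (N n)
  have eN : ∀ n, N (n + 1) = NN' (m n) ((n + 1) * K n) (N n) := fun n => rfl
  have em : ∀ n, m (n + 1) = max (m n) (d n) := fun n => rfl
  have eK : ∀ n, K (n + 1) = K n + KK (m n) ((n + 1) * K n) (N n) := fun n => rfl
  have hN : StrictMono N := strictMono_nat_of_lt_succ fun n => by rw [eN]; exact h1 _ _ _
  have hm : Monotone m := monotone_nat_of_le_succ fun n => by rw [em]; exact le_max_left _ _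
  have hK : Monotone K := monotone_nat_of_le_succ fun n => by
    rw [eK]; exact le_add_of_nonneg_right (h8 _ _ _)
  have hCK : ∀ n, C ≤ K n := fun n => hK (Nat.zero_le n)
  have hK0 : ∀ n, 0 ≤ K n := fun n => by linarith [hCK n]
  let P : ℕ → lp X 2 →L[𝕜] lp X 2 := fun n => blk 𝕜 X (Finset.Ico (N n) (N (n + 1)))
  have hP1 : ∀ i w, P i (P i w) = P i w := fun i w =>
    blk_self _ _ fun k hk => by rw [blk_apply, if_neg hk]
  have hP2 : ∀ i j, i ≠ j → ∀ w, P i (P j w) = 0 := by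
    intro i j hij w
    apply lp.ext
    funext k
    rw [blk_apply]
    split_ifs with hk
    · rw [blk_apply, if_neg]
      · rfl
      · intro hk'
        rw [Finset.mem_Ico] at hk hk'
        rcases lt_or_gt_of_ne hij with h | h
        · have := hN.monotone (show i + 1 ≤ j from h); omega
        · have := hN.monotone (show j + 1 ≤ i from h); omega
    · rfl
  have hs : ∀ w, HasSum (fun n => ‖P n w‖ ^ 2) (‖w‖ ^ 2) := blk_hasSum rfl hN
  have hG : ∀ n c, ∀ g ∈ G n c, P n g = g := fun n c g hg => blk_self _ _ (h4 _ _ _ c g hg)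
  have hfin : ∀ n c, FiniteDimensional 𝕜 (G n c) := fun n c => h2 _ _ _ c
  refine ⟨fam P G, fam_closed hfin, fun U hU => fam_open hP1 hP2 hs hU,
    fam_iff hP1 hP2 hs hG hfin (fun n => h3 _ _ _) (b := b) (d := d) hK0 ?_ (fun n => h7 _ _ _)⟩
  intro n i c hc
  cases c
  · exact (h6 _ _ _ _).const (fun _ => sq_nonneg _) (hCK n)
  · have hi : i ≠ n := fun h => by simpa using hc h
    rcases lt_or_gt_of_ne hi with h | h
    · refine (h9 _ _ _ _).const (fun _ => sq_nonneg _) ?_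
      have a1 := hK (show i + 1 ≤ n from h)
      rw [eK] at a1
      linarith [hK0 i]
    · refine ((h5 _ _ _).scale ?_).const (fun _ => sq_nonneg _) (hCK n)
      have a1 := hm (show n + 1 ≤ i from h)
      rw [em] at a1
      exact (le_max_right _ _).trans a1

end Pool.Agent.Lib.MP_435322_an
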