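import Pool.Agent.Lib.MP_435322_an.Blocks

/-! The trichotomy producing gadgets. -/

set_option linter.unusedSectionVars false

namespace Pool.Agent.Lib.MP_435322_an

open Finset Filter Topology

variable {𝕜 : Type*} [RCLike 𝕜] {X : ℕ → Type*} [∀ n, NormedAddCommGroup (X n)]
  [∀ n, NormedSpace 𝕜 (X n)]

/-- squared norm -/
noncomputable def nq (E : Type*) [NormedAddCommGroup E] : E → ℝ := fun v => ‖v‖ ^ 2

theorem nq_nonneg {E : Type*} [NormedAddCommGroup E] (v : E) : 0 ≤ nq E v := sq_nonneg _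

theorem sum_pos_of_not_ineq {E : Type*} [NormedAddCommGroup E] {b : Bool} {K : ℝ} (hK : 0 ≤ K)
    {k : ℕ} {x : Fin k → E} (h : ¬ Ineq b (nq E) K x) : 0 < ∑ i, nq E (x i) := by
  by_contra h1
  have h2 : ∑ i, nq E (x i) = 0 :=
    le_antisymm (not_lt.1 h1) (Finset.sum_nonneg fun i _ => nq_nonneg _)
  have h3 : ∀ i, x i = 0 := fun i => by
    have := (Finset.sum_eq_zero_iff_of_nonneg (fun i _ => nq_nonneg (x i))).1 h2 i
      (Finset.mem_univ i)
    simpa [nq] using this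
  have h4 : rad (nq E) x = 0 := by
    unfold rad
    simp only [h3, smul_zero, Finset.sum_const_zero, nq, norm_zero]
    rw [Ex_const isW_hf]; norm_num
  apply h
  unfold Ineq
  rw [h2, h4]
  cases b <;> simp

variable (𝕜) in
theorem exists_normalized {E : Type*} [NormedAddCommGroup E] [NormedSpace 𝕜 E] {b : Bool} {K : ℝ}
    (hK : 0 ≤ K) {k : ℕ} {x : Fin k → E} (h : ¬ Ineq b (nq E) K x) :
    ∃ y : Fin k → E, ∑ i, nq E (y i) = 1 ∧ ¬ Ineq b (nq E) K y := by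
  have hS := sum_pos_of_not_ineq hK h
  set S := ∑ i, nq E (x i) with hSdef
  let s : 𝕜 := ((1 / √S : ℝ) : 𝕜)
  have hs : ∀ v : E, nq E (s • v) = 1 / S * nq E v := fun v => by
    simp only [nq, s]
    rw [norm_smul, mul_pow, RCLike.norm_ofReal, sq_abs, div_pow, Real.sq_sqrt hS.le, one_pow]
  have h1 : ∑ i, nq E (s • x i) = 1 / S * S := by
    simp only [hs]; rw [← Finset.mul_sum]
  have h2 : rad (nq E) (fun i => s • x i) = 1 / S * rad (nq E) x := by
    have := rad_map (s • LinearMap.id : E →ₗ[𝕜] E).toAddMonoidHom (nq E) x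
    simp only [LinearMap.toAddMonoidHom_coe, LinearMap.smul_apply, LinearMap.id_apply, hs,
      rad_mul] at this
    exact this
  have h0 : 0 < 1 / S := by positivity
  refine ⟨fun i => s • x i, by rw [h1]; field_simp, fun h3 => h ?_⟩
  unfold Ineq at h3 ⊢
  rw [h1, h2] at h3
  cases b
  · simp only [Bool.false_eq_true, if_false] at h3 ⊢
    exact le_of_mul_le_mul_left (h3.trans (le_of_eq (by ring))) h0
  · simp only [if_true] at h3 ⊢
    exact le_of_mul_le_mul_left (h3.trans (le_of_eq (by ring))) h0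

theorem norm_sq_le_eo {ι : Type} [Fintype ι] (c : ι → 𝕜) : ‖c‖ ^ 2 ≤ eo Finset.univ c := by
  have h : ‖c‖ ≤ √(eo Finset.univ c) := by
    refine (pi_norm_le_iff_of_nonneg (Real.sqrt_nonneg _)).2 fun j => Real.le_sqrt_of_sq_le ?_
    exact Finset.single_le_sum (f := fun j => ‖c j‖ ^ 2) (fun _ _ => sq_nonneg _)
      (Finset.mem_univ j)
  calc _ ≤ √(eo Finset.univ c) ^ 2 := by gcongr
    _ = _ := Real.sq_sqrt (eo_nonneg _ _)

/-- limit of pulled back norms along an ultrafilter -/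
theorem exists_limit {k : ℕ} (T : ∀ n, (Fin k → 𝕜) →ₗ[𝕜] X n) {L : ℝ} (hL : 0 ≤ L)
    (hT : ∀ n c, ‖T n c‖ ≤ L * ‖c‖) (𝒰 : Ultrafilter ℕ) (h𝒰 : (𝒰 : Filter ℕ) ≤ atTop) :
    ∃ q : (Fin k → 𝕜) → ℝ, Rep X q ∧ ∀ c, Tendsto (fun n => ‖T n c‖ ^ 2) 𝒰 (𝓝 (q c)) := by
  have hex : ∀ c, ∃ a, Tendsto (fun n => ‖T n c‖) 𝒰 (𝓝 a) := by
    intro c
    obtain ⟨a, -, ha⟩ := isCompact_Icc.ultrafilter_le_nhds (𝒰.map (fun n => ‖T n c‖))
      (s := Set.Icc 0 (L * ‖c‖)) (by
        rw [le_principal_iff]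
        exact mem_map.2 (Eventually.of_forall fun n => ⟨norm_nonneg _, hT n c⟩))
    exact ⟨a, ha⟩
  choose ν hν using hex
  have hq : ∀ c, Tendsto (fun n => ‖T n c‖ ^ 2) 𝒰 (𝓝 (ν c ^ 2)) := fun c => (hν c).pow 2
  have hcq : CQ (fun c => ν c ^ 2) := by
    refine ⟨⟨convex_univ, fun u _ v _ a b ha hb hab => ?_⟩, fun s v => ?_⟩
    · refine le_of_tendsto_of_tendsto' (hq _) (((hq u).const_mul a).add ((hq v).const_mul b))
        fun n => ?_
      exact (cq_normsq (T n)).convex.2 (Set.mem_univ u) (Set.mem_univ v) ha hb hab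
    · refine tendsto_nhds_unique (hq _) ?_
      have := (hq v).const_mul (‖s‖ ^ 2)
      refine this.congr fun n => ?_
      exact ((cq_normsq (T n)).hom s v).symm
  refine ⟨fun c => ν c ^ 2, rep_of_single hcq fun δ hδ N => ?_, hq⟩
  have : ProperSpace (Fin k → 𝕜) := FiniteDimensional.proper_rclike 𝕜 _
  have : CompactSpace (Metric.closedBall (0 : Fin k → 𝕜) 1) :=
    isCompact_iff_compactSpace.1 (isCompact_closedBall _ _)
  let F : ℕ → Metric.closedBall (0 : Fin k → 𝕜) 1 → ℝ := fun n c => ‖T n c‖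
  have hlip : ∀ n, LipschitzWith ⟨L, hL⟩ (F n) := fun n =>
    LipschitzWith.of_dist_le_mul fun c c' => by
      simp only [F, Real.dist_eq, Subtype.dist_eq, dist_eq_norm]
      refine (abs_norm_sub_norm_le _ _).trans ?_
      rw [← map_sub]
      exact hT n _
  have heq : Equicontinuous F := (LipschitzWith.uniformEquicontinuous F _ hlip).equicontinuous
  have h1 := (heq.tendsto_uniformFun_iff_pi 𝒰 (fun c => ν c)).2
    (tendsto_pi_nhds.2 fun c => hν c)
  rw [UniformFun.tendsto_iff_tendstoUniformly, Metric.tendstoUniformly_iff] at h1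
  have h2 := h1 (δ / (2 * L + 1)) (by positivity)
  obtain ⟨n, hn1, hn2⟩ := (h2.and (h𝒰 (eventually_ge_atTop N))).exists
  refine ⟨n, hn2, T n, fun c => ?_⟩
  have unit : ∀ c : Fin k → 𝕜, ‖c‖ ≤ 1 → |‖T n c‖ ^ 2 - ν c ^ 2| ≤ δ := by
    intro c hc
    have h3 : dist (ν c) ‖T n c‖ < δ / (2 * L + 1) := hn1 ⟨c, mem_closedBall_zero_iff.2 hc⟩
    rw [Real.dist_eq, abs_sub_comm] at h3
    have h4 : ‖T n c‖ ≤ L := (hT n c).trans (mul_le_of_le_one_right hL hc)
    have h5 : ν c ≤ L := le_of_tendsto' (hν c) fun n => (hT n c).trans (mul_le_of_le_one_right hL hc)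
    have h6 : 0 ≤ ν c := ge_of_tendsto' (hν c) fun n => norm_nonneg _
    rw [sq_sub_sq, abs_mul, abs_of_nonneg (add_nonneg (norm_nonneg _) h6)]
    calc _ ≤ (2 * L + 1) * (δ / (2 * L + 1)) :=
          mul_le_mul (by linarith) h3.le (abs_nonneg _) (by positivity)
      _ = δ := by field_simp
  by_cases hc : c = 0
  · have h3 := hcq.zero
    rw [hc, h3, map_zero]
    simp [eo]
  · have hc' : 0 < ‖c‖ := norm_pos_iff.2 hc
    have h3 := unit ((‖c‖⁻¹ : ℝ) • c) (by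
      rw [norm_smul, norm_inv, norm_norm, inv_mul_cancel₀ hc'.ne'])
    have h4 := hcq.hom_real ‖c‖⁻¹ c
    have h5 := (cq_normsq (T n)).hom_real ‖c‖⁻¹ c
    rw [h4, h5, ← mul_sub, abs_mul, abs_of_nonneg (sq_nonneg _), inv_pow,
      inv_mul_le_iff₀ (by positivity)] at h3
    refine h3.trans ?_
    rw [mul_comm]
    exact mul_le_mul_of_nonneg_left (norm_sq_le_eo c) hδ.le

theorem eventually_ineq {b : Bool} {K : ℝ} (hK0 : 0 ≤ K)
    (hK : ∀ (d : ℕ) (q : (Fin d → 𝕜) → ℝ), Rep X q → ∀ m, Inv b q m K) (k : ℕ) :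
    ∀ᶠ n in atTop, ∀ x : Fin k → X n, Ineq b (nq (X n)) (K + 1) x := by
  by_contra h
  rw [not_eventually] at h
  set s : Set ℕ := {n | ¬ ∀ x : Fin k → X n, Ineq b (nq (X n)) (K + 1) x} with hs
  have hx : ∀ n, ∃ x : Fin k → X n, (∀ i, ‖x i‖ ≤ 1) ∧
      (n ∈ s → ∑ i, nq (X n) (x i) = 1 ∧ ¬ Ineq b (nq (X n)) (K + 1) x) := by
    intro n
    by_cases hn : n ∈ s
    · obtain ⟨x, hx⟩ := not_forall.1 hn
      obtain ⟨y, hy1, hy2⟩ := exists_normalized 𝕜 (by linarith) hx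
      refine ⟨y, fun i => ?_, fun _ => ⟨hy1, hy2⟩⟩
      have h1 : nq (X n) (y i) ≤ 1 := by
        rw [← hy1]
        exact Finset.single_le_sum (f := fun i => nq (X n) (y i)) (fun _ _ => nq_nonneg _)
          (Finset.mem_univ i)
      exact (pow_le_one_iff_of_nonneg (norm_nonneg _) two_ne_zero).1 h1
    · exact ⟨0, fun i => by simp, fun h => (hn h).elim⟩
  choose x hx1 hx2 using hx
  have : (atTop ⊓ 𝓟 s).NeBot := frequently_mem_iff_neBot.1 h
  let 𝒰 := Ultrafilter.of (atTop ⊓ 𝓟 s)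
  have h𝒰 : (𝒰 : Filter ℕ) ≤ atTop ⊓ 𝓟 s := Ultrafilter.of_le _
  have h𝒰s : ∀ᶠ n in (𝒰 : Filter ℕ), n ∈ s := le_principal_iff.1 (h𝒰.trans inf_le_right)
  let T : ∀ n, (Fin k → 𝕜) →ₗ[𝕜] X n := fun n => Fintype.linearCombination 𝕜 (x n)
  obtain ⟨q, hq, hlim⟩ := exists_limit T (L := k) (Nat.cast_nonneg k) (fun n c => by
    simp only [T, Fintype.linearCombination_apply]
    refine (norm_sum_le _ _).trans ?_
    have := Finset.sum_le_card_nsmul Finset.univ (fun i => ‖c i • x n i‖) ‖c‖ (fun i _ => by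
      rw [norm_smul]
      exact (mul_le_of_le_one_right (norm_nonneg _) (hx1 n i)).trans (norm_le_pi_norm c i))
    simpa using this) 𝒰 (h𝒰.trans inf_le_left)
  let e : Fin k → Fin k → 𝕜 := fun i => Pi.single i 1
  have hTe : ∀ n i, T n (e i) = x n i := fun n i => by
    simp [T, e, Fintype.linearCombination_apply_single]
  have l1 : Tendsto (fun n => ∑ i, nq (X n) (x n i)) 𝒰 (𝓝 (∑ i, q (e i))) :=
    tendsto_finsetSum _ fun i _ => (hlim (e i)).congr fun n => by rw [hTe]; rfl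
  have l2 : Tendsto (fun n => rad (nq (X n)) (x n)) 𝒰 (𝓝 (rad q e)) := by
    have : ∀ n, rad (nq (X n)) (x n) = rad (fun c => ‖T n c‖ ^ 2) e := fun n => by
      have h1 := rad_map (T n).toAddMonoidHom (nq (X n)) e
      simp only [LinearMap.toAddMonoidHom_coe, hTe] at h1
      exact h1
    simp only [this]
    exact tendsto_finsetSum _ fun ε _ => (hlim _).const_mul _
  have l3 : ∑ i, q (e i) = 1 :=
    tendsto_nhds_unique l1 (tendsto_const_nhds.congr' (h𝒰s.mono fun n hn => (hx2 n hn).1.symm))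
  have h1 := hK k q hq k k le_rfl e
  unfold Ineq at h1
  rw [l3] at h1
  cases b
  · simp only [Bool.false_eq_true, if_false] at h1
    have h2 : (K + 1) * rad q e ≤ 1 := le_of_tendsto (l2.const_mul (K + 1)) (h𝒰s.mono fun n hn => by
      have h3 := (hx2 n hn).2
      unfold Ineq at h3
      rw [(hx2 n hn).1] at h3
      simp only [Bool.false_eq_true, if_false, not_le] at h3
      exact h3.le)
    nlinarith
  · simp only [if_true] at h1
    have h2 : K + 1 ≤ rad q e := ge_of_tendsto l2 (h𝒰s.mono fun n hn => by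
      have h3 := (hx2 n hn).2
      unfold Ineq at h3
      rw [(hx2 n hn).1] at h3
      simp only [if_true, not_le, mul_one] at h3
      exact h3.le)
    linarith

theorem gadW_of_bounded {b : Bool} {K : ℝ} (hK0 : 0 ≤ K)
    (hK : ∀ (d : ℕ) (q : (Fin d → 𝕜) → ℝ), Rep X q → ∀ m, Inv b q m K)
    (hbad : ∀ (D : ℝ) (N : ℕ), ∃ n, N ≤ n ∧ ∃ m, ¬ Inv b (nq (X n)) m D) :
    GadW 𝕜 X b (K + 1) := by
  intro m D N
  have h1 : ∀ᶠ n in atTop, ∀ k ∈ Set.Iic m, ∀ x : Fin k → X n, Ineq b (nq (X n)) (K + 1) x :=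
    (eventually_all_finite (Set.finite_Iic m)).2 fun k _ => eventually_ineq hK0 hK k
  obtain ⟨N1, hN1⟩ := eventually_atTop.1 h1
  obtain ⟨n, hn, m', h2⟩ := hbad D (max N N1)
  simp only [Inv, not_forall] at h2
  obtain ⟨k, -, x, hx⟩ := h2
  let φ : (Fin k → 𝕜) →ₗ[𝕜] lp X 2 := (lp.lsingle 2 n).comp (Fintype.linearCombination 𝕜 x)
  let A : LinearMap.range φ →ₗ[𝕜] X n := (lp.evalₗ X 2 n).comp (LinearMap.range φ).subtype
  have hA : ∀ g : LinearMap.range φ, nsq (LinearMap.range φ) g = nq (X n) (A g) := by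
    rintro ⟨g, c, rfl⟩
    simp only [nsq, nq, A, φ, LinearMap.comp_apply, Submodule.subtype_apply, lp.lsingle_apply,
      lp.evalₗ_apply]
    erw [lp.norm_single (by norm_num), lp.single_apply_self]
  refine ⟨n + 1, by omega, LinearMap.range φ, inferInstance, ?_, ?_, k, fun h3 => hx ?_⟩
  · rintro g ⟨c, rfl⟩ j hj
    exact lp.single_apply_ne 2 n _ fun h => hj (by rw [Finset.mem_Ico]; omega)
  · have := Inv.transfer (q := nsq (LinearMap.range φ)) (q' := nq (X n)) A.toAddMonoidHom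
      zero_le_one zero_le_one (fun g => by rw [one_mul]; exact (hA g).le)
      (fun g => by rw [one_mul]; exact (hA g).ge) (b := b) (m := m) (C := K + 1) (by linarith)
      (fun k' hk' => hN1 n (by omega) k' hk')
    simpa using this
  · let y : Fin k → LinearMap.range φ := fun i => ⟨φ (Pi.single i 1), LinearMap.mem_range_self _ _⟩
    have hy : ∀ i, A (y i) = x i := fun i => by
      simp only [A, y, φ, LinearMap.comp_apply, Submodule.subtype_apply, lp.lsingle_apply,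
        lp.evalₗ_apply, Fintype.linearCombination_apply_single, one_smul]
      erw [lp.single_apply_self]
    have h4 := h3 k le_rfl y
    have h5 := rad_map A.toAddMonoidHom (nq (X n)) y
    simp only [LinearMap.toAddMonoidHom_coe, hy, ← hA] at h5
    have h6 : ∑ i, nq (X n) (x i) = ∑ i, nsq (LinearMap.range φ) (y i) :=
      Finset.sum_congr rfl fun i _ => by rw [hA, hy]
    unfold Ineq at h4 ⊢
    rw [h5, h6]
    exact h4

theorem rep_cotype {ι : Type} [Fintype ι] {q : (ι → 𝕜) → ℝ} (hq : Rep X q) {n : ℕ} {a G : ℝ}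
    (hG : 0 < G) (h : ∀ y : Fin n → lp X 2, (∀ j, 1 / 2 ≤ ‖y j‖ ^ 2) → a ≤ G * rad (nq _) y)
    (y : Fin n → ι → 𝕜) (hy : ∀ j, q (y j) = 1) : a ≤ G * rad q y := by
  set A := ∑ j, eo Finset.univ (y j) with hA
  have hA0 : 0 ≤ A := Finset.sum_nonneg fun _ _ => eo_nonneg _ _
  refine le_of_forall_pos_le_add fun ε hε => ?_
  set δ := min (1 / (2 * (A + 1))) (ε / (G * (A + 1))) with hδ
  have hδ0 : 0 < δ := lt_min (by positivity) (by positivity)
  have hδ1 : δ * A ≤ 1 / 2 := by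
    calc δ * A ≤ 1 / (2 * (A + 1)) * (A + 1) :=
          mul_le_mul (min_le_left _ _) (by linarith) hA0 (by positivity)
      _ = 1 / 2 := by field_simp
  have hδ2 : G * (δ * A) ≤ ε := by
    calc G * (δ * A) ≤ G * (ε / (G * (A + 1)) * (A + 1)) :=
          mul_le_mul_of_nonneg_left
            (mul_le_mul (min_le_right _ _) (by linarith) hA0 (by positivity)) hG.le
      _ = ε := by field_simp
  obtain ⟨N', hN, T, hT⟩ := hq.2 δ hδ0 0
  let φ : (ι → 𝕜) →ₗ[𝕜] lp X 2 := ∑ k ∈ Finset.Ico 0 N', (lp.lsingle 2 k).comp (T k)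
  have hφ : ∀ c, φ c = ∑ k ∈ Finset.Ico 0 N', lp.single 2 k (T k c) := fun c => by
    simp only [φ, LinearMap.sum_apply]; rfl
  have hb : ∀ c, |‖φ c‖ ^ 2 - q c| ≤ δ * eo Finset.univ c := fun c => by
    rw [hφ, lp_norm_sum_single]; exact hT c
  have h1 := h (fun j => φ (y j)) (fun j => by
    have h2 := (abs_le.1 (hb (y j))).1
    have h3 : eo Finset.univ (y j) ≤ A :=
      Finset.single_le_sum (f := fun j => eo Finset.univ (y j)) (fun _ _ => eo_nonneg _ _)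
        (Finset.mem_univ j)
    have h4 := mul_le_mul_of_nonneg_left h3 hδ0.le
    rw [hy] at h2
    linarith)
  have h2 : rad (nq _) (fun j => φ (y j)) ≤ rad q y + δ * A := by
    rw [hA, ← rad_eo, ← rad_mul, ← rad_add]
    refine (rad_map φ.toAddMonoidHom (nq _) y).trans_le (rad_mono (fun c => ?_) y)
    have h3 := (abs_le.1 (hb c)).2
    show ‖φ c‖ ^ 2 ≤ _
    linarith
  have h3 := mul_le_mul_of_nonneg_left h2 hG.le
  linarith

theorem exists_unit (𝕜 : Type*) [RCLike 𝕜] {X : ℕ → Type*} [∀ n, NormedAddCommGroup (X n)]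
    [∀ n, NormedSpace 𝕜 (X n)]
    (hbad : ∀ (K : ℝ) (N : ℕ), ∃ n, N ≤ n ∧ ∃ b m, ¬ Inv b (nq (X n)) m K) (N : ℕ) :
    ∃ n, N ≤ n ∧ ∃ x : X n, ‖x‖ = 1 := by
  obtain ⟨n, hn, b, m, h⟩ := hbad 0 N
  simp only [Inv, not_forall] at h
  obtain ⟨k, -, x, hx⟩ := h
  have h1 := sum_pos_of_not_ineq le_rfl hx
  obtain ⟨i, -, hi⟩ := Finset.exists_ne_zero_of_sum_ne_zero h1.ne'
  have h2 : x i ≠ 0 := fun h => hi (by simp [nq, h])
  exact ⟨n, hn, ((‖x i‖⁻¹ : ℝ) : 𝕜) • x i, by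
    rw [norm_smul, RCLike.norm_ofReal, abs_inv, abs_norm, inv_mul_cancel₀ (norm_ne_zero_iff.2 h2)]⟩

variable (𝕜) in
theorem exists_gadW
    (hbad : ∀ (K : ℝ) (N : ℕ), ∃ n, N ≤ n ∧ ∃ b m, ¬ Inv b (nq (X n)) m K)
    (hcot : ∀ r : ℕ, ∃ C : ℝ, 0 < C ∧ ∀ (k : ℕ) (y : Fin (r ^ k) → lp X 2),
      (∀ j, 1 / 2 ≤ ‖y j‖ ^ 2) → (r : ℝ) ^ k ≤ C * (3 / 2) ^ k * rad (nq _) y) :
    ∃ b C, 4 ≤ C ∧ GadW 𝕜 X b C := by
  have hX := exists_unit 𝕜 hbad
  by_cases hA : ∀ B : ℝ, ∃ (d m : ℕ) (q : (Fin d → 𝕜) → ℝ), Rep X q ∧ ¬ Inv true q m B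
  · exact ⟨true, _, by norm_num, gadW_of_gad (by norm_num) (gadI hX hA)⟩
  push Not at hA
  obtain ⟨T, hT⟩ := hA
  have hT' : ∀ (d : ℕ) (q : (Fin d → 𝕜) → ℝ), Rep X q → ∀ m, Inv true q m |T| :=
    fun d q hq m => (hT d m q hq).const hq.1.nonneg (le_abs_self T)
  by_cases hB : ∀ B : ℝ, ∃ (d m : ℕ) (q : (Fin d → 𝕜) → ℝ), Rep X q ∧ ¬ Inv false q m B
  · have h0 := abs_nonneg T
    refine ⟨false, _, ?_, gadW_of_gad (by positivity) (gadII hX h0 hT' hB fun r => ?_)⟩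
    · nlinarith [mul_nonneg h0 h0]
    · obtain ⟨C, hC0, hC⟩ := hcot r
      exact ⟨C, hC0, fun d q hq k y hy => rep_cotype hq (by positivity) (hC k) y hy⟩
  push Not at hB
  obtain ⟨B, hB⟩ := hB
  set K := |T| + |B| + 3 with hKdef
  have hK0 : 0 ≤ K := by positivity
  have hK : ∀ (b : Bool) (d : ℕ) (q : (Fin d → 𝕜) → ℝ), Rep X q → ∀ m, Inv b q m K := by
    intro b d q hq m
    cases b
    · exact (hB d m q hq).const hq.1.nonneg (by linarith [le_abs_self B, abs_nonneg T])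
    · exact (hT' d q hq m).const hq.1.nonneg (by linarith [abs_nonneg B])
  have h4 : 4 ≤ K + 1 := by linarith [abs_nonneg T, abs_nonneg B]
  by_cases h : ∀ (D : ℝ) (N : ℕ), ∃ n, N ≤ n ∧ ∃ m, ¬ Inv true (nq (X n)) m D
  · exact ⟨true, _, h4, gadW_of_bounded hK0 (hK true) h⟩
  push Not at h
  obtain ⟨D0, N0, h⟩ := h
  refine ⟨false, _, h4, gadW_of_bounded hK0 (hK false) fun D N => ?_⟩
  obtain ⟨n, hn, b, m, h1⟩ := hbad (max D D0) (max N N0)
  refine ⟨n, by omega, m, fun h2 => h1 ?_⟩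
  cases b
  · exact h2.const nq_nonneg (le_max_left _ _)
  · exact (h n (by omega) m).const nq_nonneg (le_max_right _ _)

end Pool.Agent.Lib.MP_435322_an
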