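import Pool.Agent.Lib.MP_435322_an.Rep

/-! The one-scale building blocks. -/

set_option linter.unusedSectionVars false

namespace Pool.Agent.Lib.MP_435322_an

open Finset

variable {𝕜 : Type*} [RCLike 𝕜] {X : ℕ → Type*} [∀ n, NormedAddCommGroup (X n)]
  [∀ n, NormedSpace 𝕜 (X n)]

theorem exists_nondeg (hX : ∀ N, ∃ n, N ≤ n ∧ ∃ x : X n, ‖x‖ = 1) {b : Bool} {B : ℝ} (hB : 0 ≤ B)
    {d m : ℕ} {q0 : (Fin d → 𝕜) → ℝ} (h0 : Rep X q0) (h1 : ¬ Inv b q0 m B) :
    ∃ q : (Fin d → 𝕜) → ℝ, Rep X q ∧ ¬ Inv b q m B ∧ (∀ v, q v ≤ 0 → v = 0) ∧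
      ∃ K, ∀ m, Inv true q m K := by
  obtain ⟨η, hη, h2⟩ := exists_perturb hB h1
  have hq : Rep X (fun c => q0 c + η * eo Finset.univ c) := h0.add ((rep_eo hX _).mul hη.le)
  have h3 : ∀ c, η * eo Finset.univ c ≤ q0 c + η * eo Finset.univ c := fun c => by
    linarith [h0.1.nonneg c]
  refine ⟨_, hq, h2, fun v hv => eq_zero_of_eo ?_, ?_⟩
  · have := (h3 v).trans hv
    by_contra h
    have := mul_pos hη (not_le.1 h)
    linarith
  · obtain ⟨K, _, hK⟩ := hq.1.exists_inv hη h3 true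
    exact ⟨K, hK⟩

/-- building block when type 2 fails -/
theorem compI (hX : ∀ N, ∃ n, N ≤ n ∧ ∃ x : X n, ‖x‖ = 1)
    (hA : ∀ B : ℝ, ∃ (d m : ℕ) (q : (Fin d → 𝕜) → ℝ), Rep X q ∧ ¬ Inv true q m B)
    (r : ℕ) {δ : ℝ} (hδ : 0 < δ) :
    ∃ r' : ℕ, ∀ M : ℕ, ∃ F : (Fin M → 𝕜) → ℝ, Rep X F ∧
      (∀ c σ, σ.card ≤ r → F c ≤ δ * eo Finset.univ c + 2 * eo σᶜ c) ∧
      (∀ c, ∃ σ : Finset (Fin M), σ.card ≤ r' ∧
        eo σᶜ c / 4608 - δ * eo Finset.univ c ≤ F c) := by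
  have hB : 0 < (2 * r + 1) / δ := by positivity
  obtain ⟨d, m, q0, h0, h1⟩ := hA ((2 * r + 1) / δ)
  obtain ⟨q, hq, h2, h3, K, hK⟩ := exists_nondeg hX hB.le h0 h1
  obtain ⟨t, htB, ht, ht2⟩ := exists_half (fun t => ∀ m, Inv true q m t)
    (fun a b h hab m => (h m).const hq.1.nonneg hab) hB (fun h => h2 (h m)) hK
  have ht0 : 0 < t := hB.trans_le htB
  simp only [Inv, not_forall] at ht2
  obtain ⟨m', n, hn, x, hx⟩ := ht2
  simp only [Ineq, if_true, not_le] at hx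
  have hS : 0 < ∑ i, q (x i) := by
    have h4 := ht m' n hn x
    simp only [Ineq, if_true] at h4
    by_contra h
    have h5 : ∑ i, q (x i) = 0 :=
      le_antisymm (not_lt.1 h) (Finset.sum_nonneg fun i _ => hq.1.nonneg _)
    rw [h5] at h4 hx
    linarith
  obtain ⟨I, _, _, p, u, hp, hp0, hu, hρ⟩ := exists_clean hq.1 h3 x hS
  have hρ' : t / 2 ≤ rho q u (fun i => ((√(p i) : ℝ) : 𝕜)) := by
    rw [hρ, le_div_iff₀ hS]; exact hx.le
  obtain ⟨η, hη, hηp⟩ := exists_min_pos hp0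
  refine ⟨⌈1 / (δ * η)⌉₊, fun M => ⟨fun c => (1 / t) * NN q p u c,
    (hq.nn hp u).mul (by positivity), fun c σ hσ => ?_, fun c => ?_⟩⟩
  · have hN := cq_NN (ι := Fin M) (u := u) hq.1 hp
    have a1 := hN.add_le (res σ c) (res σᶜ c)
    rw [res_add_compl] at a1
    have a2 := NN_sparse_le hq.1 hp (fun i => (hu i).le) σ (res σ c) (fun j hj => if_neg hj)
    have a3 := NN_type_le hq.1 hp (fun i => (hu i).le) ht0.le ht (res σᶜ c)
    rw [eo_res_self] at a2
    rw [eo_res] at a3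
    have a4 : eo σ c ≤ eo Finset.univ c := eo_mono (Finset.subset_univ _) c
    have a5 : (σ.card : ℝ) ≤ r := by exact_mod_cast hσ
    have a6 : (σ.card : ℝ) * eo σ c ≤ r * eo Finset.univ c :=
      mul_le_mul a5 a4 (eo_nonneg _ _) (Nat.cast_nonneg _)
    have a7 : 2 * (r : ℝ) ≤ δ * t := by
      rw [div_le_iff₀ hδ] at htB; linarith
    have a8 := mul_le_mul_of_nonneg_right a7 (eo_nonneg Finset.univ c)
    show 1 / t * NN q p u c ≤ _
    rw [one_div, inv_mul_eq_div, div_le_iff₀ ht0]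
    nlinarith
  · refine ⟨peak (δ * η) c, peak_card (by positivity) c, ?_⟩
    have hN := cq_NN (ι := Fin M) (u := u) hq.1 hp
    set σ := peak (δ * η) c with hσ
    have hτ := eo_nonneg σᶜ c
    have hA0 := eo_nonneg Finset.univ c
    show _ ≤ 1 / t * NN q p u c
    rcases le_total (eo σᶜ c) (δ * eo Finset.univ c) with h | h
    · have := mul_nonneg (show 0 ≤ 1 / t by positivity) (hN.nonneg c)
      linarith
    · have b1 := NN_flat_ge (u := u) hq.1 hp (res σᶜ c) (fun i => by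
        rw [eo_res]
        refine (res_peak_sq c).trans ?_
        calc δ * η * eo Finset.univ c * eo σᶜ c = η * ((δ * eo Finset.univ c) * eo σᶜ c) := by ring
          _ ≤ p i * (eo σᶜ c * eo σᶜ c) :=
            mul_le_mul (hηp i) (mul_le_mul_of_nonneg_right h hτ) (by positivity) (hp0 i).le
          _ = _ := by ring)
      rw [eo_res] at b1
      have b2 := hN.contract signInv_NN (norm_res_le σᶜ c)
      have b3 := mul_le_mul_of_nonneg_left hρ' hτ
      have b4 : eo σᶜ c / 4608 ≤ 1 / t * NN q p u c := by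
        rw [one_div, inv_mul_eq_div, le_div_iff₀ ht0]
        linarith
      have := mul_nonneg hδ.le hA0
      linarith

section blocks
variable {κ I ι : Type} [Fintype I] [DecidableEq I] [Fintype ι] [DecidableEq ι]

/-- the sampled function on vectors repeated `L` times -/
noncomputable def QQ (q : (κ → 𝕜) → ℝ) (p : I → ℝ) (u : I → κ → 𝕜) (L : ℕ) (c : ι → 𝕜) : ℝ :=
  NN q p u (fun a : ι × Fin L => c a.1)

/-- the sampled function on the constant vector -/
noncomputable def psi (q : (κ → 𝕜) → ℝ) (p : I → ℝ) (u : I → κ → 𝕜) (n : ℕ) : ℝ :=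
  NN q p u (fun _ : Fin n => (1 : 𝕜))

variable {q : (κ → 𝕜) → ℝ} {p : I → ℝ} {u : I → κ → 𝕜} {L : ℕ}

theorem cq_QQ (hq : CQ q) (hp : IsW p) : CQ (QQ (ι := ι) q p u L) :=
  (cq_NN (ι := ι × Fin L) (u := u) hq hp).comp (LinearMap.funLeft 𝕜 𝕜 Prod.fst)

theorem signInv_QQ : SignInv (QQ (ι := ι) q p u L) := fun s c =>
  signInv_NN (ι := ι × Fin L) (fun a => s a.1) (fun a => c a.1)

theorem QQ_inj (hp : IsW p) {ι' : Type} [Fintype ι'] [DecidableEq ι'] (e : ι' → ι)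
    (he : Function.Injective e) (c : ι → 𝕜) (hc : ∀ j, j ∉ Set.range e → c j = 0) :
    QQ q p u L c = QQ q p u L (fun k => c (e k)) :=
  NN_inj hp (Prod.map e id) (he.prodMap Function.injective_id) (fun a : ι × Fin L => c a.1)
    (fun a ha => hc _ fun ⟨k, hk⟩ => ha ⟨(k, a.2), by simp [hk]⟩)

theorem QQ_inv (hp : IsW p) {T : ℝ} (hT0 : 0 ≤ T) {m : ℕ} (hT : Inv true q m T) :
    Inv true (QQ (ι := ι) q p u L) m T := by
  have h := Inv.transfer (q := QQ (ι := ι) q p u L)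
    (LinearMap.funLeft 𝕜 𝕜 (Prod.fst : ι × Fin L → ι)).toAddMonoidHom zero_le_one zero_le_one
    (fun v => by rw [one_mul]; exact le_rfl) (fun v => by rw [one_mul]; exact le_rfl) hT0
    (NN_inv (ι := ι × Fin L) (u := u) hp hT)
  simpa using h

theorem QQ_single (hq : CQ q) (hp : IsW p) (j : ι) (a : 𝕜) :
    QQ q p u L (Pi.single j a) = ‖a‖ ^ 2 * psi q p u L := by
  have h := NN_inj (q := q) (u := u) hp (fun l : Fin L => (j, l))
    (fun l l' h => (Prod.ext_iff.1 h).2) (fun b : ι × Fin L => (Pi.single j a : ι → 𝕜) b.1)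
    (fun b hb => Pi.single_eq_of_ne (fun h => hb ⟨b.2, by simp [← h]⟩) _)
  unfold QQ psi
  rw [h, ← (cq_NN hq hp).hom]
  congr 1
  funext l
  simp

theorem QQ_one (hp : IsW p) (r : ℕ) :
    QQ q p u L (fun _ : Fin r => (1 : 𝕜)) = psi q p u (r * L) :=
  NN_inj hp finProdFinEquiv.symm finProdFinEquiv.symm.injective _
    (fun j hj => (hj (finProdFinEquiv.symm.surjective j)).elim)

theorem QQ_le (hq : CQ q) (hp : IsW p) {T : ℝ} (hT0 : 0 ≤ T) (hT : ∀ m, Inv true q m T)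
    (c : ι → 𝕜) : QQ q p u L c ≤ T * (eo Finset.univ c * psi q p u L) := by
  have h := Inv.fintype (fun m => QQ_inv (ι := ι) (u := u) (L := L) hp hT0 (hT m))
    (fun j => (Pi.single j (c j) : ι → 𝕜))
  simp only [Ineq, if_true, QQ_single hq hp] at h
  have e : rad (QQ q p u L) (fun j => (Pi.single j (c j) : ι → 𝕜)) = QQ q p u L c := by
    unfold rad
    rw [← Ex_const (ι := ι) isW_hf (QQ q p u L c)]
    refine Ex_congr fun ε => ?_
    rw [← signInv_QQ ε c]
    congr 1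
    funext i
    simp only [Finset.sum_apply, Pi.smul_apply]
    rw [Finset.sum_eq_single i]
    · rw [Pi.single_eq_same]
    · intro j _ hj; rw [Pi.single_eq_of_ne hj.symm, smul_zero]
    · intro h; exact (h (Finset.mem_univ _)).elim
  rw [e, ← Finset.sum_mul] at h
  exact h

theorem QQ_cyc_ge (hq : CQ q) (hp : IsW p) {T : ℝ} (hT0 : 0 ≤ T) (hT : ∀ m, Inv true q m T)
    {r : ℕ} [NeZero r] (c : Fin r → 𝕜) :
    eo Finset.univ c * psi q p u (r * L) ≤ 576 * (T * (r * QQ q p u L c)) := by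
  have hQ := cq_QQ (ι := Fin r) (u := u) (L := L) hq hp
  set A := eo Finset.univ c with hA
  have hA0 : 0 ≤ A := eo_nonneg _ _
  let y : Fin r → Fin r → 𝕜 := fun π j => c (j + π)
  have hy : ∀ π, QQ q p u L (y π) = QQ q p u L c := fun π =>
    (QQ_inj hp (fun j => j + π) (add_left_injective π) c
      (fun j hj => (hj ⟨j - π, sub_add_cancel j π⟩).elim)).symm
  have h0 := Inv.fintype (fun m => QQ_inv (ι := Fin r) (u := u) (L := L) hp hT0 (hT m)) y
  simp only [Ineq, if_true, hy, Finset.sum_const, Finset.card_univ, Fintype.card_fin,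
    nsmul_eq_mul] at h0
  let v : (Fin r → ℤˣ) → Fin r → 𝕜 := fun ε => ∑ π, ε π • y π
  have hv : ∀ ε j, v ε j = ∑ π, ε π • c (j + π) := fun ε j => by
    simp only [v, y, Finset.sum_apply, Pi.smul_apply]
  have h1 : ∀ j, √A / (2 * 3) ≤ Ex hf (fun ε => ‖v ε j‖) := by
    intro j
    have hm := rad_moments (fun π => c (j + π))
    have hs : ∑ π, ‖c (j + π)‖ ^ 2 = A := Equiv.sum_comp (Equiv.addLeft j) (fun i => ‖c i‖ ^ 2)
    rw [hs] at hm
    have hs2 : √A ^ 2 = A := Real.sq_sqrt hA0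
    simp only [hv]
    refine Ex_first_ge isW_hf _ (fun _ => norm_nonneg _) _ 3 (Real.sqrt_nonneg _) (by norm_num)
      (by rw [hm.1, hs2]) (hm.2.trans ?_)
    rw [show √A ^ 4 = (√A ^ 2) ^ 2 by ring, hs2]
    nlinarith [sq_nonneg A]
  have h2 : QQ q p u L (fun _ : Fin r => ((√A / (2 * 3) : ℝ) : 𝕜))
      ≤ 4 * QQ q p u L (fun j => ((Ex hf (fun ε => ‖v ε j‖) : ℝ) : 𝕜)) := by
    refine hQ.contract signInv_QQ fun j => ?_
    rw [RCLike.norm_ofReal, RCLike.norm_ofReal, abs_of_nonneg (by positivity),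
      abs_of_nonneg (Ex_nonneg isW_hf fun _ => norm_nonneg _)]
    exact h1 j
  have h3 : QQ q p u L (fun j => ((Ex hf (fun ε => ‖v ε j‖) : ℝ) : 𝕜))
      ≤ Ex hf (fun ε => QQ q p u L (fun j => ((‖v ε j‖ : ℝ) : 𝕜))) := by
    have h := Ex_jensen isW_hf hQ.convex (fun (ε : Fin r → ℤˣ) (j : Fin r) => ((‖v ε j‖ : ℝ) : 𝕜))
    refine le_of_eq_of_le ?_ h
    congr 1
    funext i
    simp only [Ex, Finset.sum_apply, Pi.smul_apply, RCLike.real_smul_eq_coe_mul]
    push_cast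
    rfl
  have h4 : Ex hf (fun ε => QQ q p u L (fun j => ((‖v ε j‖ : ℝ) : 𝕜)))
      ≤ 4 * rad (QQ q p u L) y := by
    unfold rad
    rw [← Ex_mul]
    refine Ex_mono isW_hf fun ε => hQ.contract signInv_QQ fun j => ?_
    rw [RCLike.norm_ofReal, abs_norm]
  have h5 : QQ q p u L (fun _ : Fin r => ((√A / (2 * 3) : ℝ) : 𝕜))
      = A / 36 * psi q p u (r * L) := by
    have e : (fun _ : Fin r => ((√A / (2 * 3) : ℝ) : 𝕜))
        = (√A / 6 : ℝ) • (fun _ : Fin r => (1 : 𝕜)) := by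
      funext i
      rw [Pi.smul_apply, RCLike.real_smul_eq_coe_mul, mul_one]
      congr 1; ring
    rw [e, hQ.hom_real, div_pow, Real.sq_sqrt hA0, QQ_one hp]; norm_num
  linarith

theorem QQ_sparse_ge (hq : CQ q) (hp : IsW p) {T : ℝ} (hT0 : 0 ≤ T) (hT : ∀ m, Inv true q m T)
    {r : ℕ} [NeZero r] (hψ : r * psi q p u L ≤ 2 * psi q p u (r * L)) (c : ι → 𝕜) (σ : Finset ι)
    (hσ : σ.card ≤ r) : eo σ c * psi q p u L ≤ 4608 * T * QQ q p u L c := by
  classical
  obtain ⟨f⟩ : Nonempty (σ ↪ Fin r) :=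
    Function.Embedding.nonempty_of_card_le (by simpa using hσ)
  let c' : Fin r → 𝕜 := Function.extend f (fun k : σ => c k) 0
  have hc1 : ∀ k : σ, c' (f k) = c k := fun k => f.injective.extend_apply _ _ k
  have hc2 : ∀ j, j ∉ Set.range f → c' j = 0 := fun j hj => Function.extend_apply' _ _ _ hj
  have e1 : QQ q p u L c' = QQ q p u L (res σ c) := by
    rw [QQ_inj hp f f.injective c' hc2, QQ_inj hp (Subtype.val : σ → ι) Subtype.val_injective
      (res σ c) (fun j hj => if_neg fun h => hj ⟨⟨j, h⟩, rfl⟩)]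
    congr 1
    funext k
    rw [hc1]; exact (if_pos k.2).symm
  have e2 : eo Finset.univ c' = eo σ c := by
    unfold eo
    rw [← Finset.sum_coe_sort σ]
    symm
    refine Finset.sum_of_injOn f f.injective.injOn (fun _ _ => Finset.mem_univ _) ?_
      (fun k _ => by rw [hc1])
    intro j _ hj
    rw [hc2 j (by simpa using hj)]; simp
  have h1 := QQ_cyc_ge (u := u) (L := L) hq hp hT0 hT c'
  rw [e1, e2] at h1
  have h2 := (cq_QQ (ι := ι) (u := u) (L := L) hq hp).contract signInv_QQ (norm_res_le σ c)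
  have hr : (0 : ℝ) < r := by exact_mod_cast Nat.pos_of_ne_zero (NeZero.ne r)
  have h3 := mul_le_mul_of_nonneg_left hψ (eo_nonneg σ c)
  have h4 := mul_le_mul_of_nonneg_left h2 (mul_nonneg hT0 hr.le)
  have h5 : r * (eo σ c * psi q p u L) ≤ r * (4608 * T * QQ q p u L c) := by nlinarith
  exact le_of_mul_le_mul_left h5 hr

theorem exists_scale (g : ℕ → ℝ) (h0 : g 0 ≤ 1) {C : ℝ} (hC : 0 < C)
    (hg : ∀ k, 1 ≤ C * (3 / 2) ^ k * g k) {k0 : ℕ} (hk0 : C < (4 / 3) ^ k0) :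
    ∃ k, k < k0 ∧ g k ≤ 2 * g (k + 1) := by
  by_contra h
  push Not at h
  have key : ∀ k, k ≤ k0 → 2 ^ k * g k ≤ 1 := by
    intro k
    induction k with
    | zero => intro _; simpa using h0
    | succ k ih =>
      intro hk
      have h1 := ih (by omega)
      have h2 := h k (by omega)
      have h3 : (0 : ℝ) < 2 ^ k := by positivity
      rw [pow_succ]
      nlinarith
  have h1 := key k0 le_rfl
  have h2 := hg k0
  have h3 : (4 / 3 : ℝ) ^ k0 * (3 / 2) ^ k0 = 2 ^ k0 := by rw [← mul_pow]; norm_num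
  have h4 : (0 : ℝ) < (3 / 2) ^ k0 := by positivity
  have h5 : 0 < g k0 := by
    by_contra h6
    have := mul_nonpos_of_nonneg_of_nonpos (mul_pos hC h4).le (not_lt.1 h6)
    linarith
  have h6 := mul_lt_mul_of_pos_right hk0 (mul_pos h4 h5)
  nlinarith

end blocks

/-- building block under type 2 and near cotype 2, when cotype 2 fails -/
theorem compII (hX : ∀ N, ∃ n, N ≤ n ∧ ∃ x : X n, ‖x‖ = 1) {T : ℝ} (hT0 : 0 ≤ T)
    (hT : ∀ (d : ℕ) (q : (Fin d → 𝕜) → ℝ), Rep X q → ∀ m, Inv true q m T)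
    (hB : ∀ B : ℝ, ∃ (d m : ℕ) (q : (Fin d → 𝕜) → ℝ), Rep X q ∧ ¬ Inv false q m B)
    (hC : ∀ r : ℕ, ∃ C : ℝ, 0 < C ∧ ∀ (d : ℕ) (q : (Fin d → 𝕜) → ℝ), Rep X q →
      ∀ (k : ℕ) (y : Fin (r ^ k) → Fin d → 𝕜), (∀ j, q (y j) = 1) →
        (r : ℝ) ^ k ≤ C * (3 / 2) ^ k * rad q y)
    (r0 : ℕ) {δ : ℝ} (hδ : 0 < δ) :
    ∃ r' : ℕ, ∀ M : ℕ, ∃ F : (Fin M → 𝕜) → ℝ, Rep X F ∧
      (∀ c σ, σ.card ≤ r0 → eo σ c ≤ 4608 * T * F c) ∧
      (∀ c, ∃ σ : Finset (Fin M), σ.card ≤ r' ∧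
        F c ≤ 2 * T * eo σ c + δ * eo Finset.univ c) := by
  set r := r0 + 1 with hr
  have hr0 : (0 : ℝ) < r := by positivity
  obtain ⟨C, hC0, hC⟩ := hC r
  obtain ⟨k0, hk0⟩ := pow_unbounded_of_one_lt C (show (1 : ℝ) < 4 / 3 by norm_num)
  set G : ℝ := C * (3 / 2) ^ k0 with hG
  have hG0 : 0 < G := by positivity
  set Λ : ℝ := 32 * (T + 1) * G / δ with hΛ
  have hΛ0 : 0 < Λ := by positivity
  set B : ℝ := 32 * Λ * G / δ with hBdef
  have hB0 : 0 < B := by positivity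
  obtain ⟨d, m, q0, h0, h1⟩ := hB B
  obtain ⟨q, hq, h2, h3, -⟩ := exists_nondeg hX hB0.le h0 h1
  simp only [Inv, not_forall] at h2
  obtain ⟨n, hn, x, hx⟩ := h2
  simp only [Ineq, Bool.false_eq_true, if_false, not_le] at hx
  have hS : 0 < ∑ i, q (x i) :=
    lt_of_le_of_lt (mul_nonneg hB0.le (rad_nonneg hq.1.nonneg x)) hx
  obtain ⟨I, _, _, p, u, hp, hp0, hu, hρ⟩ := exists_clean hq.1 h3 x hS
  set ρ0 := rho q u (fun i => ((√(p i) : ℝ) : 𝕜)) with hρ0
  have hρ' : B * ρ0 ≤ 1 := by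
    rw [hρ, ← mul_div_assoc, div_le_one hS]; exact hx.le
  obtain ⟨η, hη, hηp⟩ := exists_min_pos hp0
  have hw := isW_wt hp
  have hψ : ∀ k, (r : ℝ) ^ k ≤ C * (3 / 2) ^ k * psi q p u (r ^ k) := by
    intro k
    unfold psi
    rw [NN_eq_rad, ← Ex_mul, ← Ex_const (ι := Fin (r ^ k)) hw ((r : ℝ) ^ k)]
    refine Ex_mono hw fun ζ => hC d q hq k _ fun j => ?_
    rw [one_smul, q_zv hq.1, hu]
  obtain ⟨k, hk, hg⟩ := exists_scale (fun k => psi q p u (r ^ k) / (r : ℝ) ^ k) (by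
      have := NN_sparse_le hq.1 hp (fun i => (hu i).le) Finset.univ (fun _ : Fin 1 => (1 : 𝕜))
        (fun j hj => (hj (Finset.mem_univ j)).elim)
      simp only [eo, norm_one, Finset.card_univ, Fintype.card_fin, Nat.cast_one, one_mul, one_pow,
        Finset.sum_const, one_smul] at this
      show psi q p u 1 / (r : ℝ) ^ 0 ≤ 1
      rw [pow_zero, div_one]
      exact this) hC0 (fun k => by
      rw [← mul_div_assoc, le_div_iff₀ (by positivity), one_mul]; exact hψ k) hk0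
  set L := r ^ k with hL
  have hL1 : (1 : ℝ) ≤ L := by exact_mod_cast Nat.one_le_pow _ _ (by omega)
  have hLc : (r : ℝ) ^ k = L := by rw [hL]; push_cast; rfl
  set ψ := psi q p u L with hψdef
  have hψ1 : (L : ℝ) ≤ G * ψ := by
    have h4 := hψ k
    rw [hLc] at h4
    have h5 : (0 : ℝ) ≤ ψ := (cq_NN hq.1 hp).nonneg _
    have h6 : (3 / 2 : ℝ) ^ k ≤ (3 / 2) ^ k0 := pow_le_pow_right₀ (by norm_num) hk.le
    calc _ ≤ C * (3 / 2) ^ k * ψ := h4
      _ ≤ C * (3 / 2) ^ k0 * ψ := by gcongr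
  have hψ0 : 0 < ψ := by
    by_contra h
    have := mul_nonpos_of_nonneg_of_nonpos hG0.le (not_lt.1 h)
    linarith
  have hψ2 : r * ψ ≤ 2 * psi q p u (r * L) := by
    rw [pow_succ' r k, pow_succ' (r : ℝ) k, hLc, ← mul_div_assoc, div_le_div_iff₀ (by positivity)
      (by positivity)] at hg
    have h4 : (r * ψ) * L ≤ (2 * psi q p u (r * L)) * L := by linarith
    exact le_of_mul_le_mul_right h4 (by positivity)
  refine ⟨⌈1 / η⌉₊, fun M => ⟨fun c => (1 / ψ) * QQ q p u L c,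
    ((hq.nn (ι := Fin M × Fin L) hp u).comp (LinearMap.funLeft 𝕜 𝕜 Prod.fst)).mul (by positivity),
    fun c σ hσ => ?_, fun c => ?_⟩⟩
  · have h4 := QQ_sparse_ge hq.1 hp hT0 (hT d q hq) hψ2 c σ (by omega)
    show _ ≤ 4608 * T * (1 / ψ * QQ q p u L c)
    rw [one_div, inv_mul_eq_div, ← mul_div_assoc, le_div_iff₀ hψ0]
    exact h4
  · refine ⟨peak η c, peak_card hη c, ?_⟩
    have hQ := cq_QQ (ι := Fin M) (u := u) (L := L) hq.1 hp
    set σ := peak η c with hσ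
    show 1 / ψ * QQ q p u L c ≤ _
    rcases (eo_nonneg Finset.univ c).eq_or_lt with hA | hA
    · have : c = 0 := eq_zero_of_eo hA.ge
      rw [this, hQ.zero]
      simp [eo]
    set A := eo Finset.univ c with hAdef
    have a1 := hQ.add_le (res σ c) (res σᶜ c)
    rw [res_add_compl] at a1
    have a2 := QQ_le (u := u) (L := L) hq.1 hp hT0 (hT d q hq) (res σ c)
    rw [eo_res] at a2
    have a0 : eo σᶜ c ≤ A := eo_mono (Finset.subset_univ _) c
    have a3 := NN_flat_le hq.1 hp hp0 (fun i => (hu i).le) hT0 (hT d q hq)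
      (fun a : Fin M × Fin L => res σᶜ c a.1) (B := L * A) (by positivity) hΛ0 (by
        unfold eo
        rw [Fintype.sum_prod_type]
        simp only [Finset.sum_const, Finset.card_univ, Fintype.card_fin, nsmul_eq_mul]
        rw [← Finset.mul_sum]
        have := eo_res σᶜ c
        unfold eo at this
        rw [this]
        exact mul_le_mul_of_nonneg_left a0 (by positivity)) (fun i => by
        rw [Fintype.sum_prod_type]
        simp only [Finset.sum_const, Finset.card_univ, Fintype.card_fin, nsmul_eq_mul]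
        rw [← Finset.mul_sum]
        have b1 : ∑ j, (‖res σᶜ c j‖ ^ 2) ^ 2 ≤ η * A * eo σᶜ c := res_peak_sq c
        have b2 : η * A * eo σᶜ c ≤ p i * A * A :=
          mul_le_mul (mul_le_mul_of_nonneg_right (hηp i) hA.le) a0 (eo_nonneg _ _)
            (mul_nonneg (hp0 i).le hA.le)
        have b3 : 0 ≤ p i * A * A := by have := hp0 i; positivity
        calc (L : ℝ) * ∑ j, (‖res σᶜ c j‖ ^ 2) ^ 2 ≤ L * (p i * A * A) := by
              gcongr; exact b1.trans b2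
          _ ≤ (L * L) * (p i * A * A) := by gcongr; nlinarith
          _ = _ := by ring)
    have a4 : 8 * Λ * (L * A) * ρ0 + 8 * T * (L * A) / Λ ≤ δ / (2 * G) * (L * A) := by
      have c1 : 8 * Λ * ρ0 ≤ δ / (4 * G) := by
        have : 8 * Λ * ρ0 = δ / (4 * G) * (B * ρ0) := by rw [hBdef]; field_simp; ring
        rw [this]
        exact mul_le_of_le_one_right (by positivity) hρ'
      have c2 : 8 * T / Λ ≤ δ / (4 * G) := by
        rw [div_le_div_iff₀ hΛ0 (by positivity), hΛ]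
        have : δ * (32 * (T + 1) * G / δ) = 32 * (T + 1) * G := by field_simp
        rw [this]; nlinarith
      have c3 : 0 ≤ (L : ℝ) * A := by positivity
      calc _ = (8 * Λ * ρ0 + 8 * T / Λ) * (L * A) := by ring
        _ ≤ (δ / (4 * G) + δ / (4 * G)) * (L * A) := by gcongr
        _ = _ := by field_simp; ring
    have a5 : δ / (2 * G) * (L * A) ≤ δ / 2 * A * ψ := by
      calc _ ≤ δ / (2 * G) * (G * ψ * A) := by gcongr
        _ = _ := by field_simp
    have a6 : QQ q p u L (res σᶜ c) ≤ δ / 2 * A * ψ := (a3.trans a4).trans a5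
    rw [one_div, inv_mul_eq_div, div_le_iff₀ hψ0]
    nlinarith

end Pool.Agent.Lib.MP_435322_an
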