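import Pool.Agent.Lib.MP_435322_an.Rad

/-! The family of subspaces attached to an l2-decomposition with gadgets. -/

set_option linter.unusedSectionVars false

namespace Pool.Agent.Lib.MP_435322_an

open Finset Filter Topology

variable {𝕜 : Type*} [RCLike 𝕜] {W : Type*} [NormedAddCommGroup W] [NormedSpace 𝕜 W]

/-- squared norm on a subspace -/
noncomputable def nsq (G : Submodule 𝕜 W) : G → ℝ := fun v => ‖(v : W)‖ ^ 2

/-- vectors whose pieces lie in the chosen subspaces -/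
def fam (P : ℕ → W →L[𝕜] W) (G : ℕ → Bool → Submodule 𝕜 W) (u : ℕ → Bool) : Submodule 𝕜 W :=
  ⨅ n, (G n (u n)).comap (P n : W →ₗ[𝕜] W)

theorem mem_fam {P : ℕ → W →L[𝕜] W} {G : ℕ → Bool → Submodule 𝕜 W} {u : ℕ → Bool} {w : W} :
    w ∈ fam P G u ↔ ∀ n, P n w ∈ G n (u n) := by
  simp [fam, Submodule.mem_iInf]

section
variable {P : ℕ → W →L[𝕜] W} {G : ℕ → Bool → Submodule 𝕜 W}

theorem fam_closed (hfin : ∀ n b, FiniteDimensional 𝕜 (G n b)) (u : ℕ → Bool) :
    IsClosed (fam P G u : Set W) := by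
  have e : (fam P G u : Set W) = ⋂ n, (P n) ⁻¹' (G n (u n) : Set W) := by
    ext w; simp [mem_fam]
  rw [e]
  exact isClosed_iInter fun n =>
    (Submodule.closed_of_finiteDimensional (G n (u n))).preimage (P n).continuous

theorem swap_map (hP1 : ∀ i w, P i (P i w) = P i w) (hP2 : ∀ i j, i ≠ j → ∀ w, P i (P j w) = 0)
    (hG : ∀ n b, ∀ g ∈ G n b, P n g = g) {u v : ℕ → Bool} {n : ℕ} (huv : ∀ i, i ≠ n → u i = v i)
    (ψ : G n (u n) →L[𝕜] G n (v n)) :
    ∃ A : fam P G u →L[𝕜] fam P G v, ∀ w : fam P G u,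
      (A w : W) = w - P n w + ψ ⟨P n w, mem_fam.1 w.2 n⟩ ∧
      P n (A w) = ψ ⟨P n w, mem_fam.1 w.2 n⟩ := by
  let pr : fam P G u →L[𝕜] G n (u n) :=
    ((P n).comp (fam P G u).subtypeL).codRestrict (G n (u n)) (fun w => mem_fam.1 w.2 n)
  let A0 : fam P G u →L[𝕜] W := (fam P G u).subtypeL - (P n).comp (fam P G u).subtypeL
    + (G n (v n)).subtypeL.comp (ψ.comp pr)
  have hA0 : ∀ w : fam P G u, A0 w = w - P n w + ψ ⟨P n w, mem_fam.1 w.2 n⟩ := fun w => rfl
  have hA1 : ∀ w : fam P G u, P n (A0 w) = ψ ⟨P n w, mem_fam.1 w.2 n⟩ := fun w => by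
    rw [hA0, map_add, map_sub, hP1, sub_self, zero_add, hG n _ _ (Subtype.prop _)]
  refine ⟨A0.codRestrict (fam P G v) (fun w => mem_fam.2 fun i => ?_), fun w => ⟨hA0 w, hA1 w⟩⟩
  by_cases hi : i = n
  · subst hi; rw [hA1]; exact Subtype.prop _
  · rw [hA0, map_add, map_sub, hP2 i n hi, sub_zero, ← hG n _ _ (Subtype.prop (ψ _)), hP2 i n hi,
      add_zero, ← huv i hi]
    exact mem_fam.1 w.2 i

theorem swap_iso (hP1 : ∀ i w, P i (P i w) = P i w) (hP2 : ∀ i j, i ≠ j → ∀ w, P i (P j w) = 0)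
    (hG : ∀ n b, ∀ g ∈ G n b, P n g = g) (hfin : ∀ n b, FiniteDimensional 𝕜 (G n b))
    (hrk : ∀ n, Module.finrank 𝕜 (G n true) = Module.finrank 𝕜 (G n false))
    {u v : ℕ → Bool} {n : ℕ} (huv : ∀ i, i ≠ n → u i = v i) :
    Nonempty (fam P G u ≃L[𝕜] fam P G v) := by
  have hr : Module.finrank 𝕜 (G n (u n)) = Module.finrank 𝕜 (G n (v n)) := by
    cases u n <;> cases v n <;> simp [hrk]
  let ψ : G n (u n) ≃L[𝕜] G n (v n) := ContinuousLinearEquiv.ofFinrankEq hr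
  obtain ⟨A, hA⟩ := swap_map hP1 hP2 hG huv (ψ : G n (u n) →L[𝕜] G n (v n))
  obtain ⟨B, hB⟩ := swap_map hP1 hP2 hG (fun i hi => (huv i hi).symm)
    (ψ.symm : G n (v n) →L[𝕜] G n (u n))
  refine ⟨ContinuousLinearEquiv.equivOfInverse A B (fun w => ?_) (fun w => ?_)⟩
  · apply Subtype.ext
    have h1 : (⟨P n (A w), mem_fam.1 (A w).2 n⟩ : G n (v n)) = ψ ⟨P n w, mem_fam.1 w.2 n⟩ :=
      Subtype.ext (hA w).2
    rw [(hB (A w)).1, h1, (hA w).2, (hA w).1]
    simp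
  · apply Subtype.ext
    have h1 : (⟨P n (B w), mem_fam.1 (B w).2 n⟩ : G n (u n)) = ψ.symm ⟨P n w, mem_fam.1 w.2 n⟩ :=
      Subtype.ext (hB w).2
    rw [(hA (B w)).1, h1, (hB w).2, (hB w).1]
    simp

theorem fam_iso (hP1 : ∀ i w, P i (P i w) = P i w) (hP2 : ∀ i j, i ≠ j → ∀ w, P i (P j w) = 0)
    (hG : ∀ n b, ∀ g ∈ G n b, P n g = g) (hfin : ∀ n b, FiniteDimensional 𝕜 (G n b))
    (hrk : ∀ n, Module.finrank 𝕜 (G n true) = Module.finrank 𝕜 (G n false))
    (N : ℕ) : ∀ u v : ℕ → Bool, (∀ n, N ≤ n → u n = v n) →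
    Nonempty (fam P G u ≃L[𝕜] fam P G v) := by
  induction N with
  | zero =>
    intro u v h
    have : u = v := funext fun n => h n (Nat.zero_le n)
    subst this
    exact ⟨ContinuousLinearEquiv.refl _ _⟩
  | succ N ih =>
    intro u v h
    obtain ⟨e1⟩ := swap_iso hP1 hP2 hG hfin hrk (u := u) (v := Function.update u N (v N)) (n := N)
      (fun i hi => (Function.update_of_ne hi _ _).symm)
    obtain ⟨e2⟩ := ih (Function.update u N (v N)) v (fun n hn => by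
      by_cases h1 : n = N
      · subst h1; rw [Function.update_self]
      · rw [Function.update_of_ne h1]; exact h n (by omega))
    exact ⟨e1.trans e2⟩

theorem P_trunc (hP1 : ∀ i w, P i (P i w) = P i w) (hP2 : ∀ i j, i ≠ j → ∀ w, P i (P j w) = 0)
    (N i : ℕ) (w : W) : P i (∑ j ∈ Finset.range N, P j w) = if i < N then P i w else 0 := by
  rw [map_sum]
  split_ifs with h
  · rw [Finset.sum_eq_single i]
    · exact hP1 i w
    · intro j _ hj; exact hP2 i j hj.symm w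
    · intro h1; exact (h1 (Finset.mem_range.2 h)).elim
  · exact Finset.sum_eq_zero fun j hj => hP2 i j (by have := Finset.mem_range.1 hj; omega) w

theorem tendsto_trunc (hP1 : ∀ i w, P i (P i w) = P i w)
    (hP2 : ∀ i j, i ≠ j → ∀ w, P i (P j w) = 0)
    (hs : ∀ w, HasSum (fun n => ‖P n w‖ ^ 2) (‖w‖ ^ 2)) (w : W) :
    Tendsto (fun N => ∑ j ∈ Finset.range N, P j w) atTop (𝓝 w) := by
  have key : ∀ N, ‖w - ∑ j ∈ Finset.range N, P j w‖ ^ 2
      = ‖w‖ ^ 2 - ∑ j ∈ Finset.range N, ‖P j w‖ ^ 2 := by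
    intro N
    have h1 := (hs w).sub (hs (w - ∑ j ∈ Finset.range N, P j w))
    have h2 : HasSum (fun n => ‖P n w‖ ^ 2 - ‖P n (w - ∑ j ∈ Finset.range N, P j w)‖ ^ 2)
        (∑ n ∈ Finset.range N,
          (‖P n w‖ ^ 2 - ‖P n (w - ∑ j ∈ Finset.range N, P j w)‖ ^ 2)) :=
      hasSum_sum_of_ne_finset_zero fun n hn => by
        rw [map_sub, P_trunc hP1 hP2, if_neg (by simpa using hn), sub_zero, sub_self]
    have h3 := h1.unique h2
    have h4 : ∑ n ∈ Finset.range N, (‖P n w‖ ^ 2 - ‖P n (w - ∑ j ∈ Finset.range N, P j w)‖ ^ 2)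
        = ∑ n ∈ Finset.range N, ‖P n w‖ ^ 2 := Finset.sum_congr rfl fun n hn => by
      rw [map_sub, P_trunc hP1 hP2, if_pos (Finset.mem_range.1 hn), sub_self]; simp
    linarith
  have h5 : Tendsto (fun N => ‖w - ∑ j ∈ Finset.range N, P j w‖ ^ 2) atTop (𝓝 0) := by
    simp only [key]
    have := (hs w).tendsto_sum_nat.const_sub (‖w‖ ^ 2)
    rwa [sub_self] at this
  rw [tendsto_iff_norm_sub_tendsto_zero]
  have h6 := h5.sqrt
  simp only [Real.sqrt_sq (norm_nonneg _), Real.sqrt_zero] at h6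
  simpa only [norm_sub_rev] using h6

theorem fam_open (hP1 : ∀ i w, P i (P i w) = P i w) (hP2 : ∀ i j, i ≠ j → ∀ w, P i (P j w) = 0)
    (hs : ∀ w, HasSum (fun n => ‖P n w‖ ^ 2) (‖w‖ ^ 2)) {U : Set W} (hU : IsOpen U) :
    IsOpen {u : ℕ → Bool | ((fam P G u : Set W) ∩ U).Nonempty} := by
  rw [isOpen_iff_mem_nhds]
  rintro u ⟨w, hw, hwU⟩
  obtain ⟨N, hN⟩ := ((tendsto_trunc hP1 hP2 hs w).eventually (hU.mem_nhds hwU)).exists
  have h1 : ∀ᶠ v in 𝓝 u, ∀ i ∈ Finset.range N, v i = u i := by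
    rw [Filter.eventually_all_finset]
    intro i _
    have h2 := (continuous_apply (A := fun _ : ℕ => Bool) i).tendsto u
    rw [nhds_discrete Bool, tendsto_pure] at h2
    exact h2
  refine h1.mono fun v hv => ⟨_, mem_fam.2 fun i => ?_, hN⟩
  rw [P_trunc hP1 hP2]
  split_ifs with h
  · rw [hv i (Finset.mem_range.2 h)]; exact mem_fam.1 hw i
  · exact Submodule.zero_mem _

theorem fam_not_iso (hP2 : ∀ i j, i ≠ j → ∀ w, P i (P j w) = 0)
    (hs : ∀ w, HasSum (fun n => ‖P n w‖ ^ 2) (‖w‖ ^ 2))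
    (hG : ∀ n b, ∀ g ∈ G n b, P n g = g) {b : Bool} {d : ℕ → ℕ} {K : ℕ → ℝ} (hK : ∀ n, 0 ≤ K n)
    (hgood : ∀ n i c, (i = n → c = false) → Inv b (nsq (G i c)) (d n) (K n))
    (hbad : ∀ n, ¬ Inv b (nsq (G n true)) (d n) ((n + 1) * K n)) {u v : ℕ → Bool}
    (e : fam P G u ≃L[𝕜] fam P G v) (h : ∃ᶠ n in atTop, u n = true ∧ v n = false) : False := by
  set α := ‖(e : fam P G u →L[𝕜] fam P G v)‖ ^ 2
  set β := ‖(e.symm : fam P G v →L[𝕜] fam P G u)‖ ^ 2
  obtain ⟨N, hN⟩ := exists_nat_ge (β * α)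
  obtain ⟨n, hn, hu, hv⟩ := (frequently_atTop.1 h) N
  have h1 : Inv b (nsq (fam P G v)) (d n) (K n) := by
    refine Inv.hasSum (q := nsq (fam P G v))
      (qq := fun i (w : fam P G v) => ‖P i (w : W)‖ ^ 2) (fun w => hs w) fun i => ?_
    let pr : fam P G v →L[𝕜] G i (v i) :=
      ((P i).comp (fam P G v).subtypeL).codRestrict (G i (v i)) (fun w => mem_fam.1 w.2 i)
    have := Inv.transfer (q := fun w : fam P G v => ‖P i (w : W)‖ ^ 2)
      (pr : fam P G v →ₗ[𝕜] G i (v i)).toAddMonoidHom zero_le_one zero_le_one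
      (fun w => by rw [one_mul]; exact le_rfl) (fun w => by rw [one_mul]; exact le_rfl) (hK n)
      (hgood n i (v i) (fun hi => by rw [hi]; exact hv))
    simpa using this
  have hle : G n true ≤ fam P G u := fun g hg => mem_fam.2 fun i => by
    by_cases hi : i = n
    · subst hi; rw [hG i _ g hg, hu]; exact hg
    · rw [← hG n _ g hg, hP2 i n hi]; exact Submodule.zero_mem _
  have h2 := Inv.transfer (q := nsq (G n true)) (α := β) (β := α)
    ((e.toLinearEquiv.toLinearMap).comp (Submodule.inclusion hle)).toAddMonoidHom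
    (sq_nonneg _) (sq_nonneg _) (fun g => by
      have h3 := (e.symm : fam P G v →L[𝕜] fam P G u).le_opNorm (e (Submodule.inclusion hle g))
      simp only [ContinuousLinearEquiv.coe_coe, ContinuousLinearEquiv.symm_apply_apply] at h3
      have h4 : ‖Submodule.inclusion hle g‖ ^ 2 ≤ (‖(e.symm : fam P G v →L[𝕜] fam P G u)‖
          * ‖e (Submodule.inclusion hle g)‖) ^ 2 := by gcongr
      rw [mul_pow] at h4
      exact h4) (fun g => by
      have h3 := (e : fam P G u →L[𝕜] fam P G v).le_opNorm (Submodule.inclusion hle g)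
      simp only [ContinuousLinearEquiv.coe_coe] at h3
      have h4 : ‖e (Submodule.inclusion hle g)‖ ^ 2 ≤ (‖(e : fam P G u →L[𝕜] fam P G v)‖
          * ‖Submodule.inclusion hle g‖) ^ 2 := by gcongr
      rw [mul_pow] at h4
      exact h4) (hK n) h1
  refine hbad n (h2.const (fun g => sq_nonneg _) (mul_le_mul_of_nonneg_right ?_ (hK n)))
  have : (N : ℝ) ≤ n := by exact_mod_cast hn
  linarith

theorem fam_iff (hP1 : ∀ i w, P i (P i w) = P i w) (hP2 : ∀ i j, i ≠ j → ∀ w, P i (P j w) = 0)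
    (hs : ∀ w, HasSum (fun n => ‖P n w‖ ^ 2) (‖w‖ ^ 2))
    (hG : ∀ n b, ∀ g ∈ G n b, P n g = g) (hfin : ∀ n b, FiniteDimensional 𝕜 (G n b))
    (hrk : ∀ n, Module.finrank 𝕜 (G n true) = Module.finrank 𝕜 (G n false))
    {b : Bool} {d : ℕ → ℕ} {K : ℕ → ℝ} (hK : ∀ n, 0 ≤ K n)
    (hgood : ∀ n i c, (i = n → c = false) → Inv b (nsq (G i c)) (d n) (K n))
    (hbad : ∀ n, ¬ Inv b (nsq (G n true)) (d n) ((n + 1) * K n)) (u v : ℕ → Bool) :
    (∀ᶠ n in atTop, u n = v n) ↔ Nonempty (fam P G u ≃L[𝕜] fam P G v) := by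
  constructor
  · intro h
    obtain ⟨N, hN⟩ := eventually_atTop.1 h
    exact fam_iso hP1 hP2 hG hfin hrk N u v hN
  · rintro ⟨e⟩
    by_contra h
    rw [not_eventually] at h
    have h1 : ∃ᶠ n in atTop, (u n = true ∧ v n = false) ∨ (v n = true ∧ u n = false) :=
      h.mono fun n hn => by revert hn; cases u n <;> cases v n <;> simp
    rcases frequently_or_distrib.1 h1 with h2 | h2
    · exact fam_not_iso hP2 hs hG hK hgood hbad e h2
    · exact fam_not_iso hP2 hs hG hK hgood hbad e.symm h2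

end

end Pool.Agent.Lib.MP_435322_an
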