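import Mathlib

/-! Finite product averages and moment bounds. -/

namespace Pool.Agent.Lib.MP_435322_an

open Finset

/-- a probability weight on a finite type -/
structure IsW {α : Type} [Fintype α] (w : α → ℝ) : Prop where
  nonneg : ∀ a, 0 ≤ w a
  sum_eq : ∑ a, w a = 1

/-- average over independent choices with weight `w` -/
noncomputable def Ex {α ι : Type} [Fintype α] [Fintype ι] [DecidableEq ι] (w : α → ℝ)
    (f : (ι → α) → ℝ) : ℝ :=
  ∑ ζ : ι → α, (∏ j, w (ζ j)) * f ζ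

section
variable {α ι : Type} [Fintype α] [Fintype ι] [DecidableEq ι] {w : α → ℝ}

theorem IsW.prod_nonneg (hw : IsW w) (ζ : ι → α) : 0 ≤ ∏ j, w (ζ j) :=
  Finset.prod_nonneg fun j _ => hw.nonneg _

theorem IsW.sum_prod (hw : IsW w) : ∑ ζ : ι → α, ∏ j, w (ζ j) = 1 := by
  classical
  have h := Finset.prod_univ_sum (fun _ : ι => (Finset.univ : Finset α)) (fun _ a => w a)
  rw [Fintype.piFinset_univ] at h
  rw [← h]
  simp [hw.sum_eq]

theorem Ex_const (hw : IsW w) (c : ℝ) : Ex (ι := ι) w (fun _ => c) = c := by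
  unfold Ex
  rw [← Finset.sum_mul, hw.sum_prod, one_mul]

theorem Ex_add (f g : (ι → α) → ℝ) : Ex w (fun ζ => f ζ + g ζ) = Ex w f + Ex w g := by
  unfold Ex
  rw [← Finset.sum_add_distrib]
  exact Finset.sum_congr rfl fun ζ _ => by ring

theorem Ex_sub (f g : (ι → α) → ℝ) : Ex w (fun ζ => f ζ - g ζ) = Ex w f - Ex w g := by
  unfold Ex
  rw [← Finset.sum_sub_distrib]
  exact Finset.sum_congr rfl fun ζ _ => by ring

theorem Ex_mul (c : ℝ) (f : (ι → α) → ℝ) : Ex w (fun ζ => c * f ζ) = c * Ex w f := by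
  unfold Ex
  rw [Finset.mul_sum]
  exact Finset.sum_congr rfl fun ζ _ => by ring

theorem Ex_sum {κ : Type*} (s : Finset κ) (f : κ → (ι → α) → ℝ) :
    Ex w (fun ζ => ∑ k ∈ s, f k ζ) = ∑ k ∈ s, Ex w (f k) := by
  unfold Ex
  rw [Finset.sum_comm]
  exact Finset.sum_congr rfl fun ζ _ => by rw [Finset.mul_sum]

theorem Ex_mono (hw : IsW w) {f g : (ι → α) → ℝ} (h : ∀ ζ, f ζ ≤ g ζ) : Ex w f ≤ Ex w g :=
  Finset.sum_le_sum fun ζ _ => mul_le_mul_of_nonneg_left (h ζ) (hw.prod_nonneg ζ)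

theorem Ex_nonneg (hw : IsW w) {f : (ι → α) → ℝ} (h : ∀ ζ, 0 ≤ f ζ) : 0 ≤ Ex w f :=
  Finset.sum_nonneg fun ζ _ => mul_nonneg (hw.prod_nonneg ζ) (h ζ)

theorem Ex_congr {f g : (ι → α) → ℝ} (h : ∀ ζ, f ζ = g ζ) : Ex w f = Ex w g := by
  have : f = g := funext h
  rw [this]

theorem Ex_comm {β κ : Type} [Fintype β] [Fintype κ] [DecidableEq κ] (v : β → ℝ)
    (f : (ι → α) → (κ → β) → ℝ) :
    Ex w (fun ζ => Ex v (fun η => f ζ η)) = Ex v (fun η => Ex w (fun ζ => f ζ η)) := by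
  unfold Ex
  simp only [Finset.mul_sum]
  rw [Finset.sum_comm]
  refine Finset.sum_congr rfl fun η _ => Finset.sum_congr rfl fun ζ _ => by ring

/-- coordinatewise weight preserving bijections -/
theorem Ex_perm (σ : ι → α ≃ α) (hσ : ∀ j a, w (σ j a) = w a) (f : (ι → α) → ℝ) :
    Ex w (fun ζ => f (fun j => σ j (ζ j))) = Ex w f := by
  unfold Ex
  refine Fintype.sum_equiv (Equiv.piCongrRight σ) _ _ fun ζ => ?_
  have h1 : (Equiv.piCongrRight σ) ζ = fun j => σ j (ζ j) := rfl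
  rw [h1]
  simp only [hσ]

theorem Ex_equiv {κ : Type} [Fintype κ] [DecidableEq κ] (e : κ ≃ ι) (f : (κ → α) → ℝ) :
    Ex w (fun ζ : ι → α => f (fun k => ζ (e k))) = Ex w f := by
  unfold Ex
  refine Fintype.sum_equiv (Equiv.arrowCongr e.symm (Equiv.refl α)) _ _ fun ζ => ?_
  have h1 : (Equiv.arrowCongr e.symm (Equiv.refl α)) ζ = fun k => ζ (e k) := by
    funext k; simp
  rw [h1]
  congr 1
  exact (Fintype.prod_equiv e _ _ fun k => rfl).symm

theorem Ex_inl (hw : IsW w) {κ : Type} [Fintype κ] [DecidableEq κ] (f : (ι → α) → ℝ) :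
    Ex w (fun ζ : ι ⊕ κ → α => f (fun j => ζ (Sum.inl j))) = Ex w f := by
  unfold Ex
  rw [← (Equiv.sumArrowEquivProdArrow ι κ α).symm.sum_comp, Fintype.sum_prod_type]
  refine Finset.sum_congr rfl fun ζ _ => ?_
  have h := hw.sum_prod (ι := κ)
  calc ∑ y : κ → α, (∏ j, w ((Equiv.sumArrowEquivProdArrow ι κ α).symm (ζ, y) j)) *
        f (fun j => (Equiv.sumArrowEquivProdArrow ι κ α).symm (ζ, y) (Sum.inl j))
      = ∑ y : κ → α, ((∏ j, w (ζ j)) * f ζ) * ∏ k, w (y k) := by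
        refine Finset.sum_congr rfl fun y _ => ?_
        rw [Fintype.prod_sum_type]
        simp only [Equiv.sumArrowEquivProdArrow_symm_apply_inl,
          Equiv.sumArrowEquivProdArrow_symm_apply_inr]
        ring
    _ = (∏ j, w (ζ j)) * f ζ := by rw [← Finset.mul_sum, h, mul_one]

/-- marginal along an injection -/
theorem Ex_inj (hw : IsW w) {κ : Type} [Fintype κ] [DecidableEq κ] (e : κ → ι)
    (he : Function.Injective e) (f : (κ → α) → ℝ) :
    Ex w (fun ζ : ι → α => f (fun k => ζ (e k))) = Ex w f := by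
  classical
  let E : κ ⊕ {j : ι // j ∉ Set.range e} ≃ ι :=
    (Equiv.sumCongr (Equiv.ofInjective e he) (Equiv.refl _)).trans
      (Equiv.sumCompl (fun j => j ∈ Set.range e))
  have hE : ∀ k, E (Sum.inl k) = e k := fun k => rfl
  have h1 := Ex_equiv (w := w) E (fun ζ => f (fun k => ζ (Sum.inl k)))
  simp only [hE] at h1
  rw [h1, Ex_inl hw]

/-- resampling one coordinate -/
theorem Ex_resample (hw : IsW w) (j : ι) (f : (ι → α) → ℝ) :
    Ex w f = Ex w (fun ζ => ∑ a, w a * f (Function.update ζ j a)) := by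
  unfold Ex
  let τ : (ι → α) × α → (ι → α) × α := fun p => (Function.update p.1 j p.2, p.1 j)
  have hτ : Function.Involutive τ := by
    rintro ⟨ζ, a⟩
    simp [τ]
  have key : ∀ (ζ : ι → α) (a : α),
      (∏ i, w (Function.update ζ j a i)) * w (ζ j) = (∏ i, w (ζ i)) * w a := by
    intro ζ a
    rw [← Finset.mul_prod_erase Finset.univ _ (Finset.mem_univ j),
      ← Finset.mul_prod_erase Finset.univ (fun i => w (ζ i)) (Finset.mem_univ j)]
    have : ∏ i ∈ Finset.univ.erase j, w (Function.update ζ j a i)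
        = ∏ i ∈ Finset.univ.erase j, w (ζ i) :=
      Finset.prod_congr rfl fun i hi => by
        rw [Function.update_of_ne (Finset.ne_of_mem_erase hi)]
    rw [this, Function.update_self]; ring
  calc ∑ ζ : ι → α, (∏ i, w (ζ i)) * f ζ
      = ∑ p : (ι → α) × α, (∏ i, w (p.1 i)) * w p.2 * f p.1 := by
        rw [Fintype.sum_prod_type]
        refine Finset.sum_congr rfl fun ζ _ => ?_
        have : ∑ a, (∏ i, w (ζ i)) * w a * f ζ = (∏ i, w (ζ i)) * f ζ * ∑ a, w a := by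
          rw [Finset.mul_sum]; exact Finset.sum_congr rfl fun a _ => by ring
        simp only []
        rw [this, hw.sum_eq, mul_one]
    _ = ∑ p : (ι → α) × α, (∏ i, w ((τ p).1 i)) * w (τ p).2 * f (τ p).1 :=
        (Equiv.sum_comp (hτ.toPerm τ)
          (fun p : (ι → α) × α => (∏ i, w (p.1 i)) * w p.2 * f p.1)).symm
    _ = ∑ ζ : ι → α, (∏ i, w (ζ i)) * ∑ a, w a * f (Function.update ζ j a) := by
        rw [Fintype.sum_prod_type]
        refine Finset.sum_congr rfl fun ζ _ => ?_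
        rw [Finset.mul_sum]
        refine Finset.sum_congr rfl fun a _ => ?_
        simp only [τ]
        rw [key]; ring

/-- Jensen for a convex function of a vector valued average -/
theorem Ex_jensen (hw : IsW w) {V : Type*} [AddCommGroup V] [Module ℝ V] {q : V → ℝ}
    (hq : ConvexOn ℝ Set.univ q) (v : (ι → α) → V) :
    q (∑ ζ : ι → α, (∏ j, w (ζ j)) • v ζ) ≤ Ex w (fun ζ => q (v ζ)) := by
  have h := hq.map_sum_le (t := Finset.univ) (w := fun ζ : ι → α => ∏ j, w (ζ j)) (p := v)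
    (fun ζ _ => hw.prod_nonneg ζ) hw.sum_prod (fun _ _ => Set.mem_univ _)
  simpa [Ex, smul_eq_mul] using h

end

section moments
variable {𝕜 : Type*} [RCLike 𝕜] {α ι : Type} [Fintype α] [Fintype ι] [DecidableEq ι] {w : α → ℝ}

theorem normsq_add_real (Y b : 𝕜) (z : ℝ) :
    ‖Y + b * (z : 𝕜)‖ ^ 2 = ‖Y‖ ^ 2 + 2 * z * RCLike.re (Y * (starRingEnd 𝕜) b) + ‖b‖ ^ 2 * z ^ 2 := by
  simp only [← RCLike.normSq_eq_def', RCLike.normSq_apply, map_add, RCLike.mul_re, RCLike.mul_im,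
    RCLike.ofReal_re, RCLike.ofReal_im, RCLike.conj_re, RCLike.conj_im]
  ring

theorem re_mul_conj_sq_le (Y b : 𝕜) : (RCLike.re (Y * (starRingEnd 𝕜) b)) ^ 2 ≤ ‖Y‖ ^ 2 * ‖b‖ ^ 2 := by
  have h1 : |RCLike.re (Y * (starRingEnd 𝕜) b)| ≤ ‖Y‖ * ‖b‖ := by
    refine (RCLike.abs_re_le_norm _).trans ?_
    rw [norm_mul, RCLike.norm_conj]
  calc _ = |RCLike.re (Y * (starRingEnd 𝕜) b)| ^ 2 := (sq_abs _).symm
    _ ≤ (‖Y‖ * ‖b‖) ^ 2 := by gcongr
    _ = _ := by ring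

/-- second and fourth moments of a sum of independent symmetric variables -/
theorem Ex_moments (hw : IsW w) (Z : α → ℝ) (p p4 : ℝ) (h1 : ∑ a, w a * Z a = 0)
    (h2 : ∑ a, w a * Z a ^ 2 = p) (h3 : ∑ a, w a * Z a ^ 3 = 0) (h4 : ∑ a, w a * Z a ^ 4 = p4)
    (b : ι → 𝕜) (s : Finset ι) :
    Ex w (fun ζ => ‖∑ j ∈ s, b j * (Z (ζ j) : 𝕜)‖ ^ 2) = p * ∑ j ∈ s, ‖b j‖ ^ 2 ∧
    Ex w (fun ζ => (‖∑ j ∈ s, b j * (Z (ζ j) : 𝕜)‖ ^ 2) ^ 2) ≤
      3 * p ^ 2 * (∑ j ∈ s, ‖b j‖ ^ 2) ^ 2 + p4 * ∑ j ∈ s, (‖b j‖ ^ 2) ^ 2 := by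
  have hp : 0 ≤ p := by
    rw [← h2]; exact Finset.sum_nonneg fun a _ => mul_nonneg (hw.nonneg a) (sq_nonneg _)
  induction s using Finset.induction_on with
  | empty => simp [Ex]
  | insert j s hj ih =>
    obtain ⟨ih1, ih2⟩ := ih
    have hupd : ∀ (ζ : ι → α) (a : α),
        ∑ i ∈ insert j s, b i * (Z (Function.update ζ j a i) : 𝕜)
          = (∑ i ∈ s, b i * (Z (ζ i) : 𝕜)) + b j * (Z a : 𝕜) := by
      intro ζ a
      rw [Finset.sum_insert hj, Function.update_self, add_comm]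
      congr 1
      refine Finset.sum_congr rfl fun i hi => ?_
      rw [Function.update_of_ne (by rintro rfl; exact hj hi)]
    set Y : (ι → α) → 𝕜 := fun ζ => ∑ i ∈ s, b i * (Z (ζ i) : 𝕜) with hY
    have e2 : ∀ ζ, ∑ a, w a * ‖Y ζ + b j * (Z a : 𝕜)‖ ^ 2 = ‖Y ζ‖ ^ 2 + ‖b j‖ ^ 2 * p := by
      intro ζ
      simp only [normsq_add_real]
      have : ∀ a, w a * (‖Y ζ‖ ^ 2 + 2 * Z a * RCLike.re (Y ζ * (starRingEnd 𝕜) (b j))
          + ‖b j‖ ^ 2 * Z a ^ 2) = ‖Y ζ‖ ^ 2 * w a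
          + 2 * RCLike.re (Y ζ * (starRingEnd 𝕜) (b j)) * (w a * Z a)
          + ‖b j‖ ^ 2 * (w a * Z a ^ 2) := fun a => by ring
      simp only [this, Finset.sum_add_distrib, ← Finset.mul_sum, hw.sum_eq, h1, h2]
      ring
    have e4 : ∀ ζ, ∑ a, w a * (‖Y ζ + b j * (Z a : 𝕜)‖ ^ 2) ^ 2
        ≤ (‖Y ζ‖ ^ 2) ^ 2 + 6 * p * ‖b j‖ ^ 2 * ‖Y ζ‖ ^ 2 + p4 * (‖b j‖ ^ 2) ^ 2 := by
      intro ζ
      simp only [normsq_add_real]
      set A := ‖Y ζ‖ ^ 2
      set B := ‖b j‖ ^ 2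
      set r := RCLike.re (Y ζ * (starRingEnd 𝕜) (b j))
      have hr : r ^ 2 ≤ A * B := re_mul_conj_sq_le _ _
      have : ∀ a, w a * (A + 2 * Z a * r + B * Z a ^ 2) ^ 2 = A ^ 2 * w a
          + 4 * A * r * (w a * Z a) + (4 * r ^ 2 + 2 * A * B) * (w a * Z a ^ 2)
          + 4 * r * B * (w a * Z a ^ 3) + B ^ 2 * (w a * Z a ^ 4) := fun a => by ring
      simp only [this, Finset.sum_add_distrib, ← Finset.mul_sum, hw.sum_eq, h1, h2, h3, h4]
      nlinarith [mul_le_mul_of_nonneg_left hr hp]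
    constructor
    · rw [Ex_resample hw j]
      simp only [hupd]
      rw [Ex_congr e2, Ex_add, Ex_const hw, ih1, Finset.sum_insert hj]; ring
    · rw [Ex_resample hw j]
      simp only [hupd]
      refine (Ex_mono hw e4).trans ?_
      rw [Ex_add, Ex_add, Ex_const hw, Ex_mul, ih1, Finset.sum_insert hj, Finset.sum_insert hj]
      have h5 : 0 ≤ 3 * p ^ 2 * (‖b j‖ ^ 2) ^ 2 := by positivity
      nlinarith [ih2]

/-- a first moment lower bound from second and fourth moments -/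
theorem Ex_first_ge (hw : IsW w) (y : (ι → α) → ℝ) (hy : ∀ ζ, 0 ≤ y ζ) (m K : ℝ) (hm : 0 ≤ m)
    (hK : 0 < K) (h2 : Ex w (fun ζ => y ζ ^ 2) = m ^ 2)
    (h4 : Ex w (fun ζ => (y ζ ^ 2) ^ 2) ≤ K ^ 2 / 2 * m ^ 4) :
    m / (2 * K) ≤ Ex w y := by
  rcases hm.eq_or_lt with h0 | hm
  · rw [← h0, zero_div]; exact Ex_nonneg hw hy
  have hA : 0 < K * m := mul_pos hK hm
  have key : ∀ ζ, y ζ ^ 2 ≤ (K * m) * y ζ + (1 / (K * m) ^ 2) * (y ζ ^ 2) ^ 2 := by
    intro ζ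
    have h0 := hy ζ
    rcases le_total (y ζ) (K * m) with h | h
    · have : 0 ≤ (1 / (K * m) ^ 2) * (y ζ ^ 2) ^ 2 := by positivity
      nlinarith
    · have h1 : (K * m) ^ 2 ≤ y ζ ^ 2 := by gcongr
      have h2 : y ζ ^ 2 ≤ (1 / (K * m) ^ 2) * (y ζ ^ 2) ^ 2 := by
        rw [one_div, inv_mul_eq_div, le_div_iff₀ (by positivity)]
        nlinarith [sq_nonneg (y ζ)]
      have : 0 ≤ (K * m) * y ζ := by positivity
      linarith
  have h5 := Ex_mono hw key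
  rw [Ex_add, Ex_mul, Ex_mul, h2] at h5
  have h6 : (1 / (K * m) ^ 2) * Ex w (fun ζ => (y ζ ^ 2) ^ 2) ≤ m ^ 2 / 2 := by
    calc _ ≤ (1 / (K * m) ^ 2) * (K ^ 2 / 2 * m ^ 4) := by gcongr
      _ = m ^ 2 / 2 := by field_simp
  rw [div_le_iff₀ (by positivity)]
  have h7 : m * m ≤ m * (Ex w y * (2 * K)) := by nlinarith
  exact le_of_mul_le_mul_left h7 hm

end moments

end Pool.Agent.Lib.MP_435322_an
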