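import Pool.Agent.Lib.MP_435322_an.GSign

/-! Gadgets in the classical sequence spaces. -/

namespace Pool.Agent.Lib.MP_435322_an.UD

open Finset Filter Pool.Agent.Lib.MP_435322_an
open scoped NNReal

universe u w

variable {𝕜 : Type w} [RCLike 𝕜] {W : Type u} [NormedAddCommGroup W] [NormedSpace 𝕜 W]

theorem garr_count {n : ℕ} (hn : 0 < n) (c : (Fin 4 → Fin n) → Fin 4) :
    ∃ (l : Fin 4) (x : Fin 4 → Fin n),
      n ≤ 4 * (univ.filter fun b => c (Function.update x l b) = l).card := by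
  classical
  by_contra h
  push Not at h
  have : Nonempty (Fin n) := ⟨⟨0, hn⟩⟩
  have h1 : ∀ l : Fin 4, ∑ x : Fin 4 → Fin n,
      (univ.filter fun b => c (Function.update x l b) = l).card =
      n * (univ.filter fun x => c x = l).card := fun l => by
    have hinv : Function.Involutive fun p : (Fin 4 → Fin n) × Fin n =>
        (Function.update p.1 l p.2, p.1 l) := fun p => by simp
    simp only [Finset.card_filter]
    rw [← Fintype.sum_prod_type' (fun (x : Fin 4 → Fin n) (b : Fin n) =>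
      if c (Function.update x l b) = l then 1 else 0),
      hinv.bijective.sum_comp (fun p : (Fin 4 → Fin n) × Fin n => if c p.1 = l then 1 else 0),
      Fintype.sum_prod_type, Finset.mul_sum]
    refine Finset.sum_congr rfl fun x _ => ?_
    split_ifs <;> simp
  have h2 : ∀ l : Fin 4, 4 * (univ.filter fun x => c x = l).card <
      Fintype.card (Fin 4 → Fin n) := fun l => by
    have h3 := Finset.sum_lt_sum_of_nonempty (s := (univ : Finset (Fin 4 → Fin n)))
      Finset.univ_nonempty fun x _ => h l x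
    rw [← Finset.mul_sum, h1 l, Finset.sum_const, Finset.card_univ, smul_eq_mul] at h3
    by_contra h4
    push Not at h4
    nlinarith
  have h3 := Finset.sum_lt_sum_of_nonempty (s := (univ : Finset (Fin 4)))
    Finset.univ_nonempty fun l _ => h2 l
  rw [← Finset.mul_sum, ← Finset.card_eq_sum_card_fiberwise (fun _ _ => Finset.mem_univ _),
    Finset.sum_const, Finset.card_univ, Finset.card_univ, Fintype.card_fin, smul_eq_mul] at h3
  exact lt_irrefl _ h3

/-- a gadget from lines in a cube -/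
theorem gad_of_lines {ν : V → ℝ} {K : ℝ} {m n : ℕ} (hn : 0 < n) (g : Fin 4 → (Fin 4 → Fin n) → V)
    (hd : Dj fun p : Fin 4 × (Fin 4 → Fin n) => g p.1 p.2) (ht : ∀ l x, Tl m (g l x))
    (h : ∀ (l l' : Fin 4), l' ≠ l → ∀ (x : Fin 4 → Fin n) (B : Finset (Fin n)), n ≤ 4 * B.card →
      K * ν (∑ b ∈ B, g l' (Function.update x l b)) < ν (∑ b ∈ B, g l (Function.update x l b))) :
    Gad ν K m := by
  classical
  refine ⟨Fin 4 → Fin n, inferInstance, g, hd, ht, fun c => ?_⟩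
  obtain ⟨l, x, hx⟩ := garr_count hn c
  set B := univ.filter fun b => c (Function.update x l b) = l with hB
  have hc : ∀ y : (Fin 4 → Fin n) → V,
      cmb (fun z => if z ∈ B.image (Function.update x l) then 1 else 0) y =
        ∑ b ∈ B, y (Function.update x l b) := fun y => by
    unfold cmb
    simp only [ite_smul, one_smul, zero_smul]
    rw [Finset.sum_ite_mem, Finset.univ_inter,
      Finset.sum_image (Function.update_injective x l).injOn]
  refine ⟨l, fun z => if z ∈ B.image (Function.update x l) then 1 else 0, fun i hi => ?_,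
    fun l' hl' => ?_⟩
  · refine if_neg fun h0 => ?_
    obtain ⟨b, hb, rfl⟩ := Finset.mem_image.1 h0
    exact hi (Finset.mem_filter.1 hb).2
  · rw [hc, hc]
    exact h l l' hl' x B hx

/-- two-sided estimate -/
def garrEq (C : ℝ) (v : W) (a : ℝ≥0) : Prop := ‖v‖ ≤ C * a ∧ (a : ℝ) ≤ C * ‖v‖

theorem garr_reindex {Γ : Gauge} {x : ℕ → W} {C : ℝ}
    (hx : ∀ (σ : Finset ℕ) (c : ℕ → 𝕜), garrEq C (∑ k ∈ σ, c k • x k) (Γ.sum σ fun k => ‖c k‖₊))
    {ι : Type*} (s : Finset ι) {a : ι → ℕ} (ha : Function.Injective a) (c : ι → 𝕜) :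
    garrEq C (∑ i ∈ s, c i • x (a i)) (Γ.sum s fun i => ‖c i‖₊) := by
  have h := hx (s.map ⟨a, ha⟩) (Function.extend a c 0)
  rw [Finset.sum_map, Γ.sum_map] at h
  simpa only [Function.Embedding.coeFn_mk, ha.extend_apply] using h

/-- normalised Rademacher sum -/
noncomputable def garrCo (Γ : Gauge) {k : ℕ} (d : Fin k → 𝕜) (ε : Fin k → ℤˣ) : 𝕜 :=
  ((((Γ.gam (2 ^ k))⁻¹ : ℝ≥0) : ℝ) : 𝕜) * ∑ i, ε i • d i

/-- gauge of the Rademacher sum -/
noncomputable def garrB (Γ : Gauge) {k : ℕ} (d : Fin k → 𝕜) : ℝ≥0 :=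
  Γ.sum univ fun ε => ‖garrCo Γ d ε‖₊

/-- the Rademacher vectors -/
noncomputable def garrE (𝕜 : Type w) [RCLike 𝕜] [NormedSpace 𝕜 W] (Γ : Gauge) (x : ℕ → W)
    (a : (Σ k : ℕ, Fin k → ℤˣ) → ℕ) (n : ℕ) : W :=
  if h : n.unpair.2 < n.unpair.1 then
    ∑ ε : Fin n.unpair.1 → ℤˣ, garrCo Γ (Pi.single ⟨_, h⟩ (1 : 𝕜)) ε • x (a ⟨_, ε⟩)
  else 0

theorem garr_e_aux (Γ : Gauge) (x : ℕ → W) (a : (Σ k : ℕ, Fin k → ℤˣ) → ℕ) {n k : ℕ} (i : Fin k)
    (h1 : n.unpair.1 = k) (h2 : n.unpair.2 = i) :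
    garrE 𝕜 Γ x a n = ∑ ε : Fin k → ℤˣ, garrCo Γ (Pi.single i (1 : 𝕜)) ε • x (a ⟨k, ε⟩) := by
  subst h1
  unfold garrE
  rw [dif_pos (h2 ▸ i.2)]
  have : (⟨n.unpair.2, h2 ▸ i.2⟩ : Fin n.unpair.1) = i := Fin.ext h2
  rw [this]

theorem garr_block (Γ : Gauge) (x : ℕ → W) (a : (Σ k : ℕ, Fin k → ℤˣ) → ℕ) {k : ℕ}
    (d : Fin k → 𝕜) : ∑ i, d i • garrE 𝕜 Γ x a (Nat.pair k i) =
      ∑ ε : Fin k → ℤˣ, garrCo Γ d ε • x (a ⟨k, ε⟩) := by
  have h : ∀ i : Fin k, garrE 𝕜 Γ x a (Nat.pair k i) = _ := fun i =>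
    garr_e_aux Γ x a i (by simp) (by simp)
  simp only [h, Finset.smul_sum, smul_smul]
  rw [Finset.sum_comm]
  refine Finset.sum_congr rfl fun ε _ => ?_
  rw [← Finset.sum_smul]
  congr 1
  unfold garrCo
  rw [Finset.mul_sum]
  refine Finset.sum_congr rfl fun i _ => ?_
  rw [Finset.sum_eq_single i (fun j _ hj => by rw [Pi.single_eq_of_ne hj, smul_zero]) (by simp),
    Pi.single_eq_same, units_smul_eq (𝕜 := 𝕜), units_smul_eq (𝕜 := 𝕜) (ε i) (d i)]
  simp only [smul_eq_mul]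
  ring

theorem garr_main {Γ : Gauge} {x : ℕ → W} {C : ℝ}
    (hx : ∀ (σ : Finset ℕ) (c : ℕ → 𝕜), garrEq C (∑ k ∈ σ, c k • x k) (Γ.sum σ fun k => ‖c k‖₊))
    {a : (Σ k : ℕ, Fin k → ℤˣ) → ℕ} (ha : Function.Injective a) {ι : Type*} (s : Finset ι)
    {k : ι → ℕ} (hk : Function.Injective k) (d : ∀ b, Fin (k b) → 𝕜) :
    garrEq C (∑ b ∈ s, ∑ i, d b i • garrE 𝕜 Γ x a (Nat.pair (k b) i))
      (Γ.sum s fun b => garrB Γ (d b)) := by
  have hinj : Function.Injective fun p : (Σ b : ι, Fin (k b) → ℤˣ) => a ⟨k p.1, p.2⟩ := by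
    rintro ⟨b, ε⟩ ⟨b', ε'⟩ h
    have h1 := ha h
    obtain rfl : b = b' := hk (congrArg Sigma.fst h1)
    have h2 : ε = ε' := eq_of_heq (Sigma.mk.inj h1).2
    rw [h2]
  have h := garr_reindex hx (s.sigma fun _ => univ) hinj fun p => garrCo Γ (d p.1) p.2
  rw [Finset.sum_sigma, Γ.sum_sigma'] at h
  simp only [garr_block]
  exact h

theorem garr_gam_pos (Γ : Gauge) (k : ℕ) : 0 < Γ.gam (2 ^ k) :=
  lt_of_lt_of_le one_pos (Γ.one_le_gam (by positivity))

theorem garr_card (k : ℕ) : Fintype.card (Fin k → ℤˣ) = 2 ^ k := by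
  rw [Fintype.card_fun, Fintype.card_fin, Fintype.card_units_int]

theorem garr_sign (Γ : Gauge) {k : ℕ} (d : Fin k → 𝕜) (s : Fin k → ℤˣ) :
    garrB Γ (fun i => s i • d i) = garrB Γ d := by
  unfold garrB
  rw [← Γ.sum_equiv (Equiv.mulRight s) fun ε => ‖garrCo Γ d ε‖₊]
  refine Γ.sum_congr fun ε _ => ?_
  simp only [garrCo, Equiv.coe_mulRight, Pi.mul_apply, mul_smul]

theorem garr_single (Γ : Gauge) {k : ℕ} (i : Fin k) : garrB Γ (Pi.single i (1 : 𝕜)) = 1 := by
  unfold garrB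
  rw [Γ.sum_congr (t' := fun _ => (Γ.gam (2 ^ k))⁻¹), Γ.sum_const, Finset.card_univ, garr_card,
    inv_mul_cancel₀ (garr_gam_pos Γ k).ne']
  intro ε _
  apply NNReal.coe_injective
  unfold garrCo
  rw [Finset.sum_eq_single i (fun j _ hj => by rw [Pi.single_eq_of_ne hj, smul_zero]) (by simp),
    Pi.single_eq_same, coe_nnnorm, norm_mul, norm_units_smul, norm_one, mul_one,
    RCLike.norm_ofReal, NNReal.abs_eq]

theorem garr_ssq (Γ : Gauge) {k : ℕ} (d : Fin k → 𝕜) :
    ssq (fun ε => ‖garrCo Γ d ε‖₊) * (Γ.gam (Fintype.card (Fin k → ℤˣ)) : ℝ) ^ 2 =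
      Fintype.card (Fin k → ℤˣ) * ∑ i, ‖d i‖ ^ 2 := by
  rw [← (rad_moments d).1, garr_card]
  unfold ssq Ex hf garrCo
  rw [Finset.sum_mul, Finset.mul_sum]
  refine Finset.sum_congr rfl fun ε _ => ?_
  have h0 : (0 : ℝ) < Γ.gam (2 ^ k) := garr_gam_pos Γ k
  rw [coe_nnnorm, norm_mul, RCLike.norm_ofReal, NNReal.abs_eq, NNReal.coe_inv, Finset.prod_const,
    Finset.card_univ, Fintype.card_fin]
  push_cast
  rw [one_div, inv_pow]
  field_simp

theorem garr_signU {Γ : Gauge} {x : ℕ → W} {C : ℝ} (hC : 0 ≤ C)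
    (hx : ∀ (σ : Finset ℕ) (c : ℕ → 𝕜), garrEq C (∑ k ∈ σ, c k • x k) (Γ.sum σ fun k => ‖c k‖₊))
    {a : (Σ k : ℕ, Fin k → ℤˣ) → ℕ} (ha : Function.Injective a) :
    SignU 𝕜 (garrE 𝕜 Γ x a) (C * C) := by
  classical
  intro σ c ε
  set T := σ.image fun n => n.unpair.1 with hT
  have key : ∀ c : ℕ → 𝕜, ∑ n ∈ σ, c n • garrE 𝕜 Γ x a n = ∑ k ∈ T, ∑ i : Fin k,
      (if Nat.pair k i ∈ σ then c (Nat.pair k i) else 0) • garrE 𝕜 Γ x a (Nat.pair k i) := by
    intro c
    rw [Finset.sum_sigma']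
    symm
    refine Finset.sum_bij_ne_zero (fun p _ _ => Nat.pair p.1 p.2) ?_ ?_ ?_ ?_
    · intro p _ hp
      by_contra h0
      rw [if_neg h0, zero_smul] at hp
      exact hp rfl
    · rintro ⟨k, i⟩ _ _ ⟨k', i'⟩ _ _ h
      obtain ⟨h1, h2⟩ := Nat.pair_eq_pair.1 h
      obtain rfl : k = k' := h1
      obtain rfl : i = i' := Fin.ext h2
      rfl
    · intro n hn h0
      have h1 : n.unpair.2 < n.unpair.1 := by
        by_contra h1
        rw [garrE, dif_neg h1, smul_zero] at h0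
        exact h0 rfl
      refine ⟨⟨n.unpair.1, ⟨_, h1⟩⟩, Finset.mem_sigma.2
        ⟨Finset.mem_image_of_mem _ hn, Finset.mem_univ _⟩, ?_, Nat.pair_unpair n⟩
      simpa only [Nat.pair_unpair, if_pos hn] using h0
    · intro p _ hp
      have h0 : Nat.pair p.1 p.2 ∈ σ := by
        by_contra h0
        rw [if_neg h0, zero_smul] at hp
        exact hp rfl
      rw [if_pos h0]
  have h1 := garr_main hx ha T Function.injective_id
    fun k i => if Nat.pair k i ∈ σ then c (Nat.pair k i) else 0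
  have h2 := garr_main hx ha T Function.injective_id
    fun k i => ε (Nat.pair k i) • if Nat.pair k i ∈ σ then c (Nat.pair k i) else 0
  simp only [garr_sign] at h2
  have h3 := key fun n => ε n • c n
  simp only [smul_assoc] at h3
  rw [h3, key c, mul_assoc]
  refine le_trans (le_of_eq ?_) (h2.1.trans (mul_le_mul_of_nonneg_left h1.2 hC))
  simp only [id, smul_ite, smul_zero]

theorem garr_same {Γ : Gauge} {x : ℕ → W} {C : ℝ}
    (hx : ∀ (σ : Finset ℕ) (c : ℕ → 𝕜), garrEq C (∑ k ∈ σ, c k • x k) (Γ.sum σ fun k => ‖c k‖₊))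
    {a : (Σ k : ℕ, Fin k → ℤˣ) → ℕ} (ha : Function.Injective a) {n k : ℕ} {i : Fin n → ℕ}
    (hi : Function.Injective i) (hik : ∀ b, i b < k) (B : Finset (Fin n)) :
    ∃ d : Fin k → 𝕜, ∑ j, ‖d j‖ ^ 2 = B.card ∧
      garrEq C (∑ b ∈ B, garrE 𝕜 Γ x a (Nat.pair k (i b))) (garrB Γ d) := by
  classical
  let j : Fin n → Fin k := fun b => ⟨i b, hik b⟩
  have hj : Function.Injective j := fun b b' h => hi (congrArg Fin.val h)
  refine ⟨fun z => if z ∈ B.image j then 1 else 0, ?_, ?_⟩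
  · have : ∀ z, ‖(if z ∈ B.image j then 1 else 0 : 𝕜)‖ ^ 2 = if z ∈ B.image j then 1 else 0 :=
      fun z => by split_ifs <;> simp
    simp only [this]
    rw [Finset.sum_ite_mem, Finset.univ_inter, Finset.sum_const,
      Finset.card_image_of_injective _ hj]
    simp
  · have h := garr_main hx ha {()} (k := fun _ : Unit => k) (fun _ _ _ => rfl)
      fun _ z => if z ∈ B.image j then (1 : 𝕜) else 0
    rw [Finset.sum_singleton, Γ.sum_singleton] at h
    simp only [ite_smul, one_smul, zero_smul] at h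
    rwa [Finset.sum_ite_mem, Finset.univ_inter, Finset.sum_image hj.injOn] at h

theorem garr_diff {Γ : Gauge} {x : ℕ → W} {C : ℝ}
    (hx : ∀ (σ : Finset ℕ) (c : ℕ → 𝕜), garrEq C (∑ k ∈ σ, c k • x k) (Γ.sum σ fun k => ‖c k‖₊))
    {a : (Σ k : ℕ, Fin k → ℤˣ) → ℕ} (ha : Function.Injective a) {n : ℕ} {k i : Fin n → ℕ}
    (hk : Function.Injective k) (hik : ∀ b, i b < k b) (B : Finset (Fin n)) :
    garrEq C (∑ b ∈ B, garrE 𝕜 Γ x a (Nat.pair (k b) (i b))) (Γ.gam B.card) := by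
  have h := garr_main hx ha B hk fun b => Pi.single ⟨i b, hik b⟩ (1 : 𝕜)
  simp only [garr_single] at h
  rw [Γ.sum_const, one_mul] at h
  have e : ∀ b, ∑ z : Fin (k b), (Pi.single ⟨i b, hik b⟩ (1 : 𝕜) : Fin (k b) → 𝕜) z •
      garrE 𝕜 Γ x a (Nat.pair (k b) z) = garrE 𝕜 Γ x a (Nat.pair (k b) (i b)) := fun b => by
    rw [Finset.sum_eq_single ⟨i b, hik b⟩
      (fun j _ hj => by rw [Pi.single_eq_of_ne hj, zero_smul]) (by simp), Pi.single_eq_same,
      one_smul]
  simpa only [e] using h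

theorem garr_nu {e : ℕ → W} {U : ℝ} (h : SignU 𝕜 e U) {n : ℕ} {a : Fin n → ℕ}
    (ha : Function.Injective a) (B : Finset (Fin n)) :
    ‖∑ b ∈ B, e (a b)‖ ≤ nu 𝕜 e (∑ b ∈ B, Finsupp.single (a b) 1) ∧
      nu 𝕜 e (∑ b ∈ B, Finsupp.single (a b) 1) ≤ 4 * (|U| + 1) * ‖∑ b ∈ B, e (a b)‖ := by
  classical
  have h1 := h.single ha fun b => if b ∈ B then (1 : 𝕜) else 0
  have h2 : ∀ b, ‖(if b ∈ B then 1 else 0 : 𝕜)‖₊ = if b ∈ B then 1 else 0 :=
    fun b => by split_ifs <;> simp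
  unfold cmb at h1
  simp only [h2, ite_smul, one_smul, zero_smul, Finset.sum_ite_mem, Finset.univ_inter] at h1
  exact h1

theorem garr_pow {p q : ℝ} (hp : 0 < p) (hpq : p < q) (A : ℝ) : ∃ s : ℕ, A * p ^ s < q ^ s := by
  obtain ⟨s, hs⟩ := pow_unbounded_of_one_lt A ((one_lt_div hp).2 hpq)
  rw [div_pow, lt_div_iff₀ (by positivity)] at hs
  exact ⟨s, hs⟩

theorem garr_blk (n m : ℕ) : ∃ (enc : (Fin 4 → Fin n) → ℕ) (blk : Fin 4 × (Fin 4 → Fin n) → ℕ),
    Function.Injective enc ∧ Function.Injective blk ∧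
      ∀ p, m ≤ blk p ∧ n ≤ blk p ∧ ∀ y, enc y < blk p := by
  obtain ⟨enc, henc⟩ := Countable.exists_injective_nat (Fin 4 → Fin n)
  obtain ⟨f, hf⟩ := Countable.exists_injective_nat (Fin 4 × (Fin 4 → Fin n))
  refine ⟨enc, fun p => f p + (m + n + univ.sup enc + 1), henc,
    fun p q h => hf (Nat.add_right_cancel h), fun p => ⟨by dsimp only; omega, by dsimp only; omega, fun y => ?_⟩⟩
  have := Finset.le_sup (f := enc) (Finset.mem_univ y)
  dsimp only
  omega

theorem garr_fin {K U C u v p q r t : ℝ} (hC : 0 < C) (hU : 0 < U) (hp : p ≤ U * u)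
    (hp0 : 0 ≤ p) (hu : u ≤ C * r) (hv : t ≤ C * v) (hq : v ≤ q)
    (h : |K| * U * C * C * r < t) : K * p < q := by
  have h1 : K * p ≤ |K| * (U * (C * r)) :=
    (mul_le_mul_of_nonneg_right (le_abs_self K) hp0).trans (mul_le_mul_of_nonneg_left
      (hp.trans (mul_le_mul_of_nonneg_left hu hU.le)) (abs_nonneg K))
  have h2 : C * (|K| * (U * (C * r))) < C * q := by nlinarith
  exact h1.trans_lt (lt_of_mul_lt_mul_left h2 hC.le)

theorem gads_of_classical {Γ : Gauge} (hΓ : Γ.NonL2) (x : ℕ → W) {C : ℝ}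
    (hx : ∀ (σ : Finset ℕ) (c : ℕ → 𝕜), ‖∑ k ∈ σ, c k • x k‖ ≤ C * Γ.sum σ (fun k => ‖c k‖₊) ∧
      (Γ.sum σ (fun k => ‖c k‖₊) : ℝ) ≤ C * ‖∑ k ∈ σ, c k • x k‖) :
    ∃ (e : ℕ → W) (U : ℝ), SignU 𝕜 e U ∧ Gads (nu 𝕜 e) := by
  classical
  obtain ⟨a, ha⟩ := Countable.exists_injective_nat (Σ k : ℕ, Fin k → ℤˣ)
  have hC : 0 < C := by
    have h := (hx {0} fun _ => 1).2
    rw [Γ.sum_singleton] at h
    by_contra h0
    have := mul_nonpos_of_nonpos_of_nonneg (not_lt.1 h0)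
      (norm_nonneg (∑ k ∈ ({0} : Finset ℕ), (1 : 𝕜) • x k))
    simp only [nnnorm_one, NNReal.coe_one] at h
    linarith
  have hS := garr_signU (Γ := Γ) hC.le hx ha
  refine ⟨_, _, hS, fun K m => ?_⟩
  have hU : 0 < 4 * (|C * C| + 1) := by positivity
  have hth : (1 : ℝ) ≤ Γ.th := Γ.one_le_th
  have hln := ln_nu (𝕜 := 𝕜) (garrE 𝕜 Γ x a)
  have hcard : ∀ k : ℕ, (0 : ℝ) < Fintype.card (Fin k → ℤˣ) := fun k => by
    rw [garr_card]; positivity
  rcases hΓ with ⟨h2, hG⟩ | ⟨h2, hG⟩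
  · obtain ⟨s, hs⟩ := garr_pow (p := Γ.th) (q := 2) (by linarith) (by exact_mod_cast h2)
      (|K| * (4 * (|C * C| + 1)) * C * C * Γ.th)
    have hn : 0 < 4 ^ (s + 1) := by positivity
    obtain ⟨enc, blk, -, hblk, hb⟩ := garr_blk (4 ^ (s + 1)) m
    refine gad_of_lines hn
      (fun l y => Finsupp.single (Nat.pair (blk (l, Function.update y l ⟨0, hn⟩)) (y l)) 1)
      (dj_single ?_) (fun l y => tl_single ((hb _).1.trans (Nat.left_le_pair _ _))) ?_
    · rintro ⟨l, y⟩ ⟨l', y'⟩ h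
      obtain ⟨h3, h4⟩ := Nat.pair_eq_pair.1 h
      obtain ⟨rfl, h5⟩ := Prod.mk.inj (hblk h3)
      congr 1
      funext j
      by_cases hj : j = l
      · rw [hj]; exact Fin.ext h4
      · simpa only [Function.update_of_ne hj] using congrFun h5 j
    · intro l l' hl y B hB
      simp only [Function.update_idem, Function.update_self, Function.update_of_ne hl]
      have hk : Function.Injective fun b =>
          blk (l', Function.update (Function.update y l b) l' ⟨0, hn⟩) := fun b b' h => by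
        simpa only [Function.update_of_ne hl.symm, Function.update_self] using
          congrFun (Prod.mk.inj (hblk h)).2 l
      have d1 := garr_diff hx ha hk (i := fun _ => y l')
        (fun b => (y l').2.trans_le (hb _).2.1) B
      obtain ⟨d, hd, d2⟩ := garr_same hx ha (k := blk (l, Function.update y l ⟨0, hn⟩))
        Fin.val_injective (fun b => b.2.trans_le (hb _).2.1) B
      have n1 := garr_nu hS (a := fun b => Nat.pair
        (blk (l', Function.update (Function.update y l b) l' ⟨0, hn⟩)) (y l'))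
        (fun b b' h => hk (Nat.pair_eq_pair.1 h).1) B
      have n2 := garr_nu hS (a := fun b : Fin (4 ^ (s + 1)) => Nat.pair
        (blk (l, Function.update y l ⟨0, hn⟩)) b)
        (fun b b' h => Fin.ext (Nat.pair_eq_pair.1 h).2) B
      have g1 : (Γ.gam B.card : ℝ) ≤ Γ.th * Γ.th ^ s := by
        have := Γ.gam_mono (show B.card ≤ 4 ^ (s + 1) by simpa using Finset.card_le_univ B)
        rw [Γ.gam_pow, pow_succ' Γ.th] at this
        exact_mod_cast this
      have g2 : (2 : ℝ) ^ s ≤ garrB Γ d := by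
        have h3 := hG _ fun ε => ‖garrCo Γ d ε‖₊
        rw [garr_ssq, hd] at h3
        have h4 := le_of_mul_le_mul_left h3 (hcard _)
        have h5 : (4 : ℝ) ^ s ≤ B.card := by
          exact_mod_cast Nat.le_of_mul_le_mul_left ((pow_succ' 4 s).ge.trans hB) (by norm_num)
        refine (pow_le_pow_iff_left₀ (by positivity) (NNReal.coe_nonneg _) two_ne_zero).1 ?_
        rw [← pow_mul, mul_comm, pow_mul]
        norm_num
        exact h5.trans h4
      exact garr_fin hC hU n1.2 (hln.nonneg _) (d1.1.trans (mul_le_mul_of_nonneg_left g1 hC.le))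
        (g2.trans d2.2) n2.1 (by linarith)
  · obtain ⟨s, hs⟩ := garr_pow (p := 2) (q := Γ.th) (by norm_num) (by exact_mod_cast h2)
      (|K| * (4 * (|C * C| + 1)) * C * C * 2)
    have hn : 0 < 4 ^ (s + 1) := by positivity
    obtain ⟨enc, blk, henc, hblk, hb⟩ := garr_blk (4 ^ (s + 1)) m
    refine gad_of_lines hn
      (fun l y => Finsupp.single (Nat.pair (blk (l, fun _ => y l)) (enc y)) 1)
      (dj_single ?_) (fun l y => tl_single ((hb _).1.trans (Nat.left_le_pair _ _))) ?_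
    · rintro ⟨l, y⟩ ⟨l', y'⟩ h
      obtain ⟨h3, h4⟩ := Nat.pair_eq_pair.1 h
      exact Prod.ext (Prod.mk.inj (hblk h3)).1 (henc h4)
    · intro l l' hl y B hB
      simp only [Function.update_self, Function.update_of_ne hl]
      have hk : Function.Injective fun b : Fin (4 ^ (s + 1)) => blk (l, fun _ => b) :=
        fun b b' h => congrFun (Prod.mk.inj (hblk h)).2 l
      have hi : Function.Injective fun b => enc (Function.update y l b) :=
        henc.comp (Function.update_injective y l)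
      have d1 := garr_diff hx ha hk (i := fun b => enc (Function.update y l b))
        (fun b => (hb _).2.2 _) B
      obtain ⟨d, hd, d2⟩ := garr_same hx ha (k := blk (l', fun _ => y l')) hi
        (fun b => (hb _).2.2 _) B
      have n1 := garr_nu hS (a := fun b => Nat.pair (blk (l', fun _ => y l'))
        (enc (Function.update y l b))) (fun b b' h => hi (Nat.pair_eq_pair.1 h).2) B
      have n2 := garr_nu hS (a := fun b => Nat.pair (blk (l, fun _ => b))
        (enc (Function.update y l b))) (fun b b' h => hi (Nat.pair_eq_pair.1 h).2) B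
      have g1 : (Γ.th : ℝ) ^ s ≤ Γ.gam B.card := by
        have := Γ.gam_mono
          (Nat.le_of_mul_le_mul_left ((pow_succ' 4 s).ge.trans hB) (by norm_num))
        rw [Γ.gam_pow] at this
        exact_mod_cast this
      have g2 : (garrB Γ d : ℝ) ≤ 2 * 2 ^ s := by
        have h3 := hG _ fun ε => ‖garrCo Γ d ε‖₊
        rw [garr_ssq, hd] at h3
        have h4 := le_of_mul_le_mul_left h3 (hcard _)
        have h5 : (B.card : ℝ) ≤ 4 ^ (s + 1) := by
          exact_mod_cast (show B.card ≤ 4 ^ (s + 1) by simpa using Finset.card_le_univ B)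
        refine (pow_le_pow_iff_left₀ (NNReal.coe_nonneg _) (by positivity) two_ne_zero).1 ?_
        rw [← pow_succ', ← pow_mul, mul_comm, pow_mul]
        norm_num
        exact h4.trans h5
      exact garr_fin hC hU n1.2 (hln.nonneg _) (d2.1.trans (mul_le_mul_of_nonneg_left g2 hC.le))
        (g1.trans d1.2) n2.1 (by linarith)

end Pool.Agent.Lib.MP_435322_an.UD
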