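import Pool.Agent.Lib.MP_435322_an.UCov

/-! Gauges: abstract versions of the norms of the classical sequence spaces. -/

namespace Pool.Agent.Lib.MP_435322_an.UD

open Finset
open scoped NNReal

/-- a commutative, associative, monotone and homogeneous operation between max and sum -/
structure Gauge where
  op : ℝ≥0 → ℝ≥0 → ℝ≥0
  comm : ∀ a b, op a b = op b a
  assoc : ∀ a b c, op (op a b) c = op a (op b c)
  zero : ∀ a, op a 0 = a
  mono : ∀ a a' b, a ≤ a' → op a b ≤ op a' b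
  smul : ∀ c a b, op (c * a) (c * b) = c * op a b
  le_add : ∀ a b, op a b ≤ a + b

namespace Gauge

variable (Γ : Gauge)

/-- the commutative monoid of a gauge -/
def M (_ : Gauge) : Type := ℝ≥0

instance : Add Γ.M := ⟨Γ.op⟩
instance : Zero Γ.M := ⟨(0 : ℝ≥0)⟩

instance : AddCommMonoid Γ.M where
  add_assoc := Γ.assoc
  zero_add := fun a => (Γ.comm _ _).trans (Γ.zero a)
  add_zero := Γ.zero
  add_comm := Γ.comm
  nsmul := nsmulRec

/-- the gauge of a finite family -/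
def sum {I : Type*} (s : Finset I) (t : I → ℝ≥0) : ℝ≥0 := Finset.sum (M := Γ.M) s t

/-- the gauge of a list -/
def lsum (L : List ℝ≥0) : ℝ≥0 := L.foldr Γ.op 0

/-- the fundamental function -/
def gam (n : ℕ) : ℝ≥0 := Γ.sum (Finset.range n) fun _ => 1

/-- the growth rate -/
def th : ℝ≥0 := Γ.gam 4

variable {I J : Type*}

theorem zero' (a : ℝ≥0) : Γ.op 0 a = a := (Γ.comm _ _).trans (Γ.zero a)

theorem mono2 {a a' b b' : ℝ≥0} (h : a ≤ a') (h' : b ≤ b') : Γ.op a b ≤ Γ.op a' b' :=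
  (Γ.mono a a' b h).trans (by rw [Γ.comm a' b, Γ.comm a' b']; exact Γ.mono _ _ _ h')

theorem le_op_left (a b : ℝ≥0) : a ≤ Γ.op a b := by
  have := Γ.mono2 (le_refl a) (zero_le (a := b))
  rwa [Γ.zero] at this

theorem le_op_right (a b : ℝ≥0) : b ≤ Γ.op a b := by
  rw [Γ.comm]; exact Γ.le_op_left b a

theorem sum_empty (t : I → ℝ≥0) : Γ.sum ∅ t = 0 := Finset.sum_empty (M := Γ.M)

theorem sum_insert [DecidableEq I] {s : Finset I} {a : I} (h : a ∉ s) (t : I → ℝ≥0) :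
    Γ.sum (insert a s) t = Γ.op (t a) (Γ.sum s t) := Finset.sum_insert (M := Γ.M) h

theorem sum_singleton (a : I) (t : I → ℝ≥0) : Γ.sum {a} t = t a :=
  Finset.sum_singleton (M := Γ.M) t a

theorem sum_congr {s : Finset I} {t t' : I → ℝ≥0} (h : ∀ i ∈ s, t i = t' i) :
    Γ.sum s t = Γ.sum s t' := Finset.sum_congr (M := Γ.M) rfl h

theorem sum_eq_zero {s : Finset I} {t : I → ℝ≥0} (h : ∀ i ∈ s, t i = 0) : Γ.sum s t = 0 :=
  Finset.sum_eq_zero (M := Γ.M) h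

theorem sum_map (s : Finset I) (e : I ↪ J) (t : J → ℝ≥0) :
    Γ.sum (s.map e) t = Γ.sum s fun i => t (e i) := Finset.sum_map (M := Γ.M) s e t

theorem sum_union [DecidableEq I] {s s' : Finset I} (h : Disjoint s s') (t : I → ℝ≥0) :
    Γ.sum (s ∪ s') t = Γ.op (Γ.sum s t) (Γ.sum s' t) := Finset.sum_union (M := Γ.M) h

theorem sum_filter_op (s : Finset I) (p : I → Prop) [DecidablePred p] (t : I → ℝ≥0) :
    Γ.op (Γ.sum (s.filter p) t) (Γ.sum (s.filter fun i => ¬ p i) t) = Γ.sum s t :=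
  Finset.sum_filter_add_sum_filter_not (M := Γ.M) s p t

theorem sum_filter (s : Finset I) (p : I → Prop) [DecidablePred p] (t : I → ℝ≥0) :
    Γ.sum (s.filter p) t = Γ.sum s fun i => if p i then t i else 0 :=
  Finset.sum_filter (M := Γ.M) p t

theorem sum_subset {s s' : Finset I} (h : s ⊆ s') {t : I → ℝ≥0}
    (h0 : ∀ i ∈ s', i ∉ s → t i = 0) : Γ.sum s t = Γ.sum s' t :=
  Finset.sum_subset (M := Γ.M) h h0

theorem sum_coe_sort (s : Finset I) (t : I → ℝ≥0) :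
    Γ.sum univ (fun i : s => t i) = Γ.sum s t := Finset.sum_coe_sort (M := Γ.M) s t

theorem sum_sigma' {β : I → Type*} (s : Finset I) (u : ∀ i, Finset (β i)) (t : Sigma β → ℝ≥0) :
    Γ.sum (s.sigma u) t = Γ.sum s fun i => Γ.sum (u i) fun j => t ⟨i, j⟩ :=
  Finset.sum_sigma (β := Γ.M) s u t

theorem sum_sigma [Fintype I] {β : I → Type*} [∀ i, Fintype (β i)] (t : Sigma β → ℝ≥0) :
    Γ.sum univ t = Γ.sum univ fun i => Γ.sum univ fun j => t ⟨i, j⟩ :=
  Fintype.sum_sigma (M := Γ.M) t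

theorem sum_prod [Fintype I] [Fintype J] (t : I × J → ℝ≥0) :
    Γ.sum univ t = Γ.sum univ fun i => Γ.sum univ fun j => t (i, j) :=
  Fintype.sum_prod_type (γ := Γ.M) t

theorem sum_sum_type [Fintype I] [Fintype J] (t : I ⊕ J → ℝ≥0) :
    Γ.sum univ t = Γ.op (Γ.sum univ fun i => t (Sum.inl i)) (Γ.sum univ fun j => t (Sum.inr j)) :=
  Fintype.sum_sum_type (M := Γ.M) t

theorem sum_equiv [Fintype I] [Fintype J] (e : I ≃ J) (t : J → ℝ≥0) :
    Γ.sum univ (fun i => t (e i)) = Γ.sum univ t := Equiv.sum_comp (M := Γ.M) e t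

theorem sum_extend [Fintype I] [Fintype J] {e : I → J} (he : Function.Injective e)
    (t : I → ℝ≥0) : Γ.sum univ (Function.extend e t 0) = Γ.sum univ t := by
  refine (Fintype.sum_of_injective (M := Γ.M) e he _ _ (fun j hj => ?_) fun i => ?_).symm
  · exact Function.extend_apply' _ _ _ hj
  · exact (he.extend_apply _ _ i).symm

theorem sum_single [Fintype I] [DecidableEq I] (i : I) (c : ℝ≥0) :
    Γ.sum univ (Pi.single i c) = c := by
  rw [← Γ.sum_subset (Finset.subset_univ {i}) fun j _ hj =>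
    Pi.single_eq_of_ne (fun h => hj (Finset.mem_singleton.2 h)) _, sum_singleton,
    Pi.single_eq_same]

theorem sum_mono {s : Finset I} {t t' : I → ℝ≥0} (h : ∀ i ∈ s, t i ≤ t' i) :
    Γ.sum s t ≤ Γ.sum s t' := by
  classical
  induction s using Finset.induction_on with
  | empty => rw [sum_empty, sum_empty]
  | insert a s ha ih =>
    rw [Γ.sum_insert ha, Γ.sum_insert ha]
    exact Γ.mono2 (h a (Finset.mem_insert_self _ _))
      (ih fun i hi => h i (Finset.mem_insert_of_mem hi))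

theorem sum_mono_set {s s' : Finset I} (h : s ⊆ s') (t : I → ℝ≥0) : Γ.sum s t ≤ Γ.sum s' t := by
  classical
  rw [← Finset.union_sdiff_of_subset h, Γ.sum_union Finset.disjoint_sdiff]
  exact Γ.le_op_left _ _

theorem le_sum {s : Finset I} {i : I} (hi : i ∈ s) (t : I → ℝ≥0) : t i ≤ Γ.sum s t := by
  rw [← Γ.sum_singleton i t]
  exact Γ.sum_mono_set (Finset.singleton_subset_iff.2 hi) t

theorem sum_mul (s : Finset I) (c : ℝ≥0) (t : I → ℝ≥0) :
    Γ.sum s (fun i => c * t i) = c * Γ.sum s t := by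
  classical
  induction s using Finset.induction_on with
  | empty => rw [sum_empty, sum_empty, mul_zero]
  | insert a s ha ih => rw [Γ.sum_insert ha, Γ.sum_insert ha, ih, Γ.smul]

theorem sum_le_sum (s : Finset I) (t : I → ℝ≥0) : Γ.sum s t ≤ ∑ i ∈ s, t i := by
  classical
  induction s using Finset.induction_on with
  | empty => rw [sum_empty, Finset.sum_empty]
  | insert a s ha ih =>
    rw [Γ.sum_insert ha, Finset.sum_insert ha]
    exact (Γ.le_add _ _).trans (add_le_add_right ih _)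

theorem gam_zero : Γ.gam 0 = 0 := Γ.sum_empty _

theorem gam_succ (n : ℕ) : Γ.gam (n + 1) = Γ.op 1 (Γ.gam n) := by
  unfold gam
  rw [Finset.range_add_one, Γ.sum_insert Finset.notMem_range_self]

theorem gam_one : Γ.gam 1 = 1 := by rw [gam_succ, gam_zero, Γ.zero]

theorem sum_const (s : Finset I) (c : ℝ≥0) : Γ.sum s (fun _ => c) = c * Γ.gam s.card := by
  classical
  induction s using Finset.induction_on with
  | empty => rw [sum_empty, Finset.card_empty, gam_zero, mul_zero]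
  | insert a s ha ih =>
    rw [Γ.sum_insert ha, ih, Finset.card_insert_of_notMem ha, gam_succ, ← Γ.smul, mul_one]

theorem gam_add (a b : ℕ) : Γ.gam (a + b) = Γ.op (Γ.gam a) (Γ.gam b) := by
  induction a with
  | zero => rw [Nat.zero_add, gam_zero, zero']
  | succ a ih => rw [Nat.succ_add, gam_succ, ih, gam_succ, Γ.assoc]

theorem gam_sum (s : Finset I) (n : I → ℕ) :
    Γ.gam (∑ i ∈ s, n i) = Γ.sum s fun i => Γ.gam (n i) := by
  classical
  induction s using Finset.induction_on with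
  | empty => rw [Finset.sum_empty, gam_zero, sum_empty]
  | insert a s ha ih => rw [Finset.sum_insert ha, Γ.sum_insert ha, gam_add, ih]

theorem gam_mul (a b : ℕ) : Γ.gam (a * b) = Γ.gam a * Γ.gam b := by
  have h := Γ.gam_sum (Finset.range b) fun _ => a
  rw [Finset.sum_const, Finset.card_range, smul_eq_mul, sum_const, Finset.card_range,
    mul_comm b a] at h
  exact h

theorem gam_mono {a b : ℕ} (h : a ≤ b) : Γ.gam a ≤ Γ.gam b :=
  Γ.sum_mono_set (Finset.range_subset_range.2 h) _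

theorem gam_le (n : ℕ) : Γ.gam n ≤ n := by
  simpa [gam] using Γ.sum_le_sum (Finset.range n) fun _ => 1

theorem one_le_gam {n : ℕ} (h : 0 < n) : 1 ≤ Γ.gam n := Γ.gam_one ▸ Γ.gam_mono h

theorem gam_pow (s : ℕ) : Γ.gam (4 ^ s) = Γ.th ^ s := by
  induction s with
  | zero => rw [pow_zero, pow_zero, gam_one]
  | succ s ih => rw [pow_succ, gam_mul, ih, pow_succ, th]

theorem one_le_th : 1 ≤ Γ.th := Γ.one_le_gam (by norm_num)

theorem th_le : Γ.th ≤ 4 := by simpa [th] using Γ.gam_le 4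

theorem lsum_nil : Γ.lsum [] = 0 := rfl

theorem lsum_cons (a : ℝ≥0) (L : List ℝ≥0) : Γ.lsum (a :: L) = Γ.op a (Γ.lsum L) := rfl

theorem lsum_ofFn {n : ℕ} (t : Fin n → ℝ≥0) : Γ.lsum (List.ofFn t) = Γ.sum univ t := by
  induction n with
  | zero => rw [List.ofFn_zero, lsum_nil, Finset.univ_eq_empty, sum_empty]
  | succ n ih =>
    rw [List.ofFn_succ, lsum_cons, ih]
    exact (Fin.sum_univ_succ (M := Γ.M) t).symm

/-- the gauge is comparable with the Euclidean mean and grows at a different rate -/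
def NonL2 : Prop :=
  (Γ.th < 2 ∧ ∀ (I : Type) [Fintype I] (t : I → ℝ≥0),
    ssq t * (Γ.gam (Fintype.card I) : ℝ) ^ 2 ≤ Fintype.card I * (Γ.sum univ t : ℝ) ^ 2) ∨
  (2 < Γ.th ∧ ∀ (I : Type) [Fintype I] (t : I → ℝ≥0),
    Fintype.card I * (Γ.sum univ t : ℝ) ^ 2 ≤ ssq t * (Γ.gam (Fintype.card I) : ℝ) ^ 2)

end Gauge

/-- upper estimate for a family -/
def GUp (Γ : Gauge) (ν : V → ℝ) (C : ℝ) {I : Type*} [Fintype I] (y : I → V) : Prop :=
  ∀ t, ν (cmb t y) ≤ C * Γ.sum univ t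

/-- lower estimate for a family -/
def GLo (Γ : Gauge) (ν : V → ℝ) (C : ℝ) {I : Type*} [Fintype I] (y : I → V) : Prop :=
  ∀ t, (Γ.sum univ t : ℝ) ≤ C * ν (cmb t y)

/-- seminormalised families with a uniform upper estimate exist in every tail -/
def GNormUp (Γ : Gauge) (ν : V → ℝ) : Prop :=
  ∃ C : ℝ, ∀ n m, ∃ y : Fin n → V, Dj y ∧ (∀ i, Tl m (y i)) ∧ (∀ i, 1 ≤ ν (y i)) ∧ GUp Γ ν C y

/-- extension of a history by a finite family -/
def extG (Γ : Gauge) (D : Set (V × ℝ≥0)) {I : Type*} [Fintype I] (y : I → V) : Set (V × ℝ≥0) :=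
  {p | ∃ q ∈ D, ∃ t : I → ℝ≥0, p = (q.1 + cmb t y, Γ.op q.2 (Γ.sum univ t))}

/-- the builder loses the upward game -/
def GUB (Γ : Gauge) (ν : V → ℝ) : Prop :=
  ∀ C : ℝ, ∃ (H : ℝ) (Lose : Set (V × ℝ≥0) → Prop), Lose {(0, 0)} ∧
    (∀ D, Lose D → ∀ p ∈ D, ν p.1 ≤ H * p.2) ∧
    ∀ D, Lose D → ∀ N : ℕ, ∃ n m : ℕ, ∀ arr : Fin N → Fin n → V,
      Dj (fun p : Fin N × Fin n => arr p.1 p.2) → (∀ a j, Tl m (arr a j)) →
      (∀ a, GUp Γ ν C (arr a)) → ∃ s : Fin N → Fin n, Lose (extG Γ D fun a => arr a (s a))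

/-- weighted divisibility -/
def WD (Γ : Gauge) (ν : V → ℝ) (C : ℝ) (M : ℕ) (x : V) : Prop :=
  ∀ (I : Type) [Fintype I] (b : I → ℝ≥0), Γ.sum univ b = 1 → (∀ i, 1 ≤ (M : ℝ≥0) * b i) →
    ∃ z : I → V, Dj z ∧ ∑ i, z i ≤ x ∧ ∀ B : Finset I,
      (Γ.sum B b : ℝ) * ν x ≤ C * ν (∑ i ∈ B, z i) ∧ ν (∑ i ∈ B, z i) ≤ C * (Γ.sum B b * ν x)

/-- the gauge is finitely represented in every tail -/
def GEq (Γ : Gauge) (ν : V → ℝ) : Prop :=
  ∃ C : ℝ, ∀ n m, ∃ y : Fin n → V, Dj y ∧ (∀ i, Tl m (y i)) ∧ GUp Γ ν C y ∧ GLo Γ ν C y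

/-- a disjoint sequence equivalent to the gauge -/
def GSeq (Γ : Gauge) (ν : V → ℝ) : Prop :=
  ∃ (C : ℝ) (x : ℕ → V), Dj x ∧ ∀ (σ : Finset ℕ) (t : ℕ → ℝ≥0),
    ν (∑ k ∈ σ, t k • x k) ≤ C * Γ.sum σ t ∧ (Γ.sum σ t : ℝ) ≤ C * ν (∑ k ∈ σ, t k • x k)

/-- arrays with Euclidean columns and a small weighted row sum -/
def FinDown (ν : V → ℝ) : Prop :=
  ∃ C : ℝ, ∀ δ : ℝ, 0 < δ → ∃ (d : ℕ) (w : Fin d → ℝ≥0), ∀ N m : ℕ, ∃ y : Fin N → Fin d → V,
    Dj (fun p : Fin N × Fin d => y p.1 p.2) ∧ (∀ c i, Tl m (y c i)) ∧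
    (∀ i t, ν (cmb t fun c => y c i) ^ 2 ≤ C * ssq t ∧ ssq t ≤ C * ν (cmb t fun c => y c i) ^ 2) ∧
    0 < ssq w ∧ ν (∑ c, cmb w (y c)) ^ 2 ≤ δ * N * ssq w

/-- unconditional sequence of vectors -/
def SignU (𝕜 : Type*) [RCLike 𝕜] {W : Type*} [NormedAddCommGroup W] [NormedSpace 𝕜 W]
    (e : ℕ → W) (U : ℝ) : Prop :=
  ∀ (σ : Finset ℕ) (c : ℕ → 𝕜) (ε : ℕ → ℤˣ),
    ‖∑ n ∈ σ, ε n • c n • e n‖ ≤ U * ‖∑ n ∈ σ, c n • e n‖

end Pool.Agent.Lib.MP_435322_an.UD
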