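import Pool.Agent.Lib.MP_435322_an.UCore

/-! A gadget does not factor through blocks with other cross-ratios: no cotype needed. -/

namespace Pool.Agent.Lib.MP_435322_an.UD

open Finset Pool.Agent.Lib.MP_435322_an
open scoped NNReal

/-- a norming nonnegative functional for a monotone sublinear functional -/
theorem gcore_hb {Q : Type} [Fintype Q] [DecidableEq Q] {μ : (Q → ℝ≥0) → ℝ} (h : LM μ)
    (d : Q → ℝ≥0) : ∃ ψ : Q → ℝ, (∀ q, 0 ≤ ψ q) ∧ μ d ≤ ∑ q, ψ q * d q ∧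
      ∀ x : Q → ℝ≥0, ∑ q, ψ q * x q ≤ μ x := by
  by_cases hd : (fun q => (d q : ℝ)) = 0
  · refine ⟨0, fun _ => le_rfl, ?_, fun x => by simpa using kh_nonneg h x⟩
    have : d = 0 := by
      funext q
      exact NNReal.coe_eq_zero.1 (congrFun hd q)
    rw [this, kh_zero h]
    simp
  let N : (Q → ℝ) → ℝ := fun x => μ (fun q => ‖x q‖₊)
  have hom : ∀ (c : ℝ) x, N (c • x) = |c| * N x := by
    intro c x
    have e : (fun q => ‖(c • x) q‖₊) = ‖c‖₊ • fun q => ‖x q‖₊ := by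
      funext q
      simp only [Pi.smul_apply, smul_eq_mul, nnnorm_mul]
    simp only [N]
    rw [e, h.smul, coe_nnnorm, Real.norm_eq_abs]
  have hadd : ∀ x y, N (x + y) ≤ N x + N y := fun x y =>
    (h.mono _ _ fun q => nnnorm_add_le (x q) (y q)).trans (h.add _ _)
  have hNd : N (fun q => (d q : ℝ)) = μ d := by
    simp only [N, NNReal.nnnorm_eq]
  let f : (Q → ℝ) →ₗ.[ℝ] ℝ := LinearPMap.mkSpanSingleton (fun q => (d q : ℝ)) (μ d) hd
  obtain ⟨g, hg1, hg2⟩ := exists_extension_of_le_sublinear f N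
    (fun c hc x => by rw [hom, abs_of_pos hc]) hadd (by
      rintro ⟨x, hx⟩
      obtain ⟨c, rfl⟩ := Submodule.mem_span_singleton.1 hx
      have e : f ⟨c • fun q => (d q : ℝ), hx⟩ = c • μ d :=
        LinearPMap.mkSpanSingleton'_apply _ _ _ c hx
      rw [e]
      change c * μ d ≤ N (c • fun q => (d q : ℝ))
      rw [hom, hNd]
      exact mul_le_mul_of_nonneg_right (le_abs_self c) (kh_nonneg h d))
  have hgs : ∀ x : Q → ℝ, g x = ∑ q, g (Pi.single q 1) * x q := by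
    intro x
    conv_lhs => rw [← Finset.univ_sum_single x]
    rw [map_sum]
    refine Finset.sum_congr rfl fun q _ => ?_
    have e : (Pi.single q (x q) : Q → ℝ) = x q • (Pi.single q (1 : ℝ) : Q → ℝ) := by
      rw [← Pi.single_smul, smul_eq_mul, mul_one]
    rw [e, map_smul, smul_eq_mul, mul_comm]
  refine ⟨fun q => |g (Pi.single q 1)|, fun q => abs_nonneg _, ?_, fun x => ?_⟩
  · have hm : (fun q => (d q : ℝ)) ∈ f.domain := Submodule.mem_span_singleton_self _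
    have e1 : g (fun q => (d q : ℝ)) = f ⟨_, hm⟩ := hg1 ⟨_, hm⟩
    have e2 : f ⟨_, hm⟩ = μ d := LinearPMap.mkSpanSingleton'_apply_self _ _ _ hm
    rw [← e2, ← e1, hgs]
    exact Finset.sum_le_sum fun q _ =>
      mul_le_mul_of_nonneg_right (le_abs_self _) (NNReal.coe_nonneg _)
  · let y : Q → ℝ := fun q => if 0 ≤ g (Pi.single q 1) then (x q : ℝ) else -(x q : ℝ)
    have e1 : ∑ q, |g (Pi.single q 1)| * (x q : ℝ) = g y := by
      rw [hgs y]
      refine Finset.sum_congr rfl fun q _ => ?_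
      simp only [y]
      split_ifs with hq
      · rw [abs_of_nonneg hq]
      · rw [abs_of_neg (not_le.1 hq)]
        ring
    have e2 : N y = μ x := by
      simp only [N]
      congr 1
      funext q
      simp only [y]
      split_ifs
      · exact NNReal.nnnorm_eq _
      · rw [nnnorm_neg]
        exact NNReal.nnnorm_eq _
    rw [e1, ← e2]
    exact hg2 y

/-- scalar lower Khintchine inequality -/
theorem gcore_kh {𝕜 : Type*} [RCLike 𝕜] {ι : Type} [Fintype ι] [DecidableEq ι] (x : ι → 𝕜) :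
    Real.sqrt (∑ i, ‖x i‖ ^ 2) ≤ 6 * Ex hf (fun ε : ι → ℤˣ => ‖∑ i, ε i • x i‖) := by
  have h0 : 0 ≤ ∑ i, ‖x i‖ ^ 2 := Finset.sum_nonneg fun _ _ => sq_nonneg _
  have h2 := rad_moments x
  have hs := Real.sq_sqrt h0
  set m := Real.sqrt (∑ i, ‖x i‖ ^ 2)
  rw [← hs] at h2
  have h3 := Ex_first_ge isW_hf (fun ε : ι → ℤˣ => ‖∑ i, ε i • x i‖)
    (fun _ => norm_nonneg _) m 3 (Real.sqrt_nonneg _) (by norm_num) h2.1
    (h2.2.trans (by nlinarith [sq_nonneg (m ^ 2)]))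
  linarith

/-- diagonals of square summable coefficient matrices -/
theorem gcore_diag {𝕜 : Type*} [RCLike 𝕜] {Q P : Type} [Fintype Q] [DecidableEq Q] [Fintype P]
    {μ : (Q → ℝ≥0) → ℝ} (h : LM μ) (G c : Q → P → 𝕜) (D W : ℝ) (hD : 0 ≤ D)
    (hc : ∀ p, ∑ q, ‖c q p‖ ^ 2 ≤ D ^ 2)
    (hW : ∀ θ : P → 𝕜, (∀ p, ‖θ p‖ ≤ 1) → μ (fun q => ‖∑ p, θ p * G q p‖₊) ≤ W) :
    μ (fun q => ‖∑ p, c q p * G q p‖₊) ≤ 6 * D * W := by
  obtain ⟨ψ, hψ0, hψ1, hψ2⟩ := gcore_hb h (fun q => ‖∑ p, c q p * G q p‖₊)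
  let M : Q → P → 𝕜 := fun q p => ((ψ q : ℝ) : 𝕜) * G q p
  have hM : ∀ q p, ‖M q p‖ = ψ q * ‖G q p‖ := by
    intro q p
    simp only [M]
    rw [norm_mul, RCLike.norm_ofReal, abs_of_nonneg (hψ0 q)]
  have h1 : ∑ q, ψ q * ((‖∑ p, c q p * G q p‖₊ : ℝ≥0) : ℝ) ≤ ∑ p, ∑ q, ‖c q p‖ * ‖M q p‖ := by
    rw [Finset.sum_comm]
    refine Finset.sum_le_sum fun q _ => ?_
    rw [coe_nnnorm]
    refine (mul_le_mul_of_nonneg_left (norm_sum_le _ _) (hψ0 q)).trans (le_of_eq ?_)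
    rw [Finset.mul_sum]
    refine Finset.sum_congr rfl fun p _ => ?_
    rw [hM, norm_mul]
    ring
  have h2 : ∀ p, ∑ q, ‖c q p‖ * ‖M q p‖ ≤
      D * (6 * Ex hf (fun ε : Q → ℤˣ => ‖∑ q, ε q • M q p‖)) := by
    intro p
    refine (Real.sum_mul_le_sqrt_mul_sqrt _ _ _).trans ?_
    refine mul_le_mul ?_ (gcore_kh fun q => M q p) (Real.sqrt_nonneg _) hD
    exact Real.sqrt_le_iff.2 ⟨hD, hc p⟩
  have h3 : ∀ ε : Q → ℤˣ, ∑ p, ‖∑ q, ε q • M q p‖ ≤ W := by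
    intro ε
    choose θ hθ1 hθ2 using fun p => RCLike.exists_norm_eq_mul_self (∑ q, ε q • M q p)
    have e1 : ((∑ p, ‖∑ q, ε q • M q p‖ : ℝ) : 𝕜)
        = ∑ q, ε q • (((ψ q : ℝ) : 𝕜) * ∑ p, θ p * G q p) := by
      rw [RCLike.ofReal_sum]
      simp only [hθ2, Finset.mul_sum, Finset.smul_sum]
      rw [Finset.sum_comm]
      refine Finset.sum_congr rfl fun q _ => Finset.sum_congr rfl fun p _ => ?_
      simp only [M, units_smul_eq (𝕜 := 𝕜), smul_eq_mul]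
      ring
    have e2 : ∑ p, ‖∑ q, ε q • M q p‖ = ‖((∑ p, ‖∑ q, ε q • M q p‖ : ℝ) : 𝕜)‖ := by
      rw [RCLike.norm_ofReal, abs_of_nonneg (Finset.sum_nonneg fun _ _ => norm_nonneg _)]
    rw [e2, e1]
    refine (norm_sum_le _ _).trans (le_trans (le_of_eq ?_)
      ((hψ2 (fun q => ‖∑ p, θ p * G q p‖₊)).trans (hW θ fun p => (hθ1 p).le)))
    refine Finset.sum_congr rfl fun q _ => ?_
    rw [norm_units_smul, norm_mul, RCLike.norm_ofReal, abs_of_nonneg (hψ0 q), coe_nnnorm]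
  have h4 : ∑ p, Ex hf (fun ε : Q → ℤˣ => ‖∑ q, ε q • M q p‖) ≤ W := by
    rw [← Ex_sum]
    exact (Ex_mono isW_hf h3).trans (Ex_const isW_hf W).le
  refine hψ1.trans (h1.trans ((Finset.sum_le_sum fun p _ => h2 p).trans ?_))
  rw [← Finset.mul_sum, ← Finset.mul_sum]
  have := mul_le_mul_of_nonneg_left h4 hD
  linarith

/-- an Auerbach type basis of the plane -/
theorem gcore_plane (𝕜 : Type*) [RCLike 𝕜] (σ : ℝ) (s : Fin 4 → ℝ) (hs : ∀ l, 0 < s l) :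
    ∃ (m : Bool → Fin 4) (ζ : Bool → 𝕜 × 𝕜), (∀ r l, ‖lam σ l (ζ r)‖ ≤ s l) ∧
      ∀ w : 𝕜 × 𝕜, w = ∑ r, (lam σ (m r) w / ((s (m r) : ℝ) : 𝕜)) • ζ r := by
  obtain ⟨⟨l1, l2⟩, -, hmax⟩ := Finset.exists_max_image (Finset.univ : Finset (Fin 4 × Fin 4))
    (fun p => |sl σ p.1 - sl σ p.2| / (s p.1 * s p.2)) Finset.univ_nonempty
  have hpos : 0 < |sl σ l1 - sl σ l2| := by
    have h1 := hmax (0, 1) (Finset.mem_univ _)
    have h2 : 0 < |sl σ 0 - sl σ 1| / (s 0 * s 1) :=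
      div_pos (by simp [sl]) (mul_pos (hs 0) (hs 1))
    have h3 := h2.trans_le h1
    exact (div_pos_iff_of_pos_right (mul_pos (hs l1) (hs l2))).1 h3
  have hne : sl σ l1 - sl σ l2 ≠ 0 := abs_pos.1 hpos
  have hne' : sl σ l2 - sl σ l1 ≠ 0 := fun h0 => hne (by linarith)
  have key : ∀ a b : Fin 4, sl σ b - sl σ a ≠ 0 →
      (∀ l, |sl σ l - sl σ b| / (s l * s b) ≤ |sl σ a - sl σ b| / (s a * s b)) →
      ∀ l, ‖lam σ l (((s a / (sl σ b - sl σ a) : ℝ) : 𝕜) • vv 𝕜 σ b)‖ ≤ s l := by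
    intro a b hab hm l
    rw [core_lam_smul, core_lam_vv, norm_mul, RCLike.norm_ofReal, RCLike.norm_ofReal, abs_div,
      abs_of_pos (hs a), div_mul_eq_mul_div, div_le_iff₀ (abs_pos.2 hab)]
    have h1 := hm l
    rw [div_le_div_iff₀ (mul_pos (hs l) (hs b)) (mul_pos (hs a) (hs b)),
      abs_sub_comm (sl σ l), abs_sub_comm (sl σ a)] at h1
    refine le_of_mul_le_mul_right ?_ (hs b)
    linarith
  refine ⟨fun r => cond r l1 l2, fun r => cond r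
    (((s l1 / (sl σ l2 - sl σ l1) : ℝ) : 𝕜) • vv 𝕜 σ l2)
    (((s l2 / (sl σ l1 - sl σ l2) : ℝ) : 𝕜) • vv 𝕜 σ l1), ?_, fun w => ?_⟩
  · intro r
    cases r
    · refine key l2 l1 hne fun l => ?_
      have h1 := hmax (l, l1) (Finset.mem_univ _)
      rw [abs_sub_comm (sl σ l2), mul_comm (s l2)]
      exact h1
    · exact key l1 l2 hne' fun l => hmax (l, l2) (Finset.mem_univ _)
  · have a1 : ((s l1 : ℝ) : 𝕜) ≠ 0 := by exact_mod_cast (hs l1).ne'
    have a2 : ((s l2 : ℝ) : 𝕜) ≠ 0 := by exact_mod_cast (hs l2).ne'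
    have a3 : ((sl σ l1 : ℝ) : 𝕜) - ((sl σ l2 : ℝ) : 𝕜) ≠ 0 := by exact_mod_cast hne
    have a4 : ((sl σ l2 : ℝ) : 𝕜) - ((sl σ l1 : ℝ) : 𝕜) ≠ 0 := by exact_mod_cast hne'
    rw [Fintype.sum_bool]
    refine Prod.ext ?_ ?_
    · simp only [cond_true, cond_false, Prod.fst_add, Prod.smul_fst, smul_eq_mul, vv, lam]
      push_cast
      field_simp
      ring
    · simp only [cond_true, cond_false, Prod.snd_add, Prod.smul_snd, smul_eq_mul, vv, lam]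
      push_cast
      field_simp
      ring

theorem gcore_lam_sum {𝕜 : Type*} [RCLike 𝕜] (σ : ℝ) (l : Fin 4) {ι : Type} (S : Finset ι)
    (x : ι → 𝕜 × 𝕜) : lam σ l (∑ i ∈ S, x i) = ∑ i ∈ S, lam σ l (x i) := by
  rw [← core_lamL_apply, map_sum]
  simp only [core_lamL_apply]

/-- the diagonal of `B` on a family dominated by a square function -/
theorem gcore_key {𝕜 : Type*} [RCLike 𝕜] {I J : Type} [Fintype I] [DecidableEq I] [Fintype J]
    [DecidableEq J] {μ : (Fin 4 × I → ℝ≥0) → ℝ} {μ' : (Fin 4 × J → ℝ≥0) → ℝ} (hμ : LM μ)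
    (hμ' : LM μ') (σ : ℝ) (σ' : J → ℝ) (B : (J → 𝕜 × 𝕜) →ₗ[𝕜] (I → 𝕜 × 𝕜)) (b : ℝ) (hb : 0 ≤ b)
    (hB : ∀ y, μ (fun p => ‖lam σ p.1 (B y p.2)‖₊) ≤
      b * μ' (fun p => ‖lam (σ' p.2) p.1 (y p.2)‖₊))
    (U : I → J → 𝕜 × 𝕜) (s : Fin 4 × J → ℝ≥0) (hs : ∀ p, 0 < s p) (D : ℝ) (hD : 0 ≤ D)
    (hU : ∀ p : Fin 4 × J, ∑ i, ‖lam (σ' p.2) p.1 (U i p.2)‖ ^ 2 ≤ (D * s p) ^ 2) :
    μ (fun p => ‖lam σ p.1 (B (U p.2) p.2)‖₊) ≤ 24 * D * (b * μ' s) := by
  choose m ζ hζ hdec using fun j => gcore_plane 𝕜 (σ' j) (fun l => (s (l, j) : ℝ))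
    (fun l => hs (l, j))
  let E : J × Bool → J → 𝕜 × 𝕜 := fun p => Pi.single p.1 (ζ p.1 p.2)
  let G : Fin 4 × I → J × Bool → 𝕜 := fun q p => lam σ q.1 (B (E p) q.2)
  let c : Fin 4 × I → J × Bool → 𝕜 := fun q p =>
    lam (σ' p.1) (m p.1 p.2) (U q.2 p.1) / ((s (m p.1 p.2, p.1) : ℝ) : 𝕜)
  have hG : ∀ (θ : J × Bool → 𝕜) (q : Fin 4 × I),
      ∑ p, θ p * G q p = lam σ q.1 (B (∑ p, θ p • E p) q.2) := by
    intro θ q
    rw [map_sum, Finset.sum_apply, gcore_lam_sum]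
    refine Finset.sum_congr rfl fun p _ => ?_
    rw [map_smul, Pi.smul_apply, core_lam_smul]
  have hE : ∀ (θ : J × Bool → 𝕜) (j : J), (∑ p, θ p • E p) j = ∑ r, θ (j, r) • ζ j r := by
    intro θ j
    rw [Finset.sum_apply, Fintype.sum_prod_type, Finset.sum_eq_single j]
    · simp [E]
    · intro k _ hk
      simp [E, Pi.single_eq_of_ne' hk]
    · intro h
      exact (h (Finset.mem_univ j)).elim
  have h1 := gcore_diag hμ G c (2 * D) (b * (2 * μ' s)) (by linarith) ?_ ?_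
  · refine le_trans (le_of_eq ?_) (h1.trans (le_of_eq (by ring)))
    congr 1
    funext q
    rw [hG]
    have e : ∑ p, c q p • E p = U q.2 := by
      funext j
      rw [hE]
      exact (hdec j (U q.2 j)).symm
    rw [e]
  · rintro ⟨j, r⟩
    rw [Fintype.sum_prod_type]
    have hp : (0 : ℝ) < s (m j r, j) := hs _
    have h2 : ∑ i, ‖lam (σ' j) (m j r) (U i j) / ((s (m j r, j) : ℝ) : 𝕜)‖ ^ 2 ≤ D ^ 2 := by
      have h3 := hU (m j r, j)
      simp only [norm_div, RCLike.norm_ofReal, abs_of_pos hp, div_pow]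
      rw [← Finset.sum_div, div_le_iff₀ (by positivity), ← mul_pow]
      exact h3
    calc ∑ l : Fin 4, ∑ i, ‖c (l, i) (j, r)‖ ^ 2 ≤ ∑ _l : Fin 4, D ^ 2 :=
          Finset.sum_le_sum fun l _ => h2
      _ = (2 * D) ^ 2 := by
          rw [Finset.sum_const, Finset.card_univ, Fintype.card_fin, nsmul_eq_mul]
          push_cast
          ring
  · intro θ hθ
    simp only [hG]
    refine (hB _).trans (mul_le_mul_of_nonneg_left ?_ hb)
    have h2 := hμ'.smul 2 s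
    push_cast at h2
    refine (hμ'.mono _ _ ?_).trans h2.le
    rintro ⟨l, j⟩
    rw [← NNReal.coe_le_coe, coe_nnnorm, hE, gcore_lam_sum]
    refine (norm_sum_le _ _).trans ?_
    have h3 : ∀ r, ‖lam (σ' j) l (θ (j, r) • ζ j r)‖ ≤ s (l, j) := by
      intro r
      rw [core_lam_smul, norm_mul]
      exact (mul_le_of_le_one_left (norm_nonneg _) (hθ _)).trans (hζ j r l)
    rw [Fintype.sum_bool]
    simp only [Pi.smul_apply, smul_eq_mul]
    push_cast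
    linarith [h3 true, h3 false]

/-- the same without strict positivity -/
theorem gcore_key' {𝕜 : Type*} [RCLike 𝕜] {I J : Type} [Fintype I] [DecidableEq I] [Fintype J]
    [DecidableEq J] {μ : (Fin 4 × I → ℝ≥0) → ℝ} {μ' : (Fin 4 × J → ℝ≥0) → ℝ} (hμ : LM μ)
    (hμ' : LM μ') (σ : ℝ) (σ' : J → ℝ) (B : (J → 𝕜 × 𝕜) →ₗ[𝕜] (I → 𝕜 × 𝕜)) (b : ℝ) (hb : 0 ≤ b)
    (hB : ∀ y, μ (fun p => ‖lam σ p.1 (B y p.2)‖₊) ≤
      b * μ' (fun p => ‖lam (σ' p.2) p.1 (y p.2)‖₊))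
    (U : I → J → 𝕜 × 𝕜) (s : Fin 4 × J → ℝ≥0) (D : ℝ) (hD : 0 ≤ D)
    (hU : ∀ p : Fin 4 × J, ∑ i, ‖lam (σ' p.2) p.1 (U i p.2)‖ ^ 2 ≤ (D * s p) ^ 2) :
    μ (fun p => ‖lam σ p.1 (B (U p.2) p.2)‖₊) ≤ 24 * D * (b * μ' s) := by
  have hX : 0 ≤ 24 * D * (b * μ' (fun _ => 1)) :=
    mul_nonneg (by linarith) (mul_nonneg hb (kh_nonneg hμ' _))
  refine le_of_forall_pos_le_add fun η hη => ?_
  set X := 24 * D * (b * μ' (fun _ => 1)) with hXd
  have hτ : 0 < η / (X + 1) := by positivity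
  let τ : ℝ≥0 := ⟨η / (X + 1), hτ.le⟩
  have hτ' : (τ : ℝ) = η / (X + 1) := rfl
  have hτ0 : 0 < τ := hτ
  have h1 := gcore_key hμ hμ' σ σ' B b hb hB U (s + τ • fun _ => 1) (fun p => by
    simp only [Pi.add_apply, Pi.smul_apply, smul_eq_mul, mul_one]
    exact lt_of_lt_of_le hτ0 le_add_self) D hD (fun p => (hU p).trans (by
      refine pow_le_pow_left₀ (mul_nonneg hD (NNReal.coe_nonneg _))
        (mul_le_mul_of_nonneg_left ?_ hD) 2
      rw [NNReal.coe_le_coe]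
      exact le_self_add))
  have h2 : μ' (s + τ • fun _ => 1) ≤ μ' s + τ * μ' (fun _ => 1) := by
    rw [← hμ'.smul]
    exact hμ'.add _ _
  have h3 : (τ : ℝ) * X ≤ η := by
    rw [hτ', div_mul_eq_mul_div, div_le_iff₀ (by linarith)]
    nlinarith
  have h4 : 24 * D * (b * μ' (s + τ • fun _ => 1)) ≤
      24 * D * (b * (μ' s + τ * μ' (fun _ => 1))) :=
    mul_le_mul_of_nonneg_left (mul_le_mul_of_nonneg_left h2 hb) (by linarith)
  have h5 : 24 * D * (b * (μ' s + τ * μ' (fun _ => 1))) = 24 * D * (b * μ' s) + τ * X := by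
    rw [hXd]
    ring
  linarith

theorem coreB (𝕜 : Type*) [RCLike 𝕜] : ∃ C' : ℝ, 0 < C' ∧
    ∀ (I J : Type) [Fintype I] [DecidableEq I] [Fintype J] [DecidableEq J]
      (μ : (Fin 4 × I → ℝ≥0) → ℝ) (μ' : (Fin 4 × J → ℝ≥0) → ℝ), LM μ → LM μ' →
      ∀ (σ δ : ℝ) (σ' : J → ℝ), 3 ≤ σ → σ ≤ 4 → (∀ j, 3 ≤ σ' j ∧ σ' j ≤ 4) → 0 < δ → δ ≤ 1 →
      (∀ j, δ ≤ |σ - σ' j|) →
      ∀ (A : (I → 𝕜 × 𝕜) →ₗ[𝕜] (J → 𝕜 × 𝕜)) (B : (J → 𝕜 × 𝕜) →ₗ[𝕜] (I → 𝕜 × 𝕜)) (a b : ℝ),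
      0 ≤ a → 0 ≤ b →
      (∀ z, μ' (fun p => ‖lam (σ' p.2) p.1 (A z p.2)‖₊) ≤ a * μ (fun p => ‖lam σ p.1 (z p.2)‖₊)) →
      (∀ y, μ (fun p => ‖lam σ p.1 (B y p.2)‖₊) ≤ b * μ' (fun p => ‖lam (σ' p.2) p.1 (y p.2)‖₊)) →
      (∀ i, ‖(B (A (Pi.single i (0, 1))) i).2 - 1‖ ≤ 1 / 2) →
      ∀ K : ℝ, (∀ c : I → Fin 4, ∃ (l : Fin 4) (t : I → ℝ≥0), (∀ i, c i ≠ l → t i = 0) ∧
        ∀ l', l' ≠ l → K * μ (fun p => if p.1 = l' then t p.2 else 0) <
          μ (fun p => if p.1 = l then t p.2 else 0)) →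
      K ≤ C' * a * b / δ := by
  obtain ⟨C1, hC1, hC1e⟩ : ∃ C1 : ℝ, 0 < C1 ∧ C1 = 144 := ⟨144, by norm_num, rfl⟩
  refine ⟨300000 * C1, by positivity, ?_⟩
  intro I J _ _ _ _ μ μ' hμ hμ' σ δ σ' h1 h2 h3 hδ hδ1 hsep A B a b ha hb hA hB hdiag K hK
  set D : ℝ := 1000 / δ with hD
  have hD1 : 1 ≤ D := by rw [hD, le_div_iff₀ hδ]; linarith
  -- the blocks of `A`
  let Ab : I → J → (𝕜 × 𝕜) →ₗ[𝕜] (𝕜 × 𝕜) := fun i j =>
    (LinearMap.proj j).comp (A.comp (LinearMap.single 𝕜 (fun _ : I => 𝕜 × 𝕜) i))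
  have hAb : ∀ i j w, Ab i j w = A (Pi.single i w) j := fun i j w => rfl
  have hcr : ∀ i j, ∃ l, ∀ l' m, ‖lam (σ' j) l' (Ab i j (vv 𝕜 σ m))‖ ≤
      D * ‖lam (σ' j) l' (Ab i j (vv 𝕜 σ l))‖ := fun i j =>
    cross h1 h2 (h3 j).1 (h3 j).2 hδ (hsep j) (Ab i j)
  choose col hcol using hcr
  let R : I → Fin 4 → (𝕜 × 𝕜) →ₗ[𝕜] (J → 𝕜 × 𝕜) := fun i c =>
    LinearMap.pi fun j => if col i j = c then Ab i j else 0
  have hR : ∀ i c w j, R i c w j = if col i j = c then Ab i j w else 0 := by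
    intro i c w j
    simp only [R, LinearMap.pi_apply]
    split_ifs <;> rfl
  let T : I → Fin 4 → (𝕜 × 𝕜) →ₗ[𝕜] (𝕜 × 𝕜) := fun i c =>
    (LinearMap.proj i).comp (B.comp (R i c))
  have hT : ∀ i c w, T i c w = B (R i c w) i := fun i c w => rfl
  have hsum : ∀ i w, ∑ c, T i c w = B (A (Pi.single i w)) i := by
    intro i w
    have e : ∑ c, R i c w = A (Pi.single i w) := by
      funext j
      rw [Finset.sum_apply]
      simp only [hR]
      rw [Finset.sum_ite_eq]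
      simp [hAb]
    rw [← e, map_sum, Finset.sum_apply]
    rfl
  have hcl : ∀ i, ∃ l c m : Fin 4, (l = c ∨ l = m) ∧ 1 / 25 < ‖lam σ l (T i c (vv 𝕜 σ m))‖ :=
    fun i => core_claim h1 (T i) (by rw [hsum]; exact hdiag i)
  choose cl cc cm hor hbig using hcl
  have hdom : ∀ i j, col i j = cc i → ∀ l', ‖lam (σ' j) l' (Ab i j (vv 𝕜 σ (cm i)))‖ ≤
      D * ‖lam (σ' j) l' (Ab i j (vv 𝕜 σ (cl i)))‖ := by
    intro i j hj l'
    rcases hor i with h | h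
    · rw [h, ← hj]; exact hcol i j l' _
    · rw [h]; exact le_mul_of_one_le_left (norm_nonneg _) hD1
  obtain ⟨l, t, ht, hlt⟩ := hK cl
  let N : Fin 4 → ℝ := fun l' => μ (fun p => if p.1 = l' then t p.2 else 0)
  have hN : ∀ l', 0 ≤ N l' := fun l' => core_LM_nonneg hμ _
  let U : I → J → 𝕜 × 𝕜 := fun i => ((t i : ℝ) : 𝕜) • R i (cc i) (vv 𝕜 σ (cm i))
  let Z : I → I → 𝕜 × 𝕜 := fun i => Pi.single i (((t i : ℝ) : 𝕜) • vv 𝕜 σ l)
  let u : I → Fin 4 × J → 𝕜 := fun i p => lam (σ' p.2) p.1 (U i p.2)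
  let v : I → Fin 4 × J → 𝕜 := fun i p => lam (σ' p.2) p.1 (A (Z i) p.2)
  have huv : ∀ i p, ‖u i p‖ ≤ D * ‖v i p‖ := by
    rintro i ⟨l', j⟩
    have e1 : u i (l', j) = ((t i : ℝ) : 𝕜) * lam (σ' j) l' (R i (cc i) (vv 𝕜 σ (cm i)) j) :=
      core_lam_smul _ _ _ _
    have e2 : v i (l', j) = ((t i : ℝ) : 𝕜) * lam (σ' j) l' (Ab i j (vv 𝕜 σ l)) := by
      rw [← core_lam_smul, ← map_smul]; rfl
    rw [e1, e2, norm_mul, norm_mul, mul_left_comm]
    by_cases hi : cl i = l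
    · refine mul_le_mul_of_nonneg_left ?_ (norm_nonneg _)
      rw [hR]
      split_ifs with hj
      · rw [← hi]; exact hdom i j hj l'
      · rw [core_lam_zero, norm_zero]; positivity
    · rw [ht i hi]; simp
  have hm := gcore_key' hμ hμ' σ σ' B b hb hB U (kh_sq v) D (by linarith) (fun p => by
    rw [mul_pow, kh_sq_sq, Finset.mul_sum]
    refine Finset.sum_le_sum fun i _ => ?_
    rw [← mul_pow]
    exact pow_le_pow_left₀ (norm_nonneg _) (huv i p) 2)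
  have hkh := kh_lower hμ' v
  -- lower bound for the diagonal
  have hlowb : (1 / 25 : ℝ) * N l ≤ μ (fun p => ‖lam σ p.1 (B (U p.2) p.2)‖₊) := by
    have hj := hμ.mono ((1 / 25 : ℝ≥0) • fun p : Fin 4 × I => if p.1 = l then t p.2 else 0)
      (fun p => ‖lam σ p.1 (B (U p.2) p.2)‖₊) ?_
    · rw [hμ.smul] at hj
      simpa using hj
    · rintro ⟨l', i⟩
      rw [← NNReal.coe_le_coe, coe_nnnorm]
      have e2 : lam σ l' (B (U i) i) = ((t i : ℝ) : 𝕜) * lam σ l' (T i (cc i) (vv 𝕜 σ (cm i))) := by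
        rw [← core_lam_smul, hT]
        simp only [U, map_smul, Pi.smul_apply]
      rw [e2, norm_mul, RCLike.norm_ofReal, abs_of_nonneg (NNReal.coe_nonneg _)]
      simp only [Pi.smul_apply, smul_eq_mul]
      split_ifs with hl
      · by_cases hi : cl i = l
        · have := hbig i
          rw [hi, ← hl] at this
          push_cast
          nlinarith [NNReal.coe_nonneg (t i)]
        · rw [ht i hi]; simp
      · simp only [mul_zero, NNReal.coe_zero]; positivity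
  have hA' : Ex hf (fun ε : I → ℤˣ => μ' (fun p => ‖∑ i, ε i • v i p‖₊)) ≤
      a * (4 * ∑ l' ∈ Finset.univ.erase l, N l') := by
    rw [← Ex_const (ι := I) isW_hf (a * (4 * ∑ l' ∈ Finset.univ.erase l, N l'))]
    refine Ex_mono isW_hf fun ε => ?_
    have e : (fun p : Fin 4 × J => ‖∑ i, ε i • v i p‖₊) =
        fun p => ‖lam (σ' p.2) p.1 (A (∑ i, ε i • Z i) p.2)‖₊ := by
      funext p
      rw [core_map_sign, Finset.sum_apply, ← core_lam_sign]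
      rfl
    rw [e]
    refine (hA _).trans (mul_le_mul_of_nonneg_left ?_ ha)
    have hz : ∀ i, (∑ k, ε k • Z k) i = ε i • (((t i : ℝ) : 𝕜) • vv 𝕜 σ l) := by
      intro i
      rw [Finset.sum_apply, Finset.sum_eq_single i]
      · simp [Z]
      · intro k _ hk
        simp [Z, Pi.single_eq_of_ne' hk]
      · intro h; exact (h (Finset.mem_univ i)).elim
    have hle : (fun p : Fin 4 × I => ‖lam σ p.1 ((∑ k, ε k • Z k) p.2)‖₊) ≤
        (4 : ℝ≥0) • ∑ l' ∈ Finset.univ.erase l,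
          (fun p : Fin 4 × I => if p.1 = l' then t p.2 else 0) := by
      rintro ⟨l', i⟩
      have e3 : ‖lam σ l' ((∑ k, ε k • Z k) i)‖ = t i * |sl σ l - sl σ l'| := by
        rw [hz, units_smul_eq (𝕜 := 𝕜), core_lam_smul, core_lam_smul, core_lam_vv, norm_mul,
          norm_mul, RCLike.norm_ofReal, RCLike.norm_ofReal, RCLike.norm_ofReal,
          abs_of_nonneg (NNReal.coe_nonneg _)]
        rcases Int.units_eq_one_or (ε i) with h | h <;> simp [h, sg]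
      rw [← NNReal.coe_le_coe, coe_nnnorm, e3]
      simp only [Pi.smul_apply, Finset.sum_apply, smul_eq_mul, Finset.sum_ite_eq,
        Finset.mem_erase, Finset.mem_univ, and_true]
      split_ifs with hl
      · have b1 := core_sl_bd h1 h2 l
        have b2 := core_sl_bd h1 h2 l'
        have : |sl σ l - sl σ l'| ≤ 4 := abs_le.2 ⟨by linarith, by linarith⟩
        push_cast
        nlinarith [NNReal.coe_nonneg (t i)]
      · push Not at hl
        simp [hl]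
    refine (hμ.mono _ _ hle).trans ?_
    rw [hμ.smul]
    exact mul_le_mul (by norm_num) (core_LM_sum hμ _ _) (core_LM_nonneg hμ _) (by norm_num)
  have hfin : (1 / 25 : ℝ) * N l ≤ b * (C1 * D * (a * (4 * ∑ l' ∈ Finset.univ.erase l, N l'))) := by
    have h9 : μ' (kh_sq v) ≤ 6 * (a * (4 * ∑ l' ∈ Finset.univ.erase l, N l')) := by linarith
    have h10 := mul_le_mul_of_nonneg_left (mul_le_mul_of_nonneg_left h9 hb)
      (show (0 : ℝ) ≤ 24 * D by linarith)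
    refine hlowb.trans (hm.trans (h10.trans (le_of_eq ?_)))
    rw [hC1e]
    ring
  rcases le_or_gt K 0 with hK0 | hK0
  · exact hK0.trans (by positivity)
  have hKs : K * ∑ l' ∈ Finset.univ.erase l, N l' ≤ 3 * N l := by
    rw [Finset.mul_sum]
    calc ∑ l' ∈ Finset.univ.erase l, K * N l' ≤ ∑ _l' ∈ Finset.univ.erase l, N l :=
          Finset.sum_le_sum fun l' hl' => (hlt l' (Finset.ne_of_mem_erase hl')).le
      _ = 3 * N l := by
          rw [Finset.sum_const, Finset.card_erase_of_mem (Finset.mem_univ l)]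
          simp
  have hNpos : 0 < N l := by
    obtain ⟨l', hl'⟩ := exists_ne l
    exact lt_of_le_of_lt (mul_nonneg hK0.le (hN l')) (hlt l' hl')
  have hM : 0 ≤ b * (C1 * D * (a * 4)) := by positivity
  have h7 : K * ((1 / 25 : ℝ) * N l) ≤ b * (C1 * D * (a * 4)) * (3 * N l) := by
    calc K * ((1 / 25 : ℝ) * N l)
        ≤ K * (b * (C1 * D * (a * (4 * ∑ l' ∈ Finset.univ.erase l, N l')))) :=
          mul_le_mul_of_nonneg_left hfin hK0.le
      _ = b * (C1 * D * (a * 4)) * (K * ∑ l' ∈ Finset.univ.erase l, N l') := by ring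
      _ ≤ _ := mul_le_mul_of_nonneg_left hKs hM
  have h8 : K * N l ≤ (300000 * C1 * a * b / δ) * N l := by
    have : (300000 * C1 * a * b / δ) = 25 * (b * (C1 * D * (a * 4)) * 3) := by
      rw [hD]; ring
    rw [this]; nlinarith
  exact le_of_mul_le_mul_right h8 hNpos

end Pool.Agent.Lib.MP_435322_an.UD
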