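import Pool.Agent.Lib.MP_435322_an.GBasic

/-! The downward design for a gauge. -/

namespace Pool.Agent.Lib.MP_435322_an.UD

open Finset
open scoped NNReal

theorem gdown_WD_mono {Γ : Gauge} {ν : V → ℝ} (h : LN ν) {C C' : ℝ} (hC : C ≤ C') {M : ℕ} {x : V}
    (hx : WD Γ ν C M x) : WD Γ ν C' M x := by
  intro I _ b h1 h2
  obtain ⟨z, a1, a2, a3⟩ := hx I b h1 h2
  refine ⟨z, a1, a2, fun B => ⟨(a3 B).1.trans ?_, (a3 B).2.trans ?_⟩⟩
  · exact mul_le_mul_of_nonneg_right hC (h.nonneg _)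
  · exact mul_le_mul_of_nonneg_right hC (mul_nonneg (NNReal.coe_nonneg _) (h.nonneg _))

/-- a finite weighted index set with families of vectors -/
structure gdown_Str where
  I : Type
  inst : Fintype I
  g : ℕ → I → V
  b : I → ℝ≥0

instance gdown_inst (S : gdown_Str) : Fintype S.I := S.inst

/-- a test of some colour below `k` -/
def gdown_test (Γ : Gauge) (ν : V → ℝ) (A : ℝ) (κ : ℝ≥0) (k : ℕ) (S : gdown_Str) (c : S.I → ℕ) :
    Prop :=
  ∃ l < k, ∃ s : Finset S.I, (∀ i ∈ s, c i = l) ∧ (0 : ℝ) < Γ.sum s S.b ∧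
    (κ : ℝ) ^ l * Γ.sum s S.b ≤ A * ν (∑ i ∈ s, S.g l i) ∧
    ∀ l' < k, l' ≠ l → ν (∑ i ∈ s, S.g l' i) ≤ A * ((κ : ℝ) ^ (l + 1) * Γ.sum s S.b)

/-- the inductive invariant -/
def gdown_good (Γ : Gauge) (ν : V → ℝ) (A : ℝ) (κ : ℝ≥0) (k : ℕ) (δ : ℝ) (m m' : ℕ)
    (S : gdown_Str) : Prop :=
  (∀ i, 0 < S.b i) ∧ Γ.sum univ S.b = 1 ∧
    (∀ n l l' i i', l < k → l' < k → S.g l i n ≠ 0 → S.g l' i' n ≠ 0 → l = l' ∧ i = i') ∧
    (∀ l < k, ∀ i, Win m m' (S.g l i)) ∧ (∀ l < k, ν (∑ i, S.g l i) ≤ δ) ∧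
    ∀ c : S.I → ℕ, (1 / 2 : ℝ≥0) ^ k ≤ Γ.sum univ (fun i => if k ≤ c i then S.b i else 0) ∨
      gdown_test Γ ν A κ k S c

theorem gdown_good.mono {Γ : Gauge} {ν : V → ℝ} {A : ℝ} {κ : ℝ≥0} {k : ℕ} {δ : ℝ} {m m' m'' : ℕ}
    {S : gdown_Str} (hS : gdown_good Γ ν A κ k δ m m' S) (hm : m' ≤ m'') :
    gdown_good Γ ν A κ k δ m m'' S :=
  ⟨hS.1, hS.2.1, hS.2.2.1, fun l hl i => (hS.2.2.2.1 l hl i).mono le_rfl hm, hS.2.2.2.2⟩

/-- gluing structures -/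
noncomputable def gdown_Glue (k : ℕ) {J : Type} [Fintype J] (S : J → gdown_Str) (a : J → ℝ≥0)
    (z : ∀ γ, (S γ).I → V) : gdown_Str where
  I := Σ γ, (S γ).I
  inst := inferInstance
  g := fun l p => if l < k then a p.1 • (S p.1).g l p.2 else z p.1 p.2
  b := fun p => a p.1 * (S p.1).b p.2

theorem gdown_half (Γ : Gauge) {I : Type} [Fintype I] (b : I → ℝ≥0) (c : I → ℕ) (k : ℕ) :
    Γ.sum univ (fun i => if k ≤ c i then b i else 0) ≤
      Γ.sum (univ.filter fun i => c i = k) b +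
        Γ.sum univ (fun i => if k + 1 ≤ c i then b i else 0) := by
  classical
  rw [← Γ.sum_filter, ← Γ.sum_filter,
    ← Γ.sum_filter_op (univ.filter fun i => k ≤ c i) (fun i => c i = k) b]
  refine (Γ.le_add _ _).trans (add_le_add (Γ.sum_mono_set ?_ _) (Γ.sum_mono_set ?_ _))
  · intro i hi
    simp only [Finset.mem_filter, Finset.mem_univ, true_and] at hi ⊢
    exact hi.2
  · intro i hi
    simp only [Finset.mem_filter, Finset.mem_univ, true_and] at hi ⊢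
    omega

theorem gdown_glue {Γ : Gauge} {ν : V → ℝ} (h : LN ν) {A : ℝ} {κ : ℝ≥0} (hA : 1 ≤ A)
    (hκ1 : κ ≤ 1)
    (k : ℕ) {J : Type} [Fintype J] (S : J → gdown_Str) (a : J → ℝ≥0) (z : ∀ γ, (S γ).I → V)
    (δ : ℝ) (d : J → ℝ) (m m' : ℕ) (lo mid : J → ℕ)
    (hS : ∀ γ, gdown_good Γ ν A κ k (d γ) (lo γ) (mid γ) (S γ))
    (ha : ∀ γ, 0 < a γ) (ha1 : Γ.sum univ a = 1)
    (hw : ∀ γ, m ≤ lo γ ∧ mid γ ≤ m')
    (hdis : ∀ γ γ' n, lo γ ≤ n → n < mid γ → lo γ' ≤ n → n < mid γ' → γ = γ')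
    (hz : Dj (fun p : Σ γ, (S γ).I => z p.1 p.2)) (hzw : ∀ γ i, Win m m' (z γ i))
    (hzo : ∀ γ i γ' n, z γ i n ≠ 0 → lo γ' ≤ n → n < mid γ' → False)
    (hz1 : ∀ γ (B : Finset (S γ).I), (Γ.sum B (S γ).b : ℝ) * ((κ : ℝ) ^ k * a γ) ≤
      A * ν (∑ i ∈ B, z γ i))
    (hz2 : ∀ γ (B : Finset (S γ).I), ν (∑ i ∈ B, z γ i) ≤
      A * ((Γ.sum B (S γ).b : ℝ) * ((κ : ℝ) ^ k * a γ)))
    (hzδ : ν (∑ γ, ∑ i, z γ i) ≤ δ) (hd : ∑ γ, d γ ≤ δ)
    (hd2 : ∀ γ, d γ ≤ (κ : ℝ) ^ (k + 1) * (1 / 2) ^ (k + 1)) :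
    gdown_good Γ ν A κ (k + 1) δ m m' (gdown_Glue k S a z) := by
  classical
  have hκ0 : (0 : ℝ) ≤ κ := κ.2
  have hκ1' : (κ : ℝ) ≤ 1 := hκ1
  have hold : ∀ l < k, ∀ p : Σ γ, (S γ).I,
      (gdown_Glue k S a z).g l p = a p.1 • (S p.1).g l p.2 := fun l hl p => if_pos hl
  have hnew : ∀ p : Σ γ, (S γ).I, (gdown_Glue k S a z).g k p = z p.1 p.2 :=
    fun p => if_neg (lt_irrefl k)
  have hale : ∀ γ, (a γ : ℝ) ≤ 1 := fun γ => by
    have h1 := Γ.le_sum (Finset.mem_univ γ) a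
    rw [ha1] at h1
    exact h1
  -- sums over a lifted set
  have hlift : ∀ γ (s : Finset (S γ).I), ∃ T : Finset (gdown_Glue k S a z).I,
      (∀ p ∈ T, ∃ i ∈ s, p = ⟨γ, i⟩) ∧
      ((Γ.sum T (gdown_Glue k S a z).b : ℝ) = (a γ : ℝ) * Γ.sum s (S γ).b) ∧
      (∀ l < k, ν (∑ p ∈ T, (gdown_Glue k S a z).g l p) = a γ * ν (∑ i ∈ s, (S γ).g l i)) ∧
      ∑ p ∈ T, (gdown_Glue k S a z).g k p = ∑ i ∈ s, z γ i := fun γ s => by
    refine ⟨s.map (Function.Embedding.sigmaMk (β := fun γ => (S γ).I) γ), fun p hp => ?_, ?_,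
      fun l hl => ?_, ?_⟩
    · obtain ⟨i, hi, rfl⟩ := Finset.mem_map.1 hp
      exact ⟨i, hi, rfl⟩
    · rw [← NNReal.coe_mul, ← Γ.sum_mul]
      exact congrArg _ (Γ.sum_map _ _ _)
    · rw [← h.smul, Finset.smul_sum]
      congr 1
      refine (Finset.sum_map _ _ _).trans ?_
      exact Finset.sum_congr rfl fun i _ => hold l hl ⟨γ, i⟩
    · refine (Finset.sum_map _ _ _).trans ?_
      exact Finset.sum_congr rfl fun i _ => hnew ⟨γ, i⟩
  refine ⟨fun p => ?_, ?_, ?_, fun l hl p => ?_, fun l hl => ?_, fun c => ?_⟩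
  · exact mul_pos (ha p.1) ((hS p.1).1 p.2)
  · change Γ.sum univ (fun p : Σ γ, (S γ).I => a p.1 * (S p.1).b p.2) = 1
    rw [Γ.sum_sigma, ← ha1]
    refine Γ.sum_congr fun γ _ => ?_
    dsimp only
    rw [Γ.sum_mul, (hS γ).2.1, mul_one]
  · rintro n l l' ⟨γ, i⟩ ⟨γ', i'⟩ hl hl' h1 h2
    rcases Nat.lt_succ_iff_lt_or_eq.1 hl with e1 | e1 <;>
      rcases Nat.lt_succ_iff_lt_or_eq.1 hl' with e2 | e2
    · rw [hold l e1] at h1
      rw [hold l' e2] at h2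
      have w1 := (hS γ).2.2.2.1 l e1 i n (smul_ne_zero_V h1)
      have w2 := (hS γ').2.2.2.1 l' e2 i' n (smul_ne_zero_V h2)
      obtain rfl : γ = γ' := hdis γ γ' n w1.1 w1.2 w2.1 w2.2
      obtain ⟨q1, q2⟩ := (hS γ).2.2.1 n l l' i i' e1 e2 (smul_ne_zero_V h1) (smul_ne_zero_V h2)
      exact ⟨q1, by rw [q2]⟩
    · rw [hold l e1] at h1
      rw [e2, hnew] at h2
      have w1 := (hS γ).2.2.2.1 l e1 i n (smul_ne_zero_V h1)
      exact (hzo γ' i' γ n h2 w1.1 w1.2).elim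
    · rw [hold l' e2] at h2
      rw [e1, hnew] at h1
      have w2 := (hS γ').2.2.2.1 l' e2 i' n (smul_ne_zero_V h2)
      exact (hzo γ i γ' n h1 w2.1 w2.2).elim
    · rw [e1, hnew] at h1
      rw [e2, hnew] at h2
      exact ⟨e1.trans e2.symm, hz n ⟨γ, i⟩ ⟨γ', i'⟩ h1 h2⟩
  · rcases Nat.lt_succ_iff_lt_or_eq.1 hl with h1 | h1
    · rw [hold l h1]
      exact (((hS p.1).2.2.2.1 l h1 p.2).mono (hw p.1).1 (hw p.1).2).smul _
    · rw [h1, hnew]
      exact hzw p.1 p.2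
  · change ν (∑ p : Σ γ, (S γ).I, (gdown_Glue k S a z).g l p) ≤ δ
    rw [Fintype.sum_sigma]
    rcases Nat.lt_succ_iff_lt_or_eq.1 hl with h1 | h1
    · refine (h.sum_le _ _).trans (le_trans (Finset.sum_le_sum fun γ _ => ?_) hd)
      rw [Finset.sum_congr rfl fun i _ => hold l h1 ⟨γ, i⟩]
      dsimp only
      rw [← Finset.smul_sum, h.smul]
      have q1 := (hS γ).2.2.2.2.1 l h1
      have q2 := h.nonneg (∑ i, (S γ).g l i)
      have q3 := hale γ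
      nlinarith
    · rw [h1]
      simp only [hnew]
      exact hzδ
  · by_cases t1 : ∃ γ, gdown_test Γ ν A κ k (S γ) fun i => c ⟨γ, i⟩
    · right
      obtain ⟨γ, l, hl, s, s1, s2, s3, s4⟩ := t1
      obtain ⟨T, u0, u1, u2, u3⟩ := hlift γ s
      have a2 : (0 : ℝ) < (a γ : ℝ) := ha γ
      refine ⟨l, hl.trans (Nat.lt_succ_self k), T, ?_, ?_, ?_,
        fun l' hl' hne => ?_⟩
      · intro p hp
        obtain ⟨i, hi, rfl⟩ := u0 p hp
        exact s1 i hi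
      · rw [u1]; positivity
      · rw [u1, u2 l hl]
        nlinarith [mul_le_mul_of_nonneg_left s3 a2.le]
      · rw [u1]
        rcases Nat.lt_succ_iff_lt_or_eq.1 hl' with h1 | h1
        · rw [u2 l' h1]
          nlinarith [mul_le_mul_of_nonneg_left (s4 l' h1 hne) a2.le]
        · rw [h1, u3]
          refine (hz2 γ s).trans (mul_le_mul_of_nonneg_left ?_ (by linarith))
          have q1 : (κ : ℝ) ^ k ≤ (κ : ℝ) ^ (l + 1) :=
            pow_le_pow_of_le_one hκ0 hκ1' (by omega)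
          have q2 : 0 ≤ (a γ : ℝ) * Γ.sum s (S γ).b := by positivity
          nlinarith [mul_le_mul_of_nonneg_right q1 q2]
    · by_cases t2 : ∃ γ, (1 / 2 : ℝ≥0) ^ (k + 1) ≤
          Γ.sum (Finset.univ.filter (fun i => c ⟨γ, i⟩ = k)) (S γ).b
      · right
        obtain ⟨γ, t2⟩ := t2
        set s := Finset.univ.filter (fun i : (S γ).I => c ⟨γ, i⟩ = k) with hs
        obtain ⟨T, u0, u1, u2, u3⟩ := hlift γ s
        have a2 : (0 : ℝ) < (a γ : ℝ) := ha γ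
        have t3 : (1 / 2 : ℝ) ^ (k + 1) ≤ Γ.sum s (S γ).b := by
          have := NNReal.coe_le_coe.2 t2
          simpa using this
        have s2 : (0 : ℝ) < Γ.sum s (S γ).b := lt_of_lt_of_le (by positivity) t3
        refine ⟨k, Nat.lt_succ_self k, T, ?_, ?_, ?_,
          fun l' hl' hne => ?_⟩
        · intro p hp
          obtain ⟨i, hi, rfl⟩ := u0 p hp
          exact (Finset.mem_filter.1 hi).2
        · rw [u1]; positivity
        · rw [u1, u3]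
          refine le_trans (le_of_eq ?_) (hz1 γ s)
          ring
        · have h1 : l' < k := by omega
          rw [u1, u2 l' h1]
          have q1 : ν (∑ i ∈ s, (S γ).g l' i) ≤ d γ :=
            (h.sum_mono (Finset.subset_univ _) _).trans ((hS γ).2.2.2.2.1 l' h1)
          have q3 : d γ ≤ (κ : ℝ) ^ (k + 1) * Γ.sum s (S γ).b :=
            (hd2 γ).trans (mul_le_mul_of_nonneg_left t3 (by positivity))
          have q4 : 0 ≤ (κ : ℝ) ^ (k + 1) * ((a γ : ℝ) * Γ.sum s (S γ).b) := by positivity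
          have q5 := mul_le_mul_of_nonneg_left (q1.trans q3) a2.le
          have q6 := mul_le_mul_of_nonneg_right hA q4
          nlinarith
      · left
        push Not at t1 t2
        change (1 / 2 : ℝ≥0) ^ (k + 1) ≤ Γ.sum univ (fun p : Σ γ, (S γ).I =>
          (if k + 1 ≤ c p then a p.1 * (S p.1).b p.2 else 0))
        rw [Γ.sum_sigma]
        have q : ∀ γ, (1 / 2 : ℝ≥0) ^ (k + 1) * a γ ≤
            Γ.sum univ (fun i => if k + 1 ≤ c ⟨γ, i⟩ then a γ * (S γ).b i else 0) := fun γ => by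
          have q1 := ((hS γ).2.2.2.2.2 fun i => c ⟨γ, i⟩).resolve_right (t1 γ)
          have q2 := t2 γ
          have q3 := gdown_half Γ (S γ).b (fun i => c ⟨γ, i⟩) k
          have q4 : Γ.sum univ (fun i => if k + 1 ≤ c ⟨γ, i⟩ then a γ * (S γ).b i else 0) =
              a γ * Γ.sum univ (fun i => if k + 1 ≤ c ⟨γ, i⟩ then (S γ).b i else 0) := by
            rw [← Γ.sum_mul]
            refine Γ.sum_congr fun i _ => ?_
            split_ifs <;> simp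
          rw [q4, mul_comm]
          refine mul_le_mul_right ?_ _
          have q5 : (1 / 2 : ℝ≥0) ^ k = (1 / 2 : ℝ≥0) ^ (k + 1) + (1 / 2 : ℝ≥0) ^ (k + 1) := by
            rw [pow_succ, ← mul_add]
            norm_num
          have q6 := (q1.trans q3).trans (add_le_add_left q2.le _)
          rw [q5] at q6
          exact le_of_add_le_add_left q6
        refine le_trans (le_of_eq ?_) (Γ.sum_mono fun γ _ => q γ)
        rw [Γ.sum_mul, ha1, mul_one]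

/-- one step of the construction, from structures and divisible vectors -/
theorem gdown_core {Γ : Gauge} {ν : V → ℝ} (h : LN ν) {A : ℝ} {κ : ℝ≥0} (hA : 1 ≤ A)
    (hκ1 : κ ≤ 1) (k : ℕ) {J : Type} [Fintype J] (S : J → gdown_Str) (x : J → V) (t : J → ℝ≥0)
    (M : J → ℕ) (δ : ℝ) (hδ : 0 < δ) (d : J → ℝ) (m m' : ℕ) (lo mid : J → ℕ)
    (hS : ∀ γ, gdown_good Γ ν A κ k (d γ) (lo γ) (mid γ) (S γ))
    (hw : ∀ γ, m ≤ lo γ ∧ mid γ ≤ m')
    (hdis : ∀ γ γ' n, lo γ ≤ n → n < mid γ → lo γ' ≤ n → n < mid γ' → γ = γ')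
    (hx : Dj x) (hxw : ∀ γ, Win m m' (x γ))
    (hxo : ∀ γ γ' n, x γ n ≠ 0 → lo γ' ≤ n → n < mid γ' → False)
    (hx1 : ∀ γ, ν (x γ) = 1) (hWD : ∀ γ, WD Γ ν A (M γ) (x γ))
    (hM : ∀ γ i, 1 ≤ (M γ : ℝ≥0) * (S γ).b i)
    (hsm : ν (cmb t x) < δ * Γ.sum univ t) (hd0 : ∀ γ, 0 ≤ d γ) (hd : ∑ γ, d γ ≤ δ)
    (hd2 : ∀ γ, d γ ≤ (κ : ℝ) ^ (k + 1) * (1 / 2) ^ (k + 1)) :
    ∃ S', gdown_good Γ ν A κ (k + 1) δ m m' S' := by
  classical
  set om := Γ.sum univ t with hom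
  have hompos : (0 : ℝ) < om := by
    have := (h.nonneg _).trans_lt hsm
    exact (mul_pos_iff_of_pos_left hδ).1 this
  have hom0 : om ≠ 0 := fun e => by rw [e] at hompos; exact lt_irrefl _ hompos
  let τ : Finset J := univ.filter fun γ => t γ ≠ 0
  let a : τ → ℝ≥0 := fun γ => om⁻¹ * t γ
  choose z0 hz1 hz2 hz3 using fun γ => hWD γ (S γ).I (S γ).b (hS γ).2.1 (hM γ)
  have hzx : ∀ γ i, z0 γ i ≤ x γ := fun γ i =>
    (Finset.single_le_sum (f := z0 γ) (fun _ _ => zero_le) (Finset.mem_univ i)).trans (hz2 γ)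
  let z : ∀ γ : τ, (S γ).I → V := fun γ i => (κ ^ k * a γ) • z0 γ i
  have hzs : ∀ (γ : τ) (B : Finset (S γ).I), ν (∑ i ∈ B, z γ i) =
      ((κ : ℝ) ^ k * a γ) * ν (∑ i ∈ B, z0 γ i) := fun γ B => by
    rw [← Finset.smul_sum, h.smul, NNReal.coe_mul, NNReal.coe_pow]
  refine ⟨gdown_Glue k (fun γ : τ => S γ) a z, ?_⟩
  refine gdown_glue h hA hκ1 k _ a z δ (fun γ => d γ) m m' (fun γ => lo γ) (fun γ => mid γ)
    (fun γ => hS γ) (fun γ => ?_) ?_ (fun γ => hw γ)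
    (fun γ γ' n a1 a2 a3 a4 => Subtype.ext (hdis γ γ' n a1 a2 a3 a4)) ?_ (fun γ i => ?_)
    (fun γ i γ' n a1 => ?_) (fun γ B => ?_) (fun γ B => ?_) ?_ ?_ (fun γ => hd2 γ)
  · exact mul_pos (inv_pos.2 (pos_iff_ne_zero.2 hom0))
      (pos_iff_ne_zero.2 (Finset.mem_filter.1 γ.2).2)
  · change Γ.sum univ (fun γ : τ => om⁻¹ * t γ) = 1
    rw [Γ.sum_mul, Γ.sum_coe_sort τ t, Γ.sum_subset (Finset.subset_univ τ) fun γ _ hγ => ?_]
    · exact inv_mul_cancel₀ hom0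
    · by_contra h0
      exact hγ (Finset.mem_filter.2 ⟨Finset.mem_univ _, h0⟩)
  · rintro n ⟨γ, i⟩ ⟨γ', i'⟩ a1 a2
    have b1 : z0 γ i n ≠ 0 := smul_ne_zero_V a1
    have b2 : z0 γ' i' n ≠ 0 := smul_ne_zero_V a2
    obtain rfl : γ = γ' :=
      Subtype.ext (hx n _ _ (ne_zero_of_le (hzx _ _) b1) (ne_zero_of_le (hzx _ _) b2))
    rw [hz1 γ n i i' b1 b2]
  · exact ((hxw γ).of_le (hzx γ i)).smul _
  · exact hxo γ γ' n (ne_zero_of_le (hzx _ _) (smul_ne_zero_V a1))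
  · rw [hzs]
    have q1 := (hz3 γ B).1
    rw [hx1, mul_one] at q1
    have q2 : (0 : ℝ) ≤ (κ : ℝ) ^ k * a γ := by positivity
    nlinarith [mul_le_mul_of_nonneg_left q1 q2]
  · rw [hzs]
    have q1 := (hz3 γ B).2
    rw [hx1, mul_one] at q1
    have q2 : (0 : ℝ) ≤ (κ : ℝ) ^ k * a γ := by positivity
    nlinarith [mul_le_mul_of_nonneg_left q1 q2]
  · have q1 : ∑ γ : τ, ∑ i, z γ i ≤ (κ ^ k * om⁻¹) • cmb t x := by
      have q2 : ∀ γ : τ, ∑ i, z γ i ≤ (κ ^ k * om⁻¹) • (t γ • x γ) := fun γ => by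
        rw [← Finset.smul_sum, smul_smul, mul_assoc]
        exact smul_le_smul_V' _ (hz2 γ)
      refine (Finset.sum_le_sum fun γ _ => q2 γ).trans ?_
      rw [← Finset.smul_sum, Finset.sum_coe_sort τ fun γ => t γ • x γ]
      exact smul_le_smul_V' _ (Finset.sum_le_sum_of_subset (Finset.subset_univ _))
    refine (h.mono _ _ q1).trans ?_
    rw [h.smul, NNReal.coe_mul, NNReal.coe_pow, NNReal.coe_inv]
    have q2 : (κ : ℝ) ^ k ≤ 1 := pow_le_one₀ κ.2 hκ1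
    calc (κ : ℝ) ^ k * (om : ℝ)⁻¹ * ν (cmb t x) ≤ (κ : ℝ) ^ k * (om : ℝ)⁻¹ * (δ * om) :=
          mul_le_mul_of_nonneg_left hsm.le (by positivity)
      _ = (κ : ℝ) ^ k * δ := by field_simp
      _ ≤ δ := by nlinarith
  · rw [Finset.sum_coe_sort τ d]
    exact (Finset.sum_le_sum_of_subset_of_nonneg (Finset.subset_univ _)
      fun γ _ _ => hd0 γ).trans hd

theorem gdown_demand {I : Type} [Fintype I] (b : I → ℝ≥0) (hb : ∀ i, 0 < b i) :
    ∃ r : ℕ, ∀ M : ℕ, r ≤ M → ∀ i, 1 ≤ (M : ℝ≥0) * b i := by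
  obtain ⟨r, hr⟩ := exists_nat_ge (∑ i, 1 / b i)
  refine ⟨r, fun M hM i => ?_⟩
  have q1 : 1 / b i ≤ ∑ i, 1 / b i :=
    Finset.single_le_sum (f := fun i => 1 / b i) (fun i _ => zero_le) (Finset.mem_univ i)
  have q2 : (r : ℝ≥0) ≤ (M : ℝ≥0) := by exact_mod_cast hM
  exact (div_le_iff₀ (hb i)).1 (q1.trans (hr.trans q2))

theorem gdown_final {Γ : Gauge} {ν : V → ℝ} (h : LN ν) {A : ℝ} (hA : 1 ≤ A)
    (step : ∀ κ : ℝ≥0, 0 < κ → κ ≤ 1 → ∀ k : ℕ,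
      (∀ δ > 0, ∀ m, ∃ S m', gdown_good Γ ν A κ k δ m m' S) →
      ∀ δ > 0, ∀ m, ∃ S m', gdown_good Γ ν A κ (k + 1) δ m m' S) : Gads ν := by
  classical
  intro K m
  have hK : 0 ≤ |K| := abs_nonneg K
  let κ : ℝ≥0 := ⟨1 / (A ^ 2 * (|K| + 1)), by positivity⟩
  have hκ' : (κ : ℝ) = 1 / (A ^ 2 * (|K| + 1)) := rfl
  have hκ : (0 : ℝ) < κ := by rw [hκ']; positivity
  have hκ1 : (κ : ℝ) ≤ 1 := by
    rw [hκ', div_le_one (by positivity)]
    nlinarith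
  have hκ2 : A ^ 2 * κ * (|K| + 1) = 1 := by
    rw [hκ']
    field_simp
  have hall : ∀ k : ℕ, ∀ δ > 0, ∀ m, ∃ S m', gdown_good Γ ν A κ k δ m m' S := by
    intro k
    induction k with
    | zero =>
      intro δ _ m
      refine ⟨⟨Unit, inferInstance, fun _ _ => 0, fun _ => 1⟩, m, fun _ => one_pos, ?_,
        fun _ _ _ _ _ hl => absurd hl (Nat.not_lt_zero _),
        fun _ hl => absurd hl (Nat.not_lt_zero _),
        fun _ hl => absurd hl (Nat.not_lt_zero _), fun c => Or.inl ?_⟩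
      · exact Γ.sum_singleton () fun _ => 1
      · change (1 / 2 : ℝ≥0) ^ 0 ≤ Γ.sum {()} fun i : Unit => (if 0 ≤ c i then (1 : ℝ≥0) else 0)
        rw [Γ.sum_singleton]
        simp
    | succ k ih => exact step κ hκ hκ1 k ih
  obtain ⟨S, m', h1, h2, h3, h4, h5, h6⟩ := hall 4 1 one_pos m
  refine ⟨S.I, S.inst, fun l i => S.g l i, ?_, fun l i => (h4 l l.2 i).tl, fun c => ?_⟩
  · rintro n ⟨l, i⟩ ⟨l', i'⟩ hp hq
    obtain ⟨q1, q2⟩ := h3 n l l' i i' l.2 l'.2 hp hq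
    exact Prod.ext (Fin.ext q1) q2
  · rcases h6 (fun i => c i) with q | ⟨l, hl, s, s1, s2, s3, s4⟩
    · exfalso
      rw [Γ.sum_eq_zero fun i _ => if_neg (by have := (c i).2; omega)] at q
      norm_num at q
    · have hc : ∀ g : S.I → V, cmb (fun i => if i ∈ s then 1 else 0) g = ∑ i ∈ s, g i := fun g => by
        unfold cmb
        simp only [ite_smul, one_smul, zero_smul]
        rw [Finset.sum_ite_mem, Finset.univ_inter]
      refine ⟨⟨l, hl⟩, fun i => if i ∈ s then 1 else 0, fun i hi => if_neg fun hs =>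
        hi (Fin.ext (s1 i hs)), fun l' hne => ?_⟩
      rw [hc, hc]
      have q1 := s4 l' l'.2 fun e => hne (Fin.ext e)
      set N := ν (∑ i ∈ s, S.g l i)
      set N' := ν (∑ i ∈ s, S.g l' i)
      have hN' : 0 ≤ N' := h.nonneg _
      have q0 : 0 < (κ : ℝ) ^ l * Γ.sum s S.b := by positivity
      have hNpos : 0 < N := (mul_pos_iff_of_pos_left (by linarith)).1 (q0.trans_le s3)
      have q4 : N' ≤ A ^ 2 * κ * N := by
        refine q1.trans ?_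
        have q3 := mul_le_mul_of_nonneg_left s3 (show 0 ≤ A * κ by positivity)
        calc A * ((κ : ℝ) ^ (l + 1) * Γ.sum s S.b)
            = A * κ * ((κ : ℝ) ^ l * Γ.sum s S.b) := by ring
          _ ≤ _ := q3
          _ = _ := by ring
      have q5 : 0 < A ^ 2 * κ * N := by positivity
      calc K * N' ≤ |K| * N' := mul_le_mul_of_nonneg_right (le_abs_self K) hN'
        _ ≤ |K| * (A ^ 2 * κ * N) := mul_le_mul_of_nonneg_left q4 hK
        _ < (|K| + 1) * (A ^ 2 * κ * N) := by linarith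
        _ = (A ^ 2 * κ * (|K| + 1)) * N := by ring
        _ = N := by rw [hκ2, one_mul]

theorem gads_of_seq {Γ : Gauge} {ν : V → ℝ} (h : LN ν) {C : ℝ} {x : ℕ → V} (hd : Dj x)
    (ht : ∀ k, Tl k (x k)) (h1 : ∀ k, ν (x k) = 1) (hw : ∀ k, WD Γ ν C (k + 1) (x k))
    (hf : ∀ κ : ℕ → ℕ, StrictMono κ → ∀ C' : ℝ, ∃ (σ : Finset ℕ) (t : ℕ → ℝ≥0),
      C' * ν (∑ k ∈ σ, t k • x (κ k)) < Γ.sum σ t) : Gads ν := by
  classical
  refine gdown_final (Γ := Γ) h (le_max_right C 1) fun κ hκ hκ1 k ih δ hδ m => ?_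
  have hκ' : (0 : ℝ) < κ := hκ
  let ds : ℝ := (κ : ℝ) ^ (k + 1) * (1 / 2) ^ (k + 1)
  have hds : 0 < ds := by positivity
  let d : ℕ → ℝ := fun γ => min δ ds * (1 / 2) ^ (γ + 1)
  have hdp : ∀ γ, 0 < d γ := fun γ => mul_pos (lt_min hδ hds) (by positivity)
  obtain ⟨w, o, hw0, hwm, hQ⟩ := sel_nat (α := gdown_Str × ℕ)
    (fun γ lo hi o => lo ≤ o.2 ∧ o.2 < hi ∧ gdown_good Γ ν (max C 1) κ k (d γ) lo o.2 o.1 ∧
      (∀ i, 1 ≤ ((o.2 + 1 : ℕ) : ℝ≥0) * o.1.b i) ∧ Win o.2 hi (x o.2)) m (by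
      intro γ lo
      obtain ⟨S, m', hS⟩ := ih (d γ) (hdp γ) lo
      obtain ⟨r, hr⟩ := gdown_demand S.b hS.1
      let j := max lo (max m' r)
      obtain ⟨b, hb, hb'⟩ := exists_win (y := fun _ : Unit => x j) fun _ => ht j
      exact ⟨(S, j), b, lt_of_le_of_lt (le_max_left _ _) hb, le_max_left _ _, hb,
        hS.mono ((le_max_left _ _).trans (le_max_right _ _)),
        hr _ (((le_max_right _ _).trans (le_max_right _ _)).trans (Nat.le_succ j)), hb' ()⟩)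
  have hj : StrictMono fun γ => (o γ).2 :=
    strictMono_nat_of_lt_succ fun γ => (hQ γ).2.1.trans_le (hQ (γ + 1)).1
  obtain ⟨σ, t, hlt⟩ := hf (fun γ => (o γ).2) hj (1 / δ)
  have hwin : ∀ γ γ' n, w γ ≤ n → n < w (γ + 1) → w γ' ≤ n → n < w (γ' + 1) → γ = γ' := by
    intro γ γ' n a1 a2 a3 a4
    have h4 := hwm.lt_iff_lt.1 (a1.trans_lt a4)
    have h5 := hwm.lt_iff_lt.1 (a3.trans_lt a2)
    omega
  have hlo : ∀ γ, m ≤ w γ := fun γ => by rw [← hw0]; exact hwm.monotone (Nat.zero_le _)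
  have hhi : ∀ γ : σ, w (γ + 1) ≤ w (σ.sup id + 1) := fun γ =>
    hwm.monotone (Nat.succ_le_succ (Finset.le_sup (f := id) γ.2))
  obtain ⟨S', hS'⟩ := gdown_core (Γ := Γ) h (le_max_right C 1) hκ1 k (J := σ)
    (fun γ => (o γ).1) (fun γ => x (o γ).2) (fun γ => t γ) (fun γ => (o γ).2 + 1) δ hδ
    (fun γ => d γ) m (w (σ.sup id + 1)) (fun γ => w γ) (fun γ => (o γ).2)
    (fun γ => (hQ γ).2.2.1) (fun γ => ⟨hlo γ, (hQ γ).2.1.le.trans (hhi γ)⟩)
    (fun γ γ' n a1 a2 a3 a4 => Subtype.ext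
      (hwin γ γ' n a1 (a2.trans (hQ γ).2.1) a3 (a4.trans (hQ γ').2.1)))
    (hd.comp fun γ γ' e => Subtype.ext (hj.injective e))
    (fun γ => (hQ γ).2.2.2.2.mono ((hlo γ).trans (hQ γ).1) (hhi γ))
    (fun γ γ' n a1 a2 a3 => by
      have b1 := (hQ γ).2.2.2.2 n a1
      have e := hwin γ γ' n ((hQ γ).1.trans b1.1) b1.2 a2 (a3.trans (hQ γ').2.1)
      rw [← e] at a3
      omega)
    (fun γ => h1 _) (fun γ => gdown_WD_mono h (le_max_left C 1) (hw _))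
    (fun γ => (hQ γ).2.2.2.1)
    (by
      unfold cmb
      rw [Finset.sum_coe_sort σ fun γ => t γ • x (o γ).2, Γ.sum_coe_sort σ t]
      rw [one_div, inv_mul_lt_iff₀ hδ] at hlt
      exact hlt)
    (fun γ => (hdp γ).le)
    (by
      rw [Finset.sum_coe_sort σ d]
      have q1 : ∑ γ ∈ σ, ((1 : ℝ) / 2) ^ (γ + 1) ≤ 1 := by
        have q2 : HasSum (fun γ : ℕ => ((1 : ℝ) / 2) ^ (γ + 1)) 1 := by
          have := hasSum_geometric_two.mul_right (1 / 2 : ℝ)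
          simpa [pow_succ] using this
        exact sum_le_hasSum σ (fun _ _ => by positivity) q2
      change ∑ γ ∈ σ, min δ ds * ((1 : ℝ) / 2) ^ (γ + 1) ≤ δ
      rw [← Finset.mul_sum]
      have q3 := min_le_left δ ds
      have q4 := lt_min hδ hds
      nlinarith)
    (fun γ => by
      have q2 : ((1 : ℝ) / 2) ^ ((γ : ℕ) + 1) ≤ 1 := pow_le_one₀ (by norm_num) (by norm_num)
      have q3 := min_le_right δ ds
      have q4 := lt_min hδ hds
      change min δ ds * ((1 : ℝ) / 2) ^ ((γ : ℕ) + 1) ≤ ds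
      nlinarith)
  exact ⟨S', _, hS'⟩

theorem gads_of_fin {Γ : Gauge} {ν : V → ℝ} (h : LN ν) {C : ℝ}
    (hf : ∀ δ : ℝ, 0 < δ → ∃ d : ℕ, ∀ M m : ℕ, ∃ (x : Fin d → V) (t : Fin d → ℝ≥0), Dj x ∧
      (∀ i, Tl m (x i)) ∧ (∀ i, ν (x i) = 1) ∧ (∀ i, WD Γ ν C M (x i)) ∧
      ν (cmb t x) < δ * Γ.sum univ t) : Gads ν := by
  classical
  refine gdown_final (Γ := Γ) h (le_max_right C 1) fun κ hκ hκ1 k ih δ hδ m => ?_
  have hκ' : (0 : ℝ) < κ := hκ
  let ds : ℝ := (κ : ℝ) ^ (k + 1) * (1 / 2) ^ (k + 1)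
  have hds : 0 < ds := by positivity
  obtain ⟨d, hd⟩ := hf δ hδ
  let e : ℝ := min δ ds / (d + 1)
  have q4 := lt_min hδ hds
  have he : 0 < e := by positivity
  have hd0 : (0 : ℝ) ≤ d := Nat.cast_nonneg d
  have he1 : e * (d + 1) = min δ ds := div_mul_cancel₀ _ (by positivity)
  obtain ⟨lo, hi, S, m1, hm1, hlh, hS, hdis⟩ := sel_fin (α := gdown_Str) (J := Fin d)
    (fun _ lo hi S => gdown_good Γ ν (max C 1) κ k e lo hi S) m (by
      intro _ lo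
      obtain ⟨S, m', hS⟩ := ih e he lo
      exact ⟨S, max m' (lo + 1), lt_of_lt_of_le (Nat.lt_succ_self lo) (le_max_right _ _),
        hS.mono (le_max_left _ _)⟩)
  choose r hr using fun γ => gdown_demand (S γ).b (hS γ).1
  obtain ⟨x, t, hx, hxt, hx1, hxw, hlt⟩ := hd (univ.sup r) m1
  obtain ⟨b, hb, hb'⟩ := exists_win hxt
  obtain ⟨S', hS'⟩ := gdown_core (Γ := Γ) h (le_max_right C 1) hκ1 k S x t
    (fun _ => univ.sup r) δ hδ (fun _ => e) m b lo hi hS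
    (fun γ => ⟨(hlh γ).1, (hlh γ).2.trans hb.le⟩) hdis hx
    (fun γ => (hb' γ).mono hm1 le_rfl)
    (fun γ γ' n a1 _ a3 => by
      have b1 := hxt γ n a1
      have b2 := (hlh γ').2
      omega)
    hx1 (fun γ => gdown_WD_mono h (le_max_left C 1) (hxw γ))
    (fun γ => hr γ _ (Finset.le_sup (Finset.mem_univ γ))) hlt (fun _ => he.le)
    (by
      rw [Finset.sum_const, Finset.card_univ, Fintype.card_fin, nsmul_eq_mul]
      have q3 := min_le_left δ ds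
      nlinarith)
    (fun _ => by
      have q3 := min_le_right δ ds
      change e ≤ ds
      nlinarith)
  exact ⟨S', b, hS'⟩

end Pool.Agent.Lib.MP_435322_an.UD
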