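import Pool.Agent.Lib.MP_435322_an.GBasic

/-! The classical gauges. -/

namespace Pool.Agent.Lib.MP_435322_an.UD

open Finset
open scoped NNReal

/-- the gauge of the space of null sequences -/
def glp_max : Gauge where
  op := max
  comm := max_comm
  assoc := max_assoc
  zero := fun a => max_eq_left (zero_le (a := a))
  mono := fun _ _ b h => max_le_max_right b h
  smul := fun c a b => (mul_max_of_nonneg a b (zero_le (a := c))).symm
  le_add := fun _ _ => max_le le_self_add le_add_self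

theorem glp_max_gam (n : ℕ) : glp_max.gam n ≤ 1 := by
  induction n with
  | zero => rw [Gauge.gam_zero]; exact zero_le
  | succ n ih => rw [Gauge.gam_succ]; exact max_le le_rfl ih

theorem glp_pow_inv {r : ℝ} (hr : 1 ≤ r) (a : ℝ≥0) : (a ^ (1 / r)) ^ r = a := by
  rw [← NNReal.rpow_mul, one_div_mul_cancel (by linarith), NNReal.rpow_one]

theorem glp_inv_pow {r : ℝ} (hr : 1 ≤ r) (a : ℝ≥0) : (a ^ r) ^ (1 / r) = a := by
  rw [← NNReal.rpow_mul, mul_one_div_cancel (by linarith), NNReal.rpow_one]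

/-- the gauge of the space of `r`-summable sequences -/
noncomputable def glp_lp (r : ℝ) (hr : 1 ≤ r) : Gauge where
  op := fun a b => (a ^ r + b ^ r) ^ (1 / r)
  comm := fun a b => by rw [add_comm]
  assoc := fun a b c => by rw [glp_pow_inv hr, glp_pow_inv hr, add_assoc]
  zero := fun a => by rw [NNReal.zero_rpow (by linarith), add_zero, glp_inv_pow hr]
  mono := fun a a' b h =>
    NNReal.rpow_le_rpow (add_le_add_left (NNReal.rpow_le_rpow h (by linarith)) _) (by positivity)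
  smul := fun c a b => by
    rw [NNReal.mul_rpow, NNReal.mul_rpow, ← mul_add, NNReal.mul_rpow, glp_inv_pow hr]
  le_add := fun a b => NNReal.rpow_add_rpow_le_add a b hr

theorem glp_lp_sum {r : ℝ} (hr : 1 ≤ r) {I : Type*} (s : Finset I) (t : I → ℝ≥0) :
    (glp_lp r hr).sum s t = (∑ i ∈ s, t i ^ r) ^ (1 / r) := by
  classical
  induction s using Finset.induction_on with
  | empty =>
    rw [Gauge.sum_empty, Finset.sum_empty, NNReal.zero_rpow (by positivity)]
  | insert a s ha ih =>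
    rw [Gauge.sum_insert _ ha, Finset.sum_insert ha, ih]
    change (t a ^ r + ((∑ i ∈ s, t i ^ r) ^ (1 / r)) ^ r) ^ (1 / r) = _
    rw [glp_pow_inv hr]

theorem glp_lp_gam {r : ℝ} (hr : 1 ≤ r) (n : ℕ) :
    (glp_lp r hr).gam n = (n : ℝ≥0) ^ (1 / r) := by
  unfold Gauge.gam
  rw [glp_lp_sum]
  simp

theorem glp_mean {a b : ℝ} (ha : 0 < a) (hab : a ≤ b) {I : Type*} (s : Finset I) (t : I → ℝ≥0) :
    (∑ i ∈ s, t i ^ a) ^ (1 / a) * (s.card : ℝ≥0) ^ (1 / b) ≤
      (s.card : ℝ≥0) ^ (1 / a) * (∑ i ∈ s, t i ^ b) ^ (1 / b) := by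
  have hb : 0 < b := lt_of_lt_of_le ha hab
  rcases s.eq_empty_or_nonempty with rfl | hs
  · simp [NNReal.zero_rpow (inv_ne_zero ha.ne')]
  have hn : (s.card : ℝ≥0) ≠ 0 := by exact_mod_cast hs.card_pos.ne'
  have h := NNReal.rpow_sum_le_const_mul_sum_rpow s (fun i => t i ^ a)
    (p := b / a) (by rwa [le_div_iff₀ ha, one_mul])
  have h2 := NNReal.rpow_le_rpow h (z := 1 / b) (by positivity)
  have e1 : ∀ i, (t i ^ a) ^ (b / a) = t i ^ b := fun i => by
    rw [← NNReal.rpow_mul]; congr 1; field_simp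
  simp only [e1] at h2
  rw [← NNReal.rpow_mul, NNReal.mul_rpow, ← NNReal.rpow_mul] at h2
  have e2 : b / a * (1 / b) = 1 / a := by field_simp
  have e3 : (b / a - 1) * (1 / b) + 1 / b = 1 / a := by field_simp; ring
  rw [e2] at h2
  calc _ ≤ (s.card : ℝ≥0) ^ ((b / a - 1) * (1 / b)) * (∑ i ∈ s, t i ^ b) ^ (1 / b) *
        (s.card : ℝ≥0) ^ (1 / b) := mul_le_mul_left h2 _
    _ = _ := by rw [mul_right_comm, ← NNReal.rpow_add hn, e3]

theorem glp_sq (a : ℝ≥0) : ((a ^ (1 / (2 : ℝ)) : ℝ≥0) : ℝ) ^ 2 = a := by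
  have h := glp_pow_inv (r := 2) (by norm_num) a
  rw [NNReal.rpow_two] at h
  exact_mod_cast h

theorem glp_ssq {I : Type*} [Fintype I] (t : I → ℝ≥0) :
    ((∑ i, t i ^ (2 : ℝ) : ℝ≥0) : ℝ) = ssq t := by
  simp only [NNReal.rpow_two]
  unfold ssq
  push_cast
  rfl

theorem exists_gauge {θ : ℝ≥0} (h1 : 1 ≤ θ) (h4 : θ ≤ 4) (h2 : θ ≠ 2) :
    ∃ Γ : Gauge, Γ.th = θ ∧ Γ.NonL2 := by
  rcases h1.eq_or_lt with rfl | h1
  · have ht : glp_max.th = 1 := le_antisymm (glp_max_gam 4) glp_max.one_le_th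
    refine ⟨glp_max, ht, Or.inl ⟨by rw [ht]; norm_num, fun I _ t => ?_⟩⟩
    have hg : (glp_max.gam (Fintype.card I) : ℝ) ^ 2 ≤ 1 :=
      pow_le_one₀ (NNReal.coe_nonneg _) (by exact_mod_cast glp_max_gam _)
    have hs : ssq t ≤ Fintype.card I * (glp_max.sum univ t : ℝ) ^ 2 := by
      unfold ssq
      calc _ ≤ ∑ _i : I, (glp_max.sum univ t : ℝ) ^ 2 :=
            Finset.sum_le_sum fun i _ => pow_le_pow_left₀ (NNReal.coe_nonneg _)
              (by exact_mod_cast glp_max.le_sum (Finset.mem_univ i) t) 2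
        _ = _ := by rw [Finset.sum_const, Finset.card_univ, nsmul_eq_mul]
    have h0 : 0 ≤ ssq t := Finset.sum_nonneg fun i _ => by positivity
    calc _ ≤ ssq t * 1 := mul_le_mul_of_nonneg_left hg h0
      _ ≤ _ := by rwa [mul_one]
  have h1' : (1 : ℝ) < θ := by exact_mod_cast h1
  have h4' : (θ : ℝ) ≤ 4 := by exact_mod_cast h4
  have hl : 0 < Real.log θ := Real.log_pos h1'
  have hl4 : 0 < Real.log 4 := Real.log_pos (by norm_num)
  have h42 : Real.log 4 = 2 * Real.log 2 := by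
    rw [show (4 : ℝ) = 2 ^ 2 by norm_num, Real.log_pow]; norm_num
  obtain ⟨r, hrd⟩ : ∃ r : ℝ, r = Real.log 4 / Real.log θ := ⟨_, rfl⟩
  have hr : 1 ≤ r := by
    rw [hrd, le_div_iff₀ hl, one_mul]
    exact Real.log_le_log (by linarith) h4'
  have ht : (glp_lp r hr).th = θ := by
    unfold Gauge.th
    rw [glp_lp_gam]
    apply NNReal.coe_injective
    rw [NNReal.coe_rpow]
    push_cast
    rw [Real.rpow_def_of_pos (by norm_num), hrd, one_div_div,
      mul_div_cancel₀ _ hl4.ne', Real.exp_log (by linarith)]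
  refine ⟨glp_lp r hr, ht, ?_⟩
  rcases lt_or_gt_of_ne h2 with h2 | h2
  · refine Or.inl ⟨by rwa [ht], fun I _ t => ?_⟩
    have h2' : (θ : ℝ) ≤ 2 := by exact_mod_cast h2.le
    have hr2 : 2 ≤ r := by
      rw [hrd, le_div_iff₀ hl, h42]
      have := Real.log_le_log (by linarith) h2'
      linarith
    have h := glp_mean (a := 2) (by norm_num) hr2 univ t
    have h' := pow_le_pow_left₀ (NNReal.coe_nonneg _) (NNReal.coe_le_coe.2 h) 2
    rw [NNReal.coe_mul, NNReal.coe_mul, mul_pow, mul_pow, glp_sq, glp_sq, glp_ssq,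
      Finset.card_univ] at h'
    rw [glp_lp_gam, glp_lp_sum]
    exact_mod_cast h'
  · refine Or.inr ⟨by rwa [ht], fun I _ t => ?_⟩
    have h2' : (2 : ℝ) ≤ θ := by exact_mod_cast h2.le
    have hr2 : r ≤ 2 := by
      rw [hrd, div_le_iff₀ hl, h42]
      have := Real.log_le_log (by norm_num) h2'
      linarith
    have h := glp_mean (a := r) (b := 2) (by linarith) hr2 univ t
    have h' := pow_le_pow_left₀ (NNReal.coe_nonneg _) (NNReal.coe_le_coe.2 h) 2
    rw [NNReal.coe_mul, NNReal.coe_mul, mul_pow, mul_pow, glp_sq, glp_sq, glp_ssq,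
      Finset.card_univ] at h'
    rw [glp_lp_gam, glp_lp_sum, mul_comm, mul_comm (ssq t)]
    exact_mod_cast h'

theorem exists_gauge_two : ∃ Γ : Gauge, Γ.th = 2 ∧
    ∀ (I : Type) [Fintype I] (t : I → ℝ≥0), (Γ.sum univ t : ℝ) ^ 2 = ssq t := by
  refine ⟨glp_lp 2 (by norm_num), ?_, fun I _ t => ?_⟩
  · unfold Gauge.th
    rw [glp_lp_gam]
    have h := glp_inv_pow (r := 2) (by norm_num) 2
    rw [NNReal.rpow_two] at h
    rw [← h]
    norm_num
  · rw [glp_lp_sum, glp_sq, glp_ssq]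

end Pool.Agent.Lib.MP_435322_an.UD
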