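import Pool.Agent.Lib.MP_435322_an.UCov

/-! An explicit Krivine vector for spreading functionals on lists. -/

namespace Pool.Agent.Lib.MP_435322_an.UD

open Finset
open scoped NNReal

/-- repeated list -/
def tent_rep (k : ℕ) (L : List ℝ≥0) : List ℝ≥0 := (List.replicate k L).flatten

/-- preorder listing of the weighted `4`-ary tree -/
def tent_tree : (ℕ → ℝ≥0) → ℕ → List ℝ≥0
  | _, 0 => []
  | g, R + 1 => g 0 :: tent_rep 4 (tent_tree (fun r => g (r + 1)) R)

/-- domination up to an error, in every context -/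
def tent_Err (f : List ℝ≥0 → ℝ) (L A : List ℝ≥0) (e : ℝ) : Prop :=
  ∀ P S, f (P ++ L ++ S) ≤ f (P ++ A ++ S) + e

theorem tent_rep_succ (k : ℕ) (L : List ℝ≥0) : tent_rep (k + 1) L = L ++ tent_rep k L := by
  simp [tent_rep, List.replicate_succ]

theorem tent_rep_add (a b : ℕ) (L : List ℝ≥0) :
    tent_rep (a + b) L = tent_rep a L ++ tent_rep b L := by
  rw [tent_rep, List.replicate_add, List.flatten_append]; rfl

theorem tent_rep_nil (k : ℕ) : tent_rep k [] = [] := by simp [tent_rep]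

theorem tent_rep_rep (a b : ℕ) (L : List ℝ≥0) :
    tent_rep a (tent_rep b L) = tent_rep (b * a) L := by
  induction a with
  | zero => rfl
  | succ a ih => rw [tent_rep_succ, ih, Nat.mul_succ, add_comm, tent_rep_add]

theorem tent_rep_one (k : ℕ) (x : ℝ≥0) : tent_rep k [x] = List.replicate k x := by
  simp [tent_rep]

theorem tent_rep_map (k : ℕ) (L : List ℝ≥0) (φ : ℝ≥0 → ℝ≥0) :
    (tent_rep k L).map φ = tent_rep k (L.map φ) := by
  simp [tent_rep]

theorem tent_cov_rep {L A B : List ℝ≥0} (h : Cov L A B) (k : ℕ) :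
    Cov (tent_rep k L) (tent_rep k A) (tent_rep k B) := by
  induction k with
  | zero => exact Cov.nil
  | succ k ih => simpa only [tent_rep_succ] using h.append ih

theorem tent_dom_rep {L A : List ℝ≥0} (h : Cov L A []) (k : ℕ) :
    Cov (tent_rep k L) (tent_rep k A) [] := by
  simpa only [tent_rep_nil] using tent_cov_rep h k

theorem tent_rep_le {a b : ℕ} (h : a ≤ b) (L : List ℝ≥0) :
    Cov (tent_rep a L) (tent_rep b L) [] := by
  obtain ⟨c, rfl⟩ := Nat.exists_eq_add_of_le h
  rw [tent_rep_add]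
  exact Cov.of_sublist (List.sublist_append_left _ _)

theorem tent_map (c : ℝ≥0) (R : ℕ) : ∀ g : ℕ → ℝ≥0,
    (tent_tree g R).map (c * ·) = tent_tree (fun r => c * g r) R := by
  induction R with
  | zero => exact fun _ => rfl
  | succ R ih => intro g; simp only [tent_tree, List.map_cons, tent_rep_map, ih]

theorem tent_a (R s : ℕ) : ∀ g : ℕ → ℝ≥0, Cov (tent_tree g (R + s))
    (tent_rep (4 ^ s) (tent_tree (fun r => g (r + s)) R)) (tent_tree g s) := by
  induction s with
  | zero => intro g; simpa [tent_rep, tent_tree] using Cov.refl _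
  | succ s ih =>
    intro g
    have := tent_cov_rep (ih fun r => g (r + 1)) 4
    rw [tent_rep_rep, ← pow_succ] at this
    exact Cov.useB le_rfl this

theorem tent_b (R s : ℕ) : ∀ g : ℕ → ℝ≥0,
    Cov (tent_rep (4 ^ s) (tent_tree (fun r => g (r + s)) R)) (tent_tree g (R + s)) [] := by
  induction s with
  | zero => intro g; simpa [tent_rep, tent_tree] using Cov.refl _
  | succ s ih =>
    intro g
    have := tent_dom_rep (ih fun r => g (r + 1)) 4
    rw [tent_rep_rep, ← pow_succ] at this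
    exact Cov.skipA _ this

theorem tent_c (R : ℕ) : ∀ g : ℕ → ℝ≥0,
    Cov (tent_tree g (R + 1)) (tent_tree g R) (tent_rep (4 ^ R) [g R]) := by
  induction R with
  | zero => intro g; simpa [tent_rep, tent_tree] using Cov.symm_refl _
  | succ R ih =>
    intro g
    have := tent_cov_rep (ih fun r => g (r + 1)) 4
    rw [tent_rep_rep, ← pow_succ] at this
    exact Cov.useA le_rfl this

theorem tent_d (R : ℕ) : ∀ (g g' : ℕ → ℝ≥0) (R' : ℕ), R ≤ R' → (∀ r < R, g r ≤ g' r) →
    Cov (tent_tree g R) (tent_tree g' R') [] := by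
  induction R with
  | zero => exact fun _ _ _ _ _ => Cov.nil_left _ _
  | succ R ih =>
    intro g g' R' h1 h2
    obtain ⟨R'', rfl⟩ := Nat.exists_eq_add_one_of_ne_zero (show R' ≠ 0 by omega)
    exact Cov.useA (h2 0 (by omega)) (tent_dom_rep (ih _ _ R'' (by omega)
      fun r hr => h2 (r + 1) (by omega)) 4)

section
variable {f : List ℝ≥0 → ℝ}

theorem tent_Err.of_cov (h : SL f) {L A B : List ℝ≥0} (hc : Cov L A B) : tent_Err f L A (f B) :=
  fun P S => by simpa using h.cov _ _ _ (((Cov.refl P).append hc).append (Cov.refl S))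

theorem tent_Err.of_dom (h : SL f) {L A : List ℝ≥0} (hc : Cov L A []) : tent_Err f L A 0 :=
  h.nil ▸ tent_Err.of_cov h hc

theorem tent_Err.trans {L A B : List ℝ≥0} {e e' x : ℝ} (h : tent_Err f L A e)
    (h' : tent_Err f A B e') (hx : e + e' ≤ x) : tent_Err f L B x := fun P S => by
  linarith [h P S, h' P S]

theorem tent_Err.append {L A L' A' : List ℝ≥0} {e e' : ℝ} (h : tent_Err f L A e)
    (h' : tent_Err f L' A' e') : tent_Err f (L ++ L') (A ++ A') (e + e') := fun P S => by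
  have a1 := h P (L' ++ S)
  have a2 := h' (P ++ A) S
  simp only [List.append_assoc] at a1 a2 ⊢
  linarith

theorem tent_Err.rep {L A : List ℝ≥0} {e : ℝ} (h : tent_Err f L A e) (k : ℕ) :
    tent_Err f (tent_rep k L) (tent_rep k A) (k * e) := by
  induction k with
  | zero => intro P S; simp [tent_rep]
  | succ k ih =>
    rw [tent_rep_succ, tent_rep_succ, show ((k + 1 : ℕ) : ℝ) * e = e + k * e by push_cast; ring]
    exact h.append ih

theorem tent_Err.le {L A : List ℝ≥0} {e : ℝ} (h : tent_Err f L A e) : f L ≤ f A + e := by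
  simpa using h [] []

theorem tent_rep_smul (h : SL f) (k : ℕ) (c : ℝ≥0) :
    f (tent_rep k [c]) = c * f (List.replicate k 1) := by
  rw [← h.smul, tent_rep_one]
  simp

theorem tent_top (h : SL f) (s : ℕ) : ∀ g : ℕ → ℝ≥0, (∀ r < s, g r ≤ 2) →
    f (tent_tree g s) + f [1] ≤ 4 ^ s * f [1] := by
  induction s with
  | zero => intro g _; simp [tent_tree, h.nil]
  | succ s ih =>
    intro g hg
    have a1 := ih (fun r => g (r + 1)) fun r hr => hg _ (by omega)
    have a2 := h.cov _ _ _ (Cov.useA (le_refl (g 0))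
      (Cov.symm_refl (tent_rep 4 (tent_tree (fun r => g (r + 1)) s))))
    have a3 := ((tent_Err.of_cov h (Cov.symm_refl (tent_tree (fun r => g (r + 1)) s))).rep 4).le
    have a4 : f [g 0] = g 0 * f [1] := by simpa [tent_rep] using tent_rep_smul h 1 (g 0)
    have a5 : (g 0 : ℝ) ≤ 2 := by exact_mod_cast hg 0 (by omega)
    have a6 := mul_le_mul_of_nonneg_right a5 (h.nonneg [1])
    have a7 := h.nonneg [1]
    rw [tent_rep_nil, h.nil] at a3
    rw [tent_tree, pow_succ]
    push_cast at a3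
    linarith

theorem tent_bot (h : SL f) (g : ℕ → ℝ≥0) (R : ℕ) (e : ℝ) (s : ℕ)
    (hs : ∀ r, R ≤ r → r < R + s → f (tent_rep (4 ^ r) [g r]) ≤ e) :
    tent_Err f (tent_tree g (R + s)) (tent_tree g R) (s * e) := by
  induction s with
  | zero => intro P S; simp
  | succ s ih =>
    refine (tent_Err.of_cov h (tent_c (R + s) g)).trans (ih fun r h1 h2 => hs r h1 (by omega)) ?_
    have := hs (R + s) (by omega) (by omega)
    push_cast
    linarith

theorem tent_A (h : SL f) {g : ℕ → ℝ≥0} {R s : ℕ} (hs : s ≤ R) {c k : ℝ≥0}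
    (hg : ∀ r, c * g (r + s) ≤ k * g r) : tent_Err f ((tent_tree g R).map (c * ·))
      (tent_rep (4 ^ s) ((tent_tree g R).map (k * ·))) (c * f (tent_tree g s)) := by
  obtain ⟨R', rfl⟩ := Nat.exists_eq_add_of_le' hs
  have a1 := tent_Err.of_cov h (tent_a R' s fun r => c * g r)
  rw [← tent_map c s, h.smul] at a1
  rw [tent_map, tent_map]
  exact a1.trans (tent_Err.of_dom h (tent_dom_rep (tent_d R' _ _ _ (by omega) fun r _ => hg r) _))
    (by simp)

theorem tent_B (h : SL f) {g : ℕ → ℝ≥0} {R s : ℕ} (hs : s ≤ R) {k : ℝ≥0} {e : ℝ}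
    (hg : ∀ r, r + s ≤ R → g r ≤ k * g (r + s))
    (he : ∀ r, R ≤ r + s → r < R → f (tent_rep (4 ^ r) [g r]) ≤ e) :
    f (tent_rep (4 ^ s) (tent_tree g R)) ≤ k * f (tent_tree g R) + 4 ^ s * (s * e) := by
  obtain ⟨R', rfl⟩ := Nat.exists_eq_add_of_le' hs
  have a1 := ((tent_bot h g R' e s fun r h1 h2 => he r (by omega) h2).rep (4 ^ s)).le
  have a2 := h.mono (tent_dom_rep (tent_d R' g (fun r => k * g (r + s)) R' le_rfl
    fun r hr => hg r (by omega)) (4 ^ s))
  have a3 := h.mono (tent_b R' s fun r => k * g r)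
  rw [← tent_map k (R' + s), h.smul] at a3
  push_cast at a1
  linarith

end

theorem tent_pick (S : ℕ) {c om : ℝ≥0} (h : c ≤ om) : ∃ s ≤ S, c * 2 ^ S ≤ om * 2 ^ s ∧
    (om : ℝ) ^ 2 * 4 ^ s ≤ 4 * 4 ^ S * c ^ 2 + om ^ 2 := by
  classical
  have ex : ∃ s, c * 2 ^ S ≤ om * 2 ^ s := ⟨S, by gcongr⟩
  refine ⟨Nat.find ex, Nat.find_min' ex (by gcongr), Nat.find_spec ex, ?_⟩
  rcases e : Nat.find ex with _ | s
  · have : (0 : ℝ) ≤ 4 * 4 ^ S * c ^ 2 := by positivity
    rw [pow_zero]; linarith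
  · have a1 : (om : ℝ) * 2 ^ s ≤ c * 2 ^ S := by
      exact_mod_cast (not_le.mp (Nat.find_min ex (show s < Nat.find ex by omega))).le
    have a2 := pow_le_pow_left₀ (by positivity) a1 2
    have a3 : ∀ k : ℕ, ((2 : ℝ) ^ k) ^ 2 = 4 ^ k := fun k => by
      rw [← pow_mul, mul_comm, pow_mul]; norm_num
    rw [mul_pow, mul_pow, a3, a3] at a2
    rw [pow_succ (4 : ℝ) s]
    linarith [sq_nonneg (om : ℝ)]

theorem tent (Cf : ℝ → ℝ) (n : ℕ) : ∃ u : List ℝ≥0, (1 : ℝ≥0) ∈ u ∧ ∀ f, SL f →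
    (∀ lam : ℝ, 1 < lam → ∀ r : ℕ,
      f (List.replicate (4 ^ r) 1) ≤ Cf lam * lam ^ r * 2 ^ r * f [1] ∧
      2 ^ r * f [1] ≤ Cf lam * lam ^ r * f (List.replicate (4 ^ r) 1)) →
    (∀ t : List ℝ≥0, t.length ≤ n → f (t.flatMap fun c => u.map (c * ·)) ^ 2 ≤
      10 ^ 4 * (t.map fun c => (c : ℝ) ^ 2).sum * f u ^ 2) ∧
    ∀ j ≤ n, j * f u ^ 2 ≤ 10 ^ 4 * f ((List.replicate j u).flatten) ^ 2 := by
  obtain ⟨S, hS⟩ : ∃ S, n ≤ 4 ^ S := ⟨n, (Nat.lt_pow_self (by norm_num)).le⟩
  obtain ⟨lam, l1, l2⟩ : ∃ lam : ℝ≥0, 1 < lam ∧ lam ^ (4 * (S + 2)) = 2 :=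
    ⟨2 ^ (((4 * (S + 2) : ℕ) : ℝ)⁻¹), NNReal.one_lt_rpow one_lt_two (by positivity),
      NNReal.rpow_inv_natCast_pow _ (by omega)⟩
  have l1' : (1 : ℝ) < lam := l1
  set C : ℝ := |Cf lam| + 1 with hC
  have C1 : 1 ≤ C := by linarith [abs_nonneg (Cf lam)]
  have C2 : Cf lam ≤ C := by linarith [le_abs_self (Cf lam)]
  set W : ℝ := 4 ^ (S + 2) with hW
  obtain ⟨h, h1, h2⟩ : ∃ h : ℕ, S + 2 ≤ h ∧ 4 * W ^ 2 * C ^ 2 ≤ (lam : ℝ) ^ h :=
    ((Filter.eventually_ge_atTop _).and
      ((tendsto_pow_atTop_atTop_of_one_lt l1').eventually_ge_atTop _)).exists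
  let g : ℕ → ℝ≥0 := fun r => lam ^ (4 * min r (2 * h - r)) / 2 ^ r
  have hp : ∀ a b, a ≤ b + (S + 2) → lam ^ (4 * a) ≤ 2 * lam ^ (4 * b) := fun a b hab => by
    rw [← l2, ← pow_add]
    exact pow_le_pow_right₀ l1.le (by omega)
  have g1 : ∀ s ≤ S + 2, ∀ r, 2 ^ s * g (r + s) ≤ 2 * g r := fun s hs r => by
    have := hp (min (r + s) (2 * h - (r + s))) (min r (2 * h - r)) (by omega)
    simp only [g]
    rw [pow_add (2 : ℝ≥0) r s, ← mul_div_assoc, mul_comm ((2 : ℝ≥0) ^ r),
      mul_div_mul_left _ _ (by positivity), ← mul_div_assoc]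
    gcongr
  have g2 : ∀ s ≤ S + 2, ∀ r, r + s ≤ 2 * h → g r ≤ 2 * 2 ^ s * g (r + s) := fun s hs r hr => by
    have := hp (min r (2 * h - r)) (min (r + s) (2 * h - (r + s))) (by omega)
    simp only [g]
    rw [pow_add (2 : ℝ≥0) r s, mul_assoc, ← mul_div_assoc, mul_comm ((2 : ℝ≥0) ^ r),
      mul_div_mul_left _ _ (by positivity), ← mul_div_assoc]
    gcongr
  have g3 : ∀ r, min r (2 * h - r) ≤ S + 2 → 2 ^ r * g r ≤ 2 := fun r hr => by
    have := hp (min r (2 * h - r)) 0 (by omega)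
    simp only [g]
    rw [mul_div_cancel₀ _ (by positivity)]
    simpa using this
  refine ⟨tent_tree g (2 * h), ?_, fun f hf hN => ?_⟩
  · rw [show 2 * h = (2 * h - 1) + 1 by omega]
    simp [tent_tree, g]
  set u := tent_tree g (2 * h) with hu
  have F0 := hf.nonneg [1]
  have u0 := hf.nonneg u
  set E : ℝ := C * lam ^ (2 * h) * f [1] with hE
  have lp : ∀ k : ℕ, (1 : ℝ) ≤ (lam : ℝ) ^ k := fun k => one_le_pow₀ l1'.le
  have FE : f [1] ≤ E := le_mul_of_one_le_left F0 (one_le_mul_of_one_le_of_one_le C1 (lp _))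
  have W1 : (n : ℝ) ≤ W := by
    have : (n : ℝ) ≤ 4 ^ S := by exact_mod_cast hS
    exact this.trans (pow_le_pow_right₀ (by norm_num) (by omega))
  have W2 : ((S + 2 : ℕ) : ℝ) ≤ W := by
    rw [hW]; exact_mod_cast (Nat.lt_pow_self (by norm_num)).le
  have W3 : (1 : ℝ) ≤ W := one_le_pow₀ (by norm_num)
  have small : 4 * W ^ 2 * E ≤ f u := by
    have a1 := hf.mono (tent_dom_rep (tent_d 1 (fun r => g (r + h)) (fun r => g (r + h)) h (by omega)
      fun _ _ => le_rfl) (4 ^ h))
    have a2 := hf.mono (tent_b h h g)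
    rw [← two_mul, ← hu] at a2
    have a3 : tent_tree (fun r => g (r + h)) 1 = [g h] := by simp [tent_tree, tent_rep]
    rw [a3, tent_rep_smul hf] at a1
    have a4 := (hN lam l1' h).2
    have a5 : (g h : ℝ) * 2 ^ h = lam ^ (4 * h) := by
      simp only [g, show min h (2 * h - h) = h by omega]
      push_cast
      exact div_mul_cancel₀ _ (by positivity)
    have a6 := hf.nonneg (List.replicate (4 ^ h) 1)
    have a7 : (lam : ℝ) ^ h * (lam ^ h * (lam ^ (2 * h) * f [1])) ≤ lam ^ h * (C * f u) := by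
      calc _ = g h * (2 ^ h * f [1]) := by rw [← mul_assoc (g h : ℝ), a5]; ring
        _ ≤ g h * (C * lam ^ h * f (List.replicate (4 ^ h) 1)) := by
          refine mul_le_mul_of_nonneg_left (a4.trans ?_) (g h).2
          gcongr
        _ = lam ^ h * (C * (g h * f (List.replicate (4 ^ h) 1))) := by ring
        _ ≤ _ := by gcongr; exact a1.trans a2
    have a8 := le_of_mul_le_mul_left a7 (by positivity)
    have a9 := mul_le_mul_of_nonneg_right h2 (show 0 ≤ (lam : ℝ) ^ (2 * h) * f [1] by positivity)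
    refine le_of_mul_le_mul_left ?_ (show 0 < C by positivity)
    calc _ = 4 * W ^ 2 * C ^ 2 * (lam ^ (2 * h) * f [1]) := by rw [hE]; ring
      _ ≤ _ := a9.trans a8
  have E0 : 0 ≤ E := F0.trans FE
  have top : ∀ s ≤ S + 2, f (tent_tree g s) ≤ W * E := fun s hs => by
    have a1 := tent_top hf s g fun r hr => (le_mul_of_one_le_left' (one_le_pow₀ one_le_two)).trans
      (g3 r (by omega))
    have a2 : (4 : ℝ) ^ s * f [1] ≤ W * E := by
      gcongr
      exact pow_le_pow_right₀ (by norm_num) hs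
    linarith
  have big : f (tent_rep (4 ^ (S + 2)) u) ≤ 2 ^ S * (9 * f u) := by
    have a1 := tent_B hf (g := g) (R := 2 * h) (s := S + 2) (by omega) (e := 2 * E)
      (g2 _ le_rfl) fun r h3 h4 => by
        rw [tent_rep_smul hf]
        have b1 := (hN lam l1' r).1
        have b2 : (2 : ℝ) ^ r * g r ≤ 2 := by exact_mod_cast g3 r (by omega)
        calc _ ≤ g r * (C * lam ^ (2 * h) * 2 ^ r * f [1]) := by
              refine mul_le_mul_of_nonneg_left (b1.trans ?_) (g r).2
              gcongr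
              exact l1'.le
          _ = 2 ^ r * g r * E := by rw [hE]; ring
          _ ≤ _ := by gcongr
    have a2 : W * (((S + 2 : ℕ) : ℝ) * (2 * E)) ≤ W * (W * (2 * E)) := by gcongr
    have a3 : f u ≤ 2 ^ S * f u := le_mul_of_one_le_left u0 (one_le_pow₀ one_le_two)
    rw [← hu, ← hW] at a1
    push_cast at a1 a2
    rw [pow_add (2 : ℝ) S 2] at a1
    linarith [mul_nonneg (sq_nonneg W) E0]
  refine ⟨fun t ht => ?_, fun j hj => ?_⟩
  · set om : ℝ≥0 := NNReal.sqrt (t.map fun c => c ^ 2).sum with hom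
    have o2 : (om : ℝ) ^ 2 = (t.map fun c : ℝ≥0 => (c : ℝ) ^ 2).sum := by
      rw [hom, ← NNReal.coe_pow, NNReal.sq_sqrt, NNReal.coe_list_sum, List.map_map]
      rfl
    have key : ∀ t' : List ℝ≥0, (∀ c ∈ t', c ≤ om) → ∃ N : ℕ,
        (om : ℝ) ^ 2 * N ≤ 4 * 4 ^ S * (t'.map fun c : ℝ≥0 => (c : ℝ) ^ 2).sum + t'.length * om ^ 2 ∧
        tent_Err f (t'.flatMap fun c => u.map (c * ·)) (tent_rep N (u.map (om / 2 ^ S * 2 * ·)))
          (t'.length * (om * (W * E))) := by
      intro t' h'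
      induction t' with
      | nil => exact ⟨0, by simp, fun P S => by simp [tent_rep]⟩
      | cons c t' ih =>
        obtain ⟨N, n1, n2⟩ := ih fun x hx => h' x (List.mem_cons_of_mem _ hx)
        have hc := h' c List.mem_cons_self
        obtain ⟨s, s1, s2, s3⟩ := tent_pick S hc
        have a1 := tent_A hf (g := g) (R := 2 * h) (s := s) (by omega) (c := c)
          (k := om / 2 ^ S * 2) fun r => by
            rw [mul_assoc]
            refine le_trans ?_ (mul_le_mul_right (g1 s (by omega) r) _)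
            rw [← mul_assoc, div_mul_eq_mul_div]
            exact mul_le_mul_left ((le_div_iff₀ (by positivity)).mpr s2) _
        refine ⟨4 ^ s + N, ?_, ?_⟩
        · simp only [List.map_cons, List.sum_cons, List.length_cons]
          push_cast
          linarith
        · rw [List.flatMap_cons, tent_rep_add]
          refine (a1.append n2).trans (fun _ _ => le_add_of_nonneg_right le_rfl) ?_
          have : (c : ℝ) * f (tent_tree g s) ≤ om * (W * E) :=
            mul_le_mul hc (top s (by omega)) (hf.nonneg _) om.2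
          simp only [List.length_cons]
          push_cast
          linarith
    obtain ⟨N, n1, n2⟩ := key t fun c hc => NNReal.le_sqrt_iff_sq_le.mpr
      (List.single_le_sum (by simp) _ (List.mem_map_of_mem (f := fun c => c ^ 2) hc))
    have a1 := n2.le
    rw [← tent_rep_map, hf.smul] at a1
    have len : (t.length : ℝ) ≤ 4 ^ S := by exact_mod_cast ht.trans hS
    have a2 : f (t.flatMap fun c => u.map (c * ·)) ≤ 100 * om * f u := by
      rcases om.2.eq_or_lt with h0 | h0
      · have : om = 0 := NNReal.eq h0.symm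
        simpa [this] using a1
      have h0' : (0 : ℝ) < om := h0
      have b1 : (N : ℝ) ≤ 4 ^ (S + 2) := by
        rw [← o2] at n1
        refine le_of_mul_le_mul_left (n1.trans ?_) (pow_pos h0' 2)
        rw [pow_add]
        linarith [mul_le_mul_of_nonneg_right len (sq_nonneg (om : ℝ)),
          show (0 : ℝ) ≤ 4 ^ S * om ^ 2 by positivity]
      have b2 := (hf.mono (tent_rep_le (show N ≤ 4 ^ (S + 2) by exact_mod_cast b1) u)).trans big
      have b3 : ((om / 2 ^ S * 2 : ℝ≥0) : ℝ) * f (tent_rep N u) ≤ 18 * (om * f u) := by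
        refine (mul_le_mul_of_nonneg_left b2 (NNReal.coe_nonneg _)).trans_eq ?_
        push_cast
        field_simp
        ring
      have b4 : (t.length : ℝ) * (om * (W * E)) ≤ W * (om * (W * E)) := by
        gcongr
        exact (Nat.cast_le.mpr ht).trans W1
      have b5 := mul_le_mul_of_nonneg_left small h0'.le
      linarith [mul_nonneg h0'.le u0, mul_nonneg h0'.le (mul_nonneg (sq_nonneg W) E0)]
    refine (pow_le_pow_left₀ (hf.nonneg _) a2 2).trans_eq ?_
    have e : (t.map fun c => (c : ℝ) ^ 2) = t.map fun c : ℝ≥0 => (c : ℝ) ^ 2 := by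
      simp [List.map_eq_flatMap, List.flatMap_assoc]
    rw [e, ← o2]
    ring
  · rcases Nat.eq_zero_or_pos j with rfl | j0
    · simp only [Nat.cast_zero, zero_mul]; positivity
    have s1 := Nat.pow_log_le_self 4 j0.ne'
    have s2 := Nat.lt_pow_succ_log_self (show 1 < 4 by norm_num) j
    set s := Nat.log 4 j
    have s3 : s ≤ S := (pow_le_pow_iff_right₀ (show 1 < 4 by norm_num)).mp (s1.trans (hj.trans hS))
    have a1 := (tent_A hf (g := g) (R := 2 * h) (s := s) (by omega) (g1 s (by omega))).le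
    rw [← tent_rep_map, hf.smul, hf.smul, ← hu] at a1
    have a2 := hf.mono (tent_rep_le s1 u)
    have a3 : (2 : ℝ) ^ s * (2 * f (tent_tree g s)) ≤ 2 ^ s * f u := by
      gcongr
      linarith [top s (by omega), mul_nonneg (mul_nonneg (zero_le_one.trans W3) E0) (sub_nonneg.mpr W3),
        mul_nonneg (zero_le_one.trans W3) E0]
    push_cast at a1
    have a4 := pow_le_pow_left₀ (by positivity)
      (show (2 : ℝ) ^ s * f u ≤ 4 * f (tent_rep j u) by linarith) 2
    have a5 : ((2 : ℝ) ^ s) ^ 2 = 4 ^ s := by rw [← pow_mul, mul_comm, pow_mul]; norm_num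
    have a6 : (j : ℝ) ≤ 4 ^ s * 4 := by exact_mod_cast s2.le
    rw [mul_pow, a5] at a4
    change _ ≤ _ * f (tent_rep j u) ^ 2
    linarith [mul_le_mul_of_nonneg_right a6 (sq_nonneg (f u)), sq_nonneg (f (tent_rep j u))]

end Pool.Agent.Lib.MP_435322_an.UD
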