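import Pool.Agent.Lib.MP_435322_an.UMod
import Pool.Agent.Lib.MP_435322_an.UTent

/-! Krivine models. -/

namespace Pool.Agent.Lib.MP_435322_an.UD

open Finset
open scoped NNReal

section
variable {ν : V → ℝ} {d : ℕ} {R : V → List (Fin d → ℝ≥0) → ℝ}

theorem usp_sl (h : LN ν) (hR : Mod ν R) (v : Fin d → ℝ≥0) :
    SL fun L => R 0 (L.map (· • v)) where
  cov := fun L A B hc => hR.cov h (hc.map (· • v)
    (fun a b hab g => by simpa using mul_le_mul_left hab (v g))
    (fun a b => (add_smul a b v).le)) 0 0 0 (by simp)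
  nil := by simp only [List.map_nil, hR.1, h.zero]
  smul := fun c L => by
    have := hR.smul h c (L.map (· • v)) 0
    rw [smul_zero, List.map_map] at this
    rw [List.map_map, ← this]
    congr 2
    funext a
    simp [mul_smul]

theorem usp_le_sum {f : List ℝ≥0 → ℝ} (hf : SL f) (L : List ℝ≥0) :
    f L ≤ (L.sum : ℝ≥0) * f [1] := by
  induction L with
  | nil => simp [hf.nil]
  | cons a L ih =>
    have h1 := hf.cov (a :: L) [a] L (Cov.useA le_rfl (Cov.symm_refl L))
    have h2 := hf.smul a [1]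
    simp only [List.map_cons, mul_one, List.map_nil] at h2
    rw [List.sum_cons, NNReal.coe_add]
    linarith

theorem usp_flat (h : LN ν) (hR : Mod ν R) (hpos : ∀ g, 0 < R 0 [Pi.single g 1]) {C : ℝ} {N : ℕ}
    {b : ℝ} (hC : 0 ≤ C) (hN : ∀ y : Fin N → V, Dj y →
      ((∀ j, ν (y j) ≤ 1) → ν (∑ j, y j) ≤ C * b) ∧ ((∀ j, 1 ≤ ν (y j)) → b ≤ C * ν (∑ j, y j)))
    (v : Fin d → ℝ≥0) : R 0 (List.replicate N v) ≤ 4 * C * b * R 0 [v] ∧
      b * R 0 [v] ≤ 4 * C * R 0 (List.replicate N v) := by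
  obtain ⟨T, hT, -, hT2⟩ := hR.ur h hpos N 0
  obtain ⟨a1, a2⟩ := hT2 N Fin.val Fin.val_strictMono (fun i => i.2) fun _ => v
  rw [List.ofFn_const] at a1 a2
  have one : ∀ j : Fin N, R 0 [v] ≤ 2 * ν (cmb v (T j)) ∧ ν (cmb v (T j)) ≤ 2 * R 0 [v] :=
    fun j => by
      simpa using hT2 1 (fun _ => j) (fun _ _ hlt => absurd hlt (by omega)) (fun _ => j.2)
        fun _ => v
  have hd : Dj fun j : Fin N => cmb v (T j) := fun n p q hp hq => by
    obtain ⟨g, -, hg⟩ := cmb_ne_zero hp
    obtain ⟨g', -, hg'⟩ := cmb_ne_zero hq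
    exact Fin.ext (congrArg Prod.fst (hT n (p, g) (q, g') hg hg'))
  have hd' : ∀ c : ℝ≥0, Dj fun j : Fin N => c • cmb v (T j) := fun c =>
    hd.of_supp fun _ _ => smul_ne_zero_V
  have h0 : 0 ≤ R 0 [v] := by simpa using (usp_sl h hR v).nonneg [1]
  have h1 : 0 ≤ R 0 (List.replicate N v) := by linarith [h.nonneg (∑ i : Fin N, cmb v (T i))]
  rcases h0.eq_or_lt with e | hp
  · have := h.sum_le univ fun j : Fin N => cmb v (T j)
    have h2 : ∑ j : Fin N, ν (cmb v (T j)) ≤ 0 :=
      Finset.sum_nonpos fun j _ => by linarith [(one j).2]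
    rw [← e]
    exact ⟨by linarith, by rw [mul_zero]; positivity⟩
  · set a := R 0 [v]
    obtain ⟨c1, hc1⟩ : ∃ c : ℝ≥0, (c : ℝ) = (2 * a)⁻¹ := ⟨⟨(2 * a)⁻¹, by positivity⟩, rfl⟩
    obtain ⟨c2, hc2⟩ : ∃ c : ℝ≥0, (c : ℝ) = 2 / a := ⟨⟨2 / a, by positivity⟩, rfl⟩
    constructor
    · have := (hN _ (hd' c1)).1 fun j => by
        rw [h.smul, hc1]
        exact (inv_mul_le_iff₀ (by positivity)).mpr (by linarith [(one j).2])
      rw [← Finset.smul_sum, h.smul, hc1] at this
      have h3 := (inv_mul_le_iff₀ (by positivity : 0 < 2 * a)).mp this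
      nlinarith
    · have := (hN _ (hd' c2)).2 fun j => by
        rw [h.smul, hc2, div_mul_eq_mul_div, le_div_iff₀ hp]
        linarith [(one j).1]
      rw [← Finset.smul_sum, h.smul, hc2, div_mul_eq_mul_div, ← mul_div_assoc,
        le_div_iff₀ hp] at this
      nlinarith [mul_le_mul_of_nonneg_left a2 hC]

end

theorem kr_of_nonAs {ν : V → ℝ} (h : LN ν) (hH : NH ν) (hA : NonAs ν) : KR ν := by
  choose! Cf hCf using hH
  refine ⟨10 ^ 4, fun n D => ?_⟩
  obtain ⟨u, hu1, hu⟩ := tent (fun lam => 4 * |Cf lam|) n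
  obtain ⟨d, R, hR, hR1, w, hw⟩ := exists_mod h hA (|D| * ((u.sum : ℝ≥0) : ℝ) ^ 2)
  have hpos : ∀ g, 0 < R 0 [Pi.single g 1] := fun g => by rw [hR1]; exact one_pos
  have key := fun v : Fin d → ℝ≥0 => hu _ (usp_sl h hR v) fun lam hl r => by
    have hl0 : 0 < lam ^ r := pow_pos (by linarith) r
    have := usp_flat h hR hpos (C := |Cf lam| * lam ^ r) (N := 4 ^ r) (b := 2 ^ r)
      (by positivity) (fun y hy => ⟨fun h1 => ((hCf lam hl r y hy).1 h1).trans
        (by gcongr; exact le_abs_self _), fun h1 => ((hCf lam hl r y hy).2 h1).trans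
        (by have := h.nonneg (∑ j, y j); gcongr; exact le_abs_self _)⟩) v
    simp only [List.map_replicate, one_smul, List.map_cons, List.map_nil]
    constructor <;> linarith [this.1, this.2]
  have lo : ∀ v : Fin d → ℝ≥0, R 0 [v] ≤ R 0 (u.map (· • v)) := fun v => by
    simpa using (usp_sl h hR v).mono (Cov.of_sublist (List.singleton_sublist.mpr hu1))
  have hi : ∀ v : Fin d → ℝ≥0, R 0 (u.map (· • v)) ≤ (u.sum : ℝ≥0) * R 0 [v] := fun v => by
    simpa using usp_le_sum (usp_sl h hR v) u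
  have h0 : ∀ v : Fin d → ℝ≥0, 0 ≤ R 0 [v] := fun v => by
    simpa using (usp_sl h hR v).nonneg [1]
  have e1 : ∀ v : Fin d → ℝ≥0, ((List.ofFn fun _ : Fin 1 => v).flatMap fun v => u.map (· • v)) =
      u.map (· • v) := fun v => by simp
  refine ⟨d, fun k v => R 0 ((List.ofFn v).flatMap fun v => u.map (· • v)),
    (hR.tensor u).ur h fun g => ?_, fun g => ?_, ⟨w, ?_⟩, fun k hk t v => ?_, fun k hk v => ?_⟩
  · simpa using (hpos g).trans_le (lo _)
  · simp only [e1]; exact (hpos g).trans_le (lo _)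
  · simp only [e1, hR1, one_pow, mul_one] at hw ⊢
    have hD := le_abs_self D
    have hD0 := abs_nonneg D
    rcases hw with hw | hw
    · refine Or.inl (lt_of_le_of_lt ?_ (hw.trans_le (pow_le_pow_left₀ (h0 w) (lo w) 2)))
      have s0 : 0 ≤ ∑ g, (w g : ℝ) ^ 2 * R 0 (u.map (· • Pi.single g 1)) ^ 2 := by positivity
      refine (mul_le_mul_of_nonneg_right hD s0).trans ?_
      rw [mul_assoc]
      refine mul_le_mul_of_nonneg_left ?_ hD0
      rw [Finset.mul_sum]
      refine Finset.sum_le_sum fun g _ => ?_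
      have a1 := hi (Pi.single g 1)
      rw [hR1, mul_one] at a1
      have a2 := pow_le_pow_left₀ ((h0 _).trans (lo _)) a1 2
      nlinarith [sq_nonneg (w g : ℝ)]
    · refine Or.inr (lt_of_le_of_lt ?_ (hw.trans_le (Finset.sum_le_sum fun g _ => ?_)))
      · have a2 := pow_le_pow_left₀ ((h0 _).trans (lo _)) (hi w) 2
        refine (mul_le_mul_of_nonneg_right hD (sq_nonneg _)).trans ?_
        rw [mul_assoc, ← mul_pow]
        exact mul_le_mul_of_nonneg_left a2 hD0
      · have a1 := lo (Pi.single g 1)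
        rw [hR1] at a1
        exact le_mul_of_one_le_right (sq_nonneg _) (one_le_pow₀ a1)
  · have := (key v).1 (List.ofFn t) (by simpa using hk)
    have e2 : ((List.ofFn t).flatMap fun c => u.map (c * ·)).map (· • v) =
        (List.ofFn fun j => t j • v).flatMap fun v => u.map (· • v) := by
      rw [List.map_flatMap, show (List.ofFn fun j => t j • v) = (List.ofFn t).map (· • v) by
        rw [List.map_ofFn]; rfl, List.flatMap_map]
      congr 1
      funext c
      rw [List.map_map]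
      congr 1
      funext a
      simp [smul_smul, mul_comm]
    rw [e2] at this
    simp only [e1]
    refine this.trans (le_of_eq ?_)
    congr 2
    simp only [List.bind_eq_flatMap, List.pure_def, ← List.map_eq_flatMap, List.map_ofFn,
      List.sum_ofFn]
    rfl
  · have := (key v).2 k hk
    rw [List.map_flatten, List.map_replicate] at this
    simp only [e1]
    rw [List.ofFn_const, List.flatMap_replicate]
    exact this

end Pool.Agent.Lib.MP_435322_an.UD
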