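import Pool.Agent.Lib.MP_435322_an.GTent
import Pool.Agent.Lib.MP_435322_an.GLp
import Pool.Agent.Lib.MP_435322_an.USpread

/-! Krivine models without type and cotype assumptions. -/

namespace Pool.Agent.Lib.MP_435322_an.UD

open Finset
open scoped NNReal

theorem gfek_sub (a : ℕ → ℝ) {A B : ℝ} (hA : 0 < A) (hlo : ∀ s, A ^ s ≤ a s)
    (hhi : a 1 ≤ B) (hsub : ∀ r s, a (r + s) ≤ a r * a s) :
    ∃ θ : ℝ, A ≤ θ ∧ θ ≤ B ∧ (∀ s, θ ^ s ≤ a s) ∧
      ∀ lam : ℝ, 1 < lam → ∃ C : ℝ, ∀ s, a s ≤ C * lam ^ s * θ ^ s := by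
  let S : Set ℝ := {x | ∀ s, x ^ s ≤ a s}
  have hcl : IsClosed S := by
    have : S = ⋂ s, {x : ℝ | x ^ s ≤ a s} := by ext x; simp [S]
    rw [this]
    exact isClosed_iInter fun s => isClosed_le (continuous_pow s) continuous_const
  have hb : ∀ x ∈ S, x ≤ B := fun x hx => by simpa using (hx 1).trans hhi
  have hm : sSup S ∈ S := hcl.csSup_mem ⟨A, hlo⟩ ⟨B, hb⟩
  have h1 : A ≤ sSup S := le_csSup ⟨B, hb⟩ hlo
  refine ⟨sSup S, h1, hb _ hm, hm, fun lam hl => ?_⟩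
  set θ := sSup S
  have hθ : 0 < θ := hA.trans_le h1
  have hp : 0 < lam * θ := by positivity
  have h0 : ∀ s, 0 ≤ a s := fun s => (pow_pos hA s).le.trans (hlo s)
  obtain ⟨s0, hs0⟩ : ∃ s0, a s0 < (lam * θ) ^ s0 := by
    by_contra hc
    push Not at hc
    have : lam * θ ≤ θ := le_csSup ⟨B, hb⟩ hc
    nlinarith
  have hs1 : 0 < s0 := Nat.pos_of_ne_zero fun e => by
    have := hlo 0
    rw [e] at hs0
    simp only [pow_zero] at this hs0
    linarith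
  refine ⟨∑ i ∈ range s0, a i / (lam * θ) ^ i, fun s => ?_⟩
  set C := ∑ i ∈ range s0, a i / (lam * θ) ^ i with hC
  rw [mul_assoc, ← mul_pow]
  induction s using Nat.strong_induction_on with
  | _ s ih =>
    by_cases hs : s < s0
    · rw [← div_le_iff₀ (pow_pos hp s)]
      exact Finset.single_le_sum (f := fun i => a i / (lam * θ) ^ i)
        (fun i _ => div_nonneg (h0 i) (pow_pos hp i).le) (Finset.mem_range.2 hs)
    · obtain ⟨r, rfl⟩ : ∃ r, s = r + s0 := ⟨s - s0, by omega⟩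
      have h2 := ih r (by omega)
      rw [pow_add, ← mul_assoc]
      exact (hsub r s0).trans (mul_le_mul h2 hs0.le (h0 _) ((h0 _).trans h2))

theorem gfek_fam {α : Type} {M : Set α} (hne : M.Nonempty) (G : α → ℕ → ℝ) {A B : ℝ}
    (hA : 0 < A) (hlo : ∀ f ∈ M, ∀ s, A ^ s ≤ G f s) (hhi : ∀ f ∈ M, ∀ s, G f s ≤ B ^ s)
    (hT : ∀ f ∈ M, ∀ s, ∃ g ∈ M, ∀ r, G f (r + s) = G g r * G f s) :
    ∃ θ : ℝ, A ≤ θ ∧ θ ≤ B ∧ ∀ lam : ℝ, 1 < lam → ∃ C : ℝ, 0 < C ∧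
      (∀ f ∈ M, ∀ r, G f r ≤ C * lam ^ r * θ ^ r) ∧
      ∀ R, ∃ f ∈ M, ∀ r ≤ R, θ ^ r ≤ C * lam ^ R * G f r := by
  let a : ℕ → ℝ := fun s => sSup ((fun f => G f s) '' M)
  have hb : ∀ s, BddAbove ((fun f => G f s) '' M) := fun s =>
    ⟨B ^ s, by rintro _ ⟨f, hf, rfl⟩; exact hhi f hf s⟩
  have hle : ∀ f ∈ M, ∀ s, G f s ≤ a s := fun f hf s => le_csSup (hb s) ⟨f, hf, rfl⟩
  have h0 : ∀ f ∈ M, ∀ s, 0 < G f s := fun f hf s => (pow_pos hA s).trans_le (hlo f hf s)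
  have hup : ∀ s x, (∀ f ∈ M, G f s ≤ x) → a s ≤ x := fun s x hx =>
    csSup_le (hne.image _) (by rintro _ ⟨f, hf, rfl⟩; exact hx f hf)
  obtain ⟨f0, hf0⟩ := hne
  obtain ⟨θ, h1, h2, h3, h4⟩ := gfek_sub a (B := B) hA
    (fun s => (hlo f0 hf0 s).trans (hle f0 hf0 s))
    (hup 1 B fun f hf => by simpa using hhi f hf 1)
    (fun r s => hup _ _ fun f hf => by
      obtain ⟨g, hg, e⟩ := hT f hf s
      rw [e]
      exact mul_le_mul (hle g hg r) (hle f hf s) (h0 f hf s).le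
        ((h0 g hg r).le.trans (hle g hg r)))
  refine ⟨θ, h1, h2, fun lam hl => ?_⟩
  obtain ⟨C, hC⟩ := h4 lam hl
  have hθ : 0 < θ := hA.trans_le h1
  have hl0 : 0 < lam := by linarith
  have hC0 : 0 < C := by
    have := (h0 f0 hf0 0).trans_le ((hle f0 hf0 0).trans (hC 0))
    simpa using this
  refine ⟨2 * C, by positivity, fun f hf r => ((hle f hf r).trans (hC r)).trans ?_, fun R => ?_⟩
  · gcongr
    linarith
  · have hR : θ ^ R / 2 < a R := (half_lt_self (pow_pos hθ R)).trans_le (h3 R)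
    obtain ⟨_, ⟨f, hf, rfl⟩, hx⟩ := exists_lt_of_lt_csSup (Set.Nonempty.image _ ⟨f0, hf0⟩) hR
    refine ⟨f, hf, fun r hr => ?_⟩
    obtain ⟨q, rfl⟩ : ∃ q, R = q + r := ⟨R - r, by omega⟩
    obtain ⟨g, hg, e⟩ := hT f hf r
    simp only [e] at hx
    have h5 := mul_le_mul_of_nonneg_right ((hle g hg q).trans (hC q)) (h0 f hf r).le
    have h6 : lam ^ q ≤ lam ^ (q + r) := pow_le_pow_right₀ hl.le (by omega)
    have h7 := h0 f hf r
    refine le_of_mul_le_mul_left ?_ (pow_pos hθ q)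
    calc θ ^ q * θ ^ r ≤ 2 * (C * lam ^ q * θ ^ q * G f r) := by rw [← pow_add]; linarith
      _ ≤ 2 * (C * lam ^ (q + r) * θ ^ q * G f r) := by gcongr
      _ = _ := by ring

/-- growth rates in a family of spreading functionals closed under tensoring -/
theorem fekete (𝓜 : Set (List ℝ≥0 → ℝ)) (hS : ∀ f ∈ 𝓜, SL f ∧ f [1] = 1)
    (hT : ∀ f ∈ 𝓜, ∀ s : ℕ, ∃ g ∈ 𝓜, ∀ r : ℕ, f (List.replicate (4 ^ (r + s)) 1) =
      g (List.replicate (4 ^ r) 1) * f (List.replicate (4 ^ s) 1)) :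
    (∀ lam : ℝ, 1 < lam → ∃ C : ℝ, ∀ f ∈ 𝓜, ∀ r : ℕ,
      f (List.replicate (4 ^ r) 1) ≤ C * lam ^ r * 2 ^ r ∧
      2 ^ r ≤ C * lam ^ r * f (List.replicate (4 ^ r) 1)) ∨
    ∃ θ : ℝ≥0, 1 ≤ θ ∧ θ ≤ 4 ∧ θ ≠ 2 ∧ ∀ lam : ℝ, 1 < lam → ∃ C : ℝ, ∀ R : ℕ, ∃ f ∈ 𝓜, ∀ r ≤ R,
      f (List.replicate (4 ^ r) 1) ≤ C * lam ^ R * (θ : ℝ) ^ r ∧
      (θ : ℝ) ^ r ≤ C * lam ^ R * f (List.replicate (4 ^ r) 1) := by
  rcases 𝓜.eq_empty_or_nonempty with rfl | hne
  · exact Or.inl fun _ _ => ⟨0, fun f hf => hf.elim⟩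
  have lo : ∀ f ∈ 𝓜, ∀ s, 1 ≤ f (List.replicate (4 ^ s) 1) := fun f hf s => by
    rw [← (hS f hf).2]
    exact (hS f hf).1.mono (Cov.of_sublist (List.singleton_sublist.2 (by simp)))
  have hi : ∀ f ∈ 𝓜, ∀ s, f (List.replicate (4 ^ s) 1) ≤ 4 ^ s := fun f hf s => by
    have := usp_le_sum (hS f hf).1 (List.replicate (4 ^ s) 1)
    simpa [(hS f hf).2] using this
  have pos : ∀ f ∈ 𝓜, ∀ s, 0 < f (List.replicate (4 ^ s) 1) := fun f hf s =>
    one_pos.trans_le (lo f hf s)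
  obtain ⟨x, x1, x4, hx⟩ := gfek_fam hne (fun f s => f (List.replicate (4 ^ s) 1)) (B := 4)
    one_pos (fun f hf s => by simpa using lo f hf s) hi hT
  obtain ⟨y, y1, y4, hy⟩ := gfek_fam hne (fun f s => (f (List.replicate (4 ^ s) 1))⁻¹)
    (A := 4⁻¹) (B := 1) (by norm_num)
    (fun f hf s => by rw [inv_pow]; exact inv_anti₀ (pos f hf s) (hi f hf s))
    (fun f hf s => by rw [one_pow]; exact inv_le_one_of_one_le₀ (lo f hf s))
    (fun f hf s => by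
      obtain ⟨g, hg, e⟩ := hT f hf s
      exact ⟨g, hg, fun r => by rw [e, mul_inv]⟩)
  have x0 : 0 < x := by linarith
  have y0 : 0 < y := lt_of_lt_of_le (by norm_num) y1
  have fl1 : ∀ {p K : ℝ} (r : ℕ), 0 < p → p⁻¹ ≤ K * y ^ r → y⁻¹ ^ r ≤ K * p := fun r hp hK => by
    rw [inv_pow, inv_le_iff_one_le_mul₀ (pow_pos y0 r)]
    rw [inv_le_iff_one_le_mul₀ hp] at hK
    linarith
  have fl2 : ∀ {p K : ℝ} (r : ℕ), 0 < p → y ^ r ≤ K * p⁻¹ → p ≤ K * y⁻¹ ^ r := fun r hp hK => by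
    rw [inv_pow, le_mul_inv_iff₀ (pow_pos y0 r)]
    rw [le_mul_inv_iff₀ hp] at hK
    linarith
  by_cases ex : x = 2
  · by_cases ey : y⁻¹ = 2
    · refine Or.inl fun lam hl => ?_
      obtain ⟨C, C0, c1, -⟩ := hx lam hl
      obtain ⟨D, D0, d1, -⟩ := hy lam hl
      have hl0 : 0 < lam := by linarith
      refine ⟨C + D, fun f hf r => ⟨(c1 f hf r).trans ?_, ?_⟩⟩
      · rw [ex]
        gcongr
        linarith
      · have := fl1 r (pos f hf r) (d1 f hf r)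
        have h2 := pos f hf r
        rw [ey] at this
        refine this.trans ?_
        gcongr
        linarith
    · refine Or.inr ⟨⟨y⁻¹, by positivity⟩, ?_, ?_, fun e => ey (congrArg NNReal.toReal e),
        fun lam hl => ?_⟩
      · exact (one_le_inv₀ y0).2 y4
      · exact (inv_le_comm₀ y0 (by norm_num : (0 : ℝ) < 4)).2 y1
      · obtain ⟨D, D0, d1, d2⟩ := hy lam hl
        refine ⟨D, fun R => ?_⟩
        obtain ⟨f, hf, d3⟩ := d2 R
        refine ⟨f, hf, fun r hr => ⟨fl2 r (pos f hf r) (d3 r hr),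
          (fl1 r (pos f hf r) (d1 f hf r)).trans ?_⟩⟩
        have h2 := pos f hf r
        have h6 : lam ^ r ≤ lam ^ R := pow_le_pow_right₀ hl.le hr
        gcongr
  · refine Or.inr ⟨⟨x, x0.le⟩, x1, x4, fun e => ex (congrArg NNReal.toReal e), fun lam hl => ?_⟩
    obtain ⟨C, C0, c1, c2⟩ := hx lam hl
    refine ⟨C, fun R => ?_⟩
    obtain ⟨f, hf, c3⟩ := c2 R
    refine ⟨f, hf, fun r hr => ⟨(c1 f hf r).trans ?_, c3 r hr⟩⟩
    have h6 : lam ^ r ≤ lam ^ R := pow_le_pow_right₀ hl.le hr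
    change _ ≤ C * lam ^ R * x ^ r
    gcongr

section
variable {ν : V → ℝ} {d : ℕ} {R : V → List (Fin d → ℝ≥0) → ℝ}

theorem gfek_scale (h : LN ν) (hR : Mod ν R) (c : ℝ≥0) (v : Fin d → ℝ≥0) (L : List ℝ≥0) :
    R 0 (L.map (· • c • v)) = c * R 0 (L.map (· • v)) := by
  have := hR.smul h c (L.map (· • v)) 0
  rw [smul_zero, List.map_map] at this
  rw [← this]
  congr 2
  funext a
  exact smul_comm a c v

theorem gfek_one (hR : Mod ν R) (v : Fin d → ℝ≥0) :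
    Mod ν fun x (L : List (Fin 1 → ℝ≥0)) => R x (L.map fun a => a 0 • v) := by
  refine ⟨fun x => hR.1 x, fun S ε hε m => ?_⟩
  obtain ⟨T, -, h2, h3⟩ := um_step hR S (fun p => p.1) (fun p => p.2.1 0 • v)
    (fun p => p.2.2.map fun a => a 0 • v) hε m
  refine ⟨fun _ => cmb v T, fun _ _ _ _ _ => Subsingleton.elim _ _, fun _ => Tl.cmb h2 v,
    fun p hp => ?_⟩
  have := h3 p hp
  rw [cmb_smul] at this
  have e : cmb p.2.1 (fun _ => cmb v T) = p.2.1 0 • cmb v T := by simp [cmb]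
  rw [e]
  exact this

theorem gfek_flat (t u : List ℝ≥0) (v : Fin d → ℝ≥0) :
    (t.flatMap fun c => u.map (c * ·)).map (· • v) =
      (t.map (· • v)).flatMap fun v => u.map (· • v) := by
  rw [List.map_flatMap, List.flatMap_map]
  congr 1
  funext c
  rw [List.map_map]
  congr 1
  funext a
  simp [smul_smul, mul_comm]

end

/-- normalised spreading functionals of single vectors of models -/
def gfek_M (ν : V → ℝ) : Set (List ℝ≥0 → ℝ) :=
  {f | f [1] = 1 ∧ ∃ (d : ℕ) (R : V → List (Fin d → ℝ≥0) → ℝ) (v : Fin d → ℝ≥0),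
    Mod ν R ∧ f = fun L => R 0 (L.map (· • v))}

theorem gfek_kr {ν : V → ℝ} (h : LN ν) (hA : NonAs ν)
    (hH : ∀ lam : ℝ, 1 < lam → ∃ C : ℝ, ∀ f ∈ gfek_M ν, ∀ r : ℕ,
      f (List.replicate (4 ^ r) 1) ≤ C * lam ^ r * 2 ^ r ∧
      2 ^ r ≤ C * lam ^ r * f (List.replicate (4 ^ r) 1)) : KR ν := by
  choose! Cf hCf using hH
  refine ⟨10 ^ 4, fun n D => ?_⟩
  obtain ⟨u, hu1, hu⟩ := tent Cf n
  obtain ⟨d, R, hR, hR1, w, hw⟩ := exists_mod h hA (|D| * ((u.sum : ℝ≥0) : ℝ) ^ 2)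
  have hpos : ∀ g, 0 < R 0 [Pi.single g 1] := fun g => by rw [hR1]; exact one_pos
  have key := fun v : Fin d → ℝ≥0 => hu _ (usp_sl h hR v) fun lam hl r => by
    have s := usp_sl h hR v
    have a1 := usp_le_sum s (List.replicate (4 ^ r) 1)
    have a2 := s.nonneg (List.replicate (4 ^ r) 1)
    rcases (s.nonneg [1]).eq_or_lt with e | hp
    · rw [← e, mul_zero] at a1
      rw [← e, le_antisymm a1 a2]
      simp
    · obtain ⟨c, hc⟩ : ∃ c : ℝ≥0, (c : ℝ) = (R 0 (List.map (· • v) [1]))⁻¹ :=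
        ⟨⟨_, (inv_pos.2 hp).le⟩, rfl⟩
      have := hCf lam hl (fun L => R 0 (L.map (· • c • v)))
        ⟨by simp only [gfek_scale h hR, hc]; exact inv_mul_cancel₀ hp.ne', d, R, _, hR, rfl⟩ r
      simp only [gfek_scale h hR, hc] at this
      refine ⟨?_, ?_⟩
      · have h3 := (inv_mul_le_iff₀ hp).1 this.1
        linarith
      · have h3 := this.2
        rw [mul_left_comm, le_inv_mul_iff₀ hp] at h3
        linarith
  have lo : ∀ v : Fin d → ℝ≥0, R 0 [v] ≤ R 0 (u.map (· • v)) := fun v => by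
    simpa using (usp_sl h hR v).mono (Cov.of_sublist (List.singleton_sublist.mpr hu1))
  have hi : ∀ v : Fin d → ℝ≥0, R 0 (u.map (· • v)) ≤ (u.sum : ℝ≥0) * R 0 [v] := fun v => by
    simpa using usp_le_sum (usp_sl h hR v) u
  have h0 : ∀ v : Fin d → ℝ≥0, 0 ≤ R 0 [v] := fun v => by
    simpa using (usp_sl h hR v).nonneg [1]
  have e1 : ∀ v : Fin d → ℝ≥0, ((List.ofFn fun _ : Fin 1 => v).flatMap fun v => u.map (· • v)) =
      u.map (· • v) := fun v => by simp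
  refine ⟨d, fun k v => R 0 ((List.ofFn v).flatMap fun v => u.map (· • v)),
    (hR.tensor u).ur h fun g => ?_, fun g => ?_, ⟨w, ?_⟩, fun k hk t v => ?_, fun k hk v => ?_⟩
  · simpa using (hpos g).trans_le (lo _)
  · simp only [e1]; exact (hpos g).trans_le (lo _)
  · simp only [e1, hR1, one_pow, mul_one] at hw ⊢
    have hD := le_abs_self D
    have hD0 := abs_nonneg D
    rcases hw with hw | hw
    · refine Or.inl (lt_of_le_of_lt ?_ (hw.trans_le (pow_le_pow_left₀ (h0 w) (lo w) 2)))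
      have s0 : 0 ≤ ∑ g, (w g : ℝ) ^ 2 * R 0 (u.map (· • Pi.single g 1)) ^ 2 := by positivity
      refine (mul_le_mul_of_nonneg_right hD s0).trans ?_
      rw [mul_assoc]
      refine mul_le_mul_of_nonneg_left ?_ hD0
      rw [Finset.mul_sum]
      refine Finset.sum_le_sum fun g _ => ?_
      have a1 := hi (Pi.single g 1)
      rw [hR1, mul_one] at a1
      have a2 := pow_le_pow_left₀ ((h0 _).trans (lo _)) a1 2
      nlinarith [sq_nonneg (w g : ℝ)]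
    · refine Or.inr (lt_of_le_of_lt ?_ (hw.trans_le (Finset.sum_le_sum fun g _ => ?_)))
      · have a2 := pow_le_pow_left₀ ((h0 _).trans (lo _)) (hi w) 2
        refine (mul_le_mul_of_nonneg_right hD (sq_nonneg _)).trans ?_
        rw [mul_assoc, ← mul_pow]
        exact mul_le_mul_of_nonneg_left a2 hD0
      · have a1 := lo (Pi.single g 1)
        rw [hR1] at a1
        exact le_mul_of_one_le_right (sq_nonneg _) (one_le_pow₀ a1)
  · have := (key v).1 (List.ofFn t) (by simpa using hk)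
    rw [gfek_flat, List.map_ofFn] at this
    simp only [e1]
    refine this.trans (le_of_eq ?_)
    congr 2
    simp only [List.bind_eq_flatMap, List.pure_def, ← List.map_eq_flatMap, List.map_ofFn,
      List.sum_ofFn]
    rfl
  · have := (key v).2 k hk
    rw [List.map_flatten, List.map_replicate] at this
    simp only [e1]
    rw [List.ofFn_const, List.flatMap_replicate]
    exact this

theorem gfek_tens {ν : V → ℝ} (h : LN ν) : ∀ f ∈ gfek_M ν, ∀ s : ℕ, ∃ g ∈ gfek_M ν, ∀ r : ℕ,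
    f (List.replicate (4 ^ (r + s)) 1) =
      g (List.replicate (4 ^ r) 1) * f (List.replicate (4 ^ s) 1) := by
  rintro _ ⟨h1, d, R, v, hR, rfl⟩ s
  have hp : 0 < R 0 ((List.replicate (4 ^ s) (1 : ℝ≥0)).map (· • v)) := by
    have := (usp_sl h hR v).mono (A := List.replicate (4 ^ s) 1)
      (Cov.of_sublist (List.singleton_sublist.2 (by simp : (1 : ℝ≥0) ∈ _)))
    exact one_pos.trans_le (h1.ge.trans this)
  obtain ⟨c, hc⟩ : ∃ c : ℝ≥0, (c : ℝ) = (R 0 ((List.replicate (4 ^ s) (1 : ℝ≥0)).map (· • v)))⁻¹ :=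
    ⟨⟨_, (inv_pos.2 hp).le⟩, rfl⟩
  have key : ∀ N, R 0 (((List.replicate N (1 : ℝ≥0)).map (· • c • v)).flatMap fun w =>
      (List.replicate (4 ^ s) (1 : ℝ≥0)).map (· • w)) =
      c * R 0 ((List.replicate (N * 4 ^ s) (1 : ℝ≥0)).map (· • v)) := fun N => by
    rw [← gfek_scale h hR]
    simp [List.flatMap_replicate]
  refine ⟨_, ⟨?_, d, _, c • v, hR.tensor (List.replicate (4 ^ s) 1), rfl⟩, fun r => ?_⟩
  · refine (key 1).trans ?_
    rw [one_mul, hc, inv_mul_cancel₀ hp.ne']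
  · simp only [key]
    rw [hc, pow_add, mul_right_comm, inv_mul_cancel₀ hp.ne', one_mul]

theorem kr_or_geq {ν : V → ℝ} (h : LN ν) (hA : NonAs ν) :
    KR ν ∨ ∃ Γ : Gauge, Γ.NonL2 ∧ GEq Γ ν := by
  rcases fekete (gfek_M ν) (by
    rintro _ ⟨h1, d, R, v, hR, rfl⟩
    exact ⟨usp_sl h hR v, h1⟩) (gfek_tens h) with hH | ⟨θ, t1, t4, t2, hθ⟩
  · exact Or.inl (gfek_kr h hA hH)
  obtain ⟨Γ, rfl, hΓ⟩ := exists_gauge t1 t4 t2
  refine Or.inr ⟨Γ, hΓ, 2 * 10 ^ 4, fun n m => ?_⟩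
  obtain ⟨lam, hl, h1⟩ := gtent Γ n
  obtain ⟨C, hC⟩ := hθ lam hl
  obtain ⟨N, u, hu1, hu⟩ := h1 C
  obtain ⟨_, ⟨f1, d, R, v, hR, rfl⟩, hf⟩ := hC N
  have s := usp_sl h hR v
  have key := hu _ s fun r hr => by
    beta_reduce at f1
    rw [f1, mul_one, mul_one]
    exact hf r hr
  have hp : 0 < R 0 (u.map (· • v)) := one_pos.trans_le (f1.ge.trans
    (s.mono (Cov.of_sublist (List.singleton_sublist.mpr hu1))))
  obtain ⟨c, hc⟩ : ∃ c : ℝ≥0, (c : ℝ) = (R 0 (u.map (· • v)))⁻¹ := ⟨⟨_, (inv_pos.2 hp).le⟩, rfl⟩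
  obtain ⟨T, hT, hT1, hT2⟩ := (gfek_one (hR.tensor u) v).ur h (fun g => by
    rw [Subsingleton.elim g 0]
    simpa using hp) n m
  have main : ∀ t : Fin n → ℝ≥0, ν (cmb t fun j => c • T j 0) ≤ 2 * 10 ^ 4 * Γ.sum univ t ∧
      (Γ.sum univ t : ℝ) ≤ 2 * 10 ^ 4 * ν (cmb t fun j => c • T j 0) := fun t => by
    obtain ⟨a1, a2⟩ := hT2 n Fin.val Fin.val_strictMono (fun i => i.2) fun i _ => t i
    obtain ⟨b1, b2⟩ := key (List.ofFn t) (by simp)
    rw [gfek_flat, List.map_ofFn, Γ.lsum_ofFn] at b1 b2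
    rw [List.map_ofFn] at a1 a2
    have e : cmb t (fun j => c • T j 0) = c • ∑ i : Fin n, cmb (fun _ => t i) (T i) := by
      rw [Finset.smul_sum]
      exact Finset.sum_congr rfl fun i _ => by simp [cmb, smul_comm (t i) c]
    rw [e, h.smul, hc]
    refine ⟨(inv_mul_le_iff₀ hp).2 ?_, ?_⟩
    · have := a2.trans (mul_le_mul_of_nonneg_left b1 zero_le_two)
      linarith
    · rw [mul_left_comm, le_inv_mul_iff₀ hp]
      have := b2.trans (mul_le_mul_of_nonneg_left a1 (by positivity))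
      linarith
  refine ⟨fun j => c • T j 0, fun k p q hp hq => ?_, fun j => (hT1 j 0).smul c,
    fun t => (main t).1, fun t => (main t).2⟩
  exact Fin.ext (congrArg Prod.fst (hT k (p, 0) (q, 0) (smul_ne_zero_V hp) (smul_ne_zero_V hq)))

end Pool.Agent.Lib.MP_435322_an.UD
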