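import Pool.Agent.Lib.MP_435322_an.GSign
import Pool.Agent.Lib.MP_435322_an.GCore

/-! Gadgets for an unconditional sequence give a family of subspaces. -/

namespace Pool.Agent.Lib.MP_435322_an.UD

open Finset Filter Pool.Agent.Lib.MP_435322_an
open scoped NNReal

universe u w

variable {𝕜 : Type w} [RCLike 𝕜] {W : Type u} [NormedAddCommGroup W] [NormedSpace 𝕜 W]

theorem ggad_main (P : ℕ → W →L[𝕜] W) (hP1 : ∀ i x, P i (P i x) = P i x)
    (hP2 : ∀ i j, i ≠ j → ∀ x, P i (P j x) = 0)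
    (hs : ∀ w, Tendsto (fun N => ∑ j ∈ Finset.range N, P j w) atTop (nhds w))
    {U : ℝ} (hU0 : 0 ≤ U) (hU1 : ∀ (k : ℕ) (x : W), ‖P k x‖ ≤ U * ‖x‖)
    (hU2 : ∀ (N : ℕ) (x : W), ‖∑ j ∈ Finset.range N, P j x‖ ≤ U * ‖x‖)
    {ν : V → ℝ} (hν : LN ν)
    (lift : V → W) (hLE : LEq 𝕜 ν lift U) (C' : ℝ) (hC' : 0 < C')
    (hcore : ∀ (I J : Type) [Fintype I] [DecidableEq I] [Fintype J] [DecidableEq J]
      (μ : (Fin 4 × I → ℝ≥0) → ℝ) (μ' : (Fin 4 × J → ℝ≥0) → ℝ), LM μ → LM μ' →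
      ∀ (σ δ : ℝ) (σ' : J → ℝ), 3 ≤ σ → σ ≤ 4 → (∀ j, 3 ≤ σ' j ∧ σ' j ≤ 4) → 0 < δ → δ ≤ 1 →
      (∀ j, δ ≤ |σ - σ' j|) →
      ∀ (A : (I → 𝕜 × 𝕜) →ₗ[𝕜] (J → 𝕜 × 𝕜)) (B : (J → 𝕜 × 𝕜) →ₗ[𝕜] (I → 𝕜 × 𝕜)) (a b : ℝ),
      0 ≤ a → 0 ≤ b →
      (∀ z, μ' (fun p => ‖lam (σ' p.2) p.1 (A z p.2)‖₊) ≤ a * μ (fun p => ‖lam σ p.1 (z p.2)‖₊)) →
      (∀ y, μ (fun p => ‖lam σ p.1 (B y p.2)‖₊) ≤ b * μ' (fun p => ‖lam (σ' p.2) p.1 (y p.2)‖₊)) →
      (∀ i, ‖(B (A (Pi.single i (0, 1))) i).2 - 1‖ ≤ 1 / 2) →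
      ∀ K : ℝ, (∀ c : I → Fin 4, ∃ (l : Fin 4) (t : I → ℝ≥0), (∀ i, c i ≠ l → t i = 0) ∧
        ∀ l', l' ≠ l → K * μ (fun p => if p.1 = l' then t p.2 else 0) <
          μ (fun p => if p.1 = l then t p.2 else 0)) →
      K ≤ C' * a * b / δ)
    (I : ℕ → Type) [∀ k, Fintype (I k)] (g : ∀ k, Fin 4 → I k → V)
    (hd : ∀ k, Dj (fun p : Fin 4 × I k => g k p.1 p.2))
    (hd' : ∀ n k k' l l' i i', g k l i n ≠ 0 → g k' l' i' n ≠ 0 → k = k')
    (hpos : ∀ k l i, 0 < ν (g k l i)) (hfix : ∀ k l i, P k (lift (g k l i)) = lift (g k l i))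
    (htest : ∀ k : ℕ, gad_Test ν (C' * (k + 1) / (1 / 2) ^ (2 * k + 2)) (g k)) : Fam 𝕜 W := by
  classical
  let Ψ : ∀ k, Bool → (I k → 𝕜 × 𝕜) →ₗ[𝕜] W := fun k b => gad_Psi lift (gad_sig k b) (g k)
  have hinj : ∀ k b, Function.Injective (Ψ k b) := fun k b =>
    gad_Psi_inj hν hLE _ (hd k) (hpos k)
  have hPΨ : ∀ k b z, P k (Ψ k b z) = Ψ k b z := by
    intro k b z
    simp only [Ψ, gad_Psi_apply, map_sum, map_smul, hfix]
  let G : ℕ → Bool → Submodule 𝕜 W := fun k b => LinearMap.range (Ψ k b)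
  have hG : ∀ n b, ∀ x ∈ G n b, P n x = x := by
    rintro n b _ ⟨z, rfl⟩
    exact hPΨ n b z
  have hfin : ∀ n b, FiniteDimensional 𝕜 (G n b) := fun n b => inferInstance
  have hrk : ∀ n, Module.finrank 𝕜 (G n true) = Module.finrank 𝕜 (G n false) := fun n => by
    rw [LinearMap.finrank_range_of_inj (hinj n true), LinearMap.finrank_range_of_inj (hinj n false)]
  have hmem : ∀ (u : ℕ → Bool) k z, Ψ k (u k) z ∈ fam P G u := by
    intro u k z
    refine mem_fam.2 fun i => ?_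
    by_cases hi : i = k
    · subst hi; rw [hPΨ]; exact ⟨z, rfl⟩
    · rw [← hPΨ, hP2 i k hi]; exact Submodule.zero_mem _
  let inc : ∀ (u : ℕ → Bool) k, (I k → 𝕜 × 𝕜) →ₗ[𝕜] fam P G u := fun u k =>
    (Ψ k (u k)).codRestrict _ (hmem u k)
  have hinc : ∀ u k z, (inc u k z : W) = Ψ k (u k) z := fun u k z => rfl
  choose co hco1 hco2 using fun v k => gad_coord (P := P) Ψ hinj v k
  have hcoinc : ∀ u k z, co u k (inc u k z) = z := fun u k z =>
    hinj k (u k) (by rw [hco2, hinc, hPΨ])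
  refine ⟨fam P G, fam_closed hfin, fun U hU => gad_open hP1 hP2 hs hU, fun u v => ⟨fun h => ?_, ?_⟩⟩
  · obtain ⟨N, hN⟩ := eventually_atTop.1 h
    exact fam_iso hP1 hP2 hG hfin hrk N u v hN
  rintro ⟨e⟩
  by_contra hne
  rw [not_eventually] at hne
  obtain ⟨a, ha⟩ : ∃ a, a = U * U * ‖(e : fam P G u →L[𝕜] fam P G v)‖ := ⟨_, rfl⟩
  obtain ⟨b, hb⟩ : ∃ b, b = U * U * ‖(e.symm : fam P G v →L[𝕜] fam P G u)‖ := ⟨_, rfl⟩
  have ha0 : 0 ≤ a := ha ▸ mul_nonneg (mul_nonneg hU0 hU0) (norm_nonneg _)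
  have hb0 : 0 ≤ b := hb ▸ mul_nonneg (mul_nonneg hU0 hU0) (norm_nonneg _)
  obtain ⟨k0, hk0⟩ := exists_nat_ge (a * b)
  obtain ⟨k, hk, huv⟩ := (frequently_atTop.1 hne) k0
  let tr : ℕ → fam P G v → fam P G v := fun N x => ∑ j : Fin N, inc v j (co v j x)
  have htr : ∀ N x, (tr N x : W) = ∑ j ∈ Finset.range N, P j x := by
    intro N x
    simp only [tr, Submodule.coe_sum, hinc, hco2]
    exact Fin.sum_univ_eq_sum_range (fun j => P j (x : W)) N
  have htt : ∀ x, Tendsto (fun N => tr N x) atTop (nhds x) := by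
    intro x
    rw [tendsto_subtype_rng]
    simp only [htr]
    exact hs _
  have hev : ∀ᶠ N in atTop, ∀ i : I k,
      ‖(co u k (e.symm (tr N (e (inc u k (Pi.single i (0, 1)))))) i).2 - 1‖ ≤ 1 / 2 := by
    rw [Filter.eventually_all]
    intro i
    have hc : Continuous fun x : fam P G v => ‖(co u k (e.symm x) i).2 - 1‖ :=
      ((continuous_snd.comp ((continuous_apply i).comp ((hco1 u k).comp
        e.symm.continuous))).sub continuous_const).norm
    have h1 := (hc.tendsto _).comp (htt (e (inc u k (Pi.single i (0, 1)))))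
    have h2 : ‖(co u k (e.symm (e (inc u k (Pi.single i (0, 1))))) i).2 - 1‖ = 0 := by
      rw [e.symm_apply_apply, hcoinc]
      simp
    rw [h2] at h1
    exact h1.eventually (ge_mem_nhds (by norm_num : (0 : ℝ) < 1 / 2))
  obtain ⟨N, hN⟩ := hev.exists
  let J : Type := Σ j : Fin N, I j
  let gJ : Fin 4 × J → V := fun p => g p.2.1 p.1 p.2.2
  have hdJ : Dj gJ := by
    rintro n ⟨l, j, i⟩ ⟨l', j', i'⟩ h1 h2
    have h3 : j = j' := Fin.ext (hd' n _ _ _ _ _ _ h1 h2)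
    subst h3
    have h4 := hd j n (l, i) (l', i') h1 h2
    simp only [Prod.mk.injEq] at h4
    obtain ⟨rfl, rfl⟩ := h4
    rfl
  let σ' : J → ℝ := fun j => gad_sig j.1 (v j.1)
  obtain ⟨A, hA⟩ : ∃ A : (I k → 𝕜 × 𝕜) →ₗ[𝕜] (J → 𝕜 × 𝕜),
      ∀ z (j : J), A z j = co v j.1 (e (inc u k z)) j.2 :=
    ⟨LinearMap.pi fun j : J => (LinearMap.proj j.2).comp ((co v j.1).comp
      (e.toLinearEquiv.toLinearMap.comp (inc u k))), fun z j => rfl⟩
  obtain ⟨S, hS⟩ : ∃ S : (J → 𝕜 × 𝕜) →ₗ[𝕜] fam P G v,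
      ∀ y, S y = ∑ j : Fin N, inc v j (fun i => y ⟨j, i⟩) :=
    ⟨∑ j : Fin N, (inc v j).comp (LinearMap.pi fun i : I j => LinearMap.proj (⟨j, i⟩ : J)),
      fun y => by
        simp only [LinearMap.sum_apply]
        rfl⟩
  have hS' : ∀ y, (S y : W) = ∑ p : Fin 4 × J, lam (σ' p.2) p.1 (y p.2) • lift (gJ p) := by
    intro y
    rw [hS, Submodule.coe_sum, Fintype.sum_prod_type_right, Fintype.sum_sigma]
    refine Finset.sum_congr rfl fun j _ => ?_
    rw [hinc, gad_Psi_apply, Fintype.sum_prod_type_right]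
  obtain ⟨B, hB⟩ : ∃ B : (J → 𝕜 × 𝕜) →ₗ[𝕜] (I k → 𝕜 × 𝕜), ∀ y, B y = co u k (e.symm (S y)) :=
    ⟨(co u k).comp (e.symm.toLinearEquiv.toLinearMap.comp S), fun y => rfl⟩
  have hSA : ∀ z, S (A z) = tr N (e (inc u k z)) := fun z => by
    rw [hS]
    simp only [hA, tr]
  have hδ : (0 : ℝ) < (1 / 2) ^ (2 * k + 2) := by positivity
  have key := hcore (I k) J (fun s => ν (cmb s (fun p : Fin 4 × I k => g k p.1 p.2)))
    (fun s => ν (cmb s gJ)) (gad_LM hν _) (gad_LM hν _)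
    (gad_sig k (u k)) ((1 / 2) ^ (2 * k + 2)) σ' (gad_sig_mem _ _).1 (gad_sig_mem _ _).2
    (fun j => gad_sig_mem _ _) hδ (pow_le_one₀ (by norm_num) (by norm_num))
    (fun j => gad_sig_sep fun h => by rw [← h]; exact huv) A B a b ha0 hb0
    (fun z => by
      have h1 := (hLE _ gJ hdJ (fun p => lam (σ' p.2) p.1 (A z p.2))).2
      rw [← hS', hSA, htr] at h1
      have h2 := hU2 N (e (inc u k z))
      have h4 := (e : fam P G u →L[𝕜] fam P G v).le_opNorm (inc u k z)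
      have h5 := (hLE _ _ (hd k) (fun p => lam (gad_sig k (u k)) p.1 (z p.2))).1
      have h6 : ‖((e (inc u k z) : fam P G v) : W)‖ ≤ ‖(e : fam P G u →L[𝕜] fam P G v)‖ *
          ν (cmb (fun p : Fin 4 × I k => ‖lam (gad_sig k (u k)) p.1 (z p.2)‖₊)
            (fun p => g k p.1 p.2)) :=
        h4.trans (mul_le_mul_of_nonneg_left h5 (norm_nonneg _))
      refine h1.trans ((mul_le_mul_of_nonneg_left
        (h2.trans (mul_le_mul_of_nonneg_left h6 hU0)) hU0).trans (le_of_eq ?_))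
      rw [ha]; ring)
    (fun y => by
      have h1 := (hLE _ _ (hd k) (fun p => lam (gad_sig k (u k)) p.1 (B y p.2))).2
      have h1' : ∑ p : Fin 4 × I k, lam (gad_sig k (u k)) p.1 (B y p.2) • lift (g k p.1 p.2) =
          P k (e.symm (S y)) := by rw [hB]; exact hco2 u k _
      rw [h1'] at h1
      have h2 := hU1 k (e.symm (S y))
      have h4 := (e.symm : fam P G v →L[𝕜] fam P G u).le_opNorm (S y)
      have h5 := (hLE _ gJ hdJ (fun p => lam (σ' p.2) p.1 (y p.2))).1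
      rw [← hS'] at h5
      have h6 : ‖((e.symm (S y) : fam P G u) : W)‖ ≤ ‖(e.symm : fam P G v →L[𝕜] fam P G u)‖ *
          ν (cmb (fun p : Fin 4 × J => ‖lam (σ' p.2) p.1 (y p.2)‖₊) gJ) :=
        h4.trans (mul_le_mul_of_nonneg_left h5 (norm_nonneg _))
      refine h1.trans ((mul_le_mul_of_nonneg_left
        (h2.trans (mul_le_mul_of_nonneg_left h6 hU0)) hU0).trans (le_of_eq ?_))
      rw [hb]; ring)
    (fun i => by rw [hB, hSA]; exact hN i)
    (C' * (k + 1) / (1 / 2) ^ (2 * k + 2)) (fun c => by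
      obtain ⟨l, t, h1, h2⟩ := htest k c
      refine ⟨l, t, h1, fun l' hl' => ?_⟩
      simp only [gad_cmb_row]
      exact h2 l' hl')
  rw [div_le_div_iff_of_pos_right hδ, mul_assoc, mul_le_mul_iff_right₀ hC'] at key
  have : (k0 : ℝ) ≤ k := by exact_mod_cast hk
  linarith

theorem ggad_family (P : ℕ → W →L[𝕜] W) (hP1 : ∀ i x, P i (P i x) = P i x)
    (hP2 : ∀ i j, i ≠ j → ∀ x, P i (P j x) = 0) (hs : ∀ x, HasSum (fun n => P n x) x)
    {U : ℝ} (hU : ∀ (σ : Finset ℕ) (x : W), ‖∑ n ∈ σ, P n x‖ ≤ U * ‖x‖)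
    {ν : V → ℝ} (hν : LN ν) (lift : V → W)
    (hl : ∀ (g : V) (n : ℕ), g n = 0 → P n (lift g) = 0) (hLE : LEq 𝕜 ν lift U)
    (hG : Gads ν) : Fam 𝕜 W := by
  obtain ⟨C', hC', hcore⟩ := coreB 𝕜
  obtain ⟨m, o, hm0, hm, ho⟩ := sel_nat (fun (k : ℕ) m m' (o : GadStr) =>
      Dj (fun p : Fin 4 × o.I => o.g p.1 p.2) ∧
      (∀ l i, Win m m' (o.g l i)) ∧ (∀ l i, 0 < ν (o.g l i)) ∧
      @gad_Test ν (C' * (k + 1) / (1 / 2) ^ (2 * k + 2)) o.I o.inst o.g) 0
    (fun k m => gad_nondeg hν (by positivity) (hG _ m))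
  let P' : ℕ → W →L[𝕜] W := fun k => ∑ n ∈ Finset.Ico (m k) (m (k + 1)), P n
  have hP' : ∀ k x, P' k x = ∑ n ∈ Finset.Ico (m k) (m (k + 1)), P n x := fun k x =>
    _root_.sum_apply _ _ _
  have hwin : ∀ k k' n, m k ≤ n → n < m (k + 1) → m k' ≤ n → n < m (k' + 1) → k = k' := by
    intro k k' n a b c d
    have h4 := hm.lt_iff_lt.1 (a.trans_lt d)
    have h5 := hm.lt_iff_lt.1 (c.trans_lt b)
    omega
  have hsum : ∀ N x, ∑ j ∈ Finset.range N, P' j x = ∑ n ∈ Finset.range (m N), P n x := by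
    intro N x
    induction N with
    | zero => simp [hm0]
    | succ N ih =>
      rw [Finset.sum_range_succ, ih, hP',
        Finset.sum_range_add_sum_Ico _ (hm.monotone (Nat.le_succ N))]
  have hU' : ∀ (σ : Finset ℕ) (x : W), ‖∑ n ∈ σ, P n x‖ ≤ |U| * ‖x‖ := fun σ x =>
    (hU σ x).trans (mul_le_mul_of_nonneg_right (le_abs_self U) (norm_nonneg _))
  let _ : ∀ k, Fintype (o k).I := fun k => (o k).inst
  refine ggad_main P' (fun i x => ?_) (fun i j hij x => ?_) (fun x => ?_) (abs_nonneg U)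
    (fun k x => ?_) (fun N x => ?_) hν lift ?_ C' hC' hcore
    (fun k => (o k).I) (fun k => (o k).g) (fun k => (ho k).1) ?_ (fun k => (ho k).2.2.1) ?_
    (fun k => (ho k).2.2.2)
  · rw [gad_PS P hP1 hP2, Finset.inter_self, hP']
  · rw [gad_PS P hP1 hP2]
    refine Finset.sum_eq_zero fun n hn => (hij ?_).elim
    simp only [Finset.mem_inter, Finset.mem_Ico] at hn
    exact hwin i j n hn.1.1 hn.1.2 hn.2.1 hn.2.2
  · simp only [hsum]
    exact (hs x).tendsto_sum_nat.comp hm.tendsto_atTop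
  · rw [hP']; exact hU' _ _
  · rw [hsum]; exact hU' _ _
  · intro Q _ g hg κ
    exact ⟨(hLE Q g hg κ).1, (hLE Q g hg κ).2.trans
      (mul_le_mul_of_nonneg_right (le_abs_self U) (norm_nonneg _))⟩
  · intro n k k' l l' i i' h1 h2
    have a := (ho k).2.1 l i n h1
    have b := (ho k').2.1 l' i' n h2
    exact hwin k k' n a.1 a.2 b.1 b.2
  · intro k l i
    rw [hP']
    refine HasSum.unique (hasSum_sum_of_ne_finset_zero fun n hn => hl _ n ?_) (hs _)
    by_contra h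
    exact hn (Finset.mem_Ico.2 ((ho k).2.1 l i n h))

theorem ggad_dense [CompleteSpace W] {e : ℕ → W} {U : ℝ} (h : SignU 𝕜 e U)
    (hd : DenseRange (Finsupp.linearCombination 𝕜 e)) (hG : Gads (nu 𝕜 e)) : Fam 𝕜 W := by
  classical
  set L := Finsupp.linearCombination 𝕜 e with hL
  have hL' : ∀ c : ℕ →₀ 𝕜, L c = ∑ n ∈ c.support, c n • e n := fun c =>
    Finsupp.linearCombination_apply _ _
  have hb : ∀ (σ : Finset ℕ) (c : ℕ →₀ 𝕜), ‖∑ n ∈ σ, c n • e n‖ ≤ (|U| + 1) * ‖L c‖ := by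
    intro σ c
    rw [hL', ← Finset.sum_subset (Finset.inter_subset_right (s₁ := c.support)) fun n h1 h2 => by
      rw [Finsupp.notMem_support_iff.1 fun h3 => h2 (Finset.mem_inter.2 ⟨h3, h1⟩), zero_smul]]
    exact h.subset _ _ _
  let p : ℕ → (ℕ →₀ 𝕜) →ₗ[𝕜] W := fun n => (Finsupp.lapply n).smulRight (e n)
  have hp : ∀ n c, ‖p n c‖ ≤ (|U| + 1) * ‖L c‖ := fun n c => by simpa [p] using hb {n} c
  let P : ℕ → W →L[𝕜] W := fun n => (p n).extendOfNorm L
  have hP : ∀ n c, P n (L c) = c n • e n := fun n c =>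
    LinearMap.extendOfNorm_eq hd ⟨_, hp n⟩ c
  have hPe : ∀ n m, P n (e m) = if n = m then e m else 0 := fun n m => by
    have := hP n (Finsupp.single m 1)
    rw [hL, Finsupp.linearCombination_single, one_smul] at this
    rw [this]
    split_ifs with h1
    · rw [h1, Finsupp.single_eq_same, one_smul]
    · rw [Finsupp.single_eq_of_ne h1, zero_smul]
  have hP1 : ∀ i x, P i (P i x) = P i x := fun i =>
    hd.induction (fun _ ⟨c, hc⟩ => by rw [← hc, hP, map_smul, hPe, if_pos rfl])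
      (isClosed_eq (by fun_prop) (by fun_prop))
  have hP2 : ∀ i j, i ≠ j → ∀ x, P i (P j x) = 0 := fun i j hij =>
    hd.induction (fun _ ⟨c, hc⟩ => by rw [← hc, hP, map_smul, hPe, if_neg hij, smul_zero])
      (isClosed_eq (by fun_prop) (by fun_prop))
  have hU : ∀ (σ : Finset ℕ) (x : W), ‖∑ n ∈ σ, P n x‖ ≤ (|U| + 1) * ‖x‖ := fun σ =>
    hd.induction (fun _ ⟨c, hc⟩ => by rw [← hc]; simpa only [hP] using hb σ c)
      (isClosed_le (by fun_prop) (by fun_prop))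
  have hs : ∀ x, HasSum (fun n => P n x) x := fun x => by
    refine Metric.tendsto_nhds.2 fun ε hε => ?_
    have h0 : 0 < |U| + 2 := by positivity
    obtain ⟨c, hc⟩ := hd.exists_dist_lt x (div_pos hε h0)
    refine (Filter.eventually_ge_atTop c.support).mono fun σ hσ => ?_
    have h1 : ∑ n ∈ σ, P n (L c) = L c := by
      simp only [hP]
      rw [hL', Finset.sum_subset hσ fun n _ h2 => by
        rw [Finsupp.notMem_support_iff.1 h2, zero_smul]]
    have h2 : ∑ n ∈ σ, P n x - x = ∑ n ∈ σ, P n (x - L c) - (x - L c) := by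
      simp only [map_sub, Finset.sum_sub_distrib, h1]; abel
    rw [dist_eq_norm, h2]
    rw [dist_eq_norm, lt_div_iff₀ h0] at hc
    have h3 := norm_sub_le (∑ n ∈ σ, P n (x - L c)) (x - L c)
    have h4 := hU σ (x - L c)
    linarith
  refine ggad_family P hP1 hP2 hs (U := 4 * (|U| + 1)) (fun σ x => (hU σ x).trans ?_)
    (ln_nu e) _ (fun g n hn => ?_) h.leq hG
  · have := mul_nonneg (abs_nonneg U) (norm_nonneg x)
    nlinarith [norm_nonneg x]
  · rw [P_tw hP2 (fun n => by rw [hPe, if_pos rfl]), hn]; simp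

theorem fam_of_gads [CompleteSpace W] {e : ℕ → W} {U : ℝ} (h : SignU 𝕜 e U)
    (hG : Gads (nu 𝕜 e)) : Fam 𝕜 W := by
  let S : Submodule 𝕜 W := (Submodule.span 𝕜 (Set.range e)).topologicalClosure
  have hS : IsClosed (S : Set W) := Submodule.isClosed_topologicalClosure _
  have : CompleteSpace S := hS.completeSpace_coe
  let e' : ℕ → S := fun n =>
    ⟨e n, Submodule.le_topologicalClosure _ (Submodule.subset_span ⟨n, rfl⟩)⟩
  have h1 : SignU 𝕜 e' U := fun σ c ε => by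
    have := h σ c ε
    simpa only [← Submodule.norm_coe, Submodule.coe_sum, Submodule.coe_smul, Units.smul_def,
      Submodule.coe_smul_of_tower] using this
  have h2 : nu 𝕜 e' = nu 𝕜 e := by
    funext g
    unfold nu
    congr 1
    funext θ
    rw [tw_eq e' _ g subset_rfl, tw_eq e _ g subset_rfl, ← Submodule.norm_coe, Submodule.coe_sum]
    rfl
  have h3 : DenseRange (Finsupp.linearCombination 𝕜 e') := by
    intro x
    rw [Metric.mem_closure_iff]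
    intro ε hε
    obtain ⟨y, hy, hxy⟩ := Metric.mem_closure_iff.1 x.2 ε hε
    obtain ⟨c, rfl⟩ := Finsupp.mem_span_range_iff_exists_finsupp.1 hy
    refine ⟨_, ⟨c, rfl⟩, ?_⟩
    rw [Subtype.dist_eq, Finsupp.linearCombination_apply, Finsupp.sum, Submodule.coe_sum]
    exact hxy
  exact (ggad_dense h1 h3 (h2 ▸ hG)).map S.subtypeL one_pos fun x => by rw [one_mul]; rfl

end Pool.Agent.Lib.MP_435322_an.UD
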