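import Pool.Agent.Lib.MP_435322_an.GUp
import Pool.Agent.Lib.MP_435322_an.GDown
import Pool.Agent.Lib.MP_435322_an.GLp

/-! Gadgets or a classical sequence. -/

namespace Pool.Agent.Lib.MP_435322_an.UD

open Finset
open scoped NNReal

theorem gwd_cmb_extend {I J : Type*} [Fintype I] [Fintype J] {e : I → J}
    (he : Function.Injective e) (t : I → ℝ≥0) (y : J → V) :
    cmb (Function.extend e t 0) y = cmb t fun i => y (e i) := by
  unfold cmb
  refine (Fintype.sum_of_injective e he _ _ (fun j hj => ?_) fun i => ?_).symm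
  · rw [Function.extend_apply' _ _ _ hj, Pi.zero_apply, zero_smul]
  · rw [he.extend_apply]

theorem gwd_up_comp {Γ : Gauge} {ν : V → ℝ} {C : ℝ} {I J : Type*} [Fintype I] [Fintype J]
    {y : J → V} (hy : GUp Γ ν C y) {e : I → J} (he : Function.Injective e) :
    GUp Γ ν C fun i => y (e i) := fun t => by
  rw [← gwd_cmb_extend he, ← Γ.sum_extend he]
  exact hy _

theorem gwd_lo_comp {Γ : Gauge} {ν : V → ℝ} {C : ℝ} {I J : Type*} [Fintype I] [Fintype J]
    {y : J → V} (hy : GLo Γ ν C y) {e : I → J} (he : Function.Injective e) :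
    GLo Γ ν C fun i => y (e i) := fun t => by
  rw [← gwd_cmb_extend he, ← Γ.sum_extend he]
  exact hy _

theorem gwd_up_mono {Γ : Gauge} {ν : V → ℝ} {C C' : ℝ} {I : Type*} [Fintype I]
    {y : I → V} (hy : GUp Γ ν C y) (hC : C ≤ C') : GUp Γ ν C' y := fun t =>
  (hy t).trans (mul_le_mul_of_nonneg_right hC (NNReal.coe_nonneg _))

theorem gwd_lo_mono {Γ : Gauge} {ν : V → ℝ} (h : LN ν) {C C' : ℝ} {I : Type*} [Fintype I]
    {y : I → V} (hy : GLo Γ ν C y) (hC : C ≤ C') : GLo Γ ν C' y := fun t =>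
  (hy t).trans (mul_le_mul_of_nonneg_right hC (h.nonneg _))

theorem gwd_cmb_ind {I : Type*} [Fintype I] [DecidableEq I] (T : Finset I) (y : I → V) :
    cmb (fun i => if i ∈ T then 1 else 0) y = ∑ i ∈ T, y i := by
  unfold cmb
  simp only [ite_smul, one_smul, zero_smul]
  rw [Finset.sum_ite_mem, Finset.univ_inter]

theorem gwd_sum_ind (Γ : Gauge) {I : Type*} [Fintype I] [DecidableEq I] (T : Finset I) :
    Γ.sum univ (fun i => if i ∈ T then 1 else 0) = Γ.gam T.card := by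
  rw [← Γ.sum_subset (Finset.subset_univ T) fun i _ hi => if_neg hi,
    Γ.sum_congr (t' := fun _ => 1) fun i hi => if_pos hi, Γ.sum_const, one_mul]

theorem gwd_up_set {Γ : Gauge} {ν : V → ℝ} {C : ℝ} {I : Type*} [Fintype I] {y : I → V}
    (hy : GUp Γ ν C y) (T : Finset I) : ν (∑ i ∈ T, y i) ≤ C * Γ.gam T.card := by
  classical
  rw [← gwd_cmb_ind, ← gwd_sum_ind]
  exact hy _

theorem gwd_lo_set {Γ : Gauge} {ν : V → ℝ} {C : ℝ} {I : Type*} [Fintype I] {y : I → V}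
    (hy : GLo Γ ν C y) (T : Finset I) : (Γ.gam T.card : ℝ) ≤ C * ν (∑ i ∈ T, y i) := by
  classical
  rw [← gwd_cmb_ind, ← gwd_sum_ind]
  exact hy _

theorem WD.smul {Γ : Gauge} {ν : V → ℝ} (h : LN ν) {C : ℝ} {M : ℕ} {x : V} (hx : WD Γ ν C M x)
    (c : ℝ≥0) : WD Γ ν C M (c • x) := by
  intro I _ b hb hM
  obtain ⟨z, h1, h2, h3⟩ := hx I b hb hM
  refine ⟨fun i => c • z i, h1.of_supp fun p n hp => smul_ne_zero_V hp, ?_, fun B => ?_⟩
  · rw [← Finset.smul_sum]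
    exact smul_le_smul_V' c h2
  · obtain ⟨h4, h5⟩ := h3 B
    rw [← Finset.smul_sum, h.smul, h.smul]
    have hc : (0 : ℝ) ≤ c := c.2
    constructor
    · have := mul_le_mul_of_nonneg_left h4 hc
      linarith
    · have := mul_le_mul_of_nonneg_left h5 hc
      linarith

theorem wd_of_eq {Γ : Gauge} (hθ : 1 < Γ.th) (M : ℕ) : ∃ N : ℕ, 0 < N ∧
    ∀ (ν : V → ℝ), LN ν → ∀ (C : ℝ) (y : Fin N → V), Dj y → GUp Γ ν C y → GLo Γ ν C y →
      WD Γ ν (16 * C ^ 2) M (∑ j, y j) := by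
  classical
  obtain ⟨S, hS⟩ := pow_unbounded_of_one_lt (M : ℝ≥0) hθ
  refine ⟨4 ^ (S + 1), by positivity, fun ν h C y hd hu hl I _ b hb hM => ?_⟩
  have hs : ∀ i, ∃ s : ℕ, Γ.th ^ s ≤ Γ.th ^ S * b i ∧ Γ.th ^ S * b i < Γ.th ^ (s + 1) := fun i =>
    exists_nat_pow_near ((hM i).trans (mul_le_mul_left hS.le _)) hθ
  choose s hs1 hs2 using hs
  have hgam : ∀ B : Finset I, Γ.gam (∑ i ∈ B, 4 ^ s i) = Γ.sum B fun i => Γ.th ^ s i :=
    fun B => by
    rw [Γ.gam_sum]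
    exact Γ.sum_congr fun i _ => Γ.gam_pow _
  have hG1 : ∀ B : Finset I, Γ.gam (∑ i ∈ B, 4 ^ s i) ≤ Γ.th ^ S * Γ.sum B b := fun B => by
    rw [hgam, ← Γ.sum_mul]
    exact Γ.sum_mono fun i _ => hs1 i
  have hG2 : ∀ B : Finset I, Γ.th ^ S * Γ.sum B b ≤ Γ.th * Γ.gam (∑ i ∈ B, 4 ^ s i) :=
    fun B => by
    rw [hgam, ← Γ.sum_mul, ← Γ.sum_mul]
    exact Γ.sum_mono fun i _ => (hs2 i).le.trans (le_of_eq (pow_succ' _ _))
  have hcard : Fintype.card (Σ i, Fin (4 ^ s i)) ≤ Fintype.card (Fin (4 ^ (S + 1))) := by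
    rw [Fintype.card_sigma, Fintype.card_fin]
    simp only [Fintype.card_fin]
    by_contra hn
    have h1 := (Γ.gam_mono (not_le.1 hn).le).trans (hG1 univ)
    rw [hb, mul_one, Γ.gam_pow] at h1
    exact absurd h1 (not_le.2 (pow_lt_pow_right₀ hθ (Nat.lt_succ_self S)))
  obtain ⟨e⟩ := Function.Embedding.nonempty_of_card_le hcard
  have hsum : ∀ B : Finset I,
      ∑ j ∈ (B.sigma fun i => (Finset.univ : Finset (Fin (4 ^ s i)))).map e, y j =
        ∑ i ∈ B, ∑ j : Fin (4 ^ s i), y (e ⟨i, j⟩) := fun B => by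
    rw [Finset.sum_map, Finset.sum_sigma]
  have hcB : ∀ B : Finset I,
      ((B.sigma fun i => (Finset.univ : Finset (Fin (4 ^ s i)))).map e).card =
        ∑ i ∈ B, 4 ^ s i := fun B => by
    rw [Finset.card_map, Finset.card_sigma]
    simp
  refine ⟨fun i => ∑ j : Fin (4 ^ s i), y (e ⟨i, j⟩), ?_, ?_, fun B => ?_⟩
  · intro m p q hp hq
    obtain ⟨j, -, hj⟩ := sum_ne_zero_V hp
    obtain ⟨j', -, hj'⟩ := sum_ne_zero_V hq
    have := e.injective (hd m _ _ hj hj')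
    exact congrArg Sigma.fst this
  · rw [← hsum]
    exact Finset.sum_le_sum_of_subset (Finset.subset_univ _)
  · have a1 := gwd_up_set hu ((B.sigma fun i => (Finset.univ : Finset (Fin (4 ^ s i)))).map e)
    have a2 := gwd_lo_set hl ((B.sigma fun i => (Finset.univ : Finset (Fin (4 ^ s i)))).map e)
    rw [hsum, hcB] at a1 a2
    have a3 := gwd_up_set hu univ
    have a4 := gwd_lo_set hl univ
    rw [Finset.card_univ, Fintype.card_fin, Γ.gam_pow] at a3 a4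
    have b1 : ((Γ.gam (∑ i ∈ B, 4 ^ s i) : ℝ≥0) : ℝ) ≤ (Γ.th : ℝ) ^ S * (Γ.sum B b : ℝ≥0) := by
      exact_mod_cast hG1 B
    have b2 : (Γ.th : ℝ) ^ S * (Γ.sum B b : ℝ≥0) ≤
        (Γ.th : ℝ) * ((Γ.gam (∑ i ∈ B, 4 ^ s i) : ℝ≥0) : ℝ) := by
      exact_mod_cast hG2 B
    push_cast at a3 a4
    have t1 : (1 : ℝ) < Γ.th := by exact_mod_cast hθ
    have t4 : (Γ.th : ℝ) ≤ 4 := by exact_mod_cast Γ.th_le
    set θ : ℝ := ((Γ.th : ℝ≥0) : ℝ)
    set G : ℝ := ((Γ.gam (∑ i ∈ B, 4 ^ s i) : ℝ≥0) : ℝ)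
    set β : ℝ := ((Γ.sum B b : ℝ≥0) : ℝ)
    set X := ν (∑ j, y j)
    set Z := ν (∑ i ∈ B, ∑ j : Fin (4 ^ s i), y (e ⟨i, j⟩))
    have hX : 0 ≤ X := h.nonneg _
    have hZ : 0 ≤ Z := h.nonneg _
    have hβ : 0 ≤ β := NNReal.coe_nonneg _
    have hG : 0 ≤ G := NNReal.coe_nonneg _
    have hP : 0 < θ ^ S := by positivity
    have hC : 0 ≤ C := by
      by_contra hn
      have h1 : C * X ≤ 0 := mul_nonpos_of_nonpos_of_nonneg (not_le.1 hn).le hX
      have h2 : 0 < θ ^ (S + 1) := by positivity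
      linarith
    rw [pow_succ] at a3 a4
    constructor
    · calc β * X ≤ β * (C * (θ ^ S * θ)) := mul_le_mul_of_nonneg_left a3 hβ
        _ = C * θ * (θ ^ S * β) := by ring
        _ ≤ C * θ * (θ * G) := mul_le_mul_of_nonneg_left b2 (by positivity)
        _ = C * θ ^ 2 * G := by ring
        _ ≤ C * 4 ^ 2 * (C * Z) := by gcongr
        _ = 16 * C ^ 2 * Z := by ring
    · calc Z ≤ C * G := a1
        _ ≤ C * (θ ^ S * β) := mul_le_mul_of_nonneg_left b1 hC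
        _ = C * β * (θ ^ S * 1) := by ring
        _ ≤ C * β * (θ ^ S * θ) := by gcongr
        _ ≤ C * β * (C * X) := mul_le_mul_of_nonneg_left a4 (by positivity)
        _ = 1 * C ^ 2 * (β * X) := by ring
        _ ≤ 16 * C ^ 2 * (β * X) := by gcongr; norm_num

/-- normalised block vectors -/
theorem gwd_supply {Γ : Gauge} {ν : V → ℝ} (h : LN ν) {C : ℝ} (hC : 1 ≤ C)
    (hE : ∀ n m, ∃ y : Fin n → V, Dj y ∧ (∀ i, Tl m (y i)) ∧ GUp Γ ν C y ∧ GLo Γ ν C y)
    (n M m : ℕ) : ∃ x : Fin n → V, Dj x ∧ (∀ a, Tl m (x a)) ∧ (∀ a, ν (x a) = 1) ∧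
      GUp Γ ν (C ^ 2) x ∧ (1 < Γ.th → ∀ a, WD Γ ν (16 * C ^ 2) M (x a)) := by
  classical
  have hN : ∃ N : ℕ, 0 < N ∧ (1 < Γ.th → ∀ y : Fin N → V, Dj y → GUp Γ ν C y → GLo Γ ν C y →
      WD Γ ν (16 * C ^ 2) M (∑ j, y j)) := by
    by_cases hθ : 1 < Γ.th
    · obtain ⟨N, h1, h2⟩ := wd_of_eq hθ M
      exact ⟨N, h1, fun _ => h2 ν h C⟩
    · exact ⟨1, one_pos, fun h1 => absurd h1 hθ⟩
  obtain ⟨N, hN0, hN⟩ := hN
  obtain ⟨y, y1, y2, y3, y4⟩ := hE (n * N) m
  let Y : Fin n × Fin N → V := fun p => y (finProdFinEquiv p)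
  have Y1 : Dj Y := y1.comp finProdFinEquiv.injective
  have Y3 : GUp Γ ν C Y := gwd_up_comp y3 finProdFinEquiv.injective
  have Y4 : GLo Γ ν C Y := gwd_lo_comp y4 finProdFinEquiv.injective
  have hinj : ∀ a : Fin n, Function.Injective fun j : Fin N => (a, j) :=
    fun a j j' hj => congrArg Prod.snd hj
  let w : Fin n → ℝ≥0 := fun a => ⟨ν (∑ j, Y (a, j)), h.nonneg _⟩
  have hw : ∀ a, (Γ.gam N : ℝ) ≤ C * w a := fun a => by
    have := gwd_lo_set (gwd_lo_comp Y4 (hinj a)) univ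
    rwa [Finset.card_univ, Fintype.card_fin] at this
  have hg : (1 : ℝ) ≤ Γ.gam N := by exact_mod_cast Γ.one_le_gam hN0
  have hw0 : ∀ a, (0 : ℝ) < w a := fun a => by
    rcases (NNReal.coe_nonneg (w a)).eq_or_lt with h0 | h0
    · have := hw a
      rw [← h0] at this
      linarith
    · exact h0
  refine ⟨fun a => (w a)⁻¹ • ∑ j, Y (a, j), ?_, fun a => ?_, fun a => ?_, fun t => ?_,
    fun hθ a => ?_⟩
  · intro k p q hp hq
    obtain ⟨j, -, hj⟩ := sum_ne_zero_V (smul_ne_zero_V hp)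
    obtain ⟨j', -, hj'⟩ := sum_ne_zero_V (smul_ne_zero_V hq)
    exact congrArg Prod.fst (Y1 k _ _ hj hj')
  · exact (Tl.sum fun j _ => y2 _).smul _
  · rw [h.smul, NNReal.coe_inv]
    exact inv_mul_cancel₀ (hw0 a).ne'
  · have e1 : (cmb t fun a => (w a)⁻¹ • ∑ j, Y (a, j)) =
        cmb (fun p : Fin n × Fin N => t p.1 * (w p.1)⁻¹) Y := by
      unfold cmb
      rw [Fintype.sum_prod_type]
      refine Finset.sum_congr rfl fun a _ => ?_
      rw [smul_smul, Finset.smul_sum]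
    rw [e1]
    refine (Y3 _).trans ?_
    let C' : ℝ≥0 := ⟨C, by linarith⟩
    have e2 : Γ.sum univ (fun p : Fin n × Fin N => t p.1 * (w p.1)⁻¹) ≤ C' * Γ.sum univ t := by
      rw [Γ.sum_prod, ← Γ.sum_mul]
      refine Γ.sum_mono fun a _ => ?_
      dsimp only
      rw [Γ.sum_const, Finset.card_univ, Fintype.card_fin, mul_assoc, mul_comm C']
      refine mul_le_mul_right ?_ _
      rw [inv_mul_le_iff₀ (by exact_mod_cast hw0 a), mul_comm]
      exact_mod_cast hw a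
    have e3 : ((Γ.sum univ (fun p : Fin n × Fin N => t p.1 * (w p.1)⁻¹) : ℝ≥0) : ℝ) ≤
        C * (Γ.sum univ t : ℝ≥0) := by exact_mod_cast e2
    calc _ ≤ C * (C * (Γ.sum univ t : ℝ≥0)) := mul_le_mul_of_nonneg_left e3 (by linarith)
      _ = _ := by ring
  · exact (hN hθ _ (Y1.comp (hinj a)) (gwd_up_comp Y3 (hinj a))
      (gwd_lo_comp Y4 (hinj a))).smul h _

theorem gseq_of_geq {Γ : Gauge} {ν : V → ℝ} (h : LN ν) (hG : ¬ Gads ν) (hE : GEq Γ ν) :
    GSeq Γ ν := by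
  classical
  obtain ⟨C0, hE0⟩ := hE
  have hC : 1 ≤ max C0 1 := le_max_right _ _
  have hE : ∀ n m, ∃ y : Fin n → V, Dj y ∧ (∀ i, Tl m (y i)) ∧ GUp Γ ν (max C0 1) y ∧
      GLo Γ ν (max C0 1) y := fun n m => by
    obtain ⟨y, y1, y2, y3, y4⟩ := hE0 n m
    exact ⟨y, y1, y2, gwd_up_mono y3 (le_max_left _ _), gwd_lo_mono h y4 (le_max_left _ _)⟩
  set C := max C0 1
  have hN : GNormUp Γ ν := ⟨C ^ 2, fun n m => by
    obtain ⟨x, x1, x2, x3, x4, -⟩ := gwd_supply h hC hE n 0 m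
    exact ⟨x, x1, x2, fun i => (x3 i).ge, x4⟩⟩
  obtain ⟨H, Lose, hL0, hLH, hL⟩ := gub_of_not_gads h hN hG (C ^ 2)
  obtain ⟨st, x, hs0, hInv, hQ⟩ := dc (σ := Set (V × ℝ≥0) × ℕ) (α := V) (fun s => Lose s.1)
    (fun j s s' x => s'.1 = extG Γ s.1 (fun _ : Fin 1 => x) ∧ s.2 < s'.2 ∧ Win s.2 s'.2 x ∧
      Tl j x ∧ ν x = 1 ∧ (1 < Γ.th → WD Γ ν (16 * C ^ 2) (j + 1) x)) ({(0, 0)}, 0) hL0 (by
      rintro j ⟨D, m⟩ hD
      obtain ⟨n, m', hn⟩ := hL D hD 1
      obtain ⟨x, x1, x2, x3, x4, x5⟩ := gwd_supply h hC hE n (j + 1) (max m (max m' j))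
      obtain ⟨s, hs⟩ := hn (fun _ => x)
        (fun k p q hp hq => Prod.ext (Subsingleton.elim _ _) (x1 k _ _ hp hq))
        (fun _ i => (x2 i).mono ((le_max_left _ _).trans (le_max_right _ _))) fun _ => x4
      obtain ⟨b, hb, hb'⟩ := exists_win x2
      have e1 : (fun a : Fin 1 => x (s a)) = fun _ => x (s 0) :=
        funext fun a => by rw [Subsingleton.elim a 0]
      refine ⟨x (s 0), (extG Γ D fun _ : Fin 1 => x (s 0), b), ?_, rfl,
        (le_max_left _ _).trans_lt hb, (hb' _).mono (le_max_left _ _) le_rfl,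
        (x2 _).mono ((le_max_right _ _).trans (le_max_right _ _)), x3 _, fun hθ => x5 hθ _⟩
      rw [← e1]
      exact hs)
  have hm : StrictMono fun j => (st j).2 := strictMono_nat_of_lt_succ fun j => (hQ j).2.1
  have hd : Dj x := fun n p q hp hq => by
    have a1 := (hQ p).2.2.1 n hp
    have a2 := (hQ q).2.2.1 n hq
    have h4 := hm.lt_iff_lt.1 (a1.1.trans_lt a2.2)
    have h5 := hm.lt_iff_lt.1 (a2.1.trans_lt a1.2)
    omega
  have hmem : ∀ (t : ℕ → ℝ≥0) (K : ℕ),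
      (∑ k ∈ range K, t k • x k, Γ.sum (range K) t) ∈ (st K).1 := fun t K => by
    induction K with
    | zero =>
      rw [hs0, Finset.range_zero, Finset.sum_empty, Γ.sum_empty]
      exact Set.mem_singleton _
    | succ K ih =>
      rw [(hQ K).1]
      refine ⟨_, ih, fun _ => t K, Prod.ext ?_ ?_⟩
      · rw [Finset.sum_range_succ]
        simp [cmb]
      · dsimp only
        rw [Finset.range_add_one, Γ.sum_insert Finset.notMem_range_self, Γ.comm,
          Finset.univ_unique, Γ.sum_singleton]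
  have hup : ∀ (σ : Finset ℕ) (t : ℕ → ℝ≥0), ν (∑ k ∈ σ, t k • x k) ≤ H * Γ.sum σ t :=
    fun σ t => by
    have hσ : σ ⊆ range (σ.sup id + 1) := fun k hk =>
      Finset.mem_range.2 (Nat.lt_succ_of_le (Finset.le_sup (f := id) hk))
    have := hLH _ (hInv _) _ (hmem (fun k => if k ∈ σ then t k else 0) (σ.sup id + 1))
    dsimp only at this
    rw [← Finset.sum_subset hσ fun k _ hk => by rw [if_neg hk, zero_smul],
      ← Γ.sum_subset hσ fun k _ hk => if_neg hk,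
      Finset.sum_congr rfl (g := fun k => t k • x k) fun k hk => by rw [if_pos hk],
      Γ.sum_congr (t' := t) fun k hk => if_pos hk] at this
    exact this
  rcases Γ.one_le_th.eq_or_lt with hθ | hθ
  · refine ⟨max H 1, x, hd, fun σ t => ⟨(hup σ t).trans
      (mul_le_mul_of_nonneg_right (le_max_left _ _) (NNReal.coe_nonneg _)), ?_⟩⟩
    refine le_trans ?_ (mul_le_mul_of_nonneg_right (le_max_right _ _) (h.nonneg _))
    rw [one_mul]
    rcases σ.eq_empty_or_nonempty with rfl | hσ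
    · rw [Γ.sum_empty]
      exact h.nonneg _
    · obtain ⟨k0, hk0, hmax⟩ := σ.exists_max_image t hσ
      have e1 : Γ.gam σ.card ≤ 1 := by
        refine (Γ.gam_mono (Nat.lt_pow_self (show 1 < 4 by norm_num)).le).trans ?_
        rw [Γ.gam_pow, ← hθ, one_pow]
      have e2 : Γ.sum σ t ≤ t k0 := by
        refine (Γ.sum_mono hmax).trans ?_
        rw [Γ.sum_const]
        exact mul_le_of_le_one_right zero_le e1
      have e3 := h.le_sum (fun k => t k • x k) hk0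
      rw [h.smul, (hQ k0).2.2.2.2.1, mul_one] at e3
      exact (NNReal.coe_le_coe.2 e2).trans e3
  · have hf : ¬ ∀ κ : ℕ → ℕ, StrictMono κ → ∀ C' : ℝ, ∃ (σ : Finset ℕ) (t : ℕ → ℝ≥0),
        C' * ν (∑ k ∈ σ, t k • x (κ k)) < Γ.sum σ t := fun hf =>
      hG (gads_of_seq (Γ := Γ) h hd (fun k => (hQ k).2.2.2.1)
        (fun k => (hQ k).2.2.2.2.1) (fun k => (hQ k).2.2.2.2.2 hθ) hf)
    push Not at hf
    obtain ⟨κ, hκ, C', hlo⟩ := hf
    refine ⟨max H C', fun k => x (κ k), hd.comp hκ.injective, fun σ t => ⟨?_, (hlo σ t).trans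
      (mul_le_mul_of_nonneg_right (le_max_right _ _) (h.nonneg _))⟩⟩
    have h1 := hup (σ.map ⟨κ, hκ.injective⟩) (Function.extend κ t 0)
    rw [Finset.sum_map, Γ.sum_map] at h1
    simp only [Function.Embedding.coeFn_mk, hκ.injective.extend_apply] at h1
    exact h1.trans (mul_le_mul_of_nonneg_right (le_max_left _ _) (NNReal.coe_nonneg _))

theorem gads_of_findown {ν : V → ℝ} (h : LN ν) (hF : FinDown ν) : Gads ν := by
  classical
  obtain ⟨Γ, hθ, hΓ⟩ := exists_gauge_two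
  obtain ⟨C, hF⟩ := hF
  have hA : 1 ≤ max C 1 := le_max_right _ _
  have hCA : C ≤ (max C 1) ^ 2 := (le_max_left C 1).trans (le_self_pow₀ hA two_ne_zero)
  set A := max C 1
  have hA0 : 0 < A := by linarith
  refine gads_of_fin (Γ := Γ) h (C := 16 * A ^ 2) fun δ hδ => ?_
  obtain ⟨d, w, hw⟩ := hF (δ ^ 2 / (2 * A ^ 2)) (by positivity)
  refine ⟨d, fun M m => ?_⟩
  obtain ⟨N, hN0, hN⟩ := wd_of_eq (Γ := Γ) (by rw [hθ]; norm_num) M
  obtain ⟨y, y1, y2, y3, y4, y5⟩ := hw N m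
  have hu : ∀ i, GUp Γ ν A fun c => y c i := fun i t => by
    refine (pow_le_pow_iff_left₀ (h.nonneg _) (by positivity) two_ne_zero).1 ?_
    rw [mul_pow, hΓ]
    exact (y3 i t).1.trans (mul_le_mul_of_nonneg_right hCA (ssq_nonneg t))
  have hl : ∀ i, GLo Γ ν A fun c => y c i := fun i t => by
    refine (pow_le_pow_iff_left₀ (NNReal.coe_nonneg _)
      (mul_nonneg hA0.le (h.nonneg _)) two_ne_zero).1 ?_
    rw [mul_pow, hΓ]
    exact (y3 i t).2.trans (mul_le_mul_of_nonneg_right hCA (sq_nonneg _))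
  have hinj : ∀ i : Fin d, Function.Injective fun c : Fin N => (c, i) :=
    fun i c c' hc => congrArg Prod.fst hc
  let u : Fin d → ℝ≥0 := fun i => ⟨ν (∑ c, y c i), h.nonneg _⟩
  have hu1 : ∀ i, (N : ℝ) ≤ A ^ 2 * (u i : ℝ) ^ 2 := fun i => by
    have e1 := (y3 i fun _ => 1).2.trans (mul_le_mul_of_nonneg_right hCA (sq_nonneg _))
    have e2 : (cmb (fun _ => 1) fun c => y c i) = ∑ c, y c i := by simp [cmb]
    have e3 : ssq (fun _ : Fin N => 1) = N := by simp [ssq]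
    rwa [e2, e3] at e1
  have hNr : (0 : ℝ) < N := by exact_mod_cast hN0
  have hu0 : ∀ i, (0 : ℝ) < u i := fun i => by
    rcases (NNReal.coe_nonneg (u i)).eq_or_lt with h0 | h0
    · have := hu1 i
      rw [← h0] at this
      linarith
    · exact h0
  refine ⟨fun i => (u i)⁻¹ • ∑ c, y c i, fun i => w i * u i, ?_, fun i => ?_, fun i => ?_,
    fun i => ?_, ?_⟩
  · intro k p q hp hq
    obtain ⟨j, -, hj⟩ := sum_ne_zero_V (smul_ne_zero_V hp)
    obtain ⟨j', -, hj'⟩ := sum_ne_zero_V (smul_ne_zero_V hq)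
    exact congrArg Prod.snd (y1 k (j, p) (j', q) hj hj')
  · exact (Tl.sum fun c _ => y2 c i).smul _
  · rw [h.smul, NNReal.coe_inv]
    exact inv_mul_cancel₀ (hu0 i).ne'
  · exact (hN ν h A _ (y1.comp (hinj i)) (hu i) (hl i)).smul h _
  · have e1 : (cmb (fun i => w i * u i) fun i => (u i)⁻¹ • ∑ c, y c i) = ∑ c, cmb w (y c) := by
      unfold cmb
      rw [Finset.sum_comm]
      refine Finset.sum_congr rfl fun i _ => ?_
      have : u i ≠ 0 := by exact_mod_cast (hu0 i).ne'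
      rw [smul_smul, mul_assoc, mul_inv_cancel₀ this, mul_one, Finset.smul_sum]
    rw [e1]
    refine lt_of_pow_lt_pow_left₀ 2 (by positivity) (y5.trans_lt ?_)
    rw [mul_pow, hΓ]
    have e2 : N * ssq w ≤ A ^ 2 * ssq fun i => w i * u i := by
      unfold ssq
      rw [Finset.mul_sum, Finset.mul_sum]
      refine Finset.sum_le_sum fun i _ => ?_
      push_cast
      have := mul_le_mul_of_nonneg_right (hu1 i) (sq_nonneg (w i : ℝ))
      linarith [this]
    have e3 : 0 < N * ssq w := by positivity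
    calc δ ^ 2 / (2 * A ^ 2) * N * ssq w = δ ^ 2 / A ^ 2 * (N * ssq w / 2) := by
          field_simp
      _ < δ ^ 2 / A ^ 2 * (N * ssq w) := mul_lt_mul_of_pos_left (by linarith) (by positivity)
      _ ≤ δ ^ 2 / A ^ 2 * (A ^ 2 * ssq fun i => w i * u i) :=
          mul_le_mul_of_nonneg_left e2 (by positivity)
      _ = _ := by field_simp

end Pool.Agent.Lib.MP_435322_an.UD
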