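import Pool.Agent.Lib.MP_435322_an.UFam

/-! Subspaces forming an l2-sum. -/

namespace Pool.Agent.Lib.MP_435322_an.UD

open Finset Filter Pool.Agent.Lib.MP_435322_an

universe u w

theorem ul2_cot_scale {E : Type u} [NormedAddCommGroup E] (h : ∀ q : ℝ, 2 < q → HasCotype E q)
    (r : ℕ) : ∃ C : ℝ, 0 < C ∧ ∀ (k : ℕ) (y : Fin (r ^ k) → E),
      (∀ j, 1 / 2 ≤ ‖y j‖ ^ 2) → (r : ℝ) ^ k ≤ C * (3 / 2) ^ k * rad (nq E) y := by
  have hr1 : (0 : ℝ) < r + 1 := by positivity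
  obtain ⟨s, hs0, hs1, hs2⟩ : ∃ s : ℝ, 0 < s ∧ s < 1 ∧ ((r : ℝ) + 1) ^ s ≤ 3 / 2 := by
    have hc : ContinuousAt (fun s : ℝ => ((r : ℝ) + 1) ^ s) 0 :=
      (Real.continuous_const_rpow hr1.ne').continuousAt
    have h1 : ∀ᶠ s in nhds (0 : ℝ), ((r : ℝ) + 1) ^ s < 3 / 2 :=
      hc.eventually (gt_mem_nhds (by simp only [Real.rpow_zero]; norm_num))
    have h2 : ∀ᶠ s in nhds (0 : ℝ), s < 1 := gt_mem_nhds one_pos
    obtain ⟨s, ⟨h3, h4⟩, h5⟩ := (((h1.and h2).filter_mono nhdsWithin_le_nhds).and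
      (self_mem_nhdsWithin (s := Set.Ioi (0 : ℝ)))).exists
    exact ⟨s, h5, h4, h3.le⟩
  set q : ℝ := 2 / (1 - s) with hq
  have hs3 : 0 < 1 - s := by linarith
  have hq2 : 2 < q := by rw [hq, lt_div_iff₀ hs3]; linarith
  have hq0 : 0 < q := by linarith
  obtain ⟨C, hC⟩ := h q hq2
  refine ⟨2 * C ^ 2 + 1, by positivity, fun k y hy => ?_⟩
  have h1 := hC _ y
  rw [rad_eq] at h1
  have hρ : 0 ≤ rad (nq E) y := rad_nonneg nq_nonneg y
  set ρ := rad (nq E) y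
  set n : ℝ := (r : ℝ) ^ k with hn
  have hn0 : 0 ≤ n := by positivity
  have hβ : ∀ j, √(1 / 2) ≤ ‖y j‖ := fun j => Real.sqrt_le_iff.2 ⟨norm_nonneg _, hy j⟩
  have h2 : n * √(1 / 2) ^ q ≤ ∑ j, ‖y j‖ ^ q := by
    have := Finset.card_nsmul_le_sum Finset.univ (fun j => ‖y j‖ ^ q) (√(1 / 2) ^ q)
      (fun j _ => Real.rpow_le_rpow (Real.sqrt_nonneg _) (hβ j) hq0.le)
    rw [Finset.card_univ, Fintype.card_fin, nsmul_eq_mul, Nat.cast_pow] at this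
    exact this
  have h3 : n ^ (1 / q) * √(1 / 2) ≤ C * √ρ := by
    refine le_trans ?_ h1
    refine le_trans (le_of_eq ?_) (Real.rpow_le_rpow (by positivity) h2 (by positivity))
    rw [Real.mul_rpow hn0 (by positivity), one_div q, Real.rpow_rpow_inv (Real.sqrt_nonneg _) hq0.ne']
  have h4 : (n ^ (1 / q)) ^ 2 * (1 / 2) ≤ C ^ 2 * ρ := by
    have := pow_le_pow_left₀ (by positivity) h3 2
    rwa [mul_pow, mul_pow, Real.sq_sqrt hρ, Real.sq_sqrt (by norm_num)] at this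
  have h5 : n = (n ^ (1 / q)) ^ 2 * n ^ s := by
    rw [← Real.rpow_natCast, ← Real.rpow_mul hn0, ← Real.rpow_add' hn0]
    · have : 1 / q * ((2 : ℕ) : ℝ) + s = 1 := by rw [hq]; push_cast; field_simp; ring
      rw [this, Real.rpow_one]
    · have : 0 < 1 / q * ((2 : ℕ) : ℝ) + s := by positivity
      exact this.ne'
  have h6 : n ^ s ≤ (3 / 2) ^ k := by
    rw [hn, ← Real.rpow_natCast, ← Real.rpow_mul (Nat.cast_nonneg r), mul_comm,
      Real.rpow_mul (Nat.cast_nonneg r), Real.rpow_natCast]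
    refine pow_le_pow_left₀ (by positivity) (le_trans ?_ hs2) k
    exact Real.rpow_le_rpow (Nat.cast_nonneg r) (by linarith) hs0.le
  have h7 : (0 : ℝ) ≤ (3 / 2) ^ k := by positivity
  calc n = (n ^ (1 / q)) ^ 2 * n ^ s := h5
    _ ≤ (2 * (C ^ 2 * ρ)) * (3 / 2) ^ k :=
        mul_le_mul (by linarith) h6 (by positivity) (by positivity)
    _ ≤ _ := by nlinarith [mul_nonneg h7 hρ]

theorem ul2_cot_pull {𝕜 : Type w} [RCLike 𝕜] {E : Type u} [NormedAddCommGroup E] [NormedSpace 𝕜 E]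
    {W : Type u} [NormedAddCommGroup W] [NormedSpace 𝕜 W] (j : E →L[𝕜] W) {c : ℝ} (hc : 0 < c)
    (hj : ∀ x, c * ‖x‖ ≤ ‖j x‖) {q : ℝ} (hq : 0 < q) (h : HasCotype W q) : HasCotype E q := by
  obtain ⟨A, hA⟩ := h
  refine ⟨c⁻¹ * (|A| * ‖j‖), fun n x => ?_⟩
  have h1 := hA n (fun i => j (x i))
  rw [rad_eq] at h1 ⊢
  have h2 : rad (nq W) (fun i => j (x i)) ≤ ‖j‖ ^ 2 * rad (nq E) x := by
    have e := rad_map (j : E →L[𝕜] W).toLinearMap.toAddMonoidHom (nq W) x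
    have e' : rad (nq W) (fun i => j (x i)) = rad (fun v => nq W (j v)) x := e
    rw [e', ← rad_mul]
    refine rad_mono (fun v => ?_) x
    unfold nq
    rw [← mul_pow]
    exact pow_le_pow_left₀ (norm_nonneg _) (j.le_opNorm v) 2
  have h3 : √(rad (nq W) (fun i => j (x i))) ≤ ‖j‖ * √(rad (nq E) x) := by
    refine (Real.sqrt_le_sqrt h2).trans (le_of_eq ?_)
    rw [Real.sqrt_mul (sq_nonneg _), Real.sqrt_sq (norm_nonneg _)]
  have h4 : c * (∑ i, ‖x i‖ ^ q) ^ (1 / q) ≤ (∑ i, ‖j (x i)‖ ^ q) ^ (1 / q) := by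
    have e : c * (∑ i, ‖x i‖ ^ q) ^ (1 / q) = (∑ i, (c * ‖x i‖) ^ q) ^ (1 / q) := by
      have e1 : ∑ i, (c * ‖x i‖) ^ q = c ^ q * ∑ i, ‖x i‖ ^ q := by
        rw [Finset.mul_sum]
        exact Finset.sum_congr rfl fun i _ => Real.mul_rpow hc.le (norm_nonneg _)
      rw [e1, Real.mul_rpow (by positivity) (Finset.sum_nonneg fun i _ => by positivity),
        one_div q, Real.rpow_rpow_inv hc.le hq.ne']
    rw [e]
    refine Real.rpow_le_rpow (Finset.sum_nonneg fun i _ => by positivity)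
      (Finset.sum_le_sum fun i _ => ?_) (by positivity)
    exact Real.rpow_le_rpow (by positivity) (hj _) hq.le
  have h5 : A * √(rad (nq W) (fun i => j (x i))) ≤ |A| * (‖j‖ * √(rad (nq E) x)) :=
    (mul_le_mul_of_nonneg_right (le_abs_self A) (Real.sqrt_nonneg _)).trans
      (mul_le_mul_of_nonneg_left h3 (abs_nonneg A))
  rw [mul_assoc, le_inv_mul_iff₀ hc, mul_assoc]
  exact h4.trans (h1.trans h5)

theorem ul2_hasSum {X : ℕ → Type u} [∀ n, NormedAddCommGroup (X n)] (x : lp X 2) :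
    HasSum (fun k => ‖x k‖ ^ 2) (‖x‖ ^ 2) := by
  have h := lp.hasSum_norm (p := 2) (by norm_num) x
  simpa using h

theorem ul2_map {𝕜 : Type w} [RCLike 𝕜] {W : Type u} [NormedAddCommGroup W] [NormedSpace 𝕜 W]
    [CompleteSpace W] (G : ℕ → Submodule 𝕜 W) {D : ℝ} (hD : 0 < D)
    (h : ∀ (σ : Finset ℕ) (z : ℕ → W), (∀ k, z k ∈ G k) →
      ‖∑ k ∈ σ, z k‖ ^ 2 ≤ D * ∑ k ∈ σ, ‖z k‖ ^ 2 ∧ ∑ k ∈ σ, ‖z k‖ ^ 2 ≤ D * ‖∑ k ∈ σ, z k‖ ^ 2) :
    ∃ (j : lp (fun k => G k) 2 →L[𝕜] W) (c : ℝ), 0 < c ∧ ∀ x, c * ‖x‖ ≤ ‖j x‖ := by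
  have hs : ∀ x : lp (fun k => G k) 2, Summable (fun k => ((x k : G k) : W)) := by
    intro x
    rw [summable_iff_vanishing_norm]
    intro ε hε
    obtain ⟨s, hs⟩ := summable_iff_vanishing_norm.1 (ul2_hasSum x).summable (ε ^ 2 / D)
      (by positivity)
    refine ⟨s, fun t ht => ?_⟩
    have h1 := hs t ht
    have h2 := (h t (fun k => ((x k : G k) : W)) (fun k => (x k).2)).1
    have h3 : ∑ k ∈ t, ‖((x k : G k) : W)‖ ^ 2 < ε ^ 2 / D := lt_of_le_of_lt (le_abs_self _) h1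
    rw [lt_div_iff₀ hD] at h3
    exact lt_of_pow_lt_pow_left₀ 2 hε.le (by linarith)
  have hb : ∀ x : lp (fun k => G k) 2,
      ‖∑' k, ((x k : G k) : W)‖ ^ 2 ≤ D * ‖x‖ ^ 2 ∧ ‖x‖ ^ 2 ≤ D * ‖∑' k, ((x k : G k) : W)‖ ^ 2 := by
    intro x
    have t1 : Tendsto (fun s : Finset ℕ => ‖∑ k ∈ s, ((x k : G k) : W)‖ ^ 2) atTop
        (nhds (‖∑' k, ((x k : G k) : W)‖ ^ 2)) := (Tendsto.norm (hs x).hasSum).pow 2
    have t2 : Tendsto (fun s : Finset ℕ => ∑ k ∈ s, ‖((x k : G k) : W)‖ ^ 2) atTop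
        (nhds (‖x‖ ^ 2)) := ul2_hasSum x
    exact ⟨le_of_tendsto_of_tendsto' t1 (t2.const_mul D)
        fun s => (h s (fun k => ((x k : G k) : W)) (fun k => (x k).2)).1,
      le_of_tendsto_of_tendsto' t2 (t1.const_mul D)
        fun s => (h s (fun k => ((x k : G k) : W)) (fun k => (x k).2)).2⟩
  let L : lp (fun k => G k) 2 →ₗ[𝕜] W :=
    { toFun := fun x => ∑' k, ((x k : G k) : W)
      map_add' := fun x y => by
        rw [← (hs x).tsum_add (hs y)]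
        rfl
      map_smul' := fun a x => by
        rw [RingHom.id_apply, ← (hs x).tsum_const_smul a]
        rfl }
  have hD' : 0 < √D := Real.sqrt_pos.2 hD
  have hL : ∀ x, ‖L x‖ ≤ √D * ‖x‖ := fun x => by
    refine le_of_pow_le_pow_left₀ two_ne_zero (by positivity) ?_
    rw [mul_pow, Real.sq_sqrt hD.le]
    exact (hb x).1
  refine ⟨L.mkContinuous (√D) hL, (√D)⁻¹, inv_pos.2 hD', fun x => ?_⟩
  rw [inv_mul_le_iff₀ hD']
  refine le_of_pow_le_pow_left₀ two_ne_zero (by positivity) ?_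
  rw [mul_pow, Real.sq_sqrt hD.le]
  exact (hb x).2

theorem l2_family {𝕜 : Type w} [RCLike 𝕜] {W : Type u} [NormedAddCommGroup W] [NormedSpace 𝕜 W]
    [CompleteSpace W] (G : ℕ → Submodule 𝕜 W) (hG : ∀ k, IsClosed (G k : Set W)) {C : ℝ}
    (h : ∀ (σ : Finset ℕ) (z : ℕ → W), (∀ k, z k ∈ G k) →
      ‖∑ k ∈ σ, z k‖ ^ 2 ≤ C * ∑ k ∈ σ, ‖z k‖ ^ 2 ∧ ∑ k ∈ σ, ‖z k‖ ^ 2 ≤ C * ‖∑ k ∈ σ, z k‖ ^ 2)
    (hcot : ∀ q : ℝ, 2 < q → HasCotype W q)
    (hbad : ∀ (K : ℝ) (N : ℕ), ∃ n, N ≤ n ∧ ∃ b m, ¬ Inv b (nq (G n)) m K) : Fam 𝕜 W := by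
  have : ∀ k, CompleteSpace (G k) := fun k => (hG k).completeSpace_coe
  obtain ⟨j, c, hc, hj⟩ := ul2_map G (D := |C| + 1) (by positivity) fun σ z hz => by
    obtain ⟨h1, h2⟩ := h σ z hz
    have h3 : C ≤ |C| + 1 := (le_abs_self C).trans (by linarith)
    exact ⟨h1.trans (mul_le_mul_of_nonneg_right h3 (Finset.sum_nonneg fun k _ => sq_nonneg _)),
      h2.trans (mul_le_mul_of_nonneg_right h3 (sq_nonneg _))⟩
  have hcot' : ∀ q : ℝ, 2 < q → HasCotype (lp (fun k => G k) 2) q := fun q hq =>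
    ul2_cot_pull j hc hj (by linarith) (hcot q hq)
  obtain ⟨b, C', hC, hW⟩ := exists_gadW 𝕜 (X := fun k => G k) hbad (ul2_cot_scale hcot')
  have hF : Fam 𝕜 (lp (fun k => G k) 2) :=
    exists_family (exists_unit 𝕜 (X := fun k => G k) hbad) hC hW
  exact hF.map j hc hj

end Pool.Agent.Lib.MP_435322_an.UD
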