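import Pool.Agent.Lib.MP_435322_an.GGad
import Pool.Agent.Lib.MP_435322_an.GWd
import Pool.Agent.Lib.MP_435322_an.UL2

/-! Euclidean sums without cotype assumptions. -/

namespace Pool.Agent.Lib.MP_435322_an.UD

open Finset Filter Pool.Agent.Lib.MP_435322_an
open scoped NNReal

universe u w

variable {𝕜 : Type w} [RCLike 𝕜] {W : Type u} [NormedAddCommGroup W] [NormedSpace 𝕜 W]

theorem gl2_orth {X : ℕ → Type u} [∀ n, NormedAddCommGroup (X n)] {K : Type*} (τ : Finset K)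
    (g : K → lp X 2) (h : ∀ n k k', g k n ≠ 0 → g k' n ≠ 0 → k = k') :
    ‖∑ k ∈ τ, g k‖ ^ 2 = ∑ k ∈ τ, ‖g k‖ ^ 2 := by
  have h1 := ul2_hasSum (∑ k ∈ τ, g k)
  have h2 : HasSum (fun n => ∑ k ∈ τ, ‖g k n‖ ^ 2) (∑ k ∈ τ, ‖g k‖ ^ 2) :=
    hasSum_sum fun k _ => ul2_hasSum (g k)
  refine h1.unique ?_
  have e : (fun n => ‖(∑ k ∈ τ, g k) n‖ ^ 2) = fun n => ∑ k ∈ τ, ‖g k n‖ ^ 2 := by
    funext n
    rw [lp.coeFn_sum, Finset.sum_apply]
    by_cases h3 : ∃ k ∈ τ, g k n ≠ 0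
    · obtain ⟨k, hk, hk'⟩ := h3
      have h4 : ∀ k', k' ≠ k → g k' n = 0 := fun k' hne => by
        by_contra h5; exact hne (h n k' k h5 hk')
      rw [Finset.sum_eq_single_of_mem k hk fun k' _ hne => h4 k' hne,
        Finset.sum_eq_single_of_mem k hk fun k' _ hne => by rw [h4 k' hne]; simp]
    · push Not at h3
      rw [Finset.sum_eq_zero h3, Finset.sum_eq_zero fun k hk => by rw [h3 k hk]; simp]
      simp
  rw [e]
  exact h2

theorem gl2_rep_rho {X : ℕ → Type u} [∀ n, NormedAddCommGroup (X n)] [∀ n, NormedSpace 𝕜 (X n)]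
    {κ I : Type} [Fintype κ] [Fintype I] [DecidableEq I] {q : (κ → 𝕜) → ℝ} (hq : Rep X q)
    (v : I → κ → 𝕜) : Rep X (rho q v) := by
  have h := Rep.sum (X := X) Finset.univ (F := fun (ε : I → ℤˣ) (c : I → 𝕜) => (∏ j, hf (ε j)) *
      q (Fintype.linearCombination 𝕜 (fun i => ε i • v i) c))
    fun ε _ => (hq.comp _).mul (isW_hf.prod_nonneg ε)
  have e : rho q v = fun c => ∑ ε : I → ℤˣ, (∏ j, hf (ε j)) *
      q (Fintype.linearCombination 𝕜 (fun i => ε i • v i) c) := by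
    funext α
    unfold rho rad Ex
    refine Finset.sum_congr rfl fun ε _ => ?_
    rw [Fintype.linearCombination_apply]
    simp only [smul_comm (ε _)]
  rw [e]; exact h

theorem gl2_rho_single {κ I : Type} [Fintype I] [DecidableEq I] {q : (κ → 𝕜) → ℝ} (hq : CQ q)
    (v : I → κ → 𝕜) (i : I) : rho q v (Pi.single i 1) = q (v i) := by
  unfold rho rad
  rw [← Ex_const (ι := I) isW_hf (q (v i))]
  refine Ex_congr fun ε => ?_
  beta_reduce
  rw [Finset.sum_eq_single i (fun j _ hj => by rw [Pi.single_eq_of_ne hj]; simp)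
    (fun h => (h (Finset.mem_univ _)).elim), Pi.single_eq_same, one_smul, hq.units]

theorem gl2_eo_single {I : Type} [Fintype I] [DecidableEq I] (i : I) :
    eo Finset.univ (Pi.single i 1 : I → 𝕜) = 1 := by
  unfold eo
  rw [Finset.sum_eq_single i (fun j _ hj => by rw [Pi.single_eq_of_ne hj]; simp)
    (fun h => (h (Finset.mem_univ _)).elim)]
  simp

theorem gl2_piece {X : ℕ → Type u} [∀ n, NormedAddCommGroup (X n)] [∀ n, NormedSpace 𝕜 (X n)]
    (hX : ∀ N, ∃ n, N ≤ n ∧ ∃ x : X n, ‖x‖ = 1)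
    (hB : ∀ B : ℝ, ∃ (d m : ℕ) (q : (Fin d → 𝕜) → ℝ), Rep X q ∧ ¬ Inv false q m B) (j : ℕ) :
    ∃ (d : ℕ) (w : Fin d → ℝ≥0) (F : (ℕ → 𝕜) → ℝ), SignInv F ∧
      (∀ i : Fin d, 1 ≤ F (Pi.single (i : ℕ) 1) ∧ F (Pi.single (i : ℕ) 1) ≤ 2) ∧ ssq w = 1 ∧
      F (∑ i : Fin d, (((w i : ℝ) : 𝕜)) • Pi.single (i : ℕ) 1) ≤ 2 / ((j : ℝ) + 1) ∧
      ∀ N, ∃ N', N ≤ N' ∧ ∃ ψ : (ℕ → 𝕜) →ₗ[𝕜] lp X 2,
        (∀ c k, k ∉ Finset.Ico N N' → ψ c k = 0) ∧
        ∀ c, F c ≤ 2 * ‖ψ c‖ ^ 2 ∧ ‖ψ c‖ ^ 2 ≤ 2 * F c := by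
  have hj : (0 : ℝ) < (j : ℝ) + 1 := by positivity
  obtain ⟨d0, m, q0, h0, h1⟩ := hB ((j : ℝ) + 1)
  obtain ⟨q, hq, h2, h3, -⟩ := exists_nondeg hX hj.le h0 h1
  simp only [Inv, not_forall] at h2
  obtain ⟨n, -, x, hx⟩ := h2
  simp only [Ineq, Bool.false_eq_true, if_false, not_le] at hx
  have hr := rad_nonneg hq.1.nonneg x
  have hS : 0 < ∑ i, q (x i) := lt_of_le_of_lt (by positivity) hx
  obtain ⟨I, _, _, p, v, hp, hp0, hv, hρ⟩ := exists_clean hq.1 h3 x hS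
  have hρ' : rho q v (fun i => ((√(p i) : ℝ) : 𝕜)) ≤ 1 / ((j : ℝ) + 1) := by
    rw [hρ, div_le_div_iff₀ hS hj]; linarith
  let e := Fintype.equivFin I
  let a : I → ℕ := fun i => e i
  have ha : Function.Injective a := fun i i' h => e.injective (Fin.ext h)
  have hη : (0 : ℝ) < 1 / ((j : ℝ) + 1) := by positivity
  have hη1 : 1 / ((j : ℝ) + 1) ≤ 1 := by
    rw [div_le_one hj]; linarith [(Nat.cast_nonneg j : (0 : ℝ) ≤ j)]
  let F0 : (I → 𝕜) → ℝ := fun c => rho q v c + 1 / ((j : ℝ) + 1) * eo Finset.univ c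
  have hF0 : Rep X F0 := (gl2_rep_rho hq v).add ((rep_eo hX _).mul hη.le)
  refine ⟨Fintype.card I, fun i => Real.toNNReal √(p (e.symm i)),
    fun c => F0 fun i => c (a i), fun s c => ?_, fun i => ?_, ?_, ?_, fun N => ?_⟩
  · simp only [F0]
    rw [signInv_rho (fun i => s (a i)) (fun i => c (a i))]
    simp only [eo, norm_units_smul]
  · have e1 : (fun i' => (Pi.single (i : ℕ) 1 : ℕ → 𝕜) (a i')) = Pi.single (e.symm i) 1 := by
      funext i'
      have e2 : (i : ℕ) = a (e.symm i) := by simp [a]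
      by_cases h : i' = e.symm i
      · rw [h, ← e2, Pi.single_eq_same, Pi.single_eq_same]
      · rw [Pi.single_eq_of_ne h, Pi.single_eq_of_ne]
        rw [e2]; exact fun h' => h (ha h')
    simp only [e1, F0]
    rw [gl2_rho_single hq.1, hv, gl2_eo_single]
    constructor <;> linarith
  · unfold ssq
    simp only [Real.coe_toNNReal _ (Real.sqrt_nonneg _)]
    rw [Finset.sum_congr rfl fun i _ => Real.sq_sqrt (hp0 (e.symm i)).le, e.symm.sum_comp p,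
      hp.sum_eq]
  · have e1 : (fun i' => (∑ i : Fin (Fintype.card I), (((√(p (e.symm i)) : ℝ) : 𝕜)) •
        (Pi.single (i : ℕ) 1 : ℕ → 𝕜)) (a i')) = fun i' => ((√(p i') : ℝ) : 𝕜) := by
      funext i'
      rw [Finset.sum_apply, Finset.sum_eq_single (e i')]
      · simp [a]
      · intro i _ hi
        rw [Pi.smul_apply, Pi.single_eq_of_ne, smul_zero]
        exact fun h => hi (Fin.ext h).symm
      · intro h; exact (h (Finset.mem_univ _)).elim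
    simp only [Real.coe_toNNReal _ (Real.sqrt_nonneg _), e1, F0]
    have e2 : eo Finset.univ (fun i' => ((√(p i') : ℝ) : 𝕜)) = 1 := by
      unfold eo
      rw [← hp.sum_eq]
      refine Finset.sum_congr rfl fun i _ => ?_
      rw [RCLike.norm_ofReal, sq_abs, Real.sq_sqrt (hp0 i).le]
    rw [e2, mul_one]
    have e3 : 2 / ((j : ℝ) + 1) = 1 / ((j : ℝ) + 1) + 1 / ((j : ℝ) + 1) := by ring
    linarith
  · obtain ⟨N', hN, G, φ, hG, hb⟩ := realize hF0 hη (fun c => by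
      simp only [F0]; linarith [(cq_rho (u := v) hq.1).nonneg c]) N
    refine ⟨N', hN, G.subtype ∘ₗ φ.toLinearMap ∘ₗ LinearMap.funLeft 𝕜 𝕜 a,
      fun c k hk => hG _ (φ _).2 k hk, fun c => hb _⟩

theorem gl2_blocks {E : Type*} [AddCommGroup E] [Module 𝕜 E] (Ψ : ℕ → (ℕ → 𝕜) →ₗ[𝕜] E)
    (σ : Finset ℕ) (c : ℕ → 𝕜) :
    ∑ n ∈ σ, c n • Ψ n.unpair.1 (Pi.single n.unpair.2 1)
      = ∑ k ∈ σ.image fun n => n.unpair.1,
        Ψ k fun i => if Nat.pair k i ∈ σ then c (Nat.pair k i) else 0 := by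
  rw [← Finset.sum_fiberwise_of_maps_to (g := fun n : ℕ => n.unpair.1)
    (fun n hn => Finset.mem_image_of_mem (fun n : ℕ => n.unpair.1) hn)]
  refine Finset.sum_congr rfl fun k _ => ?_
  have e1 : ∑ n ∈ σ with n.unpair.1 = k, c n • Ψ n.unpair.1 (Pi.single n.unpair.2 1)
      = Ψ k (∑ n ∈ σ with n.unpair.1 = k, c n • Pi.single n.unpair.2 1) := by
    rw [map_sum]
    refine Finset.sum_congr rfl fun n hn => ?_
    rw [(Finset.mem_filter.1 hn).2, map_smul]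
  rw [e1]
  congr 1
  funext i
  have h0 : ∀ n ∈ σ.filter fun n => n.unpair.1 = k, n ≠ Nat.pair k i →
      (c n • Pi.single n.unpair.2 1 : ℕ → 𝕜) i = 0 := by
    intro n hn hne
    rw [Pi.smul_apply, Pi.single_eq_of_ne, smul_zero]
    intro h
    apply hne
    rw [h, ← (Finset.mem_filter.1 hn).2, Nat.pair_unpair]
  rw [Finset.sum_apply]
  split_ifs with h
  · rw [Finset.sum_eq_single_of_mem (Nat.pair k i) (Finset.mem_filter.2 ⟨h, by simp⟩) h0]
    simp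
  · exact Finset.sum_eq_zero fun n hn => h0 n hn fun h' => h (h' ▸ (Finset.mem_filter.1 hn).1)

theorem findown_lp {X : ℕ → Type u} [∀ n, NormedAddCommGroup (X n)] [∀ n, NormedSpace 𝕜 (X n)]
    (hX : ∀ N, ∃ n, N ≤ n ∧ ∃ x : X n, ‖x‖ = 1)
    (hB : ∀ B : ℝ, ∃ (d m : ℕ) (q : (Fin d → 𝕜) → ℝ), Rep X q ∧ ¬ Inv false q m B) :
    ∃ (e : ℕ → lp X 2) (U : ℝ), SignU 𝕜 e U ∧ FinDown (nu 𝕜 e) := by
  choose d w F hFs hF1 hw hFw N' hN' ψ hψ0 hψ using gl2_piece hX hB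
  let N : ℕ → ℕ := fun k => Nat.rec 0 (fun k a => N' k.unpair.1 a) k
  have hN : Monotone N := monotone_nat_of_le_succ fun k => hN' _ _
  let Ψ : ℕ → (ℕ → 𝕜) →ₗ[𝕜] lp X 2 := fun k => ψ k.unpair.1 (N k)
  have hΨ0 : ∀ k c n, Ψ k c n ≠ 0 → N k ≤ n ∧ n < N (k + 1) := fun k c n h => by
    by_contra h1
    exact h (hψ0 _ _ c n fun h2 => h1 (Finset.mem_Ico.1 h2))
  have hdj : ∀ n k k' c c', Ψ k c n ≠ 0 → Ψ k' c' n ≠ 0 → k = k' := by
    intro n k k' c c' h1 h2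
    have h3 := hΨ0 _ _ _ h1
    have h4 := hΨ0 _ _ _ h2
    by_contra hne
    rcases lt_or_gt_of_ne hne with h | h
    · have := hN (show k + 1 ≤ k' from h); omega
    · have := hN (show k' + 1 ≤ k from h); omega
  have hΨ : ∀ k c, F k.unpair.1 c ≤ 2 * ‖Ψ k c‖ ^ 2 ∧ ‖Ψ k c‖ ^ 2 ≤ 2 * F k.unpair.1 c :=
    fun k c => hψ _ _ c
  let e : ℕ → lp X 2 := fun n => Ψ n.unpair.1 (Pi.single n.unpair.2 1)
  have he : ∀ k i, e (Nat.pair k i) = Ψ k (Pi.single i 1) := fun k i => by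
    simp only [e, Nat.unpair_pair]
  have hU : SignU 𝕜 e 2 := by
    intro σ c ε
    refine le_of_pow_le_pow_left₀ two_ne_zero (by positivity) ?_
    have e1 : ∑ n ∈ σ, ε n • c n • e n = ∑ n ∈ σ, (ε n • c n) • e n :=
      Finset.sum_congr rfl fun n _ => (smul_assoc _ _ _).symm
    rw [e1, mul_pow, gl2_blocks Ψ σ c, gl2_blocks Ψ σ fun n => ε n • c n,
      gl2_orth _ _ fun n k k' => hdj n k k' _ _, gl2_orth _ _ fun n k k' => hdj n k k' _ _,
      Finset.mul_sum]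
    refine Finset.sum_le_sum fun k _ => ?_
    have e2 : (fun i => if Nat.pair k i ∈ σ then ε (Nat.pair k i) • c (Nat.pair k i) else 0)
        = fun i => ε (Nat.pair k i) • (if Nat.pair k i ∈ σ then c (Nat.pair k i) else 0) := by
      funext i; split_ifs <;> simp
    have h1 := (hΨ k fun i =>
      if Nat.pair k i ∈ σ then ε (Nat.pair k i) • c (Nat.pair k i) else 0).2
    have h2 := (hΨ k fun i => if Nat.pair k i ∈ σ then c (Nat.pair k i) else 0).1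
    have h3 := hFs k.unpair.1 (fun i => ε (Nat.pair k i))
      fun i => if Nat.pair k i ∈ σ then c (Nat.pair k i) else 0
    rw [← e2] at h3
    linarith
  refine ⟨e, 2, hU, 576, fun δ hδ => ?_⟩
  obtain ⟨j, hj⟩ := exists_nat_gt (576 / δ)
  refine ⟨d j, w j, fun M m => ?_⟩
  let b : Fin M → ℕ := fun c => Nat.pair j (m + c)
  have hb : Function.Injective b := fun c c' h => by
    have := (Nat.pair_eq_pair.1 h).2
    exact Fin.ext (by omega)
  have hbj : ∀ c, (b c).unpair.1 = j := fun c => by simp only [b, Nat.unpair_pair]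
  let a : Fin M × Fin (d j) → ℕ := fun p => Nat.pair (b p.1) p.2
  have ha : Function.Injective a := fun p p' h => by
    have := Nat.pair_eq_pair.1 h
    exact Prod.ext (hb this.1) (Fin.ext this.2)
  have h12 : (4 : ℝ) * (|2| + 1) = 12 := by norm_num
  have hnn : ∀ r : ℝ≥0, ‖((r : ℝ) : 𝕜)‖₊ = r := fun r => by
    apply NNReal.eq
    rw [coe_nnnorm, RCLike.norm_ofReal, NNReal.abs_eq]
  refine ⟨fun c i => Finsupp.single (a (c, i)) 1, dj_single ha, fun c i => tl_single ?_,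
    fun i t => ?_, by rw [hw]; exact one_pos, ?_⟩
  · exact le_trans (le_trans (Nat.le_add_right _ _) (Nat.right_le_pair _ _))
      (Nat.left_le_pair _ _)
  · obtain ⟨h1, h2⟩ := hU.single (a := fun c => a (c, i))
      (fun c c' h => (Prod.mk.inj (ha h)).1) fun c => ((t c : ℝ) : 𝕜)
    simp only [hnn] at h1 h2
    rw [h12] at h2
    have e1 : ∑ c, ((t c : ℝ) : 𝕜) • e (a (c, i))
        = ∑ c, Ψ (b c) (((t c : ℝ) : 𝕜) • Pi.single (i : ℕ) 1) :=
      Finset.sum_congr rfl fun c _ => by rw [map_smul, he]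
    have e2 : ‖∑ c, ((t c : ℝ) : 𝕜) • e (a (c, i))‖ ^ 2
        = ∑ c, (t c : ℝ) ^ 2 * ‖Ψ (b c) (Pi.single (i : ℕ) 1)‖ ^ 2 := by
      rw [e1, gl2_orth _ _ fun n k k' h h' => hb (hdj n _ _ _ _ h h')]
      refine Finset.sum_congr rfl fun c _ => ?_
      rw [map_smul, norm_smul, mul_pow, RCLike.norm_ofReal, sq_abs]
    have h3 : ‖∑ c, ((t c : ℝ) : 𝕜) • e (a (c, i))‖ ^ 2 ≤ 4 * ssq t := by
      rw [e2, ssq, Finset.mul_sum]
      refine Finset.sum_le_sum fun c _ => ?_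
      have h4 := (hΨ (b c) (Pi.single (i : ℕ) 1)).2
      rw [hbj] at h4
      nlinarith [(hF1 j i).2, sq_nonneg (t c : ℝ)]
    have h4 : ssq t ≤ 2 * ‖∑ c, ((t c : ℝ) : 𝕜) • e (a (c, i))‖ ^ 2 := by
      rw [e2, ssq, Finset.mul_sum]
      refine Finset.sum_le_sum fun c _ => ?_
      have h4 := (hΨ (b c) (Pi.single (i : ℕ) 1)).1
      rw [hbj] at h4
      nlinarith [(hF1 j i).1, sq_nonneg (t c : ℝ)]
    have h5 := pow_le_pow_left₀ (norm_nonneg _) h1 2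
    have h6 := pow_le_pow_left₀ ((norm_nonneg _).trans h1) h2 2
    rw [mul_pow] at h6
    constructor
    · linarith
    · nlinarith [sq_nonneg (nu 𝕜 e (cmb t fun c => Finsupp.single (a (c, i)) 1))]
  · obtain ⟨h1, h2⟩ := hU.single ha fun p => ((w j p.2 : ℝ) : 𝕜)
    simp only [hnn] at h1 h2
    rw [h12] at h2
    have e0 : ∑ c, cmb (w j) (fun i => (Finsupp.single (a (c, i)) 1 : V))
        = cmb (fun p : Fin M × Fin (d j) => w j p.2) fun p => Finsupp.single (a p) 1 := by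
      unfold cmb
      rw [Fintype.sum_prod_type]
    have e1 : ∑ p : Fin M × Fin (d j), ((w j p.2 : ℝ) : 𝕜) • e (a p)
        = ∑ c, Ψ (b c) (∑ i : Fin (d j), ((w j i : ℝ) : 𝕜) • Pi.single (i : ℕ) 1) := by
      rw [Fintype.sum_prod_type]
      refine Finset.sum_congr rfl fun c _ => ?_
      rw [map_sum]
      exact Finset.sum_congr rfl fun i _ => by rw [map_smul, he]
    have h3 : ‖∑ p : Fin M × Fin (d j), ((w j p.2 : ℝ) : 𝕜) • e (a p)‖ ^ 2
        ≤ M * (2 * (2 / ((j : ℝ) + 1))) := by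
      rw [e1, gl2_orth _ _ fun n k k' h h' => hb (hdj n _ _ _ _ h h')]
      have := Finset.sum_le_card_nsmul Finset.univ (fun c : Fin M =>
        ‖Ψ (b c) (∑ i : Fin (d j), ((w j i : ℝ) : 𝕜) • Pi.single (i : ℕ) 1)‖ ^ 2)
        (2 * (2 / ((j : ℝ) + 1))) fun c _ => by
          have h4 := (hΨ (b c) (∑ i : Fin (d j), ((w j i : ℝ) : 𝕜) • Pi.single (i : ℕ) 1)).2
          rw [hbj] at h4
          linarith [hFw j]
      rwa [Finset.card_univ, Fintype.card_fin, nsmul_eq_mul] at this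
    have h6 := pow_le_pow_left₀ ((norm_nonneg _).trans h1) h2 2
    rw [mul_pow] at h6
    rw [e0, hw, mul_one]
    have h7 : 144 * (2 * (2 / ((j : ℝ) + 1))) ≤ δ := by
      rw [div_lt_iff₀ hδ] at hj
      have e3 : 144 * (2 * (2 / ((j : ℝ) + 1))) = 576 / ((j : ℝ) + 1) := by ring
      rw [e3, div_le_iff₀ (by positivity)]
      nlinarith
    have h8 := mul_le_mul_of_nonneg_right h7 (Nat.cast_nonneg (α := ℝ) M)
    nlinarith

theorem gl2_fam {X : ℕ → Type u} [∀ n, NormedAddCommGroup (X n)] [∀ n, NormedSpace 𝕜 (X n)]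
    [∀ n, CompleteSpace (X n)]
    (hbad : ∀ (K : ℝ) (N : ℕ), ∃ n, N ≤ n ∧ ∃ b m, ¬ Inv b (nq (X n)) m K) :
    Fam 𝕜 (lp X 2) := by
  have hX := exists_unit 𝕜 hbad
  by_cases hB : ∀ B : ℝ, ∃ (d m : ℕ) (q : (Fin d → 𝕜) → ℝ), Rep X q ∧ ¬ Inv false q m B
  · obtain ⟨e, U, hU, hF⟩ := findown_lp hX hB
    exact fam_of_gads hU (gads_of_findown (ln_nu e) hF)
  by_cases hA : ∀ B : ℝ, ∃ (d m : ℕ) (q : (Fin d → 𝕜) → ℝ), Rep X q ∧ ¬ Inv true q m B
  · exact exists_family hX (by norm_num) (gadW_of_gad (by norm_num) (gadI hX hA))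
  push Not at hA hB
  obtain ⟨T, hT⟩ := hA
  obtain ⟨B, hB⟩ := hB
  set K := |T| + |B| + 3 with hKdef
  have hK0 : 0 ≤ K := by positivity
  have hK : ∀ (b : Bool) (d : ℕ) (q : (Fin d → 𝕜) → ℝ), Rep X q → ∀ m, Inv b q m K := by
    intro b d q hq m
    cases b
    · exact (hB d m q hq).const hq.1.nonneg (by linarith [le_abs_self B, abs_nonneg T])
    · exact (hT d m q hq).const hq.1.nonneg (by linarith [le_abs_self T, abs_nonneg B])
  have h4 : 4 ≤ K + 1 := by linarith [abs_nonneg T, abs_nonneg B]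
  by_cases h : ∀ (D : ℝ) (N : ℕ), ∃ n, N ≤ n ∧ ∃ m, ¬ Inv true (nq (X n)) m D
  · exact exists_family hX h4 (gadW_of_bounded hK0 (hK true) h)
  push Not at h
  obtain ⟨D0, N0, h⟩ := h
  refine exists_family hX h4 (gadW_of_bounded hK0 (hK false) fun D N => ?_)
  obtain ⟨n, hn, b, m, h1⟩ := hbad (max D D0) (max N N0)
  refine ⟨n, by omega, m, fun h2 => h1 ?_⟩
  cases b
  · exact h2.const nq_nonneg (le_max_left _ _)
  · exact (h n (by omega) m).const nq_nonneg (le_max_right _ _)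

theorem l2_family' [CompleteSpace W] (G : ℕ → Submodule 𝕜 W) (hG : ∀ k, IsClosed (G k : Set W))
    {C : ℝ} (h : ∀ (σ : Finset ℕ) (z : ℕ → W), (∀ k, z k ∈ G k) →
      ‖∑ k ∈ σ, z k‖ ^ 2 ≤ C * ∑ k ∈ σ, ‖z k‖ ^ 2 ∧ ∑ k ∈ σ, ‖z k‖ ^ 2 ≤ C * ‖∑ k ∈ σ, z k‖ ^ 2)
    (hbad : ∀ (K : ℝ) (N : ℕ), ∃ n, N ≤ n ∧ ∃ b m, ¬ Inv b (nq (G n)) m K) : Fam 𝕜 W := by
  have : ∀ k, CompleteSpace (G k) := fun k => (hG k).completeSpace_coe
  obtain ⟨j, c, hc, hj⟩ := ul2_map G (D := |C| + 1) (by positivity) fun σ z hz => by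
    obtain ⟨h1, h2⟩ := h σ z hz
    have h3 : C ≤ |C| + 1 := (le_abs_self C).trans (by linarith)
    exact ⟨h1.trans (mul_le_mul_of_nonneg_right h3 (Finset.sum_nonneg fun k _ => sq_nonneg _)),
      h2.trans (mul_le_mul_of_nonneg_right h3 (sq_nonneg _))⟩
  exact (gl2_fam (X := fun k => G k) hbad).map j hc hj

end Pool.Agent.Lib.MP_435322_an.UD
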