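import Pool.Agent.Lib.MP_435322_an.HBasic

/-! Selecting finite-dimensional decompositions. -/

namespace Pool.Agent.Lib.MP_435322_an.UD

open Finset Filter

universe u v w

variable {𝕜 : Type w} [RCLike 𝕜] {X : Type u} [NormedAddCommGroup X] [NormedSpace 𝕜 X]

theorem mazur (E : Submodule 𝕜 X) [FiniteDimensional 𝕜 E] :
    ∃ (ι : Type) (_ : Fintype ι) (f : ι → X →ₗ[𝕜] 𝕜), ∀ x ∈ E, ∀ z ∈ Kr f, ‖x‖ ≤ 2 * ‖x + z‖ := by
  have : ProperSpace E := FiniteDimensional.proper_rclike 𝕜 E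
  obtain ⟨t, h1, h2, h3⟩ := (isCompact_sphere (0 : E) 1).finite_cover_balls
    (show (0 : ℝ) < 1 / 4 by norm_num)
  choose g hg hg' using fun y : X => exists_dual_vector'' 𝕜 y
  refine ⟨Fin h2.toFinset.card, inferInstance,
    fun i => (g ((h2.toFinset.equivFin.symm i : E) : X)).toLinearMap, fun x hx z hz => ?_⟩
  rcases eq_or_ne x 0 with rfl | h0
  · simp
  have hn : 0 < ‖x‖ := norm_pos_iff.2 h0
  have hs : (((‖x‖⁻¹ : ℝ) : 𝕜) • (⟨x, hx⟩ : E)) ∈ Metric.sphere (0 : E) 1 := by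
    rw [mem_sphere_zero_iff_norm, norm_smul, RCLike.norm_ofReal, abs_of_pos (inv_pos.2 hn)]
    exact inv_mul_cancel₀ hn.ne'
  obtain ⟨y, hy, hxy⟩ := Set.mem_iUnion₂.1 (h3 hs)
  have hz' : g y z = 0 := by
    simpa using mem_Kr.1 hz (h2.toFinset.equivFin ⟨y, h2.mem_toFinset.2 hy⟩)
  have y1 : ‖(y : X)‖ = 1 := mem_sphere_zero_iff_norm.1 (h1 hy)
  have hxy' : ‖((‖x‖⁻¹ : ℝ) : 𝕜) • x - (y : X)‖ < 1 / 4 := by
    rw [Metric.mem_ball, dist_eq_norm] at hxy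
    exact hxy
  have b : ∀ w, ‖g y w‖ ≤ ‖w‖ := fun w =>
    ((g y).le_opNorm w).trans (mul_le_of_le_one_left (norm_nonneg _) (hg y))
  have e1 := b (x + z)
  have e2 := b (((‖x‖⁻¹ : ℝ) : 𝕜) • x - (y : X))
  rw [map_add, hz', add_zero] at e1
  rw [map_sub, norm_sub_rev] at e2
  have e3 := norm_sub_norm_le (g y y) (g y (((‖x‖⁻¹ : ℝ) : 𝕜) • x))
  rw [map_smul (g (y : X)), norm_smul, RCLike.norm_ofReal, abs_of_pos (inv_pos.2 hn), hg' y,
    RCLike.norm_ofReal, y1, abs_one] at e3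
  rw [map_smul, hg' y, y1] at e2
  have e4 : 1 / 2 ≤ ‖x‖⁻¹ * ‖g y x‖ := by linarith
  rw [le_inv_mul_iff₀ hn] at e4
  linarith

theorem builder {σ : Type v} (I : ℕ → σ → Prop) (Q : ℕ → σ → σ → Submodule 𝕜 X → Prop) (s0 : σ)
    (h0 : I 0 s0)
    (h : ∀ k s, I k s → ∀ (ι : Type) [Fintype ι] (f : ι → X →ₗ[𝕜] 𝕜),
      ∃ (G : Submodule 𝕜 X) (s' : σ), FiniteDimensional 𝕜 G ∧ G ≤ Kr f ∧ I (k + 1) s' ∧
        Q k s s' G) :
    ∃ (s : ℕ → σ) (G : ℕ → Submodule 𝕜 X), s 0 = s0 ∧ (∀ k, I k (s k)) ∧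
      (∀ k, FiniteDimensional 𝕜 (G k)) ∧ (∀ k, Q k (s k) (s (k + 1)) (G k)) ∧ Mz G := by
  obtain ⟨s, G, e0, e1, e2⟩ := dc (σ := ℕ × σ × Submodule 𝕜 X × Submodule 𝕜 X)
    (fun p => I p.1 p.2.1 ∧ FiniteDimensional 𝕜 p.2.2.1 ∧
      ∃ (ι : Type) (_ : Fintype ι) (f : ι → X →ₗ[𝕜] 𝕜), Kr f ≤ p.2.2.2)
    (fun _ p p' (G : Submodule 𝕜 X) => p'.1 = p.1 + 1 ∧ FiniteDimensional 𝕜 G ∧
      Q p.1 p.2.1 p'.2.1 G ∧ p.2.2.1 ≤ p'.2.2.1 ∧ G ≤ p'.2.2.1 ∧ p'.2.2.2 ≤ p.2.2.2 ∧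
      G ≤ p'.2.2.2 ∧ ∀ x ∈ p.2.2.1, ∀ z ∈ p'.2.2.2, ‖x‖ ≤ 2 * ‖x + z‖)
    (0, s0, ⊥, ⊤) ⟨h0, inferInstanceAs (FiniteDimensional 𝕜 (⊥ : Submodule 𝕜 X)),
      Empty, inferInstance, fun i => i.elim, le_top⟩ (by
      rintro - ⟨k, s, E, T⟩ ⟨h1, h2, ι, inst, f, h3⟩
      obtain ⟨κ, inst', g, h4⟩ := @mazur 𝕜 _ X _ _ E h2
      obtain ⟨G, s', h5, h6, h7, h8⟩ := h k s h1 (ι ⊕ κ) (Sum.elim f g)
      exact ⟨G, (k + 1, s', E ⊔ G, Kr (Sum.elim f g)),
        ⟨h7, @Submodule.finiteDimensional_sup 𝕜 X _ _ _ E G h2 h5, _, inferInstance, _, le_rfl⟩,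
        rfl, h5, h8, le_sup_left, le_sup_right,
        fun x hx => h3 (mem_Kr.2 fun i => mem_Kr.1 hx (Sum.inl i)), h6,
        fun x hx z hz => h4 x hx z (mem_Kr.2 fun i => mem_Kr.1 hz (Sum.inr i))⟩)
  have hk : ∀ k, (s k).1 = k := fun k => by
    induction k with
    | zero => rw [e0]
    | succ k ih => rw [(e2 k).1, ih]
  have hE : Monotone fun k => (s k).2.2.1 := monotone_nat_of_le_succ fun k => (e2 k).2.2.2.1
  have hT : Antitone fun k => (s k).2.2.2 := antitone_nat_of_succ_le fun k => (e2 k).2.2.2.2.2.1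
  refine ⟨fun k => (s k).2.1, G, by simp only [e0], fun k => ?_, fun k => (e2 k).2.1, fun k => ?_,
    fun τ N z hz => ?_⟩
  · have := (e1 k).1
    rwa [hk] at this
  · have := (e2 k).2.2.1
    rwa [hk] at this
  · rw [← sum_filter_add_sum_filter_not τ (· < N) z]
    exact (e2 N).2.2.2.2.2.2.2 _
      (Submodule.sum_mem _ fun k h1 => hE (mem_filter.1 h1).2 ((e2 k).2.2.2.2.1 (hz k))) _
      (Submodule.sum_mem _ fun k h1 => hT (Nat.succ_le_succ (not_lt.1 (mem_filter.1 h1).2))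
        ((e2 k).2.2.2.2.2.2.1 (hz k)))

theorem builder0 (Q : ℕ → Submodule 𝕜 X → Prop)
    (h : ∀ k (ι : Type) [Fintype ι] (f : ι → X →ₗ[𝕜] 𝕜),
      ∃ G : Submodule 𝕜 X, FiniteDimensional 𝕜 G ∧ G ≤ Kr f ∧ Q k G) :
    ∃ G : ℕ → Submodule 𝕜 X, (∀ k, FiniteDimensional 𝕜 (G k)) ∧ (∀ k, Q k (G k)) ∧ Mz G := by
  obtain ⟨s, G, -, -, h1, h2, h3⟩ := builder (σ := Unit) (fun _ _ => True)
    (fun k _ _ G => Q k G) () trivial fun k _ _ ι _ f => by
      obtain ⟨G, h1, h2, h3⟩ := h k ι f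
      exact ⟨G, (), h1, h2, trivial, h3⟩
  exact ⟨G, h1, h2, h3⟩

/-- a functional on one block extends by zero on the other blocks -/
theorem hmazur_sep {G : ℕ → Submodule 𝕜 X} (hM : Mz G) {k : ℕ} (φ : X →L[𝕜] 𝕜) {y : X}
    (hy : y ∈ G k) (h1 : φ y = 1) : ∃ f : X →L[𝕜] 𝕜, f y = 1 ∧
      (∀ j, j ≠ k → ∀ z ∈ G j, f z = 0) ∧ ∀ z ∈ G k, φ z = 0 → f z = 0 := by
  let G' : ℕ → Submodule 𝕜 X := fun j => if j = k then G k ⊓ φ.toLinearMap.ker else G j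
  have hG' : ∀ j, G' j ≤ G j := fun j => by
    simp only [G']
    split_ifs with h
    · rw [h]
      exact inf_le_left
    · exact le_rfl
  let W : Submodule 𝕜 X := ⨆ j, G' j
  have hn : ‖(Submodule.Quotient.mk y : X ⧸ W)‖ ≠ 0 := by
    intro h0
    obtain ⟨m, m1, m2⟩ := Submodule.Quotient.norm_mk_lt (Submodule.Quotient.mk y : X ⧸ W)
      (show 0 < (4 * ‖φ‖ + 1)⁻¹ by positivity)
    rw [h0, zero_add] at m2
    obtain ⟨σ, z, z1, z2⟩ := mem_iSup_sum ((Submodule.Quotient.eq W).1 m1)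
    let z' : ℕ → X := fun j => (if j ∈ σ then z j else 0) + if j = k then y else 0
    have z3 : ∑ j ∈ insert k σ, z' j = m := by
      simp only [z']
      rw [sum_add_distrib, sum_ite_mem, inter_eq_right.2 (subset_insert _ _), sum_ite_eq',
        if_pos (mem_insert_self _ _), ← z2, sub_add_cancel]
    have z4 := hM.single (σ := insert k σ) (z := z') (fun j => by
      refine add_mem ?_ ?_
      · split_ifs
        · exact hG' j (z1 j)
        · exact zero_mem _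
      · split_ifs with h
        · rwa [h]
        · exact zero_mem _) (mem_insert_self _ _)
    have z5 : φ (z' k) = 1 := by
      have h2 : φ (z k) = 0 := by
        have := z1 k
        simp only [G', if_pos] at this
        exact this.2
      simp only [z', if_pos, map_add, h1]
      split_ifs <;> simp [h2]
    have z6 := φ.le_opNorm (z' k)
    rw [z5, norm_one] at z6
    rw [z3] at z4
    rw [lt_inv_comm₀ _ (by positivity)] at m2
    · rw [← one_div, lt_div_iff₀] at m2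
      · nlinarith [norm_nonneg φ, norm_nonneg m]
      · nlinarith [norm_nonneg φ, norm_nonneg m, norm_nonneg (z' k)]
    · nlinarith [norm_nonneg φ, norm_nonneg m, norm_nonneg (z' k)]
  obtain ⟨g, -, hg⟩ := exists_dual_vector 𝕜 (Submodule.Quotient.mk y : X ⧸ W) hn
  have hW : ∀ j, ∀ z ∈ G' j, g (W.mkQL z) = 0 := fun j z hz => by
    have : W.mkQL z = 0 := (Submodule.Quotient.mk_eq_zero W).2 (le_iSup G' j hz)
    rw [this, map_zero]
  refine ⟨((‖(Submodule.Quotient.mk y : X ⧸ W)‖ : ℝ) : 𝕜)⁻¹ • g.comp W.mkQL, ?_,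
    fun j hj z hz => ?_, fun z hz h2 => ?_⟩
  · change _ * g (Submodule.Quotient.mk y) = 1
    rw [hg]
    exact inv_mul_cancel₀ (by exact_mod_cast hn)
  · change _ * g (W.mkQL z) = 0
    rw [hW j z (by simp only [G', if_neg hj]; exact hz), mul_zero]
  · change _ * g (W.mkQL z) = 0
    rw [hW k z (by simp only [G', if_pos]; exact ⟨hz, h2⟩), mul_zero]

/-- a biorthogonal system subordinate to a decomposition -/
theorem biorth (G : ℕ → Submodule 𝕜 X) (hG : ∀ k, FiniteDimensional 𝕜 (G k))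
    (hne : ∀ k, G k ≠ ⊥) (hM : Mz G) :
    ∃ (e : ℕ → X) (f : ℕ → X →L[𝕜] 𝕜) (β : ℕ → ℕ) (I : ℕ → Finset ℕ),
      (∀ i j, f i (e j) = if i = j then 1 else 0) ∧ (∀ i, e i ∈ G (β i)) ∧
      (∀ n i, i ∈ I n ↔ β i = n) ∧ ∀ n, G n ≤ Submodule.span 𝕜 (e '' (I n : Set ℕ)) := by
  classical
  let ι : Type := Σ k, Fin (Module.finrank 𝕜 (G k))
  let b := fun k => Module.finBasis 𝕜 (G k)
  let v : ι → X := fun p => b p.1 p.2
  have hF : ∀ p : ι, ∃ f : X →L[𝕜] 𝕜, ∀ q, f (v q) = if p = q then 1 else 0 := by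
    rintro ⟨k, i⟩
    obtain ⟨φ, hφ, -⟩ := exists_extension_norm_eq (G k)
      (LinearMap.toContinuousLinearMap ((b k).coord i))
    obtain ⟨f, f1, f2, f3⟩ := hmazur_sep hM φ (b k i).2 (by rw [hφ]; simp)
    refine ⟨f, ?_⟩
    rintro ⟨k', i'⟩
    split_ifs with h
    · rw [← h]
      exact f1
    · rcases eq_or_ne k' k with rfl | hk
      · refine f3 _ (b k' i').2 ?_
        have : i' ≠ i := by
          rintro rfl
          exact h rfl
        change φ (b k' i') = 0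
        rw [hφ]
        simp [this]
      · exact f2 k' hk _ (b k' i').2
  choose F hF using hF
  have : Infinite ι := Infinite.of_injective
    (fun k => (⟨k, ⟨0, Submodule.one_le_finrank_iff.2 (hne k)⟩⟩ : ι))
    fun _ _ h => congrArg Sigma.fst h
  obtain ⟨ε⟩ : Nonempty (ℕ ≃ ι) := nonempty_equiv_of_countable
  refine ⟨fun i => v (ε i), fun i => F (ε i), fun i => (ε i).1,
    fun n => univ.image fun a : Fin (Module.finrank 𝕜 (G n)) => ε.symm ⟨n, a⟩,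
    fun i j => by simp [hF], fun i => (b _ _).2, fun n i => ?_, fun n x hx => ?_⟩
  · simp only [mem_image, mem_univ, true_and]
    constructor
    · rintro ⟨a, rfl⟩
      rw [Equiv.apply_symm_apply]
    · rintro rfl
      exact ⟨(ε i).2, ε.symm_apply_apply i⟩
  · have h1 := congrArg Subtype.val ((b n).sum_repr ⟨x, hx⟩)
    simp only [Submodule.coe_sum, Submodule.coe_smul] at h1
    rw [← h1]
    refine Submodule.sum_mem _ fun a _ => Submodule.smul_mem _ _ (Submodule.subset_span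
      ⟨ε.symm ⟨n, a⟩, by simp, ?_⟩)
    simp only [Equiv.apply_symm_apply]
    rfl

end Pool.Agent.Lib.MP_435322_an.UD
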