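import Pool.Agent.Lib.MP_435322_an.HCodim
import Pool.Agent.Lib.MP_435322_an.HMazur

/-! The dichotomy for large subspaces. -/

namespace Pool.Agent.Lib.MP_435322_an.UD

open Finset Filter

universe u v w

variable {𝕜 : Type w} [RCLike 𝕜] {X : Type u} [NormedAddCommGroup X] [NormedSpace 𝕜 X]

/-- diagonal stabilisation of countably many hereditary properties -/
theorem diag {κ : Type} [Countable κ] (P : κ → Submodule 𝕜 X → Prop)
    (hP : ∀ i (Y Y' F : Submodule 𝕜 X), IsClosed (Y : Set X) → FiniteDimensional 𝕜 F →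
      Y' ≤ F ⊔ Y → P i Y → P i Y')
    (hX : Large (⊤ : Submodule 𝕜 X)) :
    ∃ Z : Submodule 𝕜 X, IsClosed (Z : Set X) ∧ Large Z ∧
      ∀ i (Y : Submodule 𝕜 X), Y ≤ Z → IsClosed (Y : Set X) → Large Y → P i Y → P i Z := by
  cases isEmpty_or_nonempty κ with
  | inl h => exact ⟨⊤, isClosed_univ, hX, fun i => isEmptyElim i⟩
  | inr h =>
  obtain ⟨i, hi⟩ := exists_surjective_nat κ
  obtain ⟨Y, G, -, h1, h2⟩ := dc (fun Y : Submodule 𝕜 X => IsClosed (Y : Set X) ∧ Large Y)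
    (fun j Y Y' (G : Submodule 𝕜 X) => Y' ≤ Y ∧ G ≤ Y ∧ FiniteDimensional 𝕜 G ∧ ¬ Hilb G j ∧
      ∀ W ≤ Y, IsClosed (W : Set X) → Large W → P (i j) W → P (i j) Y') ⊤ ⟨isClosed_univ, hX⟩
    (fun j Y hY => by
      obtain ⟨G, a1, a2, a3⟩ := hY.2 j
      by_cases h : ∃ W ≤ Y, IsClosed (W : Set X) ∧ Large W ∧ P (i j) W
      · obtain ⟨W, b1, b2, b3, b4⟩ := h
        exact ⟨G, W, ⟨b2, b3⟩, b1, a1, a2, a3, fun _ _ _ _ _ => b4⟩
      · exact ⟨G, Y, hY, le_rfl, a1, a2, a3, fun W b1 b2 b3 b4 => (h ⟨W, b1, b2, b3, b4⟩).elim⟩)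
  have hfd : ∀ k, FiniteDimensional 𝕜 (G k) := fun k => (h2 k).2.2.1
  have hanti : Antitone Y := antitone_nat_of_succ_le fun j => (h2 j).1
  have key : ∀ n, ∃ F : Submodule 𝕜 X, FiniteDimensional 𝕜 F ∧
      (⨆ k, G k).topologicalClosure ≤ F ⊔ Y n := fun n => by
    refine ⟨(range n).sup G, inferInstance, Submodule.topologicalClosure_minimal _
      (iSup_le fun k => ?_) ?_⟩
    · rcases lt_or_ge k n with h | h
      · exact (Finset.le_sup (mem_range.2 h)).trans le_sup_left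
      · exact (h2 k).2.1.trans ((hanti h).trans le_sup_right)
    · rw [sup_comm]
      exact Submodule.isClosed_sup_finiteDimensional _ _ (h1 n).1
  refine ⟨(⨆ k, G k).topologicalClosure, Submodule.isClosed_topologicalClosure _,
    (large_iSup hfd fun k => (h2 k).2.2.2.1).mono (Submodule.le_topologicalClosure _),
    fun i0 W a1 a2 a3 a4 => ?_⟩
  obtain ⟨n, rfl⟩ := hi i0
  obtain ⟨F, b1, b2⟩ := key n
  obtain ⟨F', c1, c2⟩ := key (n + 1)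
  refine hP _ _ _ F' (h1 (n + 1)).1 c1 c2 ((h2 n).2.2.2.2 (W ⊓ Y n) inf_le_right
    (a2.inter (h1 n).1) (a3.inf_of_le_sup (a1.trans b2)) ?_)
  exact hP _ W _ ⊥ a2 inferInstance (inf_le_left.trans le_sup_right) a4

/-- the pair `x, y` can be completed to an almost parallel pair inside all large subspaces -/
def hdich_acc (Y : Submodule 𝕜 X) (ε : ℝ) (x y : X) (η : ℝ) : Prop :=
  ∀ U V : Submodule 𝕜 X, U ≤ Y → V ≤ Y → IsClosed (U : Set X) → IsClosed (V : Set X) →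
    Large U → Large V → ∃ u ∈ U, ∃ v ∈ V, ‖x + u - (y + v)‖ + η < ε * ‖x + u + (y + v)‖

theorem hdich_symm {Y : Submodule 𝕜 X} {ε η : ℝ} {x y : X} (h : hdich_acc Y ε x y η) :
    hdich_acc Y ε y x η := fun U V a1 a2 a3 a4 a5 a6 => by
  obtain ⟨v, hv, u, hu, h⟩ := h V U a2 a1 a4 a3 a6 a5
  exact ⟨u, hu, v, hv, by rwa [norm_sub_rev, add_comm (y + u)]⟩

theorem hdich_lip {Y : Submodule 𝕜 X} {ε η η' : ℝ} {x y x' y' : X} (hε : 0 ≤ ε)
    (h : hdich_acc Y ε x y η) (hη : η' + (1 + ε) * (‖x - x'‖ + ‖y - y'‖) ≤ η) :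
    hdich_acc Y ε x' y' η' := fun U V a1 a2 a3 a4 a5 a6 => by
  obtain ⟨u, hu, v, hv, h⟩ := h U V a1 a2 a3 a4 a5 a6
  refine ⟨u, hu, v, hv, ?_⟩
  have b1 : ‖x' + u - (y' + v)‖ ≤ ‖x + u - (y + v)‖ + (‖x - x'‖ + ‖y - y'‖) := by
    rw [show x' + u - (y' + v) = x + u - (y + v) - (x - x' - (y - y')) by abel]
    exact (norm_sub_le _ _).trans (add_le_add_right (norm_sub_le _ _) _)
  have b2 : ‖x + u + (y + v)‖ ≤ ‖x' + u + (y' + v)‖ + (‖x - x'‖ + ‖y - y'‖) := by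
    rw [show x + u + (y + v) = x' + u + (y' + v) + (x - x' + (y - y')) by abel]
    exact (norm_add_le _ _).trans (add_le_add_right (norm_add_le _ _) _)
  have b3 := mul_le_mul_of_nonneg_left b2 hε
  linarith

theorem hdich_key {Z : Submodule 𝕜 X} {ε : ℝ}
    (hS : ∀ (Y : Submodule 𝕜 X) (x y : X) (η η' : ℝ), Y ≤ Z → IsClosed (Y : Set X) → Large Y →
      η < η' → hdich_acc Y ε x y η' → hdich_acc Z ε x y η)
    {x y : X} {η η' : ℝ} (hη : η < η') (h : ¬ hdich_acc Z ε x y η) {Y : Submodule 𝕜 X}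
    (h1 : Y ≤ Z) (h2 : IsClosed (Y : Set X)) (h3 : Large Y) :
    ∃ U ≤ Y, IsClosed (U : Set X) ∧ Large U ∧ ∀ u ∈ U, ¬ hdich_acc Z ε (x + u) y η' := by
  by_contra! H
  refine h (hS Y x y η η' h1 h2 h3 hη fun U V a1 a2 a3 a4 a5 a6 => ?_)
  obtain ⟨u0, hu0, b⟩ := H U a1 a3 a5
  obtain ⟨u, hu, v, hv, b⟩ := b U V (a1.trans h1) (a2.trans h1) a3 a4 a5 a6
  exact ⟨u0 + u, U.add_mem hu0 hu, v, hv, by rwa [← add_assoc]⟩

theorem hdich_key2 {Z : Submodule 𝕜 X} {ε : ℝ} (hZ : IsClosed (Z : Set X)) (hZ' : Large Z)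
    (hS : ∀ (Y : Submodule 𝕜 X) (x y : X) (η η' : ℝ), Y ≤ Z → IsClosed (Y : Set X) → Large Y →
      η < η' → hdich_acc Y ε x y η' → hdich_acc Z ε x y η)
    {η η' : ℝ} (hη : η < η') (S : Finset (X × X)) (h : ∀ p ∈ S, ¬ hdich_acc Z ε p.1 p.2 η) :
    ∃ U ≤ Z, IsClosed (U : Set X) ∧ Large U ∧ ∀ p ∈ S, ∀ u ∈ U,
      ¬ hdich_acc Z ε (p.1 + u) p.2 η' ∧ ¬ hdich_acc Z ε p.1 (p.2 + u) η' := by
  classical
  induction S using Finset.induction_on with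
  | empty => exact ⟨Z, le_rfl, hZ, hZ', by simp⟩
  | insert p S _ ih =>
    obtain ⟨U, a1, a2, a3, a4⟩ := ih fun q hq => h q (mem_insert_of_mem hq)
    have hp := h p (mem_insert_self _ _)
    obtain ⟨V, b1, b2, b3, b4⟩ := hdich_key hS hη hp a1 a2 a3
    obtain ⟨W, c1, c2, c3, c4⟩ := hdich_key hS hη (mt hdich_symm hp) (b1.trans a1) b2 b3
    refine ⟨W, c1.trans (b1.trans a1), c2, c3, fun q hq u hu => ?_⟩
    rcases mem_insert.1 hq with rfl | hq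
    · exact ⟨b4 u (c1 hu), mt hdich_symm (c4 u hu)⟩
    · exact a4 q hq u (b1 (c1 hu))

theorem hdich_net (G : Submodule 𝕜 X) [FiniteDimensional 𝕜 G] {δ : ℝ} (hδ : 0 < δ) :
    ∃ T : Finset X, (∀ t ∈ T, t ∈ G) ∧ ∀ g ∈ G, ‖g‖ ≤ 4 → ∃ t ∈ T, ‖g - t‖ ≤ δ := by
  have := FiniteDimensional.proper_rclike 𝕜 G
  obtain ⟨t, h1, h2, h3⟩ := finite_cover_balls_of_compact
    ((isCompact_closedBall (0 : G) 4).image continuous_subtype_val) hδ
  refine ⟨h2.toFinset, fun x hx => ?_, fun g hg h => ?_⟩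
  · obtain ⟨y, -, rfl⟩ := h1 (h2.mem_toFinset.1 hx)
    exact y.2
  · obtain ⟨x, hx, h4⟩ := Set.mem_iUnion₂.1 (h3 ⟨⟨g, hg⟩, by simpa using h, rfl⟩)
    exact ⟨x, h2.mem_toFinset.2 hx, (mem_ball_iff_norm.1 h4).le⟩

theorem hdich_sign {G : ℕ → Submodule 𝕜 X} (hM : Mz G) {C : ℝ}
    (h : ∀ a b : ℕ → X, (∀ k, a k ∈ G k ∧ b k ∈ G k ∧ ‖a k‖ ≤ 4 ∧ ‖b k‖ ≤ 4 ∧
      (a k = 0 ∨ b k = 0)) → ∀ n, ‖∑ k ∈ range n, (a k - b k)‖ ≤ 1 →
      ‖∑ k ∈ range n, (a k + b k)‖ ≤ C) : SignG G C := by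
  have key : ∀ (σ : Finset ℕ) (z : ℕ → X), (∀ k, z k ∈ G k) → ∀ e : ℕ → ℤˣ,
      ‖∑ k ∈ σ, z k‖ ≤ 1 → ‖∑ k ∈ σ, e k • z k‖ ≤ C := by
    intro σ z hz e h1
    obtain ⟨n, hn⟩ := σ.exists_nat_subset_range
    have h2 : ∀ w : ℕ → X, ∑ k ∈ range n, (if k ∈ σ then w k else 0) = ∑ k ∈ σ, w k := fun w => by
      rw [sum_ite_mem, inter_eq_right.2 hn]
    have h3 : ∀ k ∈ σ, ‖z k‖ ≤ 4 := fun k hk => (hM.single hz hk).trans (by linarith)
    have := h (fun k => if k ∈ σ ∧ e k = 1 then z k else 0)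
      (fun k => if k ∈ σ ∧ e k = -1 then -z k else 0) (fun k => ?_) n ?_
    · rw [← h2]
      refine le_of_eq_of_le (congrArg _ (sum_congr rfl fun k _ => ?_)) this
      rcases Int.units_eq_one_or (e k) with h4 | h4 <;> by_cases h5 : k ∈ σ <;> simp [h4, h5]
    · rcases Int.units_eq_one_or (e k) with h4 | h4 <;> by_cases h5 : k ∈ σ <;>
        simp [h4, h5, hz k, h3 k]
    · rw [← h2] at h1
      refine le_of_eq_of_le (congrArg _ (sum_congr rfl fun k _ => ?_)) h1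
      rcases Int.units_eq_one_or (e k) with h4 | h4 <;> by_cases h5 : k ∈ σ <;> simp [h4, h5]
  intro σ z hz e
  rcases (norm_nonneg (∑ k ∈ σ, z k)).eq_or_lt with h0 | h0
  · rw [← h0, mul_zero, sum_eq_zero fun k hk => ?_, norm_zero]
    have := hM.single hz hk
    rw [← h0, mul_zero, norm_le_zero_iff] at this
    rw [this, smul_zero]
  · obtain ⟨r, hr⟩ : ∃ r, r = ‖∑ k ∈ σ, z k‖ := ⟨_, rfl⟩
    rw [← hr] at h0 ⊢
    have h1 : ‖((r⁻¹ : ℝ) : 𝕜)‖ = r⁻¹ := by rw [RCLike.norm_ofReal, abs_of_pos (inv_pos.2 h0)]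
    have := key σ (fun k => ((r⁻¹ : ℝ) : 𝕜) • z k) (fun k => (G k).smul_mem _ (hz k)) e
      (by rw [← smul_sum, norm_smul, h1, ← hr, inv_mul_cancel₀ h0.ne'])
    simp only [smul_comm (e _)] at this
    rwa [← smul_sum, norm_smul, h1, inv_mul_le_iff₀ h0, mul_comm] at this

theorem dichotomy [TopologicalSpace.SeparableSpace X] (hX : Large (⊤ : Submodule 𝕜 X)) :
    (∃ (G : ℕ → Submodule 𝕜 X) (C : ℝ), (∀ k, FiniteDimensional 𝕜 (G k)) ∧
      (∀ k : ℕ, ¬ Hilb (G k) k) ∧ SignG G C) ∨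
    ∃ Z : Submodule 𝕜 X, IsClosed (Z : Set X) ∧ Large Z ∧ HI Z := by
  classical
  obtain ⟨d, hd⟩ := TopologicalSpace.exists_dense_seq X
  obtain ⟨Z, hZ, hZ', hD⟩ := diag (κ := ℕ × ℕ × ℚ × ℕ)
    (fun i Y => hdich_acc Y (1 / (i.2.2.2 + 1)) (d i.1) (d i.2.1) i.2.2.1)
    (fun i Y Y' F a1 a2 a3 h U V b1 b2 b3 b4 b5 b6 => by
      obtain ⟨u, hu, v, hv, h⟩ := h (U ⊓ Y) (V ⊓ Y) inf_le_right inf_le_right (b3.inter a1)
        (b4.inter a1) (b5.inf_of_le_sup (b1.trans a3)) (b6.inf_of_le_sup (b2.trans a3))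
      exact ⟨u, hu.1, v, hv.1, h⟩) hX
  by_cases hA : ∀ k : ℕ, hdich_acc Z (1 / (k + 1)) 0 0 0
  · refine Or.inr ⟨Z, hZ, hZ', fun U V a1 a2 a3 a4 ε hε => ?_⟩
    obtain ⟨k, hk⟩ := exists_nat_one_div_lt hε
    obtain ⟨u, hu, v, hv, h⟩ := hA k U.topologicalClosure V.topologicalClosure
      (U.topologicalClosure_minimal a1 hZ) (V.topologicalClosure_minimal a2 hZ)
      U.isClosed_topologicalClosure V.isClosed_topologicalClosure
      (a3.mono U.le_topologicalClosure) (a4.mono V.le_topologicalClosure)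
    simp only [zero_add, add_zero] at h
    have h1 : (u, v) ∈ closure ((U : Set X) ×ˢ (V : Set X)) := by
      rw [closure_prod_eq]
      exact ⟨hu, hv⟩
    obtain ⟨p, h2, h3⟩ := mem_closure_iff.1 h1 {p : X × X | ‖p.1 - p.2‖ < ε * ‖p.1 + p.2‖}
      (isOpen_lt (by fun_prop) (by fun_prop))
      (h.trans_le (mul_le_mul_of_nonneg_right hk.le (norm_nonneg _)))
    exact ⟨p.1, h3.1, p.2, h3.2, h2⟩
  left
  obtain ⟨k0, hk0⟩ := not_forall.1 hA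
  have hS : ∀ (Y : Submodule 𝕜 X) (x y : X) (η η' : ℝ), Y ≤ Z → IsClosed (Y : Set X) → Large Y →
      η < η' → hdich_acc Y (1 / (k0 + 1)) x y η' → hdich_acc Z (1 / (k0 + 1)) x y η := by
    intro Y x y η η' a1 a2 a3 a4 h
    obtain ⟨q, q1, q2⟩ := exists_rat_btwn a4
    obtain ⟨m, hm, m1, m2⟩ : ∃ m > 0, m ≤ q - η ∧ m ≤ η' - q :=
      ⟨_, lt_min (sub_pos.2 q1) (sub_pos.2 q2), min_le_left _ _, min_le_right _ _⟩
    obtain ⟨i, hi⟩ := hd.exists_dist_lt x (show 0 < m / 4 by positivity)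
    obtain ⟨j, hj⟩ := hd.exists_dist_lt y (show 0 < m / 4 by positivity)
    rw [dist_eq_norm] at hi hj
    have e0 : (0 : ℝ) ≤ 1 / (k0 + 1) := by positivity
    have e1 : (1 : ℝ) / (k0 + 1) ≤ 1 := div_le_one_of_le₀ (by simp) (by positivity)
    have e2 : (1 + 1 / (k0 + 1 : ℝ)) * (‖x - d i‖ + ‖y - d j‖) ≤ 2 * (m / 2) :=
      mul_le_mul (by linarith) (by linarith) (by positivity) (by norm_num)
    refine hdich_lip e0 (hD (i, j, q, k0) Y a1 a2 a3 (hdich_lip e0 h (by linarith))) ?_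
    rw [norm_sub_rev (d i), norm_sub_rev (d j)]
    linarith
  have hε : (0 : ℝ) < 1 / (k0 + 1) := by positivity
  generalize (1 : ℝ) / (k0 + 1) = ε at hS hk0 hε
  obtain ⟨S, G, s0, s1, s2, s3, s4⟩ := builder (𝕜 := 𝕜) (X := X)
    (fun k (S : Finset (X × X)) => ∀ p ∈ S, ¬ hdich_acc Z ε p.1 p.2 (1 - (1 / 2) ^ k))
    (fun k S S' G => ¬ Hilb G k ∧ ∀ p ∈ S, ∀ g ∈ G, ‖g‖ ≤ 4 → ∃ t, ‖g - t‖ ≤ (1 / 2) ^ k ∧
      (p.1 + t, p.2) ∈ S' ∧ (p.1, p.2 + t) ∈ S') {(0, 0)} (by simpa using hk0)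
    (fun k S hI ι _ f => by
      have h1 : (0 : ℝ) < (1 / 2) ^ k := by positivity
      obtain ⟨U, -, -, a3, a4⟩ := hdich_key2 hZ hZ' hS (η' := 1 - (1 / 2) ^ (k + 1))
        (by rw [pow_succ]; linarith) S hI
      obtain ⟨G, b1, b2, b3⟩ := a3.inf_Kr f k
      obtain ⟨T, c1, c2⟩ := hdich_net G h1
      refine ⟨G, (S ×ˢ T).image (fun q => (q.1.1 + q.2, q.1.2)) ∪
        (S ×ˢ T).image (fun q => (q.1.1, q.1.2 + q.2)), b2, b1.trans inf_le_right,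
        fun p hp => ?_, b3, fun p hp g hg h => ?_⟩
      · rcases mem_union.1 hp with hp | hp <;> obtain ⟨q, hq, rfl⟩ := mem_image.1 hp <;>
          have := a4 q.1 (mem_product.1 hq).1 q.2 (b1 (c1 _ (mem_product.1 hq).2)).1
        exacts [this.1, this.2]
      · obtain ⟨t, ht, h⟩ := c2 g hg h
        exact ⟨t, h, mem_union_left _ (mem_image.2 ⟨(p, t), mem_product.2 ⟨hp, ht⟩, rfl⟩),
          mem_union_right _ (mem_image.2 ⟨(p, t), mem_product.2 ⟨hp, ht⟩, rfl⟩)⟩)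
  refine ⟨G, 2 + 4 / ε, s2, fun k => (s3 k).1, hdich_sign s4 fun a b h n hn => ?_⟩
  have key : ∀ n, ∃ p ∈ S n, ‖∑ k ∈ range n, a k - p.1‖ + ‖∑ k ∈ range n, b k - p.2‖ ≤
      2 - 2 * (1 / 2) ^ n := by
    intro n
    induction n with
    | zero => exact ⟨(0, 0), by simp [s0], by simp⟩
    | succ n ih =>
      obtain ⟨p, hp, ih⟩ := ih
      obtain ⟨a1, a2, a3, a4, a5 | a5⟩ := h n
      · obtain ⟨t, b1, -, b2⟩ := (s3 n).2 p hp _ a2 a4
        refine ⟨_, b2, ?_⟩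
        have := norm_add_le (∑ k ∈ range n, b k - p.2) (b n - t)
        rw [sum_range_succ, sum_range_succ, a5, add_zero, add_sub_add_comm, pow_succ]
        linarith
      · obtain ⟨t, b1, b2, -⟩ := (s3 n).2 p hp _ a1 a3
        refine ⟨_, b2, ?_⟩
        have := norm_add_le (∑ k ∈ range n, a k - p.1) (a n - t)
        rw [sum_range_succ, sum_range_succ, a5, add_zero, add_sub_add_comm, pow_succ]
        linarith
  obtain ⟨p, hp, h1⟩ := key n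
  have h0 : (0 : ℝ) < (1 / 2) ^ n := by positivity
  have h2 : ε * ‖p.1 + p.2‖ ≤ ‖p.1 - p.2‖ + (1 - (1 / 2) ^ n) := by
    by_contra! h3
    exact s1 n p hp fun U V _ _ _ _ _ _ => ⟨0, U.zero_mem, 0, V.zero_mem, by simpa using h3⟩
  rw [sum_sub_distrib] at hn
  rw [sum_add_distrib]
  generalize ∑ k ∈ range n, a k = x at *
  generalize ∑ k ∈ range n, b k = y at *
  have h3 : ‖p.1 - p.2‖ ≤ ‖x - y‖ + (‖x - p.1‖ + ‖y - p.2‖) := by
    rw [show p.1 - p.2 = x - y - (x - p.1 - (y - p.2)) by abel]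
    exact (norm_sub_le _ _).trans (add_le_add_right (norm_sub_le _ _) _)
  have h4 : ‖x + y‖ ≤ ‖p.1 + p.2‖ + (‖x - p.1‖ + ‖y - p.2‖) := by
    rw [show x + y = p.1 + p.2 + (x - p.1 + (y - p.2)) by abel]
    exact (norm_add_le _ _).trans (add_le_add_right (norm_add_le _ _) _)
  have h5 : ‖p.1 + p.2‖ ≤ 4 / ε := by
    rw [le_div_iff₀' hε]
    linarith
  linarith

end Pool.Agent.Lib.MP_435322_an.UD
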