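import Mathlib

/-! Analytic sets have the Baire property. -/

namespace Pool.Agent.Lib.MP_435322_an.UD

open Filter

/-- The points at which `A` is not locally meagre. -/
def hbpK {α : Type*} [TopologicalSpace α] (A : Set α) : Set α :=
  {p | ∀ U : Set α, IsOpen U → p ∈ U → ¬ IsMeagre (A ∩ U)}

theorem hbp_closed {α : Type*} [TopologicalSpace α] (A : Set α) : IsClosed (hbpK A) := by
  rw [← isOpen_compl_iff, isOpen_iff_forall_mem_open]
  intro p hp
  simp only [hbpK, Set.mem_compl_iff, Set.mem_ofPred_eq, not_forall, not_not] at hp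
  obtain ⟨U, hU, hpU, hm⟩ := hp
  exact ⟨U, fun q hq hK => hK U hU hq hm, hU, hpU⟩

theorem hbp_sub_closure {α : Type*} [TopologicalSpace α] (A : Set α) : hbpK A ⊆ closure A := by
  intro p hp
  rw [mem_closure_iff]
  intro U hU hpU
  obtain ⟨q, hq⟩ := nonempty_of_not_isMeagre (hp U hU hpU)
  exact ⟨q, hq.2, hq.1⟩

theorem hbp_diff_meagre {α : Type*} [TopologicalSpace α] [SecondCountableTopology α] (A : Set α) :
    IsMeagre (A \ hbpK A) := by
  have hc : ({U ∈ TopologicalSpace.countableBasis α | IsMeagre (A ∩ U)} : Set (Set α)).Countable :=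
    (TopologicalSpace.countable_countableBasis α).mono (Set.sep_subset _ _)
  refine IsMeagre.mono ?_ (isMeagre_biUnion hc (f := fun U => A ∩ U) (fun U hU => hU.2))
  rintro p ⟨hpA, hp⟩
  simp only [hbpK, Set.mem_ofPred_eq, not_forall, not_not] at hp
  obtain ⟨U, hU, hpU, hm⟩ := hp
  obtain ⟨V, hV, hpV, hVU⟩ :=
    (TopologicalSpace.isBasis_countableBasis α).exists_subset_of_mem_open hpU hU
  exact Set.mem_biUnion (x := V) ⟨hV, hm.mono (Set.inter_subset_inter_right _ hVU)⟩ ⟨hpA, hpV⟩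

theorem hbp_frontier_meagre {α : Type*} [TopologicalSpace α] {C : Set α} (hC : IsClosed C) :
    IsMeagre (C \ interior C) := by
  refine IsNowhereDense.isMeagre ?_
  have h1 : IsClosed (C \ interior C) := hC.sdiff isOpen_interior
  rw [h1.isNowhereDense_iff, Set.eq_empty_iff_forall_notMem]
  intro p hp
  exact (interior_subset hp).2 (interior_mono Set.sdiff_subset hp)

theorem hbp_closure_diff_meagre {α : Type*} [TopologicalSpace α] {V : Set α} (hV : IsOpen V) :
    IsMeagre (closure V \ V) := by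
  refine IsNowhereDense.isMeagre ?_
  have h1 : IsClosed (closure V \ V) := isClosed_closure.sdiff hV
  rw [h1.isNowhereDense_iff, Set.eq_empty_iff_forall_notMem]
  intro p hp
  obtain ⟨q, hq, hqV⟩ := mem_closure_iff.1 (interior_subset hp).1 _ isOpen_interior hp
  exact (interior_subset hq).2 hqV

theorem hbp_interior_nonempty {α : Type*} [TopologicalSpace α] [SecondCountableTopology α]
    {A U : Set α} (h : ¬ IsMeagre (A ∩ U)) : (U ∩ interior (hbpK A)).Nonempty := by
  by_contra hne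
  refine h (IsMeagre.mono ?_ ((hbp_diff_meagre A).union (hbp_frontier_meagre (hbp_closed A))))
  rintro p ⟨hpA, hpU⟩
  by_cases hK : p ∈ hbpK A
  · exact Or.inr ⟨hK, fun hi => hne ⟨p, hpU, hi⟩⟩
  · exact Or.inl ⟨hpA, hK⟩

theorem hbp_union_meagre {α : Type*} [TopologicalSpace α] [SecondCountableTopology α]
    {A : Set α} {B : ℕ → Set α} (h : A ⊆ ⋃ k, B k) : IsMeagre (hbpK A \ ⋃ k, hbpK (B k)) := by
  have hV : IsOpen (⋃ k, interior (hbpK (B k))) := isOpen_iUnion fun _ => isOpen_interior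
  refine IsMeagre.mono ?_ (hbp_closure_diff_meagre hV)
  rintro p ⟨hp, hp'⟩
  refine ⟨?_, fun hq => hp' ?_⟩
  · rw [mem_closure_iff]
    intro U hU hpU
    have h1 : ¬ ∀ k, IsMeagre (B k ∩ U) := by
      intro hall
      refine hp U hU hpU (IsMeagre.mono ?_ (isMeagre_iUnion hall))
      rintro q ⟨hqA, hqU⟩
      obtain ⟨k, hk⟩ := Set.mem_iUnion.1 (h hqA)
      exact Set.mem_iUnion.2 ⟨k, hk, hqU⟩
    obtain ⟨k, hk⟩ := not_forall.1 h1
    obtain ⟨q, hqU, hq⟩ := hbp_interior_nonempty hk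
    exact ⟨q, hqU, Set.mem_iUnion.2 ⟨k, hq⟩⟩
  · obtain ⟨k, hk⟩ := Set.mem_iUnion.1 hq
    exact Set.mem_iUnion.2 ⟨k, interior_subset hk⟩

theorem analytic_baire {α : Type*} [TopologicalSpace α] [PolishSpace α] {s : Set α}
    (hs : MeasureTheory.AnalyticSet s) : BaireMeasurableSet s := by
  rw [MeasureTheory.AnalyticSet] at hs
  rcases hs with rfl | ⟨f, hf, rfl⟩
  · exact isOpen_empty.baireMeasurableSet
  let A : List ℕ → Set α := fun l => f '' {y | PiNat.res y l.length = l}
  have hA : ∀ l, A l ⊆ ⋃ k, A (k :: l) := by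
    rintro l _ ⟨y, hy, rfl⟩
    refine Set.mem_iUnion.2 ⟨y l.length, y, ?_, rfl⟩
    simp only [Set.mem_ofPred_eq] at hy ⊢
    rw [List.length_cons, PiNat.res_succ, hy]
  have hA0 : A [] = Set.range f := by
    simp [A]
  have hD : IsMeagre (⋃ l, hbpK (A l) \ ⋃ k, hbpK (A (k :: l))) :=
    isMeagre_iUnion fun l => hbp_union_meagre (hA l)
  have key : hbpK (Set.range f) \ Set.range f ⊆ ⋃ l, hbpK (A l) \ ⋃ k, hbpK (A (k :: l)) := by
    rintro p ⟨hp, hp'⟩
    by_contra hcon
    have hnext : ∀ l, ∃ k, p ∈ hbpK (A l) → p ∈ hbpK (A (k :: l)) := by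
      intro l
      by_cases hl : p ∈ hbpK (A l)
      · by_contra hno
        refine hcon (Set.mem_iUnion.2 ⟨l, hl, fun hq => ?_⟩)
        obtain ⟨k, hk⟩ := Set.mem_iUnion.1 hq
        exact hno ⟨k, fun _ => hk⟩
      · exact ⟨0, fun h => absurd h hl⟩
    choose nx hnx using hnext
    let w : ℕ → List ℕ := fun n => Nat.rec [] (fun _ l => nx l :: l) n
    let x : ℕ → ℕ := fun n => nx (w n)
    have hw : ∀ n, PiNat.res x n = w n := by
      intro n
      induction n with
      | zero => rfl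
      | succ n ih => rw [PiNat.res_succ, ih]
    have hpw : ∀ n, p ∈ hbpK (A (w n)) := by
      intro n
      induction n with
      | zero => rw [show w 0 = [] from rfl, hA0]; exact hp
      | succ n ih => exact hnx _ ih
    have hne : f x ≠ p := fun h => hp' ⟨x, h⟩
    obtain ⟨U, V, hU, hV, hxU, hpV, hUV⟩ := t2_separation hne
    obtain ⟨_, ⟨y, n, rfl⟩, hxy, hsub⟩ :=
      (PiNat.isTopologicalBasis_cylinders (fun _ : ℕ => ℕ)).exists_subset_of_mem_open
        (show x ∈ f ⁻¹' U from hxU) (hU.preimage hf)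
    obtain ⟨_, hqV, z, hz, rfl⟩ := mem_closure_iff.1 (hbp_sub_closure _ (hpw n)) V hV hpV
    have hz' : z ∈ PiNat.cylinder y n := by
      rw [← PiNat.mem_cylinder_iff_eq.1 hxy, PiNat.cylinder_eq_res]
      simp only [Set.mem_ofPred_eq] at hz ⊢
      rw [← hw, PiNat.res_length] at hz
      exact hz
    exact Set.disjoint_left.1 hUV (hsub hz') hqV
  have h1 : IsMeagre (hbpK (Set.range f) \ Set.range f) := hD.mono key
  have h2 := hbp_diff_meagre (Set.range f)
  have h3 : BaireMeasurableSet (hbpK (Set.range f)) :=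
    (hbp_closed _).isOpen_compl.baireMeasurableSet.of_compl
  have h4 : Set.range f = (hbpK (Set.range f) \ (hbpK (Set.range f) \ Set.range f)) ∪
      (Set.range f \ hbpK (Set.range f)) := by
    ext p
    simp only [Set.mem_union, Set.mem_sdiff]
    tauto
  rw [h4]
  exact (h3.diff h1.baireMeasurableSet).union h2.baireMeasurableSet

end Pool.Agent.Lib.MP_435322_an.UD
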