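import Mathlib

/-! A Baire category alternative on Cantor space. -/

namespace Pool.Agent.Lib.MP_435322_an.UD

open Finset Filter

theorem hbaire_cyl1 {s : ℕ → Bool} {U : Set (ℕ → Bool)} (h : U ∈ nhds s) :
    ∃ L, ∀ a : ℕ → Bool, (∀ i < L, a i = s i) → a ∈ U := by
  rw [nhds_pi, Filter.mem_pi] at h
  obtain ⟨J, hJ, t, ht, h⟩ := h
  obtain ⟨L, hL⟩ := hJ.bddAbove
  exact ⟨L + 1, fun a ha => h fun i hi =>
    (ha i (Nat.lt_succ_of_le (hL hi))) ▸ mem_of_mem_nhds (ht i)⟩

theorem hbaire_cyl {s t : ℕ → Bool} {U : Set ((ℕ → Bool) × (ℕ → Bool))} (h : U ∈ nhds (s, t)) :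
    ∃ L, ∀ a b : ℕ → Bool, (∀ i < L, a i = s i ∧ b i = t i) → (a, b) ∈ U := by
  obtain ⟨A, hA, B, hB, h⟩ := mem_nhds_prod_iff.1 h
  obtain ⟨L, hL⟩ := hbaire_cyl1 hA
  obtain ⟨M, hM⟩ := hbaire_cyl1 hB
  exact ⟨max L M, fun a b c => h ⟨hL a fun i hi => (c i (by omega)).1,
    hM b fun i hi => (c i (by omega)).2⟩⟩

/-- change the first `L` bits by `w` -/
def hbaire_fl {L : ℕ} (w : Fin L → Bool) (a : ℕ → Bool) (i : ℕ) : Bool :=
  if h : i < L then xor (w ⟨i, h⟩) (a i) else a i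

theorem hbaire_fl_fl {L : ℕ} (w : Fin L → Bool) (a : ℕ → Bool) :
    hbaire_fl w (hbaire_fl w a) = a := by
  funext i
  unfold hbaire_fl
  split_ifs <;> simp

theorem hbaire_fl_cont {L : ℕ} (w : Fin L → Bool) : Continuous (hbaire_fl w) :=
  continuous_pi fun i => (continuous_of_discreteTopology
    (f := fun b : Bool => if h : i < L then xor (w ⟨i, h⟩) b else b)).comp (continuous_apply i)

theorem hbaire_step {U : Set ((ℕ → Bool) × (ℕ → Bool))} (ho : IsOpen U) (hd : Dense U) (L : ℕ) :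
    ∃ L' > L, ∃ u v : ℕ → Bool,
      (∑ i ∈ Ico L L', if u i = true then 1 else 0) =
        (∑ i ∈ Ico L L', if v i = true then 1 else 0) ∧
      ∀ a b : ℕ → Bool, (∀ i, L ≤ i → i < L' → a i = u i ∧ b i = v i) →
        (a, b) ∈ U ∧ (b, a) ∈ U := by
  have o1 : IsOpen (U ∩ Prod.swap ⁻¹' U) := ho.inter (ho.preimage continuous_swap)
  have d1 : Dense (U ∩ Prod.swap ⁻¹' U) :=
    hd.inter_of_isOpen_left (hd.preimage (Homeomorph.prodComm _ _).isOpenMap) ho
  let ψ : (Fin L → Bool) × (Fin L → Bool) → (ℕ → Bool) × (ℕ → Bool) → (ℕ → Bool) × (ℕ → Bool) :=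
    fun w p => (hbaire_fl w.1 p.1, hbaire_fl w.2 p.2)
  have c1 : ∀ w, Continuous (ψ w) := fun w =>
    ((hbaire_fl_cont _).comp continuous_fst).prodMk ((hbaire_fl_cont _).comp continuous_snd)
  have c2 : ∀ w p, ψ w (ψ w p) = p := fun w p => by simp [ψ, hbaire_fl_fl]
  obtain ⟨⟨s, t⟩, h⟩ := (dense_iInter_of_isOpen (fun w => o1.preimage (c1 w))
    fun w => d1.preimage (IsOpenMap.of_inverse (c1 w) (c2 w) (c2 w))).nonempty
  obtain ⟨M, hM⟩ := hbaire_cyl
    ((isOpen_iInter_of_finite fun w => o1.preimage (c1 w)).mem_nhds h)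
  obtain ⟨r, hr, hr'⟩ : ∃ r, 0 < r ∧ M ≤ L + r := ⟨M + 1, by omega, by omega⟩
  refine ⟨L + r + r, by omega, fun i => if i < L + r then s i else t (i - r),
    fun i => if i < L + r then t i else s (i - r), ?_, fun a b hab => ?_⟩
  · have key : ∀ s t : ℕ → Bool, (∑ i ∈ Ico L (L + r + r),
        if (if i < L + r then s i else t (i - r)) = true then 1 else 0) =
        (∑ i ∈ Ico L (L + r), if s i = true then 1 else 0) +
          ∑ i ∈ Ico L (L + r), if t i = true then 1 else 0 := fun s t => by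
      rw [← sum_Ico_consecutive _ (Nat.le_add_right L r) (Nat.le_add_right _ r),
        ← sum_Ico_add' _ L (L + r) r]
      congr 1
      · exact sum_congr rfl fun i hi => by rw [if_pos (mem_Ico.1 hi).2]
      · exact sum_congr rfl fun i hi => by
          rw [if_neg (show ¬ i + r < L + r by have := (mem_Ico.1 hi).1; omega), Nat.add_sub_cancel]
    rw [key, key, add_comm]
  · let w : (Fin L → Bool) × (Fin L → Bool) := (fun i => xor (a i) (s i), fun i => xor (b i) (t i))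
    have h1 := Set.mem_iInter.1 (hM (ψ w (a, b)).1 (ψ w (a, b)).2 fun i hi => by
      simp only [ψ, w, hbaire_fl]
      split_ifs with c
      · cases a i <;> cases b i <;> simp
      · simpa [show i < L + r by omega] using hab i (by omega) (by omega)) w
    rw [Set.mem_preimage, c2] at h1
    exact h1

theorem hbaire_seq {U : ℕ → Set ((ℕ → Bool) × (ℕ → Bool))} (ho : ∀ k, IsOpen (U k))
    (hd : ∀ k, Dense (U k)) (I : ℕ → Finset ℕ) (hI : ∀ L, ∀ᶠ n in atTop, ∀ i ∈ I n, L ≤ i)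
    (L₀ : ℕ) : ∃ (l l' κ : ℕ → ℕ) (u v : ℕ → Bool), l 0 = L₀ ∧ StrictMono l ∧
      (∀ k, l k ≤ l' k ∧ l' k ≤ l (k + 1)) ∧ (∀ i, i < l (κ i + 1)) ∧
      (∀ k i, l k ≤ i → i < l (k + 1) → κ i = k) ∧
      (∀ k, (∑ i ∈ Ico (l k) (l' k), if u i = true then 1 else 0) =
        ∑ i ∈ Ico (l k) (l' k), if v i = true then 1 else 0) ∧
      (∀ k (a b : ℕ → Bool), (∀ i, l k ≤ i → i < l' k → a i = u i ∧ b i = v i) →
        ∀ j ≤ k, (a, b) ∈ U j ∧ (b, a) ∈ U j) ∧
      ∀ k, ∃ n, k ≤ n ∧ ∀ i ∈ I n, l' k ≤ i ∧ i < l (k + 1) := by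
  have st : ∀ k L, ∃ L' > L, ∃ u v : ℕ → Bool,
      (∑ i ∈ Ico L L', if u i = true then 1 else 0) =
        (∑ i ∈ Ico L L', if v i = true then 1 else 0) ∧
      (∀ a b : ℕ → Bool, (∀ i, L ≤ i → i < L' → a i = u i ∧ b i = v i) →
        ∀ j ≤ k, (a, b) ∈ U j ∧ (b, a) ∈ U j) ∧
      ∃ M, L' ≤ M ∧ ∃ n, k ≤ n ∧ ∀ i ∈ I n, L' ≤ i ∧ i < M := fun k L => by
    obtain ⟨L', h1, u, v, h2, h3⟩ := hbaire_step (U := ⋂ j : Fin (k + 1), U j)
      (isOpen_iInter_of_finite fun j => ho j)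
      (dense_iInter_of_isOpen (fun j => ho _) fun j => hd _) L
    obtain ⟨n, h4, h5⟩ := ((hI L').and (eventually_ge_atTop k)).exists
    obtain ⟨M, hM⟩ := (I n).bddAbove
    exact ⟨L', h1, u, v, h2, fun a b c j hj =>
      ⟨Set.mem_iInter.1 (h3 a b c).1 ⟨j, by omega⟩, Set.mem_iInter.1 (h3 a b c).2 ⟨j, by omega⟩⟩,
      max L' (M + 1), le_max_left _ _, n, h5, fun i hi =>
        ⟨h4 i hi, lt_max_of_lt_right (Nat.lt_succ_of_le (hM hi))⟩⟩
  choose L' h1 u v h2 h3 M h4 h5 using st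
  let l : ℕ → ℕ := fun k => Nat.rec L₀ (fun k m => M k m) k
  have e : ∀ k, l (k + 1) = M k (l k) := fun k => rfl
  have sm : StrictMono l := strictMono_nat_of_lt_succ fun k => (h1 k _).trans_le (h4 k _)
  have ex : ∀ i, ∃ k, i < l (k + 1) := fun i => ⟨i, sm.le_apply⟩
  have hκ : ∀ k i, l k ≤ i → i < l (k + 1) → Nat.find (ex i) = k := fun k i a b =>
    (Nat.find_eq_iff _).2 ⟨b, fun m hm c => by have := sm.monotone (show m + 1 ≤ k from hm); omega⟩
  have hJ : ∀ k i, l k ≤ i → i < L' k (l k) → Nat.find (ex i) = k := fun k i a b =>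
    hκ k i a (b.trans_le (h4 k _))
  refine ⟨l, fun k => L' k (l k), fun i => Nat.find (ex i),
    fun i => u (Nat.find (ex i)) (l (Nat.find (ex i))) i,
    fun i => v (Nat.find (ex i)) (l (Nat.find (ex i))) i, rfl, sm,
    fun k => ⟨(h1 k _).le, h4 k _⟩, fun i => Nat.find_spec (ex i), hκ, fun k => ?_,
    fun k a b c => h3 k (l k) a b fun i x y => ?_, fun k => h5 k _⟩
  · refine (sum_congr rfl fun i hi => ?_).trans ((h2 k (l k)).trans (sum_congr rfl fun i hi => ?_))
      <;> simp only [hJ k i (mem_Ico.1 hi).1 (mem_Ico.1 hi).2]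
  · simpa only [hJ k i x y] using c i x y

theorem baire_alt (E : (ℕ → Bool) → (ℕ → Bool) → Prop) (hs : ∀ a b, E a b → E b a)
    (ht : ∀ a b c, E a b → E b c → E a c)
    (hB : BaireMeasurableSet {p : (ℕ → Bool) × (ℕ → Bool) | E p.1 p.2})
    (hinv : ∀ (a b : ℕ → Bool) (L : ℕ), (∀ i, L ≤ i → a i = b i) →
      ((Finset.range L).filter fun i => a i = true).card =
        ((Finset.range L).filter fun i => b i = true).card → E a b)
    (I : ℕ → Finset ℕ) (hI : ∀ L, ∀ᶠ n in atTop, ∀ i ∈ I n, L ≤ i) :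
    (∃ g : (ℕ → Bool) → (ℕ → Bool), Continuous g ∧
      ∀ x y, (∀ᶠ n in atTop, x n = y n) ↔ E (g x) (g y)) ∨
    ∃ a b : ℕ → Bool, (∀ i, b i = true → a i = true) ∧ E a b ∧
      ∀ N, ∃ n, N ≤ n ∧ ∀ i ∈ I n, a i = true ∧ b i = false := by
  obtain ⟨O, hO, h⟩ := hB.residualEq_isOpen
  obtain ⟨S, s1, s2, s3, s4⟩ := mem_residual_iff.1 h
  obtain ⟨U, hU⟩ := (s3.insert Set.univ).exists_eq_range (Set.insert_nonempty _ _)
  have hm : ∀ k, U k = Set.univ ∨ U k ∈ S := fun k =>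
    Set.mem_insert_iff.1 (hU ▸ Set.mem_range_self k)
  have ho : ∀ k, IsOpen (U k) := fun k => (hm k).elim (fun e => e ▸ isOpen_univ) (s1 _)
  have hd : ∀ k, Dense (U k) := fun k => (hm k).elim (fun e => e ▸ dense_univ) (s2 _)
  have hE : ∀ a b, (∀ k, (a, b) ∈ U k) → (E a b ↔ (a, b) ∈ O) := fun a b c => by
    refine iff_of_eq (s4 (a := (a, b)) fun W hW => ?_)
    obtain ⟨k, rfl⟩ : W ∈ Set.range U := hU ▸ Set.mem_insert_of_mem _ hW
    exact c k
  rcases O.eq_empty_or_nonempty with rfl | ⟨⟨s, t⟩, hst⟩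
  · obtain ⟨l, l', κ, u, v, l0, sm, h1, h2, h3, h4, h5, -⟩ := hbaire_seq ho hd I hI 0
    let g : (ℕ → Bool) → ℕ → Bool := fun x i =>
      if i < l' (κ i) then (if x (κ i) = true then u i else v i) else false
    have g1 : ∀ x k i, l k ≤ i → i < l' k → g x i = if x k = true then u i else v i :=
      fun x k i a b => by simp only [g, h3 k i a (b.trans_le (h1 k).2), if_pos b]
    have g2 : ∀ x k, (∑ i ∈ Ico (l k) (l (k + 1)), if g x i = true then 1 else 0) =
        ∑ i ∈ Ico (l k) (l' k), if u i = true then 1 else 0 := fun x k => by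
      rw [← sum_Ico_consecutive _ (h1 k).1 (h1 k).2, sum_eq_zero (s := Ico (l' k) _) fun i hi => by
        obtain ⟨a, b⟩ := mem_Ico.1 hi
        simp [g, h3 k i ((h1 k).1.trans a) b, a.not_gt], add_zero,
        sum_congr rfl fun i hi => by rw [g1 x k i (mem_Ico.1 hi).1 (mem_Ico.1 hi).2]]
      cases x k
      · simpa using (h4 k).symm
      · simp
    have g3 : ∀ x y N, (∑ i ∈ range (l N), if g x i = true then 1 else 0) =
        ∑ i ∈ range (l N), if g y i = true then 1 else 0 := fun x y N => by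
      induction N with
      | zero => simp [l0]
      | succ N ih =>
        rw [← sum_range_add_sum_Ico _ (sm.monotone N.le_succ),
          ← sum_range_add_sum_Ico _ (sm.monotone N.le_succ), ih, g2, g2]
    refine Or.inl ⟨g, continuous_pi fun i => (continuous_of_discreteTopology (f := fun b : Bool =>
      if i < l' (κ i) then (if b = true then u i else v i) else false)).comp
      (continuous_apply (κ i)), fun x y => ⟨fun c => ?_, fun c => ?_⟩⟩
    · obtain ⟨N, hN⟩ := eventually_atTop.1 c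
      refine hinv _ _ (l N) (fun i hi => ?_) (by rw [card_filter, card_filter, g3 x y])
      simp only [g, hN (κ i) (Nat.le_of_lt_succ (sm.lt_iff_lt.1 (hi.trans_lt (h2 i))))]
    · by_contra d
      refine (hE _ _ fun j => ?_).1 c
      obtain ⟨k, a, b⟩ := frequently_atTop.1 (not_eventually.1 d) j
      cases e : x k
      · have e' : y k = true := by simpa [e] using b
        exact (h5 k (g y) (g x) (fun i p q => by simp [g1 _ k i p q, e, e']) j a).2
      · have e' : y k = false := by simpa [e] using b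
        exact (h5 k (g x) (g y) (fun i p q => by simp [g1 _ k i p q, e, e']) j a).1
  · obtain ⟨L, hL⟩ := hbaire_cyl (hO.mem_nhds hst)
    obtain ⟨l, l', κ, u, v, l0, sm, h1, -, h3, -, h5, h6⟩ := hbaire_seq ho hd I hI L
    have lo : ∀ k, L ≤ l k := fun k => l0 ▸ sm.monotone (Nat.zero_le k)
    let f : Bool → ℕ → Bool := fun β i => if i < L then s i else if i < l' (κ i) then u i else β
    have f1 : ∀ β, E (f β) fun i => if i < L then t i else v i := fun β => by
      refine (hE _ _ fun k => (h5 k _ _ (fun i p q => ?_) k le_rfl).1).2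
        (hL _ _ fun i hi => by simp [f, hi])
      simp [f, ((lo k).trans p).not_gt, h3 k i p (q.trans_le (h1 k).2), q]
    refine Or.inr ⟨f true, f false, fun i => ?_, ht _ _ _ (f1 true) (hs _ _ (f1 false)), fun N => ?_⟩
    · simp only [f]
      split_ifs <;> simp
    · obtain ⟨n, a, b⟩ := h6 N
      refine ⟨n, a, fun i hi => ?_⟩
      obtain ⟨p, q⟩ := b i hi
      simp [f, ((lo N).trans ((h1 N).1.trans p)).not_gt, h3 N i ((h1 N).1.trans p) q, p.not_gt]

end Pool.Agent.Lib.MP_435322_an.UD
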