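import Pool.Agent.Lib.MP_435322_an.HBasic

/-! Approximate eigenvalues for the Euclidean factorisation seminorm. -/

namespace Pool.Agent.Lib.MP_435322_an.UD

open Finset Filter

universe u v w

variable {𝕜 : Type w} [RCLike 𝕜] {X : Type u} [NormedAddCommGroup X] [NormedSpace 𝕜 X]

theorem hmod_half {A : Type v} [AddCommGroup A] (μ : A → ℝ) (o : A → A)
    (ho : ∀ a b, o (a + b) = o a + o b) (h : ∀ a, ∃ r, μ (a - o r) ≤ μ a / 2) (a : A) (η : ℝ)
    (hη : 0 < η) : ∃ r, μ (a - o r) ≤ η := by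
  have key : ∀ n : ℕ, ∃ r, μ (a - o r) ≤ |μ a| * (1 / 2) ^ n := by
    intro n
    induction n with
    | zero =>
      obtain ⟨r, hr⟩ := h a
      refine ⟨r, hr.trans ?_⟩
      have := le_abs_self (μ a)
      have := abs_nonneg (μ a)
      simp only [pow_zero, mul_one]
      linarith
    | succ n ih =>
      obtain ⟨r, hr⟩ := ih
      obtain ⟨r', hr'⟩ := h (a - o r)
      refine ⟨r + r', ?_⟩
      rw [ho, ← sub_sub, pow_succ, ← mul_assoc]
      linarith
  obtain ⟨n, hn⟩ := exists_pow_lt_of_lt_one (show 0 < η / (|μ a| + 1) by positivity)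
    (show (1 / 2 : ℝ) < 1 by norm_num)
  obtain ⟨r, hr⟩ := key n
  refine ⟨r, hr.trans ?_⟩
  rw [lt_div_iff₀ (by positivity)] at hn
  have : (0 : ℝ) ≤ (1 / 2) ^ n := by positivity
  nlinarith

/-- approximate positive eigenvalue for a seminorm -/
theorem module_lemma {A : Type v} [AddCommGroup A] [Module 𝕜 A] (μ : A → ℝ)
    (hadd : ∀ a b, μ (a + b) ≤ μ a + μ b) (hsm : ∀ (t : ℝ) a, μ (((t : ℝ) : 𝕜) • a) = |t| * μ a)
    (s : A →ₗ[𝕜] A) {c C κ : ℝ} (hc : 0 < c) (hκ : 0 < κ) (h1 : ∀ a, c * μ a ≤ μ (s a))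
    (h2 : ∀ a, μ (s a) ≤ C * μ a) (a0 : A) (h3 : ∀ a, κ ≤ μ (a0 - s a)) :
    ∃ t : ℝ, c ≤ t ∧ ∀ ε : ℝ, 0 < ε → ∃ a, μ (s a - ((t : ℝ) : 𝕜) • a) < ε * μ a := by
  have hz : μ 0 = 0 := by simpa using hsm 0 0
  have hneg : ∀ a, μ (-a) = μ a := fun a => by simpa using hsm (-1) a
  have h0 : ∀ a, 0 ≤ μ a := fun a => by
    have := hadd a (-a)
    rw [add_neg_cancel, hz, hneg] at this
    linarith
  by_contra hcon
  push Not at hcon
  set o : ℝ → A → A := fun t a => s a - ((t : ℝ) : 𝕜) • a with ho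
  have hoa : ∀ t a b, o t (a + b) = o t a + o t b := fun t a b => by
    simp only [ho, map_add, smul_add]; abel
  have hsh : ∀ t t' a, o t a = o t' a + (((t' - t : ℝ)) : 𝕜) • a := fun t t' a => by
    simp only [ho, RCLike.ofReal_sub, sub_smul]; abel
  have hlow : ∀ t, 0 ≤ t → ∃ ε, 0 < ε ∧ ∀ a, ε * μ a ≤ μ (o t a) := by
    intro t ht
    rcases le_or_gt c t with h | h
    · exact hcon t h
    · refine ⟨c - t, by linarith, fun a => ?_⟩
      have e : s a = o t a + ((t : ℝ) : 𝕜) • a := by simp [ho]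
      have := hadd (o t a) (((t : ℝ) : 𝕜) • a)
      rw [← e, hsm, abs_of_nonneg ht] at this
      have := h1 a
      linarith
  set D : Set ℝ := {t | 0 ≤ t ∧ ∀ a η, 0 < η → ∃ r, μ (a - o t r) ≤ η} with hD
  have hne : D.Nonempty := by
    have hp : 0 < 2 * |C| + 1 := by positivity
    refine ⟨2 * |C| + 1, hp.le, hmod_half μ _ (hoa _) fun a => ?_⟩
    refine ⟨(((-(2 * |C| + 1)⁻¹ : ℝ)) : 𝕜) • a, ?_⟩
    have e : a - o (2 * |C| + 1) ((((-(2 * |C| + 1)⁻¹ : ℝ)) : 𝕜) • a) =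
        ((((2 * |C| + 1)⁻¹ : ℝ)) : 𝕜) • s a := by
      simp only [ho, map_smul, smul_smul, ← RCLike.ofReal_mul]
      rw [mul_neg, mul_inv_cancel₀ hp.ne', RCLike.ofReal_neg, RCLike.ofReal_neg,
        RCLike.ofReal_one, neg_smul, neg_smul, one_smul]
      abel
    rw [e, hsm, abs_of_pos (inv_pos.2 hp), inv_mul_le_iff₀ hp]
    have := h2 a
    have := mul_le_mul_of_nonneg_right (le_abs_self C) (h0 a)
    have := h0 a
    nlinarith
  have hbdd : BddBelow D := ⟨0, fun t ht => ht.1⟩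
  have hτ : 0 ≤ sInf D := le_csInf hne fun t ht => ht.1
  obtain ⟨ε, hε, hl⟩ := hlow _ hτ
  obtain ⟨t1, ht1, ht1'⟩ := exists_lt_of_csInf_lt hne
    (show sInf D < sInf D + ε / 32 by linarith)
  have ht1'' := csInf_le hbdd ht1
  have hl1 : ∀ a, ε / 2 * μ a ≤ μ (o t1 a) := fun a => by
    have := hadd (o t1 a) ((((t1 - sInf D : ℝ)) : 𝕜) • a)
    rw [← hsh, hsm, abs_of_nonneg (by linarith)] at this
    have h4 := hl a
    have h5 := mul_le_mul_of_nonneg_right (show t1 - sInf D ≤ ε / 2 by linarith) (h0 a)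
    linarith
  have hmem : max 0 (sInf D - ε / 32) ∈ D := by
    refine ⟨le_max_left _ _, hmod_half μ _ (hoa _) fun a => ?_⟩
    rcases (h0 a).eq_or_lt with ha | ha
    · refine ⟨0, ?_⟩
      simp only [ho, map_zero, smul_zero, sub_zero, ← ha]
      norm_num
    obtain ⟨r, hr⟩ := ht1.2 a (μ a / 4) (by positivity)
    refine ⟨r, ?_⟩
    set t := max 0 (sInf D - ε / 32) with ht
    have g1 : |t - t1| ≤ ε / 16 := by
      have := le_max_right 0 (sInf D - ε / 32)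
      have : t ≤ sInf D := max_le hτ (by linarith)
      rw [abs_le]; constructor <;> linarith
    have e : a - o t r = (a - o t1 r) + (((t - t1 : ℝ)) : 𝕜) • r := by
      rw [hsh t1 t r]; abel
    have g2 := hadd (a - o t1 r) ((((t - t1 : ℝ)) : 𝕜) • r)
    rw [← e, hsm] at g2
    have g3 := hadd a (-(a - o t1 r))
    rw [hneg, show a + -(a - o t1 r) = o t1 r by abel] at g3
    have g4 := hl1 r
    have g5 := mul_le_mul_of_nonneg_right g1 (h0 r)
    linarith
  have hle := csInf_le hbdd hmem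
  have hm : max 0 (sInf D - ε / 32) = 0 := by
    rcases le_total 0 (sInf D - ε / 32) with h | h
    · rw [max_eq_right h] at hle; linarith
    · exact max_eq_left h
  rw [hm] at hmem
  obtain ⟨r, hr⟩ := hmem.2 a0 (κ / 2) (by positivity)
  have := h3 r
  simp only [ho, RCLike.ofReal_zero, zero_smul, sub_zero] at hr
  linarith

theorem ns_exists (T : X →L[𝕜] X) {c K : ℝ} (hc : 0 < c) (hT : ∀ x, c * ‖x‖ ≤ ‖T x‖)
    (h : ∀ D : ℝ, ∃ F : Submodule 𝕜 X, FiniteDimensional 𝕜 F ∧ ¬ Hilb F D ∧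
      ∀ x ∈ F, ∀ z, ‖x‖ ≤ K * ‖x + T z‖) :
    ∃ t : ℝ, c ≤ t ∧ NS (T - ((t : ℝ) : 𝕜) • ContinuousLinearMap.id 𝕜 X) := by
  have hF : ∀ n : ℕ, ∃ (F : Submodule 𝕜 X) (d : ℝ), FiniteDimensional 𝕜 F ∧
      ((n : ℝ) + 1) / 2 ≤ d ∧ Hilb F (2 * d) ∧ ¬ Hilb F d ∧
      ∀ x ∈ F, ∀ z, ‖x‖ ≤ K * ‖x + T z‖ := by
    intro n
    obtain ⟨F, hfd, hn, hK⟩ := h (n + 1)
    obtain ⟨K0, hK0, hH⟩ := exists_hilb F
    obtain ⟨t, g1, g2, g3⟩ := exists_half (fun a => 0 ≤ a ∧ Hilb F a)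
      (fun a b hab hle => ⟨hab.1.trans hle, Fac.mono hab.2 (by rwa [abs_of_nonneg hab.1])⟩)
      (B := (n : ℝ) + 1) (K := K0) (by positivity) (fun g => hn g.2) ⟨hK0.le, hH⟩
    refine ⟨F, t / 2, hfd, by linarith, ?_, fun g => g3 ⟨by linarith [g2.1], g⟩, hK⟩
    rw [show 2 * (t / 2) = t by ring]
    exact g2.2
  choose F d hfd hd hH hnH hK using hF
  have hd0 : ∀ n, 0 < d n := fun n => lt_of_lt_of_le (by positivity) (hd n)
  set S : (X →L[𝕜] X) → Set ℝ := fun R =>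
    {a | 0 ≤ a ∧ ∀ᶠ n in atTop, Fac (F n) (fun x => ‖R x‖) (a * d n)} with hS
  have hne : ∀ R, (S R).Nonempty := fun R =>
    ⟨2 * ‖R‖, by positivity, Eventually.of_forall fun n => by
      have := Fac.dom' (q := fun x => ‖R x‖) (M := ‖R‖) (hH n) (fun _ _ => norm_nonneg _)
        (fun x _ => R.le_opNorm x)
      rwa [show ‖R‖ * (2 * d n) = 2 * ‖R‖ * d n by ring] at this⟩
  have hbdd : ∀ R, BddBelow (S R) := fun R => ⟨0, fun t ht => ht.1⟩
  set μ : (X →L[𝕜] X) → ℝ := fun R => sInf (S R) with hμ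
  have hle : ∀ R a, a ∈ S R → μ R ≤ a := fun R a ha => csInf_le (hbdd R) ha
  have h0 : ∀ R, 0 ≤ μ R := fun R => le_csInf (hne R) fun t ht => ht.1
  have hlt : ∀ R a, μ R < a → a ∈ S R := fun R a ha => by
    obtain ⟨b, hb, hba⟩ := exists_lt_of_csInf_lt (hne R) ha
    refine ⟨hb.1.trans hba.le, hb.2.mono fun n hn => Fac.mono hn ?_⟩
    rw [abs_of_nonneg (mul_nonneg hb.1 (hd0 n).le)]
    exact mul_le_mul_of_nonneg_right hba.le (hd0 n).le
  have hdom : ∀ (R R' : X →L[𝕜] X) (M : ℝ), 0 ≤ M → (∀ x, ‖R' x‖ ≤ M * ‖R x‖) →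
      μ R' ≤ M * μ R := by
    intro R R' M hM hx
    refine le_of_forall_pos_le_add fun η hη => ?_
    have hp : 0 < η / (M + 1) := by positivity
    have g := hlt R (μ R + η / (M + 1)) (by linarith)
    have g2 : M * (μ R + η / (M + 1)) ∈ S R' :=
      ⟨mul_nonneg hM g.1, g.2.mono fun n hn => by
        rw [mul_assoc]
        exact Fac.dom' hn (fun _ _ => norm_nonneg _) fun x _ => hx x⟩
    have g3 := hle _ _ g2
    have g4 : (M + 1) * (η / (M + 1)) = η := by field_simp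
    nlinarith
  have hadd : ∀ R R', μ (R + R') ≤ μ R + μ R' := by
    intro R R'
    refine le_of_forall_pos_le_add fun η hη => ?_
    have g := hlt R (μ R + η / 2) (by linarith)
    have g' := hlt R' (μ R' + η / 2) (by linarith)
    have g2 : μ R + η / 2 + (μ R' + η / 2) ∈ S (R + R') :=
      ⟨add_nonneg g.1 g'.1, (g.2.and g'.2).mono fun n hn => by
        rw [add_mul]
        have p1 : 0 < μ R + η / 2 := by linarith [h0 R]
        have p2 : 0 < μ R' + η / 2 := by linarith [h0 R']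
        exact Fac.add (mul_pos p1 (hd0 n)) (mul_pos p2 (hd0 n)) hn.1 hn.2
          (fun _ _ => norm_nonneg _) fun x _ => norm_add_le (R x) (R' x)⟩
    have := hle _ _ g2
    linarith
  have hsm : ∀ (t : ℝ) (R : X →L[𝕜] X), μ (((t : ℝ) : 𝕜) • R) = |t| * μ R := by
    intro t R
    have e : ∀ x, ‖(((t : ℝ) : 𝕜) • R) x‖ = |t| * ‖R x‖ := fun x => by
      rw [ContinuousLinearMap.smul_apply, norm_smul, RCLike.norm_ofReal]
    refine le_antisymm (hdom _ _ _ (abs_nonneg t) fun x => (e x).le) ?_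
    rcases (abs_nonneg t).eq_or_lt with ht | ht
    · rw [← ht, zero_mul]; exact h0 _
    · rw [← le_inv_mul_iff₀ ht]
      refine hdom _ _ _ (inv_pos.2 ht).le fun x => ?_
      rw [e, ← mul_assoc, inv_mul_cancel₀ ht.ne', one_mul]
  let s : (X →L[𝕜] X) →ₗ[𝕜] (X →L[𝕜] X) :=
    { toFun := fun R => T.comp R
      map_add' := fun R R' => by ext x; simp
      map_smul' := fun a R => by ext x; simp }
  have hs : ∀ R x, s R x = T (R x) := fun R x => rfl
  have hκ : 0 < |K| + 1 := by positivity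
  obtain ⟨t, ht, hε⟩ := module_lemma μ hadd hsm s (c := c) (C := ‖T‖) (κ := (|K| + 1)⁻¹) hc
    (inv_pos.2 hκ)
    (fun R => by
      rw [← le_inv_mul_iff₀ hc]
      refine hdom _ _ _ (inv_pos.2 hc).le fun x => ?_
      rw [le_inv_mul_iff₀ hc, hs]
      exact hT _)
    (fun R => hdom _ _ _ (norm_nonneg _) fun x => T.le_opNorm _) (ContinuousLinearMap.id 𝕜 X)
    (fun R => by
      by_contra g
      obtain ⟨n, hn⟩ := (hlt _ _ (not_le.1 g)).2.exists
      have g2 := Fac.dom' (q := fun x => ‖x‖) (M := |K| + 1) hn (fun _ _ => norm_nonneg _)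
        fun x hx => by
          have g3 := hK n x hx (-R x)
          rw [map_neg, ← sub_eq_add_neg] at g3
          have g4 := mul_le_mul_of_nonneg_right (le_abs_self K) (norm_nonneg (x - T (R x)))
          have g5 := norm_nonneg (x - T (R x))
          show ‖x‖ ≤ (|K| + 1) * ‖x - T (R x)‖
          linarith
      rw [← mul_assoc, mul_inv_cancel₀ hκ.ne', one_mul] at g2
      exact hnH n g2)
  refine ⟨t, ht, fun ε hε0 => ?_⟩
  obtain ⟨R, hR⟩ := hε (ε / 2) (by positivity)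
  have hRp : 0 < μ R := by
    have := (h0 _).trans_lt hR
    by_contra g
    have := mul_nonneg hε0.le (neg_nonneg.2 (not_lt.1 g))
    linarith
  refine ⟨R, fun L => ?_⟩
  have g1 := (hlt _ _ hR).2
  have g2 : ∃ᶠ n in atTop, ¬ Fac (F n) (fun x => ‖R x‖) (μ R / 2 * d n) := by
    rw [← not_eventually]
    intro g
    have := hle R (μ R / 2) ⟨by positivity, g⟩
    linarith
  have g3 : ∀ᶠ n in atTop, L ≤ μ R / 2 * d n := by
    obtain ⟨N, hN⟩ := exists_nat_ge (4 * L / μ R)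
    refine eventually_atTop.2 ⟨N, fun n hn => ?_⟩
    have p1 : (N : ℝ) ≤ n := by exact_mod_cast hn
    rw [div_le_iff₀ hRp] at hN
    have p2 := mul_le_mul_of_nonneg_left (hd n) hRp.le
    have p3 := mul_le_mul_of_nonneg_left p1 hRp.le
    nlinarith
  obtain ⟨n, hn1, hn2, hn3⟩ := (g2.and_eventually (g1.and g3)).exists
  refine ⟨F n, μ R / 2 * d n, hfd n, hn3, hn1, ?_⟩
  rw [show ε * (μ R / 2 * d n) = ε / 2 * μ R * d n by ring]
  exact hn2

end Pool.Agent.Lib.MP_435322_an.UD
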