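import Pool.Agent.Lib.MP_435322_an.HCodim
import Pool.Agent.Lib.MP_435322_an.HMazur
import Pool.Agent.Lib.MP_435322_an.HMod

/-! Large subspaces of approximate eigenvectors. -/

namespace Pool.Agent.Lib.MP_435322_an.UD

open Finset Filter

universe u v w

variable {𝕜 : Type w} [RCLike 𝕜] {X : Type u} [NormedAddCommGroup X] [NormedSpace 𝕜 X]

theorem NS.small {S : X →L[𝕜] X} (h : NS S) {δ : ℝ} (hδ : 0 < δ) {ι : Type} [Fintype ι]
    (f : ι → X →ₗ[𝕜] 𝕜) : ∃ z ∈ Kr f, z ≠ 0 ∧ ‖S z‖ ≤ δ * ‖z‖ := by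
  by_contra hcon
  have hlow : ∀ z ∈ Kr f, ‖z‖ ≤ δ⁻¹ * ‖S z‖ := fun z hz => by
    rcases eq_or_ne z 0 with rfl | h0
    · simp
    · have h1 : δ * ‖z‖ ≤ ‖S z‖ := by
        by_contra h2
        exact hcon ⟨z, hz, h0, (not_le.1 h2).le⟩
      rw [inv_mul_eq_div, le_div_iff₀ hδ]
      linarith
  set A : ℝ := 5 ^ Fintype.card ι with hA
  have hA0 : 0 < A := by positivity
  obtain ⟨R, hR⟩ := h (δ / (4 * A)) (by positivity)
  obtain ⟨F, γ, hF, hγ, hn, hf⟩ := hR (4 * A * ‖R‖ + 1)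
  have hR0 : 0 ≤ 4 * A * ‖R‖ := by positivity
  have hγ0 : 0 < γ := by linarith
  have h1 : Fac (F ⊓ Kr fun i => (f i).comp R.toLinearMap) (fun x => ‖R.toLinearMap x‖)
      (δ⁻¹ * (δ / (4 * A) * γ)) :=
    (hf.anti inf_le_left).dom' (fun _ _ => norm_nonneg _) fun x hx =>
      hlow (R x) (mem_Kr.2 fun i => mem_Kr.1 hx.2 i)
  have h2 := Fac.codim (fun i => (f i).comp R.toLinearMap) R.toLinearMap (M := ‖R‖)
    (by positivity) (norm_nonneg _) (fun x _ => R.le_opNorm x) h1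
  refine hn (h2.mono ?_)
  rw [← hA]
  have e : A * (δ⁻¹ * (δ / (4 * A) * γ) + 2 * ‖R‖) = γ / 4 + 2 * A * ‖R‖ := by
    field_simp
  rw [e, abs_of_nonneg (by positivity)]
  linarith

theorem hev_shift {G : ℕ → Submodule 𝕜 X} (h : Mz G) (N : ℕ) : Mz fun k => G (k + N) := by
  intro σ M z hz
  have h1 := h (σ.map (addRightEmbedding N)) (M + N) (fun j => if N ≤ j then z (j - N) else 0)
    (fun j => by
      split_ifs with hj
      · have : z (j - N) ∈ G (j - N + N) := hz (j - N)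
        rwa [Nat.sub_add_cancel hj] at this
      · exact (G j).zero_mem)
  rw [Finset.filter_map, Finset.sum_map, Finset.sum_map] at h1
  simp only [addRightEmbedding_apply, Nat.le_add_left, if_true, Nat.add_sub_cancel,
    Function.comp_def, Nat.add_lt_add_iff_right] at h1
  exact h1

theorem hev_tail {G : ℕ → Submodule 𝕜 X} (h : Mz G) (S : X →L[𝕜] X) {a : ℝ} (ha : 0 ≤ a)
    (hS : ∀ k, ∀ g ∈ G k, ‖S g‖ ≤ a * (1 / 2) ^ k * ‖g‖) :
    ∀ x ∈ ⨆ k, G k, ‖S x‖ ≤ 8 * a * ‖x‖ := by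
  intro x hx
  obtain ⟨σ, z, hz, rfl⟩ := mem_iSup_sum hx
  have h2 : ∑ k ∈ σ, (1 / 2 : ℝ) ^ k ≤ 2 := by
    have := summable_geometric_two.sum_le_tsum σ (fun k _ => by positivity)
    rwa [tsum_geometric_two] at this
  rw [map_sum]
  calc ‖∑ k ∈ σ, S (z k)‖ ≤ ∑ k ∈ σ, ‖S (z k)‖ := norm_sum_le _ _
    _ ≤ ∑ k ∈ σ, (1 / 2 : ℝ) ^ k * (4 * a * ‖∑ k ∈ σ, z k‖) := by
        refine Finset.sum_le_sum fun k hk => (hS k _ (hz k)).trans ?_
        have h3 := mul_le_mul_of_nonneg_left (h.single hz hk)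
          (by positivity : 0 ≤ a * (1 / 2 : ℝ) ^ k)
        linarith
    _ = (∑ k ∈ σ, (1 / 2 : ℝ) ^ k) * (4 * a * ‖∑ k ∈ σ, z k‖) := by rw [Finset.sum_mul]
    _ ≤ 2 * (4 * a * ‖∑ k ∈ σ, z k‖) := mul_le_mul_of_nonneg_right h2 (by positivity)
    _ = _ := by ring

theorem hev_indep {G : ℕ → Submodule 𝕜 X} (h : Mz G) {z : ℕ → X} (hz : ∀ k, z k ∈ G k)
    (h0 : ∀ k, z k ≠ 0) : LinearIndependent 𝕜 z := by
  rw [linearIndependent_iff']
  intro s g hg i hi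
  have h1 := h.single (z := fun k => g k • z k) (fun k => (G k).smul_mem _ (hz k)) hi
  rw [hg, norm_zero, mul_zero] at h1
  exact (smul_eq_zero.1 (norm_le_zero_iff.1 h1)).resolve_right (h0 i)

theorem hev_piece {S : X →L[𝕜] X} (h : NS S) {K : ℝ} (hK : 0 < K)
    (hW : ∀ η : ℝ, 0 < η → ∀ (ι : Type) [Fintype ι] (f : ι → X →ₗ[𝕜] 𝕜) (d : ℕ),
      ∃ E : Submodule 𝕜 X, FiniteDimensional 𝕜 E ∧ E ≤ Kr f ∧ d ≤ Module.finrank 𝕜 E ∧ Hilb E K ∧
        ∀ x ∈ E, ‖S x‖ ≤ η * ‖x‖) {D δ : ℝ} (hD : 0 < D) (hδ : 0 < δ) :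
    ∃ G : Submodule 𝕜 X, FiniteDimensional 𝕜 G ∧ ¬ Hilb G D ∧ ∀ g ∈ G, ‖S g‖ ≤ δ * ‖g‖ := by
  obtain ⟨η, hη, hη1, hη2⟩ : ∃ η : ℝ, 0 < η ∧ η * D ≤ 1 / 8 ∧ η * K ≤ δ / 6 := by
    refine ⟨min (1 / (8 * D)) (δ / (6 * K)), by positivity, ?_, ?_⟩
    · calc min (1 / (8 * D)) (δ / (6 * K)) * D ≤ 1 / (8 * D) * D :=
            mul_le_mul_of_nonneg_right (min_le_left _ _) hD.le
        _ = 1 / 8 := by field_simp
    · calc min (1 / (8 * D)) (δ / (6 * K)) * K ≤ δ / (6 * K) * K :=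
            mul_le_mul_of_nonneg_right (min_le_right _ _) hK.le
        _ = δ / 6 := by field_simp
  obtain ⟨R, hR⟩ := h (η ^ 2) (by positivity)
  obtain ⟨F, γ, hF, hγ, hn, ι, inst, φ, hφ⟩ := hR (4 * D * ‖R‖ + 1)
  have hR0 : 0 ≤ 4 * D * ‖R‖ := by positivity
  have hγ0 : 0 < γ := by linarith
  obtain ⟨κ, instκ, f, hf⟩ := mazur (F.map R.toLinearMap)
  obtain ⟨E, hE, hEK, hd, hEH, hES⟩ := hW (δ / 6) (by positivity) κ f (Fintype.card ι)
  obtain ⟨w, hw, hwc⟩ := floor_exists hd hEH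
  let h0 : X →ₗ[𝕜] X := ∑ i, (φ i).smulRight (w i)
  have h0e : ∀ x, h0 x = ∑ i, φ i x • w i := fun x => by
    simp only [h0, LinearMap.sum_apply, LinearMap.smulRight_apply]
  let g : X →ₗ[𝕜] X := ((η⁻¹ : ℝ) : 𝕜) • h0
  have hgn : ∀ x, ‖h0 x‖ = η * ‖g x‖ := fun x => by
    simp only [g, LinearMap.smul_apply, norm_smul, RCLike.norm_ofReal, abs_of_pos (inv_pos.2 hη)]
    field_simp
  have hgE : ∀ x, g x ∈ E := fun x => by
    simp only [g, LinearMap.smul_apply, h0e]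
    exact E.smul_mem _ (E.sum_mem fun i _ => E.smul_mem _ (hw i))
  let y : X →ₗ[𝕜] X := R.toLinearMap + g
  have hy : ∀ x, y x = R x + g x := fun x => rfl
  have a1 : ∀ x ∈ F, ‖R x‖ ≤ 2 * ‖y x‖ := fun x hx =>
    hf (R x) ⟨x, hx, rfl⟩ (g x) (hEK (hgE x))
  have a2 : ∀ x ∈ F, ‖g x‖ ≤ 3 * ‖y x‖ := fun x hx => by
    have h1 := norm_sub_le (y x) (R x)
    rw [hy, add_sub_cancel_left, ← hy] at h1
    linarith [a1 x hx]
  have a3 : ∀ x ∈ F, ‖S (R x)‖ ≤ K * ‖h0 x‖ := fun x hx => by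
    refine (pow_le_pow_iff_left₀ (norm_nonneg _) (by positivity) two_ne_zero).1 ?_
    rw [mul_pow, h0e]
    exact (hφ x hx).1.trans (hwc _).2
  have a4 : ∀ x ∈ F, ‖g x‖ ≤ η * γ * ‖x‖ := fun x hx => by
    have h1 : ‖h0 x‖ ≤ η ^ 2 * γ * ‖x‖ := by
      refine (pow_le_pow_iff_left₀ (norm_nonneg _) (by positivity) two_ne_zero).1 ?_
      rw [mul_pow, h0e]
      exact (hwc _).1.trans (hφ x hx).2
    rw [hgn] at h1
    refine le_of_mul_le_mul_left ?_ hη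
    linarith
  refine ⟨F.map y, inferInstance, fun hH => hn ?_, ?_⟩
  · have h1 := (Fac.comap hH y (F := F) (M := ‖R‖ + η * γ) (fun x hx => ⟨x, hx, rfl⟩)
      (fun x hx => by
        have h2 := norm_add_le (R x) (g x)
        have h3 := R.le_opNorm x
        rw [hy]
        linarith [a4 x hx])).dom' (fun _ _ => norm_nonneg _) a1
    refine h1.mono ?_
    rw [abs_of_nonneg (by positivity)]
    have h4 := mul_le_mul_of_nonneg_right hη1 hγ0.le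
    linarith
  · rintro _ ⟨x, hx, rfl⟩
    have h1 : ‖S (y x)‖ ≤ ‖S (R x)‖ + ‖S (g x)‖ := by
      rw [hy, map_add]
      exact norm_add_le _ _
    have h2 := hES _ (hgE x)
    have h3 := a3 x hx
    rw [hgn] at h3
    have h4 := mul_le_mul_of_nonneg_right hη2 (norm_nonneg (g x))
    have h5 := mul_le_mul_of_nonneg_left (a2 x hx) hδ.le
    linarith

theorem hev_large {S : X →L[𝕜] X}
    (h : ∀ D δ : ℝ, 0 < D → 0 < δ →
      ∃ G : Submodule 𝕜 X, FiniteDimensional 𝕜 G ∧ ¬ Hilb G D ∧ ∀ g ∈ G, ‖S g‖ ≤ δ * ‖g‖)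
    {ε : ℝ} (hε : 0 < ε) : ∃ W : Submodule 𝕜 X, Large W ∧ ∀ x ∈ W, ‖S x‖ ≤ ε * ‖x‖ := by
  obtain ⟨G, hG, hQ, hM⟩ := builder0 (𝕜 := 𝕜) (X := X)
    (fun k G => ¬ Hilb G k ∧ ∀ g ∈ G, ‖S g‖ ≤ ε / 8 * (1 / 2) ^ k * ‖g‖) (fun k ι _ f => by
      obtain ⟨G, h1, h2, h3⟩ := h (5 ^ Fintype.card ι * (k + 2 * 1)) (ε / 8 * (1 / 2) ^ k)
        (by positivity) (by positivity)
      refine ⟨G ⊓ Kr f, inferInstance, inf_le_right, fun h4 => h2 ?_, fun g hg => h3 g hg.1⟩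
      exact Fac.codim f LinearMap.id (Nat.cast_nonneg k) zero_le_one (fun x _ => by simp) h4)
  refine ⟨⨆ k, G k, large_iSup hG fun k => (hQ k).1, fun x hx => ?_⟩
  have h1 := hev_tail hM S (by positivity) (fun k => (hQ k).2) x hx
  linarith

theorem NS.large {S : X →L[𝕜] X} (h : NS S) {ε : ℝ} (hε : 0 < ε) :
    ∃ W : Submodule 𝕜 X, Large W ∧ ∀ x ∈ W, ‖S x‖ ≤ ε * ‖x‖ := by
  obtain ⟨G, -, hQ, hM⟩ := builder0 (𝕜 := 𝕜) (X := X)
    (fun k G => (∃ z ∈ G, z ≠ 0) ∧ ∀ g ∈ G, ‖S g‖ ≤ (1 / 2) ^ k * ‖g‖) (fun k ι _ f => by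
      obtain ⟨z, h1, h2, h3⟩ := h.small (δ := (1 / 2) ^ k) (by positivity) f
      refine ⟨Submodule.span 𝕜 {z}, inferInstance, (Submodule.span_singleton_le_iff_mem _ _).2 h1,
        ⟨z, Submodule.mem_span_singleton_self z, h2⟩, fun g hg => ?_⟩
      obtain ⟨a, rfl⟩ := Submodule.mem_span_singleton.1 hg
      rw [map_smul, norm_smul, norm_smul]
      have h4 := mul_le_mul_of_nonneg_left h3 (norm_nonneg a)
      linarith)
  choose z hz hz0 using fun k => (hQ k).1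
  have hT : ∀ N, ∀ x ∈ ⨆ k, G (k + N), ‖S x‖ ≤ 8 * (1 / 2) ^ N * ‖x‖ := fun N =>
    hev_tail (hev_shift hM N) S (by positivity) fun k g hg => by
      have := (hQ (k + N)).2 g hg
      rwa [pow_add, mul_comm ((1 / 2 : ℝ) ^ k)] at this
  have hN : ∀ η : ℝ, 0 < η → ∃ N : ℕ, 8 * (1 / 2 : ℝ) ^ N ≤ η := fun η hη => by
    obtain ⟨N, hN⟩ := exists_pow_lt_of_lt_one (by positivity : 0 < η / 8)
      (by norm_num : (1 / 2 : ℝ) < 1)
    exact ⟨N, by linarith⟩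
  obtain ⟨N0, hN0⟩ := hN ε hε
  by_cases hL : Large (⨆ k, G (k + N0))
  · exact ⟨_, hL, fun x hx => (hT N0 x hx).trans (mul_le_mul_of_nonneg_right hN0 (norm_nonneg _))⟩
  obtain ⟨K, hK⟩ := not_forall.1 hL
  have hK' : ∀ F : Submodule 𝕜 X, F ≤ ⨆ k, G (k + N0) → FiniteDimensional 𝕜 F →
      Hilb F (|K| + 1) := fun F h1 h2 => by
    by_contra h3
    exact hK ⟨F, h1, h2, fun h4 => h3 (Fac.mono h4 (by linarith))⟩
  refine hev_large (fun D δ hD hδ => hev_piece h (K := |K| + 1) (by positivity) ?_ hD hδ) hε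
  intro η hη ι _ f d
  obtain ⟨N, hN1⟩ := hN η hη
  let v : Fin (d + Fintype.card ι) → X := fun i => z (i + (N + N0))
  have hv : LinearIndependent 𝕜 v :=
    (hev_indep hM hz hz0).comp (fun i : Fin (d + Fintype.card ι) => (i : ℕ) + (N + N0))
      fun i j hij => Fin.ext (Nat.add_right_cancel hij)
  have hfd : FiniteDimensional 𝕜 (Submodule.span 𝕜 (Set.range v)) :=
    FiniteDimensional.span_of_finite 𝕜 (Set.finite_range v)
  have hr := finrank_inf_Kr f (Submodule.span 𝕜 (Set.range v))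
  rw [finrank_span_eq_card hv, Fintype.card_fin] at hr
  have h1 : Submodule.span 𝕜 (Set.range v) ≤ ⨆ k, G (k + N0) := by
    rw [Submodule.span_le]
    rintro _ ⟨i, rfl⟩
    refine (le_iSup (fun k => G (k + N0)) (i + N)) ?_
    rw [add_assoc]
    exact hz _
  have h2 : Submodule.span 𝕜 (Set.range v) ≤ ⨆ k, G (k + N) := by
    rw [Submodule.span_le]
    rintro _ ⟨i, rfl⟩
    refine (le_iSup (fun k => G (k + N)) (i + N0)) ?_
    rw [add_assoc, add_comm N0 N]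
    exact hz _
  exact ⟨Submodule.span 𝕜 (Set.range v) ⊓ Kr f, inferInstance, inf_le_right, by omega,
    hK' _ (inf_le_left.trans h1) inferInstance, fun x hx =>
      (hT N x (h2 hx.1)).trans (mul_le_mul_of_nonneg_right hN1 (norm_nonneg _))⟩

theorem not_hi_of_op (T : X →L[𝕜] X) {c K : ℝ} (hc : 0 < c) (hT : ∀ x, c * ‖x‖ ≤ ‖T x‖)
    (h : ∀ D : ℝ, ∃ F : Submodule 𝕜 X, FiniteDimensional 𝕜 F ∧ ¬ Hilb F D ∧
      ∀ x ∈ F, ∀ z, ‖x‖ ≤ K * ‖x + T z‖) : ¬ HI (⊤ : Submodule 𝕜 X) := by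
  intro hH
  obtain ⟨t1, ht1, h1⟩ := ns_exists T hc hT h
  obtain ⟨t2, ht2, h2⟩ := ns_exists (-T) (K := K) hc (fun x => by simpa using hT x) fun D => by
    obtain ⟨F, a, b, c⟩ := h D
    exact ⟨F, a, b, fun x hx z => by simpa using c x hx (-z)⟩
  obtain ⟨U, hU, hU'⟩ := h1.large (half_pos hc)
  obtain ⟨V, hV, hV'⟩ := h2.large (half_pos hc)
  set B : ℝ := ‖T‖ + |(t1 - t2) / 2| + c / 2 with hB
  have hB0 : 0 < B := by positivity
  obtain ⟨u, hu, v, hv, huv⟩ := hH U V le_top le_top hU hV (c / 2 / B) (by positivity)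
  have a1 := hU' u hu
  have a2 := hV' v hv
  have e : (((t1 + t2) / 2 : ℝ) : 𝕜) • (u + v) = T (u - v) -
      (T - ((t1 : ℝ) : 𝕜) • ContinuousLinearMap.id 𝕜 X) u -
      (-T - ((t2 : ℝ) : 𝕜) • ContinuousLinearMap.id 𝕜 X) v -
      (((t1 - t2) / 2 : ℝ) : 𝕜) • (u - v) := by
    simp only [sub_apply, smul_apply, ContinuousLinearMap.id_apply, neg_apply, map_sub]
    push_cast
    module
  have a3 : ‖(((t1 + t2) / 2 : ℝ) : 𝕜) • (u + v)‖ ≤ ‖T (u - v)‖ +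
      ‖(T - ((t1 : ℝ) : 𝕜) • ContinuousLinearMap.id 𝕜 X) u‖ +
      ‖(-T - ((t2 : ℝ) : 𝕜) • ContinuousLinearMap.id 𝕜 X) v‖ +
      ‖(((t1 - t2) / 2 : ℝ) : 𝕜) • (u - v)‖ := by
    rw [e]
    refine (norm_sub_le _ _).trans (add_le_add ?_ le_rfl)
    refine (norm_sub_le _ _).trans (add_le_add ?_ le_rfl)
    exact norm_sub_le _ _
  rw [norm_smul, norm_smul, RCLike.norm_ofReal, RCLike.norm_ofReal,
    abs_of_pos (by linarith : 0 < (t1 + t2) / 2)] at a3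
  have a4 := T.le_opNorm (u - v)
  have a5 : 2 * ‖u‖ ≤ ‖u + v‖ + ‖u - v‖ := by
    have := norm_add_le (u + v) (u - v)
    rwa [add_add_sub_cancel, ← two_smul 𝕜 u, norm_smul, RCLike.norm_two] at this
  have a6 : 2 * ‖v‖ ≤ ‖u + v‖ + ‖u - v‖ := by
    have := norm_sub_le (u + v) (u - v)
    rwa [add_sub_sub_cancel, ← two_smul 𝕜 v, norm_smul, RCLike.norm_two] at this
  have a7 : B * ‖u - v‖ < c / 2 * ‖u + v‖ := by
    have := mul_lt_mul_of_pos_left huv hB0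
    rwa [← mul_assoc, mul_div_cancel₀ _ hB0.ne'] at this
  have a8 : c * ‖u + v‖ ≤ (t1 + t2) / 2 * ‖u + v‖ :=
    mul_le_mul_of_nonneg_right (by linarith) (norm_nonneg _)
  have a9 := mul_le_mul_of_nonneg_left a5 hc.le
  have a10 := mul_le_mul_of_nonneg_left a6 hc.le
  rw [hB] at a7
  linarith

end Pool.Agent.Lib.MP_435322_an.UD
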