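import Pool.Agent.Lib.MP_435322_an.HIsoA
import Pool.Agent.Lib.MP_435322_an.HBP
import Pool.Agent.Lib.MP_435322_an.HBaire
import Pool.Agent.Lib.MP_435322_an.HEv

/-! Spaces in which large subspaces have angle zero are ergodic. -/

namespace Pool.Agent.Lib.MP_435322_an.UD

open Finset Filter

universe u v w

variable {𝕜 : Type w} [RCLike 𝕜] {X : Type u} [NormedAddCommGroup X] [NormedSpace 𝕜 X]

theorem hhi_closed (e : ℕ → X) (a : ℕ → Bool) : IsClosed (Ysp 𝕜 e a : Set X) :=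
  Submodule.isClosed_topologicalClosure _

theorem hhi_mem (e : ℕ → X) {a : ℕ → Bool} {j : ℕ} (h : a j = true) : e j ∈ Ysp 𝕜 e a :=
  Submodule.le_topologicalClosure _ (Submodule.subset_span ⟨j, h, rfl⟩)

theorem hhi_le (e : ℕ → X) {a : ℕ → Bool} {S : Submodule 𝕜 X} (hS : IsClosed (S : Set X))
    (h : ∀ j, a j = true → e j ∈ S) : Ysp 𝕜 e a ≤ S :=
  Submodule.topologicalClosure_minimal _
    (Submodule.span_le.2 (by rintro _ ⟨j, hj, rfl⟩; exact h j hj)) hS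

theorem ysp_open (e : ℕ → X) {U : Set X} (hU : IsOpen U) :
    IsOpen {a : ℕ → Bool | ((Ysp 𝕜 e a : Set X) ∩ U).Nonempty} := by
  rw [isOpen_iff_forall_mem_open]
  rintro a ⟨x, hx, hxU⟩
  have hx' : x ∈ closure ((Submodule.span 𝕜 (e '' {i | a i = true}) : Submodule 𝕜 X) : Set X) := hx
  obtain ⟨y, hyU, hy⟩ := mem_closure_iff.1 hx' U hU hxU
  obtain ⟨l, hl, rfl⟩ := (Finsupp.mem_span_image_iff_linearCombination 𝕜).1 hy
  refine ⟨⋂ i ∈ l.support, {a' : ℕ → Bool | a' i = true}, ?_, ?_, ?_⟩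
  · intro a' ha'
    refine ⟨_, Submodule.le_topologicalClosure _
      ((Finsupp.mem_span_image_iff_linearCombination 𝕜).2 ⟨l, ?_, rfl⟩), hyU⟩
    rw [Finsupp.mem_supported]
    intro i hi
    exact Set.mem_iInter₂.1 ha' i hi
  · refine isOpen_biInter_finset fun i _ => ?_
    have hi : Continuous fun a' : ℕ → Bool => a' i := continuous_apply i
    exact (isOpen_discrete ({true} : Set Bool)).preimage hi
  · exact Set.mem_iInter₂.2 fun i hi => (Finsupp.mem_supported 𝕜 l).1 hl hi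

/-- the operator that moves finitely many vectors of a biorthogonal system -/
noncomputable def hhiMove (e : ℕ → X) (f : ℕ → X →L[𝕜] 𝕜) (A : Finset ℕ) (π : ℕ → ℕ) :
    X →L[𝕜] X :=
  ContinuousLinearMap.id 𝕜 X + ∑ i ∈ A, (f i).smulRight (e (π i) - e i)

theorem hhi_move (e : ℕ → X) (f : ℕ → X →L[𝕜] 𝕜)
    (hf : ∀ i j, f i (e j) = if i = j then 1 else 0) (A : Finset ℕ) (π : ℕ → ℕ) (j : ℕ) :
    hhiMove e f A π (e j) = if j ∈ A then e (π j) else e j := by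
  simp only [hhiMove, add_apply, ContinuousLinearMap.id_apply,
    _root_.sum_apply, ContinuousLinearMap.smulRight_apply, hf, ite_smul, one_smul,
    zero_smul, Finset.sum_ite_eq']
  split_ifs <;> simp

theorem hhi_equiv (e : ℕ → X) {a b : ℕ → Bool} (T T' : X →L[𝕜] X)
    (h1 : ∀ j, a j = true → T (e j) ∈ Ysp 𝕜 e b ∧ T' (T (e j)) = e j)
    (h2 : ∀ j, b j = true → T' (e j) ∈ Ysp 𝕜 e a ∧ T (T' (e j)) = e j) :
    Nonempty (Ysp 𝕜 e a ≃L[𝕜] Ysp 𝕜 e b) := by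
  have key : ∀ {a b : ℕ → Bool} (T T' : X →L[𝕜] X),
      (∀ j, a j = true → T (e j) ∈ Ysp 𝕜 e b ∧ T' (T (e j)) = e j) →
      ∀ x ∈ Ysp 𝕜 e a, T x ∈ Ysp 𝕜 e b ∧ T' (T x) = x := by
    intro a b T T' h x hx
    constructor
    · exact hhi_le e (S := (Ysp 𝕜 e b).comap (T : X →ₗ[𝕜] X))
        ((hhi_closed e b).preimage T.continuous) (fun j hj => (h j hj).1) hx
    · exact hhi_le e (S := LinearMap.eqLocus ((T'.comp T : X →L[𝕜] X) : X →ₗ[𝕜] X) LinearMap.id)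
        (isClosed_eq (T'.comp T).continuous continuous_id) (fun j hj => (h j hj).2) hx
  exact ⟨ContinuousLinearEquiv.equivOfInverse
    ((T.comp (Ysp 𝕜 e a).subtypeL).codRestrict _ fun x => (key T T' h1 x x.2).1)
    ((T'.comp (Ysp 𝕜 e b).subtypeL).codRestrict _ fun x => (key T' T h2 x x.2).1)
    (fun x => Subtype.ext (key T T' h1 x x.2).2) (fun x => Subtype.ext (key T' T h2 x x.2).2)⟩

theorem ysp_iso (e : ℕ → X) (f : ℕ → X →L[𝕜] 𝕜) (hf : ∀ i j, f i (e j) = if i = j then 1 else 0)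
    (a b : ℕ → Bool) (L : ℕ) (h1 : ∀ i, L ≤ i → a i = b i)
    (h2 : ((Finset.range L).filter fun i => a i = true).card =
      ((Finset.range L).filter fun i => b i = true).card) :
    Nonempty (Ysp 𝕜 e a ≃L[𝕜] Ysp 𝕜 e b) := by
  classical
  have key : ∀ (a b : ℕ → Bool) (π ρ : ℕ → ℕ), (∀ i, L ≤ i → a i = b i) →
      (∀ j ∈ (Finset.range L).filter fun i => a i = true,
        π j ∈ ((Finset.range L).filter fun i => b i = true) ∧ ρ (π j) = j) →
      ∀ j, a j = true →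
        hhiMove e f ((Finset.range L).filter fun i => a i = true) π (e j) ∈ Ysp 𝕜 e b ∧
        hhiMove e f ((Finset.range L).filter fun i => b i = true) ρ
          (hhiMove e f ((Finset.range L).filter fun i => a i = true) π (e j)) = e j := by
    intro a b π ρ h1 h j hj
    rw [hhi_move e f hf]
    split_ifs with hA
    · obtain ⟨c1, c2⟩ := h j hA
      rw [hhi_move e f hf, if_pos c1, c2]
      exact ⟨hhi_mem e (Finset.mem_filter.1 c1).2, rfl⟩
    · have hL : L ≤ j := by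
        by_contra hL
        exact hA (Finset.mem_filter.2 ⟨Finset.mem_range.2 (not_le.1 hL), hj⟩)
      rw [hhi_move e f hf, if_neg fun c => absurd (Finset.mem_range.1 (Finset.mem_filter.1 c).1)
        (not_lt.2 hL)]
      exact ⟨hhi_mem e (by rw [← h1 j hL]; exact hj), rfl⟩
  set A := (Finset.range L).filter fun i => a i = true with hA
  set B := (Finset.range L).filter fun i => b i = true with hB
  let σ : A ≃ B := Finset.equivOfCardEq h2
  let π : ℕ → ℕ := fun j => if h : j ∈ A then (σ ⟨j, h⟩ : ℕ) else j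
  let ρ : ℕ → ℕ := fun j => if h : j ∈ B then (σ.symm ⟨j, h⟩ : ℕ) else j
  refine hhi_equiv e (hhiMove e f A π) (hhiMove e f B ρ) (key a b π ρ h1 fun j hj => ?_)
    (key b a ρ π (fun i hi => (h1 i hi).symm) fun j hj => ?_)
  · have e1 : π j = σ ⟨j, hj⟩ := dif_pos hj
    have e2 : π j ∈ B := by rw [e1]; exact (σ ⟨j, hj⟩).2
    refine ⟨e2, ?_⟩
    have e3 : ρ (π j) = σ.symm ⟨π j, e2⟩ := dif_pos e2
    have e4 : (⟨π j, e2⟩ : B) = σ ⟨j, hj⟩ := Subtype.ext e1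
    rw [e3, e4, Equiv.symm_apply_apply]
  · have e1 : ρ j = σ.symm ⟨j, hj⟩ := dif_pos hj
    have e2 : ρ j ∈ A := by rw [e1]; exact (σ.symm ⟨j, hj⟩).2
    refine ⟨e2, ?_⟩
    have e3 : π (ρ j) = σ ⟨ρ j, e2⟩ := dif_pos e2
    have e4 : (⟨ρ j, e2⟩ : A) = σ.symm ⟨j, hj⟩ := Subtype.ext e1
    rw [e3, e4, Equiv.apply_symm_apply]

theorem baire_main [CompleteSpace X] [TopologicalSpace.SeparableSpace X] (e : ℕ → X)
    (f : ℕ → X →L[𝕜] 𝕜) (hf : ∀ i j, f i (e j) = if i = j then 1 else 0)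
    (I : ℕ → Finset ℕ) (hI : ∀ L, ∀ᶠ n in atTop, ∀ i ∈ I n, L ≤ i) :
    Fam 𝕜 X ∨ ∃ a b : ℕ → Bool, (∀ i, b i = true → a i = true) ∧
      Nonempty (Ysp 𝕜 e a ≃L[𝕜] Ysp 𝕜 e b) ∧
      ∀ N, ∃ n, N ≤ n ∧ ∀ i ∈ I n, a i = true ∧ b i = false := by
  have hP : PolishSpace ((ℕ → Bool) × (ℕ → Bool)) := ⟨⟩
  rcases baire_alt (fun a b => Nonempty (Ysp 𝕜 e a ≃L[𝕜] Ysp 𝕜 e b))
    (fun a b ⟨g⟩ => ⟨g.symm⟩) (fun a b c ⟨g⟩ ⟨g'⟩ => ⟨g.trans g'⟩)
    (analytic_baire (iso_analytic e f hf)) (ysp_iso e f hf) I hI with ⟨g, hg, h⟩ | h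
  · exact Or.inl ⟨fun x => Ysp 𝕜 e (g x), fun x => hhi_closed e _,
      fun U hU => (ysp_open e hU).preimage hg, h⟩
  · exact Or.inr h

/-- a block is far from the closed span of vectors taken from the other blocks -/
theorem hhi_far {G : ℕ → Submodule 𝕜 X} (hM : Mz G) (e : ℕ → X) (β : ℕ → ℕ)
    (he : ∀ i, e i ∈ G (β i)) {b : ℕ → Bool} {n : ℕ} (hb : ∀ i, b i = true → β i ≠ n)
    {x : X} (hx : x ∈ G n) {y : X} (hy : y ∈ Ysp 𝕜 e b) : ‖x‖ ≤ 4 * ‖x + y‖ := by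
  classical
  have h1 : ∀ y ∈ Submodule.span 𝕜 (e '' {i | b i = true}), ‖x‖ ≤ 4 * ‖x + y‖ := by
    intro y hy
    obtain ⟨l, hl, rfl⟩ := (Finsupp.mem_span_image_iff_linearCombination 𝕜).1 hy
    let z : ℕ → X := fun k => if k = n then x else ∑ i ∈ l.support.filter (β · = k), l i • e i
    have hz : ∀ k, z k ∈ G k := fun k => by
      by_cases hk : k = n
      · simp only [z, if_pos hk]; rw [hk]; exact hx
      · simp only [z, if_neg hk]
        refine Submodule.sum_mem _ fun i hi => Submodule.smul_mem _ _ ?_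
        rw [← (Finset.mem_filter.1 hi).2]
        exact he i
    have hn : n ∉ l.support.image β := fun h => by
      obtain ⟨i, hi, hi'⟩ := Finset.mem_image.1 h
      exact hb i ((Finsupp.mem_supported 𝕜 l).1 hl hi) hi'
    have h2 := hM.single (σ := insert n (l.support.image β)) hz (Finset.mem_insert_self _ _)
    have h3 : ∑ k ∈ l.support.image β, z k = Finsupp.linearCombination 𝕜 e l := by
      rw [Finsupp.linearCombination_apply, Finsupp.sum,
        ← Finset.sum_fiberwise_of_maps_to (g := β) (t := l.support.image β)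
          (fun i hi => Finset.mem_image_of_mem β hi)]
      refine Finset.sum_congr rfl fun k hk => if_neg ?_
      rintro rfl
      exact hn hk
    rw [Finset.sum_insert hn, h3] at h2
    simpa only [z, if_pos rfl] using h2
  have h2 : IsClosed {y : X | ‖x‖ ≤ 4 * ‖x + y‖} := isClosed_le continuous_const (by fun_prop)
  exact closure_minimal (fun y hy => h1 y hy) h2 hy

theorem fam_of_hi [CompleteSpace X] [TopologicalSpace.SeparableSpace X] {Z : Submodule 𝕜 X}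
    (hc : IsClosed (Z : Set X)) (hZ : Large Z) (h : HI Z) : Fam 𝕜 X := by
  obtain ⟨G, hG, hQ, hM⟩ := builder0 (𝕜 := 𝕜) (X := X) (fun k G => G ≤ Z ∧ ¬ Hilb G k)
    (fun k ι _ f => by
      obtain ⟨F, h1, h2, h3⟩ := hZ.inf_Kr f k
      exact ⟨F, h2, h1.trans inf_le_right, h1.trans inf_le_left, h3⟩)
  obtain ⟨e, f, β, I, hf, he, hI, hsp⟩ := biorth G hG
    (fun k hk => (hQ k).2 (by rw [hk]; exact hilb_bot _)) hM
  have hI' : ∀ L, ∀ᶠ n in atTop, ∀ i ∈ I n, L ≤ i := fun L => by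
    filter_upwards [eventually_gt_atTop ((Finset.range L).sup β)] with n hn i hi
    by_contra hL
    have := Finset.le_sup (f := β) (Finset.mem_range.2 (not_le.1 hL))
    rw [(hI n i).1 hi] at this
    exact absurd hn (not_lt.2 this)
  rcases baire_main e f hf I hI' with h1 | ⟨a, b, hab, ⟨φ⟩, hfull⟩
  · exact h1
  exfalso
  have hba : Ysp 𝕜 e b ≤ Ysp 𝕜 e a := hhi_le e (hhi_closed e a) fun j hj => hhi_mem e (hab j hj)
  have haZ : Ysp 𝕜 e a ≤ Z := hhi_le e hc fun j _ => (hQ _).1 (he j)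
  let T : Ysp 𝕜 e a →L[𝕜] Ysp 𝕜 e a :=
    ((Ysp 𝕜 e b).subtypeL.comp (φ : Ysp 𝕜 e a →L[𝕜] Ysp 𝕜 e b)).codRestrict _
      fun x => hba (φ x).2
  have hTv : ∀ x, (T x : X) = φ x := fun x => rfl
  have hpos : 0 < ‖(φ.symm : Ysp 𝕜 e b →L[𝕜] Ysp 𝕜 e a)‖ + 1 := by positivity
  refine not_hi_of_op T (c := 1 / (‖(φ.symm : Ysp 𝕜 e b →L[𝕜] Ysp 𝕜 e a)‖ + 1)) (K := 4)
    (by positivity) (fun x => ?_) (fun D => ?_) ?_
  · have h1 := (φ.symm : Ysp 𝕜 e b →L[𝕜] Ysp 𝕜 e a).le_opNorm (φ x)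
    have h2 : ‖T x‖ = ‖φ x‖ := rfl
    rw [h2, one_div, inv_mul_eq_div, div_le_iff₀ hpos]
    simp only [ContinuousLinearEquiv.coe_coe, ContinuousLinearEquiv.symm_apply_apply] at h1
    nlinarith [norm_nonneg (φ x)]
  · obtain ⟨N, hN⟩ := exists_nat_ge |D|
    obtain ⟨n, hn, hn'⟩ := hfull N
    have hGa : G n ≤ Ysp 𝕜 e a := (hsp n).trans (Submodule.span_le.2 (by
      rintro _ ⟨j, hj, rfl⟩
      exact hhi_mem e (hn' j hj).1))
    have hmap : ((G n).comap (Ysp 𝕜 e a).subtype).map (Ysp 𝕜 e a).subtype = G n :=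
      Submodule.map_comap_eq_self (by rw [Submodule.range_subtype]; exact hGa)
    have := hG n
    refine ⟨(G n).comap (Ysp 𝕜 e a).subtype, ?_, fun h1 => (hQ n).2 ?_, fun x hx z => ?_⟩
    · exact (Submodule.comapSubtypeEquivOfLe hGa).symm.finiteDimensional
    · have h2 := h1.map (Ysp 𝕜 e a).subtype fun _ => rfl
      rw [hmap] at h2
      exact Fac.mono h2 (hN.trans (Nat.cast_le.2 hn))
    · refine hhi_far hM e β he (b := b) (n := n) (fun i hi hi' => ?_) hx (y := (T z : X)) (φ z).2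
      have := (hn' i ((hI n i).2 hi')).2
      rw [hi] at this
      exact absurd this (by simp)
  · intro U V _ _ hU hV ε hε
    have hle : ∀ W : Submodule 𝕜 (Ysp 𝕜 e a), W.map (Ysp 𝕜 e a).subtype ≤ Z := fun W =>
      (Submodule.map_subtype_le _ _).trans haZ
    obtain ⟨_, ⟨u, hu, rfl⟩, _, ⟨v, hv, rfl⟩, h1⟩ := h _ _ (hle U) (hle V)
      (hU.map _ fun _ => rfl) (hV.map _ fun _ => rfl) ε hε
    exact ⟨u, hu, v, hv, h1⟩

end Pool.Agent.Lib.MP_435322_an.UD
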