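import Pool.Agent.Lib.MP_435322_an.HBasic

/-! Hilbertian spaces. -/

namespace Pool.Agent.Lib.MP_435322_an.UD

open Finset Filter Pool.Agent.Lib.MP_435322_an

universe u v w

variable {𝕜 : Type w} [RCLike 𝕜] {X : Type u} [NormedAddCommGroup X] [NormedSpace 𝕜 X]

theorem hl2_inv_of_hilb {F : Submodule 𝕜 X} {K : ℝ} (h : Hilb F K) (b : Bool) (m : ℕ) :
    Inv b (nq F) m (K ^ 2) := by
  obtain ⟨ι, inst, φ, h⟩ := h
  let A : F →+ (ι → 𝕜) := (LinearMap.pi fun i => (φ i).comp F.subtype).toAddMonoidHom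
  have := Inv.transfer (q := nq F) (q' := eo (𝕜 := 𝕜) (Finset.univ : Finset ι)) A zero_le_one
    (sq_nonneg K) (fun v => by rw [one_mul]; exact (h v v.2).1) (fun v => (h v v.2).2)
    zero_le_one (inv_eo Finset.univ b m)
  rwa [one_mul, mul_one] at this

theorem hilbertian_of_not_large [CompleteSpace X] (h : ¬ Large (⊤ : Submodule 𝕜 X)) :
    IsHilbertian 𝕜 X := by
  obtain ⟨K, hK⟩ := not_forall.1 h
  have hF : ∀ F : Submodule 𝕜 X, FiniteDimensional 𝕜 F → Hilb F K := fun F hF => by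
    by_contra h1
    exact hK ⟨F, le_top, hF, h1⟩
  have key : ∀ b m, Inv b (nq X) m (max (K ^ 2) 1) := fun b m => by
    refine Inv.const nq_nonneg (fun n hn x => ?_) (le_max_left _ _)
    let F : Submodule 𝕜 X := Submodule.span 𝕜 (Set.range x)
    let y : Fin n → F := fun i => ⟨x i, Submodule.subset_span ⟨i, rfl⟩⟩
    have h1 := hl2_inv_of_hilb (hF F (FiniteDimensional.span_of_finite 𝕜 (Set.finite_range x)))
      b m n hn y
    have h2 : rad (nq X) x = rad (nq F) y := rad_map F.subtype.toAddMonoidHom (nq X) y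
    unfold Ineq at h1 ⊢
    rw [h2]
    exact h1
  exact kwapien (le_max_right _ _) (key true) (key false)

theorem l2_of_hilbertian [TopologicalSpace.SeparableSpace X] (hinf : ¬ FiniteDimensional 𝕜 X)
    (h : IsHilbertian 𝕜 X) : Nonempty (X ≃L[𝕜] lp (fun _ : ℕ => 𝕜) 2) := by
  obtain ⟨H, i1, i2, i3, ⟨e⟩⟩ := h
  have hsep : TopologicalSpace.SeparableSpace H :=
    e.surjective.denseRange.separableSpace e.continuous
  obtain ⟨w, b, -⟩ := exists_hilbertBasis 𝕜 H
  have hon := b.orthonormal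
  have hc : Countable w := by
    refine Pairwise.countable_of_isOpen_disjoint (s := fun i => Metric.ball (b i) (1 / 2))
      (fun i j hij => ?_) (fun _ => Metric.isOpen_ball)
      (fun i => Metric.nonempty_ball.2 (by norm_num))
    refine Metric.ball_disjoint_ball ?_
    have h1 : ‖b i - b j‖ ^ 2 = 2 := by
      rw [@norm_sub_sq 𝕜, hon.1 i, hon.1 j, hon.2 hij]
      simp only [map_zero]
      norm_num
    rw [dist_eq_norm]
    nlinarith [norm_nonneg (b i - b j)]
  have hi : Infinite w := by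
    by_contra h1
    have h2 : Finite w := not_infinite_iff_finite.1 h1
    have h3 : FiniteDimensional 𝕜 (Submodule.span 𝕜 (Set.range b)) :=
      FiniteDimensional.span_of_finite 𝕜 (Set.finite_range b)
    have h4 : Submodule.span 𝕜 (Set.range b) = ⊤ := by
      rw [← b.dense_span]
      exact (IsClosed.submodule_topologicalClosure_eq
        (Submodule.closed_of_finiteDimensional _)).symm
    rw [h4] at h3
    have h5 : FiniteDimensional 𝕜 H := Module.finite_def.2 ((Module.Finite.iff_fg).1 h3)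
    exact hinf (e.toLinearEquiv.symm.finiteDimensional)
  obtain ⟨d⟩ := nonempty_denumerable w
  let q : ℕ ≃ w := (Denumerable.eqv w).symm
  let b' : HilbertBasis ℕ 𝕜 H := HilbertBasis.mk (v := b ∘ q) (hon.comp q q.injective) (by
    rw [q.surjective.range_comp, b.dense_span])
  exact ⟨e.trans b'.repr.toContinuousLinearEquiv⟩

theorem hl2_hilb_inner {H : Type v} [NormedAddCommGroup H] [InnerProductSpace 𝕜 H]
    (G : Submodule 𝕜 H) [FiniteDimensional 𝕜 G] : Hilb G 1 := by
  let b := stdOrthonormalBasis 𝕜 G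
  refine ⟨Fin (Module.finrank 𝕜 G), inferInstance, fun i => innerₛₗ 𝕜 (b i : H), fun x hx => ?_⟩
  have h1 : ∑ i, ‖innerₛₗ 𝕜 (b i : H) x‖ ^ 2 = ‖x‖ ^ 2 := b.sum_sq_norm_inner_right ⟨x, hx⟩
  rw [h1, one_pow, one_mul]
  exact ⟨le_rfl, le_rfl⟩

theorem hbad_of_not_hilb (G : ℕ → Submodule 𝕜 X) (hG : ∀ k, FiniteDimensional 𝕜 (G k))
    (h : ∀ k : ℕ, ¬ Hilb (G k) k) (K : ℝ) (N : ℕ) :
    ∃ n, N ≤ n ∧ ∃ b m, ¬ Inv b (nq (G n)) m K := by
  by_contra hcon
  have h1 : ∀ k b m, Inv b (nq (G (k + N))) m K := fun k b m => by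
    by_contra h2
    exact hcon ⟨k + N, Nat.le_add_left _ _, b, m, h2⟩
  have hcomp : ∀ k, CompleteSpace (G (k + N)) := fun k => FiniteDimensional.complete 𝕜 _
  obtain ⟨H, i1, i2, i3, ⟨e⟩⟩ := kwapien_lp (𝕜 := 𝕜) (X := fun k => G (k + N)) h1
  set K' : ℝ := ‖e.symm.toContinuousLinearMap‖ * (‖e.toContinuousLinearMap‖ * 1) with hK'
  obtain ⟨k, hk⟩ := exists_nat_ge |K'|
  let s : G (k + N) →ₗ[𝕜] lp (fun k => G (k + N)) 2 :=
    lp.lsingle (𝕜 := 𝕜) (E := fun k => G (k + N)) 2 k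
  have hs : ∀ x, ‖s x‖ = ‖x‖ := fun x =>
    lp.norm_single (E := fun k => G (k + N)) (by norm_num) k x
  let j : G (k + N) →ₗ[𝕜] H := e.toLinearEquiv.toLinearMap.comp s
  have h2 : Hilb (⊤ : Submodule 𝕜 (G (k + N))) K' :=
    Hilb.comap (hl2_hilb_inner (LinearMap.range j)) j (fun x _ => ⟨x, rfl⟩)
      (fun x _ => by
        rw [← hs]
        exact e.toContinuousLinearMap.le_opNorm (s x))
      (fun x _ => by
        rw [← hs]
        have := e.symm.toContinuousLinearMap.le_opNorm (e (s x))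
        rw [ContinuousLinearEquiv.coe_coe, e.symm_apply_apply] at this
        exact this)
  have h3 := h2.map (G (k + N)).subtype (fun _ => rfl)
  rw [Submodule.map_subtype_top] at h3
  refine h (k + N) (Fac.mono h3 (hk.trans ?_))
  exact_mod_cast Nat.le_add_right k N

end Pool.Agent.Lib.MP_435322_an.UD
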