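import Pool.Agent.Lib.MP_435322_an.UMain
import Pool.Agent.Lib.MP_435322_an.GL2
import Pool.Agent.Lib.MP_435322_an.GArr
import Pool.Agent.Lib.MP_435322_an.GFek
import Pool.Agent.Lib.MP_435322_an.HL2
import Pool.Agent.Lib.MP_435322_an.HDich
import Pool.Agent.Lib.MP_435322_an.HHI

/-! Assembling the proof of ergodicity. -/

namespace Pool.Agent.Lib.MP_435322_an.UD

open Finset Filter Pool.Agent.Lib.MP_435322_an
open scoped NNReal

universe u w

variable {𝕜 : Type w} [RCLike 𝕜] {W : Type u} [NormedAddCommGroup W] [NormedSpace 𝕜 W]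

theorem l2_of_ub {ν : V → ℝ} (h : LN ν) (hG : ¬ Gads ν) (key : UB ν ∧ SUP ν) : L2 ν := by
  classical
  obtain ⟨C, H, F, hF, hup⟩ := seq_of_ub h key.1 key.2
  by_contra hL
  refine hG (gads_of_fail h hF fun κ hκ hκ' C' hlo => hL ?_)
  refine ⟨max H C', fun γ => F (κ γ), fun k => (hF.1 _).mono (Nat.zero_le _),
    fun n k k' i i' h1 h2 => hκ (hF.2.1 n _ _ i i' h1 h2),
    fun k => (hF.2.2.1 (κ k)).mono (by exact_mod_cast hκ' k), fun σ x hx => ?_, fun σ x hx => ?_⟩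
  · have h1 := hup (σ.map ⟨κ, hκ⟩) (Function.extend κ x 0) (fun k hk => by
      obtain ⟨γ, hγ, rfl⟩ := Finset.mem_map.1 hk
      show InC (F (κ γ)) (Function.extend κ x 0 (κ γ))
      rw [hκ.extend_apply]
      exact hx γ hγ)
    simp only [Finset.sum_map, Function.Embedding.coeFn_mk, hκ.extend_apply] at h1
    exact h1.trans (mul_le_mul_of_nonneg_right (le_max_left _ _)
      (Finset.sum_nonneg fun _ _ => sq_nonneg _))
  · exact (hlo σ x hx).trans (mul_le_mul_of_nonneg_right (le_max_right _ _) (sq_nonneg _))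

section leq
variable {ν : V → ℝ} {lift : V → W} {U : ℝ}

theorem fam_of_l2' [CompleteSpace W] (hν : LN ν) (h : LEq 𝕜 ν lift U) (hU : 1 ≤ U)
    (hL : L2 ν) : Fam 𝕜 W := by
  classical
  obtain ⟨C, F, hF1, hF2, hF3, hF4, hF5⟩ := hL
  let G : ℕ → Submodule 𝕜 W := fun k => Submodule.span 𝕜 (Set.range fun g => lift ((F k).y g))
  have hfin : ∀ k, FiniteDimensional 𝕜 (G k) := fun k =>
    FiniteDimensional.span_of_finite 𝕜 (Set.finite_range _)
  have hU0 : 0 ≤ U := by linarith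
  refine l2_family' G (fun k => (G k).closed_of_finiteDimensional) (C := U ^ 2 * |C|)
    (fun σ z hz => ?_) (fun K N => ?_)
  · choose c hc using fun k => (Submodule.mem_span_range_iff_exists_fun 𝕜).1 (hz k)
    let x : ℕ → V := fun k => cmb (fun g => ‖c k g‖₊) (F k).y
    have h1 : ∀ k, ‖z k‖ ≤ ν (x k) ∧ ν (x k) ≤ U * ‖z k‖ := fun k => by
      rw [← hc k]; exact h _ _ (hF1 k).2.1 _
    have hd : Dj (fun p : Σ k : σ, Fin (F k).d => (F p.1).y p.2) := by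
      rintro n ⟨⟨k, hk⟩, i⟩ ⟨⟨k', hk'⟩, i'⟩ hp hq
      obtain rfl := hF2 n k k' i i' hp hq
      obtain rfl := (hF1 k).2.1 n i i' hp hq
      rfl
    have h2 := h _ _ hd (fun p => c p.1 p.2)
    have h3 : ∑ p : Σ k : σ, Fin (F k).d, c p.1 p.2 • lift ((F p.1).y p.2) = ∑ k ∈ σ, z k := by
      rw [Fintype.sum_sigma, ← Finset.sum_coe_sort σ z]
      exact Finset.sum_congr rfl fun k _ => hc k
    have h4 : cmb (fun p : Σ k : σ, Fin (F k).d => ‖c p.1 p.2‖₊) (fun p => (F p.1).y p.2)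
        = ∑ k ∈ σ, x k := by
      unfold cmb
      rw [Fintype.sum_sigma, ← Finset.sum_coe_sort σ x]
      rfl
    rw [h3, h4] at h2
    have h5 := hF4 σ x fun k _ => ⟨_, rfl⟩
    have h6 := hF5 σ x fun k _ => ⟨_, rfl⟩
    have h7 : ∑ k ∈ σ, ν (x k) ^ 2 ≤ U ^ 2 * ∑ k ∈ σ, ‖z k‖ ^ 2 := by
      rw [Finset.mul_sum]
      refine Finset.sum_le_sum fun k _ => ?_
      rw [← mul_pow]
      exact pow_le_pow_left₀ (hν.nonneg _) (h1 k).2 2
    have h8 : ∑ k ∈ σ, ‖z k‖ ^ 2 ≤ ∑ k ∈ σ, ν (x k) ^ 2 :=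
      Finset.sum_le_sum fun k _ => pow_le_pow_left₀ (norm_nonneg _) (h1 k).1 2
    have h9 := pow_le_pow_left₀ (norm_nonneg _) h2.1 2
    have h10 := pow_le_pow_left₀ (hν.nonneg _) h2.2 2
    have h11 : 0 ≤ ∑ k ∈ σ, ν (x k) ^ 2 := Finset.sum_nonneg fun _ _ => sq_nonneg _
    constructor
    · calc _ ≤ |C| * ∑ k ∈ σ, ν (x k) ^ 2 :=
            h9.trans (h5.trans (mul_le_mul_of_nonneg_right (le_abs_self _) h11))
        _ ≤ |C| * (U ^ 2 * ∑ k ∈ σ, ‖z k‖ ^ 2) := mul_le_mul_of_nonneg_left h7 (abs_nonneg _)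
        _ = _ := by ring
    · calc _ ≤ |C| * ν (∑ k ∈ σ, x k) ^ 2 :=
            h8.trans (h6.trans (mul_le_mul_of_nonneg_right (le_abs_self _) (sq_nonneg _)))
        _ ≤ |C| * (U * ‖∑ k ∈ σ, z k‖) ^ 2 := mul_le_mul_of_nonneg_left h10 (abs_nonneg _)
        _ = _ := by ring
  · obtain ⟨n0, hn0⟩ := exists_nat_ge (U ^ 2 * |K|)
    refine ⟨max N n0, le_max_left _ _, ?_⟩
    set n := max N n0
    have hn : U ^ 2 * |K| ≤ n := hn0.trans (by exact_mod_cast le_max_right _ _)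
    by_contra hcon
    push Not at hcon
    obtain ⟨b, hb⟩ := hF3 n
    let x : Fin (F n).d → G n := fun g => ⟨((b g : ℝ) : 𝕜) • lift ((F n).y g),
      Submodule.smul_mem _ _ (Submodule.subset_span ⟨g, rfl⟩)⟩
    have e1 : rad (nq (G n)) x = rad (nq W) (fun g => ((b g : ℝ) : 𝕜) • lift ((F n).y g)) :=
      (rad_map (G n).subtype.toAddMonoidHom (nq W) x).symm
    have e2 : ∀ g, nq (G n) (x g) = (b g : ℝ) ^ 2 * ‖lift ((F n).y g)‖ ^ 2 := fun g => by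
      show ‖((b g : ℝ) : 𝕜) • lift ((F n).y g)‖ ^ 2 = _
      rw [norm_smul, RCLike.norm_ofReal, mul_pow, sq_abs]
    have e3 : ∑ g, nq (G n) (x g) ≤ ssq b := Finset.sum_le_sum fun g _ => by
      rw [e2]
      have := pow_le_pow_left₀ (norm_nonneg _) ((h.one ((F n).y g)).1.trans ((hF1 n).1 g).le) 2
      nlinarith [sq_nonneg (b g : ℝ)]
    have e4 : ssq b ≤ U ^ 2 * ∑ g, nq (G n) (x g) := by
      rw [Finset.mul_sum]
      refine Finset.sum_le_sum fun g _ => ?_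
      rw [e2]
      have := pow_le_pow_left₀ zero_le_one (((hF1 n).1 g).symm.le.trans (h.one ((F n).y g)).2) 2
      nlinarith [sq_nonneg (b g : ℝ)]
    have r := h.rad hν (hF1 n).2.1 b
    rw [← e1] at r
    have t1 := (hcon true (F n).d).const nq_nonneg (le_abs_self K) _ le_rfl x
    have t2 := (hcon false (F n).d).const nq_nonneg (le_abs_self K) _ le_rfl x
    simp only [Ineq, if_true, Bool.false_eq_true, if_false] at t1 t2
    have hK := abs_nonneg K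
    have hU2 : 0 ≤ U ^ 2 := sq_nonneg _
    rcases hb with hb | hb
    · have : ν (cmb b (F n).y) ^ 2 ≤ U ^ 2 * |K| * ssq b := by
        rw [mul_assoc]
        exact r.2.trans (mul_le_mul_of_nonneg_left
          (t1.trans (mul_le_mul_of_nonneg_left e3 hK)) hU2)
      nlinarith [ssq_nonneg b]
    · have : ssq b ≤ U ^ 2 * |K| * ν (cmb b (F n).y) ^ 2 := by
        rw [mul_assoc]
        exact e4.trans (mul_le_mul_of_nonneg_left
          (t2.trans (mul_le_mul_of_nonneg_left r.1 hK)) hU2)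
      nlinarith [sq_nonneg (ν (cmb b (F n).y))]

theorem LEq.gseq {Γ : Gauge} (hν : LN ν) (h : LEq 𝕜 ν lift U) (hU : 1 ≤ U) (hS : GSeq Γ ν) :
    ∃ (x : ℕ → W) (C : ℝ), ∀ (σ : Finset ℕ) (c : ℕ → 𝕜),
      ‖∑ k ∈ σ, c k • x k‖ ≤ C * Γ.sum σ (fun k => ‖c k‖₊) ∧
      (Γ.sum σ (fun k => ‖c k‖₊) : ℝ) ≤ C * ‖∑ k ∈ σ, c k • x k‖ := by
  obtain ⟨C, x, hd, hx⟩ := hS
  refine ⟨fun k => lift (x k), |C| * U, fun σ c => ?_⟩
  have h1 := h σ (fun k => x k) (hd.comp Subtype.val_injective) (fun k => c k)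
  unfold cmb at h1
  rw [Finset.sum_coe_sort σ (fun k => c k • lift (x k)),
    Finset.sum_coe_sort σ (fun k => ‖c k‖₊ • x k)] at h1
  obtain ⟨h2, h3⟩ := hx σ fun k => ‖c k‖₊
  have h0 := hν.nonneg (∑ k ∈ σ, ‖c k‖₊ • x k)
  have hC := abs_nonneg C
  constructor
  · refine (h1.1.trans h2).trans (mul_le_mul_of_nonneg_right ?_ (NNReal.coe_nonneg _))
    nlinarith [le_abs_self C]
  · rw [mul_assoc]
    exact (h3.trans (mul_le_mul_of_nonneg_right (le_abs_self C) h0)).trans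
      (mul_le_mul_of_nonneg_left h1.2 hC)

end leq

theorem fam_lattice [CompleteSpace W] {e : ℕ → W} {U : ℝ} (h : SignU 𝕜 e U)
    (hb : NHb (nu 𝕜 e)) : Fam 𝕜 W := by
  have hν := ln_nu (𝕜 := 𝕜) e
  have hL := h.leq
  have hU : 1 ≤ 4 * (|U| + 1) := by linarith [abs_nonneg U]
  by_cases hG : Gads (nu 𝕜 e)
  · exact fam_of_gads h hG
  by_cases hA : NonAs (nu 𝕜 e)
  · rcases kr_or_geq hν hA with hK | ⟨Γ, hΓ, hE⟩
    · have h1 := ub_of_not_gads hν (normUp_of_kr hν hK) hG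
      exact fam_of_l2' hν hL hU (l2_of_ub hν hG ⟨h1, sup_of_kr hν hK h1⟩)
    · obtain ⟨x, C, hx⟩ := hL.gseq hν hU (gseq_of_geq hν hG hE)
      obtain ⟨e', U', h1, h2⟩ := gads_of_classical hΓ x hx
      exact fam_of_gads h1 h2
  · obtain ⟨h1, h2⟩ := sup_of_as hν hb hA
    exact fam_of_l2' hν hL hU (l2_of_ub hν hG ⟨ub_of_not_gads hν h1 hG, h2⟩)

/-- two-sided l2 estimate on a tail of a sequence of subspaces -/
def TSG (G : ℕ → Submodule 𝕜 W) (N : ℕ) (C : ℝ) : Prop :=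
  ∀ (σ : Finset ℕ) (z : ℕ → W), (∀ n ∈ σ, N ≤ n) → (∀ n, z n ∈ G n) →
    ‖∑ n ∈ σ, z n‖ ^ 2 ≤ C * ∑ n ∈ σ, ‖z n‖ ^ 2 ∧ ∑ n ∈ σ, ‖z n‖ ^ 2 ≤ C * ‖∑ n ∈ σ, z n‖ ^ 2

theorem lattice_of_not_tsg {G : ℕ → Submodule 𝕜 W} (h : ∀ N C, ¬ TSG G N C) :
    ∃ e : ℕ → W, (∀ n, e n ∈ G n) ∧ ∀ (D : ℝ) (m : ℕ), ∃ σ : Finset ℕ, (∀ n ∈ σ, m ≤ n) ∧
      (D * ∑ n ∈ σ, ‖e n‖ ^ 2 < ‖∑ n ∈ σ, e n‖ ^ 2 ∨
        D * ‖∑ n ∈ σ, e n‖ ^ 2 < ∑ n ∈ σ, ‖e n‖ ^ 2) := by
  classical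
  obtain ⟨m, o, -, h1, h2⟩ := sel_nat (α := Finset ℕ × (ℕ → W)) (fun j a b o =>
    (∀ n ∈ o.1, a ≤ n ∧ n < b) ∧ (∀ n, o.2 n ∈ G n) ∧
      ((j : ℝ) * ∑ n ∈ o.1, ‖o.2 n‖ ^ 2 < ‖∑ n ∈ o.1, o.2 n‖ ^ 2 ∨
        (j : ℝ) * ‖∑ n ∈ o.1, o.2 n‖ ^ 2 < ∑ n ∈ o.1, ‖o.2 n‖ ^ 2)) 0 (fun j a => by
    have h3 := h a j
    simp only [TSG, not_forall, not_and_or, not_le] at h3
    obtain ⟨σ, z, h4, h5, h6⟩ := h3
    refine ⟨(σ, z), max a (σ.sup id) + 1, by omega, fun n hn => ⟨h4 n hn, ?_⟩, h5, h6⟩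
    have : n ≤ σ.sup id := Finset.le_sup (f := id) hn
    omega)
  have huniq : ∀ n j j', n ∈ (o j).1 → n ∈ (o j').1 → j = j' := fun n j j' a b => by
    have h4 := h1.lt_iff_lt.1 (((h2 j).1 n a).1.trans_lt ((h2 j').1 n b).2)
    have h5 := h1.lt_iff_lt.1 (((h2 j').1 n b).1.trans_lt ((h2 j).1 n a).2)
    omega
  let e : ℕ → W := fun n => if hn : ∃ j, n ∈ (o j).1 then (o hn.choose).2 n else 0
  have he : ∀ j, ∀ n ∈ (o j).1, e n = (o j).2 n := fun j n hn => by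
    have h3 : ∃ j, n ∈ (o j).1 := ⟨j, hn⟩
    show (if hn : ∃ j, n ∈ (o j).1 then (o hn.choose).2 n else 0) = _
    rw [dif_pos h3, huniq n _ j h3.choose_spec hn]
  refine ⟨e, fun n => ?_, fun D a => ?_⟩
  · show (if hn : ∃ j, n ∈ (o j).1 then (o hn.choose).2 n else 0) ∈ G n
    split_ifs with h3
    · exact (h2 _).2.1 n
    · exact Submodule.zero_mem _
  · obtain ⟨j0, hj0⟩ := exists_nat_ge D
    have hD : D ≤ (max a j0 : ℕ) := hj0.trans (by exact_mod_cast le_max_right _ _)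
    refine ⟨(o (max a j0)).1, fun n hn => (le_max_left a j0).trans
      ((h1.id_le _).trans ((h2 _).1 n hn).1), ?_⟩
    rw [Finset.sum_congr rfl (he (max a j0)),
      Finset.sum_congr rfl (fun n hn => by rw [he (max a j0) n hn] :
        ∀ n ∈ (o (max a j0)).1, ‖e n‖ ^ 2 = ‖(o (max a j0)).2 n‖ ^ 2)]
    rcases (h2 (max a j0)).2.2 with h3 | h3
    · exact Or.inl ((mul_le_mul_of_nonneg_right hD
        (Finset.sum_nonneg fun _ _ => sq_nonneg _)).trans_lt h3)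
    · exact Or.inr ((mul_le_mul_of_nonneg_right hD (sq_nonneg _)).trans_lt h3)

theorem fam_ufdd [CompleteSpace W] {G : ℕ → Submodule 𝕜 W} {C : ℝ}
    (hG : ∀ k, FiniteDimensional 𝕜 (G k)) (hH : ∀ k : ℕ, ¬ Hilb (G k) k) (hS : SignG G C) :
    Fam 𝕜 W := by
  by_cases hT : ∃ N C, TSG G N C
  · obtain ⟨N, C, hT⟩ := hT
    have hi : Function.Injective (fun n => n + N) := add_left_injective N
    refine l2_family' (fun k => G (k + N)) (fun k => (G _).closed_of_finiteDimensional) (C := C)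
      (fun σ z hz => ?_) (hbad_of_not_hilb _ (fun k => hG _) fun k h1 => hH (k + N) ?_)
    · have h1 := hT (σ.map ⟨_, hi⟩) (fun n => if N ≤ n then z (n - N) else 0)
        (fun n hn => by
          obtain ⟨k, -, rfl⟩ := Finset.mem_map.1 hn
          exact Nat.le_add_left _ _)
        (fun n => by
          split_ifs with h2
          · have := hz (n - N)
            rwa [Nat.sub_add_cancel h2] at this
          · exact Submodule.zero_mem _)
      simpa only [Finset.sum_map, Function.Embedding.coeFn_mk, Nat.le_add_left, if_true,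
        Nat.add_sub_cancel] using h1
    · refine Fac.mono h1 ?_
      rw [Nat.abs_cast]
      exact_mod_cast Nat.le_add_right _ _
  push Not at hT
  obtain ⟨e, he, hd⟩ := lattice_of_not_tsg hT
  have h : SignU 𝕜 e C := fun σ c ε =>
    hS σ (fun n => c n • e n) (fun n => Submodule.smul_mem _ _ (he n)) ε
  exact fam_lattice h (nhb_nu h.leq hd)

theorem fam_of_large [CompleteSpace W] [TopologicalSpace.SeparableSpace W]
    (h : Large (⊤ : Submodule 𝕜 W)) : Fam 𝕜 W := by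
  rcases dichotomy h with ⟨G, C, h1, h2, h3⟩ | ⟨Z, h1, h2, h3⟩
  · exact fam_ufdd h1 h2 h3
  · exact fam_of_hi h1 h2 h3

end Pool.Agent.Lib.MP_435322_an.UD
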