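import Pool.Agent.Lib.MP_435322_an.UGad

/-! The lattice functional attached to an unconditional decomposition. -/

namespace Pool.Agent.Lib.MP_435322_an.UD

open Finset Filter Pool.Agent.Lib.MP_435322_an
open scoped NNReal

universe u w

variable {𝕜 : Type w} [RCLike 𝕜] {W : Type u} [NormedAddCommGroup W] [NormedSpace 𝕜 W]

theorem sum_abs_le {σ : Finset ℕ} {a : ℕ → ℝ} {B : ℝ} (h : ∀ τ : Finset ℕ, |∑ n ∈ τ, a n| ≤ B) :
    ∑ n ∈ σ, |a n| ≤ 2 * B := by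
  classical
  rw [← Finset.sum_filter_add_sum_filter_not σ (fun n => 0 ≤ a n)]
  have h1 : ∑ n ∈ σ.filter (fun n => 0 ≤ a n), |a n| = ∑ n ∈ σ.filter (fun n => 0 ≤ a n), a n :=
    Finset.sum_congr rfl fun n hn => abs_of_nonneg (Finset.mem_filter.1 hn).2
  have h2 : ∑ n ∈ σ.filter (fun n => ¬ 0 ≤ a n), |a n|
      = - ∑ n ∈ σ.filter (fun n => ¬ 0 ≤ a n), a n := by
    rw [← Finset.sum_neg_distrib]
    exact Finset.sum_congr rfl fun n hn => abs_of_neg (not_le.1 (Finset.mem_filter.1 hn).2)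
  have h3 := (le_abs_self _).trans (h (σ.filter fun n => 0 ≤ a n))
  have h4 := (neg_le_abs _).trans (h (σ.filter fun n => ¬ 0 ≤ a n))
  linarith

theorem mult_bound {z : ℕ → W} {B : ℝ} (h : ∀ τ : Finset ℕ, ‖∑ n ∈ τ, z n‖ ≤ B) (σ : Finset ℕ)
    (θ : ℕ → 𝕜) (hθ : ∀ n, ‖θ n‖ ≤ 1) : ‖∑ n ∈ σ, θ n • z n‖ ≤ 4 * B := by
  obtain ⟨g, hg1, hg2⟩ := exists_dual_vector'' 𝕜 (∑ n ∈ σ, θ n • z n)
  have hb : ∀ τ : Finset ℕ, ‖∑ n ∈ τ, g (z n)‖ ≤ B := fun τ => by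
    rw [← map_sum]
    refine (g.le_opNorm _).trans ?_
    nlinarith [h τ, norm_nonneg (∑ n ∈ τ, z n), norm_nonneg g]
  have h1 : ∑ n ∈ σ, |RCLike.re (g (z n))| ≤ 2 * B := sum_abs_le fun τ => by
    rw [← map_sum]; exact (RCLike.abs_re_le_norm _).trans (hb τ)
  have h2 : ∑ n ∈ σ, |RCLike.im (g (z n))| ≤ 2 * B := sum_abs_le fun τ => by
    rw [← map_sum]; exact (RCLike.abs_im_le_norm _).trans (hb τ)
  have h3 : ‖∑ n ∈ σ, θ n • z n‖ = ‖g (∑ n ∈ σ, θ n • z n)‖ := by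
    rw [hg2, RCLike.norm_ofReal, abs_norm]
  rw [h3, map_sum]
  refine (norm_sum_le _ _).trans ?_
  have h4 : ∀ n ∈ σ, ‖g (θ n • z n)‖ ≤ |RCLike.re (g (z n))| + |RCLike.im (g (z n))| := by
    intro n _
    rw [map_smul, norm_smul]
    have h5 : ‖g (z n)‖ ≤ |RCLike.re (g (z n))| + |RCLike.im (g (z n))| := by
      conv_lhs => rw [← RCLike.re_add_im (g (z n))]
      refine (norm_add_le _ _).trans ?_
      rw [norm_mul, RCLike.norm_ofReal, RCLike.norm_ofReal]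
      have := RCLike.norm_I_of_ne_zero (K := 𝕜)
      have h6 : ‖(RCLike.I : 𝕜)‖ ≤ 1 := by
        by_cases h0 : (RCLike.I : 𝕜) = 0
        · rw [h0]; simp
        · exact (this h0).le
      nlinarith [abs_nonneg (RCLike.im (g (z n)))]
    nlinarith [hθ n, norm_nonneg (g (z n)), norm_nonneg (θ n)]
  refine (Finset.sum_le_sum h4).trans ?_
  rw [Finset.sum_add_distrib]
  linarith

theorem summable_bdd {z : ℕ → W} (h : Summable z) : ∃ B, ∀ τ : Finset ℕ, ‖∑ n ∈ τ, z n‖ ≤ B := by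
  classical
  obtain ⟨s, hs⟩ := h.vanishing (Metric.ball_mem_nhds (0 : W) one_pos)
  refine ⟨∑ n ∈ s, ‖z n‖ + 1, fun τ => ?_⟩
  rw [← Finset.sum_inter_add_sum_sdiff τ s]
  refine (norm_add_le _ _).trans (add_le_add ?_ ?_)
  · exact (norm_sum_le _ _).trans (Finset.sum_le_sum_of_subset_of_nonneg
      Finset.inter_subset_right fun _ _ _ => norm_nonneg _)
  · have := hs (τ \ s) Finset.sdiff_disjoint
    rw [mem_ball_zero_iff] at this
    exact this.le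

theorem uncond [CompleteSpace W] (P : ℕ → W →L[𝕜] W) (hs : ∀ x, HasSum (fun n => P n x) x) :
    ∃ U : ℝ, 1 ≤ U ∧ ∀ (σ : Finset ℕ) (θ : ℕ → 𝕜), (∀ n, ‖θ n‖ ≤ 1) → ∀ x,
      ‖∑ n ∈ σ, θ n • P n x‖ ≤ U * ‖x‖ := by
  obtain ⟨C, hC⟩ := banach_steinhaus
    (g := fun p : Finset ℕ × {θ : ℕ → 𝕜 // ∀ n, ‖θ n‖ ≤ 1} => ∑ n ∈ p.1, p.2.1 n • P n)
    (fun x => by
      obtain ⟨B, hB⟩ := summable_bdd (hs x).summable
      refine ⟨4 * B, fun p => ?_⟩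
      rw [_root_.sum_apply]
      exact mult_bound hB p.1 p.2.1 p.2.2)
  refine ⟨max C 1, le_max_right _ _, fun σ θ hθ x => ?_⟩
  have h1 := (∑ n ∈ σ, θ n • P n).le_opNorm x
  rw [_root_.sum_apply] at h1
  exact h1.trans (mul_le_mul_of_nonneg_right ((hC (σ, ⟨θ, hθ⟩)).trans (le_max_left _ _))
    (norm_nonneg _))

/-- the vector with nonnegative coordinates `g`, twisted by `θ` -/
noncomputable def tw (e : ℕ → W) (θ : ℕ → 𝕜) (g : V) : W :=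
  g.sum fun n c => (θ n * ((c : ℝ) : 𝕜)) • e n

theorem tw_eq (e : ℕ → W) (θ : ℕ → 𝕜) (g : V) {σ : Finset ℕ} (h : g.support ⊆ σ) :
    tw e θ g = ∑ n ∈ σ, (θ n * ((g n : ℝ) : 𝕜)) • e n :=
  Finsupp.sum_of_support_subset g h _ (fun _ _ => by simp)

theorem tw_add (e : ℕ → W) (θ : ℕ → 𝕜) (x y : V) : tw e θ (x + y) = tw e θ x + tw e θ y :=
  Finsupp.sum_add_index' (fun _ => by simp) (fun n a b => by
    push_cast; rw [mul_add, add_smul])

theorem tw_smul (e : ℕ → W) (θ : ℕ → 𝕜) (c : ℝ≥0) (x : V) :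
    tw e θ (c • x) = ((c : ℝ) : 𝕜) • tw e θ x := by
  rw [tw_eq e θ (c • x) Finsupp.support_smul, tw_eq e θ x subset_rfl, Finset.smul_sum]
  refine Finset.sum_congr rfl fun n _ => ?_
  rw [smul_smul, Finsupp.smul_apply, smul_eq_mul]
  push_cast
  congr 1; ring

variable (𝕜) in
/-- the lattice functional -/
noncomputable def nu (e : ℕ → W) (g : V) : ℝ :=
  ⨆ θ : {θ : ℕ → 𝕜 // ∀ n, ‖θ n‖ ≤ 1}, ‖tw e θ.1 g‖

theorem le_nu (e : ℕ → W) (g : V) {θ : ℕ → 𝕜} (hθ : ∀ n, ‖θ n‖ ≤ 1) : ‖tw e θ g‖ ≤ nu 𝕜 e g := by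
  refine le_ciSup (f := fun θ : {θ : ℕ → 𝕜 // ∀ n, ‖θ n‖ ≤ 1} => ‖tw e θ.1 g‖)
    ⟨∑ n ∈ g.support, (g n : ℝ) * ‖e n‖, ?_⟩ ⟨θ, hθ⟩
  rintro _ ⟨θ, rfl⟩
  show ‖tw e θ.1 g‖ ≤ _
  rw [tw_eq e θ.1 g subset_rfl]
  refine (norm_sum_le _ _).trans (Finset.sum_le_sum fun n _ => ?_)
  rw [norm_smul, norm_mul, RCLike.norm_ofReal, NNReal.abs_eq]
  exact mul_le_mul_of_nonneg_right (mul_le_of_le_one_left (g n).2 (θ.2 n)) (norm_nonneg _)

theorem nu_le (e : ℕ → W) (g : V) {B : ℝ}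
    (h : ∀ θ : ℕ → 𝕜, (∀ n, ‖θ n‖ ≤ 1) → ‖tw e θ g‖ ≤ B) : nu 𝕜 e g ≤ B :=
  haveI : Nonempty {θ : ℕ → 𝕜 // ∀ n, ‖θ n‖ ≤ 1} := ⟨⟨0, fun _ => by simp⟩⟩
  ciSup_le fun θ => h θ.1 θ.2

theorem nu_smul_le (e : ℕ → W) (c : ℝ≥0) (g : V) : nu 𝕜 e (c • g) ≤ c * nu 𝕜 e g :=
  nu_le e _ fun θ hθ => by
    rw [tw_smul, norm_smul, RCLike.norm_ofReal, NNReal.abs_eq]
    exact mul_le_mul_of_nonneg_left (le_nu e g hθ) c.2

theorem ln_nu (e : ℕ → W) : LN (nu 𝕜 e) := by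
  refine ⟨fun x y hxy => nu_le e _ fun θ hθ => ?_, fun x y => nu_le e _ fun θ hθ => ?_,
    fun c x => le_antisymm (nu_smul_le e c x) ?_⟩
  · have h1 : tw e θ x = tw e (fun n => θ n * (((x n / y n : ℝ≥0) : ℝ) : 𝕜)) y := by
      rw [tw_eq e θ x (Finsupp.support_mono hxy), tw_eq e _ y subset_rfl]
      refine Finset.sum_congr rfl fun n hn => ?_
      have h2 : (x n : ℝ) = ((x n / y n : ℝ≥0) : ℝ) * y n := by
        rw [← NNReal.coe_mul, div_mul_cancel₀ _ (Finsupp.mem_support_iff.1 hn)]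
      rw [h2]; push_cast; congr 1; ring
    rw [h1]
    refine le_nu e y fun n => ?_
    rw [norm_mul, RCLike.norm_ofReal, NNReal.abs_eq]
    have h3 : ((x n / y n : ℝ≥0) : ℝ) ≤ 1 := by
      exact_mod_cast div_le_one_of_le₀ (hxy n) zero_le
    exact mul_le_one₀ (hθ n) (NNReal.coe_nonneg _) h3
  · rw [tw_add]
    exact (norm_add_le _ _).trans (add_le_add (le_nu e x hθ) (le_nu e y hθ))
  · rcases eq_or_ne c 0 with rfl | hc
    · simpa using (norm_nonneg _).trans (le_nu (𝕜 := 𝕜) e 0 (θ := 0) (fun _ => by simp))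
    · have h1 := nu_smul_le (𝕜 := 𝕜) e c⁻¹ (c • x)
      rw [smul_smul, inv_mul_cancel₀ hc, one_smul, NNReal.coe_inv] at h1
      have hc' : (0 : ℝ) < c := by exact_mod_cast pos_iff_ne_zero.2 hc
      rwa [le_inv_mul_iff₀ hc'] at h1

section
variable {P : ℕ → W →L[𝕜] W} {e : ℕ → W}

theorem P_sum (hP2 : ∀ i j, i ≠ j → ∀ x, P i (P j x) = 0) (he : ∀ n, P n (e n) = e n)
    (c : ℕ → 𝕜) (σ : Finset ℕ) (n : ℕ) :
    P n (∑ m ∈ σ, c m • e m) = if n ∈ σ then c n • e n else 0 := by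
  rw [map_sum]
  have h1 : ∀ m, m ≠ n → P n (c m • e m) = 0 := fun m hm => by
    rw [map_smul, ← he m, hP2 n m hm.symm, smul_zero]
  split_ifs with h
  · rw [Finset.sum_eq_single n (fun m _ hm => h1 m hm) (fun h' => (h' h).elim), map_smul, he]
  · exact Finset.sum_eq_zero fun m hm => h1 m fun h' => h (h' ▸ hm)

theorem P_tw (hP2 : ∀ i j, i ≠ j → ∀ x, P i (P j x) = 0) (he : ∀ n, P n (e n) = e n)
    (θ : ℕ → 𝕜) (g : V) (n : ℕ) : P n (tw e θ g) = (θ n * ((g n : ℝ) : 𝕜)) • e n := by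
  rw [tw_eq e θ g subset_rfl, P_sum hP2 he (fun n => θ n * ((g n : ℝ) : 𝕜))]
  split_ifs with h
  · rfl
  · rw [Finsupp.notMem_support_iff.1 h]; simp

theorem leq_nu (hP2 : ∀ i j, i ≠ j → ∀ x, P i (P j x) = 0) (hs : ∀ x, HasSum (fun n => P n x) x)
    (he : ∀ n, P n (e n) = e n) {U : ℝ}
    (hU : ∀ (σ : Finset ℕ) (θ : ℕ → 𝕜), (∀ n, ‖θ n‖ ≤ 1) → ∀ x, ‖∑ n ∈ σ, θ n • P n x‖ ≤ U * ‖x‖) :
    LEq 𝕜 (nu 𝕜 e) (tw e (1 : ℕ → 𝕜)) U := by
  intro Q _ g hg κ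
  set s := cmb (fun p => ‖κ p‖₊) g with hs'
  set w := ∑ p, κ p • tw e (1 : ℕ → 𝕜) (g p) with hw
  let c : ℕ → 𝕜 := fun n => ∑ p, κ p * ((g p n : ℝ) : 𝕜)
  have hc : ∀ n, ‖c n‖ = s n := fun n => by
    rw [hs', cmb_apply]
    by_cases h : ∃ p, g p n ≠ 0
    · obtain ⟨p, hp⟩ := h
      have h0 : ∀ q, q ≠ p → g q n = 0 := fun q hq => by
        by_contra h1; exact hq (hg n q p h1 hp)
      show ‖∑ p, κ p * ((g p n : ℝ) : 𝕜)‖ = _
      rw [Finset.sum_eq_single p (fun q _ hq => by rw [h0 q hq]; simp) (by simp),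
        Finset.sum_eq_single p (fun q _ hq => by rw [h0 q hq]; simp) (by simp)]
      rw [norm_mul, RCLike.norm_ofReal, NNReal.abs_eq]; simp
    · push Not at h
      simp [c, h]
  have hPw : ∀ n, P n w = c n • e n := fun n => by
    rw [hw, map_sum, Finset.sum_smul]
    refine Finset.sum_congr rfl fun p _ => ?_
    rw [map_smul, P_tw hP2 he, smul_smul]; simp
  have hdiv : ∀ n, c n / ((s n : ℝ) : 𝕜) * ((s n : ℝ) : 𝕜) = c n := fun n => by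
    by_cases h : s n = 0
    · have : c n = 0 := norm_eq_zero.1 (by rw [hc, h]; simp)
      rw [this]; simp
    · exact div_mul_cancel₀ _ (by exact_mod_cast h)
  constructor
  · have h1 : w = tw e (fun n => c n / ((s n : ℝ) : 𝕜)) s := by
      refine (hs w).unique ?_
      have h2 := hs (tw e (fun n => c n / ((s n : ℝ) : 𝕜)) s)
      simp only [P_tw hP2 he, hdiv] at h2
      simpa only [hPw] using h2
    rw [h1]
    refine le_nu e s fun n => ?_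
    rw [norm_div, RCLike.norm_ofReal, NNReal.abs_eq, hc]
    exact div_self_le_one _
  · refine nu_le e s fun θ hθ => ?_
    have h1 : tw e θ s = ∑ n ∈ s.support, (θ n * (((s n : ℝ) : 𝕜) / c n)) • P n w := by
      rw [tw_eq e θ s subset_rfl]
      refine Finset.sum_congr rfl fun n hn => ?_
      have h2 : c n ≠ 0 := fun h0 => Finsupp.mem_support_iff.1 hn (by
        have := hc n
        rw [h0, norm_zero] at this
        exact_mod_cast this.symm)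
      rw [hPw, smul_smul, mul_assoc, div_mul_cancel₀ _ h2]
    rw [h1]
    refine hU _ _ (fun n => ?_) w
    rw [norm_mul, norm_div, RCLike.norm_ofReal, NNReal.abs_eq, hc]
    exact mul_le_one₀ (hθ n) (by positivity) (div_self_le_one _)

end

end Pool.Agent.Lib.MP_435322_an.UD
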