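import Pool.Agent.Lib.MP_435322_an.GBasic
import Pool.Agent.Lib.MP_435322_an.ULat

/-! The lattice functional of an unconditional sequence. -/

namespace Pool.Agent.Lib.MP_435322_an.UD

open Finset Filter Pool.Agent.Lib.MP_435322_an
open scoped NNReal

universe u w

variable {𝕜 : Type w} [RCLike 𝕜] {W : Type u} [NormedAddCommGroup W] [NormedSpace 𝕜 W]
  {e : ℕ → W} {U : ℝ}

theorem SignU.subset (h : SignU 𝕜 e U) (σ τ : Finset ℕ) (c : ℕ → 𝕜) :
    ‖∑ n ∈ σ ∩ τ, c n • e n‖ ≤ (|U| + 1) * ‖∑ n ∈ σ, c n • e n‖ := by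
  classical
  have h1 := h σ c fun n => if n ∈ τ then 1 else -1
  have h2 : (∑ n ∈ σ, (if n ∈ τ then (1 : ℤˣ) else -1) • c n • e n) + ∑ n ∈ σ, c n • e n
      = (2 : 𝕜) • ∑ n ∈ σ ∩ τ, c n • e n := by
    rw [← Finset.sum_add_distrib, ← Finset.sum_ite_mem, Finset.smul_sum]
    refine Finset.sum_congr rfl fun n _ => ?_
    split_ifs
    · rw [one_smul, two_smul]
    · rw [Units.neg_smul, one_smul, neg_add_cancel, smul_zero]
  have h3 := norm_add_le (∑ n ∈ σ, (if n ∈ τ then (1 : ℤˣ) else -1) • c n • e n)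
    (∑ n ∈ σ, c n • e n)
  rw [h2, norm_smul, RCLike.norm_ofNat] at h3
  have h4 := mul_le_mul_of_nonneg_right (le_abs_self U) (norm_nonneg (∑ n ∈ σ, c n • e n))
  nlinarith [norm_nonneg (∑ n ∈ σ ∩ τ, c n • e n)]

theorem SignU.mult (h : SignU 𝕜 e U) (σ : Finset ℕ) (c θ : ℕ → 𝕜) (hθ : ∀ n, ‖θ n‖ ≤ 1) :
    ‖∑ n ∈ σ, (θ n * c n) • e n‖ ≤ 4 * (|U| + 1) * ‖∑ n ∈ σ, c n • e n‖ := by
  classical
  have h1 := mult_bound (𝕜 := 𝕜) (z := fun n => if n ∈ σ then c n • e n else 0)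
    (B := (|U| + 1) * ‖∑ n ∈ σ, c n • e n‖) (fun τ => by
      rw [Finset.sum_ite_mem, Finset.inter_comm]
      exact h.subset σ τ c) σ θ hθ
  rw [mul_assoc]
  refine le_trans (le_of_eq ?_) h1
  congr 1
  exact Finset.sum_congr rfl fun n hn => by rw [if_pos hn, smul_smul]

theorem tw_one_single (e : ℕ → W) (n : ℕ) : tw e (1 : ℕ → 𝕜) (Finsupp.single n 1) = e n := by
  rw [tw_eq e _ _ Finsupp.support_single_subset]; simp

theorem dj_single {Q : Type*} {a : Q → ℕ} (ha : Function.Injective a) :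
    Dj fun p => (Finsupp.single (a p) 1 : V) := fun n p q hp hq => by
  have hs : ∀ p : ℕ, (Finsupp.single p 1 : V) n ≠ 0 → p = n := fun p hp => by
    by_contra h0; exact hp (Finsupp.single_eq_of_ne' h0)
  exact ha ((hs _ hp).trans (hs _ hq).symm)

theorem tl_single {m n : ℕ} (h : m ≤ n) : Tl m (Finsupp.single n 1 : V) := fun k hk => by
  by_cases h0 : n = k
  · exact h0 ▸ h
  · exact (hk (Finsupp.single_eq_of_ne' h0)).elim

theorem SignU.leq (h : SignU 𝕜 e U) : LEq 𝕜 (nu 𝕜 e) (tw e (1 : ℕ → 𝕜)) (4 * (|U| + 1)) := by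
  classical
  intro Q _ g hg κ
  set s := cmb (fun p => ‖κ p‖₊) g with hs'
  let c : ℕ → 𝕜 := fun n => ∑ p, κ p * ((g p n : ℝ) : 𝕜)
  have hc : ∀ n, ‖c n‖ = s n := fun n => by
    rw [hs', cmb_apply]
    by_cases h : ∃ p, g p n ≠ 0
    · obtain ⟨p, hp⟩ := h
      have h0 : ∀ q, q ≠ p → g q n = 0 := fun q hq => by
        by_contra h1; exact hq (hg n q p h1 hp)
      show ‖∑ p, κ p * ((g p n : ℝ) : 𝕜)‖ = _
      rw [Finset.sum_eq_single p (fun q _ hq => by rw [h0 q hq]; simp) (by simp),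
        Finset.sum_eq_single p (fun q _ hq => by rw [h0 q hq]; simp) (by simp)]
      rw [norm_mul, RCLike.norm_ofReal, NNReal.abs_eq]; simp
    · push Not at h
      simp [c, h]
  let σ : Finset ℕ := Finset.univ.biUnion fun p => (g p).support
  have hσ : ∀ p, (g p).support ⊆ σ := fun p =>
    Finset.subset_biUnion_of_mem (fun p => (g p).support) (Finset.mem_univ p)
  have hsσ : s.support ⊆ σ := fun n hn => by
    obtain ⟨p, -, hp⟩ := cmb_ne_zero (Finsupp.mem_support_iff.1 hn)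
    exact hσ p (Finsupp.mem_support_iff.2 hp)
  have hw : ∑ p, κ p • tw e (1 : ℕ → 𝕜) (g p) = ∑ n ∈ σ, c n • e n := by
    simp only [fun p => tw_eq e (1 : ℕ → 𝕜) (g p) (hσ p), Finset.smul_sum, c, Finset.sum_smul]
    rw [Finset.sum_comm]
    refine Finset.sum_congr rfl fun n _ => Finset.sum_congr rfl fun p _ => ?_
    rw [smul_smul]; simp
  have hdiv : ∀ n, c n / ((s n : ℝ) : 𝕜) * ((s n : ℝ) : 𝕜) = c n := fun n => by
    by_cases h : s n = 0
    · have : c n = 0 := norm_eq_zero.1 (by rw [hc, h]; simp)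
      rw [this]; simp
    · exact div_mul_cancel₀ _ (by exact_mod_cast h)
  rw [hw]
  constructor
  · have h1 : ∑ n ∈ σ, c n • e n = tw e (fun n => c n / ((s n : ℝ) : 𝕜)) s := by
      rw [tw_eq e _ s hsσ]
      simp only [hdiv]
    rw [h1]
    refine le_nu e s fun n => ?_
    rw [norm_div, RCLike.norm_ofReal, NNReal.abs_eq, hc]
    exact div_self_le_one _
  · refine nu_le e s fun θ hθ => ?_
    have h1 : tw e θ s = ∑ n ∈ σ, ((θ n * (((s n : ℝ) : 𝕜) / c n)) * c n) • e n := by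
      rw [tw_eq e θ s hsσ]
      refine Finset.sum_congr rfl fun n _ => ?_
      by_cases h2 : c n = 0
      · have h3 := hc n
        rw [h2, norm_zero] at h3
        rw [← h3, h2]; simp
      · rw [mul_assoc, div_mul_cancel₀ _ h2]
    rw [h1]
    refine h.mult _ _ _ fun n => ?_
    rw [norm_mul, norm_div, RCLike.norm_ofReal, NNReal.abs_eq, hc]
    exact mul_le_one₀ (hθ n) (by positivity) (div_self_le_one _)

/-- the lattice functional on a family of basis vectors -/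
theorem SignU.single (h : SignU 𝕜 e U) {Q : Type} [Fintype Q] {a : Q → ℕ}
    (ha : Function.Injective a) (κ : Q → 𝕜) :
    ‖∑ p, κ p • e (a p)‖ ≤ nu 𝕜 e (cmb (fun p => ‖κ p‖₊) fun p => Finsupp.single (a p) 1) ∧
    nu 𝕜 e (cmb (fun p => ‖κ p‖₊) fun p => Finsupp.single (a p) 1)
      ≤ 4 * (|U| + 1) * ‖∑ p, κ p • e (a p)‖ := by
  have := h.leq Q _ (dj_single ha) κ
  simpa only [tw_one_single] using this

end Pool.Agent.Lib.MP_435322_an.UD
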