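import Pool.Agent.Lib.MP_435322_an.GBasic
import Pool.Agent.Lib.MP_435322_an.UTent

/-! An explicit Krivine vector for a general growth rate. -/

namespace Pool.Agent.Lib.MP_435322_an.UD

open Finset
open scoped NNReal

theorem gtent_mem (Γ : Gauge) {t : List ℝ≥0} {c : ℝ≥0} (h : c ∈ t) : c ≤ Γ.lsum t := by
  induction t with
  | nil => simp at h
  | cons a t ih =>
    rw [Γ.lsum_cons]
    rcases List.mem_cons.mp h with rfl | h
    · exact Γ.le_op_left _ _
    · exact (ih h).trans (Γ.le_op_right _ _)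

theorem gtent_pickU (Γ : Gauge) (S : ℕ) {c om : ℝ≥0} (h : c ≤ om) : ∃ s ≤ S, ∃ m : ℕ,
    c * Γ.th ^ S ≤ 2 * om * Γ.th ^ s ∧ 4 ^ s ≤ 1 + 4 * m ∧ 2 * om * Γ.gam m ≤ Γ.th ^ S * c := by
  classical
  have hS : c * Γ.th ^ S ≤ 2 * om * Γ.th ^ S :=
    mul_le_mul_left (h.trans (le_mul_of_one_le_left' one_le_two)) _
  have ex : ∃ s, c * Γ.th ^ S ≤ 2 * om * Γ.th ^ s := ⟨S, hS⟩
  refine ⟨Nat.find ex, Nat.find_min' ex hS, ?_⟩
  have a0 := Nat.find_spec ex
  rcases e : Nat.find ex with _ | s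
  · rw [e] at a0
    exact ⟨0, a0, by simp, by simp [Γ.gam_zero]⟩
  · have a1 := (not_le.mp (Nat.find_min ex (show s < Nat.find ex by omega))).le
    rw [e] at a0
    refine ⟨4 ^ s, a0, by rw [pow_succ]; omega, ?_⟩
    rw [Γ.gam_pow, mul_comm _ c]
    exact a1

theorem gtent_pickL (Γ : Gauge) (S : ℕ) {c om : ℝ≥0} (h : c ≤ om) (h' : om ≤ 2 * (Γ.th ^ S * c)) :
    ∃ s ≤ S, om * Γ.th ^ s ≤ 2 * (Γ.th ^ S * c) ∧ Γ.th ^ S * c ≤ om * Γ.th * Γ.gam (4 ^ s) := by
  classical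
  have a0 := Nat.findGreatest_spec (P := fun s => om * Γ.th ^ s ≤ 2 * (Γ.th ^ S * c))
    (Nat.zero_le S) (by simpa using h')
  have a1 := Nat.findGreatest_le (P := fun s => om * Γ.th ^ s ≤ 2 * (Γ.th ^ S * c)) S
  refine ⟨_, a1, a0, ?_⟩
  rw [Γ.gam_pow, mul_assoc, ← pow_succ']
  rcases a1.eq_or_lt with e | e
  · rw [e, mul_comm]
    exact mul_le_mul' h (pow_le_pow_right₀ Γ.one_le_th (by omega))
  · have a2 := Nat.findGreatest_is_greatest (P := fun s => om * Γ.th ^ s ≤ 2 * (Γ.th ^ S * c))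
      (Nat.lt_succ_self _) e
    exact (le_mul_of_one_le_left' one_le_two).trans (not_le.mp a2).le

section
variable {f : List ℝ≥0 → ℝ}

theorem gtent_B (h : SL f) {g : ℕ → ℝ≥0} {R s : ℕ} (hs : s ≤ R) {c k : ℝ≥0} {e : ℝ}
    (hg : ∀ r, r + s ≤ R → k * g r ≤ c * g (r + s))
    (he : ∀ r, R ≤ r + s → r < R → f (tent_rep (4 ^ r) [g r]) ≤ e) :
    tent_Err f (tent_rep (4 ^ s) ((tent_tree g R).map (k * ·))) ((tent_tree g R).map (c * ·))
      (k * (4 ^ s * (s * e))) := by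
  obtain ⟨R', rfl⟩ := Nat.exists_eq_add_of_le' hs
  rw [tent_map, tent_map]
  have a1 := (tent_bot h (fun r => k * g r) R' (k * e) s fun r h1 h2 => by
    have b1 := he r (by omega) h2
    rw [tent_rep_smul h] at b1 ⊢
    push_cast
    rw [mul_assoc]
    exact mul_le_mul_of_nonneg_left b1 k.2).rep (4 ^ s)
  have a2 := tent_Err.of_dom h (tent_dom_rep (tent_d R' (fun r => k * g r)
    (fun r => c * g (r + s)) R' le_rfl fun r hr => hg r (by omega)) (4 ^ s))
  have a3 := tent_Err.of_dom h (tent_b R' s fun r => c * g r)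
  refine (a1.trans a2 le_rfl).trans a3 (le_of_eq ?_)
  push_cast
  ring

theorem gtent_up (Γ : Gauge) (hf : SL f) {g : ℕ → ℝ≥0} {R S : ℕ} {X : ℝ} (hR : S ≤ R)
    (g1 : ∀ s ≤ S, ∀ r, Γ.th ^ s * g (r + s) ≤ 2 * g r)
    (top : ∀ s ≤ S, f (tent_tree g s) ≤ X) (om : ℝ≥0) (t : List ℝ≥0) (h : ∀ c ∈ t, c ≤ om) :
    ∃ N M : ℕ, N ≤ t.length + 4 * M ∧ 2 * om * Γ.gam M ≤ Γ.th ^ S * Γ.lsum t ∧
      tent_Err f (t.flatMap fun c => (tent_tree g R).map (c * ·))
        (tent_rep N ((tent_tree g R).map (2 * om / Γ.th ^ S * 2 * ·))) (t.length * (om * X)) := by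
  have t0 : 0 < Γ.th ^ S := pow_pos (zero_lt_one.trans_le Γ.one_le_th) _
  induction t with
  | nil => exact ⟨0, 0, by simp, by simp [Γ.gam_zero], fun P S => by simp [tent_rep]⟩
  | cons c t ih =>
    obtain ⟨N, M, n1, n2, n3⟩ := ih fun x hx => h x (List.mem_cons_of_mem _ hx)
    have hc := h c List.mem_cons_self
    obtain ⟨s, s1, m, s2, s3, s4⟩ := gtent_pickU Γ S hc
    have a1 := tent_A hf (g := g) (R := R) (s := s) (by omega) (c := c)
      (k := 2 * om / Γ.th ^ S * 2) fun r => by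
        rw [mul_assoc]
        refine le_trans ?_ (mul_le_mul_right (g1 s s1 r) _)
        rw [← mul_assoc, div_mul_eq_mul_div]
        exact mul_le_mul_left ((le_div_iff₀ t0).mpr s2) _
    refine ⟨4 ^ s + N, m + M, by rw [List.length_cons]; omega, ?_, ?_⟩
    · rw [Γ.gam_add, Γ.lsum_cons, ← Γ.smul, ← Γ.smul]
      exact Γ.mono2 s4 n2
    · rw [List.flatMap_cons, tent_rep_add]
      refine (a1.append n3).trans (fun _ _ => le_add_of_nonneg_right le_rfl) ?_
      have : (c : ℝ) * f (tent_tree g s) ≤ om * X :=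
        mul_le_mul hc (top s s1) (hf.nonneg _) om.2
      simp only [List.length_cons]
      push_cast
      linarith

theorem gtent_lo (Γ : Gauge) (hf : SL f) {g : ℕ → ℝ≥0} {R S : ℕ} {e : ℝ} (hR : S ≤ R)
    (g2 : ∀ s ≤ S, ∀ r, r + s ≤ R → g r ≤ 2 * Γ.th ^ s * g (r + s)) (e0 : 0 ≤ e)
    (bot : ∀ r, R ≤ r + S → r < R → f (tent_rep (4 ^ r) [g r]) ≤ e)
    (om : ℝ≥0) (t : List ℝ≥0) (h : ∀ c ∈ t, c ≤ om) :
    ∃ N : ℕ, Γ.th ^ S * Γ.lsum t ≤ Γ.op (om * Γ.th * Γ.gam N) (om / 2 * Γ.gam t.length) ∧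
      tent_Err f (tent_rep N ((tent_tree g R).map (om / (4 * Γ.th ^ S) * ·)))
        (t.flatMap fun c => (tent_tree g R).map (c * ·))
        (t.length * ((om / (4 * Γ.th ^ S) : ℝ≥0) * (4 ^ S * (S * e)))) := by
  have t0 : 0 < Γ.th ^ S := pow_pos (zero_lt_one.trans_le Γ.one_le_th) _
  induction t with
  | nil => exact ⟨0, by simp [Γ.lsum_nil], fun P S => by simp [tent_rep]⟩
  | cons c t ih =>
    obtain ⟨N, n1, n2⟩ := ih fun x hx => h x (List.mem_cons_of_mem _ hx)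
    have hc := h c List.mem_cons_self
    have z0 : (0 : ℝ) ≤ (om / (4 * Γ.th ^ S) : ℝ≥0) * (4 ^ S * (S * e)) := by positivity
    rw [Γ.lsum_cons, ← Γ.smul, List.flatMap_cons, List.length_cons]
    rcases le_total om (2 * (Γ.th ^ S * c)) with h1 | h1
    · obtain ⟨s, s1, s2, s3⟩ := gtent_pickL Γ S hc h1
      have a1 := gtent_B hf (g := g) (R := R) (s := s) (by omega) (c := c)
        (k := om / (4 * Γ.th ^ S)) (e := e) (fun r hr => by
          refine (mul_le_mul_right (g2 s s1 r hr) _).trans ?_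
          rw [← mul_assoc]
          refine mul_le_mul_left ?_ _
          rw [div_mul_eq_mul_div, div_le_iff₀ (by positivity)]
          calc _ = 2 * (om * Γ.th ^ s) := by ring
            _ ≤ 2 * (2 * (Γ.th ^ S * c)) := mul_le_mul_right s2 _
            _ = _ := by ring) fun r h2 h3 => bot r (by omega) h3
      refine ⟨4 ^ s + N, ?_, ?_⟩
      · rw [Γ.gam_add, ← Γ.smul, Γ.assoc]
        exact Γ.mono2 s3 (n1.trans (Γ.mono2 le_rfl
          (mul_le_mul_right (Γ.gam_mono (Nat.le_succ _)) _)))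
      · rw [tent_rep_add]
        refine (a1.append n2).trans (fun _ _ => le_add_of_nonneg_right le_rfl) ?_
        have : ((om / (4 * Γ.th ^ S) : ℝ≥0) : ℝ) * (4 ^ s * (s * e)) ≤
            (om / (4 * Γ.th ^ S) : ℝ≥0) * (4 ^ S * (S * e)) := by
          gcongr
          norm_num
        rw [Nat.cast_succ]
        linarith
    · refine ⟨N, ?_, ?_⟩
      · rw [Γ.gam_succ, ← Γ.smul, ← Γ.assoc, Γ.comm (om * Γ.th * Γ.gam N), Γ.assoc, mul_one]
        refine Γ.mono2 ?_ n1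
        rw [le_div_iff₀ two_pos, mul_comm]
        exact h1
      · have a1 := (tent_Err.of_dom hf (Cov.nil_left ((tent_tree g R).map (c * ·)) [])).append n2
        rw [List.nil_append] at a1
        refine a1.trans (fun _ _ => le_add_of_nonneg_right le_rfl) ?_
        rw [Nat.cast_succ]
        linarith

end

theorem gtent (Γ : Gauge) (n : ℕ) : ∃ lam : ℝ, 1 < lam ∧ ∀ C : ℝ, ∃ (R : ℕ) (u : List ℝ≥0),
    (1 : ℝ≥0) ∈ u ∧ ∀ f, SL f →
    (∀ r ≤ R, f (List.replicate (4 ^ r) 1) ≤ C * lam ^ R * (Γ.th : ℝ) ^ r * f [1] ∧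
      (Γ.th : ℝ) ^ r * f [1] ≤ C * lam ^ R * f (List.replicate (4 ^ r) 1)) →
    ∀ t : List ℝ≥0, t.length ≤ n →
      f (t.flatMap fun c => u.map (c * ·)) ≤ 10 ^ 4 * Γ.lsum t * f u ∧
      Γ.lsum t * f u ≤ 10 ^ 4 * f (t.flatMap fun c => u.map (c * ·)) := by
  obtain ⟨S, hS⟩ : ∃ S, n ≤ 4 ^ S := ⟨n, (Nat.lt_pow_self (by norm_num)).le⟩
  obtain ⟨lam, l1, l2⟩ : ∃ lam : ℝ≥0, 1 < lam ∧ lam ^ (5 * (S + 2)) = 2 :=
    ⟨2 ^ (((5 * (S + 2) : ℕ) : ℝ)⁻¹), NNReal.one_lt_rpow one_lt_two (by positivity),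
      NNReal.rpow_inv_natCast_pow _ (by omega)⟩
  have l1' : (1 : ℝ) < lam := l1
  refine ⟨lam, l1', fun C0 => ?_⟩
  set C : ℝ := |C0| + 1 with hC
  have C1 : 1 ≤ C := by linarith [abs_nonneg C0]
  have C2 : C0 ≤ C := by linarith [le_abs_self C0]
  set W : ℝ := 4 ^ (S + 2) with hW
  obtain ⟨h, h1, h2⟩ : ∃ h : ℕ, S + 2 ≤ h ∧ 512 * W ^ 3 * C ^ 2 ≤ (lam : ℝ) ^ h :=
    ((Filter.eventually_ge_atTop _).and
      ((tendsto_pow_atTop_atTop_of_one_lt l1').eventually_ge_atTop _)).exists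
  set θ := Γ.th with hθ
  have θ1 : 1 ≤ θ := Γ.one_le_th
  have θ0 : 0 < θ := zero_lt_one.trans_le θ1
  have θ1' : (1 : ℝ) ≤ θ := θ1
  have θ4 : (θ : ℝ) ≤ 4 := by exact_mod_cast Γ.th_le
  let g : ℕ → ℝ≥0 := fun r => lam ^ (5 * min r (2 * h - r)) / θ ^ r
  have hp : ∀ a b, a ≤ b + (S + 2) → lam ^ (5 * a) ≤ 2 * lam ^ (5 * b) := fun a b hab => by
    rw [← l2, ← pow_add]
    exact pow_le_pow_right₀ l1.le (by omega)
  have g1 : ∀ s ≤ S + 2, ∀ r, θ ^ s * g (r + s) ≤ 2 * g r := fun s hs r => by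
    have := hp (min (r + s) (2 * h - (r + s))) (min r (2 * h - r)) (by omega)
    simp only [g]
    rw [pow_add θ r s, ← mul_div_assoc, mul_comm (θ ^ r),
      mul_div_mul_left _ _ (by positivity), ← mul_div_assoc]
    gcongr
  have g2 : ∀ s ≤ S + 2, ∀ r, r + s ≤ 2 * h → g r ≤ 2 * θ ^ s * g (r + s) := fun s hs r hr => by
    have := hp (min r (2 * h - r)) (min (r + s) (2 * h - (r + s))) (by omega)
    simp only [g]
    rw [pow_add θ r s, mul_assoc, ← mul_div_assoc, mul_comm (θ ^ r),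
      mul_div_mul_left _ _ (by positivity), ← mul_div_assoc]
    gcongr
  have g3 : ∀ r, min r (2 * h - r) ≤ S + 2 → θ ^ r * g r ≤ 2 := fun r hr => by
    have := hp (min r (2 * h - r)) 0 (by omega)
    simp only [g]
    rw [mul_div_cancel₀ _ (by positivity)]
    simpa using this
  refine ⟨2 * h, tent_tree g (2 * h), ?_, fun f hf hN => ?_⟩
  · rw [show 2 * h = (2 * h - 1) + 1 by omega]
    simp [tent_tree, g]
  set u := tent_tree g (2 * h) with hu
  have F0 := hf.nonneg [1]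
  have u0 := hf.nonneg u
  set E : ℝ := C * lam ^ (2 * h) * f [1] with hE
  have lp : ∀ k : ℕ, (1 : ℝ) ≤ (lam : ℝ) ^ k := fun k => one_le_pow₀ l1'.le
  have FE : f [1] ≤ E := le_mul_of_one_le_left F0 (one_le_mul_of_one_le_of_one_le C1 (lp _))
  have W0 : (4 : ℝ) ^ S ≤ W := pow_le_pow_right₀ (by norm_num) (by omega)
  have W1 : (n : ℝ) ≤ W := by
    have : (n : ℝ) ≤ 4 ^ S := by exact_mod_cast hS
    exact this.trans W0
  have W2 : ((S + 2 : ℕ) : ℝ) ≤ W := by
    rw [hW]; exact_mod_cast (Nat.lt_pow_self (by norm_num)).le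
  have W3 : (1 : ℝ) ≤ W := one_le_pow₀ (by norm_num)
  have small : 512 * W ^ 3 * E ≤ f u := by
    have a1 := hf.mono (tent_dom_rep (tent_d 1 (fun r => g (r + h)) (fun r => g (r + h)) h (by omega)
      fun _ _ => le_rfl) (4 ^ h))
    have a2 := hf.mono (tent_b h h g)
    rw [← two_mul, ← hu] at a2
    have a3 : tent_tree (fun r => g (r + h)) 1 = [g h] := by simp [tent_tree, tent_rep]
    rw [a3, tent_rep_smul hf] at a1
    have a4 := (hN h (by omega)).2
    have a5 : (g h : ℝ) * θ ^ h = lam ^ (5 * h) := by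
      simp only [g, show min h (2 * h - h) = h by omega]
      push_cast
      exact div_mul_cancel₀ _ (by positivity)
    have a6 := hf.nonneg (List.replicate (4 ^ h) 1)
    have a7 : (lam : ℝ) ^ (2 * h) * (lam ^ h * (lam ^ (2 * h) * f [1])) ≤
        lam ^ (2 * h) * (C * f u) := by
      calc _ = g h * (θ ^ h * f [1]) := by rw [← mul_assoc (g h : ℝ), a5]; ring
        _ ≤ g h * (C * lam ^ (2 * h) * f (List.replicate (4 ^ h) 1)) := by
          refine mul_le_mul_of_nonneg_left (a4.trans ?_) (g h).2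
          gcongr
        _ = lam ^ (2 * h) * (C * (g h * f (List.replicate (4 ^ h) 1))) := by ring
        _ ≤ _ := by gcongr; exact a1.trans a2
    have a8 := le_of_mul_le_mul_left a7 (by positivity)
    have a9 := mul_le_mul_of_nonneg_right h2 (show 0 ≤ (lam : ℝ) ^ (2 * h) * f [1] by positivity)
    refine le_of_mul_le_mul_left ?_ (show 0 < C by positivity)
    calc _ = 512 * W ^ 3 * C ^ 2 * (lam ^ (2 * h) * f [1]) := by rw [hE]; ring
      _ ≤ _ := a9.trans a8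
  have E0 : 0 ≤ E := F0.trans FE
  have WE : 0 ≤ W * E := by positivity
  have WE1 : W * E ≤ W ^ 2 * E := by nlinarith
  have WE2 : W ^ 2 * E ≤ W ^ 3 * E := by
    have := mul_le_mul_of_nonneg_left WE1 (zero_le_one.trans W3)
    linarith
  have top : ∀ s ≤ S + 2, f (tent_tree g s) ≤ W * E := fun s hs => by
    have a1 := tent_top hf s g fun r hr => (le_mul_of_one_le_left' (one_le_pow₀ θ1)).trans
      (g3 r (by omega))
    have a2 : (4 : ℝ) ^ s * f [1] ≤ W * E := by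
      gcongr
      exact pow_le_pow_right₀ (by norm_num) hs
    linarith
  have bot : ∀ r, 2 * h ≤ r + (S + 2) → r < 2 * h → f (tent_rep (4 ^ r) [g r]) ≤ 2 * E :=
    fun r h3 h4 => by
      rw [tent_rep_smul hf]
      have b1 := (hN r h4.le).1
      have b2 : (θ : ℝ) ^ r * g r ≤ 2 := by exact_mod_cast g3 r (by omega)
      calc _ ≤ g r * (C * lam ^ (2 * h) * θ ^ r * f [1]) := by
            refine mul_le_mul_of_nonneg_left (b1.trans ?_) (g r).2
            gcongr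
        _ = θ ^ r * g r * E := by rw [hE]; ring
        _ ≤ _ := by gcongr
  have tS : (1 : ℝ) ≤ (θ : ℝ) ^ S := one_le_pow₀ θ1'
  have t2 : (θ : ℝ) ^ 2 ≤ 16 := by nlinarith
  have big : f (tent_rep (4 ^ (S + 2)) u) ≤ θ ^ S * (33 * f u) := by
    have a1 := tent_B hf (g := g) (R := 2 * h) (s := S + 2) (by omega) (e := 2 * E)
      (g2 _ le_rfl) bot
    have a2 : W * (((S + 2 : ℕ) : ℝ) * (2 * E)) ≤ W * (W * (2 * E)) := by gcongr
    have a3 : f u ≤ θ ^ S * f u := le_mul_of_one_le_left u0 tS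
    have a4 := mul_le_mul_of_nonneg_right t2 (u0.trans a3)
    rw [← hu, ← hW] at a1
    push_cast at a1 a2
    rw [pow_add (θ : ℝ) S 2] at a1
    linarith
  intro t ht
  set om := Γ.lsum t with hom
  have len : (t.length : ℝ) ≤ W := (Nat.cast_le.mpr ht).trans W1
  obtain ⟨N, M, n1, n2, n3⟩ := gtent_up Γ hf (g := g) (R := 2 * h) (S := S) (by omega)
    (fun s hs => g1 s (by omega)) (fun s hs => top s (by omega)) om t fun c hc => gtent_mem Γ hc
  obtain ⟨N', m1, m2⟩ := gtent_lo Γ hf (g := g) (R := 2 * h) (S := S) (e := 2 * E) (by omega)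
    (fun s hs => g2 s (by omega)) (by positivity) (fun r h3 h4 => bot r (by omega) h4) om t
    fun c hc => gtent_mem Γ hc
  have a1 := n3.le
  have a2 := m2.le
  rw [← tent_rep_map, hf.smul, ← hu, ← hθ] at a1 a2
  rw [← hom, ← hθ] at n2 m1
  set F := f (t.flatMap fun c => u.map (c * ·)) with hF
  have F1 : 0 ≤ F := hf.nonneg _
  rcases om.2.eq_or_lt with h0 | h0
  · have : om = 0 := NNReal.eq h0.symm
    constructor
    · simpa [this] using a1
    · simpa [this] using F1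
  have h0' : (0 : ℝ) < om := h0
  have h0'' : 0 < om := h0
  have tS0 : 0 < θ ^ S := pow_pos θ0 _
  constructor
  · have b0 : M < 4 ^ S := by
      by_contra hM
      have c1 := Γ.gam_mono (not_lt.mp hM)
      rw [Γ.gam_pow, ← hθ] at c1
      have c2 : 2 * om * θ ^ S ≤ θ ^ S * om := (mul_le_mul_right c1 _).trans n2
      have c3 : 2 * (om : ℝ) * θ ^ S ≤ θ ^ S * om := by exact_mod_cast c2
      nlinarith
    have b1 : N ≤ 4 ^ (S + 2) := by rw [pow_add]; omega
    have b2 := (hf.mono (tent_rep_le b1 u)).trans big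
    have b3 : ((2 * om / θ ^ S * 2 : ℝ≥0) : ℝ) * f (tent_rep N u) ≤ 132 * (om * f u) := by
      refine (mul_le_mul_of_nonneg_left b2 (NNReal.coe_nonneg _)).trans_eq ?_
      push_cast
      field_simp
      ring
    have b4 : (t.length : ℝ) * (om * (W * E)) ≤ W * (om * (W * E)) := by gcongr
    have b5 := mul_le_mul_of_nonneg_left small h0'.le
    have b6 := mul_le_mul_of_nonneg_left WE2 h0'.le
    have b7 := mul_nonneg h0'.le (WE.trans WE1)
    linarith [mul_nonneg h0'.le u0]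
  · have b0 : (θ : ℝ) ^ S ≤ 2 * θ * Γ.gam N' := by
      have c1 := Γ.gam_mono (ht.trans hS)
      rw [Γ.gam_pow, ← hθ] at c1
      have c2 := m1.trans ((Γ.le_add _ _).trans (add_le_add_right (mul_le_mul_right c1 _) _))
      have c3 : (θ : ℝ) ^ S * om ≤ om * θ * Γ.gam N' + om / 2 * θ ^ S := by exact_mod_cast c2
      refine le_of_mul_le_mul_left ?_ h0'
      linarith
    have j0 : 0 < N' := by
      rcases Nat.eq_zero_or_pos N' with e | e
      · rw [e, Γ.gam_zero] at b0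
        simp only [NNReal.coe_zero, mul_zero] at b0
        linarith
      · exact e
    obtain ⟨s, s1, s2, s3⟩ : ∃ s ≤ S, 4 ^ s ≤ N' ∧ (θ : ℝ) ^ S ≤ 32 * θ ^ s := by
      have c1 := Nat.pow_log_le_self 4 j0.ne'
      have c2 := Nat.lt_pow_succ_log_self (show 1 < 4 by norm_num) N'
      rcases le_total (Nat.log 4 N') S with c3 | c3
      · refine ⟨_, c3, c1, b0.trans ?_⟩
        have c4 := Γ.gam_mono c2.le
        rw [Γ.gam_pow, ← hθ] at c4
        have c5 : (Γ.gam N' : ℝ) ≤ θ ^ (Nat.log 4 N') * θ := by exact_mod_cast c4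
        have c6 : (0 : ℝ) ≤ θ ^ (Nat.log 4 N') := by positivity
        calc _ ≤ 2 * θ * (θ ^ (Nat.log 4 N') * θ : ℝ) := by gcongr
          _ = 2 * (θ ^ 2 * θ ^ (Nat.log 4 N')) := by ring
          _ ≤ 2 * (16 * θ ^ (Nat.log 4 N')) := by gcongr
          _ = _ := by ring
      · exact ⟨S, le_rfl, (Nat.pow_le_pow_right (by norm_num) c3).trans c1, by linarith⟩
    have b1 := (tent_A hf (g := g) (R := 2 * h) (s := s) (by omega) (g1 s (by omega))).le
    rw [← tent_rep_map, hf.smul, hf.smul, ← hu] at b1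
    have b2 := hf.mono (tent_rep_le s2 u)
    have b3 : (θ : ℝ) ^ s * (2 * f (tent_tree g s)) ≤ θ ^ s * f u := by
      gcongr
      linarith [top s (by omega)]
    push_cast at b1
    have b4 : (θ : ℝ) ^ S * f u ≤ 128 * f (tent_rep N' u) := by
      have := mul_le_mul_of_nonneg_right s3 u0
      linarith
    set k : ℝ := ((om / (4 * θ ^ S) : ℝ≥0) : ℝ) with hk
    have k0 : 0 ≤ k := NNReal.coe_nonneg _
    have k1 : 4 * (k * θ ^ S) = om := by
      rw [hk]
      push_cast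
      field_simp
    have b5 := mul_le_mul_of_nonneg_left b4 k0
    have b6 : (t.length : ℝ) * (k * (4 ^ S * (S * (2 * E)))) ≤ W * (k * (W * (W * (2 * E)))) := by
      gcongr
      push_cast at W2
      linarith
    have b7 := mul_le_mul_of_nonneg_left small k0
    have b8 : k * f u ≤ k * (θ ^ S * f u) :=
      mul_le_mul_of_nonneg_left (le_mul_of_one_le_left u0 tS) k0
    rw [← k1]
    linarith

end Pool.Agent.Lib.MP_435322_an.UD
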