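import Pool.Agent.Lib.MP_435322_an.GBasic

/-! The upward design for a gauge. -/

namespace Pool.Agent.Lib.MP_435322_an.UD

open Finset
open scoped NNReal

variable {Γ : Gauge}

/-- a finite index set with countably many coloured families -/
structure gupStr where
  I : Type
  inst : Fintype I
  g : ℕ → I → V

attribute [instance] gupStr.inst

/-- the colours below `k` are disjoint and lie in a window -/
def gupDW {I : Type} (g : ℕ → I → V) (k a b : ℕ) : Prop :=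
  (∀ n l i l' i', l < k → l' < k → g l i n ≠ 0 → g l' i' n ≠ 0 → l = l' ∧ i = i') ∧
    ∀ l < k, ∀ i, Win a b (g l i)

/-- a test among the colours below `k` -/
def gupT (Γ : Gauge) (ν : V → ℝ) (K : ℝ) (k : ℕ) {I : Type} [Fintype I] (g : ℕ → I → V) (c : I → ℕ)
    (t : I → ℝ≥0) : Prop :=
  ∃ l < k, (∀ i, c i ≠ l → t i = 0) ∧ K * Γ.sum univ t < ν (cmb t (g l)) ∧
    ∀ l' < k, l' ≠ l → ν (cmb t (g l')) ≤ Γ.sum univ t

def gupQ1 (Γ : Gauge) (ν : V → ℝ) (K : ℝ) (k : ℕ) (β : ℝ) (a b : ℕ) {I : Type} [Fintype I]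
    (g : ℕ → I → V) : Prop :=
  gupDW g k a b ∧ (∀ l < k, ∀ i, ν (g l i) ≤ β) ∧
    ∀ c : I → ℕ, (∃ i, k ≤ c i) ∨ ∃ t, gupT Γ ν K k g c t

def gupQ (Γ : Gauge) (ν : V → ℝ) (K : ℝ) (k : ℕ) : Prop :=
  ∀ β : ℝ, 0 < β → ∀ m, ∃ (S : gupStr) (m' : ℕ), m < m' ∧ gupQ1 Γ ν K k β m m' S.g

def gupS1 (Γ : Gauge) (ν : V → ℝ) (K C H : ℝ) (k : ℕ) (D : Set (V × ℝ≥0)) (β : ℝ) (a b : ℕ) {I : Type}
    [Fintype I] (g : ℕ → I → V) : Prop :=
  gupDW g (k + 1) a b ∧ (∀ l < k, ∀ i, ν (g l i) ≤ β) ∧ (∀ i, ν (g k i) ≤ C) ∧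
    ∀ c : I → ℕ, (∃ i, k < c i) ∨ (∃ t, gupT Γ ν K k g c t ∧ ν (cmb t (g k)) ≤ C * Γ.sum univ t) ∨
      ∃ t, ∃ q ∈ D, (∀ i, c i ≠ k → t i = 0) ∧ (∀ l < k, ν (cmb t (g l)) ≤ β * Γ.sum univ t) ∧
        H * Γ.op q.2 (Γ.sum univ t) < ν (q.1 + cmb t (g k))

def gupS (Γ : Gauge) (ν : V → ℝ) (K C H : ℝ) (k : ℕ) (D : Set (V × ℝ≥0)) : Prop :=
  ∀ β : ℝ, 0 < β → ∀ m, ∃ (S : gupStr) (m' : ℕ), m < m' ∧ gupS1 Γ ν K C H k D β m m' S.g

section transfer
variable {I J : Type} [Fintype I] [Fintype J]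

theorem gup_cmb_extend {e : I → J} (he : Function.Injective e) (t : I → ℝ≥0) (y : J → V) :
    cmb (Function.extend e t 0) y = cmb t fun i => y (e i) := by
  unfold cmb
  refine (Fintype.sum_of_injective e he _ _ (fun j hj => ?_) fun i => ?_).symm
  · rw [Function.extend_apply' _ _ _ hj, Pi.zero_apply, zero_smul]
  · rw [he.extend_apply]

omit [Fintype I] [Fintype J] in
theorem gup_supp_extend {e : I → J} (he : Function.Injective e) {t : I → ℝ≥0} {c : J → ℕ} {l : ℕ}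
    (h : ∀ i, c (e i) ≠ l → t i = 0) (j : J) (hj : c j ≠ l) : Function.extend e t 0 j = 0 := by
  by_cases h1 : ∃ i, e i = j
  · obtain ⟨i, rfl⟩ := h1
    rw [he.extend_apply]
    exact h i hj
  · rw [Function.extend_apply' _ _ _ h1, Pi.zero_apply]

theorem gup_T_extend {ν : V → ℝ} {K : ℝ} {k : ℕ} {e : I → J} (he : Function.Injective e)
    {g' : ℕ → I → V} {g : ℕ → J → V} (hg : ∀ l < k, ∀ i, g l (e i) = g' l i) {c : J → ℕ}
    {t : I → ℝ≥0} (h : gupT Γ ν K k g' (fun i => c (e i)) t) :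
    gupT Γ ν K k g c (Function.extend e t 0) := by
  obtain ⟨l, hl, h1, h2, h3⟩ := h
  have h4 : ∀ l < k, cmb (Function.extend e t 0) (g l) = cmb t (g' l) := fun l hl => by
    rw [gup_cmb_extend he, funext (hg l hl)]
  refine ⟨l, hl, gup_supp_extend he h1, ?_, fun l' hl' hne => ?_⟩
  · rw [h4 l hl, Γ.sum_extend he]; exact h2
  · rw [h4 l' hl', Γ.sum_extend he]; exact h3 l' hl' hne

theorem gup_Up_comp {ν : V → ℝ} {C : ℝ} {e : I → J} (he : Function.Injective e) {y : J → V}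
    (h : GUp Γ ν C y) : GUp Γ ν C fun i => y (e i) := fun t => by
  rw [← gup_cmb_extend he, ← Γ.sum_extend he]
  exact h _

theorem gup_cmb_elim (t : I → ℝ≥0) (t' : J → ℝ≥0) (y : I ⊕ J → V) :
    cmb (Sum.elim t t') y = (cmb t fun i => y (Sum.inl i)) + cmb t' fun j => y (Sum.inr j) := by
  unfold cmb
  rw [Fintype.sum_sum_type]
  rfl

theorem gup_ssq_elim (t : I → ℝ≥0) (t' : J → ℝ≥0) :
    Γ.sum univ (Sum.elim t t') = Γ.op (Γ.sum univ t) (Γ.sum univ t') := Γ.sum_sum_type _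

theorem gup_mono {ν : V → ℝ} {C C' : ℝ} {y : I → V} (h : GUp Γ ν C y) (hC : C ≤ C') :
    GUp Γ ν C' y := fun t => (h t).trans (mul_le_mul_of_nonneg_right hC (NNReal.coe_nonneg _))

theorem gup_Up_one {ν : V → ℝ} {C : ℝ} {y : I → V} (h : GUp Γ ν C y) (i : I) : ν (y i) ≤ C := by
  classical
  have := h (Pi.single i 1)
  rw [cmb_single, Γ.sum_single, one_smul] at this
  simpa using this

end transfer

theorem gup_Q_zero (Γ : Gauge) (ν : V → ℝ) (K : ℝ) : gupQ Γ ν K 0 := fun _ _ m =>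
  ⟨⟨Unit, inferInstance, fun _ _ => 0⟩, m + 1, m.lt_succ_self,
    ⟨fun _ _ _ _ _ h => absurd h (Nat.not_lt_zero _), fun _ h => absurd h (Nat.not_lt_zero _)⟩,
    fun _ h => absurd h (Nat.not_lt_zero _), fun _ => Or.inl ⟨(), Nat.zero_le _⟩⟩

theorem gup_gad {ν : V → ℝ} (h : LN ν) {K0 Cs : ℝ} (hK : 1 ≤ K0) (hC : 1 ≤ Cs)
    (hN : ∀ n m, ∃ y : Fin n → V, Dj y ∧ (∀ i, Tl m (y i)) ∧ (∀ i, 1 ≤ ν (y i)) ∧ GUp Γ ν Cs y)
    (hQ : gupQ Γ ν (K0 * Cs + 1) 3) (m0 : ℕ) : Gad ν K0 m0 := by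
  classical
  obtain ⟨S, m', hm, ⟨hd, hw⟩, hb, hc⟩ := hQ (1 / (2 * K0)) (by positivity) m0
  obtain ⟨y, yd, yt, y1, yu⟩ := hN (Fintype.card S.I) m'
  let e := Fintype.equivFin S.I
  let g : Fin 4 → S.I → V := fun l i => if (l : ℕ) < 3 then S.g l i else y (e i)
  have g1 : ∀ l : Fin 4, (l : ℕ) < 3 → g l = S.g l := fun l hl => funext fun i => if_pos hl
  have g2 : ∀ l : Fin 4, ¬ (l : ℕ) < 3 → g l = fun i => y (e i) :=
    fun l hl => funext fun i => if_neg hl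
  refine ⟨S.I, S.inst, g, ?_, fun l i => ?_, fun c => ?_⟩
  · rintro n ⟨l, i⟩ ⟨l', i'⟩ h1 h2
    dsimp only at h1 h2
    by_cases hl : (l : ℕ) < 3 <;> by_cases hl' : (l' : ℕ) < 3
    · rw [g1 l hl] at h1
      rw [g1 l' hl'] at h2
      obtain ⟨h3, h4⟩ := hd n _ _ _ _ hl hl' h1 h2
      rw [Fin.ext h3, h4]
    · rw [g1 l hl] at h1
      rw [g2 l' hl'] at h2
      exact absurd (hw _ hl i n h1).2 (not_lt.2 (yt _ n h2))
    · rw [g2 l hl] at h1
      rw [g1 l' hl'] at h2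
      exact absurd (hw _ hl' i' n h2).2 (not_lt.2 (yt _ n h1))
    · rw [g2 l hl] at h1
      rw [g2 l' hl'] at h2
      have h3 : l = l' := Fin.ext (by omega)
      rw [h3, e.injective (yd n _ _ h1 h2)]
  · by_cases hl : (l : ℕ) < 3
    · rw [g1 l hl]; exact (hw _ hl i).tl
    · rw [g2 l hl]; exact (yt _).mono hm.le
  · rcases hc (fun i => c i) with ⟨i, hi⟩ | ⟨t, l, hl, h1, h2, h3⟩
    · refine ⟨c i, Pi.single i 1, fun j hj => Pi.single_eq_of_ne (fun h0 => hj (by rw [h0])) _,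
        fun l' hl' => ?_⟩
      have h1 : (l' : ℕ) < 3 := by
        have h2 : (l' : ℕ) ≠ c i := fun h0 => hl' (Fin.ext h0)
        omega
      rw [cmb_single, cmb_single, one_smul, one_smul, g1 l' h1, g2 (c i) (by omega)]
      have h2 := hb _ h1 i
      have h3 : K0 * ν (S.g l' i) ≤ K0 * (1 / (2 * K0)) := by gcongr
      have h4 : K0 * (1 / (2 * K0)) = 1 / 2 := by field_simp
      linarith [y1 (e i)]
    · refine ⟨⟨l, by omega⟩, t, fun i hi => h1 i fun h0 => hi (Fin.ext h0), fun l' hl' => ?_⟩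
      have hs := (Γ.sum univ t).coe_nonneg
      have h4 : ν (cmb t (g l')) ≤ Cs * Γ.sum univ t := by
        by_cases h5 : (l' : ℕ) < 3
        · rw [g1 l' h5]
          refine (h3 _ h5 fun h0 => hl' (Fin.ext h0)).trans ?_
          nlinarith
        · rw [g2 l' h5]
          exact gup_Up_comp e.injective yu t
      rw [g1 ⟨l, by omega⟩ hl]
      refine lt_of_le_of_lt ?_ h2
      have h5 : K0 * ν (cmb t (g l')) ≤ K0 * (Cs * Γ.sum univ t) := by gcongr
      nlinarith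

theorem gup_start {ν : V → ℝ} (h : LN ν) {K C : ℝ} {k : ℕ} {β : ℝ} {α : ℝ≥0} (hα : 0 < α)
    (hβ1 : β ≤ 1) (hαβ : (α : ℝ) * C = β) {a b : ℕ} {I : Type} [Fintype I]
    {g : ℕ → I → V} (hS : gupS1 Γ ν K C (K / α) k {(0, 0)} β a b g) :
    gupQ1 Γ ν K (k + 1) β a b fun l i => if l = k then α • g k i else g l i := by
  obtain ⟨⟨hd, hw⟩, hb, hk, hc⟩ := hS
  set g' : ℕ → I → V := fun l i => if l = k then α • g k i else g l i with hg'
  have g0 : ∀ l i n, g' l i n ≠ 0 → g l i n ≠ 0 := fun l i n hn => by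
    by_cases hl : l = k
    · rw [hg'] at hn
      dsimp only at hn
      rw [if_pos hl] at hn
      rw [hl]
      exact smul_ne_zero_V hn
    · rw [hg'] at hn
      dsimp only at hn
      rwa [if_neg hl] at hn
  have g1 : ∀ l < k, g' l = g l := fun l hl => funext fun i => if_neg hl.ne
  have g2 : ∀ t, ν (cmb t (g' k)) = α * ν (cmb t (g k)) := fun t => by
    rw [← h.smul]
    congr 1
    unfold cmb
    rw [Finset.smul_sum]
    refine Finset.sum_congr rfl fun i _ => ?_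
    rw [hg']
    dsimp only
    rw [if_pos rfl, smul_comm]
  have hα' : (0 : ℝ) < α := hα
  refine ⟨⟨fun n l i l' i' hl hl' h1 h2 => hd n l i l' i' hl hl' (g0 _ _ _ h1) (g0 _ _ _ h2),
    fun l hl i n hn => hw l hl i n (g0 _ _ _ hn)⟩, fun l hl i => ?_, fun c => ?_⟩
  · rcases (Nat.lt_succ_iff.1 hl).lt_or_eq with h1 | h1
    · rw [g1 l h1]; exact hb l h1 i
    · rw [h1, hg']
      dsimp only
      rw [if_pos rfl, h.smul]
      rw [← hαβ]
      exact mul_le_mul_of_nonneg_left (hk i) hα'.le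
  · rcases hc c with h1 | ⟨t, ⟨l, hl, h1, h2, h3⟩, h4⟩ | ⟨t, q, hq, h1, h2, h3⟩
    · exact Or.inl h1
    · refine Or.inr ⟨t, l, hl.trans k.lt_succ_self, h1, by rw [g1 l hl]; exact h2,
        fun l' hl' hne => ?_⟩
      rcases (Nat.lt_succ_iff.1 hl').lt_or_eq with h5 | h5
      · rw [g1 l' h5]; exact h3 l' h5 hne
      · rw [h5, g2]
        have hs := (Γ.sum univ t).coe_nonneg
        have h6 : (α : ℝ) * ν (cmb t (g k)) ≤ α * (C * Γ.sum univ t) := by gcongr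
        have h7 : β * Γ.sum univ t ≤ 1 * Γ.sum univ t := by gcongr
        rw [← mul_assoc, hαβ] at h6
        linarith
    · rw [Set.mem_singleton_iff] at hq
      rw [hq] at h3
      dsimp only at h3
      rw [zero_add, Γ.zero'] at h3
      refine Or.inr ⟨t, k, k.lt_succ_self, h1, ?_, fun l' hl' hne => ?_⟩
      · rw [g2]
        have h4 := mul_lt_mul_of_pos_left h3 hα'
        have h5 : (α : ℝ) * (K / α * Γ.sum univ t) = K * Γ.sum univ t := by field_simp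
        linarith
      · have h5 : l' < k := lt_of_le_of_ne (Nat.lt_succ_iff.1 hl') hne
        rw [g1 l' h5]
        exact (h2 l' h5).trans (mul_le_of_le_one_left (NNReal.coe_nonneg _) hβ1)

theorem gup_win {ν : V → ℝ} (h : LN ν) {K C H : ℝ} {k : ℕ} {D : Set (V × ℝ≥0)} {p : V × ℝ≥0}
    (hp : p ∈ D) (hH : H * p.2 < ν p.1) : gupS Γ ν K C H k D := fun β _ m => by
  refine ⟨⟨Empty, inferInstance, fun _ _ => 0⟩, m + 1, m.lt_succ_self,
    ⟨fun _ _ i => i.elim, fun _ _ i => i.elim⟩, fun _ _ i => i.elim, fun i => i.elim,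
    fun c => Or.inr (Or.inr ⟨0, p, hp, fun i => i.elim, fun l _ => ?_, ?_⟩)⟩
  · rw [cmb_zero, h.zero, Finset.univ_eq_empty, Γ.sum_empty]
    simp
  · rw [cmb_zero, Finset.univ_eq_empty, Γ.sum_empty, Γ.zero, add_zero]
    exact hH

theorem gup_step {ν : V → ℝ} (h : LN ν) {K C H : ℝ} {k : ℕ} (hQ : gupQ Γ ν K k) {D : Set (V × ℝ≥0)}
    {N : ℕ} (hA : ∀ n m : ℕ, ∃ arr : Fin N → Fin n → V,
      Dj (fun p : Fin N × Fin n => arr p.1 p.2) ∧ (∀ a j, Tl m (arr a j)) ∧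
      (∀ a, GUp Γ ν C (arr a)) ∧ ∀ s : Fin N → Fin n, gupS Γ ν K C H k (extG Γ D fun a => arr a (s a))) :
    gupS Γ ν K C H k D := by
  classical
  intro β hβ m
  obtain ⟨lo, hi, SA, mA, hmA, hlo, hSA, hdA⟩ := sel_fin (J := Fin N)
    (fun _ a b (S : gupStr) => gupQ1 Γ ν K k (β / (2 * N + 2)) a b S.g) m
    (fun _ m => hQ _ (by positivity) m)
  let n := Finset.univ.sup fun a => Fintype.card (SA a).I
  have hn : ∀ a, Nonempty ((SA a).I ↪ Fin n) := fun a =>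
    Function.Embedding.nonempty_of_card_le (by
      rw [Fintype.card_fin]
      exact Finset.le_sup (f := fun a => Fintype.card (SA a).I) (Finset.mem_univ a))
  let e : ∀ a, (SA a).I ↪ Fin n := fun a => (hn a).some
  obtain ⟨arr, ad, atl, aup, aS⟩ := hA n mA
  obtain ⟨mB, hmB, awin⟩ := exists_win (y := fun p : Fin N × Fin n => arr p.1 p.2)
    (fun p => atl p.1 p.2)
  obtain ⟨lo', hi', SJ, mC, hmC, hlo', hSJ, hdJ⟩ := sel_fin (J := Fin N → Fin n)
    (fun s a b (S : gupStr) => gupS1 Γ ν K C H k (extG Γ D fun a => arr a (s a)) (β / 2) a b S.g) mB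
    (fun s m => aS s _ (by positivity) m)
  let g : ℕ → ((Σ a, (SA a).I) ⊕ (Σ s, (SJ s).I)) → V := fun l =>
    Sum.elim (fun p => if l = k then arr p.1 (e p.1 p.2) else (SA p.1).g l p.2)
      (fun p => (SJ p.1).g l p.2)
  have g1 : ∀ l < k, ∀ a i, g l (Sum.inl ⟨a, i⟩) = (SA a).g l i := fun l hl a i => if_neg hl.ne
  have g2 : ∀ a i, g k (Sum.inl ⟨a, i⟩) = arr a (e a i) := fun a i => if_pos rfl
  have g3 : ∀ l s j, g l (Sum.inr ⟨s, j⟩) = (SJ s).g l j := fun _ _ _ => rfl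
  have w1 : ∀ l < k, ∀ a i, Win (lo a) (hi a) (g l (Sum.inl ⟨a, i⟩)) := fun l hl a i => by
    rw [g1 l hl]; exact (hSA a).1.2 l hl i
  have w2 : ∀ a i, Win mA mB (g k (Sum.inl ⟨a, i⟩)) := fun a i => by
    rw [g2]; exact awin (a, e a i)
  have w3 : ∀ l < k + 1, ∀ s j, Win (lo' s) (hi' s) (g l (Sum.inr ⟨s, j⟩)) :=
    fun l hl s j => (hSJ s).1.2 l hl j
  have w4 : ∀ l < k + 1, ∀ p, Win m mB (g l (Sum.inl p)) := fun l hl p => by
    rcases (Nat.lt_succ_iff.1 hl).lt_or_eq with h1 | h1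
    · exact (w1 l h1 p.1 p.2).mono (hlo _).1 ((hlo _).2.trans hmB.le)
    · rw [h1]; exact (w2 p.1 p.2).mono hmA le_rfl
  have w5 : ∀ l < k + 1, ∀ p, Win mB mC (g l (Sum.inr p)) := fun l hl p =>
    (w3 l hl p.1 p.2).mono (hlo' _).1 (hlo' _).2
  have hβ1 : β / (2 * N + 2) ≤ β :=
    div_le_self hβ.le (by linarith [Nat.cast_nonneg (α := ℝ) N])
  refine ⟨⟨(Σ a, (SA a).I) ⊕ (Σ s, (SJ s).I), inferInstance, g⟩, mC, by omega, ?_⟩
  change gupS1 Γ ν K C H k D β m mC g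
  refine ⟨⟨?_, ?_⟩, ?_, ?_, fun c => ?_⟩
  · rintro x l (⟨a, i⟩ | ⟨s, j⟩) l' (⟨a', i'⟩ | ⟨s', j'⟩) hl hl' h1 h2
    · rcases (Nat.lt_succ_iff.1 hl).lt_or_eq with h3 | h3 <;>
        rcases (Nat.lt_succ_iff.1 hl').lt_or_eq with h4 | h4
      · have h5 := w1 l h3 a i x h1
        have h6 := w1 l' h4 a' i' x h2
        obtain rfl := hdA a a' x h5.1 h5.2 h6.1 h6.2
        rw [g1 l h3] at h1
        rw [g1 l' h4] at h2
        obtain ⟨h7, h8⟩ := (hSA a).1.1 x _ _ _ _ h3 h4 h1 h2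
        exact ⟨h7, by rw [h8]⟩
      · rw [h4] at h2
        have h5 := (w1 l h3 a i x h1).2
        have h6 := (w2 a' i' x h2).1
        have h7 := (hlo a).2
        omega
      · rw [h3] at h1
        have h5 := (w1 l' h4 a' i' x h2).2
        have h6 := (w2 a i x h1).1
        have h7 := (hlo a').2
        omega
      · rw [h3, g2] at h1
        rw [h4, g2] at h2
        have h5 := ad x (a, e a i) (a', e a' i') h1 h2
        obtain ⟨rfl, h6⟩ := Prod.mk.inj h5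
        exact ⟨h3.trans h4.symm, by rw [(e a).injective h6]⟩
    · exact absurd (w4 l hl _ x h1).2 (not_lt.2 (w5 l' hl' _ x h2).1)
    · exact absurd (w4 l' hl' _ x h2).2 (not_lt.2 (w5 l hl _ x h1).1)
    · have h5 := w3 l hl s j x h1
      have h6 := w3 l' hl' s' j' x h2
      obtain rfl := hdJ s s' x h5.1 h5.2 h6.1 h6.2
      obtain ⟨h7, h8⟩ := (hSJ s).1.1 x l j l' j' hl hl' h1 h2
      exact ⟨h7, by rw [h8]⟩
  · rintro l hl (p | p)
    · exact (w4 l hl p).mono le_rfl hmC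
    · exact (w5 l hl p).mono (by omega) le_rfl
  · rintro l hl (⟨a, i⟩ | ⟨s, j⟩)
    · rw [g1 l hl]; exact ((hSA a).2.1 l hl i).trans hβ1
    · exact ((hSJ s).2.1 l hl j).trans (by linarith)
  · rintro (⟨a, i⟩ | ⟨s, j⟩)
    · rw [g2]; exact gup_Up_one (aup a) _
    · exact (hSJ s).2.2.1 j
  by_cases hc : ∃ i, k < c i
  · exact Or.inl hc
  right
  push Not at hc
  by_cases hk : ∀ a, ∃ i, c (Sum.inl ⟨a, i⟩) = k
  · choose p hp using hk
    let s : Fin N → Fin n := fun a => e a (p a)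
    have hι : Function.Injective fun j : (SJ s).I =>
        (Sum.inr ⟨s, j⟩ : (Σ a, (SA a).I) ⊕ (Σ s, (SJ s).I)) :=
      Sum.inr_injective.comp sigma_mk_injective
    rcases (hSJ s).2.2.2 (fun j => c (Sum.inr ⟨s, j⟩)) with ⟨j, hj⟩ | ⟨t, h1, h2⟩ |
      ⟨t, q, ⟨q', hq', u, rfl⟩, h1, h2, h3⟩
    · exact absurd hj (not_lt.2 (hc _))
    · refine Or.inl ⟨_, gup_T_extend hι (fun l _ j => g3 l s j) h1, ?_⟩
      rw [gup_cmb_extend hι, Γ.sum_extend hι]
      exact h2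
    · have hκ : Function.Injective fun a : Fin N => (⟨a, p a⟩ : Σ a, (SA a).I) :=
        fun a b hab => congrArg Sigma.fst hab
      have hμ : Function.Injective fun j : (SJ s).I => (⟨s, j⟩ : Σ s, (SJ s).I) :=
        sigma_mk_injective (β := fun s => (SJ s).I)
      have e1 : ∀ l, cmb (Sum.elim (Function.extend (fun a : Fin N => (⟨a, p a⟩ : Σ a, (SA a).I))
          u 0) (Function.extend (fun j : (SJ s).I => (⟨s, j⟩ : Σ s, (SJ s).I)) t 0)) (g l) =
          (cmb u fun a => g l (Sum.inl ⟨a, p a⟩)) + cmb t ((SJ s).g l) := fun l => by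
        rw [gup_cmb_elim, gup_cmb_extend hκ, gup_cmb_extend hμ]
        rfl
      have e2 : Γ.sum univ (Sum.elim (Function.extend (fun a : Fin N => (⟨a, p a⟩ : Σ a, (SA a).I))
          u 0) (Function.extend (fun j : (SJ s).I => (⟨s, j⟩ : Σ s, (SJ s).I)) t 0)) =
          Γ.op (Γ.sum univ u) (Γ.sum univ t) := by
        rw [gup_ssq_elim, Γ.sum_extend hκ, Γ.sum_extend hμ]
      refine Or.inr ⟨Sum.elim (Function.extend (fun a : Fin N => (⟨a, p a⟩ : Σ a, (SA a).I)) u 0)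
        (Function.extend (fun j : (SJ s).I => (⟨s, j⟩ : Σ s, (SJ s).I)) t 0), q', hq', ?_,
        fun l hl => ?_, ?_⟩
      · rintro (i | j) hi
        · exact gup_supp_extend (c := fun i => c (Sum.inl i)) hκ
            (fun a ha => absurd (hp a) ha) i hi
        · exact gup_supp_extend (c := fun j => c (Sum.inr j)) hμ h1 j hi
      · rw [e1, e2]
        have hr := (Γ.op (Γ.sum univ u) (Γ.sum univ t)).coe_nonneg
        have h4 : (Γ.sum univ t : ℝ) ≤ Γ.op (Γ.sum univ u) (Γ.sum univ t) :=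
          NNReal.coe_le_coe.2 (Γ.le_op_right _ _)
        have h5 : ∀ a, (u a : ℝ) * ν (g l (Sum.inl ⟨a, p a⟩)) ≤
            Γ.op (Γ.sum univ u) (Γ.sum univ t) * (β / (2 * N + 2)) := fun a => by
          refine mul_le_mul (NNReal.coe_le_coe.2 ?_) ?_ (h.nonneg _) hr
          · exact (Γ.le_sum (Finset.mem_univ a) u).trans (Γ.le_op_left _ _)
          · rw [g1 l hl]; exact (hSA a).2.1 l hl _
        have h6 := (h.cmb_le u fun a => g l (Sum.inl ⟨a, p a⟩)).trans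
          (Finset.sum_le_sum fun a _ => h5 a)
        rw [Finset.sum_const, Finset.card_univ, Fintype.card_fin, nsmul_eq_mul] at h6
        have h7 : (N : ℝ) * (β / (2 * N + 2)) ≤ β / 2 := by
          rw [← mul_div_assoc, div_le_div_iff₀ (by positivity) (by positivity)]
          nlinarith
        have h8 := mul_le_mul_of_nonneg_left h7 hr
        have h9 := mul_le_mul_of_nonneg_left h4 (by positivity : 0 ≤ β / 2)
        have h10 := h2 l hl
        have h11 := h.add (cmb u fun a => g l (Sum.inl ⟨a, p a⟩)) (cmb t ((SJ s).g l))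
        nlinarith
      · rw [e1, e2, ← add_assoc, ← Γ.assoc, funext fun a => g2 a (p a)]
        exact h3
  · push Not at hk
    obtain ⟨a, ha⟩ := hk
    have hι : Function.Injective fun i : (SA a).I =>
        (Sum.inl ⟨a, i⟩ : (Σ a, (SA a).I) ⊕ (Σ s, (SJ s).I)) :=
      Sum.inl_injective.comp sigma_mk_injective
    rcases (hSA a).2.2 (fun i => c (Sum.inl ⟨a, i⟩)) with ⟨i, hi⟩ | ⟨t, h1⟩
    · exact absurd (le_antisymm (hc _) hi) (ha i)
    · refine Or.inl ⟨_, gup_T_extend hι (fun l hl i => g1 l hl a i) h1, ?_⟩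
      rw [gup_cmb_extend hι, Γ.sum_extend hι, funext fun i => g2 a i]
      exact gup_Up_comp (e a).injective (aup a) t

theorem gub_of_not_gads {Γ : Gauge} {ν : V → ℝ} (h : LN ν) (hN : GNormUp Γ ν) (hG : ¬ Gads ν) :
    GUB Γ ν := by
  obtain ⟨Cs, hCs⟩ := hN
  obtain ⟨K0, m0, hK0⟩ : ∃ K m, ¬ Gad ν K m := by
    by_contra h1
    push Not at h1
    exact hG h1
  have hQ3 : ¬ gupQ Γ ν (max K0 1 * max Cs 1 + 1) 3 := fun hQ => by
    obtain ⟨I, inst, g, h1, h2, h3⟩ := gup_gad h (le_max_right K0 1) (le_max_right Cs 1)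
      (fun n m => by
        obtain ⟨y, a1, a2, a3, a4⟩ := hCs n m
        exact ⟨y, a1, a2, a3, gup_mono a4 (le_max_left _ _)⟩) hQ m0
    refine hK0 ⟨I, inst, g, h1, h2, fun c => ?_⟩
    obtain ⟨l, t, h4, h5⟩ := h3 c
    exact ⟨l, t, h4, fun l' hl' =>
      (mul_le_mul_of_nonneg_right (le_max_left _ _) (h.nonneg _)).trans_lt (h5 l' hl')⟩
  generalize max K0 1 * max Cs 1 + 1 = K at hQ3
  obtain ⟨k, hk, hk'⟩ : ∃ k, gupQ Γ ν K k ∧ ¬ gupQ Γ ν K (k + 1) := by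
    by_contra h1
    push Not at h1
    exact hQ3 (h1 2 (h1 1 (h1 0 (gup_Q_zero Γ ν K))))
  intro C
  obtain ⟨β0, hβ0, m1, hm1⟩ : ∃ β0 : ℝ, 0 < β0 ∧ ∃ m1, ∀ (S : gupStr) (m' : ℕ), m1 < m' →
      ¬ gupQ1 Γ ν K (k + 1) β0 m1 m' S.g := by
    unfold gupQ at hk'
    push Not at hk'
    exact hk'
  have hβ : 0 < min β0 1 := lt_min hβ0 one_pos
  have hC : 0 < max C 1 := lt_of_lt_of_le one_pos (le_max_right _ _)
  let α : ℝ≥0 := ⟨min β0 1 / max C 1, by positivity⟩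
  have hα : 0 < α := div_pos hβ hC
  have hαβ : (α : ℝ) * max C 1 = min β0 1 := div_mul_cancel₀ _ hC.ne'
  refine ⟨K / α, fun D => ¬ gupS Γ ν K (max C 1) (K / α) k D, fun hS => ?_,
    fun D hD p hp => ?_, fun D hD N => ?_⟩
  · obtain ⟨S, m', h1, h2⟩ := hS _ hβ m1
    obtain ⟨h3, h4, h5⟩ := gup_start h hα (min_le_right _ _) hαβ h2
    exact hm1 ⟨S.I, S.inst, fun l i => if l = k then α • S.g k i else S.g l i⟩ m' h1
      ⟨h3, fun l hl i => (h4 l hl i).trans (min_le_left _ _), h5⟩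
  · by_contra h1
    exact hD (gup_win h hp (not_le.1 h1))
  · by_contra h1
    push Not at h1
    refine hD (gup_step h hk (N := N) fun n m => ?_)
    obtain ⟨arr, a1, a2, a3, a4⟩ := h1 n m
    exact ⟨arr, a1, a2, fun a => gup_mono (a3 a) (le_max_left _ _), a4⟩

end Pool.Agent.Lib.MP_435322_an.UD
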