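import Pool.Agent.Lib.MP_435322_an.Cases

/-! Gaussian comparison under type 2 and cotype 2. -/

set_option linter.unusedSectionVars false

namespace Pool.Agent.Lib.MP_435322_an

open Finset MeasureTheory ProbabilityTheory

section fin
variable {V : Type*} [NormedAddCommGroup V] [NormedSpace ℝ V] {ι κ : Type} [Fintype ι]
  [DecidableEq ι] [Fintype κ] [DecidableEq κ]

/-- the linear combination map on Euclidean space -/
noncomputable def gA (x : ι → V) : EuclideanSpace ℝ ι →L[ℝ] V :=
  ∑ i, (EuclideanSpace.proj i : EuclideanSpace ℝ ι →L[ℝ] ℝ).smulRight (x i)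

theorem gA_apply (x : ι → V) (g : EuclideanSpace ℝ ι) : gA x g = ∑ i, g i • x i := by
  unfold gA
  rw [_root_.sum_apply]
  rfl

theorem gA_basis (x : ι → V) (i : ι) : gA x (EuclideanSpace.basisFun ι ℝ i) = x i := by
  rw [gA_apply, Finset.sum_eq_single i]
  · simp
  · intro j _ hj; simp [hj]
  · intro h; exact (h (Finset.mem_univ _)).elim

/-- Gaussian average -/
noncomputable def gs (x : ι → V) : ℝ := ∫ g, ‖gA x g‖ ^ 2 ∂(stdGaussian (EuclideanSpace ℝ ι))

theorem integrable_clm {F : Type*} [NormedAddCommGroup F] [NormedSpace ℝ F]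
    (A : EuclideanSpace ℝ ι →L[ℝ] F) :
    Integrable (fun g => ‖A g‖ ^ 2) (stdGaussian (EuclideanSpace ℝ ι)) := by
  have h : MemLp (A ∘ id) 2 (stdGaussian (EuclideanSpace ℝ ι)) :=
    A.comp_memLp' IsGaussian.memLp_two_id
  exact (memLp_two_iff_integrable_sq_norm h.1).1 h

theorem integral_coord_sq (i : ι) :
    ∫ g : EuclideanSpace ℝ ι, g i ^ 2 ∂(stdGaussian (EuclideanSpace ℝ ι)) = 1 := by
  let L : StrongDual ℝ (EuclideanSpace ℝ ι) := EuclideanSpace.proj i
  have h1 := variance_dual_stdGaussian L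
  rw [variance_eq_integral L.continuous.aemeasurable, integral_strongDual_stdGaussian,
    (EuclideanSpace.basisFun ι ℝ).norm_dual, Finset.sum_eq_single i] at h1
  · simpa [L] using h1
  · intro j _ hj; simp [L, hj.symm]
  · intro h; exact (h (Finset.mem_univ _)).elim

theorem gs_eq [FiniteDimensional ℝ V] (x : ι → V) (y : κ → V)
    (h : ∀ η : StrongDual ℝ V, ∑ i, η (x i) ^ 2 = ∑ j, η (y j) ^ 2) : gs x = gs y := by
  let : MeasurableSpace V := borel V
  have : BorelSpace V := ⟨rfl⟩
  have : CompleteSpace V := FiniteDimensional.complete ℝ V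
  have : ProperSpace V := FiniteDimensional.proper_real V
  have e : (stdGaussian (EuclideanSpace ℝ ι)).map (gA x)
      = (stdGaussian (EuclideanSpace ℝ κ)).map (gA y) := by
    apply Measure.ext_of_charFunDual
    funext η
    rw [charFunDual_map, charFunDual_map, charFunDual_stdGaussian, charFunDual_stdGaussian]
    have h1 : ‖η.comp (gA x)‖ ^ 2 = ‖η.comp (gA y)‖ ^ 2 := by
      rw [(EuclideanSpace.basisFun ι ℝ).norm_dual, (EuclideanSpace.basisFun κ ℝ).norm_dual]
      simp only [ContinuousLinearMap.comp_apply, gA_basis]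
      exact h η
    rw [← Complex.ofReal_pow, ← Complex.ofReal_pow, h1]
  have hm : ∀ μ : Measure V, AEStronglyMeasurable (fun v : V => ‖v‖ ^ 2) μ := fun μ =>
    (continuous_norm.pow 2).aestronglyMeasurable
  unfold gs
  rw [← integral_map (gA x).continuous.aemeasurable (hm _),
    ← integral_map (gA y).continuous.aemeasurable (hm _), e]

theorem rad_gauss (x : ι → V) (g : EuclideanSpace ℝ ι) :
    rad (nq V) (fun i => g i • x i)
      = ∑ ε : ι → ℤˣ, (∏ j, hf (ε j)) * ‖gA (fun i => ε i • x i) g‖ ^ 2 := by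
  unfold rad Ex nq
  refine Finset.sum_congr rfl fun ε _ => ?_
  rw [gA_apply]
  simp only [smul_comm (ε _)]

theorem integrable_rad (x : ι → V) :
    Integrable (fun g : EuclideanSpace ℝ ι => rad (nq V) (fun i => g i • x i))
      (stdGaussian (EuclideanSpace ℝ ι)) := by
  simp only [rad_gauss]
  exact integrable_finsetSum _ fun ε _ => (integrable_clm _).const_mul _

theorem integral_rad [FiniteDimensional ℝ V] (x : ι → V) :
    ∫ g : EuclideanSpace ℝ ι, rad (nq V) (fun i => g i • x i) ∂(stdGaussian (EuclideanSpace ℝ ι))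
      = gs x := by
  simp only [rad_gauss]
  rw [integral_finsetSum _ fun ε _ => (integrable_clm _).const_mul _]
  simp only [integral_const_mul]
  have : ∀ ε : ι → ℤˣ, ∫ g, ‖gA (fun i => ε i • x i) g‖ ^ 2 ∂(stdGaussian (EuclideanSpace ℝ ι))
      = gs x := fun ε => gs_eq (fun i => ε i • x i) x fun η =>
    Finset.sum_congr rfl fun i _ => by
      rcases Int.units_eq_one_or (ε i) with h | h <;> simp [h]
  simp only [this]
  exact Ex_const isW_hf (gs x)

theorem sum_gauss (x : ι → V) (g : EuclideanSpace ℝ ι) :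
    ∑ i, nq V (g i • x i) = ∑ i, g i ^ 2 * nq V (x i) :=
  Finset.sum_congr rfl fun i _ => by
    unfold nq; rw [norm_smul, mul_pow, Real.norm_eq_abs, sq_abs]

theorem integrable_coord_sq (i : ι) :
    Integrable (fun g : EuclideanSpace ℝ ι => g i ^ 2) (stdGaussian (EuclideanSpace ℝ ι)) := by
  have := integrable_clm (EuclideanSpace.proj i : EuclideanSpace ℝ ι →L[ℝ] ℝ)
  simpa using this

theorem integrable_sum (x : ι → V) :
    Integrable (fun g : EuclideanSpace ℝ ι => ∑ i, nq V (g i • x i))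
      (stdGaussian (EuclideanSpace ℝ ι)) := by
  simp only [sum_gauss]
  exact integrable_finsetSum _ fun i _ => (integrable_coord_sq i).mul_const _

theorem integral_sum (x : ι → V) :
    ∫ g : EuclideanSpace ℝ ι, ∑ i, nq V (g i • x i) ∂(stdGaussian (EuclideanSpace ℝ ι))
      = ∑ i, nq V (x i) := by
  simp only [sum_gauss]
  rw [integral_finsetSum _ fun i _ => (integrable_coord_sq i).mul_const _]
  simp only [integral_mul_const, integral_coord_sq, one_mul]

theorem gauss_cmp [FiniteDimensional ℝ V] {K : ℝ} (hK : 0 ≤ K) (h1 : ∀ m, Inv true (nq V) m K)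
    (h2 : ∀ m, Inv false (nq V) m K) (x : ι → V) (y : κ → V)
    (h : ∀ η : StrongDual ℝ V, ∑ i, η (x i) ^ 2 = ∑ j, η (y j) ^ 2) :
    ∑ j, nq V (y j) ≤ K * K * ∑ i, nq V (x i) := by
  have a1 : gs x ≤ K * ∑ i, nq V (x i) := by
    rw [← integral_rad, ← integral_sum, ← integral_const_mul]
    refine integral_mono (integrable_rad x) ((integrable_sum x).const_mul K) fun g => ?_
    simpa only [Ineq, if_true] using Inv.fintype h1 (fun i => g i • x i)
  have a2 : ∑ j, nq V (y j) ≤ K * gs y := by
    rw [← integral_rad, ← integral_sum, ← integral_const_mul]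
    refine integral_mono (integrable_sum y) ((integrable_rad y).const_mul K) fun g => ?_
    simpa only [Ineq, Bool.false_eq_true, if_false] using Inv.fintype h2 (fun i => g i • y i)
  rw [← gs_eq x y h] at a2
  calc _ ≤ K * gs x := a2
    _ ≤ K * (K * ∑ i, nq V (x i)) := by gcongr
    _ = _ := by ring

end fin

theorem gauss_cmp' {E : Type*} [NormedAddCommGroup E] [NormedSpace ℝ E] {K : ℝ} (hK : 0 ≤ K)
    (h1 : ∀ m, Inv true (nq E) m K) (h2 : ∀ m, Inv false (nq E) m K) {ι : Type} [Fintype ι]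
    [DecidableEq ι] (x y : ι → E)
    (h : ∀ η : E →ₗ[ℝ] ℝ, ∑ i, η (x i) ^ 2 = ∑ j, η (y j) ^ 2) :
    ∑ j, nq E (y j) ≤ K * K * ∑ i, nq E (x i) := by
  let V := Submodule.span ℝ (Set.range x ∪ Set.range y)
  have : FiniteDimensional ℝ V :=
    FiniteDimensional.span_of_finite ℝ ((Set.finite_range x).union (Set.finite_range y))
  have tr : ∀ b m, Inv b (nq E) m K → Inv b (nq V) m K := fun b m hb => by
    have := Inv.transfer (q := nq V) V.subtype.toAddMonoidHom zero_le_one zero_le_one
      (fun v => by rw [one_mul]; exact le_rfl) (fun v => by rw [one_mul]; exact le_rfl) hK hb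
    simpa using this
  let x' : ι → V := fun i => ⟨x i, Submodule.subset_span (Or.inl ⟨i, rfl⟩)⟩
  let y' : ι → V := fun i => ⟨y i, Submodule.subset_span (Or.inr ⟨i, rfl⟩)⟩
  refine gauss_cmp hK (fun m => tr _ _ (h1 m)) (fun m => tr _ _ (h2 m)) x' y' fun η => ?_
  obtain ⟨g, hg⟩ := LinearMap.exists_extend (η : V →ₗ[ℝ] ℝ)
  have e : ∀ v : V, η v = g v := fun v => (LinearMap.congr_fun hg v).symm
  simp only [e]
  exact h g

end Pool.Agent.Lib.MP_435322_an
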