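import Mathlib

/-! Lattice functionals on finitely supported nonnegative sequences: definitions and basic facts
for the proof that spaces with an unconditional decomposition are ergodic. -/

namespace Pool.Agent.Lib.MP_435322_an.UD

open Finset
open scoped NNReal

/-- finitely supported nonnegative sequences -/
abbrev V : Type := ℕ →₀ ℝ≥0

/-- monotone sublinear functional -/
structure LN (ν : V → ℝ) : Prop where
  mono : ∀ x y, x ≤ y → ν x ≤ ν y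
  add : ∀ x y, ν (x + y) ≤ ν x + ν y
  smul : ∀ (c : ℝ≥0) x, ν (c • x) = c * ν x

/-- disjointly supported family -/
def Dj {Q : Type*} (g : Q → V) : Prop := ∀ n p q, g p n ≠ 0 → g q n ≠ 0 → p = q

/-- supported in the tail `[m, ∞)` -/
def Tl (m : ℕ) (x : V) : Prop := ∀ n, x n ≠ 0 → m ≤ n

/-- supported in the window `[a, b)` -/
def Win (a b : ℕ) (x : V) : Prop := ∀ n, x n ≠ 0 → a ≤ n ∧ n < b

/-- nonnegative combination -/
noncomputable def cmb {I : Type*} [Fintype I] (t : I → ℝ≥0) (y : I → V) : V := ∑ i, t i • y i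

/-- squared Euclidean norm -/
noncomputable def ssq {I : Type*} [Fintype I] (t : I → ℝ≥0) : ℝ := ∑ i, (t i : ℝ) ^ 2

/-- a gadget: no four-colouring makes each norm `K`-dominated on its own colour -/
def Gad (ν : V → ℝ) (K : ℝ) (m : ℕ) : Prop :=
  ∃ (I : Type) (_ : Fintype I) (g : Fin 4 → I → V), Dj (fun p : Fin 4 × I => g p.1 p.2) ∧
    (∀ l i, Tl m (g l i)) ∧ ∀ c : I → Fin 4, ∃ (l : Fin 4) (t : I → ℝ≥0),
      (∀ i, c i ≠ l → t i = 0) ∧ ∀ l', l' ≠ l → K * ν (cmb t (g l')) < ν (cmb t (g l))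

/-- gadgets of every strength in every tail -/
def Gads (ν : V → ℝ) : Prop := ∀ K m, Gad ν K m

/-- upper l2 estimate for a family -/
def Up (ν : V → ℝ) (C : ℝ) {I : Type*} [Fintype I] (y : I → V) : Prop :=
  ∀ t, ν (cmb t y) ^ 2 ≤ C * ssq t

/-- seminormalised families with a uniform upper l2 estimate exist in every tail -/
def NormUp (ν : V → ℝ) : Prop :=
  ∃ C : ℝ, ∀ n m, ∃ y : Fin n → V, Dj y ∧ (∀ i, Tl m (y i)) ∧ (∀ i, 1 ≤ ν (y i)) ∧ Up ν C y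

/-- extension of a history by a finite family -/
def extH (D : Set (V × ℝ)) {I : Type*} [Fintype I] (y : I → V) : Set (V × ℝ) :=
  {p | ∃ q ∈ D, ∃ t : I → ℝ≥0, p = (q.1 + cmb t y, q.2 + ssq t)}

/-- the builder loses the upward game -/
def UB (ν : V → ℝ) : Prop :=
  ∀ C : ℝ, ∃ (H : ℝ) (Lose : Set (V × ℝ) → Prop), Lose {(0, 0)} ∧
    (∀ D, Lose D → ∀ p ∈ D, ν p.1 ^ 2 ≤ H * p.2) ∧
    ∀ D, Lose D → ∀ N : ℕ, ∃ n m : ℕ, ∀ arr : Fin N → Fin n → V,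
      Dj (fun p : Fin N × Fin n => arr p.1 p.2) → (∀ a j, Tl m (arr a j)) →
      (∀ a, Up ν C (arr a)) → ∃ s : Fin N → Fin n, Lose (extH D fun a => arr a (s a))

/-- a finite family of vectors -/
structure Pc where
  d : ℕ
  y : Fin d → V

/-- normalised disjoint family in a tail -/
def NF (ν : V → ℝ) (m : ℕ) {d : ℕ} (y : Fin d → V) : Prop :=
  (∀ i, ν (y i) = 1) ∧ Dj y ∧ ∀ i, Tl m (y i)

/-- the family is not `D`-equivalent to the l2 basis -/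
def Dev (ν : V → ℝ) (D : ℝ) {d : ℕ} (y : Fin d → V) : Prop :=
  ∃ b, D * ssq b < ν (cmb b y) ^ 2 ∨ D * ν (cmb b y) ^ 2 < ssq b

/-- `x` splits into `M` pieces that behave like an l2 basis on sets -/
def FD (ν : V → ℝ) (C : ℝ) (M : ℕ) (x : V) : Prop :=
  ∃ z : Fin M → V, Dj z ∧ ∑ j, z j ≤ x ∧ ∀ B : Finset (Fin M),
    B.card * ν x ^ 2 ≤ C * M * ν (∑ j ∈ B, z j) ^ 2 ∧
    M * ν (∑ j ∈ B, z j) ^ 2 ≤ C * B.card * ν x ^ 2

/-- membership in the cone generated by a piece -/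
def InC (F : Pc) (x : V) : Prop := ∃ b, x = cmb b F.y

/-- different pieces are disjointly supported -/
def PD {A : Type*} (F : A → Pc) : Prop :=
  ∀ n k k' i i', (F k).y i n ≠ 0 → (F k').y i' n ≠ 0 → k = k'

/-- supply of divisible deviating pieces, `N` at a time with an upper estimate -/
def SUP (ν : V → ℝ) : Prop :=
  ∃ C : ℝ, ∀ (N M : ℕ) (D : ℝ) (m : ℕ), 0 < M → ∃ F : Fin N → Pc, (∀ a, NF ν m (F a).y) ∧
    PD F ∧ (∀ a, Dev ν D (F a).y) ∧ (∀ a x, InC (F a) x → FD ν C M x) ∧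
    ∀ x : Fin N → V, (∀ a, InC (F a) (x a)) → ν (∑ a, x a) ^ 2 ≤ C * ∑ a, ν (x a) ^ 2

/-- a sequence of divisible deviating pieces -/
def PSeq (ν : V → ℝ) (C : ℝ) (F : ℕ → Pc) : Prop :=
  (∀ k, NF ν k (F k).y) ∧ PD F ∧ (∀ k : ℕ, Dev ν k (F k).y) ∧
    ∀ k x, InC (F k) x → FD ν C (k + 1) x

/-- upper l2 estimate for a sequence of pieces -/
def SUp (ν : V → ℝ) (C : ℝ) (F : ℕ → Pc) : Prop :=
  ∀ (σ : Finset ℕ) (x : ℕ → V), (∀ k ∈ σ, InC (F k) (x k)) →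
    ν (∑ k ∈ σ, x k) ^ 2 ≤ C * ∑ k ∈ σ, ν (x k) ^ 2

/-- lower l2 estimate for a sequence of pieces -/
def SLo (ν : V → ℝ) (C : ℝ) (F : ℕ → Pc) : Prop :=
  ∀ (σ : Finset ℕ) (x : ℕ → V), (∀ k ∈ σ, InC (F k) (x k)) →
    ∑ k ∈ σ, ν (x k) ^ 2 ≤ C * ν (∑ k ∈ σ, x k) ^ 2

/-- an l2-sum of deviating pieces -/
def L2 (ν : V → ℝ) : Prop :=
  ∃ (C : ℝ) (F : ℕ → Pc), (∀ k, NF ν 0 (F k).y) ∧ PD F ∧ (∀ k : ℕ, Dev ν k (F k).y) ∧
    SUp ν C F ∧ SLo ν C F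

/-- near-Hilbert estimates for disjoint families -/
def NH (ν : V → ℝ) : Prop :=
  ∀ lam : ℝ, 1 < lam → ∃ C : ℝ, ∀ (r : ℕ) (y : Fin (4 ^ r) → V), Dj y →
    ((∀ j, ν (y j) ≤ 1) → ν (∑ j, y j) ≤ C * lam ^ r * 2 ^ r) ∧
    ((∀ j, 1 ≤ ν (y j)) → 2 ^ r ≤ C * lam ^ r * ν (∑ j, y j))

/-- lower 3-estimate -/
def Low3 (ν : V → ℝ) : Prop :=
  ∃ C : ℝ, ∀ (n : ℕ) (y : Fin n → V), Dj y → ∑ j, ν (y j) ^ 3 ≤ C * ν (∑ j, y j) ^ 3

/-- deviation in every tail -/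
def NHb (ν : V → ℝ) : Prop := ∀ (D : ℝ) (m : ℕ), ∃ (k : ℕ) (y : Fin k → V), NF ν m y ∧ Dev ν D y

/-- deviation of bounded length in every tail -/
def NonAs (ν : V → ℝ) : Prop :=
  ∀ D : ℝ, ∃ d : ℕ, ∀ m : ℕ, ∃ k ≤ d, ∃ y : Fin k → V, NF ν m y ∧ Dev ν D y

/-- deviation of a functional on a finite-dimensional cone -/
def DevF {d : ℕ} (D : ℝ) (f : (Fin d → ℝ≥0) → ℝ) : Prop :=
  ∃ w : Fin d → ℝ≥0, D * ∑ g, (w g : ℝ) ^ 2 * f (Pi.single g 1) ^ 2 < f w ^ 2 ∨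
    D * f w ^ 2 < ∑ g, (w g : ℝ) ^ 2 * f (Pi.single g 1) ^ 2

/-- spreading structures with l2 behaviour on copies of one vector -/
def KR (ν : V → ℝ) : Prop :=
  ∃ C : ℝ, ∀ (n : ℕ) (D : ℝ), ∃ (d : ℕ) (ρ : ∀ k : ℕ, (Fin k → Fin d → ℝ≥0) → ℝ),
    (∀ n' m : ℕ, ∃ T : ℕ → Fin d → V, Dj (fun p : ℕ × Fin d => T p.1 p.2) ∧
      (∀ j g, Tl m (T j g)) ∧ ∀ (k : ℕ) (e : Fin k → ℕ), StrictMono e → (∀ i, e i < n') →
        ∀ v : Fin k → Fin d → ℝ≥0, ρ k v ≤ 2 * ν (∑ i, cmb (v i) (T (e i))) ∧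
          ν (∑ i, cmb (v i) (T (e i))) ≤ 2 * ρ k v) ∧
    (∀ g, 0 < ρ 1 (fun _ => Pi.single g 1)) ∧ DevF D (fun v => ρ 1 (fun _ => v)) ∧
    (∀ k ≤ n, ∀ (t : Fin k → ℝ≥0) (v : Fin d → ℝ≥0),
      ρ k (fun j => t j • v) ^ 2 ≤ C * ssq t * ρ 1 (fun _ => v) ^ 2) ∧
    ∀ k ≤ n, ∀ v : Fin d → ℝ≥0, k * ρ 1 (fun _ => v) ^ 2 ≤ C * ρ k (fun _ => v) ^ 2

/-! ### basic facts -/

section
variable {ν : V → ℝ}

theorem LN.zero (h : LN ν) : ν 0 = 0 := by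
  have := h.smul 0 0
  simpa using this

theorem LN.nonneg (h : LN ν) (x : V) : 0 ≤ ν x := by
  rw [← h.zero]; exact h.mono _ _ zero_le

theorem LN.sum_le (h : LN ν) {I : Type*} (s : Finset I) (x : I → V) :
    ν (∑ i ∈ s, x i) ≤ ∑ i ∈ s, ν (x i) := by
  classical
  induction s using Finset.induction_on with
  | empty => simp [h.zero]
  | insert a s ha ih =>
    rw [Finset.sum_insert ha, Finset.sum_insert ha]
    exact (h.add _ _).trans (by linarith)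

theorem LN.le_add (h : LN ν) {x y z : V} (hz : z ≤ x + y) : ν z ≤ ν x + ν y :=
  (h.mono _ _ hz).trans (h.add _ _)

theorem LN.sum_mono (h : LN ν) {I : Type*} {s s' : Finset I} (hs : s ⊆ s') (x : I → V) :
    ν (∑ i ∈ s, x i) ≤ ν (∑ i ∈ s', x i) :=
  h.mono _ _ (Finset.sum_le_sum_of_subset hs)

theorem LN.le_sum (h : LN ν) {I : Type*} {s : Finset I} (x : I → V) {i : I} (hi : i ∈ s) :
    ν (x i) ≤ ν (∑ j ∈ s, x j) :=
  h.mono _ _ (Finset.single_le_sum (fun _ _ => zero_le) hi)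

theorem smul_le_smul_V {a b : ℝ≥0} (hab : a ≤ b) (x : V) : a • x ≤ b • x := by
  intro n
  simp only [Finsupp.smul_apply, smul_eq_mul]
  exact mul_le_mul_left hab _

theorem smul_le_smul_V' (a : ℝ≥0) {x y : V} (h : x ≤ y) : a • x ≤ a • y := by
  intro n
  simp only [Finsupp.smul_apply, smul_eq_mul]
  exact mul_le_mul_right (h n) _

section cmb
variable {I : Type*} [Fintype I]

theorem cmb_apply (t : I → ℝ≥0) (y : I → V) (n : ℕ) : cmb t y n = ∑ i, t i * y i n := by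
  unfold cmb
  rw [Finsupp.finsetSum_apply]
  simp

theorem cmb_mono {t t' : I → ℝ≥0} (h : ∀ i, t i ≤ t' i) (y : I → V) : cmb t y ≤ cmb t' y :=
  Finset.sum_le_sum fun i _ => smul_le_smul_V (h i) _

theorem cmb_add (t t' : I → ℝ≥0) (y : I → V) : cmb (t + t') y = cmb t y + cmb t' y := by
  unfold cmb
  rw [← Finset.sum_add_distrib]
  exact Finset.sum_congr rfl fun i _ => by rw [Pi.add_apply, add_smul]

theorem cmb_smul (c : ℝ≥0) (t : I → ℝ≥0) (y : I → V) : cmb (c • t) y = c • cmb t y := by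
  unfold cmb
  rw [Finset.smul_sum]
  exact Finset.sum_congr rfl fun i _ => by rw [Pi.smul_apply, smul_eq_mul, mul_smul]

theorem cmb_zero (y : I → V) : cmb 0 y = 0 := by simp [cmb]

theorem cmb_single [DecidableEq I] (i : I) (c : ℝ≥0) (y : I → V) :
    cmb (Pi.single i c) y = c • y i := by
  unfold cmb
  rw [Finset.sum_eq_single i]
  · simp
  · intro j _ hj; rw [Pi.single_eq_of_ne hj, zero_smul]
  · intro h; exact (h (Finset.mem_univ i)).elim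

theorem smul_le_cmb (t : I → ℝ≥0) (y : I → V) (i : I) : t i • y i ≤ cmb t y :=
  Finset.single_le_sum (f := fun i => t i • y i) (fun _ _ => zero_le) (Finset.mem_univ i)

theorem cmb_ne_zero {t : I → ℝ≥0} {y : I → V} {n : ℕ} (h : cmb t y n ≠ 0) :
    ∃ i, t i ≠ 0 ∧ y i n ≠ 0 := by
  rw [cmb_apply] at h
  obtain ⟨i, -, hi⟩ := Finset.exists_ne_zero_of_sum_ne_zero h
  exact ⟨i, left_ne_zero_of_mul hi, right_ne_zero_of_mul hi⟩

theorem LN.cmb_le (h : LN ν) (t : I → ℝ≥0) (y : I → V) :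
    ν (cmb t y) ≤ ∑ i, (t i : ℝ) * ν (y i) :=
  (h.sum_le _ _).trans (le_of_eq (Finset.sum_congr rfl fun _ _ => h.smul _ _))

theorem LN.le_cmb (h : LN ν) (t : I → ℝ≥0) (y : I → V) (i : I) :
    (t i : ℝ) * ν (y i) ≤ ν (cmb t y) := by
  rw [← h.smul]; exact h.mono _ _ (smul_le_cmb t y i)

theorem ssq_nonneg (t : I → ℝ≥0) : 0 ≤ ssq t := Finset.sum_nonneg fun _ _ => sq_nonneg _

theorem ssq_smul (c : ℝ≥0) (t : I → ℝ≥0) : ssq (c • t) = (c : ℝ) ^ 2 * ssq t := by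
  unfold ssq
  rw [Finset.mul_sum]
  exact Finset.sum_congr rfl fun i _ => by simp [mul_pow]

theorem le_ssq (t : I → ℝ≥0) (i : I) : (t i : ℝ) ^ 2 ≤ ssq t :=
  Finset.single_le_sum (f := fun i => (t i : ℝ) ^ 2) (fun _ _ => sq_nonneg _) (Finset.mem_univ i)

theorem ssq_single [DecidableEq I] (i : I) (c : ℝ≥0) : ssq (Pi.single i c) = (c : ℝ) ^ 2 := by
  unfold ssq
  rw [Finset.sum_eq_single i]
  · simp
  · intro j _ hj; rw [Pi.single_eq_of_ne hj]; simp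
  · intro h; exact (h (Finset.mem_univ i)).elim

theorem Tl.cmb {m : ℕ} {y : I → V} (h : ∀ i, Tl m (y i)) (t : I → ℝ≥0) : Tl m (cmb t y) :=
  fun n hn => by obtain ⟨i, -, hi⟩ := cmb_ne_zero hn; exact h i n hi

theorem Win.cmb {a b : ℕ} {y : I → V} (h : ∀ i, Win a b (y i)) (t : I → ℝ≥0) :
    Win a b (cmb t y) :=
  fun n hn => by obtain ⟨i, -, hi⟩ := cmb_ne_zero hn; exact h i n hi

/-- every finite family in a tail lies in a window -/
theorem exists_win {m : ℕ} {y : I → V} (h : ∀ i, Tl m (y i)) :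
    ∃ b, m < b ∧ ∀ i, Win m b (y i) := by
  classical
  refine ⟨max m (Finset.univ.sup fun i => (y i).support.sup id) + 1, by omega, fun i n hn =>
    ⟨h i n hn, ?_⟩⟩
  have h1 : n ≤ (y i).support.sup id :=
    Finset.le_sup (f := id) (Finsupp.mem_support_iff.2 hn)
  have h2 : (y i).support.sup id ≤ Finset.univ.sup fun i => (y i).support.sup id :=
    Finset.le_sup (f := fun i => (y i).support.sup id) (Finset.mem_univ i)
  omega

end cmb

theorem sum_ne_zero_V {I : Type*} {s : Finset I} {x : I → V} {n : ℕ}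
    (h : (∑ i ∈ s, x i) n ≠ 0) : ∃ i ∈ s, x i n ≠ 0 := by
  rw [Finsupp.finsetSum_apply] at h
  exact Finset.exists_ne_zero_of_sum_ne_zero h

theorem ne_zero_of_le {x y : V} (h : x ≤ y) {n : ℕ} (hn : x n ≠ 0) : y n ≠ 0 :=
  fun h0 => hn (le_antisymm (h0 ▸ h n) zero_le)

theorem smul_ne_zero_V {c : ℝ≥0} {x : V} {n : ℕ} (h : (c • x) n ≠ 0) : x n ≠ 0 := by
  rw [Finsupp.smul_apply, smul_eq_mul] at h
  exact right_ne_zero_of_mul h

theorem Tl.mono {m m' : ℕ} (hm : m' ≤ m) {x : V} (h : Tl m x) : Tl m' x :=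
  fun n hn => hm.trans (h n hn)

theorem Tl.of_le {m : ℕ} {x y : V} (h : Tl m y) (hxy : x ≤ y) : Tl m x :=
  fun n hn => h n (ne_zero_of_le hxy hn)

theorem Tl.smul {m : ℕ} {x : V} (h : Tl m x) (c : ℝ≥0) : Tl m (c • x) :=
  fun n hn => h n (smul_ne_zero_V hn)

theorem Tl.sum {m : ℕ} {I : Type*} {s : Finset I} {x : I → V} (h : ∀ i ∈ s, Tl m (x i)) :
    Tl m (∑ i ∈ s, x i) :=
  fun n hn => by obtain ⟨i, hi, h1⟩ := sum_ne_zero_V hn; exact h i hi n h1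

theorem Win.tl {a b : ℕ} {x : V} (h : Win a b x) : Tl a x := fun n hn => (h n hn).1

theorem Win.mono {a b a' b' : ℕ} (ha : a' ≤ a) (hb : b ≤ b') {x : V} (h : Win a b x) :
    Win a' b' x := fun n hn => ⟨ha.trans (h n hn).1, (h n hn).2.trans_le hb⟩

theorem Win.of_le {a b : ℕ} {x y : V} (h : Win a b y) (hxy : x ≤ y) : Win a b x :=
  fun n hn => h n (ne_zero_of_le hxy hn)

theorem Win.smul {a b : ℕ} {x : V} (h : Win a b x) (c : ℝ≥0) : Win a b (c • x) :=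
  fun n hn => h n (smul_ne_zero_V hn)

theorem Dj.comp {Q Q' : Type*} {g : Q → V} (h : Dj g) {e : Q' → Q} (he : Function.Injective e) :
    Dj (fun p => g (e p)) := fun n _ _ hp hq => he (h n _ _ hp hq)

theorem Dj.of_supp {Q : Type*} {g g' : Q → V} (h : Dj g) (hg : ∀ p n, g' p n ≠ 0 → g p n ≠ 0) :
    Dj g' := fun n p q hp hq => h n p q (hg p n hp) (hg q n hq)

theorem Up.mono {C C' : ℝ} {I : Type*} [Fintype I] {y : I → V} (h : Up ν C y) (hC : C ≤ C') :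
    Up ν C' y := fun t => (h t).trans (mul_le_mul_of_nonneg_right hC (ssq_nonneg t))

theorem Dev.mono {D D' : ℝ} {d : ℕ} {y : Fin d → V} (hD : Dev ν D y) (hle : D' ≤ D) :
    Dev ν D' y := by
  obtain ⟨b, hb | hb⟩ := hD
  · exact ⟨b, Or.inl ((mul_le_mul_of_nonneg_right hle (ssq_nonneg b)).trans_lt hb)⟩
  · exact ⟨b, Or.inr ((mul_le_mul_of_nonneg_right hle (sq_nonneg _)).trans_lt hb)⟩

theorem NF.mono {m m' d : ℕ} {y : Fin d → V} (h : NF ν m y) (hm : m' ≤ m) : NF ν m' y :=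
  ⟨h.1, h.2.1, fun i => (h.2.2 i).mono hm⟩

theorem InC.ne_zero {F : Pc} {x : V} (h : InC F x) {n : ℕ} (hn : x n ≠ 0) :
    ∃ i, F.y i n ≠ 0 := by
  obtain ⟨b, rfl⟩ := h
  obtain ⟨i, -, hi⟩ := cmb_ne_zero hn
  exact ⟨i, hi⟩

theorem InC.zero (F : Pc) : InC F 0 := ⟨0, (cmb_zero _).symm⟩

theorem InC.smul {F : Pc} {x : V} (h : InC F x) (c : ℝ≥0) : InC F (c • x) := by
  obtain ⟨b, rfl⟩ := h
  exact ⟨c • b, (cmb_smul _ _ _).symm⟩

end

/-- dependent choice -/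
theorem dc {σ : Type*} {α : Type*} (Inv : σ → Prop) (Q : ℕ → σ → σ → α → Prop) (s0 : σ)
    (h0 : Inv s0) (h : ∀ j s, Inv s → ∃ o s', Inv s' ∧ Q j s s' o) :
    ∃ (s : ℕ → σ) (o : ℕ → α), s 0 = s0 ∧ (∀ j, Inv (s j)) ∧ ∀ j, Q j (s j) (s (j + 1)) (o j) := by
  choose fo fs h1 h2 using h
  let s : ℕ → {s // Inv s} := fun n => Nat.rec ⟨s0, h0⟩ (fun j p => ⟨fs j p.1 p.2, h1 j p.1 p.2⟩) n
  exact ⟨fun j => (s j).1, fun j => fo j (s j).1 (s j).2, rfl, fun j => (s j).2,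
    fun j => h2 j (s j).1 (s j).2⟩

/-- successive choices in consecutive windows -/
theorem sel_nat {α : Type*} (Q : ℕ → ℕ → ℕ → α → Prop) (m0 : ℕ)
    (h : ∀ j m, ∃ o m', m < m' ∧ Q j m m' o) :
    ∃ (m : ℕ → ℕ) (o : ℕ → α), m 0 = m0 ∧ StrictMono m ∧ ∀ j, Q j (m j) (m (j + 1)) (o j) := by
  obtain ⟨s, o, h1, -, h2⟩ := dc (fun _ : ℕ => True) (fun j m m' o => m < m' ∧ Q j m m' o) m0
    trivial (fun j m _ => by obtain ⟨o, m', h3⟩ := h j m; exact ⟨o, m', trivial, h3⟩)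
  exact ⟨s, o, h1, strictMono_nat_of_lt_succ fun j => (h2 j).1, fun j => (h2 j).2⟩

/-- finitely many choices in disjoint windows -/
theorem sel_fin {α : Type*} {J : Type*} [Finite J] (Q : J → ℕ → ℕ → α → Prop) (m0 : ℕ)
    (h : ∀ j m, ∃ o m', m < m' ∧ Q j m m' o) :
    ∃ (lo hi : J → ℕ) (o : J → α) (m1 : ℕ), m0 ≤ m1 ∧ (∀ j, m0 ≤ lo j ∧ hi j ≤ m1) ∧
      (∀ j, Q j (lo j) (hi j) (o j)) ∧
      ∀ j j' n, lo j ≤ n → n < hi j → lo j' ≤ n → n < hi j' → j = j' := by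
  classical
  rcases isEmpty_or_nonempty J with hJ | hJ
  · exact ⟨fun _ => 0, fun _ => 0, fun j => hJ.elim j, m0, le_rfl, fun j => hJ.elim j,
      fun j => hJ.elim j, fun j => hJ.elim j⟩
  obtain ⟨N, ⟨e⟩⟩ := Finite.exists_equiv_fin J
  let f : J → ℕ := fun j => e j
  have hf : Function.Injective f := fun a b hab => e.injective (Fin.ext hab)
  obtain ⟨m, o, h1, h2, h3⟩ := sel_nat (fun n => Q (Function.invFun f n)) m0
    (fun n m => h _ m)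
  refine ⟨fun j => m (f j), fun j => m (f j + 1), fun j => o (f j), m N, ?_, fun j => ⟨?_, ?_⟩,
    fun j => ?_, fun j j' n a b c d => ?_⟩
  · rw [← h1]; exact h2.monotone (Nat.zero_le _)
  · rw [← h1]; exact h2.monotone (Nat.zero_le _)
  · exact h2.monotone (e j).2
  · have := h3 (f j)
    rwa [Function.leftInverse_invFun hf j] at this
  · apply hf
    have h4 := h2.lt_iff_lt.1 (a.trans_lt d)
    have h5 := h2.lt_iff_lt.1 (c.trans_lt b)
    omega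

/-- a finite grid from above in the unit cube -/
theorem grid (κ : Type*) [Fintype κ] (η : ℝ≥0) (hη : 0 < η) :
    ∃ G : Finset (κ → ℝ≥0), ∀ v : κ → ℝ≥0, (∀ i, v i ≤ 1) →
      ∃ w ∈ G, ∀ i, v i ≤ w i ∧ w i ≤ v i + η := by
  classical
  refine ⟨Fintype.piFinset fun _ => (Finset.range (⌈1 / η⌉₊ + 1)).image fun k : ℕ => (k : ℝ≥0) * η,
    fun v hv => ⟨fun i => (⌈v i / η⌉₊ : ℝ≥0) * η, ?_, fun i => ⟨?_, ?_⟩⟩⟩
  · rw [Fintype.mem_piFinset]
    intro i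
    refine Finset.mem_image.2 ⟨_, Finset.mem_range.2 (Nat.lt_succ_of_le (Nat.ceil_mono ?_)), rfl⟩
    exact div_le_div_of_nonneg_right (hv i) hη.le
  · rw [← div_le_iff₀ hη]; exact Nat.le_ceil _
  · have h1 : (⌈v i / η⌉₊ : ℝ≥0) ≤ v i / η + 1 := (Nat.ceil_lt_add_one zero_le).le
    calc (⌈v i / η⌉₊ : ℝ≥0) * η ≤ (v i / η + 1) * η := mul_le_mul_left h1 _
      _ = v i + η := by rw [add_mul, div_mul_cancel₀ _ hη.ne', one_mul]

/-- pigeonhole along tails -/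
theorem pigeon {α : Type*} (G : Finset α) (P : α → ℕ → Prop)
    (hP : ∀ a m m', m' ≤ m → P a m → P a m') (h : ∀ m, ∃ a ∈ G, P a m) :
    ∃ a ∈ G, ∀ m, P a m := by
  classical
  by_contra hn
  push Not at hn
  choose! f hf using hn
  obtain ⟨a, ha, h1⟩ := h (G.sup f)
  exact hf a ha (hP a _ _ (Finset.le_sup ha) h1)

/-- normalising a disjoint family -/
theorem normalize_fam {ν : V → ℝ} (h : LN ν) {I : Type*} (σ : Finset I) (x : I → V) (m : ℕ)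
    (hd : ∀ n p q, p ∈ σ → q ∈ σ → x p n ≠ 0 → x q n ≠ 0 → p = q) (ht : ∀ i ∈ σ, Tl m (x i)) :
    ∃ k ≤ σ.card, ∃ (y : Fin k → V) (b : Fin k → ℝ≥0), NF ν m y ∧
      ν (cmb b y) = ν (∑ i ∈ σ, x i) ∧ ssq b = ∑ i ∈ σ, ν (x i) ^ 2 := by
  classical
  let τ := σ.filter fun i => ν (x i) ≠ 0
  let e := τ.equivFin.symm
  let w : I → ℝ≥0 := fun i => ⟨ν (x i), h.nonneg _⟩
  have hw : ∀ j, w (e j) ≠ 0 := fun j h0 =>
    (Finset.mem_filter.1 (e j).2).2 (congrArg NNReal.toReal h0)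
  have hσ : ∀ j, (e j : I) ∈ σ := fun j => (Finset.mem_filter.1 (e j).2).1
  have h1 : cmb (fun j => w (e j)) (fun j => (w (e j))⁻¹ • x (e j)) = ∑ i ∈ τ, x i := by
    unfold cmb
    rw [← Finset.sum_coe_sort τ x, ← e.sum_comp]
    exact Finset.sum_congr rfl fun j _ => by rw [smul_smul, mul_inv_cancel₀ (hw j), one_smul]
  refine ⟨τ.card, Finset.card_filter_le _ _, fun j => (w (e j))⁻¹ • x (e j), fun j => w (e j),
    ⟨fun j => ?_, fun n p q hp hq => ?_, fun j => (ht _ (hσ j)).smul _⟩, ?_, ?_⟩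
  · rw [h.smul, NNReal.coe_inv]
    exact inv_mul_cancel₀ (Finset.mem_filter.1 (e j).2).2
  · exact e.injective (Subtype.ext
      (hd n _ _ (hσ p) (hσ q) (smul_ne_zero_V hp) (smul_ne_zero_V hq)))
  · rw [h1]
    refine le_antisymm (h.sum_mono (Finset.filter_subset _ _) x) ?_
    rw [← Finset.sum_filter_add_sum_filter_not σ (fun i => ν (x i) ≠ 0) x]
    refine (h.add _ _).trans ?_
    have h2 := h.sum_le (σ.filter fun i => ¬ ν (x i) ≠ 0) x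
    rw [Finset.sum_eq_zero (fun i hi => not_not.1 (Finset.mem_filter.1 hi).2)] at h2
    linarith
  · unfold ssq
    rw [e.sum_comp (fun i : τ => ((w i : ℝ≥0) : ℝ) ^ 2),
      Finset.sum_coe_sort τ (fun i => ((w i : ℝ≥0) : ℝ) ^ 2)]
    refine Finset.sum_filter_of_ne (f := fun i => ν (x i) ^ 2) fun i _ hi h0 => hi ?_
    rw [h0]; simp

end Pool.Agent.Lib.MP_435322_an.UD
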