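import Pool.Agent.Lib.MP_435322_an.UFam
import Pool.Agent.Lib.MP_435322_an.UBasic

/-! Factorisation through Euclidean spaces, large subspaces, finite-dimensional decompositions. -/

namespace Pool.Agent.Lib.MP_435322_an.UD

open Finset Filter

universe u v w

variable {𝕜 : Type w} [RCLike 𝕜] {X : Type u} [NormedAddCommGroup X] [NormedSpace 𝕜 X]

/-- on `F`, the function `p` is dominated by a Euclidean seminorm bounded by `K * ‖x‖` -/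
def Fac (F : Submodule 𝕜 X) (p : X → ℝ) (K : ℝ) : Prop :=
  ∃ (ι : Type) (_ : Fintype ι) (φ : ι → X →ₗ[𝕜] 𝕜),
    ∀ x ∈ F, p x ^ 2 ≤ ∑ i, ‖φ i x‖ ^ 2 ∧ ∑ i, ‖φ i x‖ ^ 2 ≤ K ^ 2 * ‖x‖ ^ 2

/-- `F` is `K`-Euclidean -/
def Hilb (F : Submodule 𝕜 X) (K : ℝ) : Prop := Fac F (fun x => ‖x‖) K

/-- `U` contains finite-dimensional subspaces arbitrarily far from Euclidean -/
def Large (U : Submodule 𝕜 X) : Prop :=
  ∀ K : ℝ, ∃ F : Submodule 𝕜 X, F ≤ U ∧ FiniteDimensional 𝕜 F ∧ ¬ Hilb F K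

/-- common kernel of a family of linear functionals -/
def Kr {ι : Type} (f : ι → X →ₗ[𝕜] 𝕜) : Submodule 𝕜 X := ⨅ i, LinearMap.ker (f i)

/-- initial sums are bounded by twice the full sum -/
def Mz (G : ℕ → Submodule 𝕜 X) : Prop :=
  ∀ (σ : Finset ℕ) (N : ℕ) (z : ℕ → X), (∀ k, z k ∈ G k) →
    ‖∑ k ∈ σ.filter (· < N), z k‖ ≤ 2 * ‖∑ k ∈ σ, z k‖

/-- unconditional sequence of subspaces -/
def SignG (G : ℕ → Submodule 𝕜 X) (C : ℝ) : Prop :=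
  ∀ (σ : Finset ℕ) (z : ℕ → X), (∀ k, z k ∈ G k) → ∀ ε : ℕ → ℤˣ,
    ‖∑ k ∈ σ, ε k • z k‖ ≤ C * ‖∑ k ∈ σ, z k‖

/-- any two large subspaces of `Z` have angle zero -/
def HI (Z : Submodule 𝕜 X) : Prop :=
  ∀ U V : Submodule 𝕜 X, U ≤ Z → V ≤ Z → Large U → Large V → ∀ ε : ℝ, 0 < ε →
    ∃ u ∈ U, ∃ v ∈ V, ‖u - v‖ < ε * ‖u + v‖

/-- the operator `S` is singular for Euclidean factorisation -/
def NS (S : X →L[𝕜] X) : Prop :=
  ∀ ε : ℝ, 0 < ε → ∃ R : X →L[𝕜] X, ∀ L : ℝ, ∃ (F : Submodule 𝕜 X) (γ : ℝ),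
    FiniteDimensional 𝕜 F ∧ L ≤ γ ∧ ¬ Fac F (fun x => ‖R x‖) γ ∧
      Fac F (fun x => ‖S (R x)‖) (ε * γ)

/-- closed span of the vectors selected by `a` -/
def Ysp (𝕜 : Type w) [RCLike 𝕜] {X : Type u} [NormedAddCommGroup X] [NormedSpace 𝕜 X]
    (e : ℕ → X) (a : ℕ → Bool) : Submodule 𝕜 X :=
  (Submodule.span 𝕜 (e '' {i | a i = true})).topologicalClosure

theorem mem_Kr {ι : Type} {f : ι → X →ₗ[𝕜] 𝕜} {x : X} : x ∈ Kr f ↔ ∀ i, f i x = 0 := by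
  simp [Kr, Submodule.mem_iInf]

theorem Fac.mono {F : Submodule 𝕜 X} {p : X → ℝ} {K K' : ℝ} (h : Fac F p K) (hK : |K| ≤ K') :
    Fac F p K' := by
  obtain ⟨ι, inst, φ, h⟩ := h
  refine ⟨ι, inst, φ, fun x hx => ⟨(h x hx).1, (h x hx).2.trans ?_⟩⟩
  refine mul_le_mul_of_nonneg_right ?_ (sq_nonneg _)
  rw [← sq_abs K]
  exact pow_le_pow_left₀ (abs_nonneg _) hK 2

theorem Fac.abs {F : Submodule 𝕜 X} {p : X → ℝ} {K : ℝ} (h : Fac F p K) : Fac F p |K| :=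
  h.mono le_rfl

theorem Fac.anti {F F' : Submodule 𝕜 X} {p : X → ℝ} {K : ℝ} (h : Fac F p K) (hF : F' ≤ F) :
    Fac F' p K := by
  obtain ⟨ι, inst, φ, h⟩ := h
  exact ⟨ι, inst, φ, fun x hx => h x (hF hx)⟩

theorem Fac.dom {F : Submodule 𝕜 X} {p q : X → ℝ} {K M : ℝ} (h : Fac F p K)
    (hq : ∀ x ∈ F, q x ^ 2 ≤ M ^ 2 * p x ^ 2) : Fac F q (M * K) := by
  obtain ⟨ι, inst, φ, h⟩ := h
  have e : ∀ x, ∑ i, ‖(((M : ℝ) : 𝕜) • φ i) x‖ ^ 2 = M ^ 2 * ∑ i, ‖φ i x‖ ^ 2 := fun x => by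
    rw [Finset.mul_sum]
    refine Finset.sum_congr rfl fun i _ => ?_
    rw [LinearMap.smul_apply, norm_smul, RCLike.norm_ofReal, mul_pow, sq_abs]
  refine ⟨ι, inst, fun i => ((M : ℝ) : 𝕜) • φ i, fun x hx => ?_⟩
  rw [e]
  refine ⟨(hq x hx).trans (mul_le_mul_of_nonneg_left (h x hx).1 (sq_nonneg _)), ?_⟩
  rw [mul_pow, mul_assoc]
  exact mul_le_mul_of_nonneg_left (h x hx).2 (sq_nonneg _)

theorem Fac.dom' {F : Submodule 𝕜 X} {p q : X → ℝ} {K M : ℝ} (h : Fac F p K)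
    (h0 : ∀ x ∈ F, 0 ≤ q x) (hq : ∀ x ∈ F, q x ≤ M * p x) : Fac F q (M * K) :=
  h.dom fun x hx => by rw [← mul_pow]; exact pow_le_pow_left₀ (h0 x hx) (hq x hx) 2

theorem Fac.add {F : Submodule 𝕜 X} {p q r : X → ℝ} {K L : ℝ} (hK : 0 < K) (hL : 0 < L)
    (hp : Fac F p K) (hq : Fac F q L) (h0 : ∀ x ∈ F, 0 ≤ r x) (hr : ∀ x ∈ F, r x ≤ p x + q x) :
    Fac F r (K + L) := by
  obtain ⟨ι, inst, φ, h⟩ := hp
  obtain ⟨κ, inst', ψ, h'⟩ := hq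
  have e : ∀ (a : ℝ), 0 ≤ a → ∀ (f : X →ₗ[𝕜] 𝕜) x, ‖(((√a : ℝ) : 𝕜) • f) x‖ ^ 2 = a * ‖f x‖ ^ 2 :=
    fun a ha f x => by
      rw [LinearMap.smul_apply, norm_smul, RCLike.norm_ofReal, mul_pow, sq_abs, Real.sq_sqrt ha]
  refine ⟨ι ⊕ κ, inferInstance, Sum.elim (fun i => ((√((K + L) / K) : ℝ) : 𝕜) • φ i)
    (fun j => ((√((K + L) / L) : ℝ) : 𝕜) • ψ j), fun x hx => ?_⟩
  rw [Fintype.sum_sum_type]
  simp only [Sum.elim_inl, Sum.elim_inr]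
  simp only [e _ (by positivity : 0 ≤ (K + L) / K), e _ (by positivity : 0 ≤ (K + L) / L)]
  rw [← Finset.mul_sum, ← Finset.mul_sum]
  obtain ⟨a1, a2⟩ := h x hx
  obtain ⟨b1, b2⟩ := h' x hx
  set A := ∑ i, ‖φ i x‖ ^ 2
  set B := ∑ i, ‖ψ i x‖ ^ 2
  constructor
  · have h1 : r x ^ 2 ≤ (p x + q x) ^ 2 := pow_le_pow_left₀ (h0 x hx) (hr x hx) 2
    have h2 : (p x + q x) ^ 2 ≤ (K + L) / K * p x ^ 2 + (K + L) / L * q x ^ 2 := by
      have h3 : (K + L) / K * p x ^ 2 + (K + L) / L * q x ^ 2 - (p x + q x) ^ 2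
          = (L * p x - K * q x) ^ 2 / (K * L) := by field_simp; ring
      have h4 : 0 ≤ (L * p x - K * q x) ^ 2 / (K * L) := by positivity
      linarith
    have h5 := mul_le_mul_of_nonneg_left a1 (by positivity : 0 ≤ (K + L) / K)
    have h6 := mul_le_mul_of_nonneg_left b1 (by positivity : 0 ≤ (K + L) / L)
    linarith
  · have h5 := mul_le_mul_of_nonneg_left a2 (by positivity : 0 ≤ (K + L) / K)
    have h6 := mul_le_mul_of_nonneg_left b2 (by positivity : 0 ≤ (K + L) / L)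
    have h7 : (K + L) / K * (K ^ 2 * ‖x‖ ^ 2) + (K + L) / L * (L ^ 2 * ‖x‖ ^ 2)
        = (K + L) ^ 2 * ‖x‖ ^ 2 := by field_simp
    linarith

/-- pulling back along a linear map -/
theorem Fac.comap {Y : Type v} [NormedAddCommGroup Y] [NormedSpace 𝕜 Y] {G : Submodule 𝕜 Y}
    {p : Y → ℝ} {K M : ℝ} (h : Fac G p K) (j : X →ₗ[𝕜] Y) {F : Submodule 𝕜 X}
    (hj : ∀ x ∈ F, j x ∈ G) (hM : ∀ x ∈ F, ‖j x‖ ≤ M * ‖x‖) :
    Fac F (fun x => p (j x)) (M * K) := by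
  obtain ⟨ι, inst, φ, h⟩ := h
  refine ⟨ι, inst, fun i => (φ i).comp j, fun x hx => ⟨(h _ (hj x hx)).1,
    (h _ (hj x hx)).2.trans ?_⟩⟩
  have h1 := pow_le_pow_left₀ (norm_nonneg _) (hM x hx) 2
  calc K ^ 2 * ‖j x‖ ^ 2 ≤ K ^ 2 * (M * ‖x‖) ^ 2 := mul_le_mul_of_nonneg_left h1 (sq_nonneg _)
    _ = _ := by ring

theorem Hilb.comap {Y : Type v} [NormedAddCommGroup Y] [NormedSpace 𝕜 Y] {G : Submodule 𝕜 Y}
    {K M A : ℝ} (h : Hilb G K) (j : X →ₗ[𝕜] Y) {F : Submodule 𝕜 X}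
    (hj : ∀ x ∈ F, j x ∈ G) (hM : ∀ x ∈ F, ‖j x‖ ≤ M * ‖x‖) (hA : ∀ x ∈ F, ‖x‖ ≤ A * ‖j x‖) :
    Hilb F (A * (M * K)) :=
  (Fac.comap h j hj hM).dom' (fun _ _ => norm_nonneg _) hA

/-- pushing forward along an isometric embedding -/
theorem Hilb.map {Y : Type v} [NormedAddCommGroup Y] [NormedSpace 𝕜 Y] {F : Submodule 𝕜 X}
    {K : ℝ} (h : Hilb F K) (j : X →ₗ[𝕜] Y) (hj : ∀ x, ‖j x‖ = ‖x‖) : Hilb (F.map j) K := by
  have hinj : LinearMap.ker j = ⊥ := LinearMap.ker_eq_bot'.2 fun x hx => by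
    rw [← norm_eq_zero, ← hj, hx, norm_zero]
  obtain ⟨g, hg⟩ := j.exists_leftInverse_of_injective hinj
  have hg' : ∀ x, g (j x) = x := fun x => LinearMap.congr_fun hg x
  have := Hilb.comap (A := 1) (M := 1) h g (F := F.map j)
    (by rintro _ ⟨x, hx, rfl⟩; rw [hg']; exact hx)
    (by rintro _ ⟨x, -, rfl⟩; rw [hg', hj, one_mul])
    (by rintro _ ⟨x, -, rfl⟩; rw [hg', hj, one_mul])
  rwa [one_mul, one_mul] at this

theorem Large.mono {U U' : Submodule 𝕜 X} (h : Large U) (hU : U ≤ U') : Large U' := fun K => by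
  obtain ⟨F, h1, h2, h3⟩ := h K
  exact ⟨F, h1.trans hU, h2, h3⟩

theorem Large.map {Y : Type v} [NormedAddCommGroup Y] [NormedSpace 𝕜 Y] {U : Submodule 𝕜 X}
    (h : Large U) (j : X →ₗ[𝕜] Y) (hj : ∀ x, ‖j x‖ = ‖x‖) : Large (U.map j) := fun K => by
  obtain ⟨F, h1, h2, h3⟩ := h K
  refine ⟨F.map j, Submodule.map_mono h1, inferInstance, fun h4 => h3 ?_⟩
  have := Hilb.comap (A := 1) (M := 1) h4 j (F := F) (fun x hx => ⟨x, hx, rfl⟩)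
    (fun x _ => by rw [hj, one_mul]) (fun x _ => by rw [hj, one_mul])
  rwa [one_mul, one_mul] at this

theorem large_iSup {G : ℕ → Submodule 𝕜 X} (hG : ∀ k, FiniteDimensional 𝕜 (G k))
    (h : ∀ k : ℕ, ¬ Hilb (G k) k) : Large (⨆ k, G k) := fun K => by
  obtain ⟨k, hk⟩ := exists_nat_ge |K|
  exact ⟨G k, le_iSup G k, hG k, fun h1 => h k (Fac.mono h1 hk)⟩

theorem hilb_bot (K : ℝ) : Hilb (⊥ : Submodule 𝕜 X) K :=
  ⟨Empty, inferInstance, fun i => i.elim, fun x hx => by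
    rw [(Submodule.mem_bot 𝕜).1 hx]; simp⟩

/-- every finite-dimensional space is Euclidean with some constant -/
theorem exists_hilb (F : Submodule 𝕜 X) [FiniteDimensional 𝕜 F] : ∃ K, 0 < K ∧ Hilb F K := by
  let e : F ≃L[𝕜] EuclideanSpace 𝕜 (Fin (Module.finrank 𝕜 F)) :=
    ContinuousLinearEquiv.ofFinrankEq (by simp)
  obtain ⟨g, hg⟩ := F.subtype.exists_leftInverse_of_injective F.ker_subtype
  have hg' : ∀ x (hx : x ∈ F), g x = ⟨x, hx⟩ := fun x hx => LinearMap.congr_fun hg ⟨x, hx⟩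
  have h0 : Hilb (⊤ : Submodule 𝕜 (EuclideanSpace 𝕜 (Fin (Module.finrank 𝕜 F)))) 1 :=
    ⟨Fin (Module.finrank 𝕜 F), inferInstance, fun i => (EuclideanSpace.proj i).toLinearMap,
      fun x _ => by
        have := EuclideanSpace.norm_sq_eq x
        simp only [one_pow, one_mul]
        exact ⟨this.le, this.ge⟩⟩
  have h1 := Hilb.comap h0 (e.toLinearEquiv.toLinearMap.comp g) (F := F)
    (M := ‖e.toContinuousLinearMap‖) (A := ‖e.symm.toContinuousLinearMap‖) (fun _ _ => trivial)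
    (fun x hx => by
      rw [LinearMap.comp_apply, hg' x hx]
      exact e.toContinuousLinearMap.le_opNorm ⟨x, hx⟩)
    (fun x hx => by
      rw [LinearMap.comp_apply, hg' x hx]
      have := e.symm.toContinuousLinearMap.le_opNorm (e ⟨x, hx⟩)
      simpa using this)
  exact ⟨_, by positivity, Fac.mono h1 (le_add_of_nonneg_right zero_le_one)⟩

theorem Mz.single {G : ℕ → Submodule 𝕜 X} (h : Mz G) {σ : Finset ℕ} {z : ℕ → X}
    (hz : ∀ k, z k ∈ G k) {k : ℕ} (hk : k ∈ σ) : ‖z k‖ ≤ 4 * ‖∑ k ∈ σ, z k‖ := by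
  have h1 := h σ (k + 1) z hz
  have h2 := h σ k z hz
  have e : σ.filter (· < k + 1) = insert k (σ.filter (· < k)) := by
    ext j
    simp only [Finset.mem_filter, Finset.mem_insert]
    constructor
    · rintro ⟨a, b⟩
      rcases (Nat.lt_succ_iff.1 b).lt_or_eq with c | c
      · exact Or.inr ⟨a, c⟩
      · exact Or.inl c
    · rintro (rfl | ⟨a, b⟩)
      · exact ⟨hk, Nat.lt_succ_self _⟩
      · exact ⟨a, by omega⟩
  rw [e, Finset.sum_insert (by simp)] at h1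
  have h3 := norm_sub_le (z k + ∑ j ∈ σ.filter (· < k), z j) (∑ j ∈ σ.filter (· < k), z j)
  rw [add_sub_cancel_right] at h3
  linarith

theorem mem_iSup_sum {G : ℕ → Submodule 𝕜 X} {x : X} (hx : x ∈ ⨆ k, G k) :
    ∃ (σ : Finset ℕ) (z : ℕ → X), (∀ k, z k ∈ G k) ∧ x = ∑ k ∈ σ, z k := by
  obtain ⟨f, h1, h2⟩ := (Submodule.mem_iSup_iff_exists_finsupp G x).1 hx
  exact ⟨f.support, f, h1, h2.symm⟩

end Pool.Agent.Lib.MP_435322_an.UD
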