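import Pool.Agent.Lib.MP_435322_an.HBasic

/-! Finite codimension and Euclidean floors. -/

namespace Pool.Agent.Lib.MP_435322_an.UD

open Finset Filter

universe u v w

variable {𝕜 : Type w} [RCLike 𝕜] {X : Type u} [NormedAddCommGroup X] [NormedSpace 𝕜 X]

theorem hcodim_one (f : X →ₗ[𝕜] 𝕜) {F : Submodule 𝕜 X} [FiniteDimensional 𝕜 F] (u : X →ₗ[𝕜] X)
    {K M : ℝ} (hK : 0 ≤ K) (hM : 0 ≤ M) (hu : ∀ x ∈ F, ‖u x‖ ≤ M * ‖x‖)
    (h : Fac (F ⊓ LinearMap.ker f) (fun x => ‖u x‖) K) :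
    Fac F (fun x => ‖u x‖) (5 * (K + M)) := by
  let g : F →L[𝕜] 𝕜 := LinearMap.toContinuousLinearMap (f.domRestrict F)
  have hg : ∀ x (hx : x ∈ F), ‖f x‖ ≤ ‖g‖ * ‖x‖ := fun x hx => g.le_opNorm ⟨x, hx⟩
  rcases (norm_nonneg g).eq_or_lt with h0 | h0
  · refine (h.anti fun x hx => ⟨hx, ?_⟩).mono (by rw [abs_of_nonneg hK]; linarith)
    have := hg x hx
    rw [← h0, zero_mul] at this
    exact norm_le_zero_iff.1 this
  obtain ⟨y, hy1, hy2⟩ := g.exists_lt_apply_of_lt_opNorm (half_lt_self h0)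
  have hy3 : 0 < ‖f y‖ := (half_pos h0).trans hy2
  have hy4 : f y ≠ 0 := norm_pos_iff.1 hy3
  set x0 : X := (f y)⁻¹ • (y : X) with hx0
  have h1 : x0 ∈ F := F.smul_mem _ y.2
  have h2 : f x0 = 1 := by rw [hx0, map_smul, smul_eq_mul, inv_mul_cancel₀ hy4]
  have h3 : ∀ x ∈ F, ‖f x‖ * ‖x0‖ ≤ 2 * ‖x‖ := fun x hx => by
    rw [hx0, norm_smul, norm_inv, ← mul_assoc, mul_comm, ← mul_assoc, ← div_eq_mul_inv,
      div_le_iff₀ hy3]
    have h4 : ‖(y : X)‖ ≤ 1 := hy1.le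
    have h5 : ‖g‖ / 2 ≤ ‖f y‖ := hy2.le
    have h6 := hg x hx
    have h7 := mul_le_mul_of_nonneg_right h4 (norm_nonneg (f x))
    have h8 := mul_le_mul_of_nonneg_left h5 (norm_nonneg x)
    linarith
  let π : X →ₗ[𝕜] X := LinearMap.id - f.smulRight x0
  have hπ : ∀ x, π x = x - f x • x0 := fun x => rfl
  obtain ⟨ι, inst, φ, hφ⟩ := h
  refine ⟨Option ι, inferInstance, fun i => i.elim (((√2 * (M * ‖x0‖) : ℝ) : 𝕜) • f)
    (fun i => ((√2 : ℝ) : 𝕜) • (φ i).comp π), fun x hx => ?_⟩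
  have h4 : π x ∈ F ⊓ LinearMap.ker f := ⟨F.sub_mem hx (F.smul_mem _ h1), by
    show f (π x) = 0
    rw [hπ, map_sub, map_smul, h2, smul_eq_mul, mul_one, sub_self]⟩
  have h5 : ‖π x‖ ≤ 3 * ‖x‖ := by
    have := norm_sub_le x (f x • x0)
    rw [norm_smul] at this
    rw [hπ]; linarith [h3 x hx]
  obtain ⟨a1, a2⟩ := hφ _ h4
  have h6 : ‖u x‖ ≤ ‖u (π x)‖ + M * ‖x0‖ * ‖f x‖ := by
    have e : u x = u (π x) + f x • u x0 := by rw [hπ, map_sub, map_smul, sub_add_cancel]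
    rw [e]
    refine (norm_add_le _ _).trans (add_le_add_right ?_ _)
    rw [norm_smul, mul_comm]
    exact mul_le_mul_of_nonneg_right (hu _ h1) (norm_nonneg _)
  have s2 : √2 ^ 2 = (2 : ℝ) := Real.sq_sqrt (by norm_num)
  have e1 : ∑ i : Option ι, ‖(i.elim (((√2 * (M * ‖x0‖) : ℝ) : 𝕜) • f)
      (fun i => ((√2 : ℝ) : 𝕜) • (φ i).comp π) : X →ₗ[𝕜] 𝕜) x‖ ^ 2
      = 2 * (M * ‖x0‖ * ‖f x‖) ^ 2 + 2 * ∑ i, ‖φ i (π x)‖ ^ 2 := by
    rw [Fintype.sum_option, Finset.mul_sum]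
    simp only [Option.elim, LinearMap.smul_apply, LinearMap.comp_apply, norm_smul,
      RCLike.norm_ofReal, mul_pow, sq_abs, s2]
    ring
  rw [e1]
  have h7 := pow_le_pow_left₀ (norm_nonneg _) h6 2
  have h8 : M * ‖x0‖ * ‖f x‖ ≤ M * (2 * ‖x‖) := by
    rw [mul_assoc, mul_comm ‖x0‖]; exact mul_le_mul_of_nonneg_left (h3 x hx) hM
  have h9 := pow_le_pow_left₀ (by positivity) h8 2
  have h10 := mul_le_mul_of_nonneg_left (pow_le_pow_left₀ (norm_nonneg _) h5 2) (sq_nonneg K)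
  have h11 := mul_nonneg (mul_nonneg hK hM) (sq_nonneg ‖x‖)
  have h12 := mul_nonneg (sq_nonneg K) (sq_nonneg ‖x‖)
  have h13 := mul_nonneg (sq_nonneg M) (sq_nonneg ‖x‖)
  constructor
  · nlinarith [sq_nonneg (‖u (π x)‖ - M * ‖x0‖ * ‖f x‖)]
  · nlinarith

theorem hcodim_set {ι : Type} (f : ι → X →ₗ[𝕜] 𝕜) (u : X →ₗ[𝕜] X) {K M : ℝ} (hK : 0 ≤ K)
    (hM : 0 ≤ M) (s : Finset ι) : ∀ (F : Submodule 𝕜 X) [FiniteDimensional 𝕜 F],
    (∀ x ∈ F, ‖u x‖ ≤ M * ‖x‖) → Fac (F ⊓ ⨅ i ∈ s, LinearMap.ker (f i)) (fun x => ‖u x‖) K →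
    Fac F (fun x => ‖u x‖) (5 ^ s.card * (K + 2 * M) - 2 * M) := by
  classical
  induction s using Finset.induction_on with
  | empty =>
    intro F _ _ h
    simpa using h
  | insert a s ha ih =>
    intro F _ hu h
    rw [Finset.iInf_insert, ← inf_assoc] at h
    have h1 := ih (F ⊓ LinearMap.ker (f a)) (fun x hx => hu x hx.1) h
    have h2 : (1 : ℝ) ≤ 5 ^ s.card := one_le_pow₀ (by norm_num)
    have h3 : 0 ≤ 5 ^ s.card * (K + 2 * M) - 2 * M := by nlinarith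
    refine (hcodim_one (f a) u h3 hM hu h1).mono ?_
    rw [abs_of_nonneg (by positivity), Finset.card_insert_of_notMem ha, pow_succ]
    nlinarith

theorem Fac.codim {ι : Type} [Fintype ι] (f : ι → X →ₗ[𝕜] 𝕜) {F : Submodule 𝕜 X}
    [FiniteDimensional 𝕜 F] (u : X →ₗ[𝕜] X) {K M : ℝ} (hK : 0 ≤ K) (hM : 0 ≤ M)
    (hu : ∀ x ∈ F, ‖u x‖ ≤ M * ‖x‖) (h : Fac (F ⊓ Kr f) (fun x => ‖u x‖) K) :
    Fac F (fun x => ‖u x‖) (5 ^ Fintype.card ι * (K + 2 * M)) := by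
  have h1 := hcodim_set f u hK hM Finset.univ F hu (by simpa [Kr] using h)
  have h2 : (1 : ℝ) ≤ 5 ^ Fintype.card ι := one_le_pow₀ (by norm_num)
  refine h1.mono ?_
  rw [Finset.card_univ, abs_of_nonneg (by nlinarith)]
  linarith

theorem Large.inf_Kr {U : Submodule 𝕜 X} (h : Large U) {ι : Type} [Fintype ι]
    (f : ι → X →ₗ[𝕜] 𝕜) : Large (U ⊓ Kr f) := fun K => by
  obtain ⟨F, h1, h2, h3⟩ := h (5 ^ Fintype.card ι * (|K| + 2 * 1))
  exact ⟨F ⊓ Kr f, inf_le_inf_right _ h1, inferInstance, fun h4 => h3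
    (Fac.codim f LinearMap.id (abs_nonneg K) zero_le_one (fun x _ => by simp) (Fac.abs h4))⟩

theorem Large.inf_of_le_sup {U F S : Submodule 𝕜 X} (h : Large U) [FiniteDimensional 𝕜 F]
    (hU : U ≤ F ⊔ S) : Large (U ⊓ S) := by
  let E := F.map S.mkQ
  let b := Module.finBasis 𝕜 E
  choose g hg using fun i => (b.coord i).exists_extend
  refine (h.inf_Kr fun i => (g i).comp S.mkQ).mono fun x hx => ⟨hx.1, ?_⟩
  obtain ⟨y, hy, z, hz, rfl⟩ := Submodule.mem_sup.1 (hU hx.1)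
  have h1 : S.mkQ (y + z) = S.mkQ y := by
    rw [map_add, (Submodule.Quotient.mk_eq_zero S).2 hz |> fun h => (show S.mkQ z = 0 from h),
      add_zero]
  have h2 : (⟨S.mkQ y, y, hy, rfl⟩ : E) = 0 := by
    refine b.ext_elem fun i => ?_
    have h3 := mem_Kr.1 hx.2 i
    rw [LinearMap.comp_apply, h1] at h3
    have h4 := LinearMap.congr_fun (hg i) ⟨S.mkQ y, y, hy, rfl⟩
    rw [map_zero, Finsupp.zero_apply]
    exact h4.symm.trans h3
  have h5 : S.mkQ (y + z) = 0 := h1.trans (congrArg Subtype.val h2)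
  exact (Submodule.Quotient.mk_eq_zero S).1 h5

theorem floor_exists {ι : Type} [Fintype ι] {F : Submodule 𝕜 X} [FiniteDimensional 𝕜 F]
    (hd : Fintype.card ι ≤ Module.finrank 𝕜 F) {K : ℝ} (h : Hilb F K) :
    ∃ w : ι → X, (∀ i, w i ∈ F) ∧ ∀ c : ι → 𝕜,
      ‖∑ i, c i • w i‖ ^ 2 ≤ ∑ i, ‖c i‖ ^ 2 ∧ ∑ i, ‖c i‖ ^ 2 ≤ K ^ 2 * ‖∑ i, c i • w i‖ ^ 2 := by
  obtain ⟨κ, inst, φ, hφ⟩ := h
  let A : F →ₗ[𝕜] EuclideanSpace 𝕜 κ :=
    (WithLp.linearEquiv 2 𝕜 (κ → 𝕜)).symm.toLinearMap.comp ((LinearMap.pi φ).domRestrict F)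
  have hA : ∀ x : F, ‖A x‖ ^ 2 = ∑ i, ‖φ i x‖ ^ 2 := fun x => EuclideanSpace.norm_sq_eq _
  have hinj : Function.Injective A := by
    rw [injective_iff_map_eq_zero]
    intro x hx
    have h1 := (hφ x x.2).1
    rw [← hA, hx, norm_zero] at h1
    have h2 : ‖(x : X)‖ = 0 := by nlinarith [norm_nonneg (x : X)]
    exact Subtype.ext (norm_eq_zero.1 h2)
  let e := LinearEquiv.ofInjective A hinj
  obtain ⟨j⟩ : Nonempty (ι ↪ Fin (Module.finrank 𝕜 (LinearMap.range A))) :=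
    Function.Embedding.nonempty_of_card_le (by rw [Fintype.card_fin, ← e.finrank_eq]; exact hd)
  let b := stdOrthonormalBasis 𝕜 (LinearMap.range A)
  have hb : Orthonormal 𝕜 fun i => b (j i) := b.orthonormal.comp j j.injective
  refine ⟨fun i => e.symm (b (j i)), fun i => (e.symm (b (j i))).2, fun c => ?_⟩
  let x : F := ∑ i, c i • e.symm (b (j i))
  have h1 : (x : X) = ∑ i, c i • (e.symm (b (j i)) : X) := by simp [x]
  have h2 : e x = ∑ i, c i • b (j i) := by simp [x]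
  have h3 : ‖A x‖ ^ 2 = ∑ i, ‖c i‖ ^ 2 := by
    have h4 : ‖A x‖ = ‖e x‖ := rfl
    rw [h4, h2, @norm_sq_eq_re_inner 𝕜, hb.inner_sum c c, map_sum]
    refine Finset.sum_congr rfl fun i _ => ?_
    rw [RCLike.conj_mul]
    norm_cast
  rw [← h1, ← h3, hA]
  exact hφ x x.2

theorem finrank_inf_Kr {ι : Type} [Fintype ι] (f : ι → X →ₗ[𝕜] 𝕜) (F : Submodule 𝕜 X)
    [FiniteDimensional 𝕜 F] :
    Module.finrank 𝕜 F ≤ Module.finrank 𝕜 (F ⊓ Kr f : Submodule 𝕜 X) + Fintype.card ι := by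
  let A : F →ₗ[𝕜] (ι → 𝕜) := (LinearMap.pi f).domRestrict F
  have h1 := A.finrank_range_add_finrank_ker
  have h2 : Module.finrank 𝕜 (LinearMap.range A) ≤ Fintype.card ι :=
    (Submodule.finrank_le _).trans (by simp)
  have h3 : Module.finrank 𝕜 (LinearMap.ker A) ≤ Module.finrank 𝕜 (F ⊓ Kr f : Submodule 𝕜 X) := by
    rw [← Submodule.finrank_map_subtype_eq F]
    refine Submodule.finrank_mono ?_
    rintro _ ⟨x, hx, rfl⟩
    exact ⟨x.2, mem_Kr.2 fun i => congrFun (LinearMap.mem_ker.1 hx) i⟩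
  omega

end Pool.Agent.Lib.MP_435322_an.UD
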