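import Pool.Agent.Lib.MP_435322_an.HBasic

/-! The isomorphism relation between spans of subsequences is analytic. -/

namespace Pool.Agent.Lib.MP_435322_an.UD

open Finset Filter

universe u v w

variable {𝕜 : Type w} [RCLike 𝕜] {X : Type u} [NormedAddCommGroup X] [NormedSpace 𝕜 X]

/-- a closed subspace on which an operator is bounded below is isomorphic to its image -/
theorem hisoa_equiv [CompleteSpace X] {P : Type v} [NormedAddCommGroup P] [NormedSpace 𝕜 P]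
    [CompleteSpace P] (G : Submodule 𝕜 P) (hG : IsClosed (G : Set P)) (π : P →L[𝕜] X) (K : NNReal)
    (hK : ∀ p ∈ G, ‖p‖ ≤ K * ‖π p‖) (e : ℕ → X) (a : ℕ → Bool)
    (h1 : ∀ p ∈ G, π p ∈ Ysp 𝕜 e a) (h2 : ∀ i, a i = true → ∃ p ∈ G, π p = e i) :
    Nonempty (G ≃L[𝕜] Ysp 𝕜 e a) := by
  have : CompleteSpace G := hG.completeSpace_coe
  let T : G →L[𝕜] X := π.comp G.subtypeL
  have hT : AntilipschitzWith K T := T.antilipschitz_of_bound fun p => hK p.1 p.2
  have hc : IsClosed (Set.range T) := hT.isClosed_range T.uniformContinuous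
  have hr : T.range = Ysp 𝕜 e a := by
    apply le_antisymm
    · rintro _ ⟨p, rfl⟩
      exact h1 p.1 p.2
    · refine Submodule.topologicalClosure_minimal _ (Submodule.span_le.2 ?_) hc
      rintro _ ⟨i, hi, rfl⟩
      obtain ⟨p, hp, h⟩ := h2 i hi
      exact ⟨⟨p, hp⟩, h⟩
  exact ⟨(T.equivRange hT.injective hc).trans (ContinuousLinearEquiv.ofEq _ _ hr)⟩

/-- the set of pairs close to the span is open -/
theorem hisoa_open (e : ℕ → X) (r : ℝ) :
    IsOpen {q : (ℕ → Bool) × X | ∃ y ∈ Submodule.span 𝕜 (e '' {i | q.1 i = true}),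
      dist q.2 y < r} := by
  rw [isOpen_iff_forall_mem_open]
  rintro q ⟨y, hy, hq⟩
  obtain ⟨c, hc, rfl⟩ := (Finsupp.mem_span_image_iff_linearCombination 𝕜).1 hy
  refine ⟨(⋂ i ∈ c.support, {q' : (ℕ → Bool) × X | q'.1 i = true}) ∩
    {q' | dist q'.2 (Finsupp.linearCombination 𝕜 e c) < r}, ?_, ?_, ?_⟩
  · rintro q' ⟨h1, h2⟩
    refine ⟨_, (Finsupp.mem_span_image_iff_linearCombination 𝕜).2 ⟨c, ?_, rfl⟩, h2⟩
    rw [Finsupp.mem_supported]
    intro i hi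
    exact Set.mem_iInter₂.1 h1 i hi
  · refine IsOpen.inter (isOpen_biInter_finset fun i _ => ?_) ?_
    · have hc : Continuous fun q' : (ℕ → Bool) × X => q'.1 i := by fun_prop
      exact (isOpen_discrete ({true} : Set Bool)).preimage hc
    · exact isOpen_lt (continuous_snd.dist continuous_const) continuous_const
  · refine ⟨Set.mem_iInter₂.2 fun i hi => ?_, hq⟩
    exact (Finsupp.mem_supported 𝕜 c).1 hc hi

theorem hisoa_meas {Ω : Type v} [TopologicalSpace Ω] [MeasurableSpace Ω] [OpensMeasurableSpace Ω]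
    (e : ℕ → X) {a : Ω → ℕ → Bool} {x : Ω → X} (ha : Continuous a) (hx : Continuous x) :
    MeasurableSet {q : Ω | x q ∈ Ysp 𝕜 e (a q)} := by
  have h : {q : Ω | x q ∈ Ysp 𝕜 e (a q)} = ⋂ k : ℕ, (fun q => (a q, x q)) ⁻¹'
      {q : (ℕ → Bool) × X | ∃ y ∈ Submodule.span 𝕜 (e '' {i | q.1 i = true}),
        dist q.2 y < 1 / ((k : ℝ) + 1)} := by
    ext q
    simp only [Set.mem_ofPred_eq, Set.mem_iInter, Set.mem_preimage]
    have h0 : x q ∈ Ysp 𝕜 e (a q) ↔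
        x q ∈ closure (Submodule.span 𝕜 (e '' {i | a q i = true}) : Set X) := Iff.rfl
    rw [h0, Metric.mem_closure_iff]
    constructor
    · intro h k
      exact h _ Nat.one_div_pos_of_nat
    · intro h ε hε
      obtain ⟨k, hk⟩ := exists_nat_one_div_lt hε
      obtain ⟨y, hy, h'⟩ := h k
      exact ⟨y, hy, h'.trans hk⟩
  rw [h]
  exact MeasurableSet.iInter fun k => ((hisoa_open e _).preimage (ha.prodMk hx)).measurableSet

/-- witnesses for an isomorphism: a family spanning a dense part of its graph -/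
def hisoa_W (𝕜 : Type w) [RCLike 𝕜] {X : Type u} [NormedAddCommGroup X] [NormedSpace 𝕜 X]
    (e : ℕ → X) (K : ℕ) : Set (((ℕ → Bool) × (ℕ → Bool)) × (ℕ ⊕ ℕ → X × X)) :=
  {q | (∀ c : ℕ ⊕ ℕ →₀ 𝕜,
      ‖Finsupp.linearCombination 𝕜 q.2 c‖ ≤ K * ‖(Finsupp.linearCombination 𝕜 q.2 c).1‖ ∧
      ‖Finsupp.linearCombination 𝕜 q.2 c‖ ≤ K * ‖(Finsupp.linearCombination 𝕜 q.2 c).2‖) ∧
    (∀ i, q.1.1 i = true → (q.2 (Sum.inl i)).1 = e i) ∧
    (∀ i, q.1.2 i = true → (q.2 (Sum.inr i)).2 = e i)} ∩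
  ⋂ n, ({q | (q.2 n).1 ∈ Ysp 𝕜 e q.1.1} ∩ {q | (q.2 n).2 ∈ Ysp 𝕜 e q.1.2})

theorem hisoa_closed_imp {Ω : Type v} [TopologicalSpace Ω] {b : Ω → Bool} {x : Ω → X}
    (hb : Continuous b) (hx : Continuous x) (y : X) : IsClosed {q : Ω | b q = true → x q = y} := by
  have h : {q : Ω | b q = true → x q = y} = b ⁻¹' {false} ∪ {q | x q = y} := by
    ext q
    cases h : b q <;> simp [h]
  rw [h]
  exact ((isClosed_discrete _).preimage hb).union (isClosed_eq hx continuous_const)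

theorem hisoa_W_analytic [CompleteSpace X] [TopologicalSpace.SeparableSpace X] (e : ℕ → X)
    (K : ℕ) : MeasureTheory.AnalyticSet (hisoa_W 𝕜 e K) := by
  have : SecondCountableTopology X := UniformSpace.secondCountable_of_separable X
  have : PolishSpace (((ℕ → Bool) × (ℕ → Bool)) × (ℕ ⊕ ℕ → X × X)) :=
    @instPolishSpaceOfSeparableSpaceOfIsCompletelyMetrizableSpace _ _ inferInstance inferInstance
  borelize (((ℕ → Bool) × (ℕ → Bool)) × (ℕ ⊕ ℕ → X × X))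
  refine MeasurableSet.analyticSet (MeasurableSet.inter (IsClosed.measurableSet ?_)
    (MeasurableSet.iInter fun n => MeasurableSet.inter ?_ ?_))
  · simp only [Set.ofPred_and, Set.ofPred_forall]
    refine IsClosed.inter (isClosed_iInter fun c => ?_)
      (IsClosed.inter (isClosed_iInter fun i => ?_) (isClosed_iInter fun i => ?_))
    · have hc : Continuous fun q : ((ℕ → Bool) × (ℕ → Bool)) × (ℕ ⊕ ℕ → X × X) =>
          Finsupp.linearCombination 𝕜 q.2 c := by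
        simp only [Finsupp.linearCombination_apply, Finsupp.sum]
        exact continuous_finsetSum _ fun i _ => by fun_prop
      exact IsClosed.inter (isClosed_le hc.norm (continuous_const.mul hc.fst.norm))
        (isClosed_le hc.norm (continuous_const.mul hc.snd.norm))
    · exact hisoa_closed_imp (by fun_prop) (by fun_prop) _
    · exact hisoa_closed_imp (by fun_prop) (by fun_prop) _
  · exact hisoa_meas e (by fun_prop) (by fun_prop)
  · exact hisoa_meas e (by fun_prop) (by fun_prop)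

theorem hisoa_of_W [CompleteSpace X] {e : ℕ → X} {K : ℕ}
    {q : ((ℕ → Bool) × (ℕ → Bool)) × (ℕ ⊕ ℕ → X × X)} (hq : q ∈ hisoa_W 𝕜 e K) :
    Nonempty (Ysp 𝕜 e q.1.1 ≃L[𝕜] Ysp 𝕜 e q.1.2) := by
  obtain ⟨⟨h1, h2, h3⟩, h4⟩ := hq
  rw [Set.mem_iInter] at h4
  let G : Submodule 𝕜 (X × X) := (Submodule.span 𝕜 (Set.range q.2)).topologicalClosure
  have hG : IsClosed (G : Set (X × X)) := Submodule.isClosed_topologicalClosure _
  have hmem : ∀ n, q.2 n ∈ G := fun n =>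
    Submodule.le_topologicalClosure _ (Submodule.subset_span ⟨n, rfl⟩)
  have key : ∀ (π : X × X →L[𝕜] X) (a : ℕ → Bool),
      (∀ c : ℕ ⊕ ℕ →₀ 𝕜, ‖Finsupp.linearCombination 𝕜 q.2 c‖ ≤
        K * ‖π (Finsupp.linearCombination 𝕜 q.2 c)‖) →
      (∀ n, π (q.2 n) ∈ Ysp 𝕜 e a) → (∀ i, a i = true → ∃ n, π (q.2 n) = e i) →
      Nonempty (G ≃L[𝕜] Ysp 𝕜 e a) := by
    intro π a g1 g2 g3
    refine hisoa_equiv G hG π K (fun p hp => ?_) e a (fun p hp => ?_) (fun i hi => ?_)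
    · have hcl : IsClosed {p : X × X | ‖p‖ ≤ K * ‖π p‖} :=
        isClosed_le continuous_norm (continuous_const.mul π.continuous.norm)
      refine closure_minimal (s := (Submodule.span 𝕜 (Set.range q.2) : Set (X × X))) ?_ hcl hp
      intro p hp
      obtain ⟨c, rfl⟩ := (Finsupp.mem_span_range_iff_exists_finsupp.1 hp)
      exact g1 c
    · have hle : G ≤ (Ysp 𝕜 e a).comap (π : X × X →ₗ[𝕜] X) := by
        refine Submodule.topologicalClosure_minimal _ (Submodule.span_le.2 ?_) ?_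
        · rintro _ ⟨n, rfl⟩
          exact g2 n
        · exact (Submodule.isClosed_topologicalClosure _).preimage π.continuous
      exact hle hp
    · obtain ⟨n, hn⟩ := g3 i hi
      exact ⟨_, hmem n, hn⟩
  obtain ⟨A⟩ := key (ContinuousLinearMap.fst 𝕜 X X) q.1.1 (fun c => (h1 c).1)
    (fun n => (h4 n).1) (fun i hi => ⟨_, h2 i hi⟩)
  obtain ⟨B⟩ := key (ContinuousLinearMap.snd 𝕜 X X) q.1.2 (fun c => (h1 c).2)
    (fun n => (h4 n).2) (fun i hi => ⟨_, h3 i hi⟩)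
  exact ⟨A.symm.trans B⟩

theorem hisoa_to_W {e : ℕ → X} {a b : ℕ → Bool} (T : Ysp 𝕜 e a ≃L[𝕜] Ysp 𝕜 e b) :
    ∃ (K : ℕ) (z : ℕ ⊕ ℕ → X × X), ((a, b), z) ∈ hisoa_W 𝕜 e K := by
  classical
  have hm : ∀ (a : ℕ → Bool) i, a i = true → e i ∈ Ysp 𝕜 e a := fun a i hi =>
    Submodule.le_topologicalClosure _ (Submodule.subset_span ⟨i, hi, rfl⟩)
  let y : ℕ ⊕ ℕ → Ysp 𝕜 e a := Sum.elim
    (fun i => if h : a i = true then ⟨e i, hm a i h⟩ else 0)
    (fun j => if h : b j = true then T.symm ⟨e j, hm b j h⟩ else 0)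
  let Φ : Ysp 𝕜 e a →ₗ[𝕜] X × X := LinearMap.prod (Ysp 𝕜 e a).subtype
    ((Ysp 𝕜 e b).subtype.comp T.toLinearEquiv.toLinearMap)
  have hΦ : ∀ x, Φ x = ((x : X), (T x : X)) := fun x => rfl
  obtain ⟨K, hK⟩ := exists_nat_ge
    (max 1 (max ‖(T : Ysp 𝕜 e a →L[𝕜] Ysp 𝕜 e b)‖ ‖(T.symm : Ysp 𝕜 e b →L[𝕜] Ysp 𝕜 e a)‖))
  simp only [max_le_iff] at hK
  obtain ⟨k1, k2, k3⟩ := hK
  refine ⟨K, fun n => Φ (y n), ⟨fun c => ?_, fun i hi => ?_, fun i hi => ?_⟩,
    Set.mem_iInter.2 fun n => ⟨(y n).2, (T (y n)).2⟩⟩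
  · have h0 : Finsupp.linearCombination 𝕜 (fun n => Φ (y n)) c =
        Φ (Finsupp.linearCombination 𝕜 y c) := (Finsupp.apply_linearCombination 𝕜 Φ y c).symm
    dsimp only
    rw [h0, hΦ]
    set x := Finsupp.linearCombination 𝕜 y c
    have a1 : ‖T x‖ ≤ K * ‖x‖ :=
      ((T : Ysp 𝕜 e a →L[𝕜] Ysp 𝕜 e b).le_opNorm x).trans
        (mul_le_mul_of_nonneg_right k2 (norm_nonneg _))
    have a2 : ‖x‖ ≤ K * ‖T x‖ := by
      have := ((T.symm : Ysp 𝕜 e b →L[𝕜] Ysp 𝕜 e a).le_opNorm (T x)).trans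
        (mul_le_mul_of_nonneg_right k3 (norm_nonneg _))
      simpa using this
    have a3 : ‖x‖ ≤ K * ‖x‖ := le_mul_of_one_le_left (norm_nonneg _) k1
    have a4 : ‖T x‖ ≤ K * ‖T x‖ := le_mul_of_one_le_left (norm_nonneg _) k1
    rw [Prod.norm_def]
    exact ⟨max_le a3 a1, max_le a2 a4⟩
  · have hi' : a i = true := hi
    simp [hΦ, y, hi']
  · have hi' : b i = true := hi
    simp [hΦ, y, hi']

theorem iso_analytic [CompleteSpace X] [TopologicalSpace.SeparableSpace X] (e : ℕ → X)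
    (f : ℕ → X →L[𝕜] 𝕜) (hf : ∀ i j, f i (e j) = if i = j then 1 else 0) :
    MeasureTheory.AnalyticSet {p : (ℕ → Bool) × (ℕ → Bool) |
      Nonempty (Ysp 𝕜 e p.1 ≃L[𝕜] Ysp 𝕜 e p.2)} := by
  have h : {p : (ℕ → Bool) × (ℕ → Bool) | Nonempty (Ysp 𝕜 e p.1 ≃L[𝕜] Ysp 𝕜 e p.2)} =
      ⋃ K : ℕ, Prod.fst '' hisoa_W 𝕜 e K := by
    ext p
    simp only [Set.mem_ofPred_eq, Set.mem_iUnion]
    constructor
    · rintro ⟨T⟩
      obtain ⟨K, z, hz⟩ := hisoa_to_W T
      exact ⟨K, _, hz, rfl⟩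
    · rintro ⟨K, q, hq, rfl⟩
      exact hisoa_of_W hq
  rw [h]
  exact MeasureTheory.AnalyticSet.iUnion fun K =>
    (hisoa_W_analytic e K).image_of_continuous continuous_fst

end Pool.Agent.Lib.MP_435322_an.UD
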