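import Pool.Agent.Lib.MP_435322_an.Gauss

/-! Type 2 and cotype 2 give an equivalent inner product norm. -/

set_option linter.unusedSectionVars false

namespace Pool.Agent.Lib.MP_435322_an

open Finset

universe u

theorem exists_quad {E : Type u} [NormedAddCommGroup E] [NormedSpace ℝ E] {K : ℝ} (hK : 1 ≤ K)
    (h1 : ∀ m, Inv true (nq E) m K) (h2 : ∀ m, Inv false (nq E) m K) :
    ∃ Q : E → ℝ, (∀ x, ‖x‖ ^ 2 ≤ Q x) ∧ (∀ x, Q x ≤ K * K * ‖x‖ ^ 2) ∧
      ∀ (n : ℕ) (a : Fin n → ℝ) (v : Fin n → E),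
        (∀ η : E →ₗ[ℝ] ℝ, ∑ i, a i * η (v i) ^ 2 = 0) → ∑ i, a i * Q (v i) = 0 := by
  classical
  set K' := K * K with hK'
  have hK1 : 1 ≤ K' := by nlinarith
  let h : ℝ → ℝ := fun t => max (K' * t) t
  have h0 : h 0 = 0 := by simp [h]
  let N : (E →₀ ℝ) → ℝ := fun c => c.sum (fun x t => h t * ‖x‖ ^ 2)
  have hN : ∀ (c : E →₀ ℝ) (s : Finset E), c.support ⊆ s → N c = ∑ x ∈ s, h (c x) * ‖x‖ ^ 2 :=
    fun c s hs => Finsupp.sum_of_support_subset c hs _ (fun x _ => by rw [h0, zero_mul])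
  let Z : Submodule ℝ (E →₀ ℝ) :=
    ⨅ η : E →ₗ[ℝ] ℝ, LinearMap.ker (Finsupp.linearCombination ℝ (fun x => η x ^ 2))
  have hZ : ∀ c : E →₀ ℝ, c ∈ Z ↔
      ∀ η : E →ₗ[ℝ] ℝ, Finsupp.linearCombination ℝ (fun x => η x ^ 2) c = 0 := fun c => by
    simp only [Z, Submodule.mem_iInf, LinearMap.mem_ker]
  obtain ⟨L, hL1, hL2⟩ := exists_extension_of_le_sublinear ⟨Z, 0⟩ N (fun r hr c => by
      rw [hN (r • c) c.support Finsupp.support_smul, hN c c.support subset_rfl, Finset.mul_sum]
      refine Finset.sum_congr rfl fun x _ => ?_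
      simp only [h, Finsupp.smul_apply, smul_eq_mul]
      rw [← mul_assoc r, mul_max_of_nonneg _ _ hr.le]
      congr 2; ring)
    (fun c c' => by
      rw [hN (c + c') (c.support ∪ c'.support) Finsupp.support_add,
        hN c (c.support ∪ c'.support) Finset.subset_union_left,
        hN c' (c.support ∪ c'.support) Finset.subset_union_right, ← Finset.sum_add_distrib]
      refine Finset.sum_le_sum fun x _ => ?_
      rw [← add_mul]
      refine mul_le_mul_of_nonneg_right ?_ (sq_nonneg _)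
      simp only [h, Finsupp.add_apply, mul_add]
      exact max_le (add_le_add (le_max_left _ _) (le_max_left _ _))
        (add_le_add (le_max_right _ _) (le_max_right _ _)))
    (fun c => by
      obtain ⟨c, hc⟩ := c
      show (0 : ℝ) ≤ N c
      let e : Fin c.support.card ≃ c.support := c.support.equivFin.symm
      have hsum : ∀ f : E → ℝ, ∑ x ∈ c.support, f x = ∑ i, f (e i) := fun f => by
        rw [← Finset.sum_coe_sort c.support]
        exact (e.sum_comp (fun x => f x)).symm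
      have key := gauss_cmp' (by linarith) h1 h2
        (fun i => √(max (c (e i)) 0) • (e i : E)) (fun i => √(max (-c (e i)) 0) • (e i : E))
        (fun η => by
          have h3 := (hZ c).1 hc η
          rw [Finsupp.linearCombination_apply, Finsupp.sum, hsum] at h3
          rw [← sub_eq_zero, ← Finset.sum_sub_distrib]
          refine Eq.trans (Finset.sum_congr rfl fun i _ => ?_) h3
          simp only [map_smul, smul_eq_mul, mul_pow, Real.sq_sqrt (le_max_right _ _)]
          rw [← sub_mul, max_zero_sub_max_neg_zero_eq_self])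
      rw [hN c c.support subset_rfl, hsum]
      rw [← sub_nonneg, Finset.mul_sum, ← Finset.sum_sub_distrib] at key
      refine key.trans (le_of_eq (Finset.sum_congr rfl fun i _ => ?_))
      simp only [nq, norm_smul, mul_pow, Real.norm_eq_abs, sq_abs, Real.sq_sqrt (le_max_right _ _)]
      rw [← mul_assoc, ← sub_mul]
      congr 1
      simp only [h]
      rcases le_total (c (e i)) 0 with h4 | h4
      · rw [max_eq_right h4, max_eq_left (by linarith), max_eq_right (by nlinarith)]; ring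
      · rw [max_eq_left h4, max_eq_right (by linarith), max_eq_left (by nlinarith)]; ring)
  refine ⟨fun x => L (Finsupp.single x 1), fun x => ?_, fun x => ?_, fun n a v hv => ?_⟩
  · have h3 := hL2 (-Finsupp.single x 1)
    rw [hN _ {x} (by rw [Finsupp.support_neg]; exact Finsupp.support_single_subset),
      Finset.sum_singleton, map_neg] at h3
    simp only [h, Finsupp.neg_apply, Finsupp.single_eq_same] at h3
    rw [max_eq_right (by linarith)] at h3
    show _ ≤ L (Finsupp.single x 1)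
    linarith
  · have h3 := hL2 (Finsupp.single x 1)
    rw [hN _ {x} Finsupp.support_single_subset, Finset.sum_singleton] at h3
    simp only [h, Finsupp.single_eq_same] at h3
    rw [max_eq_left (by linarith), mul_one] at h3
    exact h3
  · have h3 : ∑ i, a i • Finsupp.single (v i) (1 : ℝ) ∈ Z := (hZ _).2 fun η => by
      simp only [map_sum, map_smul, Finsupp.linearCombination_single, smul_eq_mul, one_mul]
      exact hv η
    have h4 := hL1 ⟨_, h3⟩
    simp only [map_sum, map_smul, smul_eq_mul] at h4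
    exact h4

variable {𝕜 : Type*} [RCLike 𝕜]

theorem exists_quad' {E : Type u} [NormedAddCommGroup E] [NormedSpace 𝕜 E] {K : ℝ} (hK : 1 ≤ K)
    (h1 : ∀ m, Inv true (nq E) m K) (h2 : ∀ m, Inv false (nq E) m K) :
    ∃ (Q : E → ℝ) (C : ℝ), 0 ≤ C ∧ (∀ x, ‖x‖ ^ 2 ≤ Q x) ∧ (∀ x, Q x ≤ C * ‖x‖ ^ 2) ∧
      (∀ (s : 𝕜) x, Q (s • x) = ‖s‖ ^ 2 * Q x) ∧
      (∀ x y, Q (x + y) + Q (x - y) = 2 * (Q x + Q y)) ∧
      ∀ x y, √(Q (x + y)) ≤ √(Q x) + √(Q y) := by
  let : NormedSpace ℝ E := NormedSpace.restrictScalars ℝ 𝕜 E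
  have : IsScalarTower ℝ 𝕜 E := IsScalarTower.restrictScalars ℝ 𝕜 E
  obtain ⟨Q, hQ1, hQ2, hQ3⟩ := exists_quad hK h1 h2
  have hI : ‖(RCLike.I : 𝕜)‖ ≤ 1 := by
    by_cases hI : (RCLike.I : 𝕜) = 0
    · rw [hI]; simp
    · rw [RCLike.norm_I_of_ne_zero hI]
  have hQ0 : ∀ x, 0 ≤ Q x := fun x => (sq_nonneg _).trans (hQ1 x)
  have quad : ∀ (x y : E) (t : ℝ),
      Q (x + t • y) = Q x + t * ((Q (x + y) - Q (x - y)) / 2) + t ^ 2 * Q y := by
    intro x y t
    have := hQ3 5 ![1, -1, -t / 2, t / 2, -t ^ 2] ![x + t • y, x, x + y, x - y, y] (fun η => by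
      simp [Fin.sum_univ_five]; ring)
    simp [Fin.sum_univ_five] at this
    linarith
  have par : ∀ x y : E, Q (x + y) + Q (x - y) = 2 * (Q x + Q y) := by
    intro x y
    have := hQ3 4 ![1, 1, -2, -2] ![x + y, x - y, x, y] (fun η => by
      simp [Fin.sum_univ_four]; ring)
    simp [Fin.sum_univ_four] at this
    linarith
  let Q' : E → ℝ := fun x => Q x + Q ((RCLike.I : 𝕜) • x)
  have hQ'0 : ∀ x, 0 ≤ Q' x := fun x => add_nonneg (hQ0 _) (hQ0 _)
  refine ⟨Q', 2 * (K * K), by positivity, fun x => ?_, fun x => ?_, fun s x => ?_, fun x y => ?_,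
    fun x y => ?_⟩
  · have := hQ1 x
    have := hQ0 ((RCLike.I : 𝕜) • x)
    simp only [Q']; linarith
  · have a1 := hQ2 x
    have a2 := hQ2 ((RCLike.I : 𝕜) • x)
    have a3 : ‖(RCLike.I : 𝕜) • x‖ ≤ ‖x‖ := by
      rw [norm_smul]; exact mul_le_of_le_one_left (norm_nonneg _) hI
    have a4 : K * K * ‖(RCLike.I : 𝕜) • x‖ ^ 2 ≤ K * K * ‖x‖ ^ 2 := by gcongr
    simp only [Q']; linarith
  · have e1 : s • x = RCLike.re s • x + RCLike.im s • (RCLike.I : 𝕜) • x := by
      conv_lhs => rw [← RCLike.re_add_im s]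
      rw [add_smul, mul_smul, RCLike.real_smul_eq_coe_smul (K := 𝕜),
        RCLike.real_smul_eq_coe_smul (K := 𝕜)]
    have e2 : (RCLike.I : 𝕜) • s • x = RCLike.re s • (RCLike.I : 𝕜) • x - RCLike.im s • x := by
      rcases RCLike.I_eq_zero_or_im_I_eq_one (K := 𝕜) with hI0 | hI0
      · have : RCLike.im s = 0 := RCLike.im_eq_zero hI0 s
        rw [hI0, this]; simp
      · have hI1 : (RCLike.I : 𝕜) ≠ 0 := fun h => by rw [h] at hI0; simp at hI0
        rw [e1, smul_add, smul_comm (RCLike.I : 𝕜), smul_comm (RCLike.I : 𝕜) (RCLike.im s),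
          smul_smul (RCLike.I : 𝕜), RCLike.I_mul_I_of_nonzero hI1, neg_one_smul, smul_neg,
          sub_eq_add_neg]
    have e3 : ‖s‖ ^ 2 = RCLike.re s ^ 2 + RCLike.im s ^ 2 := by
      rw [RCLike.norm_sq_eq_def]; ring
    have := hQ3 4 ![1, 1, -‖s‖ ^ 2, -‖s‖ ^ 2]
      ![s • x, (RCLike.I : 𝕜) • s • x, x, (RCLike.I : 𝕜) • x] (fun η => by
        simp only [Fin.sum_univ_four, Matrix.cons_val_zero, Matrix.cons_val_one, Matrix.cons_val]
        rw [e2, e1, e3, map_add, map_sub]
        generalize (RCLike.I : 𝕜) • x = z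
        simp only [map_smul, smul_eq_mul]
        ring)
    simp only [Fin.sum_univ_four, Matrix.cons_val_zero, Matrix.cons_val_one, Matrix.cons_val] at this
    simp only [Q']
    linarith
  · have a1 := par x y
    have a2 := par ((RCLike.I : 𝕜) • x) ((RCLike.I : 𝕜) • y)
    simp only [Q', smul_add, smul_sub]
    linarith
  · set B := (Q' (x + y) - Q' (x - y)) / 2 with hB
    have quad' : ∀ t : ℝ, Q' (x + t • y) = Q' y * (t * t) + B * t + Q' x := by
      intro t
      have a1 := quad x y t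
      have a2 := quad ((RCLike.I : 𝕜) • x) ((RCLike.I : 𝕜) • y) t
      simp only [hB, Q', smul_add, smul_sub, smul_comm (RCLike.I : 𝕜) t]
      linarith
    have hd := discrim_le_zero (a := Q' y) (b := B) (c := Q' x) (fun t => by
      rw [← quad']; exact hQ'0 _)
    rw [discrim] at hd
    have a1 := quad' 1
    rw [one_smul] at a1
    have a2 : B ≤ 2 * (√(Q' x) * √(Q' y)) := by
      refine (le_abs_self B).trans (abs_le_of_sq_le_sq' ?_ (by positivity) |> abs_le.2)
      rw [mul_pow, mul_pow, Real.sq_sqrt (hQ'0 x), Real.sq_sqrt (hQ'0 y)]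
      linarith
    refine Real.sqrt_le_iff.2 ⟨by positivity, ?_⟩
    rw [add_sq, Real.sq_sqrt (hQ'0 x), Real.sq_sqrt (hQ'0 y), a1]
    linarith

/-- type synonym used to carry a new norm -/
def Syn (E : Type u) : Type u := E

instance {E : Type u} [AddCommGroup E] : AddCommGroup (Syn E) := inferInstanceAs (AddCommGroup E)

instance {E : Type u} [AddCommGroup E] [Module 𝕜 E] : Module 𝕜 (Syn E) :=
  inferInstanceAs (Module 𝕜 E)

theorem kwapien {E : Type u} [NormedAddCommGroup E] [NormedSpace 𝕜 E] [CompleteSpace E] {K : ℝ}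
    (hK : 1 ≤ K) (h1 : ∀ m, Inv true (nq E) m K) (h2 : ∀ m, Inv false (nq E) m K) :
    ∃ (H : Type u) (_ : NormedAddCommGroup H) (_ : InnerProductSpace 𝕜 H),
      CompleteSpace H ∧ Nonempty (E ≃L[𝕜] H) := by
  obtain ⟨Q, C, hC, hQ1, hQ2, hQ3, hQ4, hQ5⟩ := exists_quad' (𝕜 := 𝕜) hK h1 h2
  have hQ0 : ∀ x, 0 ≤ Q x := fun x => (sq_nonneg _).trans (hQ1 x)
  let ν : AddGroupNorm (Syn E) :=
    { toFun := fun x => √(Q x)
      map_zero' := by
        have := hQ3 0 0
        simp only [norm_zero, smul_zero] at this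
        show √(Q (0 : E)) = 0
        rw [this]; simp
      add_le' := fun x y => hQ5 x y
      neg' := fun x => by
        have := hQ3 (-1) x
        rw [neg_one_smul, norm_neg, norm_one, one_pow, one_mul] at this
        exact congrArg Real.sqrt this
      eq_zero_of_map_eq_zero' := fun x hx => by
        have h3 : Q x ≤ 0 := Real.sqrt_eq_zero'.1 hx
        have h4 := (hQ1 x).trans h3
        have h5 : ‖(show E from x)‖ ^ 2 = 0 := le_antisymm h4 (sq_nonneg _)
        exact norm_eq_zero.1 (pow_eq_zero_iff two_ne_zero |>.1 h5) }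
  let i1 : NormedAddCommGroup (Syn E) := ν.toNormedAddCommGroup
  have hn : ∀ x : Syn E, ‖x‖ = √(Q x) := fun x => rfl
  let i2 : NormedSpace 𝕜 (Syn E) :=
    { norm_smul_le := fun s x => by
        rw [hn, hn]
        have := hQ3 s x
        refine le_of_eq ((congrArg Real.sqrt this).trans ?_)
        rw [Real.sqrt_mul (sq_nonneg _), Real.sqrt_sq (norm_nonneg _)] }
  let i3 : InnerProductSpace 𝕜 (Syn E) := InnerProductSpace.ofNorm 𝕜 (fun x y => by
    simp only [hn, Real.mul_self_sqrt (hQ0 _)]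
    exact hQ4 x y)
  let e0 : E ≃ₗ[𝕜] Syn E := LinearEquiv.refl 𝕜 E
  let e : E ≃L[𝕜] Syn E := e0.toContinuousLinearEquivOfBounds (√C) 1 (fun x => by
      rw [hn]
      refine (Real.sqrt_le_sqrt (hQ2 x)).trans (le_of_eq ?_)
      rw [Real.sqrt_mul hC, Real.sqrt_sq (norm_nonneg _)]) (fun x => by
      rw [hn, one_mul]
      exact Real.le_sqrt_of_sq_le (hQ1 x))
  exact ⟨Syn E, i1, i3,
    (completeSpace_congr (e := e.toLinearEquiv.toEquiv) e.isUniformEmbedding).1 inferInstance, ⟨e⟩⟩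

theorem lp_inv {X : ℕ → Type u} [∀ n, NormedAddCommGroup (X n)] {b : Bool} {m : ℕ} {K : ℝ}
    (hK : 0 ≤ K) (h : ∀ k, Inv b (nq (X k)) m K) : Inv b (nq (lp X 2)) m K := by
  refine Inv.hasSum (q := nq (lp X 2)) (qq := fun k (x : lp X 2) => ‖x k‖ ^ 2)
    (fun x => lp_hasSum x) fun k => ?_
  let A : lp X 2 →+ X k := { toFun := fun x => x k, map_zero' := rfl, map_add' := fun _ _ => rfl }
  have := Inv.transfer (q := fun x : lp X 2 => ‖x k‖ ^ 2) A zero_le_one zero_le_one
    (fun x => by rw [one_mul]; exact le_rfl) (fun x => by rw [one_mul]; exact le_rfl) hK (h k)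
  simpa using this

theorem kwapien_lp {X : ℕ → Type u} [∀ n, NormedAddCommGroup (X n)] [∀ n, NormedSpace 𝕜 (X n)]
    [∀ n, CompleteSpace (X n)] {K : ℝ} (h : ∀ k b m, Inv b (nq (X k)) m K) :
    ∃ (H : Type u) (_ : NormedAddCommGroup H) (_ : InnerProductSpace 𝕜 H),
      CompleteSpace H ∧ Nonempty (lp X 2 ≃L[𝕜] H) := by
  have key : ∀ b m, Inv b (nq (lp X 2)) m (max K 1) := fun b m =>
    lp_inv (le_max_of_le_right zero_le_one) fun k => (h k b m).const nq_nonneg (le_max_left K 1)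
  exact kwapien (le_max_right K 1) (key true) (key false)

end Pool.Agent.Lib.MP_435322_an
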