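import Pool.Agent.Lib.MP_435322_an.Ex

/-! Rademacher averages, convex quadratic functions, contraction, type and cotype at a scale. -/

set_option linter.unusedSectionVars false

namespace Pool.Agent.Lib.MP_435322_an

open Finset

/-- the uniform weight on signs -/
noncomputable def hf : ℤˣ → ℝ := fun _ => 1 / 2

theorem sum_units (f : ℤˣ → ℝ) : ∑ e, f e = f 1 + f (-1) := by
  have : (Finset.univ : Finset ℤˣ) = {1, -1} := by
    ext e; rcases Int.units_eq_one_or e with rfl | rfl <;> simp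
  rw [this, Finset.sum_pair (by decide)]

theorem isW_hf : IsW hf := ⟨fun _ => by unfold hf; norm_num, by rw [sum_units]; unfold hf; norm_num⟩

/-- Rademacher average of `q` -/
noncomputable def rad {V : Type*} [AddCommGroup V] {ι : Type} [Fintype ι] [DecidableEq ι]
    (q : V → ℝ) (x : ι → V) : ℝ :=
  Ex hf (fun ε : ι → ℤˣ => q (∑ i, ε i • x i))

section rad
variable {V : Type*} [AddCommGroup V] {ι : Type} [Fintype ι] [DecidableEq ι]

theorem rad_add (q1 q2 : V → ℝ) (x : ι → V) :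
    rad (fun v => q1 v + q2 v) x = rad q1 x + rad q2 x := Ex_add _ _

theorem rad_mul (c : ℝ) (q : V → ℝ) (x : ι → V) : rad (fun v => c * q v) x = c * rad q x :=
  Ex_mul _ _

theorem rad_sum {κ : Type*} (s : Finset κ) (q : κ → V → ℝ) (x : ι → V) :
    rad (fun v => ∑ k ∈ s, q k v) x = ∑ k ∈ s, rad (q k) x := Ex_sum _ _

theorem rad_mono {q1 q2 : V → ℝ} (h : ∀ v, q1 v ≤ q2 v) (x : ι → V) : rad q1 x ≤ rad q2 x :=
  Ex_mono isW_hf fun _ => h _

theorem rad_nonneg {q : V → ℝ} (h : ∀ v, 0 ≤ q v) (x : ι → V) : 0 ≤ rad q x :=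
  Ex_nonneg isW_hf fun _ => h _

theorem rad_map {V' : Type*} [AddCommGroup V'] (A : V →+ V') (q : V' → ℝ) (x : ι → V) :
    rad q (fun i => A (x i)) = rad (fun v => q (A v)) x := by
  unfold rad
  refine Ex_congr fun ε => ?_
  simp only [map_sum, Units.smul_def, map_zsmul]

theorem rad_inj {κ : Type} [Fintype κ] [DecidableEq κ] (e : κ → ι) (he : Function.Injective e)
    (q : V → ℝ) (x : ι → V) (hx : ∀ j, j ∉ Set.range e → x j = 0) :
    rad q x = rad q (fun k => x (e k)) := by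
  unfold rad
  rw [← Ex_inj isW_hf e he (fun ε : κ → ℤˣ => q (∑ k, ε k • x (e k)))]
  refine Ex_congr fun ε => ?_
  congr 1
  symm
  refine Finset.sum_of_injOn e he.injOn (fun _ _ => Finset.mem_univ _) ?_ (fun _ _ => rfl)
  intro j _ hj
  rw [hx j (by simpa using hj), smul_zero]

theorem rad_sign (q : V → ℝ) (x : ι → V) (s : ι → ℤˣ) :
    rad q (fun i => s i • x i) = rad q x := by
  unfold rad
  rw [← Ex_perm (w := hf) (fun i => Equiv.mulRight (s i)) (fun _ _ => rfl)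
    (fun ε : ι → ℤˣ => q (∑ i, ε i • x i))]
  refine Ex_congr fun ε => ?_
  simp only [Equiv.coe_mulRight, mul_smul]

end rad

section orth
variable {𝕜 : Type*} [RCLike 𝕜] {ι : Type} [Fintype ι] [DecidableEq ι]

/-- the real value of a sign -/
def sg (e : ℤˣ) : ℝ := ((e : ℤ) : ℝ)

theorem sg_one : sg 1 = 1 := by simp [sg]
theorem sg_neg_one : sg (-1) = -1 := by simp [sg]

theorem sg_sq (e : ℤˣ) : sg e ^ 2 = 1 := by
  rcases Int.units_eq_one_or e with rfl | rfl <;> simp [sg]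

theorem sg_mul (e e' : ℤˣ) : sg (e * e') = sg e * sg e' := by simp [sg]

theorem units_smul_eq {V : Type*} [AddCommGroup V] [Module 𝕜 V] (e : ℤˣ) (v : V) :
    e • v = ((sg e : ℝ) : 𝕜) • v := by
  rcases Int.units_eq_one_or e with rfl | rfl <;> simp [sg]

theorem norm_units_smul {V : Type*} [SeminormedAddCommGroup V] (e : ℤˣ) (v : V) :
    ‖e • v‖ = ‖v‖ := by
  rcases Int.units_eq_one_or e with rfl | rfl <;> simp

theorem rad_moments (x : ι → 𝕜) :
    Ex hf (fun ε : ι → ℤˣ => ‖∑ i, ε i • x i‖ ^ 2) = ∑ i, ‖x i‖ ^ 2 ∧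
    Ex hf (fun ε : ι → ℤˣ => (‖∑ i, ε i • x i‖ ^ 2) ^ 2) ≤ 4 * (∑ i, ‖x i‖ ^ 2) ^ 2 := by
  have h := Ex_moments isW_hf sg 1 1 (by rw [sum_units, sg_one, sg_neg_one]; unfold hf; norm_num)
    (by rw [sum_units, sg_one, sg_neg_one]; unfold hf; norm_num)
    (by rw [sum_units, sg_one, sg_neg_one]; unfold hf; norm_num)
    (by rw [sum_units, sg_one, sg_neg_one]; unfold hf; norm_num) x Finset.univ
  have e : ∀ ε : ι → ℤˣ, ∑ i, ε i • x i = ∑ i, x i * ((sg (ε i) : ℝ) : 𝕜) := fun ε =>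
    Finset.sum_congr rfl fun i _ => by rw [units_smul_eq (𝕜 := 𝕜), smul_eq_mul, mul_comm]
  simp only [e]
  refine ⟨by simpa using h.1, h.2.trans ?_⟩
  have := Finset.sum_sq_le_sq_sum_of_nonneg (s := Finset.univ) (f := fun i => ‖x i‖ ^ 2)
    (fun i _ => sq_nonneg _)
  linarith

/-- squared Euclidean norm of the coordinates in `σ` -/
noncomputable def eo {κ : Type} (σ : Finset κ) (c : κ → 𝕜) : ℝ := ∑ j ∈ σ, ‖c j‖ ^ 2

theorem eo_nonneg {κ : Type} (σ : Finset κ) (c : κ → 𝕜) : 0 ≤ eo σ c :=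
  Finset.sum_nonneg fun _ _ => sq_nonneg _

theorem eo_mono {κ : Type} {σ τ : Finset κ} (h : σ ⊆ τ) (c : κ → 𝕜) : eo σ c ≤ eo τ c :=
  Finset.sum_le_sum_of_subset_of_nonneg h fun _ _ _ => sq_nonneg _

theorem rad_eo {κ : Type} (σ : Finset κ) (x : ι → κ → 𝕜) :
    rad (eo σ) x = ∑ i, eo σ (x i) := by
  have h : rad (eo σ) x = ∑ j ∈ σ, rad (fun c : κ → 𝕜 => ‖c j‖ ^ 2) x := rad_sum _ _ _
  rw [h]
  unfold eo
  rw [Finset.sum_comm]
  refine Finset.sum_congr rfl fun j _ => ?_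
  rw [← (rad_moments (fun i => x i j)).1]
  unfold rad
  refine Ex_congr fun ε => ?_
  simp [Finset.sum_apply]

end orth

section inv
variable {V : Type*} [AddCommGroup V]

/-- type 2 (`b = true`) or cotype 2 (`b = false`) inequality for one tuple -/
def Ineq (b : Bool) (q : V → ℝ) (C : ℝ) {ι : Type} [Fintype ι] [DecidableEq ι] (x : ι → V) : Prop :=
  if b then rad q x ≤ C * ∑ i, q (x i) else ∑ i, q (x i) ≤ C * rad q x

/-- the inequality for all tuples of at most `m` vectors -/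
def Inv (b : Bool) (q : V → ℝ) (m : ℕ) (C : ℝ) : Prop :=
  ∀ n ≤ m, ∀ x : Fin n → V, Ineq b q C x

theorem Inv.scale {b : Bool} {q : V → ℝ} {m m' : ℕ} {C : ℝ} (h : Inv b q m C) (hm : m' ≤ m) :
    Inv b q m' C := fun n hn => h n (hn.trans hm)

theorem Inv.const {b : Bool} {q : V → ℝ} (hq : ∀ v, 0 ≤ q v) {m : ℕ} {C C' : ℝ} (h : Inv b q m C)
    (hC : C ≤ C') : Inv b q m C' := by
  intro n hn x
  have h1 := h n hn x
  have h2 : 0 ≤ ∑ i, q (x i) := Finset.sum_nonneg fun i _ => hq _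
  have h3 := rad_nonneg hq x
  cases b
  · simp only [Ineq, Bool.false_eq_true, if_false] at h1 ⊢
    nlinarith
  · simp only [Ineq, if_true] at h1 ⊢
    nlinarith

theorem Inv.transfer {V' : Type*} [AddCommGroup V'] {b : Bool} {q : V → ℝ} {q' : V' → ℝ}
    (A : V →+ V') {α β : ℝ} (hα : 0 ≤ α) (hβ : 0 ≤ β) (h1 : ∀ v, q v ≤ α * q' (A v))
    (h2 : ∀ v, q' (A v) ≤ β * q v) {m : ℕ} {C : ℝ} (hC : 0 ≤ C) (h : Inv b q' m C) :
    Inv b q m (α * β * C) := by
  intro n hn x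
  have h3 := h n hn (fun i => A (x i))
  have r1 : rad q x ≤ α * rad q' (fun i => A (x i)) := by
    rw [rad_map, ← rad_mul]; exact rad_mono h1 x
  have r2 : rad q' (fun i => A (x i)) ≤ β * rad q x := by
    rw [rad_map, ← rad_mul]; exact rad_mono h2 x
  have s1 : ∑ i, q (x i) ≤ α * ∑ i, q' (A (x i)) := by
    rw [Finset.mul_sum]; exact Finset.sum_le_sum fun i _ => h1 _
  have s2 : ∑ i, q' (A (x i)) ≤ β * ∑ i, q (x i) := by
    rw [Finset.mul_sum]; exact Finset.sum_le_sum fun i _ => h2 _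
  cases b
  · simp only [Ineq, Bool.false_eq_true, if_false] at h3 ⊢
    calc _ ≤ α * ∑ i, q' (A (x i)) := s1
      _ ≤ α * (C * rad q' (fun i => A (x i))) := by gcongr
      _ ≤ α * (C * (β * rad q x)) := by gcongr
      _ = _ := by ring
  · simp only [Ineq, if_true] at h3 ⊢
    calc _ ≤ α * rad q' (fun i => A (x i)) := r1
      _ ≤ α * (C * ∑ i, q' (A (x i))) := by gcongr
      _ ≤ α * (C * (β * ∑ i, q (x i))) := by gcongr
      _ = _ := by ring

theorem Inv.hasSum {b : Bool} {q : V → ℝ} {qq : ℕ → V → ℝ} (hs : ∀ v, HasSum (fun k => qq k v) (q v))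
    {m : ℕ} {C : ℝ} (h : ∀ k, Inv b (qq k) m C) : Inv b q m C := by
  intro n hn x
  have r : HasSum (fun k => rad (qq k) x) (rad q x) := by
    unfold rad Ex
    exact hasSum_sum fun ε _ => (hs _).mul_left _
  have s : HasSum (fun k => ∑ i, qq k (x i)) (∑ i, q (x i)) := hasSum_sum fun i _ => hs _
  cases b
  · simp only [Ineq, Bool.false_eq_true, if_false]
    refine hasSum_le (fun k => ?_) s (r.mul_left C)
    simpa [Ineq] using h k n hn x
  · simp only [Ineq, if_true]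
    refine hasSum_le (fun k => ?_) r (s.mul_left C)
    simpa [Ineq] using h k n hn x

theorem Inv.fintype {b : Bool} {q : V → ℝ} {C : ℝ} (h : ∀ m, Inv b q m C) {ι : Type} [Fintype ι]
    [DecidableEq ι] (x : ι → V) : Ineq b q C x := by
  let e := (Fintype.equivFin ι).symm
  have h1 := h _ _ le_rfl (fun k => x (e k))
  have h2 : rad q x = rad q (fun k => x (e k)) :=
    rad_inj e e.injective q x (fun j hj => (hj (e.surjective j)).elim)
  have h3 : ∑ i, q (x i) = ∑ k, q (x (e k)) := (e.sum_comp (fun i => q (x i))).symm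
  unfold Ineq at h1 ⊢
  rw [h2, h3]; exact h1

theorem inv_eo {𝕜 : Type*} [RCLike 𝕜] {κ : Type} (σ : Finset κ) (b : Bool) (m : ℕ) :
    Inv b (eo (𝕜 := 𝕜) σ) m 1 := by
  intro n _ x
  unfold Ineq
  rw [rad_eo]
  cases b <;> simp

end inv

section cq
variable {𝕜 : Type*} [RCLike 𝕜] {ι : Type}

/-- convex and homogeneous of degree two -/
structure CQ (q : (ι → 𝕜) → ℝ) : Prop where
  convex : ConvexOn ℝ Set.univ q
  hom : ∀ (s : 𝕜) v, q (s • v) = ‖s‖ ^ 2 * q v

theorem CQ.zero {q : (ι → 𝕜) → ℝ} (hq : CQ q) : q 0 = 0 := by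
  have := hq.hom 0 0
  simpa using this

theorem CQ.hom_real {q : (ι → 𝕜) → ℝ} (hq : CQ q) (s : ℝ) (v : ι → 𝕜) :
    q (s • v) = s ^ 2 * q v := by
  rw [RCLike.real_smul_eq_coe_smul (K := 𝕜), hq.hom, RCLike.norm_ofReal, sq_abs]

theorem CQ.neg {q : (ι → 𝕜) → ℝ} (hq : CQ q) (v : ι → 𝕜) : q (-v) = q v := by
  have := hq.hom (-1) v
  simpa using this

theorem CQ.add_le {q : (ι → 𝕜) → ℝ} (hq : CQ q) (u v : ι → 𝕜) : q (u + v) ≤ 2 * q u + 2 * q v := by
  have h := hq.convex.2 (Set.mem_univ u) (Set.mem_univ v) (show (0 : ℝ) ≤ 1 / 2 by norm_num)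
    (show (0 : ℝ) ≤ 1 / 2 by norm_num) (by norm_num)
  rw [← smul_add, hq.hom_real] at h
  simp only [smul_eq_mul] at h
  linarith

theorem CQ.nonneg {q : (ι → 𝕜) → ℝ} (hq : CQ q) (v : ι → 𝕜) : 0 ≤ q v := by
  have h := hq.add_le v (-v)
  rw [add_neg_cancel, hq.zero, hq.neg] at h
  linarith

theorem CQ.add {q1 q2 : (ι → 𝕜) → ℝ} (h1 : CQ q1) (h2 : CQ q2) : CQ (fun v => q1 v + q2 v) :=
  ⟨h1.convex.add h2.convex, fun s v => by rw [h1.hom, h2.hom]; ring⟩

theorem CQ.mul {q : (ι → 𝕜) → ℝ} (h : CQ q) {c : ℝ} (hc : 0 ≤ c) : CQ (fun v => c * q v) :=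
  ⟨h.convex.smul hc, fun s v => by rw [h.hom]; ring⟩

theorem cq_zero : CQ (fun _ : ι → 𝕜 => (0 : ℝ)) :=
  ⟨convexOn_const 0 convex_univ, fun _ _ => by simp⟩

theorem CQ.sum {κ : Type*} (s : Finset κ) {q : κ → (ι → 𝕜) → ℝ} (h : ∀ k ∈ s, CQ (q k)) :
    CQ (fun v => ∑ k ∈ s, q k v) := by
  classical
  induction s using Finset.induction_on with
  | empty => simpa using cq_zero
  | insert j s hj ih =>
    simp only [Finset.sum_insert hj]
    exact (h j (Finset.mem_insert_self _ _)).add (ih fun k hk => h k (Finset.mem_insert_of_mem hk))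

theorem CQ.comp {κ : Type} {q : (ι → 𝕜) → ℝ} (h : CQ q) (S : (κ → 𝕜) →ₗ[𝕜] (ι → 𝕜)) :
    CQ (fun v => q (S v)) := by
  refine ⟨⟨convex_univ, fun u _ v _ a b ha hb hab => ?_⟩, fun s v => by rw [map_smul, h.hom]⟩
  have := h.convex.2 (Set.mem_univ (S u)) (Set.mem_univ (S v)) ha hb hab
  simpa only [map_add, RCLike.real_smul_eq_coe_smul (K := 𝕜), map_smul] using this

theorem cq_normsq {E : Type*} [SeminormedAddCommGroup E] [NormedSpace 𝕜 E]
    (T : (ι → 𝕜) →ₗ[𝕜] E) : CQ (fun v => ‖T v‖ ^ 2) := by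
  refine ⟨⟨convex_univ, fun u _ v _ a b ha hb hab => ?_⟩, fun s v => by
    rw [map_smul, norm_smul, mul_pow]⟩
  simp only [map_add, RCLike.real_smul_eq_coe_smul (K := 𝕜), map_smul, smul_eq_mul]
  have h1 : ‖(a : 𝕜) • T u + (b : 𝕜) • T v‖ ≤ a * ‖T u‖ + b * ‖T v‖ := by
    refine (norm_add_le _ _).trans ?_
    rw [norm_smul, norm_smul, RCLike.norm_ofReal, RCLike.norm_ofReal, abs_of_nonneg ha,
      abs_of_nonneg hb]
  have h2 : ‖(a : 𝕜) • T u + (b : 𝕜) • T v‖ ^ 2 ≤ (a * ‖T u‖ + b * ‖T v‖) ^ 2 := by gcongr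
  have hb' : b = 1 - a := by linarith
  refine h2.trans ?_
  subst hb'
  nlinarith [mul_nonneg (mul_nonneg ha hb) (sq_nonneg (‖T u‖ - ‖T v‖))]

theorem cq_eo (σ : Finset ι) : CQ (eo (𝕜 := 𝕜) σ) :=
  CQ.sum σ (q := fun j v => ‖(LinearMap.proj j : (ι → 𝕜) →ₗ[𝕜] 𝕜) v‖ ^ 2) fun j _ => cq_normsq _

theorem CQ.ex {α κ : Type} [Fintype α] [Fintype κ] [DecidableEq κ] {w : α → ℝ} (hw : IsW w)
    {q : (κ → α) → (ι → 𝕜) → ℝ} (h : ∀ ζ, CQ (q ζ)) : CQ (fun v => Ex w (fun ζ => q ζ v)) :=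
  CQ.sum Finset.univ fun ζ _ => (h ζ).mul (hw.prod_nonneg ζ)

/-- invariance under changes of signs of the coordinates -/
def SignInv (q : (ι → 𝕜) → ℝ) : Prop := ∀ (s : ι → ℤˣ) (c : ι → 𝕜), q (fun j => s j • c j) = q c

theorem CQ.contract_real [Fintype ι] [DecidableEq ι] {q : (ι → 𝕜) → ℝ} (hq : CQ q)
    (hs : SignInv q) (t : ι → ℝ) (ht : ∀ j, |t j| ≤ 1) (c : ι → 𝕜) :
    q (fun j => (t j : 𝕜) * c j) ≤ q c := by
  have key : ∀ s : Finset ι, q (fun j => if j ∈ s then (t j : 𝕜) * c j else c j) ≤ q c := by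
    intro s
    induction s using Finset.induction_on with
    | empty => simp
    | insert i s hi ih =>
      set c' : ι → 𝕜 := fun j => if j ∈ s then (t j : 𝕜) * c j else c j with hc'
      let c'' : ι → 𝕜 := fun j => (Function.update (fun _ => (1 : ℤˣ)) i (-1) j) • c' j
      have h1 : q c'' = q c' := hs _ _
      have hab := abs_le.1 (ht i)
      have h2 := hq.convex.2 (Set.mem_univ c') (Set.mem_univ c'')
        (show 0 ≤ (1 + t i) / 2 by linarith [hab.1])
        (show 0 ≤ (1 - t i) / 2 by linarith [hab.2]) (by ring)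
      have h3 : ((1 + t i) / 2) • c' + ((1 - t i) / 2) • c''
          = fun j => if j ∈ insert i s then (t j : 𝕜) * c j else c j := by
        funext j
        simp only [Pi.add_apply, Pi.smul_apply, c'', RCLike.real_smul_eq_coe_mul]
        by_cases hj : j = i
        · subst hj
          simp only [Function.update_self, Finset.mem_insert_self, if_true, hc', if_neg hi,
            Units.neg_smul, one_smul]
          push_cast; ring
        · rw [Function.update_of_ne hj, one_smul]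
          simp only [Finset.mem_insert, hj, false_or, hc']
          push_cast; ring
      rw [h3, h1] at h2
      simp only [smul_eq_mul] at h2
      linarith
  simpa using key Finset.univ

theorem CQ.contract [Fintype ι] [DecidableEq ι] {q : (ι → 𝕜) → ℝ} (hq : CQ q)
    (hs : SignInv q) {c c' : ι → 𝕜} (h : ∀ j, ‖c' j‖ ≤ ‖c j‖) : q c' ≤ 4 * q c := by
  let μ : ι → 𝕜 := fun j => c' j / c j
  have hμ : ∀ j, ‖μ j‖ ≤ 1 := fun j => by
    simp only [μ, norm_div]
    exact div_le_one_of_le₀ (h j) (norm_nonneg _)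
  have hc : ∀ j, c' j = μ j * c j := fun j => by
    by_cases h0 : c j = 0
    · have := h j
      rw [h0, norm_zero] at this
      rw [h0, mul_zero]; exact norm_le_zero_iff.1 this
    · simp only [μ]; field_simp
  have e : c' = (fun j => ((RCLike.re (μ j) : ℝ) : 𝕜) * c j)
      + (RCLike.I : 𝕜) • (fun j => ((RCLike.im (μ j) : ℝ) : 𝕜) * c j) := by
    funext j
    simp only [Pi.add_apply, Pi.smul_apply, smul_eq_mul]
    rw [hc j]
    conv_lhs => rw [← RCLike.re_add_im (μ j)]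
    ring
  have h1 := hq.contract_real hs (fun j => RCLike.re (μ j))
    (fun j => (RCLike.abs_re_le_norm _).trans (hμ j)) c
  have h2 := hq.contract_real hs (fun j => RCLike.im (μ j))
    (fun j => (RCLike.abs_im_le_norm _).trans (hμ j)) c
  have h3 : ‖(RCLike.I : 𝕜)‖ ^ 2 ≤ 1 := by
    by_cases hI : (RCLike.I : 𝕜) = 0
    · rw [hI]; simp
    · rw [RCLike.norm_I_of_ne_zero hI]; simp
  rw [e]
  refine (hq.add_le _ _).trans ?_
  rw [hq.hom]
  have h4 := hq.nonneg (fun j => ((RCLike.im (μ j) : ℝ) : 𝕜) * c j)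
  nlinarith

theorem CQ.le_eo [Fintype ι] [DecidableEq ι] {q : (ι → 𝕜) → ℝ} (hq : CQ q) {κ : Type}
    (σ : Finset κ) (c : κ → 𝕜) (y : κ → ι → 𝕜) :
    q (∑ j ∈ σ, c j • y j) ≤ σ.card * ∑ j ∈ σ, ‖c j‖ ^ 2 * q (y j) := by
  rcases σ.eq_empty_or_nonempty with rfl | hσ
  · simp [hq.zero]
  have hn : (0 : ℝ) < σ.card := by exact_mod_cast hσ.card_pos
  have h := hq.convex.map_sum_le (t := σ) (w := fun _ => (1 / σ.card : ℝ))
    (p := fun j => c j • y j) (fun _ _ => by positivity)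
    (by rw [Finset.sum_const, nsmul_eq_mul]; field_simp) (fun _ _ => Set.mem_univ _)
  rw [← Finset.smul_sum, hq.hom_real] at h
  simp only [smul_eq_mul, hq.hom, ← Finset.mul_sum] at h
  generalize q (∑ j ∈ σ, c j • y j) = A at h ⊢
  generalize ∑ j ∈ σ, ‖c j‖ ^ 2 * q (y j) = B at h ⊢
  generalize (σ.card : ℝ) = n at h hn ⊢
  have h2 : A = n ^ 2 * ((1 / n : ℝ) ^ 2 * A) := by
    field_simp
  rw [h2]
  calc _ ≤ n ^ 2 * (1 / n * B) := by gcongr
    _ = _ := by field_simp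

theorem CQ.exists_le_eo [Fintype ι] [DecidableEq ι] {q : (ι → 𝕜) → ℝ} (hq : CQ q) :
    ∃ K, 0 ≤ K ∧ ∀ c, q c ≤ K * eo Finset.univ c := by
  refine ⟨(Finset.univ : Finset ι).card * ∑ j, q (Pi.single j 1), mul_nonneg (Nat.cast_nonneg _)
    (Finset.sum_nonneg fun j _ => hq.nonneg _), fun c => ?_⟩
  have h := hq.le_eo Finset.univ c (fun j => Pi.single j 1)
  have e : ∑ j, c j • (Pi.single j 1 : ι → 𝕜) = c := by
    funext i; simp [Finset.sum_apply, Pi.single_apply]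
  rw [e] at h
  refine h.trans ?_
  rw [mul_assoc]
  refine mul_le_mul_of_nonneg_left ?_ (Nat.cast_nonneg _)
  unfold eo
  rw [Finset.mul_sum]
  refine Finset.sum_le_sum fun j _ => ?_
  rw [mul_comm]
  exact mul_le_mul_of_nonneg_right (Finset.single_le_sum (f := fun j => q (Pi.single j 1))
    (fun j _ => hq.nonneg _) (Finset.mem_univ j)) (sq_nonneg _)

end cq

end Pool.Agent.Lib.MP_435322_an
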