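import Pool.Agent.Lib.MP_435322_an.Sample

/-! Quadratic functions that can be realised arbitrarily far out in an l2-sum. -/

set_option linter.unusedSectionVars false

namespace Pool.Agent.Lib.MP_435322_an

open Finset

variable {𝕜 : Type*} [RCLike 𝕜] (X : ℕ → Type*) [∀ n, NormedAddCommGroup (X n)]
  [∀ n, NormedSpace 𝕜 (X n)]

/-- `F` is approximately the squared norm pulled back from finitely many far coordinates -/
def Rep {ι : Type} [Fintype ι] (F : (ι → 𝕜) → ℝ) : Prop :=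
  CQ F ∧ ∀ δ : ℝ, 0 < δ → ∀ N : ℕ, ∃ N', N ≤ N' ∧ ∃ T : ∀ k, (ι → 𝕜) →ₗ[𝕜] X k,
    ∀ c, |∑ k ∈ Finset.Ico N N', ‖T k c‖ ^ 2 - F c| ≤ δ * eo Finset.univ c

variable {X} {ι : Type} [Fintype ι]

theorem rep_zero : Rep X (fun _ : ι → 𝕜 => (0 : ℝ)) :=
  ⟨cq_zero, fun δ hδ N => ⟨N, le_rfl, fun _ => 0, fun c => by
    simpa using mul_nonneg hδ.le (eo_nonneg _ c)⟩⟩

theorem Rep.add {F G : (ι → 𝕜) → ℝ} (hF : Rep X F) (hG : Rep X G) :
    Rep X (fun c => F c + G c) := by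
  refine ⟨hF.1.add hG.1, fun δ hδ N => ?_⟩
  obtain ⟨N1, h1, T1, hT1⟩ := hF.2 (δ / 2) (by positivity) N
  obtain ⟨N2, h2, T2, hT2⟩ := hG.2 (δ / 2) (by positivity) N1
  refine ⟨N2, h1.trans h2, fun k => if k < N1 then T1 k else T2 k, fun c => ?_⟩
  rw [← Finset.sum_Ico_consecutive _ h1 h2]
  have e1 : ∑ k ∈ Finset.Ico N N1, ‖(if k < N1 then T1 k else T2 k) c‖ ^ 2
      = ∑ k ∈ Finset.Ico N N1, ‖T1 k c‖ ^ 2 :=
    Finset.sum_congr rfl fun k hk => by rw [if_pos (Finset.mem_Ico.1 hk).2]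
  have e2 : ∑ k ∈ Finset.Ico N1 N2, ‖(if k < N1 then T1 k else T2 k) c‖ ^ 2
      = ∑ k ∈ Finset.Ico N1 N2, ‖T2 k c‖ ^ 2 :=
    Finset.sum_congr rfl fun k hk => by rw [if_neg (not_lt.2 (Finset.mem_Ico.1 hk).1)]
  rw [e1, e2]
  have a1 := abs_le.1 (hT1 c)
  have a2 := abs_le.1 (hT2 c)
  rw [abs_le]
  constructor <;> linarith [a1.1, a1.2, a2.1, a2.2]

theorem Rep.comp {κ : Type} [Fintype κ] [DecidableEq κ] {F : (ι → 𝕜) → ℝ} (hF : Rep X F)
    (S : (κ → 𝕜) →ₗ[𝕜] (ι → 𝕜)) : Rep X (fun c => F (S c)) := by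
  refine ⟨hF.1.comp S, fun δ hδ N => ?_⟩
  obtain ⟨K, hK0, hK⟩ := ((cq_eo (𝕜 := 𝕜) (Finset.univ : Finset ι)).comp S).exists_le_eo
  obtain ⟨N1, h1, T, hT⟩ := hF.2 (δ / (K + 1)) (by positivity) N
  refine ⟨N1, h1, fun k => (T k).comp S, fun c => (hT (S c)).trans ?_⟩
  have h2 := hK c
  have h3 := eo_nonneg Finset.univ c
  calc δ / (K + 1) * eo Finset.univ (S c) ≤ δ / (K + 1) * ((K + 1) * eo Finset.univ c) := by
        refine mul_le_mul_of_nonneg_left ?_ (by positivity)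
        linarith
    _ = _ := by field_simp

theorem Rep.mul [DecidableEq ι] {F : (ι → 𝕜) → ℝ} (hF : Rep X F) {a : ℝ} (ha : 0 ≤ a) :
    Rep X (fun c => a * F c) := by
  have h := hF.comp (((√a : ℝ) : 𝕜) • LinearMap.id)
  have e : (fun c => F ((((√a : ℝ) : 𝕜) • LinearMap.id : (ι → 𝕜) →ₗ[𝕜] (ι → 𝕜)) c))
      = fun c => a * F c := by
    funext c
    rw [LinearMap.smul_apply, LinearMap.id_apply, hF.1.hom, RCLike.norm_ofReal, sq_abs,
      Real.sq_sqrt ha]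
  rwa [e] at h

theorem Rep.sum {κ : Type*} (s : Finset κ) {F : κ → (ι → 𝕜) → ℝ} (h : ∀ k ∈ s, Rep X (F k)) :
    Rep X (fun c => ∑ k ∈ s, F k c) := by
  classical
  induction s using Finset.induction_on with
  | empty => simpa using rep_zero
  | insert j s hj ih =>
    simp only [Finset.sum_insert hj]
    exact (h j (Finset.mem_insert_self _ _)).add (ih fun k hk => h k (Finset.mem_insert_of_mem hk))

theorem Rep.nn [DecidableEq ι] {κ I : Type} [Fintype κ] [Fintype I] [DecidableEq I]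
    {q : (κ → 𝕜) → ℝ} (hq : Rep X q) {p : I → ℝ} (hp : IsW p) (u : I → κ → 𝕜) :
    Rep X (NN (ι := ι) q p u) :=
  Rep.sum Finset.univ (F := fun (ζ : ι → I × ℤˣ) c => (∏ j, wt p (ζ j)) *
      q (Fintype.linearCombination 𝕜 (fun j => zv u (ζ j)) c))
    fun ζ _ => (hq.comp _).mul ((isW_wt hp).prod_nonneg ζ)

/-- a function realised exactly in one coordinate, arbitrarily far out -/
theorem rep_of_single {F : (ι → 𝕜) → ℝ} (hF : CQ F)
    (h : ∀ δ : ℝ, 0 < δ → ∀ N : ℕ, ∃ n, N ≤ n ∧ ∃ T : (ι → 𝕜) →ₗ[𝕜] X n,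
      ∀ c, |‖T c‖ ^ 2 - F c| ≤ δ * eo Finset.univ c) : Rep X F := by
  refine ⟨hF, fun δ hδ N => ?_⟩
  obtain ⟨n, hn, T, hT⟩ := h δ hδ N
  refine ⟨n + 1, by omega, Pi.single n T, fun c => ?_⟩
  rw [Finset.sum_eq_single n]
  · rw [Pi.single_eq_same]; exact hT c
  · intro k _ hk
    rw [Pi.single_eq_of_ne hk]; simp
  · intro h; exact (h (Finset.mem_Ico.2 ⟨hn, by omega⟩)).elim

theorem rep_eo (hX : ∀ N, ∃ n, N ≤ n ∧ ∃ x : X n, ‖x‖ = 1) (σ : Finset ι) :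
    Rep X (eo (𝕜 := 𝕜) σ) := by
  refine Rep.sum σ (F := fun j c => ‖c j‖ ^ 2) fun j _ => ?_
  refine rep_of_single (cq_normsq (LinearMap.proj j : (ι → 𝕜) →ₗ[𝕜] 𝕜)) fun δ hδ N => ?_
  obtain ⟨n, hn, x, hx⟩ := hX N
  refine ⟨n, hn, (LinearMap.proj j : (ι → 𝕜) →ₗ[𝕜] 𝕜).smulRight x, fun c => ?_⟩
  rw [LinearMap.smulRight_apply, norm_smul, hx, mul_one, LinearMap.proj_apply, sub_self, abs_zero]
  exact mul_nonneg hδ.le (eo_nonneg _ _)

theorem eq_zero_of_eo {c : ι → 𝕜} (h : eo Finset.univ c ≤ 0) : c = 0 := by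
  funext j
  have h3 : ‖c j‖ ^ 2 ≤ eo Finset.univ c :=
    Finset.single_le_sum (f := fun j => ‖c j‖ ^ 2) (fun _ _ => sq_nonneg _) (Finset.mem_univ j)
  have h4 : ‖c j‖ ^ 2 = 0 := le_antisymm (h3.trans h) (sq_nonneg _)
  simpa using h4

/-- a failing inequality survives a small Euclidean perturbation -/
theorem exists_perturb {b : Bool} {q : (ι → 𝕜) → ℝ} {m : ℕ} {B : ℝ} (hB : 0 ≤ B)
    (h : ¬ Inv b q m B) :
    ∃ η : ℝ, 0 < η ∧ ¬ Inv b (fun c => q c + η * eo Finset.univ c) m B := by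
  simp only [Inv, not_forall] at h
  obtain ⟨n, hn, x, hx⟩ := h
  set A := ∑ i, eo Finset.univ (x i) with hA
  have hA0 : 0 ≤ A := Finset.sum_nonneg fun _ _ => eo_nonneg _ _
  have e1 : ∀ η : ℝ, rad (fun c => q c + η * eo Finset.univ c) x = rad q x + η * A := fun η => by
    rw [rad_add, rad_mul, rad_eo]
  have e2 : ∀ η : ℝ, ∑ i, (q (x i) + η * eo Finset.univ (x i)) = ∑ i, q (x i) + η * A :=
    fun η => by rw [Finset.sum_add_distrib, Finset.mul_sum]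
  have gen : ∀ u v : ℝ, B * v < u → ∃ η : ℝ, 0 < η ∧ B * (v + η * A) < u + η * A := by
    intro u v huv
    have hd : 0 < B * A + 1 := by positivity
    refine ⟨(u - B * v) / (B * A + 1), div_pos (by linarith) hd, ?_⟩
    set η := (u - B * v) / (B * A + 1) with hη
    have h1 : η * (B * A + 1) = u - B * v := by rw [hη]; field_simp
    have h2 : 0 < η := div_pos (by linarith) hd
    nlinarith [mul_nonneg h2.le hA0]
  cases b
  · simp only [Ineq, Bool.false_eq_true, if_false, not_le] at hx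
    obtain ⟨η, hη, h⟩ := gen _ _ hx
    refine ⟨η, hη, fun hI => ?_⟩
    have := hI n hn x
    simp only [Ineq, Bool.false_eq_true, if_false, e1, e2] at this
    linarith
  · simp only [Ineq, if_true, not_le] at hx
    obtain ⟨η, hη, h⟩ := gen _ _ hx
    refine ⟨η, hη, fun hI => ?_⟩
    have := hI n hn x
    simp only [Ineq, if_true, e1, e2] at this
    linarith

theorem CQ.exists_inv [DecidableEq ι] {q : (ι → 𝕜) → ℝ} (hq : CQ q) {η : ℝ} (hη : 0 < η)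
    (h : ∀ c, η * eo Finset.univ c ≤ q c) (b : Bool) : ∃ K, 0 ≤ K ∧ ∀ m, Inv b q m K := by
  obtain ⟨K, hK0, hK⟩ := hq.exists_le_eo
  refine ⟨K * (1 / η) * 1, by positivity, fun m => ?_⟩
  refine Inv.transfer (AddMonoidHom.id _) hK0 (by positivity) hK (fun c => ?_) zero_le_one
    (inv_eo Finset.univ b m)
  rw [AddMonoidHom.id_apply, one_div, inv_mul_eq_div, le_div_iff₀ hη, mul_comm]
  exact h c

theorem exists_half (P : ℝ → Prop) (hP : ∀ a b, P a → a ≤ b → P b) {B K : ℝ} (hB : 0 < B)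
    (h1 : ¬ P B) (h2 : P K) : ∃ t, B ≤ t ∧ P t ∧ ¬ P (t / 2) := by
  classical
  have hex : ∃ k : ℕ, P (B * 2 ^ k) := by
    obtain ⟨k, hk⟩ := pow_unbounded_of_one_lt (K / B) (show (1 : ℝ) < 2 by norm_num)
    refine ⟨k, hP _ _ h2 ?_⟩
    rw [div_lt_iff₀ hB] at hk
    linarith
  have h3 := Nat.find_spec hex
  rcases h4 : Nat.find hex with _ | k
  · rw [h4] at h3; simp at h3; exact (h1 h3).elim
  · rw [h4] at h3
    refine ⟨B * 2 ^ (k + 1), ?_, h3, ?_⟩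
    · have : (1 : ℝ) ≤ 2 ^ (k + 1) := one_le_pow₀ (by norm_num)
      nlinarith
    · have h5 := Nat.find_min hex (show k < Nat.find hex by omega)
      have e : B * 2 ^ (k + 1) / 2 = B * 2 ^ k := by ring
      rwa [e]

/-- normalising a tuple -/
theorem exists_clean {q : (ι → 𝕜) → ℝ} (hq : CQ q) (h0 : ∀ v, q v ≤ 0 → v = 0) {n : ℕ}
    (x : Fin n → ι → 𝕜) (hS : 0 < ∑ i, q (x i)) :
    ∃ (I : Type) (_ : Fintype I) (_ : DecidableEq I) (p : I → ℝ) (u : I → ι → 𝕜),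
      IsW p ∧ (∀ i, 0 < p i) ∧ (∀ i, q (u i) = 1) ∧
      rho q u (fun i => ((√(p i) : ℝ) : 𝕜)) = rad q x / ∑ i, q (x i) := by
  classical
  set S := ∑ i, q (x i) with hSdef
  have hpos : ∀ i : {i // x i ≠ 0}, 0 < q (x i) := fun i =>
    lt_of_not_ge fun h => i.2 (h0 _ h)
  refine ⟨{i // x i ≠ 0}, inferInstance, inferInstance, fun i => q (x i) / S,
    fun i => (1 / √(q (x i)) : ℝ) • x i, ⟨fun i => div_nonneg (hq.nonneg _) hS.le, ?_⟩,
    fun i => div_pos (hpos i) hS, fun i => ?_, ?_⟩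
  · rw [← Finset.sum_div, div_eq_one_iff_eq hS.ne', hSdef]
    refine Finset.sum_of_injOn Subtype.val Subtype.val_injective.injOn
      (fun _ _ => Finset.mem_univ _) ?_ (fun _ _ => rfl)
    intro j _ hj
    have : x j = 0 := by
      by_contra h
      exact hj ⟨⟨j, h⟩, Finset.mem_coe.2 (Finset.mem_univ _), rfl⟩
    rw [this, hq.zero]
  · rw [hq.hom_real, div_pow, Real.sq_sqrt (hpos i).le]
    have := hpos i
    field_simp
  · rw [rad_inj (Subtype.val : {i // x i ≠ 0} → Fin n) Subtype.val_injective q x (fun j hj => by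
      by_contra h
      exact hj ⟨⟨j, h⟩, rfl⟩)]
    unfold rho
    have e : (fun i : {i // x i ≠ 0} =>
        ((√(q (x i) / S) : ℝ) : 𝕜) • (1 / √(q (x i)) : ℝ) • x i)
        = fun i : {i // x i ≠ 0} => ((1 / √S : ℝ) : 𝕜) • x i := by
      funext i
      rw [RCLike.real_smul_eq_coe_smul (K := 𝕜), smul_smul, ← RCLike.ofReal_mul,
        Real.sqrt_div (hpos i).le]
      have h1 : 0 < √(q (x i)) := Real.sqrt_pos.2 (hpos i)
      congr 2
      field_simp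
    rw [e]
    have h2 := rad_map (((1 / √S : ℝ) : 𝕜) • LinearMap.id : (ι → 𝕜) →ₗ[𝕜] (ι → 𝕜)).toAddMonoidHom q
      (fun i : {i // x i ≠ 0} => x i)
    simp only [LinearMap.toAddMonoidHom_coe, LinearMap.smul_apply, LinearMap.id_apply, hq.hom,
      rad_mul] at h2
    rw [h2, RCLike.norm_ofReal, sq_abs, div_pow, Real.sq_sqrt hS.le]
    ring

theorem exists_min_pos {I : Type} [Fintype I] {p : I → ℝ} (hp : ∀ i, 0 < p i) :
    ∃ η, 0 < η ∧ ∀ i, η ≤ p i := by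
  rcases isEmpty_or_nonempty I with h | h
  · exact ⟨1, one_pos, fun i => isEmptyElim i⟩
  · obtain ⟨i, hi⟩ := Finite.exists_min p
    exact ⟨p i, hp i, hi⟩

end Pool.Agent.Lib.MP_435322_an
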