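import Pool.Agent.Lib.MP_435322_an.Rad

/-! The symmetric quadratic function obtained by sampling from a finite family of vectors. -/

set_option linter.unusedSectionVars false

namespace Pool.Agent.Lib.MP_435322_an

open Finset

variable {𝕜 : Type*} [RCLike 𝕜] {κ I ι : Type} [Fintype I] [DecidableEq I] [Fintype ι]
  [DecidableEq ι]

/-- weight on signed indices -/
noncomputable def wt (p : I → ℝ) : I × ℤˣ → ℝ := fun a => p a.1 / 2

theorem isW_wt {p : I → ℝ} (hp : IsW p) : IsW (wt p) := by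
  refine ⟨fun a => div_nonneg (hp.nonneg _) (by norm_num), ?_⟩
  rw [Fintype.sum_prod_type]
  simp only [sum_units, wt, add_halves]
  exact hp.sum_eq

/-- signed vector -/
def zv (u : I → κ → 𝕜) (a : I × ℤˣ) : κ → 𝕜 := a.2 • u a.1

/-- the sampled function -/
noncomputable def NN (q : (κ → 𝕜) → ℝ) (p : I → ℝ) (u : I → κ → 𝕜) (c : ι → 𝕜) : ℝ :=
  Ex (wt p) (fun ζ : ι → I × ℤˣ => q (∑ j, c j • zv u (ζ j)))

/-- Rademacher average of multiples of the family -/
noncomputable def rho (q : (κ → 𝕜) → ℝ) (u : I → κ → 𝕜) (α : I → 𝕜) : ℝ :=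
  rad q (fun i => α i • u i)

variable {q : (κ → 𝕜) → ℝ} {p : I → ℝ} {u : I → κ → 𝕜}

theorem CQ.units (hq : CQ q) (e : ℤˣ) (v : κ → 𝕜) : q (e • v) = q v := by
  rcases Int.units_eq_one_or e with rfl | rfl
  · rw [one_smul]
  · rw [Units.neg_smul, one_smul, hq.neg]

theorem cq_NN (hq : CQ q) (hp : IsW p) : CQ (NN (ι := ι) q p u) :=
  CQ.ex (isW_wt hp) (q := fun ζ c => q (Fintype.linearCombination 𝕜 (fun j => zv u (ζ j)) c))
    fun ζ => hq.comp _

theorem cq_rho (hq : CQ q) : CQ (rho q u) := by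
  have h := CQ.ex (𝕜 := 𝕜) (ι := I) isW_hf
    (q := fun (ε : I → ℤˣ) α => q (Fintype.linearCombination 𝕜 (fun i => ε i • u i) α))
    fun ε => hq.comp _
  have e : rho q u = fun α => Ex hf (fun ε : I → ℤˣ =>
      q (Fintype.linearCombination 𝕜 (fun i => ε i • u i) α)) := by
    funext α
    unfold rho rad
    refine Ex_congr fun ε => ?_
    rw [Fintype.linearCombination_apply]
    simp only [smul_comm (ε _)]
  rw [e]; exact h

theorem signInv_rho : SignInv (rho q u) := by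
  intro s α
  unfold rho
  rw [← rad_sign q (fun i => α i • u i) s]
  simp only [smul_assoc]

theorem NN_sign (s : ι → ℤˣ) (c : ι → 𝕜) :
    Ex (wt p) (fun ζ : ι → I × ℤˣ => q (∑ j, s j • c j • zv u (ζ j))) = NN q p u c := by
  unfold NN
  rw [← Ex_perm (w := wt p) (fun j => Equiv.prodCongr (Equiv.refl I) (Equiv.mulLeft (s j)))
    (fun _ _ => rfl) (fun ζ : ι → I × ℤˣ => q (∑ j, c j • zv u (ζ j)))]
  refine Ex_congr fun ζ => ?_
  congr 1
  refine Finset.sum_congr rfl fun j _ => ?_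
  have : zv u ((Equiv.prodCongr (Equiv.refl I) (Equiv.mulLeft (s j))) (ζ j))
      = s j • zv u (ζ j) := by
    simp [zv, mul_smul]
  rw [this, smul_comm]

theorem signInv_NN : SignInv (NN (ι := ι) q p u) := by
  intro s c
  rw [← NN_sign s c]
  unfold NN
  simp only [smul_assoc]

theorem NN_inj (hp : IsW p) {ι' : Type} [Fintype ι'] [DecidableEq ι'] (e : ι' → ι)
    (he : Function.Injective e) (c : ι → 𝕜) (hc : ∀ j, j ∉ Set.range e → c j = 0) :
    NN q p u c = NN q p u (fun k => c (e k)) := by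
  unfold NN
  rw [← Ex_inj (isW_wt hp) e he (fun ζ : ι' → I × ℤˣ => q (∑ k, c (e k) • zv u (ζ k)))]
  refine Ex_congr fun ζ => ?_
  congr 1
  symm
  refine Finset.sum_of_injOn e he.injOn (fun _ _ => Finset.mem_univ _) ?_ (fun _ _ => rfl)
  intro j _ hj
  rw [hc j (by simpa using hj), zero_smul]

theorem NN_eq_rad (c : ι → 𝕜) :
    NN q p u c = Ex (wt p) (fun ζ : ι → I × ℤˣ => rad q (fun j => c j • zv u (ζ j))) := by
  unfold rad
  rw [Ex_comm]
  simp only [NN_sign]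
  rw [Ex_const isW_hf]

/-- the signed indicator of index `i` -/
noncomputable def Zs (i : I) (a : I × ℤˣ) : ℝ := if a.1 = i then sg a.2 else 0

/-- the coefficient collected at index `i` -/
noncomputable def Ys (c : ι → 𝕜) (ζ : ι → I × ℤˣ) (i : I) : 𝕜 := ∑ j, c j * (Zs i (ζ j) : 𝕜)

theorem NN_eq_rho (c : ι → 𝕜) :
    NN q p u c = Ex (wt p) (fun ζ : ι → I × ℤˣ => rho q u (Ys c ζ)) := by
  unfold rho rad
  rw [Ex_comm]
  have key : ∀ s : I → ℤˣ,
      Ex (wt p) (fun ζ : ι → I × ℤˣ => q (∑ i, s i • Ys c ζ i • u i)) = NN q p u c := by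
    intro s
    unfold NN
    rw [← Ex_perm (w := wt p)
      (fun _ => Equiv.prodCongrRight (fun i : I => Equiv.mulLeft (s i)))
      (fun _ _ => rfl) (fun ζ : ι → I × ℤˣ => q (∑ j, c j • zv u (ζ j)))]
    refine Ex_congr fun ζ => ?_
    congr 1
    unfold Ys
    simp only [Finset.sum_smul, Finset.smul_sum]
    rw [Finset.sum_comm]
    refine Finset.sum_congr rfl fun j _ => ?_
    rw [Finset.sum_eq_single (ζ j).1]
    · have : zv u ((Equiv.prodCongrRight (fun i : I => Equiv.mulLeft (s i))) (ζ j))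
          = s (ζ j).1 • (ζ j).2 • u (ζ j).1 := by
        rcases h : ζ j with ⟨i, e⟩
        simp [zv, mul_smul]
      rw [this, smul_comm (c j), mul_smul, units_smul_eq (𝕜 := 𝕜) (ζ j).2]
      simp [Zs]
    · intro i _ hi
      simp [Zs, Ne.symm hi]
    · intro h; exact (h (Finset.mem_univ _)).elim
  simp only [key]
  rw [Ex_const isW_hf]

theorem Ys_moments (hp : IsW p) (c : ι → 𝕜) (i : I) :
    Ex (wt p) (fun ζ => ‖Ys c ζ i‖ ^ 2) = p i * eo Finset.univ c ∧
    Ex (wt p) (fun ζ => (‖Ys c ζ i‖ ^ 2) ^ 2) ≤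
      3 * p i ^ 2 * eo Finset.univ c ^ 2 + p i * ∑ j, (‖c j‖ ^ 2) ^ 2 := by
  have gen : ∀ n : ℕ, ∑ a, wt p a * Zs i a ^ (n + 1) = p i / 2 * (1 + (-1) ^ (n + 1)) := by
    intro n
    rw [Fintype.sum_prod_type, Finset.sum_eq_single i]
    · rw [sum_units]; simp only [wt, Zs, if_true, sg_one, sg_neg_one]; ring
    · intro i' _ hi
      simp [Zs, hi]
    · intro h; exact (h (Finset.mem_univ _)).elim
  refine Ex_moments (isW_wt hp) (Zs i) (p i) (p i) ?_ ?_ ?_ ?_ c Finset.univ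
  · have := gen 0; simpa using this
  · rw [gen 1]; ring
  · rw [gen 2]; ring
  · rw [gen 3]; ring

/-- lower bound on flat vectors -/
theorem NN_flat_ge (hq : CQ q) (hp : IsW p) (c : ι → 𝕜)
    (hc : ∀ i, ∑ j, (‖c j‖ ^ 2) ^ 2 ≤ p i * eo Finset.univ c ^ 2) :
    eo Finset.univ c * rho q u (fun i => ((√(p i) : ℝ) : 𝕜)) ≤ 576 * NN q p u c := by
  have hw := isW_wt hp
  set A := eo Finset.univ c with hA
  have hA0 : 0 ≤ A := eo_nonneg _ _
  have h1 : ∀ i, √(p i * A) / (2 * 3) ≤ Ex (wt p) (fun ζ => ‖Ys c ζ i‖) := by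
    intro i
    have hpi := hp.nonneg i
    have hm := Ys_moments hp c i
    have hs : √(p i * A) ^ 2 = p i * A := Real.sq_sqrt (mul_nonneg hpi hA0)
    refine Ex_first_ge hw _ (fun _ => norm_nonneg _) _ 3 (Real.sqrt_nonneg _) (by norm_num)
      (by rw [hm.1, hs]) (hm.2.trans ?_)
    have h4 : √(p i * A) ^ 4 = (p i * A) ^ 2 := by
      rw [show √(p i * A) ^ 4 = (√(p i * A) ^ 2) ^ 2 by ring, hs]
    rw [h4]
    have := mul_le_mul_of_nonneg_left (hc i) hpi
    nlinarith [sq_nonneg (p i * A)]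
  have hρ := cq_rho (u := u) hq
  have h2 : rho q u (fun i => ((√(p i * A) / (2 * 3) : ℝ) : 𝕜))
      ≤ 4 * rho q u (fun i => ((Ex (wt p) (fun ζ => ‖Ys c ζ i‖) : ℝ) : 𝕜)) := by
    refine hρ.contract signInv_rho fun i => ?_
    rw [RCLike.norm_ofReal, RCLike.norm_ofReal, abs_of_nonneg (by positivity),
      abs_of_nonneg (Ex_nonneg hw fun _ => norm_nonneg _)]
    exact h1 i
  have h3 : rho q u (fun i => ((Ex (wt p) (fun ζ => ‖Ys c ζ i‖) : ℝ) : 𝕜))
      ≤ Ex (wt p) (fun ζ => rho q u (fun i => ((‖Ys c ζ i‖ : ℝ) : 𝕜))) := by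
    have h := Ex_jensen hw hρ.convex (fun (ζ : ι → I × ℤˣ) (i : I) => ((‖Ys c ζ i‖ : ℝ) : 𝕜))
    refine le_of_eq_of_le ?_ h
    congr 1
    funext i
    simp only [Ex, Finset.sum_apply, Pi.smul_apply, RCLike.real_smul_eq_coe_mul]
    push_cast
    rfl
  have h4 : Ex (wt p) (fun ζ => rho q u (fun i => ((‖Ys c ζ i‖ : ℝ) : 𝕜)))
      ≤ 4 * NN q p u c := by
    rw [NN_eq_rho, ← Ex_mul]
    refine Ex_mono hw fun ζ => hρ.contract signInv_rho fun i => ?_
    rw [RCLike.norm_ofReal, abs_norm]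
  have h5 : rho q u (fun i => ((√(p i * A) / (2 * 3) : ℝ) : 𝕜))
      = A / 36 * rho q u (fun i => ((√(p i) : ℝ) : 𝕜)) := by
    have e : (fun i => ((√(p i * A) / (2 * 3) : ℝ) : 𝕜))
        = (√A / 6 : ℝ) • (fun i => ((√(p i) : ℝ) : 𝕜)) := by
      funext i
      rw [Pi.smul_apply, RCLike.real_smul_eq_coe_mul, ← RCLike.ofReal_mul,
        Real.sqrt_mul (hp.nonneg i)]
      congr 1; ring
    rw [e, hρ.hom_real, div_pow, Real.sq_sqrt hA0]; norm_num
  linarith

/-- upper bound on flat vectors under type 2 -/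
theorem NN_flat_le (hq : CQ q) (hp : IsW p) (hp0 : ∀ i, 0 < p i) (hu : ∀ i, q (u i) ≤ 1)
    {T : ℝ} (hT0 : 0 ≤ T) (hT : ∀ m, Inv true q m T) (c : ι → 𝕜) {B Λ : ℝ} (hB : 0 < B)
    (hΛ : 0 < Λ) (hA : eo Finset.univ c ≤ B) (hc : ∀ i, ∑ j, (‖c j‖ ^ 2) ^ 2 ≤ p i * B ^ 2) :
    NN q p u c ≤ 8 * Λ * B * rho q u (fun i => ((√(p i) : ℝ) : 𝕜)) + 8 * T * B / Λ := by
  have hw := isW_wt hp
  have hρ := cq_rho (u := u) hq
  have hA0 : 0 ≤ eo Finset.univ c := eo_nonneg _ _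
  set ρ0 := rho q u (fun i => ((√(p i) : ℝ) : 𝕜)) with hρ0
  have key : ∀ Y : I → 𝕜, rho q u Y ≤ 8 * Λ * B * ρ0
      + 2 * T * ∑ i, 1 / (Λ * p i * B) * (‖Y i‖ ^ 2) ^ 2 := by
    intro Y
    let Y1 : I → 𝕜 := fun i => if ‖Y i‖ ^ 2 ≤ Λ * p i * B then Y i else 0
    let Y2 : I → 𝕜 := fun i => if ‖Y i‖ ^ 2 ≤ Λ * p i * B then 0 else Y i
    have e : Y = Y1 + Y2 := by
      funext i; simp only [Y1, Y2, Pi.add_apply]; split_ifs <;> simp
    have h1 : rho q u Y1 ≤ 4 * (Λ * B * ρ0) := by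
      have h := hρ.contract signInv_rho (c' := Y1)
        (c := (√(Λ * B) : ℝ) • (fun i => ((√(p i) : ℝ) : 𝕜))) (fun i => by
          rw [Pi.smul_apply, RCLike.real_smul_eq_coe_mul, ← RCLike.ofReal_mul, RCLike.norm_ofReal,
            abs_of_nonneg (by positivity), ← Real.sqrt_mul (by positivity)]
          simp only [Y1]
          split_ifs with h
          · exact Real.le_sqrt_of_sq_le (by linarith)
          · rw [norm_zero]; exact Real.sqrt_nonneg _)
      rwa [hρ.hom_real, Real.sq_sqrt (by positivity)] at h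
    have h2 : rho q u Y2 ≤ T * ∑ i, 1 / (Λ * p i * B) * (‖Y i‖ ^ 2) ^ 2 := by
      have h := Inv.fintype hT (fun i => Y2 i • u i)
      simp only [Ineq, if_true] at h
      refine h.trans (mul_le_mul_of_nonneg_left (Finset.sum_le_sum fun i _ => ?_) hT0)
      have hpi := hp0 i
      rw [hq.hom]
      have h3 : ‖Y2 i‖ ^ 2 ≤ 1 / (Λ * p i * B) * (‖Y i‖ ^ 2) ^ 2 := by
        simp only [Y2]
        split_ifs with h
        · rw [norm_zero, zero_pow two_ne_zero]; positivity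
        · rw [one_div, inv_mul_eq_div, le_div_iff₀ (by positivity)]
          nlinarith [sq_nonneg ‖Y i‖]
      calc _ ≤ ‖Y2 i‖ ^ 2 * 1 := by gcongr; exact hu i
        _ ≤ _ := by rw [mul_one]; exact h3
    have h3 := hρ.add_le Y1 Y2
    rw [← e] at h3
    linarith
  rw [NN_eq_rho]
  refine (Ex_mono hw fun ζ => key (Ys c ζ)).trans ?_
  rw [Ex_add, Ex_const hw, Ex_mul, Ex_sum]
  have h4 : ∑ i, Ex (wt p) (fun ζ => 1 / (Λ * p i * B) * (‖Ys c ζ i‖ ^ 2) ^ 2)
      ≤ ∑ i, 4 * B / Λ * p i := by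
    refine Finset.sum_le_sum fun i _ => ?_
    rw [Ex_mul]
    have hpi := hp0 i
    have h5 : Ex (wt p) (fun ζ => (‖Ys c ζ i‖ ^ 2) ^ 2) ≤ 4 * p i ^ 2 * B ^ 2 := by
      refine (Ys_moments hp c i).2.trans ?_
      have h6 : eo Finset.univ c ^ 2 ≤ B ^ 2 := by gcongr
      have h7 := mul_le_mul_of_nonneg_left (hc i) hpi.le
      nlinarith [mul_le_mul_of_nonneg_left h6 (sq_nonneg (p i))]
    calc _ ≤ 1 / (Λ * p i * B) * (4 * p i ^ 2 * B ^ 2) := by gcongr
      _ = _ := by field_simp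
  rw [← Finset.mul_sum, hp.sum_eq, mul_one] at h4
  have h8 : 2 * T * ∑ i, Ex (wt p) (fun ζ => 1 / (Λ * p i * B) * (‖Ys c ζ i‖ ^ 2) ^ 2)
      ≤ 2 * T * (4 * B / Λ) := by gcongr
  have h9 : 2 * T * (4 * B / Λ) = 8 * T * B / Λ := by ring
  linarith

theorem q_zv (hq : CQ q) (a : I × ℤˣ) : q (zv u a) = q (u a.1) := hq.units _ _

theorem NN_sparse_le [Fintype κ] [DecidableEq κ] (hq : CQ q) (hp : IsW p)
    (hu : ∀ i, q (u i) ≤ 1) (σ : Finset ι)
    (c : ι → 𝕜) (hc : ∀ j, j ∉ σ → c j = 0) : NN q p u c ≤ σ.card * eo σ c := by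
  have hw := isW_wt hp
  rw [← Ex_const (ι := ι) hw (σ.card * eo σ c)]
  refine Ex_mono hw fun ζ => ?_
  have e : ∑ j, c j • zv u (ζ j) = ∑ j ∈ σ, c j • zv u (ζ j) :=
    (Finset.sum_subset (Finset.subset_univ σ) fun j _ hj => by rw [hc j hj, zero_smul]).symm
  rw [e]
  refine (hq.le_eo σ c _).trans (mul_le_mul_of_nonneg_left ?_ (Nat.cast_nonneg _))
  refine Finset.sum_le_sum fun j _ => ?_
  rw [q_zv hq]
  calc _ ≤ ‖c j‖ ^ 2 * 1 := by gcongr; exact hu _
    _ = _ := mul_one _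

theorem NN_type_le (hq : CQ q) (hp : IsW p) (hu : ∀ i, q (u i) ≤ 1) {T : ℝ} (hT0 : 0 ≤ T)
    (hT : ∀ m, Inv true q m T) (c : ι → 𝕜) : NN q p u c ≤ T * eo Finset.univ c := by
  have hw := isW_wt hp
  rw [NN_eq_rad, ← Ex_const (ι := ι) hw (T * eo Finset.univ c)]
  refine Ex_mono hw fun ζ => ?_
  have h := Inv.fintype hT (fun j => c j • zv u (ζ j))
  simp only [Ineq, if_true] at h
  refine h.trans (mul_le_mul_of_nonneg_left (Finset.sum_le_sum fun j _ => ?_) hT0)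
  rw [hq.hom, q_zv hq]
  calc _ ≤ ‖c j‖ ^ 2 * 1 := by gcongr; exact hu _
    _ = _ := mul_one _

/-- type 2 passes to the sampled function -/
theorem NN_inv (hp : IsW p) {T : ℝ} {m : ℕ} (hT : Inv true q m T) :
    Inv true (NN (ι := ι) q p u) m T := by
  have hw := isW_wt hp
  intro n hn x
  simp only [Ineq, if_true]
  have e1 : rad (NN q p u) x = Ex (wt p) (fun ζ : ι → I × ℤˣ =>
      rad q (fun l => Fintype.linearCombination 𝕜 (fun j => zv u (ζ j)) (x l))) := by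
    have : ∀ ζ : ι → I × ℤˣ,
        rad q (fun l => Fintype.linearCombination 𝕜 (fun j => zv u (ζ j)) (x l))
        = rad (fun v => q (Fintype.linearCombination 𝕜 (fun j => zv u (ζ j)) v)) x := fun ζ =>
      rad_map (Fintype.linearCombination 𝕜 (fun j => zv u (ζ j))).toAddMonoidHom q x
    simp only [this]
    unfold rad
    rw [Ex_comm]
    rfl
  have e2 : T * ∑ l, NN q p u (x l) = Ex (wt p) (fun ζ : ι → I × ℤˣ =>
      T * ∑ l, q (Fintype.linearCombination 𝕜 (fun j => zv u (ζ j)) (x l))) := by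
    rw [Ex_mul, Ex_sum]; rfl
  rw [e1, e2]
  refine Ex_mono hw fun ζ => ?_
  simpa only [Ineq, if_true] using hT n hn _

/-- coordinates carrying more than a fixed share of the mass -/
noncomputable def peak (η : ℝ) (c : ι → 𝕜) : Finset ι :=
  Finset.univ.filter (fun j => η * eo Finset.univ c < ‖c j‖ ^ 2)

theorem peak_card {η : ℝ} (hη : 0 < η) (c : ι → 𝕜) : (peak η c).card ≤ ⌈1 / η⌉₊ := by
  have hA0 : 0 ≤ eo Finset.univ c := eo_nonneg _ _
  have h1 : ((peak η c).card : ℝ) * (η * eo Finset.univ c) ≤ eo (peak η c) c := by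
    have := Finset.card_nsmul_le_sum (peak η c) (fun j => ‖c j‖ ^ 2) (η * eo Finset.univ c)
      (fun j hj => (Finset.mem_filter.1 hj).2.le)
    rwa [nsmul_eq_mul] at this
  have h2 : eo (peak η c) c ≤ eo Finset.univ c := eo_mono (Finset.subset_univ _) c
  rcases hA0.eq_or_lt with h0 | hA
  · have : peak η c = ∅ := by
      refine Finset.filter_eq_empty_iff.2 fun j _ hj => ?_
      have h3 : ‖c j‖ ^ 2 ≤ eo Finset.univ c :=
        Finset.single_le_sum (f := fun j => ‖c j‖ ^ 2) (fun _ _ => sq_nonneg _) (Finset.mem_univ j)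
      rw [← h0] at hj h3
      linarith
    rw [this]; simp
  · have h3 : ((peak η c).card : ℝ) ≤ 1 / η := by
      rw [le_div_iff₀ hη]
      have : ((peak η c).card : ℝ) * η * eo Finset.univ c ≤ 1 * eo Finset.univ c := by linarith
      exact le_of_mul_le_mul_right this hA
    exact_mod_cast h3.trans (Nat.le_ceil _)

/-- restriction of a vector to a set of coordinates -/
def res (σ : Finset ι) (c : ι → 𝕜) : ι → 𝕜 := fun j => if j ∈ σ then c j else 0

theorem res_add_compl (σ : Finset ι) (c : ι → 𝕜) : res σ c + res σᶜ c = c := by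
  funext j; simp only [res, Pi.add_apply, Finset.mem_compl]; split_ifs <;> simp

theorem norm_res_le (σ : Finset ι) (c : ι → 𝕜) (j : ι) : ‖res σ c j‖ ≤ ‖c j‖ := by
  unfold res; split_ifs
  · exact le_rfl
  · rw [norm_zero]; exact norm_nonneg _

theorem eo_res (σ : Finset ι) (c : ι → 𝕜) : eo Finset.univ (res σ c) = eo σ c := by
  unfold eo res
  rw [← Finset.sum_subset (Finset.subset_univ σ) (fun j _ hj => by simp [hj])]
  exact Finset.sum_congr rfl fun j hj => by rw [if_pos hj]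

theorem eo_res_self (σ : Finset ι) (c : ι → 𝕜) : eo σ (res σ c) = eo σ c :=
  Finset.sum_congr rfl fun j hj => by unfold res; rw [if_pos hj]

theorem res_peak_sq {η : ℝ} (c : ι → 𝕜) :
    ∑ j, (‖res (peak η c)ᶜ c j‖ ^ 2) ^ 2 ≤ η * eo Finset.univ c * eo (peak η c)ᶜ c := by
  rw [← eo_res (peak η c)ᶜ]
  conv_rhs => unfold eo
  rw [Finset.mul_sum]
  refine Finset.sum_le_sum fun j _ => ?_
  rw [sq (‖res (peak η c)ᶜ c j‖ ^ 2)]
  by_cases hj : j ∈ (peak η c)ᶜ
  · refine mul_le_mul_of_nonneg_right ?_ (sq_nonneg _)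
    have h1 : res (peak η c)ᶜ c j = c j := if_pos hj
    rw [h1]
    have h2 := Finset.mem_compl.1 hj
    simp only [peak, Finset.mem_filter, Finset.mem_univ, true_and, not_lt] at h2
    exact h2
  · have h1 : res (peak η c)ᶜ c j = 0 := if_neg hj
    rw [h1]; simp

end Pool.Agent.Lib.MP_435322_an
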