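import Pool.Agent.Lib.MP_435322_an.UBasic

/-! The asymptotically l2 case. -/

namespace Pool.Agent.Lib.MP_435322_an.UD

open Finset
open scoped NNReal

/-- two-sided l2 estimates for disjoint families of length at most `d` in the tail `m` -/
def AsE (ν : V → ℝ) (H : ℝ) (d m : ℕ) : Prop :=
  ∀ (I : Type) (s : Finset I) (x : I → V), s.card ≤ d →
    (∀ n p q, p ∈ s → q ∈ s → x p n ≠ 0 → x q n ≠ 0 → p = q) → (∀ i ∈ s, Tl m (x i)) →
    ν (∑ i ∈ s, x i) ^ 2 ≤ H * ∑ i ∈ s, ν (x i) ^ 2 ∧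
      ∑ i ∈ s, ν (x i) ^ 2 ≤ H * ν (∑ i ∈ s, x i) ^ 2

theorem as_sq {a b : ℝ} (h : a ^ 2 ≤ b ^ 2) (hb : 0 ≤ b) : a ≤ b :=
  (abs_le_of_sq_le_sq' h hb).2

theorem AsE.mono {ν : V → ℝ} {H : ℝ} {d m d' m' : ℕ} (h : AsE ν H d m) (hd : d' ≤ d)
    (hm : m ≤ m') : AsE ν H d' m' :=
  fun I s x h1 h2 h3 => h I s x (h1.trans hd) h2 fun i hi => (h3 i hi).mono hm

theorem as_exists {ν : V → ℝ} (h : LN ν) (hA : ¬ NonAs ν) :
    ∃ H : ℝ, 1 ≤ H ∧ ∀ d, ∃ m, AsE ν H d m := by
  unfold NonAs at hA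
  push Not at hA
  obtain ⟨D, hD⟩ := hA
  refine ⟨max D 1, le_max_right _ _, fun d => ?_⟩
  obtain ⟨m, hm⟩ := hD d
  refine ⟨m, fun I s x h1 h2 h3 => ?_⟩
  obtain ⟨k, hk, y, b, hy, e1, e2⟩ := normalize_fam h s x m h2 h3
  have h4 : ¬ Dev ν (max D 1) y := fun hd => hm k (hk.trans h1) y hy (hd.mono (le_max_left _ _))
  unfold Dev at h4
  push Not at h4
  obtain ⟨h5, h6⟩ := h4 b
  rw [e1, e2] at h5 h6
  exact ⟨h5, h6⟩

theorem as_normUp {ν : V → ℝ} (h : LN ν) (hb : NHb ν) {H : ℝ} (hH : ∀ d, ∃ m, AsE ν H d m) :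
    NormUp ν := by
  refine ⟨H, fun n m => ?_⟩
  obtain ⟨m1, hm1⟩ := hH n
  obtain ⟨lo, hi, y, m2, -, h1, h2, h3⟩ := sel_fin (J := Fin n)
    (fun _ lo hi (y : V) => ν y = 1 ∧ Win lo hi y) (max m m1) (by
      intro _ m'
      obtain ⟨k, y, hy, b, hb'⟩ := hb 0 m'
      rcases Nat.eq_zero_or_pos k with rfl | hk
      · simp [cmb, ssq, h.zero] at hb'
      · obtain ⟨w, hw, hw'⟩ := exists_win hy.2.2
        exact ⟨y ⟨0, hk⟩, w, hw, hy.1 _, hw' _⟩)
  have hd : Dj y := fun k p q hp hq =>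
    h3 p q k ((h2 p).2 k hp).1 ((h2 p).2 k hp).2 ((h2 q).2 k hq).1 ((h2 q).2 k hq).2
  refine ⟨y, hd, fun i => (h2 i).2.tl.mono ((le_max_left _ _).trans (h1 i).1),
    fun i => (h2 i).1.ge, fun t => ?_⟩
  have := (hm1 (Fin n) univ (fun i => t i • y i) (by simp)
    (fun k p q _ _ hp hq => hd k p q (smul_ne_zero_V hp) (smul_ne_zero_V hq))
    (fun i _ => ((h2 i).2.tl.mono ((le_max_right _ _).trans (h1 i).1)).smul _)).1
  simpa only [h.smul, (h2 _).1, mul_one, cmb, ssq] using this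

theorem as_greedy {ν : V → ℝ} (h : LN ν) {H : ℝ} (hH : 1 ≤ H) {M m : ℕ} (hAs : AsE ν H M m)
    {I : Type} [Fintype I] (u : I → V) (hd : Dj u) (ht : ∀ i, Tl m (u i)) {a : ℝ} (ha : 0 < a)
    (hua : ∀ i, ν (u i) ≤ a) (hw : 16 * H * M * a ^ 2 ≤ ν (∑ i, u i) ^ 2) :
    ∀ j ≤ M, ∃ A : ℕ → Finset I, (∀ l < j, ∀ l' < j, l ≠ l' → Disjoint (A l) (A l')) ∧
      ∀ l < j, a ≤ ν (∑ i ∈ A l, u i) ∧ ν (∑ i ∈ A l, u i) ≤ 2 * a := by
  classical
  intro j
  induction j with
  | zero => exact fun _ => ⟨fun _ => ∅, by simp, by simp⟩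
  | succ j ih =>
    intro hj
    obtain ⟨A, hA1, hA2⟩ := ih (by omega)
    set U := (range j).biUnion A with hU
    have e1 : ∑ i ∈ U, u i = ∑ l ∈ range j, ∑ i ∈ A l, u i :=
      Finset.sum_biUnion fun l hl l' hl' hne =>
        hA1 l (mem_range.1 hl) l' (mem_range.1 hl') hne
    have h1 := (hAs ℕ (range j) (fun l => ∑ i ∈ A l, u i) (by simp; omega)
      (fun n p q hp hq h1 h2 => by
        obtain ⟨i, hi, hi'⟩ := sum_ne_zero_V h1
        obtain ⟨i', hi2, hi2'⟩ := sum_ne_zero_V h2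
        have := hd n i i' hi' hi2'
        subst this
        by_contra hne
        exact Finset.disjoint_left.1 (hA1 p (mem_range.1 hp) q (mem_range.1 hq) hne) hi hi2)
      (fun l _ => Tl.sum fun i _ => ht i)).1
    have h2 : ∑ l ∈ range j, ν (∑ i ∈ A l, u i) ^ 2 ≤ j * (2 * a) ^ 2 := by
      have := Finset.sum_le_card_nsmul (range j) (fun l => ν (∑ i ∈ A l, u i) ^ 2) ((2 * a) ^ 2)
        fun l hl => pow_le_pow_left₀ (h.nonneg _) (hA2 l (mem_range.1 hl)).2 2
      simpa using this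
    have hjM : (j : ℝ) + 1 ≤ M := by exact_mod_cast hj
    have hj0 : (0 : ℝ) ≤ j := Nat.cast_nonneg j
    have h3 : ν (∑ i ∈ U, u i) ≤ ν (∑ i, u i) / 2 := by
      refine as_sq ?_ (by linarith [h.nonneg (∑ i, u i)])
      rw [e1]
      have : H * (j * (2 * a) ^ 2) ≤ H * (M * (2 * a) ^ 2) := by gcongr; linarith
      nlinarith [mul_le_mul_of_nonneg_left h2 (show 0 ≤ H by linarith)]
    have h4 : 2 * a ≤ ν (∑ i, u i) := by
      refine as_sq ?_ (h.nonneg _)
      have : 1 * 1 * a ^ 2 ≤ H * M * a ^ 2 := by gcongr; linarith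
      nlinarith [sq_nonneg a]
    have h5 : a ≤ ν (∑ i ∈ univ \ U, u i) := by
      have := h.add (∑ i ∈ univ \ U, u i) (∑ i ∈ U, u i)
      rw [Finset.sum_sdiff (subset_univ U)] at this
      linarith
    obtain ⟨B, hB, hBmin⟩ := Finset.exists_min_image
      (((univ \ U).powerset).filter fun B => a ≤ ν (∑ i ∈ B, u i)) card
      ⟨univ \ U, by simp [h5]⟩
    obtain ⟨hB1, hB2⟩ := mem_filter.1 hB
    rw [mem_powerset] at hB1
    have hB3 : ν (∑ i ∈ B, u i) ≤ 2 * a := by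
      rcases B.eq_empty_or_nonempty with rfl | ⟨i, hi⟩
      · simp only [sum_empty, h.zero]; linarith
      have h6 : ¬ a ≤ ν (∑ i ∈ B.erase i, u i) := fun h6 => by
        have := hBmin (B.erase i) (mem_filter.2
          ⟨mem_powerset.2 ((erase_subset _ _).trans hB1), h6⟩)
        have h7 := card_erase_lt_of_mem hi
        omega
      rw [← Finset.add_sum_erase B u hi]
      linarith [h.add (u i) (∑ i ∈ B.erase i, u i), hua i, not_le.1 h6]
    have hBA : ∀ l < j, Disjoint (A l) B := fun l hl =>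
      Finset.disjoint_left.2 fun i hi hi' =>
        (mem_sdiff.1 (hB1 hi')).2 (mem_biUnion.2 ⟨l, mem_range.2 hl, hi⟩)
    refine ⟨Function.update A j B, fun l hl l' hl' hne => ?_, fun l hl => ?_⟩
    · rcases Nat.lt_succ_iff_lt_or_eq.1 hl with h1 | rfl
      · rcases Nat.lt_succ_iff_lt_or_eq.1 hl' with h2 | rfl
        · rw [Function.update_of_ne h1.ne, Function.update_of_ne h2.ne]
          exact hA1 l h1 l' h2 hne
        · rw [Function.update_of_ne h1.ne, Function.update_self]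
          exact hBA l h1
      · have h2 : l' < l := by omega
        rw [Function.update_of_ne h2.ne, Function.update_self]
        exact (hBA l' h2).symm
    · rcases Nat.lt_succ_iff_lt_or_eq.1 hl with h1 | rfl
      · rw [Function.update_of_ne h1.ne]; exact hA2 l h1
      · rw [Function.update_self]; exact ⟨hB2, hB3⟩

theorem as_fd {ν : V → ℝ} (h : LN ν) {H : ℝ} (hH : 1 ≤ H) {M m : ℕ} (hM : 0 < M)
    (hAs : AsE ν H M m) {I : Type} [Fintype I] (u : I → V) (hd : Dj u) (ht : ∀ i, Tl m (u i))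
    (hu : ∀ i, 16 * H * M * ν (u i) ^ 2 ≤ ν (∑ i, u i) ^ 2) :
    FD ν (16 * H ^ 2) M (∑ i, u i) := by
  classical
  rcases (h.nonneg (∑ i, u i)).eq_or_lt with h0 | h0
  · refine ⟨fun _ => 0, fun n p q hp => (hp rfl).elim, by simp, fun B => ?_⟩
    simp [← h0, h.zero]
  set w := ν (∑ i, u i) with hw
  have hM' : (1 : ℝ) ≤ M := by exact_mod_cast hM
  have hp : 0 < 16 * H * M := by positivity
  set a := w / Real.sqrt (16 * H * M) with ha
  have ha0 : 0 < a := div_pos h0 (Real.sqrt_pos.2 hp)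
  have ha2 : 16 * H * M * a ^ 2 = w ^ 2 := by
    rw [ha, div_pow, Real.sq_sqrt hp.le]; field_simp
  obtain ⟨A, hA1, hA2⟩ := as_greedy h hH hAs u hd ht ha0 (fun i => by
    refine as_sq ?_ ha0.le
    have := hu i
    rw [← ha2] at this
    exact le_of_mul_le_mul_left this hp) ha2.le M le_rfl
  have hdz : Dj fun l : Fin M => ∑ i ∈ A l, u i := fun n p q h1 h2 => by
    obtain ⟨i, hi, hi'⟩ := sum_ne_zero_V h1
    obtain ⟨i', hi2, hi2'⟩ := sum_ne_zero_V h2
    have := hd n i i' hi' hi2'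
    subst this
    by_contra hne
    exact Finset.disjoint_left.1 (hA1 p p.2 q q.2 fun h => hne (Fin.ext h)) hi hi2
  refine ⟨fun l : Fin M => ∑ i ∈ A l, u i, hdz, ?_, fun B => ?_⟩
  · rw [← Finset.sum_biUnion (s := univ) (t := fun l : Fin M => A l)
      fun l _ l' _ hne => hA1 l l.2 l' l'.2 fun h => hne (Fin.ext h)]
    exact Finset.sum_le_sum_of_subset (subset_univ _)
  · obtain ⟨h1, h2⟩ := hAs (Fin M) B (fun l => ∑ i ∈ A l, u i)
      (by simpa using Finset.card_le_univ B) (fun n p q _ _ => hdz n p q)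
      (fun l _ => Tl.sum fun i _ => ht i)
    have h3 : ∑ l ∈ B, ν (∑ i ∈ A l, u i) ^ 2 ≤ B.card * (2 * a) ^ 2 := by
      have := Finset.sum_le_card_nsmul B (fun l => ν (∑ i ∈ A l, u i) ^ 2) ((2 * a) ^ 2)
        fun l _ => pow_le_pow_left₀ (h.nonneg _) (hA2 l l.2).2 2
      simpa using this
    have h4 : B.card * a ^ 2 ≤ ∑ l ∈ B, ν (∑ i ∈ A l, u i) ^ 2 := by
      have := Finset.card_nsmul_le_sum B (fun l => ν (∑ i ∈ A l, u i) ^ 2) (a ^ 2)
        fun l _ => pow_le_pow_left₀ ha0.le (hA2 l l.2).1 2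
      simpa using this
    have hc : (0 : ℝ) ≤ B.card := Nat.cast_nonneg _
    rw [← ha2]
    constructor
    · calc B.card * (16 * H * M * a ^ 2) = 16 * H * M * (B.card * a ^ 2) := by ring
        _ ≤ 16 * H * M * (H * ν (∑ l ∈ B, ∑ i ∈ A l, u i) ^ 2) := by
          exact mul_le_mul_of_nonneg_left (h4.trans h2) hp.le
        _ = _ := by ring
    · calc (M : ℝ) * ν (∑ l ∈ B, ∑ i ∈ A l, u i) ^ 2 ≤ M * (H * (B.card * (2 * a) ^ 2)) := by
            gcongr; exact h1.trans (by gcongr)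
        _ = 4 * 1 * (H * M * B.card * a ^ 2) := by ring
        _ ≤ 256 * H ^ 2 * (H * M * B.card * a ^ 2) := by
            gcongr
            · norm_num
            · exact one_le_pow₀ hH
        _ = _ := by ring

theorem as_blocks {A : Type*} [AddCommMonoid A] (f : ℕ → A) (L n : ℕ) :
    ∑ i ∈ range (n * L), f i = ∑ g ∈ range n, ∑ r ∈ range L, f (g * L + r) := by
  induction n with
  | zero => simp
  | succ n ih => rw [Nat.succ_mul, Finset.sum_range_add, ih, Finset.sum_range_succ]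

theorem as_sort {ν : V → ℝ} (h : LN ν) {m k : ℕ} {y : Fin k → V} (hy : NF ν m y)
    (b : Fin k → ℝ≥0) : ∃ (y' : ℕ → V) (b' : ℕ → ℝ≥0), Antitone b' ∧ Dj y' ∧ (∀ i, Tl m (y' i)) ∧
      (∀ i < k, ν (y' i) = 1) ∧ (∀ i, ν (b' i • y' i) = b' i) ∧
      ∀ K, k ≤ K → ∑ i ∈ range K, b' i • y' i = cmb b y ∧
        ∑ i ∈ range K, (b' i : ℝ) ^ 2 = ssq b := by
  let σ := Tuple.sort fun i => OrderDual.toDual (b i)
  have hσ : ∀ i j : Fin k, i ≤ j → b (σ j) ≤ b (σ i) := fun i j hij =>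
    Tuple.monotone_sort (fun i => OrderDual.toDual (b i)) hij
  refine ⟨fun i => if hi : i < k then y (σ ⟨i, hi⟩) else 0,
    fun i => if hi : i < k then b (σ ⟨i, hi⟩) else 0, fun i j hij => ?_, fun n p q hp hq => ?_,
    fun i => ?_, fun i hi => ?_, fun i => ?_, fun K hK => ⟨?_, ?_⟩⟩
  · by_cases hj : j < k
    · have hi : i < k := by omega
      simp only [hi, hj, dite_true]
      exact hσ _ _ hij
    · simp [hj]
  · by_cases h1 : p < k
    · by_cases h2 : q < k
      · simp only [h1, h2, dite_true] at hp hq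
        exact congrArg Fin.val (σ.injective (hy.2.1 n _ _ hp hq))
      · simp [h2] at hq
    · simp [h1] at hp
  · by_cases hi : i < k
    · simp only [hi, dite_true]; exact hy.2.2 _
    · simp only [hi, dite_false]; exact fun n hn => (hn rfl).elim
  · simp only [hi, dite_true]; exact hy.1 _
  · by_cases hi : i < k
    · simp only [hi, dite_true, h.smul, hy.1, mul_one]
    · simp [hi, h.zero]
  · rw [← Finset.sum_subset (range_subset_range.2 hK) (fun i _ hi => by
      simp [mem_range.not.1 hi]), Finset.sum_range]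
    simp only [Fin.is_lt, dite_true, Fin.eta]
    exact Equiv.sum_comp σ fun i => b i • y i
  · rw [← Finset.sum_subset (range_subset_range.2 hK) (fun i _ hi => by
      simp [mem_range.not.1 hi]), Finset.sum_range]
    simp only [Fin.is_lt, dite_true, Fin.eta]
    exact Equiv.sum_comp σ fun i => (b i : ℝ) ^ 2

theorem as_idx {L g g' r r' : ℕ} (hr : r < L) (hr' : r' < L) (h : g * L + r = g' * L + r') :
    g = g' ∧ r = r' := by
  have h1 : (g * L + r) / L = g := by
    rw [mul_comm, Nat.mul_add_div (by omega), Nat.div_eq_of_lt hr, add_zero]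
  have h2 : (g' * L + r') / L = g' := by
    rw [mul_comm, Nat.mul_add_div (by omega), Nat.div_eq_of_lt hr', add_zero]
  have h3 : g = g' := by rw [← h1, h, h2]
  subst h3
  exact ⟨rfl, by omega⟩

theorem as_piece {ν : V → ℝ} (h : LN ν) {H : ℝ} (hH : 1 ≤ H) {M L m : ℕ} (hM : 0 < M)
    (hAM : AsE ν H M m) (hAL : AsE ν H L m) (hL : 16 * H ^ 2 * M ≤ L) {D : ℝ} (hD : 0 ≤ D)
    {k : ℕ} {y0 : Fin k → V} (hy0 : NF ν m y0) (hdev : Dev ν (H * (2 * D + 8)) y0) :
    ∃ F : Pc, NF ν m F.y ∧ Dev ν D F.y ∧ ∀ x, InC F x → FD ν (16 * H ^ 2) M x := by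
  obtain ⟨b0, hb0⟩ := hdev
  obtain ⟨y, b, hanti, hdj, htl, hn1, hnb, hK⟩ := as_sort h hy0 b0
  have hM' : (1 : ℝ) ≤ M := by exact_mod_cast hM
  have hH0 : 0 < H := by linarith
  have hL0 : (0 : ℝ) < L := lt_of_lt_of_le (by positivity) hL
  have hL1 : 0 < L := by exact_mod_cast hL0
  set G := k / L - 1 with hG
  have hk1 : k ≤ (G + 2) * L := by
    have h1 := Nat.lt_div_mul_add (a := k) hL1
    have h2 : k / L + 1 ≤ G + 2 := by omega
    nlinarith
  have hk2 : ∀ g < G, ∀ r < L, (g + 1) * L + r < k := by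
    intro g hg r hr
    have h1 := Nat.div_mul_le_self k L
    have h2 : g + 2 ≤ k / L := by omega
    nlinarith
  set S : ℕ → V := fun g => ∑ r ∈ range L, y (g * L + r) with hS
  set X : ℕ → V := fun g => ∑ r ∈ range L, b (g * L + r) • y (g * L + r) with hX
  set ms : ℕ → ℝ := fun g => ∑ r ∈ range L, (b (g * L + r) : ℝ) ^ 2 with hms
  obtain ⟨e1, e2⟩ := hK _ hk1
  rw [as_blocks] at e1 e2
  change ∑ g ∈ range (G + 2), X g = _ at e1
  change ∑ g ∈ range (G + 2), ms g = _ at e2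
  have hms0 : ∀ g, 0 ≤ ms g := fun g => Finset.sum_nonneg fun _ _ => sq_nonneg _
  have hXa : ∀ g, ν (X g) ^ 2 ≤ H * ms g ∧ ms g ≤ H * ν (X g) ^ 2 := by
    intro g
    have := hAL ℕ (range L) (fun r => b (g * L + r) • y (g * L + r)) (by simp)
      (fun n p q _ _ hp hq => by
        have := hdj n _ _ (smul_ne_zero_V hp) (smul_ne_zero_V hq)
        omega) (fun r _ => (htl _).smul _)
    simpa only [hnb] using this
  have hSa : ∀ g < G, ν (S (g + 1)) ^ 2 ≤ H * L ∧ L ≤ H * ν (S (g + 1)) ^ 2 := by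
    intro g hg
    have := hAL ℕ (range L) (fun r => y ((g + 1) * L + r)) (by simp)
      (fun n p q _ _ hp hq => by
        have := hdj n _ _ hp hq
        omega) (fun r _ => htl _)
    have e : ∑ r ∈ range L, ν (y ((g + 1) * L + r)) ^ 2 = L := by
      rw [Finset.sum_congr rfl fun r hr => by rw [hn1 _ (hk2 g hg r (mem_range.1 hr))]]
      simp
    rwa [e] at this
  set w : ℕ → ℝ≥0 := fun g => ⟨ν (S (g + 1)), h.nonneg _⟩ with hw
  have hwc : ∀ g, (w g : ℝ) = ν (S (g + 1)) := fun g => rfl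
  have hw0 : ∀ g < G, w g ≠ 0 := by
    intro g hg h0
    have h1 := (hSa g hg).2
    rw [← hwc, h0] at h1
    simp only [NNReal.coe_zero, ne_eq, OfNat.ofNat_ne_zero, not_false_eq_true, zero_pow,
      mul_zero] at h1
    linarith
  set Y : Fin G → V := fun g => (w g)⁻¹ • S (g + 1) with hY
  have hY1 : ∀ g, ν (Y g) = 1 := by
    intro g
    rw [hY]
    simp only [h.smul, NNReal.coe_inv, ← hwc]
    exact inv_mul_cancel₀ (NNReal.coe_ne_zero.2 (hw0 g g.2))
  have hcmb : ∀ β : ℕ → ℝ≥0, cmb (fun g : Fin G => β g * w g) Y =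
      ∑ g ∈ range G, β g • S (g + 1) := by
    intro β
    rw [Finset.sum_range]
    refine Finset.sum_congr rfl fun g _ => ?_
    rw [hY]
    simp only [smul_smul]
    rw [mul_assoc, mul_inv_cancel₀ (hw0 g g.2), mul_one]
  have hssq : ∀ β : ℕ → ℝ≥0, ssq (fun g : Fin G => β g * w g) =
      ∑ g ∈ range G, (β g : ℝ) ^ 2 * ν (S (g + 1)) ^ 2 := by
    intro β
    rw [Finset.sum_range]
    refine Finset.sum_congr rfl fun g _ => ?_
    rw [NNReal.coe_mul, hwc, mul_pow]
  have hlow : ∀ g, b ((g + 1) * L) • S g ≤ X g := by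
    intro g
    simp only [hS, hX, Finset.smul_sum]
    exact Finset.sum_le_sum fun r hr => smul_le_smul_V (hanti (by
      have := mem_range.1 hr
      rw [Nat.succ_mul]; omega)) _
  have hup : ∀ g, X g ≤ b (g * L) • S g := by
    intro g
    simp only [hS, hX, Finset.smul_sum]
    exact Finset.sum_le_sum fun r _ => smul_le_smul_V (hanti (by omega)) _
  have mlow : ∀ g, L * (b ((g + 1) * L) : ℝ) ^ 2 ≤ ms g := by
    intro g
    have := Finset.card_nsmul_le_sum (range L) (fun r => (b (g * L + r) : ℝ) ^ 2)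
      ((b ((g + 1) * L) : ℝ) ^ 2) fun r hr => pow_le_pow_left₀ (NNReal.coe_nonneg _)
        (NNReal.coe_le_coe.2 (hanti (by
          have := mem_range.1 hr
          rw [Nat.succ_mul]; omega))) 2
    simpa using this
  have mup : ∀ g, ms g ≤ L * (b (g * L) : ℝ) ^ 2 := by
    intro g
    have := Finset.sum_le_card_nsmul (range L) (fun r => (b (g * L + r) : ℝ) ^ 2)
      ((b (g * L) : ℝ) ^ 2) fun r _ => pow_le_pow_left₀ (NNReal.coe_nonneg _)
        (NNReal.coe_le_coe.2 (hanti (by omega))) 2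
    simpa using this
  have hmle : ∀ g < G + 2, ms g ≤ ssq b0 := fun g hg => by
    rw [← e2]
    exact Finset.single_le_sum (fun g _ => hms0 g) (mem_range.2 hg)
  have hXle : ∀ g < G + 2, ν (X g) ≤ ν (cmb b0 y0) := fun g hg => by
    rw [← e1]
    exact h.le_sum X (mem_range.2 hg)
  refine ⟨⟨G, Y⟩, ⟨hY1, fun n p q hp hq => ?_, fun g => (Tl.sum fun r _ => htl _).smul _⟩, ?_, ?_⟩
  · obtain ⟨r, hr, h1⟩ := sum_ne_zero_V (smul_ne_zero_V hp)
    obtain ⟨r', hr', h2⟩ := sum_ne_zero_V (smul_ne_zero_V hq)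
    have := (as_idx (mem_range.1 hr) (mem_range.1 hr') (hdj n _ _ h1 h2)).1
    exact Fin.ext (by omega)
  · rcases hb0 with hb0 | hb0
    · refine ⟨fun g : Fin G => b ((g + 1) * L) * w g, Or.inl ?_⟩
      show D * ssq (fun g : Fin G => b ((g + 1) * L) * w g) <
        ν (cmb (fun g : Fin G => b ((g + 1) * L) * w g) Y) ^ 2
      rw [hcmb fun g => b ((g + 1) * L), hssq fun g => b ((g + 1) * L)]
      set P := ν (∑ g ∈ range G, b ((g + 1) * L) • S (g + 1)) with hP
      have k1 : ∑ g ∈ range G, (b ((g + 1) * L) : ℝ) ^ 2 * ν (S (g + 1)) ^ 2 ≤ H * ssq b0 := by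
        calc _ ≤ ∑ g ∈ range G, H * ms g := Finset.sum_le_sum fun g hg => by
              have t1 := (hSa g (mem_range.1 hg)).1
              have t2 := mlow g
              calc _ ≤ (b ((g + 1) * L) : ℝ) ^ 2 * (H * L) := by gcongr
                _ = H * (L * (b ((g + 1) * L) : ℝ) ^ 2) := by ring
                _ ≤ _ := by gcongr
          _ = H * ∑ g ∈ range G, ms g := by rw [Finset.mul_sum]
          _ ≤ _ := by
              rw [← e2]
              gcongr
              omega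
      have k2 : ν (cmb b0 y0) ≤ P + ν (X 0) + ν (X (G + 1)) := by
        rw [← e1, Finset.sum_range_succ, Finset.sum_range_succ']
        have t1 : ν (∑ g ∈ range G, X (g + 1)) ≤ P :=
          h.mono _ _ (Finset.sum_le_sum fun g _ => hup (g + 1))
        linarith [h.add (∑ g ∈ range G, X (g + 1) + X 0) (X (G + 1)),
          h.add (∑ g ∈ range G, X (g + 1)) (X 0)]
      have k3 : ν (X 0) ^ 2 ≤ H * ssq b0 := (hXa 0).1.trans (by gcongr; exact hmle 0 (by omega))
      have k4 : ν (X (G + 1)) ^ 2 ≤ H * ssq b0 :=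
        (hXa _).1.trans (by gcongr; exact hmle _ (by omega))
      have k5 : ν (cmb b0 y0) ^ 2 ≤ (P + ν (X 0) + ν (X (G + 1))) ^ 2 :=
        pow_le_pow_left₀ (h.nonneg _) k2 2
      have k6 := mul_le_mul_of_nonneg_left k1 hD
      nlinarith [sq_nonneg (P - ν (X 0) - ν (X (G + 1))), sq_nonneg (ν (X 0) - ν (X (G + 1)))]
    · refine ⟨fun g : Fin G => b ((g + 2) * L) * w g, Or.inr ?_⟩
      show D * ν (cmb (fun g : Fin G => b ((g + 2) * L) * w g) Y) ^ 2 <
        ssq (fun g : Fin G => b ((g + 2) * L) * w g)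
      rw [hcmb fun g => b ((g + 2) * L), hssq fun g => b ((g + 2) * L)]
      set P := ν (∑ g ∈ range G, b ((g + 2) * L) • S (g + 1)) with hP
      set T := ∑ g ∈ range G, (b ((g + 2) * L) : ℝ) ^ 2 * ν (S (g + 1)) ^ 2 with hT
      have k1 : ∑ g ∈ range G, ms (g + 1 + 1) ≤ H * T := by
        rw [hT, Finset.mul_sum]
        refine Finset.sum_le_sum fun g hg => (mup _).trans ?_
        have t1 := (hSa g (mem_range.1 hg)).2
        calc (L : ℝ) * (b ((g + 2) * L) : ℝ) ^ 2 ≤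
              (H * ν (S (g + 1)) ^ 2) * (b ((g + 2) * L) : ℝ) ^ 2 := by gcongr
          _ = _ := by ring
      have k2 : P ≤ ν (cmb b0 y0) := by
        rw [← e1, Finset.sum_range_succ, Finset.sum_range_succ']
        refine h.mono _ _ ((Finset.sum_le_sum fun g _ => hlow (g + 1)).trans ?_)
        exact le_self_add.trans le_self_add
      have k3 : ms 0 ≤ H * ν (cmb b0 y0) ^ 2 := (hXa 0).2.trans (by
        gcongr
        · exact h.nonneg _
        · exact hXle 0 (by omega))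
      have k4 : ms (0 + 1) ≤ H * ν (cmb b0 y0) ^ 2 := (hXa _).2.trans (by
        gcongr
        · exact h.nonneg _
        · exact hXle _ (by omega))
      rw [← e2, Finset.sum_range_succ', Finset.sum_range_succ'] at hb0
      have k5 : P ^ 2 ≤ ν (cmb b0 y0) ^ 2 := pow_le_pow_left₀ (h.nonneg _) k2 2
      have k6 := mul_le_mul_of_nonneg_left k5 (mul_nonneg hH0.le hD)
      have k7 : 0 ≤ H * ν (cmb b0 y0) ^ 2 := by positivity
      have k8 : 0 ≤ H * D * ν (cmb b0 y0) ^ 2 := by positivity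
      refine lt_of_mul_lt_mul_left ?_ hH0.le
      nlinarith
  · rintro x ⟨A, rfl⟩
    have e : cmb A Y = ∑ p : Fin G × Fin L, (A p.1 * (w p.1)⁻¹) • y ((p.1 + 1) * L + p.2) := by
      rw [Fintype.sum_prod_type]
      refine Finset.sum_congr rfl fun g _ => ?_
      simp only [hY, hS, smul_smul, Finset.smul_sum, Finset.sum_range]
    show FD ν _ M (cmb A Y)
    have hA := fun g => h.le_cmb A Y g
    rw [e] at hA ⊢
    refine as_fd h hH hM hAM _ (fun n p q hp hq => ?_) (fun p => (htl _).smul _) fun p => ?_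
    · have := as_idx p.2.2 q.2.2 (hdj n _ _ (smul_ne_zero_V hp) (smul_ne_zero_V hq))
      exact Prod.ext (Fin.ext (by omega)) (Fin.ext this.2)
    · have t1 := hA p.1
      rw [hY1, mul_one] at t1
      have t2 := pow_le_pow_left₀ (NNReal.coe_nonneg _) t1 2
      refine le_trans ?_ t2
      have t3 := (hSa p.1 p.1.2).2
      have t4 : (0 : ℝ) < w p.1 := NNReal.coe_pos.2 (pos_iff_ne_zero.2 (hw0 _ p.1.2))
      rw [h.smul, hn1 _ (hk2 _ p.1.2 _ p.2.2), mul_one, NNReal.coe_mul, NNReal.coe_inv,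
        ← div_eq_mul_inv, div_pow, ← mul_div_assoc, div_le_iff₀ (by positivity), hwc]
      have t5 : 16 * H * M ≤ ν (S (p.1 + 1)) ^ 2 := by
        refine le_of_mul_le_mul_left ?_ hH0
        nlinarith
      nlinarith [sq_nonneg (A p.1 : ℝ)]

theorem sup_of_as {ν : V → ℝ} (h : LN ν) (hb : NHb ν) (hA : ¬ NonAs ν) : NormUp ν ∧ SUP ν := by
  obtain ⟨H, hH, hAs⟩ := as_exists h hA
  refine ⟨as_normUp h hb hAs, 16 * H ^ 2, fun N M D m hM => ?_⟩
  obtain ⟨L, hL⟩ := exists_nat_ge (16 * H ^ 2 * M)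
  obtain ⟨m1, hm1⟩ := hAs (max N (max M L))
  obtain ⟨lo, hi, F, m2, -, -, h2, h3⟩ := sel_fin (J := Fin N)
    (fun _ lo hi (F : Pc) => NF ν (max m m1) F.y ∧ (∀ i, Win lo hi (F.y i)) ∧ Dev ν D F.y ∧
      ∀ x, InC F x → FD ν (16 * H ^ 2) M x) 0 (by
      intro _ m'
      obtain ⟨k, y, hy, hd⟩ := hb (H * (2 * |D| + 8)) (max m' (max m m1))
      obtain ⟨F, f1, f2, f3⟩ := as_piece h hH hM (hm1.mono (by omega) (by omega))
        (hm1.mono (d' := L) (by omega) (by omega)) hL (abs_nonneg D) hy hd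
      obtain ⟨w, hw, hw'⟩ := exists_win (f1.mono (le_max_left _ _)).2.2
      exact ⟨F, w, hw, f1.mono (le_max_right _ _), hw', f2.mono (le_abs_self D), f3⟩)
  have hpd : PD F := fun n p q i i' hp hq =>
    h3 p q n ((h2 p).2.1 i n hp).1 ((h2 p).2.1 i n hp).2 ((h2 q).2.1 i' n hq).1
      ((h2 q).2.1 i' n hq).2
  refine ⟨F, fun a => (h2 a).1.mono (le_max_left _ _), hpd, fun a => (h2 a).2.2.1,
    fun a => (h2 a).2.2.2, fun x hx => ?_⟩
  have := (hm1 (Fin N) univ x (by simp) (fun n p q _ _ hp hq => by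
      obtain ⟨i, hi⟩ := (hx p).ne_zero hp
      obtain ⟨i', hi'⟩ := (hx q).ne_zero hq
      exact hpd n p q i i' hi hi') (fun a _ n hn => by
      obtain ⟨i, hi⟩ := (hx a).ne_zero hn
      exact (le_max_right _ _).trans ((h2 a).1.2.2 i n hi))).1
  refine this.trans (mul_le_mul_of_nonneg_right (by nlinarith) ?_)
  exact Finset.sum_nonneg fun _ _ => sq_nonneg _

end Pool.Agent.Lib.MP_435322_an.UD
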