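import Mathlib

/-! The cross-ratio alternative. -/

namespace Pool.Agent.Lib.MP_435322_an.UD

/-- four slopes -/
def sl (σ : ℝ) : Fin 4 → ℝ := ![0, 1, 2, σ]

/-- four functionals on the plane -/
def lam {𝕜 : Type*} [RCLike 𝕜] (σ : ℝ) (l : Fin 4) (w : 𝕜 × 𝕜) : 𝕜 := w.1 - (sl σ l : 𝕜) * w.2

/-- a vector in the kernel of the functional -/
def vv (𝕜 : Type*) [RCLike 𝕜] (σ : ℝ) (l : Fin 4) : 𝕜 × 𝕜 := ((sl σ l : 𝕜), 1)

/-- table of the distances between the slopes -/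
def ucDist (σ : ℝ) : Fin 4 → Fin 4 → ℝ :=
  ![![0, 1, 2, σ], ![1, 0, 1, σ - 1], ![2, 1, 0, σ - 2], ![σ, σ - 1, σ - 2, 0]]

lemma uc_dist {σ : ℝ} (h : 3 ≤ σ) (i j : Fin 4) : |sl σ i - sl σ j| = ucDist σ i j := by
  have a0 : |σ| = σ := abs_of_nonneg (by linarith)
  have a1 : |σ - 1| = σ - 1 := abs_of_nonneg (by linarith)
  have a2 : |σ - 2| = σ - 2 := abs_of_nonneg (by linarith)
  have b1 : |1 - σ| = σ - 1 := by rw [abs_sub_comm]; exact a1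
  have b2 : |2 - σ| = σ - 2 := by rw [abs_sub_comm]; exact a2
  fin_cases i <;> fin_cases j <;> simp [sl, ucDist, a0, a1, a2, b1, b2] <;> norm_num

lemma uc_dist_le {σ : ℝ} (h' : σ ≤ 4) (i j : Fin 4) : ucDist σ i j ≤ 4 := by
  fin_cases i <;> fin_cases j <;> simp [ucDist] <;> linarith

lemma uc_perm {σ : ℝ} (h : 3 ≤ σ) (i0 i1 i2 i3 : Fin 4)
    (p : 0 < ucDist σ i0 i1 * ucDist σ i2 i3)
    (q : ucDist σ i0 i1 * ucDist σ i2 i3 < ucDist σ i0 i3 * ucDist σ i1 i2)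
    (r : ucDist σ i0 i3 * ucDist σ i1 i2 < ucDist σ i0 i2 * ucDist σ i1 i3) :
    ucDist σ i0 i1 * ucDist σ i2 i3 = σ - 2 ∧ ucDist σ i0 i2 * ucDist σ i1 i3 = 2 * σ - 2 := by
  revert p q r
  fin_cases i0 <;> fin_cases i1 <;> fin_cases i2 <;> fin_cases i3 <;>
    simp only [ucDist, Fin.zero_eta, Fin.mk_one, Fin.reduceFinMk, Fin.isValue, Matrix.cons_val_zero,
      Matrix.cons_val_one, Matrix.cons_val] <;>
    intro p q r <;>
    first
      | (exfalso; linarith)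
      | (constructor <;> ring)

lemma uc_close {x y a b e : ℝ} (he : 0 ≤ e) (he1 : e ≤ 1 / 100) (ha : 0 ≤ a) (hb : 0 ≤ b)
    (hx : |x - a| ≤ e) (hy : |y - b| ≤ e) : |x * y - a * b| ≤ (a + b + 1) * e := by
  have e1 : x * y - a * b = (x - a) * (y - b) + (x - a) * b + a * (y - b) := by ring
  have t1 : |(x - a) * (y - b)| ≤ e * e := by
    rw [abs_mul]; exact mul_le_mul hx hy (abs_nonneg _) he
  have t2 : |(x - a) * b| ≤ e * b := by
    rw [abs_mul, abs_of_nonneg hb]; exact mul_le_mul_of_nonneg_right hx hb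
  have t3 : |a * (y - b)| ≤ a * e := by
    rw [abs_mul, abs_of_nonneg ha]; exact mul_le_mul_of_nonneg_left hy ha
  have t4 := abs_add_le ((x - a) * (y - b) + (x - a) * b) (a * (y - b))
  have t5 := abs_add_le ((x - a) * (y - b)) ((x - a) * b)
  have t6 : e * e ≤ e := by nlinarith
  rw [e1]
  nlinarith

theorem cross {𝕜 : Type*} [RCLike 𝕜] {σ σ' δ : ℝ} (h1 : 3 ≤ σ) (h2 : σ ≤ 4) (h3 : 3 ≤ σ')
    (h4 : σ' ≤ 4) (hδ : 0 < δ) (h : δ ≤ |σ - σ'|) (A : (𝕜 × 𝕜) →ₗ[𝕜] (𝕜 × 𝕜)) :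
    ∃ l, ∀ l' m, ‖lam σ' l' (A (vv 𝕜 σ m))‖ ≤ 1000 / δ * ‖lam σ' l' (A (vv 𝕜 σ l))‖ := by
  by_contra hc
  push Not at hc
  choose π μ hπ using hc
  have hδ1 : δ ≤ 1 := h.trans (abs_le.2 ⟨by linarith, by linarith⟩)
  set a : 𝕜 := (A (1, 0)).1 with ha
  set c : 𝕜 := (A (1, 0)).2 with hc
  set b : 𝕜 := (A (0, 1)).1 with hb
  set d : 𝕜 := (A (0, 1)).2 with hd
  let p : Fin 4 → 𝕜 := fun l => a - (sl σ' (π l) : 𝕜) * c
  let q : Fin 4 → 𝕜 := fun l => b - (sl σ' (π l) : 𝕜) * d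
  have hM : ∀ l m, lam σ' (π l) (A (vv 𝕜 σ m)) = p l * (sl σ m : 𝕜) + q l := by
    intro l m
    have e : vv 𝕜 σ m = (sl σ m : 𝕜) • ((1, 0) : 𝕜 × 𝕜) + (0, 1) := by
      refine Prod.ext ?_ ?_
      · simp only [vv, Prod.fst_add, Prod.smul_fst, smul_eq_mul, mul_one, add_zero]
      · simp only [vv, Prod.snd_add, Prod.smul_snd, smul_eq_mul, mul_zero, zero_add]
    rw [e, map_add, map_smul]
    simp only [lam, Prod.fst_add, Prod.snd_add, Prod.smul_fst, Prod.smul_snd, smul_eq_mul, p, q,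
      ← ha, ← hb, ← hc, ← hd]
    ring
  have hnd : ∀ (τ : ℝ) (i j : Fin 4), ‖(sl τ i : 𝕜) - (sl τ j : 𝕜)‖ = |sl τ i - sl τ j| := by
    intro τ i j
    rw [← RCLike.ofReal_sub, RCLike.norm_ofReal]
  have key : ∀ l, 200 * ‖p l * (sl σ l : 𝕜) + q l‖ < δ * ‖p l‖ := by
    intro l
    have k1 := hπ l
    rw [hM, hM] at k1
    have k2 : p l * (sl σ (μ l) : 𝕜) + q l
        = (p l * (sl σ l : 𝕜) + q l) + p l * ((sl σ (μ l) : 𝕜) - (sl σ l : 𝕜)) := by ring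
    have k3 : ‖p l * (sl σ (μ l) : 𝕜) + q l‖ ≤ ‖p l * (sl σ l : 𝕜) + q l‖ + ‖p l‖ * 4 := by
      rw [k2]
      refine (norm_add_le _ _).trans ?_
      rw [norm_mul, hnd, uc_dist h1]
      have := mul_le_mul_of_nonneg_left (uc_dist_le h2 (μ l) l) (norm_nonneg (p l))
      linarith
    have k4 := k1.trans_le k3
    rw [div_mul_eq_mul_div, div_lt_iff₀ hδ] at k4
    have n1 := norm_nonneg (p l * (sl σ l : 𝕜) + q l)
    have n2 := norm_nonneg (p l)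
    have n3 := mul_le_mul_of_nonneg_left hδ1 n1
    have n4 := mul_nonneg hδ.le n2
    nlinarith
  have hp : ∀ l, 0 < ‖p l‖ := by
    intro l
    have k := key l
    have n1 := norm_nonneg (p l * (sl σ l : 𝕜) + q l)
    by_contra hn
    have : ‖p l‖ = 0 := le_antisymm (not_lt.1 hn) (norm_nonneg _)
    rw [this] at k
    linarith
  have hp0 : ∀ l, p l ≠ 0 := fun l => norm_pos_iff.1 (hp l)
  let ρ : Fin 4 → 𝕜 := fun l => -q l / p l
  have hρ : ∀ l, ‖ρ l - (sl σ l : 𝕜)‖ ≤ δ / 200 := by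
    intro l
    have e : ρ l - (sl σ l : 𝕜) = -(p l * (sl σ l : 𝕜) + q l) / p l := by
      have := hp0 l
      simp only [ρ]
      field_simp
      ring
    rw [e, norm_div, norm_neg, div_le_iff₀ (hp l)]
    have := key l
    linarith
  let x : Fin 4 → Fin 4 → ℝ := fun k l => ‖ρ k - ρ l‖
  have hx : ∀ k l, |x k l - ucDist σ k l| ≤ δ / 100 := by
    intro k l
    rw [← uc_dist h1, ← hnd]
    refine (abs_norm_sub_norm_le _ _).trans ?_
    have e : ρ k - ρ l - ((sl σ k : 𝕜) - (sl σ l : 𝕜))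
        = (ρ k - (sl σ k : 𝕜)) - (ρ l - (sl σ l : 𝕜)) := by ring
    rw [e]
    refine (norm_sub_le _ _).trans ?_
    have := hρ k
    have := hρ l
    linarith
  have hrel : ∀ k l, ‖p k‖ * ‖p l‖ * x k l = ucDist σ' (π k) (π l) * ‖a * d - b * c‖ := by
    intro k l
    rw [← uc_dist h3, ← hnd, ← norm_mul, ← norm_mul, ← norm_mul]
    congr 1
    have e : p k * p l * (ρ k - ρ l) = p k * q l - p l * q k := by
      have := hp0 k
      have := hp0 l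
      simp only [ρ]
      field_simp
      ring
    rw [e]
    simp only [p, q]
    ring
  have hprod : ∀ i j k l, ‖p i‖ * ‖p j‖ * ‖p k‖ * ‖p l‖ * (x i j * x k l)
      = ucDist σ' (π i) (π j) * ucDist σ' (π k) (π l) * ‖a * d - b * c‖ ^ 2 := by
    intro i j k l
    calc ‖p i‖ * ‖p j‖ * ‖p k‖ * ‖p l‖ * (x i j * x k l)
        = (‖p i‖ * ‖p j‖ * x i j) * (‖p k‖ * ‖p l‖ * x k l) := by ring
      _ = _ := by rw [hrel, hrel]; ring
  have he : 0 ≤ δ / 100 := by positivity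
  have he1 : δ / 100 ≤ 1 / 100 := by linarith
  have x01 : |x 0 1 - 1| ≤ δ / 100 := by simpa [ucDist] using hx 0 1
  have x23 : |x 2 3 - (σ - 2)| ≤ δ / 100 := by simpa [ucDist] using hx 2 3
  have x02 : |x 0 2 - 2| ≤ δ / 100 := by simpa [ucDist] using hx 0 2
  have x13 : |x 1 3 - (σ - 1)| ≤ δ / 100 := by simpa [ucDist] using hx 1 3
  have x03 : |x 0 3 - σ| ≤ δ / 100 := by simpa [ucDist] using hx 0 3
  have x12 : |x 1 2 - 1| ≤ δ / 100 := by simpa [ucDist] using hx 1 2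
  have c1 := uc_close he he1 (by norm_num) (by linarith) x01 x23
  have c2 := uc_close he he1 (by norm_num) (by linarith) x02 x13
  have c3 := uc_close he he1 (by linarith) (by norm_num) x03 x12
  have r1 := hprod 0 1 2 3
  have r2 := hprod 0 2 1 3
  have r3 := hprod 0 3 1 2
  have hP : 0 < ‖p 0‖ * ‖p 1‖ * ‖p 2‖ * ‖p 3‖ :=
    mul_pos (mul_pos (mul_pos (hp 0) (hp 1)) (hp 2)) (hp 3)
  have r2' : ‖p 0‖ * ‖p 2‖ * ‖p 1‖ * ‖p 3‖ = ‖p 0‖ * ‖p 1‖ * ‖p 2‖ * ‖p 3‖ := by ring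
  have r3' : ‖p 0‖ * ‖p 3‖ * ‖p 1‖ * ‖p 2‖ = ‖p 0‖ * ‖p 1‖ * ‖p 2‖ * ‖p 3‖ := by ring
  rw [r2'] at r2
  rw [r3'] at r3
  generalize ‖p 0‖ * ‖p 1‖ * ‖p 2‖ * ‖p 3‖ = P at r1 r2 r3 hP
  have hW : 0 ≤ ‖a * d - b * c‖ ^ 2 := by positivity
  generalize ‖a * d - b * c‖ ^ 2 = W at r1 r2 r3 hW
  generalize x 0 1 * x 2 3 = X1 at c1 r1
  generalize x 0 2 * x 1 3 = X2 at c2 r2
  generalize x 0 3 * x 1 2 = X3 at c3 r3
  have d1 : |X1 - (σ - 2)| ≤ 4 * (δ / 100) := by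
    have e : 1 * (σ - 2) = σ - 2 := by ring
    rw [e] at c1
    exact c1.trans (mul_le_mul_of_nonneg_right (by linarith) he)
  have d2 : |X2 - (2 * σ - 2)| ≤ 6 * (δ / 100) := by
    have e : 2 * (σ - 1) = 2 * σ - 2 := by ring
    rw [e] at c2
    exact c2.trans (mul_le_mul_of_nonneg_right (by linarith) he)
  have d3 : |X3 - σ| ≤ 6 * (δ / 100) := by
    have e : σ * 1 = σ := by ring
    rw [e] at c3
    exact c3.trans (mul_le_mul_of_nonneg_right (by linarith) he)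
  obtain ⟨d1a, d1b⟩ := abs_le.1 d1
  obtain ⟨d2a, d2b⟩ := abs_le.1 d2
  obtain ⟨d3a, d3b⟩ := abs_le.1 d3
  have o1 : 0 < X1 := by linarith
  have o2 : X1 < X3 := by linarith
  have o3 : X3 < X2 := by linarith
  have g1 : 0 < P * X1 := mul_pos hP o1
  have g2 : P * X1 < P * X3 := mul_lt_mul_of_pos_left o2 hP
  have g3 : P * X3 < P * X2 := mul_lt_mul_of_pos_left o3 hP
  rw [r1] at g1
  rw [r1, r3] at g2
  rw [r3, r2] at g3
  have y1 : 0 < ucDist σ' (π 0) (π 1) * ucDist σ' (π 2) (π 3) :=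
    lt_of_mul_lt_mul_right (by rw [zero_mul]; exact g1) hW
  obtain ⟨z1, z2⟩ := uc_perm h3 (π 0) (π 1) (π 2) (π 3) y1 (lt_of_mul_lt_mul_right g2 hW)
    (lt_of_mul_lt_mul_right g3 hW)
  rw [z1] at r1
  rw [z2] at r2
  have f1 : X1 * (2 * σ' - 2) = X2 * (σ' - 2) := by
    apply mul_left_cancel₀ hP.ne'
    calc P * (X1 * (2 * σ' - 2)) = P * X1 * (2 * σ' - 2) := by ring
      _ = (σ' - 2) * W * (2 * σ' - 2) := by rw [r1]
      _ = (2 * σ' - 2) * W * (σ' - 2) := by ring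
      _ = P * X2 * (σ' - 2) := by rw [r2]
      _ = P * (X2 * (σ' - 2)) := by ring
  have f2 : 2 * (σ - σ') = (X2 - (2 * σ - 2)) * (σ' - 2) - (X1 - (σ - 2)) * (2 * σ' - 2) := by
    linear_combination f1
  have f3 : |(X2 - (2 * σ - 2)) * (σ' - 2)| ≤ 6 * (δ / 100) * 2 := by
    rw [abs_mul]
    exact mul_le_mul d2 (abs_le.2 ⟨by linarith, by linarith⟩) (abs_nonneg _) (by linarith)
  have f4 : |(X1 - (σ - 2)) * (2 * σ' - 2)| ≤ 4 * (δ / 100) * 6 := by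
    rw [abs_mul]
    exact mul_le_mul d1 (abs_le.2 ⟨by linarith, by linarith⟩) (abs_nonneg _) (by linarith)
  obtain ⟨f3a, f3b⟩ := abs_le.1 f3
  obtain ⟨f4a, f4b⟩ := abs_le.1 f4
  have f5 : |σ - σ'| ≤ δ / 2 := abs_le.2 ⟨by linarith, by linarith⟩
  linarith

end Pool.Agent.Lib.MP_435322_an.UD
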