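import Pool.Agent.Lib.MP_435322_an.UKhin
import Pool.Agent.Lib.MP_435322_an.UCross

/-! A gadget does not factor through blocks with other cross-ratios. -/

namespace Pool.Agent.Lib.MP_435322_an.UD

open Finset Pool.Agent.Lib.MP_435322_an
open scoped NNReal

section aux
variable {𝕜 : Type*} [RCLike 𝕜]

/-- the functional `lam` as a linear map -/
noncomputable def core_lamL (σ : ℝ) (l : Fin 4) : (𝕜 × 𝕜) →ₗ[𝕜] 𝕜 :=
  LinearMap.fst 𝕜 𝕜 𝕜 - (sl σ l : 𝕜) • LinearMap.snd 𝕜 𝕜 𝕜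

theorem core_lamL_apply (σ : ℝ) (l : Fin 4) (w : 𝕜 × 𝕜) : core_lamL σ l w = lam σ l w := rfl

theorem core_lam_smul (σ : ℝ) (l : Fin 4) (c : 𝕜) (w : 𝕜 × 𝕜) :
    lam σ l (c • w) = c * lam σ l w := by
  rw [← core_lamL_apply, map_smul, core_lamL_apply, smul_eq_mul]

theorem core_lam_zero (σ : ℝ) (l : Fin 4) : lam σ l (0 : 𝕜 × 𝕜) = 0 := by
  simp [lam]

theorem core_map_sign {V W : Type*} [AddCommGroup V] [Module 𝕜 V] [AddCommGroup W] [Module 𝕜 W]
    (L : V →ₗ[𝕜] W) {ι : Type} [Fintype ι] (ε : ι → ℤˣ) (x : ι → V) :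
    L (∑ i, ε i • x i) = ∑ i, ε i • L (x i) := by
  simp only [map_sum, Units.smul_def, map_zsmul]

theorem core_lam_sign (σ : ℝ) (l : Fin 4) {ι : Type} [Fintype ι] (ε : ι → ℤˣ)
    (x : ι → 𝕜 × 𝕜) : lam σ l (∑ i, ε i • x i) = ∑ i, ε i • lam σ l (x i) := by
  rw [← core_lamL_apply, core_map_sign]
  simp only [core_lamL_apply]

theorem core_lam_vv (σ : ℝ) (l m : Fin 4) :
    lam σ l (vv 𝕜 σ m) = ((sl σ m - sl σ l : ℝ) : 𝕜) := by
  simp [lam, vv]

theorem core_sl_bd {σ : ℝ} (h1 : 3 ≤ σ) (h2 : σ ≤ 4) (l : Fin 4) : 0 ≤ sl σ l ∧ sl σ l ≤ 4 := by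
  fin_cases l
  · simp [sl]
  · simp [sl]
  · simp [sl]; norm_num
  · simp only [sl]; exact ⟨by simp; linarith, by simpa using h2⟩

/-- a single term is dominated by the Rademacher average -/
theorem core_single_le {ι : Type} [Fintype ι] [DecidableEq ι] (x : ι → 𝕜) (i : ι) :
    ‖x i‖ ≤ Ex hf (fun ε : ι → ℤˣ => ‖∑ k, ε k • x k‖) := by
  rw [Ex_resample isW_hf i, ← Ex_const (ι := ι) isW_hf ‖x i‖]
  refine Ex_mono isW_hf fun ζ => ?_
  have hupd : ∀ e : ℤˣ, ∑ k, Function.update ζ i e k • x k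
      = (∑ k ∈ Finset.univ.erase i, ζ k • x k) + e • x i := by
    intro e
    rw [← Finset.sum_erase_add _ _ (Finset.mem_univ i), Function.update_self]
    congr 1
    refine Finset.sum_congr rfl fun k hk => ?_
    rw [Function.update_of_ne (Finset.ne_of_mem_erase hk)]
  rw [sum_units]
  simp only [hupd]
  set Y := ∑ k ∈ Finset.univ.erase i, ζ k • x k
  have h1 : ‖(Y + (1 : ℤˣ) • x i) - (Y + (-1 : ℤˣ) • x i)‖ ≤
      ‖Y + (1 : ℤˣ) • x i‖ + ‖Y + (-1 : ℤˣ) • x i‖ := norm_sub_le _ _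
  have h2 : (Y + (1 : ℤˣ) • x i) - (Y + (-1 : ℤˣ) • x i) = (2 : 𝕜) * x i := by
    rw [one_smul, Units.neg_smul, one_smul]; ring
  rw [h2, norm_mul, RCLike.norm_ofNat] at h1
  unfold hf
  linarith

/-- the pointwise alternative for a diagonal block -/
theorem core_claim {σ : ℝ} (h1 : 3 ≤ σ) (T : Fin 4 → (𝕜 × 𝕜) →ₗ[𝕜] (𝕜 × 𝕜))
    (hT : ‖(∑ c, T c (0, 1)).2 - 1‖ ≤ 1 / 2) :
    ∃ l c m : Fin 4, (l = c ∨ l = m) ∧ 1 / 25 < ‖lam σ l (T c (vv 𝕜 σ m))‖ := by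
  by_contra hcon
  push Not at hcon
  have key : ∀ c m : Fin 4, 1 ≤ |sl σ m - sl σ c| → ‖(T c (vv 𝕜 σ m)).2‖ ≤ 2 / 25 := by
    intro c m hcm
    have e1 := hcon c c m (Or.inl rfl)
    have e2 := hcon m c m (Or.inr rfl)
    set w := T c (vv 𝕜 σ m)
    have e3 : ((sl σ m - sl σ c : ℝ) : 𝕜) * w.2 = lam σ c w - lam σ m w := by
      simp only [lam]; push_cast; ring
    have e4 : ‖((sl σ m - sl σ c : ℝ) : 𝕜) * w.2‖ ≤ 2 / 25 := by
      rw [e3]; exact (norm_sub_le _ _).trans (by linarith)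
    rw [norm_mul, RCLike.norm_ofReal] at e4
    nlinarith [norm_nonneg w.2]
  have v0 : vv 𝕜 σ 0 = (0, 1) := by simp [vv, sl]
  have v012 : ((0 : 𝕜), (1 : 𝕜)) = (2 : 𝕜) • vv 𝕜 σ 1 - vv 𝕜 σ 2 := by
    ext
    · have : ((2 : ℝ) : 𝕜) = 2 := by push_cast; rfl
      simp [vv, sl, this]
    · simp [vv]; norm_num
  have k1 := key 1 0 (by simp [sl])
  have k2 := key 2 0 (by simp [sl])
  have k3 := key 3 0 (by
    have : sl σ 0 - sl σ 3 = -σ := by simp [sl]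
    rw [this, abs_neg, abs_of_nonneg (by linarith)]; linarith)
  have k01 := key 0 1 (by simp [sl])
  have k02 := key 0 2 (by simp [sl])
  rw [v0] at k1 k2 k3
  have k0 : ‖(T 0 (0, 1)).2‖ ≤ 6 / 25 := by
    rw [v012, map_sub, map_smul, Prod.snd_sub, Prod.smul_snd, smul_eq_mul]
    refine (norm_sub_le _ _).trans ?_
    rw [norm_mul, RCLike.norm_ofNat]
    linarith
  rw [Fin.sum_univ_four] at hT
  simp only [Prod.snd_add] at hT
  set a := (T 0 (0, 1)).2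
  set b := (T 1 (0, 1)).2
  set c := (T 2 (0, 1)).2
  set d := (T 3 (0, 1)).2
  have h5 : ‖a + b + c + d‖ ≤ 12 / 25 := by
    have := norm_add_le (a + b + c) d
    have := norm_add_le (a + b) c
    have := norm_add_le a b
    linarith
  have h6 : ‖(1 : 𝕜)‖ ≤ ‖a + b + c + d‖ + ‖a + b + c + d - 1‖ := by
    have := norm_sub_le (a + b + c + d) (a + b + c + d - 1)
    rwa [sub_sub_cancel] at this
  rw [norm_one] at h6
  linarith

end aux

theorem core_LM_zero {Q : Type} {μ : (Q → ℝ≥0) → ℝ} (h : LM μ) : μ 0 = 0 := by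
  have := h.smul 0 0
  simpa using this

theorem core_LM_nonneg {Q : Type} {μ : (Q → ℝ≥0) → ℝ} (h : LM μ) (x : Q → ℝ≥0) : 0 ≤ μ x := by
  rw [← core_LM_zero h]; exact h.mono _ _ (fun _ => zero_le)

theorem core_LM_sum {Q : Type} {μ : (Q → ℝ≥0) → ℝ} (h : LM μ) {I : Type*} (s : Finset I)
    (x : I → Q → ℝ≥0) : μ (∑ i ∈ s, x i) ≤ ∑ i ∈ s, μ (x i) := by
  classical
  induction s using Finset.induction_on with
  | empty => simp [core_LM_zero h]
  | insert a s ha ih =>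
    rw [Finset.sum_insert ha, Finset.sum_insert ha]
    exact (h.add _ _).trans (by linarith)

theorem coreA (𝕜 : Type*) [RCLike 𝕜] (C : ℝ) : ∃ C' : ℝ, 0 < C' ∧
    ∀ (I J : Type) [Fintype I] [DecidableEq I] [Fintype J] [DecidableEq J]
      (μ : (Fin 4 × I → ℝ≥0) → ℝ) (μ' : (Fin 4 × J → ℝ≥0) → ℝ), LM μ → LM μ' → LowQ μ' C →
      ∀ (σ δ : ℝ) (σ' : J → ℝ), 3 ≤ σ → σ ≤ 4 → (∀ j, 3 ≤ σ' j ∧ σ' j ≤ 4) → 0 < δ → δ ≤ 1 →
      (∀ j, δ ≤ |σ - σ' j|) →
      ∀ (A : (I → 𝕜 × 𝕜) →ₗ[𝕜] (J → 𝕜 × 𝕜)) (B : (J → 𝕜 × 𝕜) →ₗ[𝕜] (I → 𝕜 × 𝕜)) (a b : ℝ),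
      0 ≤ a → 0 ≤ b →
      (∀ z, μ' (fun p => ‖lam (σ' p.2) p.1 (A z p.2)‖₊) ≤ a * μ (fun p => ‖lam σ p.1 (z p.2)‖₊)) →
      (∀ y, μ (fun p => ‖lam σ p.1 (B y p.2)‖₊) ≤ b * μ' (fun p => ‖lam (σ' p.2) p.1 (y p.2)‖₊)) →
      (∀ i, ‖(B (A (Pi.single i (0, 1))) i).2 - 1‖ ≤ 1 / 2) →
      ∀ K : ℝ, (∀ c : I → Fin 4, ∃ (l : Fin 4) (t : I → ℝ≥0), (∀ i, c i ≠ l → t i = 0) ∧
        ∀ l', l' ≠ l → K * μ (fun p => if p.1 = l' then t p.2 else 0) <
          μ (fun p => if p.1 = l then t p.2 else 0)) →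
      K ≤ C' * a * b / δ := by
  obtain ⟨C1, hC1, hmult⟩ := mult 𝕜 C
  refine ⟨300000 * C1, by positivity, ?_⟩
  intro I J _ _ _ _ μ μ' hμ hμ' hlow σ δ σ' h1 h2 h3 hδ hδ1 hsep A B a b ha hb hA hB hdiag K hK
  set D : ℝ := 1000 / δ with hD
  have hD1 : 1 ≤ D := by rw [hD, le_div_iff₀ hδ]; linarith
  -- the blocks of `A`
  let Ab : I → J → (𝕜 × 𝕜) →ₗ[𝕜] (𝕜 × 𝕜) := fun i j =>
    (LinearMap.proj j).comp (A.comp (LinearMap.single 𝕜 (fun _ : I => 𝕜 × 𝕜) i))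
  have hAb : ∀ i j w, Ab i j w = A (Pi.single i w) j := fun i j w => rfl
  have hcr : ∀ i j, ∃ l, ∀ l' m, ‖lam (σ' j) l' (Ab i j (vv 𝕜 σ m))‖ ≤
      D * ‖lam (σ' j) l' (Ab i j (vv 𝕜 σ l))‖ := fun i j =>
    cross h1 h2 (h3 j).1 (h3 j).2 hδ (hsep j) (Ab i j)
  choose col hcol using hcr
  let R : I → Fin 4 → (𝕜 × 𝕜) →ₗ[𝕜] (J → 𝕜 × 𝕜) := fun i c =>
    LinearMap.pi fun j => if col i j = c then Ab i j else 0
  have hR : ∀ i c w j, R i c w j = if col i j = c then Ab i j w else 0 := by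
    intro i c w j
    simp only [R, LinearMap.pi_apply]
    split_ifs <;> rfl
  let T : I → Fin 4 → (𝕜 × 𝕜) →ₗ[𝕜] (𝕜 × 𝕜) := fun i c =>
    (LinearMap.proj i).comp (B.comp (R i c))
  have hT : ∀ i c w, T i c w = B (R i c w) i := fun i c w => rfl
  have hsum : ∀ i w, ∑ c, T i c w = B (A (Pi.single i w)) i := by
    intro i w
    have e : ∑ c, R i c w = A (Pi.single i w) := by
      funext j
      rw [Finset.sum_apply]
      simp only [hR]
      rw [Finset.sum_ite_eq]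
      simp [hAb]
    rw [← e, map_sum, Finset.sum_apply]
    rfl
  have hcl : ∀ i, ∃ l c m : Fin 4, (l = c ∨ l = m) ∧ 1 / 25 < ‖lam σ l (T i c (vv 𝕜 σ m))‖ :=
    fun i => core_claim h1 (T i) (by rw [hsum]; exact hdiag i)
  choose cl cc cm hor hbig using hcl
  have hdom : ∀ i j, col i j = cc i → ∀ l', ‖lam (σ' j) l' (Ab i j (vv 𝕜 σ (cm i)))‖ ≤
      D * ‖lam (σ' j) l' (Ab i j (vv 𝕜 σ (cl i)))‖ := by
    intro i j hj l'
    rcases hor i with h | h
    · rw [h, ← hj]; exact hcol i j l' _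
    · rw [h]; exact le_mul_of_one_le_left (norm_nonneg _) hD1
  obtain ⟨l, t, ht, hlt⟩ := hK cl
  let N : Fin 4 → ℝ := fun l' => μ (fun p => if p.1 = l' then t p.2 else 0)
  have hN : ∀ l', 0 ≤ N l' := fun l' => core_LM_nonneg hμ _
  let U : I → J → 𝕜 × 𝕜 := fun i => ((t i : ℝ) : 𝕜) • R i (cc i) (vv 𝕜 σ (cm i))
  let Z : I → I → 𝕜 × 𝕜 := fun i => Pi.single i (((t i : ℝ) : 𝕜) • vv 𝕜 σ l)
  let u : I → Fin 4 × J → 𝕜 := fun i p => lam (σ' p.2) p.1 (U i p.2)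
  let v : I → Fin 4 × J → 𝕜 := fun i p => lam (σ' p.2) p.1 (A (Z i) p.2)
  have huv : ∀ i p, ‖u i p‖ ≤ D * ‖v i p‖ := by
    rintro i ⟨l', j⟩
    have e1 : u i (l', j) = ((t i : ℝ) : 𝕜) * lam (σ' j) l' (R i (cc i) (vv 𝕜 σ (cm i)) j) :=
      core_lam_smul _ _ _ _
    have e2 : v i (l', j) = ((t i : ℝ) : 𝕜) * lam (σ' j) l' (Ab i j (vv 𝕜 σ l)) := by
      rw [← core_lam_smul, ← map_smul]; rfl
    rw [e1, e2, norm_mul, norm_mul, mul_left_comm]
    by_cases hi : cl i = l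
    · refine mul_le_mul_of_nonneg_left ?_ (norm_nonneg _)
      rw [hR]
      split_ifs with hj
      · rw [← hi]; exact hdom i j hj l'
      · rw [core_lam_zero, norm_zero]; positivity
    · rw [ht i hi]; simp
  have hm := hmult (Fin 4 × J) I μ' hμ' hlow u v D (by linarith) huv
  -- lower bound through Jensen
  have hlowb : (1 / 25 : ℝ) * N l ≤
      Ex hf (fun ε : I → ℤˣ => μ (fun p => ‖lam σ p.1 (B (∑ i, ε i • U i) p.2)‖₊)) := by
    have hj := hμ.jensen (ι := I) ((1 / 25 : ℝ≥0) • fun p : Fin 4 × I => if p.1 = l then t p.2 else 0)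
      (fun ε p => ‖lam σ p.1 (B (∑ i, ε i • U i) p.2)‖₊) ?_
    · rw [hμ.smul] at hj
      simpa using hj
    · rintro ⟨l', i⟩
      have e : ∀ ε : I → ℤˣ, lam σ l' (B (∑ k, ε k • U k) i) = ∑ k, ε k • lam σ l' (B (U k) i) := by
        intro ε
        rw [core_map_sign, Finset.sum_apply, ← core_lam_sign]
        rfl
      simp only [coe_nnnorm, e]
      refine le_trans ?_ (core_single_le (fun k => lam σ l' (B (U k) i)) i)
      have e2 : lam σ l' (B (U i) i) = ((t i : ℝ) : 𝕜) * lam σ l' (T i (cc i) (vv 𝕜 σ (cm i))) := by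
        rw [← core_lam_smul, hT]
        simp only [U, map_smul, Pi.smul_apply]
      rw [e2, norm_mul, RCLike.norm_ofReal, abs_of_nonneg (NNReal.coe_nonneg _)]
      simp only [Pi.smul_apply, smul_eq_mul]
      split_ifs with hl
      · by_cases hi : cl i = l
        · have := hbig i
          rw [hi, ← hl] at this
          push_cast
          nlinarith [NNReal.coe_nonneg (t i)]
        · rw [ht i hi]; simp
      · simp only [mul_zero, NNReal.coe_zero]; positivity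
  have hB' : Ex hf (fun ε : I → ℤˣ => μ (fun p => ‖lam σ p.1 (B (∑ i, ε i • U i) p.2)‖₊)) ≤
      b * Ex hf (fun ε : I → ℤˣ => μ' (fun p => ‖∑ i, ε i • u i p‖₊)) := by
    rw [← Ex_mul]
    refine Ex_mono isW_hf fun ε => (hB _).trans (le_of_eq ?_)
    congr 2
    funext p
    rw [Finset.sum_apply, ← core_lam_sign]
    rfl
  have hA' : Ex hf (fun ε : I → ℤˣ => μ' (fun p => ‖∑ i, ε i • v i p‖₊)) ≤
      a * (4 * ∑ l' ∈ Finset.univ.erase l, N l') := by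
    rw [← Ex_const (ι := I) isW_hf (a * (4 * ∑ l' ∈ Finset.univ.erase l, N l'))]
    refine Ex_mono isW_hf fun ε => ?_
    have e : (fun p : Fin 4 × J => ‖∑ i, ε i • v i p‖₊) =
        fun p => ‖lam (σ' p.2) p.1 (A (∑ i, ε i • Z i) p.2)‖₊ := by
      funext p
      rw [core_map_sign, Finset.sum_apply, ← core_lam_sign]
      rfl
    rw [e]
    refine (hA _).trans (mul_le_mul_of_nonneg_left ?_ ha)
    have hz : ∀ i, (∑ k, ε k • Z k) i = ε i • (((t i : ℝ) : 𝕜) • vv 𝕜 σ l) := by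
      intro i
      rw [Finset.sum_apply, Finset.sum_eq_single i]
      · simp [Z]
      · intro k _ hk
        simp [Z, Pi.single_eq_of_ne' hk]
      · intro h; exact (h (Finset.mem_univ i)).elim
    have hle : (fun p : Fin 4 × I => ‖lam σ p.1 ((∑ k, ε k • Z k) p.2)‖₊) ≤
        (4 : ℝ≥0) • ∑ l' ∈ Finset.univ.erase l,
          (fun p : Fin 4 × I => if p.1 = l' then t p.2 else 0) := by
      rintro ⟨l', i⟩
      have e3 : ‖lam σ l' ((∑ k, ε k • Z k) i)‖ = t i * |sl σ l - sl σ l'| := by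
        rw [hz, units_smul_eq (𝕜 := 𝕜), core_lam_smul, core_lam_smul, core_lam_vv, norm_mul,
          norm_mul, RCLike.norm_ofReal, RCLike.norm_ofReal, RCLike.norm_ofReal,
          abs_of_nonneg (NNReal.coe_nonneg _)]
        rcases Int.units_eq_one_or (ε i) with h | h <;> simp [h, sg]
      rw [← NNReal.coe_le_coe, coe_nnnorm, e3]
      simp only [Pi.smul_apply, Finset.sum_apply, smul_eq_mul, Finset.sum_ite_eq,
        Finset.mem_erase, Finset.mem_univ, and_true]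
      split_ifs with hl
      · have b1 := core_sl_bd h1 h2 l
        have b2 := core_sl_bd h1 h2 l'
        have : |sl σ l - sl σ l'| ≤ 4 := abs_le.2 ⟨by linarith, by linarith⟩
        push_cast
        nlinarith [NNReal.coe_nonneg (t i)]
      · push Not at hl
        simp [hl]
    refine (hμ.mono _ _ hle).trans ?_
    rw [hμ.smul]
    exact mul_le_mul (by norm_num) (core_LM_sum hμ _ _) (core_LM_nonneg hμ _) (by norm_num)
  have hfin : (1 / 25 : ℝ) * N l ≤ b * (C1 * D * (a * (4 * ∑ l' ∈ Finset.univ.erase l, N l'))) := by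
    refine hlowb.trans (hB'.trans (mul_le_mul_of_nonneg_left (hm.trans ?_) hb))
    exact mul_le_mul_of_nonneg_left hA' (by positivity)
  rcases le_or_gt K 0 with hK0 | hK0
  · exact hK0.trans (by positivity)
  have hKs : K * ∑ l' ∈ Finset.univ.erase l, N l' ≤ 3 * N l := by
    rw [Finset.mul_sum]
    calc ∑ l' ∈ Finset.univ.erase l, K * N l' ≤ ∑ _l' ∈ Finset.univ.erase l, N l :=
          Finset.sum_le_sum fun l' hl' => (hlt l' (Finset.ne_of_mem_erase hl')).le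
      _ = 3 * N l := by
          rw [Finset.sum_const, Finset.card_erase_of_mem (Finset.mem_univ l)]
          simp
  have hNpos : 0 < N l := by
    obtain ⟨l', hl'⟩ := exists_ne l
    exact lt_of_le_of_lt (mul_nonneg hK0.le (hN l')) (hlt l' hl')
  have hM : 0 ≤ b * (C1 * D * (a * 4)) := by positivity
  have h7 : K * ((1 / 25 : ℝ) * N l) ≤ b * (C1 * D * (a * 4)) * (3 * N l) := by
    calc K * ((1 / 25 : ℝ) * N l)
        ≤ K * (b * (C1 * D * (a * (4 * ∑ l' ∈ Finset.univ.erase l, N l')))) :=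
          mul_le_mul_of_nonneg_left hfin hK0.le
      _ = b * (C1 * D * (a * 4)) * (K * ∑ l' ∈ Finset.univ.erase l, N l') := by ring
      _ ≤ _ := mul_le_mul_of_nonneg_left hKs hM
  have h8 : K * N l ≤ (300000 * C1 * a * b / δ) * N l := by
    have : (300000 * C1 * a * b / δ) = 25 * (b * (C1 * D * (a * 4)) * 3) := by
      rw [hD]; ring
    rw [this]; nlinarith
  exact le_of_mul_le_mul_right h8 hNpos

end Pool.Agent.Lib.MP_435322_an.UD
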