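import Pool.Agent.Lib.MP_435322_an.UBasic

/-! Order preserving covers of lists. -/

namespace Pool.Agent.Lib.MP_435322_an.UD

open Finset
open scoped NNReal

/-- `L` is covered, in order, by `A` and `B` -/
inductive Cov {α : Type} [Add α] [LE α] : List α → List α → List α → Prop
  | nil : Cov [] [] []
  | skipA {L A B : List α} (a : α) : Cov L A B → Cov L (a :: A) B
  | skipB {L A B : List α} (b : α) : Cov L A B → Cov L A (b :: B)
  | useA {L A B : List α} {c a : α} : c ≤ a → Cov L A B → Cov (c :: L) (a :: A) B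
  | useB {L A B : List α} {c b : α} : c ≤ b → Cov L A B → Cov (c :: L) A (b :: B)
  | useAB {L A B : List α} {c a b : α} :
      c ≤ a + b → Cov L A B → Cov (c :: L) (a :: A) (b :: B)

/-- spreading sublinear functional on lists -/
structure SL (f : List ℝ≥0 → ℝ) : Prop where
  cov : ∀ L A B, Cov L A B → f L ≤ f A + f B
  nil : f [] = 0
  smul : ∀ (c : ℝ≥0) L, f (L.map (c * ·)) = c * f L

section
variable {α : Type} [Add α] [Preorder α]

theorem Cov.nil_left (A B : List α) : Cov [] A B := by
  induction A with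
  | nil =>
    induction B with
    | nil => exact Cov.nil
    | cons b B ih => exact Cov.skipB b ih
  | cons a A ih => exact Cov.skipA a ih

theorem Cov.refl (L : List α) : Cov L L [] := by
  induction L with
  | nil => exact Cov.nil
  | cons a L ih => exact Cov.useA le_rfl ih

theorem Cov.symm_refl (L : List α) : Cov L [] L := by
  induction L with
  | nil => exact Cov.nil
  | cons a L ih => exact Cov.useB le_rfl ih

theorem Cov.append {L A B L' A' B' : List α} (h : Cov L A B) (h' : Cov L' A' B') :
    Cov (L ++ L') (A ++ A') (B ++ B') := by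
  induction h with
  | nil => exact h'
  | skipA a _ ih => exact Cov.skipA a ih
  | skipB b _ ih => exact Cov.skipB b ih
  | useA hc _ ih => exact Cov.useA hc ih
  | useB hc _ ih => exact Cov.useB hc ih
  | useAB hc _ ih => exact Cov.useAB hc ih

theorem Cov.of_sublist {L A : List α} (h : L.Sublist A) : Cov L A [] := by
  induction h with
  | slnil => exact Cov.nil
  | cons a _ ih => exact Cov.skipA a ih
  | cons_cons a _ ih => exact Cov.useA le_rfl ih

theorem Cov.map {β : Type} [Add β] [Preorder β] (φ : α → β) (h1 : ∀ a b, a ≤ b → φ a ≤ φ b)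
    (h2 : ∀ a b, φ (a + b) ≤ φ a + φ b) {L A B : List α} (h : Cov L A B) :
    Cov (L.map φ) (A.map φ) (B.map φ) := by
  induction h with
  | nil => exact Cov.nil
  | skipA a _ ih => exact Cov.skipA _ ih
  | skipB b _ ih => exact Cov.skipB _ ih
  | useA hc _ ih => exact Cov.useA (h1 _ _ hc) ih
  | useB hc _ ih => exact Cov.useB (h1 _ _ hc) ih
  | useAB hc _ ih => exact Cov.useAB ((h1 _ _ hc).trans (h2 _ _)) ih

theorem Cov.ofFn_le {k : ℕ} {v w : Fin k → α} (h : ∀ i, v i ≤ w i) :
    Cov (List.ofFn v) (List.ofFn w) [] := by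
  induction k with
  | zero => simpa using Cov.nil
  | succ k ih =>
    rw [List.ofFn_succ, List.ofFn_succ]
    exact Cov.useA (h 0) (ih fun i => h _)

theorem Cov.ofFn_add {k : ℕ} {v w w' : Fin k → α} (h : ∀ i, v i ≤ w i + w' i) :
    Cov (List.ofFn v) (List.ofFn w) (List.ofFn w') := by
  induction k with
  | zero => simpa using Cov.nil
  | succ k ih =>
    rw [List.ofFn_succ, List.ofFn_succ, List.ofFn_succ]
    exact Cov.useAB (h 0) (ih fun i => h _)

end

theorem SL.nonneg {f : List ℝ≥0 → ℝ} (h : SL f) (L : List ℝ≥0) : 0 ≤ f L := by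
  have := h.cov [] L L (Cov.nil_left _ _)
  rw [h.nil] at this
  linarith

theorem SL.mono {f : List ℝ≥0 → ℝ} (h : SL f) {L A : List ℝ≥0} (hc : Cov L A []) : f L ≤ f A := by
  have := h.cov L A [] hc
  rw [h.nil] at this
  linarith

end Pool.Agent.Lib.MP_435322_an.UD
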