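import Pool.Agent.Lib.MP_435322_an.Kwapien

/-! Definitions used in the statement of the theorem on unconditional decompositions. -/

namespace Pool.Agent.Lib.MP_435322_an.UD

open Filter

universe u v w

/-- The Effros Borel structure on the closed subspaces of `Y`. -/
abbrev effros (𝕜 : Type w) [RCLike 𝕜] (Y : Type v) [NormedAddCommGroup Y] [NormedSpace 𝕜 Y] :
    MeasurableSpace (ClosedSubmodule 𝕜 Y) :=
  MeasurableSpace.generateFrom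
    {A | ∃ U : Set Y, IsOpen U ∧ A = {Z : ClosedSubmodule 𝕜 Y | ((Z : Set Y) ∩ U).Nonempty}}

/-- `E₀` Borel reduces to isomorphism between closed subspaces of `Y`. -/
def IsErgodic (𝕜 : Type w) [RCLike 𝕜] (Y : Type v) [NormedAddCommGroup Y] [NormedSpace 𝕜 Y] :
    Prop :=
  ∃ f : (ℕ → Bool) → ClosedSubmodule 𝕜 Y, @Measurable _ _ _ (effros 𝕜 Y) f ∧
    ∀ a b : ℕ → Bool, (∀ᶠ n in atTop, a n = b n) ↔
      Nonempty ((f a).toSubmodule ≃L[𝕜] (f b).toSubmodule)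

/-- `E` is isomorphic to a Hilbert space. -/
def IsHilbertian (𝕜 : Type w) [RCLike 𝕜] (E : Type u) [NormedAddCommGroup E] [NormedSpace 𝕜 E] :
    Prop :=
  ∃ (H : Type u) (_ : NormedAddCommGroup H) (_ : InnerProductSpace 𝕜 H),
    CompleteSpace H ∧ Nonempty (E ≃L[𝕜] H)

/-- Rademacher type `p`. -/
def HasType (E : Type u) [NormedAddCommGroup E] (p : ℝ) : Prop :=
  ∃ C : ℝ, ∀ (n : ℕ) (x : Fin n → E),
    √((∑ ε : Fin n → ℤˣ, ‖∑ i, ε i • x i‖ ^ 2) / 2 ^ n) ≤ C * (∑ i, ‖x i‖ ^ p) ^ (1 / p)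

/-- Rademacher cotype `q`. -/
def HasCotype (E : Type u) [NormedAddCommGroup E] (q : ℝ) : Prop :=
  ∃ C : ℝ, ∀ (n : ℕ) (x : Fin n → E),
    (∑ i, ‖x i‖ ^ q) ^ (1 / q) ≤ C * √((∑ ε : Fin n → ℤˣ, ‖∑ i, ε i • x i‖ ^ 2) / 2 ^ n)

end Pool.Agent.Lib.MP_435322_an.UD
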