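import Pool.Agent.Lib.MP_435322_an.UBasic

/-! The downward design. -/

namespace Pool.Agent.Lib.MP_435322_an.UD

open Finset
open scoped NNReal

theorem down_FD_mono {ν : V → ℝ} {C C' : ℝ} (hC : C ≤ C') {M : ℕ} {x : V} (hx : FD ν C M x) :
    FD ν C' M x := by
  obtain ⟨z, h1, h2, h3⟩ := hx
  refine ⟨z, h1, h2, fun B => ⟨(h3 B).1.trans ?_, (h3 B).2.trans ?_⟩⟩
  · gcongr
  · gcongr

/-- weighted division -/
theorem down_div {ν : V → ℝ} {C : ℝ} (hC : 0 ≤ C) {M : ℕ} {x : V} (hx : FD ν C M x)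
    {I : Type*} [Fintype I] (μ : I → ℝ) (h1 : ∑ i, μ i = 1) (hM : ∀ i, 1 ≤ (M : ℝ) * μ i) :
    ∃ z : I → V, Dj z ∧ ∑ i, z i ≤ x ∧ ∀ B : Finset I,
      (∑ i ∈ B, μ i) * ν x ^ 2 ≤ 2 * C * ν (∑ i ∈ B, z i) ^ 2 ∧
      ν (∑ i ∈ B, z i) ^ 2 ≤ 2 * C * ((∑ i ∈ B, μ i) * ν x ^ 2) := by
  classical
  obtain ⟨z0, hd, hs, hB⟩ := hx
  have hMpos : (0 : ℝ) < M := by
    rcases Nat.eq_zero_or_pos M with h0 | h0
    · exfalso
      have : ∑ i, μ i = 0 := Finset.sum_eq_zero fun i _ => by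
        have := hM i
        rw [h0] at this
        norm_num at this
      linarith
    · exact_mod_cast h0
  let n : I → ℕ := fun i => ⌊(M : ℝ) * μ i⌋₊
  have hn1 : ∀ i, (n i : ℝ) ≤ M * μ i := fun i => Nat.floor_le (by linarith [hM i])
  have hn2 : ∀ i, M * μ i ≤ 2 * (n i : ℝ) := fun i => by
    have h2 : M * μ i < (n i : ℝ) + 1 := Nat.lt_floor_add_one _
    have h3 : 1 ≤ n i := Nat.le_floor (by exact_mod_cast hM i)
    have h4 : (1 : ℝ) ≤ n i := by exact_mod_cast h3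
    linarith
  have hcard : Fintype.card (Σ i, Fin (n i)) ≤ Fintype.card (Fin M) := by
    rw [Fintype.card_sigma, Fintype.card_fin]
    simp only [Fintype.card_fin]
    have : ((∑ i, n i : ℕ) : ℝ) ≤ M := by
      push_cast
      calc ∑ i, (n i : ℝ) ≤ ∑ i, M * μ i := Finset.sum_le_sum fun i _ => hn1 i
        _ = M := by rw [← Finset.mul_sum, h1, mul_one]
    exact_mod_cast this
  obtain ⟨e⟩ := Function.Embedding.nonempty_of_card_le hcard
  have hsum : ∀ B : Finset I, ∑ j ∈ (B.sigma fun i => (Finset.univ : Finset (Fin (n i)))).map e,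
      z0 j = ∑ i ∈ B, ∑ j : Fin (n i), z0 (e ⟨i, j⟩) := fun B => by
    rw [Finset.sum_map, Finset.sum_sigma]
  have hcB : ∀ B : Finset I,
      (((B.sigma fun i => (Finset.univ : Finset (Fin (n i)))).map e).card : ℝ) =
        ∑ i ∈ B, (n i : ℝ) := fun B => by
    rw [Finset.card_map, Finset.card_sigma]
    simp
  refine ⟨fun i => ∑ j : Fin (n i), z0 (e ⟨i, j⟩), ?_, ?_, fun B => ?_⟩
  · intro m p q hp hq
    obtain ⟨j, -, hj⟩ := sum_ne_zero_V hp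
    obtain ⟨j', -, hj'⟩ := sum_ne_zero_V hq
    have := e.injective (hd m _ _ hj hj')
    exact congrArg Sigma.fst this
  · rw [← hsum]
    exact (Finset.sum_le_sum_of_subset (Finset.subset_univ _)).trans hs
  · obtain ⟨a1, a2⟩ := hB ((B.sigma fun i => (Finset.univ : Finset (Fin (n i)))).map e)
    rw [hsum, hcB] at a1 a2
    have b1 : ∑ i ∈ B, (n i : ℝ) ≤ M * ∑ i ∈ B, μ i := by
      rw [Finset.mul_sum]; exact Finset.sum_le_sum fun i _ => hn1 i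
    have b2 : M * ∑ i ∈ B, μ i ≤ 2 * ∑ i ∈ B, (n i : ℝ) := by
      rw [Finset.mul_sum, Finset.mul_sum]; exact Finset.sum_le_sum fun i _ => hn2 i
    have b0 : 0 ≤ ∑ i ∈ B, (n i : ℝ) := Finset.sum_nonneg fun i _ => Nat.cast_nonneg _
    set N := ν (∑ i ∈ B, ∑ j : Fin (n i), z0 (e ⟨i, j⟩)) ^ 2 with hN
    set X := ν x ^ 2 with hX
    have hX0 : 0 ≤ X := sq_nonneg _
    have hN0 : 0 ≤ N := sq_nonneg _
    set s := ∑ i ∈ B, μ i
    set t := ∑ i ∈ B, (n i : ℝ)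
    constructor
    · refine le_of_mul_le_mul_left ?_ hMpos
      have := mul_le_mul_of_nonneg_right b2 hX0
      nlinarith
    · refine le_of_mul_le_mul_left ?_ hMpos
      have h5 := mul_le_mul_of_nonneg_right b1 hX0
      have h6 := mul_le_mul_of_nonneg_left h5 hC
      have h7 : 0 ≤ C * (t * X) := by positivity
      nlinarith

/-- a finite weighted index set with families of vectors -/
structure DownStr where
  I : Type
  inst : Fintype I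
  g : ℕ → I → V
  μ : I → ℝ

instance (S : DownStr) : Fintype S.I := S.inst

/-- a test of some colour below `k` -/
def downTest (ν : V → ℝ) (A κ : ℝ) (k : ℕ) (S : DownStr) (c : S.I → ℕ) : Prop :=
  ∃ l < k, ∃ s : Finset S.I, (∀ i ∈ s, c i = l) ∧ 0 < ∑ i ∈ s, S.μ i ∧
    κ ^ (2 * l) * ∑ i ∈ s, S.μ i ≤ A * ν (∑ i ∈ s, S.g l i) ^ 2 ∧
    ∀ l' < k, l' ≠ l → ν (∑ i ∈ s, S.g l' i) ^ 2 ≤ A * (κ ^ (2 * l + 2) * ∑ i ∈ s, S.μ i)

/-- the inductive invariant -/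
def downGood (ν : V → ℝ) (A κ : ℝ) (k : ℕ) (δ : ℝ) (m m' : ℕ) (S : DownStr) : Prop :=
  (∀ i, 0 < S.μ i) ∧ ∑ i, S.μ i = 1 ∧
    (∀ n l l' i i', l < k → l' < k → S.g l i n ≠ 0 → S.g l' i' n ≠ 0 → l = l' ∧ i = i') ∧
    (∀ l < k, ∀ i, Win m m' (S.g l i)) ∧ (∀ l < k, ν (∑ i, S.g l i) ≤ δ) ∧
    ∀ c : S.I → ℕ, (1 / 2 : ℝ) ^ k ≤ ∑ i, (if k ≤ c i then S.μ i else 0) ∨ downTest ν A κ k S c

/-- gluing structures -/
noncomputable def downGlue (k : ℕ) {Γ : Type} [Fintype Γ] (S : Γ → DownStr) (a : Γ → ℝ≥0)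
    (z : ∀ γ, (S γ).I → V) : DownStr where
  I := Σ γ, (S γ).I
  inst := inferInstance
  g := fun l p => if l < k then a p.1 • (S p.1).g l p.2 else z p.1 p.2
  μ := fun p => (a p.1 : ℝ) ^ 2 * (S p.1).μ p.2

theorem down_glue {ν : V → ℝ} (h : LN ν) {A κ : ℝ} (hA : 1 ≤ A) (hκ : 0 < κ) (hκ1 : κ ≤ 1)
    (k : ℕ) {Γ : Type} [Fintype Γ] (S : Γ → DownStr) (a : Γ → ℝ≥0) (z : ∀ γ, (S γ).I → V)
    (δ : ℝ) (d : Γ → ℝ) (m m' : ℕ) (lo mid hi : Γ → ℕ)
    (hS : ∀ γ, downGood ν A κ k (d γ) (lo γ) (mid γ) (S γ))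
    (ha : ∀ γ, 0 < a γ) (ha1 : ∑ γ, (a γ : ℝ) ^ 2 = 1)
    (hw : ∀ γ, m ≤ lo γ ∧ lo γ ≤ mid γ ∧ mid γ ≤ hi γ ∧ hi γ ≤ m')
    (hdis : ∀ γ γ' n, lo γ ≤ n → n < hi γ → lo γ' ≤ n → n < hi γ' → γ = γ')
    (hz : ∀ γ, Dj (z γ)) (hzw : ∀ γ i, Win (mid γ) (hi γ) (z γ i))
    (hz1 : ∀ γ (B : Finset (S γ).I), (∑ i ∈ B, (S γ).μ i) * (κ ^ k * a γ) ^ 2 ≤
      A * ν (∑ i ∈ B, z γ i) ^ 2)
    (hz2 : ∀ γ (B : Finset (S γ).I), ν (∑ i ∈ B, z γ i) ^ 2 ≤
      A * ((∑ i ∈ B, (S γ).μ i) * (κ ^ k * a γ) ^ 2))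
    (hzδ : ν (∑ γ, ∑ i, z γ i) ≤ δ) (hd : ∑ γ, d γ ≤ δ)
    (hd2 : ∀ γ, d γ ^ 2 ≤ κ ^ (2 * k + 2) * (1 / 2) ^ (k + 1)) :
    downGood ν A κ (k + 1) δ m m' (downGlue k S a z) := by
  classical
  have hold : ∀ l < k, ∀ p : Σ γ, (S γ).I,
      (downGlue k S a z).g l p = a p.1 • (S p.1).g l p.2 := fun l hl p => if_pos hl
  have hnew : ∀ p : Σ γ, (S γ).I, (downGlue k S a z).g k p = z p.1 p.2 :=
    fun p => if_neg (lt_irrefl k)
  have hμ : ∀ p : Σ γ, (S γ).I, (downGlue k S a z).μ p = (a p.1 : ℝ) ^ 2 * (S p.1).μ p.2 :=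
    fun p => rfl
  have hwin : ∀ l < k + 1, ∀ p : Σ γ, (S γ).I,
      Win (lo p.1) (hi p.1) ((downGlue k S a z).g l p) := fun l hl p => by
    rcases Nat.lt_succ_iff_lt_or_eq.1 hl with h1 | h1
    · rw [hold l h1]
      exact (((hS p.1).2.2.2.1 l h1 p.2).mono le_rfl (hw p.1).2.2.1).smul _
    · rw [h1, hnew]
      exact (hzw p.1 p.2).mono (hw p.1).2.1 le_rfl
  have hale : ∀ γ, (a γ : ℝ) ≤ 1 := fun γ => by
    have h1 : (a γ : ℝ) ^ 2 ≤ ∑ γ, (a γ : ℝ) ^ 2 :=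
      Finset.single_le_sum (f := fun γ => (a γ : ℝ) ^ 2) (fun _ _ => sq_nonneg _)
        (Finset.mem_univ γ)
    rw [ha1] at h1
    exact (pow_le_one_iff_of_nonneg (a γ).2 two_ne_zero).1 h1
  -- sums over a lifted set
  have hlift : ∀ γ (s : Finset (S γ).I), ∃ T : Finset (downGlue k S a z).I,
      (∀ p ∈ T, ∃ i ∈ s, p = ⟨γ, i⟩) ∧
      (∑ p ∈ T, (downGlue k S a z).μ p = (a γ : ℝ) ^ 2 * ∑ i ∈ s, (S γ).μ i) ∧
      (∀ l < k, ν (∑ p ∈ T, (downGlue k S a z).g l p) = a γ * ν (∑ i ∈ s, (S γ).g l i)) ∧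
      ∑ p ∈ T, (downGlue k S a z).g k p = ∑ i ∈ s, z γ i := fun γ s => by
    refine ⟨s.map (Function.Embedding.sigmaMk (β := fun γ => (S γ).I) γ), fun p hp => ?_, ?_,
      fun l hl => ?_, ?_⟩
    · obtain ⟨i, hi, rfl⟩ := Finset.mem_map.1 hp
      exact ⟨i, hi, rfl⟩
    · refine (Finset.sum_map _ _ _).trans ?_
      rw [Finset.mul_sum]
      rfl
    · rw [← h.smul, Finset.smul_sum]
      congr 1
      refine (Finset.sum_map _ _ _).trans ?_
      exact Finset.sum_congr rfl fun i _ => hold l hl ⟨γ, i⟩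
    · refine (Finset.sum_map _ _ _).trans ?_
      exact Finset.sum_congr rfl fun i _ => hnew ⟨γ, i⟩
  refine ⟨fun p => ?_, ?_, ?_, fun l hl p => ?_, fun l hl => ?_, fun c => ?_⟩
  · exact mul_pos (pow_pos (ha p.1) 2) ((hS p.1).1 p.2)
  · change ∑ p : Σ γ, (S γ).I, (a p.1 : ℝ) ^ 2 * (S p.1).μ p.2 = 1
    rw [Fintype.sum_sigma, ← ha1]
    refine Finset.sum_congr rfl fun γ _ => ?_
    dsimp only
    rw [← Finset.mul_sum, (hS γ).2.1, mul_one]
  · rintro n l l' ⟨γ, i⟩ ⟨γ', i'⟩ hl hl' h1 h2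
    have w1 := hwin l hl _ n h1
    have w2 := hwin l' hl' _ n h2
    obtain rfl : γ = γ' := hdis γ γ' n w1.1 w1.2 w2.1 w2.2
    rcases Nat.lt_succ_iff_lt_or_eq.1 hl with e1 | e1 <;>
      rcases Nat.lt_succ_iff_lt_or_eq.1 hl' with e2 | e2
    · rw [hold l e1] at h1
      rw [hold l' e2] at h2
      obtain ⟨q1, q2⟩ := (hS γ).2.2.1 n l l' i i' e1 e2 (smul_ne_zero_V h1) (smul_ne_zero_V h2)
      exact ⟨q1, by rw [q2]⟩
    · rw [hold l e1] at h1
      rw [e2, hnew] at h2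
      have q1 := ((hS γ).2.2.2.1 l e1 i n (smul_ne_zero_V h1)).2
      have q2 := (hzw γ i' n h2).1
      omega
    · rw [hold l' e2] at h2
      rw [e1, hnew] at h1
      have q1 := ((hS γ).2.2.2.1 l' e2 i' n (smul_ne_zero_V h2)).2
      have q2 := (hzw γ i n h1).1
      omega
    · rw [e1, hnew] at h1
      rw [e2, hnew] at h2
      have q := hz γ n i i' h1 h2
      exact ⟨e1.trans e2.symm, by rw [q]⟩
  · exact (hwin l hl p).mono (hw p.1).1 (hw p.1).2.2.2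
  · change ν (∑ p : Σ γ, (S γ).I, (downGlue k S a z).g l p) ≤ δ
    rw [Fintype.sum_sigma]
    rcases Nat.lt_succ_iff_lt_or_eq.1 hl with h1 | h1
    · refine (h.sum_le _ _).trans (le_trans (Finset.sum_le_sum fun γ _ => ?_) hd)
      rw [Finset.sum_congr rfl fun i _ => hold l h1 ⟨γ, i⟩]
      dsimp only
      rw [← Finset.smul_sum, h.smul]
      have q1 := (hS γ).2.2.2.2.1 l h1
      have q2 := h.nonneg (∑ i, (S γ).g l i)
      have q3 := hale γ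
      nlinarith
    · rw [h1]
      simp only [hnew]
      exact hzδ
  · by_cases t1 : ∃ γ, downTest ν A κ k (S γ) fun i => c ⟨γ, i⟩
    · right
      obtain ⟨γ, l, hl, s, s1, s2, s3, s4⟩ := t1
      obtain ⟨T, u0, u1, u2, u3⟩ := hlift γ s
      have a2 : (0 : ℝ) < (a γ : ℝ) ^ 2 := pow_pos (ha γ) 2
      refine ⟨l, hl.trans (Nat.lt_succ_self k), T, ?_, ?_, ?_,
        fun l' hl' hne => ?_⟩
      · intro p hp
        obtain ⟨i, hi, rfl⟩ := u0 p hp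
        exact s1 i hi
      · rw [u1]; positivity
      · rw [u1, u2 l hl, mul_pow]
        nlinarith [mul_le_mul_of_nonneg_left s3 a2.le]
      · rw [u1]
        rcases Nat.lt_succ_iff_lt_or_eq.1 hl' with h1 | h1
        · rw [u2 l' h1, mul_pow]
          nlinarith [mul_le_mul_of_nonneg_left (s4 l' h1 hne) a2.le]
        · rw [h1, u3]
          refine (hz2 γ s).trans (mul_le_mul_of_nonneg_left ?_ (by linarith))
          have q1 : (κ ^ k) ^ 2 ≤ κ ^ (2 * l + 2) := by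
            rw [← pow_mul]
            exact pow_le_pow_of_le_one hκ.le hκ1 (by omega)
          rw [mul_pow]
          have q2 : 0 ≤ (a γ : ℝ) ^ 2 * ∑ i ∈ s, (S γ).μ i := by positivity
          nlinarith [mul_le_mul_of_nonneg_right q1 q2]
    · by_cases t2 : ∃ γ, (1 / 2 : ℝ) ^ (k + 1) ≤
          ∑ i ∈ Finset.univ.filter (fun i => c ⟨γ, i⟩ = k), (S γ).μ i
      · right
        obtain ⟨γ, t2⟩ := t2
        set s := Finset.univ.filter (fun i : (S γ).I => c ⟨γ, i⟩ = k) with hs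
        obtain ⟨T, u0, u1, u2, u3⟩ := hlift γ s
        have a2 : (0 : ℝ) < (a γ : ℝ) ^ 2 := pow_pos (ha γ) 2
        have s2 : 0 < ∑ i ∈ s, (S γ).μ i := lt_of_lt_of_le (by positivity) t2
        refine ⟨k, Nat.lt_succ_self k, T, ?_, ?_, ?_,
          fun l' hl' hne => ?_⟩
        · intro p hp
          obtain ⟨i, hi, rfl⟩ := u0 p hp
          exact (Finset.mem_filter.1 hi).2
        · rw [u1]; positivity
        · rw [u1, u3]
          refine le_trans (le_of_eq ?_) (hz1 γ s)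
          ring
        · have h1 : l' < k := by omega
          rw [u1, u2 l' h1, mul_pow]
          have q1 : ν (∑ i ∈ s, (S γ).g l' i) ≤ d γ :=
            (h.sum_mono (Finset.subset_univ _) _).trans ((hS γ).2.2.2.2.1 l' h1)
          have q2 : ν (∑ i ∈ s, (S γ).g l' i) ^ 2 ≤ d γ ^ 2 :=
            pow_le_pow_left₀ (h.nonneg _) q1 2
          have q3 : d γ ^ 2 ≤ κ ^ (2 * k + 2) * ∑ i ∈ s, (S γ).μ i :=
            (hd2 γ).trans (mul_le_mul_of_nonneg_left t2 (by positivity))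
          have q4 : 0 ≤ κ ^ (2 * k + 2) * ((a γ : ℝ) ^ 2 * ∑ i ∈ s, (S γ).μ i) := by positivity
          have q5 := mul_le_mul_of_nonneg_left (q2.trans q3) a2.le
          have q6 := mul_le_mul_of_nonneg_right hA q4
          nlinarith
      · left
        push Not at t1 t2
        change (1 / 2 : ℝ) ^ (k + 1) ≤ ∑ p : Σ γ, (S γ).I,
          (if k + 1 ≤ c p then (a p.1 : ℝ) ^ 2 * (S p.1).μ p.2 else 0)
        rw [Fintype.sum_sigma]
        have q : ∀ γ, (a γ : ℝ) ^ 2 * (1 / 2 : ℝ) ^ (k + 1) ≤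
            ∑ i, (if k + 1 ≤ c ⟨γ, i⟩ then (a γ : ℝ) ^ 2 * (S γ).μ i else 0) := fun γ => by
          have q1 := ((hS γ).2.2.2.2.2 fun i => c ⟨γ, i⟩).resolve_right (t1 γ)
          have q2 := t2 γ
          rw [Finset.sum_filter] at q2
          have q3 : ∑ i, (if k ≤ c ⟨γ, i⟩ then (S γ).μ i else 0) =
              ∑ i, (if c ⟨γ, i⟩ = k then (S γ).μ i else 0) +
              ∑ i, (if k + 1 ≤ c ⟨γ, i⟩ then (S γ).μ i else 0) := by
            rw [← Finset.sum_add_distrib]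
            refine Finset.sum_congr rfl fun i _ => ?_
            split_ifs <;> first | omega | simp
          have q4 : ∑ i, (if k + 1 ≤ c ⟨γ, i⟩ then (a γ : ℝ) ^ 2 * (S γ).μ i else 0) =
              (a γ : ℝ) ^ 2 * ∑ i, (if k + 1 ≤ c ⟨γ, i⟩ then (S γ).μ i else 0) := by
            rw [Finset.mul_sum]
            refine Finset.sum_congr rfl fun i _ => ?_
            split_ifs <;> simp
          rw [q4]
          refine mul_le_mul_of_nonneg_left ?_ (sq_nonneg _)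
          rw [pow_succ] at q2 ⊢
          linarith
        refine le_trans (le_of_eq ?_) (Finset.sum_le_sum fun γ _ => q γ)
        rw [← Finset.sum_mul, ha1, one_mul]

theorem down_step {ν : V → ℝ} (h : LN ν) {C : ℝ} (hC : 1 ≤ C) {F : ℕ → Pc} (hF : PSeq ν C F)
    (hfail : ∀ κ : ℕ → ℕ, Function.Injective κ → (∀ γ, γ ≤ κ γ) →
      ∀ C' : ℝ, ¬ SLo ν C' (fun γ => F (κ γ))) {κ : ℝ} (hκ : 0 < κ) (hκ1 : κ ≤ 1) (k : ℕ)
    (ih : ∀ δ > 0, ∀ m, ∃ S m', downGood ν (2 * C) κ k δ m m' S) :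
    ∀ δ > 0, ∀ m, ∃ S m', downGood ν (2 * C) κ (k + 1) δ m m' S := by
  classical
  intro δ hδ m
  let ds : ℝ := κ ^ (k + 1) * (1 / 2) ^ (k + 1)
  have hds : 0 < ds := by positivity
  let d : ℕ → ℝ := fun γ => min δ ds * (1 / 2) ^ (γ + 1)
  have hd : ∀ γ, 0 < d γ := fun γ => mul_pos (lt_min hδ hds) (by positivity)
  obtain ⟨w, o, hw0, hwm, hQ⟩ := sel_nat (α := DownStr × ℕ)
    (fun γ lo hi o => lo ≤ o.2 ∧ o.2 < hi ∧ downGood ν (2 * C) κ k (d γ) lo o.2 o.1 ∧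
      (∀ i, 1 ≤ ((o.2 + 1 : ℕ) : ℝ) * o.1.μ i) ∧ ∀ i, Win o.2 hi ((F o.2).y i)) m (by
      intro γ lo
      obtain ⟨S, m', hS⟩ := ih (d γ) (hd γ) lo
      obtain ⟨r, hr⟩ := exists_nat_ge (∑ i, 1 / S.μ i)
      let j := max lo (max m' r)
      obtain ⟨b, hb, hb'⟩ := exists_win (hF.1 j).2.2
      refine ⟨(S, j), b, lt_of_le_of_lt (le_max_left _ _) hb, le_max_left _ _, hb,
        ⟨hS.1, hS.2.1, hS.2.2.1, fun l hl i => (hS.2.2.2.1 l hl i).mono le_rfl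
          ((le_max_left _ _).trans (le_max_right _ _)), hS.2.2.2.2⟩, fun i => ?_, hb'⟩
      have q1 : 1 / S.μ i ≤ ∑ i, 1 / S.μ i :=
        Finset.single_le_sum (f := fun i => 1 / S.μ i) (fun i _ => (one_div_pos.2 (hS.1 i)).le)
          (Finset.mem_univ i)
      have q2 : (r : ℝ) ≤ ((j + 1 : ℕ) : ℝ) := by
        have : r ≤ j + 1 := ((le_max_right _ _).trans (le_max_right _ _)).trans (Nat.le_succ j)
        exact_mod_cast this
      exact (div_le_iff₀ (hS.1 i)).1 (q1.trans (hr.trans q2)))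
  have hj : StrictMono fun γ => (o γ).2 :=
    strictMono_nat_of_lt_succ fun γ => (hQ γ).2.1.trans_le (hQ (γ + 1)).1
  have hf := hfail (fun γ => (o γ).2) hj.injective (fun γ => hj.le_apply) (1 / δ ^ 2)
  unfold SLo at hf
  push Not at hf
  obtain ⟨σ, x, hx, hlt⟩ := hf
  set om2 := ∑ γ ∈ σ, ν (x γ) ^ 2 with hom2
  have hom2pos : 0 < om2 := lt_of_le_of_lt (by positivity) hlt
  set om := Real.sqrt om2 with hom
  have hompos : 0 < om := Real.sqrt_pos.2 hom2pos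
  have homsq : om ^ 2 = om2 := Real.sq_sqrt hom2pos.le
  have hsm : ν (∑ γ ∈ σ, x γ) ≤ δ * om := by
    refine (pow_le_pow_iff_left₀ (h.nonneg _) (by positivity) two_ne_zero).1 ?_
    rw [mul_pow, homsq]
    rw [one_div, inv_mul_lt_iff₀ (by positivity)] at hlt
    exact hlt.le
  let τ := σ.filter fun γ => ν (x γ) ≠ 0
  let r : ℝ≥0 := ⟨κ ^ k / om, by positivity⟩
  let a : τ → ℝ≥0 := fun γ => ⟨ν (x γ) / om, div_nonneg (h.nonneg _) hompos.le⟩
  have hτ : ∀ γ : τ, (γ : ℕ) ∈ σ := fun γ => (Finset.mem_filter.1 γ.2).1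
  have hnx : ∀ γ : τ, ν (r • x γ) = κ ^ k * a γ := fun γ => by
    rw [h.smul]
    change κ ^ k / om * ν (x γ) = κ ^ k * (ν (x γ) / om)
    ring
  have hz : ∀ γ : τ, ∃ z : (o γ).1.I → V, Dj z ∧ ∑ i, z i ≤ r • x γ ∧ ∀ B : Finset (o γ).1.I,
      (∑ i ∈ B, (o γ).1.μ i) * ν (r • x γ) ^ 2 ≤ 2 * C * ν (∑ i ∈ B, z i) ^ 2 ∧
      ν (∑ i ∈ B, z i) ^ 2 ≤ 2 * C * ((∑ i ∈ B, (o γ).1.μ i) * ν (r • x γ) ^ 2) := fun γ =>
    down_div (by linarith) (hF.2.2.2 _ _ ((hx γ (hτ γ)).smul r)) _ (hQ γ).2.2.1.2.1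
      (hQ γ).2.2.2.1
  choose z hz1 hz2 hz3 using hz
  refine ⟨downGlue k (fun γ : τ => (o γ).1) a z, w (σ.sup id + 1), ?_⟩
  refine down_glue h (by linarith) hκ hκ1 k _ a z δ (fun γ => d γ) m _ (fun γ => w γ)
    (fun γ => (o γ).2) (fun γ => w (γ + 1)) (fun γ => (hQ γ).2.2.1) (fun γ => ?_) ?_
    (fun γ => ⟨?_, (hQ γ).1, (hQ γ).2.1.le, ?_⟩) ?_ hz1 (fun γ i => ?_) (fun γ B => ?_)
    (fun γ B => ?_) ?_ ?_ (fun γ => ?_)
  · change (0 : ℝ) < ν (x γ) / om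
    exact div_pos (lt_of_le_of_ne (h.nonneg _) (Finset.mem_filter.1 γ.2).2.symm) hompos
  · change ∑ γ : τ, (ν (x γ) / om) ^ 2 = 1
    rw [Finset.sum_coe_sort τ (fun γ => (ν (x γ) / om) ^ 2)]
    simp only [div_pow]
    rw [← Finset.sum_div, homsq, div_eq_one_iff_eq hom2pos.ne', hom2]
    refine Finset.sum_filter_of_ne (f := fun i => ν (x i) ^ 2) fun i _ hi h0 => hi ?_
    rw [h0]; simp
  · rw [← hw0]; exact hwm.monotone (Nat.zero_le _)
  · exact hwm.monotone (Nat.succ_le_succ (Finset.le_sup (f := id) (hτ γ)))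
  · intro γ γ' n a1 a2 a3 a4
    have h4 := hwm.lt_iff_lt.1 (a1.trans_lt a4)
    have h5 := hwm.lt_iff_lt.1 (a3.trans_lt a2)
    exact Subtype.ext (by omega)
  · have q1 : z γ i ≤ r • x γ :=
      (Finset.single_le_sum (f := z γ) (fun _ _ => zero_le) (Finset.mem_univ i)).trans (hz2 γ)
    refine Win.of_le (Win.smul ?_ r) q1
    intro n hn
    obtain ⟨i', hi'⟩ := (hx γ (hτ γ)).ne_zero hn
    exact (hQ γ).2.2.2.2 i' n hi'
  · rw [← hnx]; exact (hz3 γ B).1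
  · rw [← hnx]; exact (hz3 γ B).2
  · have q1 : ∑ γ : τ, ∑ i, z γ i ≤ r • ∑ γ ∈ σ, x γ := by
      refine (Finset.sum_le_sum fun γ _ => hz2 γ).trans ?_
      rw [← Finset.smul_sum, Finset.sum_coe_sort τ x]
      exact smul_le_smul_V' _ (Finset.sum_le_sum_of_subset (Finset.filter_subset _ _))
    refine (h.mono _ _ q1).trans ?_
    rw [h.smul]
    change κ ^ k / om * ν (∑ γ ∈ σ, x γ) ≤ δ
    have q2 : κ ^ k ≤ 1 := pow_le_one₀ hκ.le hκ1
    calc κ ^ k / om * ν (∑ γ ∈ σ, x γ) ≤ κ ^ k / om * (δ * om) := by gcongr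
      _ = κ ^ k * δ := by field_simp
      _ ≤ δ := by nlinarith
  · rw [Finset.sum_coe_sort τ d]
    have q1 : ∑ γ ∈ τ, ((1 : ℝ) / 2) ^ (γ + 1) ≤ 1 := by
      have q2 : HasSum (fun γ : ℕ => ((1 : ℝ) / 2) ^ (γ + 1)) 1 := by
        have := hasSum_geometric_two.mul_right (1 / 2 : ℝ)
        simpa [pow_succ] using this
      exact sum_le_hasSum τ (fun _ _ => by positivity) q2
    change ∑ γ ∈ τ, min δ ds * ((1 : ℝ) / 2) ^ (γ + 1) ≤ δ
    rw [← Finset.mul_sum]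
    have q3 := min_le_left δ ds
    have q4 := lt_min hδ hds
    nlinarith
  · have q1 : d γ ≤ ds := by
      have q2 : ((1 : ℝ) / 2) ^ ((γ : ℕ) + 1) ≤ 1 := pow_le_one₀ (by norm_num) (by norm_num)
      have q3 := min_le_right δ ds
      have q4 := lt_min hδ hds
      change min δ ds * ((1 : ℝ) / 2) ^ ((γ : ℕ) + 1) ≤ ds
      nlinarith
    refine (pow_le_pow_left₀ (hd γ).le q1 2).trans ?_
    have q5 : ((1 : ℝ) / 2) ^ (k + 1) ≤ 1 := pow_le_one₀ (by norm_num) (by norm_num)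
    have q6 : ds ^ 2 = κ ^ (2 * k + 2) * (1 / 2) ^ (k + 1) * (1 / 2) ^ (k + 1) := by
      change (κ ^ (k + 1) * (1 / 2) ^ (k + 1)) ^ 2 = _
      ring
    rw [q6]
    exact mul_le_of_le_one_right (by positivity) q5

theorem down_all {ν : V → ℝ} (h : LN ν) {C : ℝ} (hC : 1 ≤ C) {F : ℕ → Pc} (hF : PSeq ν C F)
    (hfail : ∀ κ : ℕ → ℕ, Function.Injective κ → (∀ γ, γ ≤ κ γ) →
      ∀ C' : ℝ, ¬ SLo ν C' (fun γ => F (κ γ))) {κ : ℝ} (hκ : 0 < κ) (hκ1 : κ ≤ 1) (k : ℕ) :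
    ∀ δ > 0, ∀ m, ∃ S m', downGood ν (2 * C) κ k δ m m' S := by
  induction k with
  | zero =>
    intro δ _ m
    refine ⟨⟨Unit, inferInstance, fun _ _ => 0, fun _ => 1⟩, m, fun _ => one_pos, ?_,
      fun _ _ _ _ _ hl => absurd hl (Nat.not_lt_zero _), fun _ hl => absurd hl (Nat.not_lt_zero _),
      fun _ hl => absurd hl (Nat.not_lt_zero _), fun c => Or.inl ?_⟩
    · change ∑ _i : Unit, (1 : ℝ) = 1
      simp
    · change (1 / 2 : ℝ) ^ 0 ≤ ∑ i : Unit, (if 0 ≤ c i then (1 : ℝ) else 0)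
      simp
  | succ k ih => exact down_step h hC hF hfail hκ hκ1 k ih

theorem gads_of_fail {ν : V → ℝ} (h : LN ν) {C : ℝ} {F : ℕ → Pc} (hF : PSeq ν C F)
    (hfail : ∀ κ : ℕ → ℕ, Function.Injective κ → (∀ γ, γ ≤ κ γ) →
      ∀ C' : ℝ, ¬ SLo ν C' (fun γ => F (κ γ))) : Gads ν := by
  classical
  intro K m
  have hF' : PSeq ν (max C 1) F :=
    ⟨hF.1, hF.2.1, hF.2.2.1, fun k x hx => down_FD_mono (le_max_left _ _) (hF.2.2.2 k x hx)⟩
  have hC : 1 ≤ max C 1 := le_max_right _ _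
  set C1 := max C 1
  let κ : ℝ := 1 / (2 * C1 * (|K| + 1))
  have hK : 0 ≤ |K| := abs_nonneg K
  have hκ : 0 < κ := by positivity
  have hκ1 : κ ≤ 1 := by
    rw [div_le_one (by positivity)]
    nlinarith
  have hκ2 : 2 * C1 * κ * (|K| + 1) = 1 := by
    change 2 * C1 * (1 / (2 * C1 * (|K| + 1))) * (|K| + 1) = 1
    field_simp
  obtain ⟨S, m', h1, h2, h3, h4, h5, h6⟩ := down_all h hC hF' hfail hκ hκ1 4 1 one_pos m
  refine ⟨S.I, S.inst, fun l i => S.g l i, ?_, fun l i => (h4 l l.2 i).tl, fun c => ?_⟩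
  · rintro n ⟨l, i⟩ ⟨l', i'⟩ hp hq
    obtain ⟨q1, q2⟩ := h3 n l l' i i' l.2 l'.2 hp hq
    exact Prod.ext (Fin.ext q1) q2
  · rcases h6 (fun i => c i) with q | ⟨l, hl, s, s1, s2, s3, s4⟩
    · exfalso
      rw [Finset.sum_eq_zero fun i _ => if_neg (by have := (c i).2; omega)] at q
      norm_num at q
    · have hc : ∀ g : S.I → V, cmb (fun i => if i ∈ s then 1 else 0) g = ∑ i ∈ s, g i := fun g => by
        unfold cmb
        simp only [ite_smul, one_smul, zero_smul]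
        rw [Finset.sum_ite_mem, Finset.univ_inter]
      refine ⟨⟨l, hl⟩, fun i => if i ∈ s then 1 else 0, fun i hi => if_neg fun hs =>
        hi (Fin.ext (s1 i hs)), fun l' hne => ?_⟩
      rw [hc, hc]
      have q1 := s4 l' l'.2 fun e => hne (Fin.ext e)
      set N := ν (∑ i ∈ s, S.g l i)
      set N' := ν (∑ i ∈ s, S.g l' i)
      have hN : 0 ≤ N := h.nonneg _
      have hN' : 0 ≤ N' := h.nonneg _
      have q0 : 0 < κ ^ (2 * l) * ∑ i ∈ s, S.μ i := by positivity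
      have hNpos : 0 < N := by
        rcases hN.eq_or_lt with e | e
        · rw [← e] at s3; norm_num at s3; nlinarith
        · exact e
      have q2 : N' ^ 2 ≤ (2 * C1 * κ * N) ^ 2 := by
        refine q1.trans ?_
        have q3 := mul_le_mul_of_nonneg_left s3 (show 0 ≤ 2 * C1 * κ ^ 2 by positivity)
        calc 2 * C1 * (κ ^ (2 * l + 2) * ∑ i ∈ s, S.μ i)
            = 2 * C1 * κ ^ 2 * (κ ^ (2 * l) * ∑ i ∈ s, S.μ i) := by ring
          _ ≤ _ := q3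
          _ = _ := by ring
      have q4 : N' ≤ 2 * C1 * κ * N := 
        (pow_le_pow_iff_left₀ hN' (by positivity) two_ne_zero).1 q2
      have q5 : 0 < 2 * C1 * κ * N := by positivity
      calc K * N' ≤ |K| * N' := mul_le_mul_of_nonneg_right (le_abs_self K) hN'
        _ ≤ |K| * (2 * C1 * κ * N) := mul_le_mul_of_nonneg_left q4 hK
        _ < (|K| + 1) * (2 * C1 * κ * N) := by linarith
        _ = (2 * C1 * κ * (|K| + 1)) * N := by ring
        _ = N := by rw [hκ2, one_mul]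

end Pool.Agent.Lib.MP_435322_an.UD
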