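import Pool.Agent.Lib.MP_435322_an.UBasic

/-! A sequence of pieces with an upper estimate. -/

namespace Pool.Agent.Lib.MP_435322_an.UD

open Finset
open scoped NNReal

theorem fdd_net {ν : V → ℝ} (h : LN ν) (F : Pc) (hF : ∀ i, ν (F.y i) = 1) :
    ∃ Y : Finset V, (∀ y ∈ Y, InC F y ∧ ν y ≤ 2) ∧
      ∀ x, InC F x → ∃ y ∈ Y, ∃ t : ℝ≥0, (t : ℝ) = ν x ∧ x ≤ t • y := by
  classical
  obtain ⟨G, hG⟩ := grid (Fin F.d) (1 / (F.d + 1)) (by positivity)
  have co : ∀ b : Fin F.d → ℝ≥0, ∀ i, (b i : ℝ) ≤ ν (cmb b F.y) := fun b i => by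
    have := h.le_cmb b F.y i
    rwa [hF, mul_one] at this
  have one : ∀ x, InC F x → ν x ≤ 1 →
      ∃ y ∈ (G.image fun w => cmb w F.y).filter fun y => ν y ≤ 2, x ≤ y := by
    rintro _ ⟨b, rfl⟩ hx
    obtain ⟨w, hw, hw'⟩ := hG b fun i => by exact_mod_cast (co b i).trans hx
    refine ⟨cmb w F.y, mem_filter.2 ⟨mem_image_of_mem _ hw, ?_⟩, cmb_mono (fun i => (hw' i).1) _⟩
    have h1 : cmb w F.y ≤ cmb b F.y + cmb (fun _ => 1 / ((F.d : ℝ≥0) + 1)) F.y := by
      rw [← cmb_add]; exact cmb_mono (fun i => (hw' i).2) _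
    have h2 := h.cmb_le (fun _ => 1 / ((F.d : ℝ≥0) + 1)) F.y
    simp only [hF, mul_one, sum_const, card_univ, Fintype.card_fin, nsmul_eq_mul] at h2
    have h3 : (F.d : ℝ) * ((1 / ((F.d : ℝ≥0) + 1) : ℝ≥0) : ℝ) ≤ 1 := by
      push_cast
      rw [mul_one_div, div_le_one (by positivity)]
      linarith
    linarith [h.le_add h1]
  refine ⟨(G.image fun w => cmb w F.y).filter fun y => ν y ≤ 2, fun y hy => ?_, fun x hx => ?_⟩
  · obtain ⟨h1, h2⟩ := mem_filter.1 hy
    obtain ⟨w, -, rfl⟩ := mem_image.1 h1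
    exact ⟨⟨w, rfl⟩, h2⟩
  · let t : ℝ≥0 := ⟨ν x, h.nonneg x⟩
    have ht : (t : ℝ) = ν x := rfl
    by_cases h0 : t = 0
    · obtain ⟨y, hy, -⟩ := one 0 (InC.zero F) (by rw [h.zero]; exact zero_le_one)
      refine ⟨y, hy, t, ht, ?_⟩
      obtain ⟨b, rfl⟩ := hx
      have hb : b = 0 := funext fun i => by
        have h1 := co b i
        rw [← ht, h0] at h1
        exact le_antisymm (by exact_mod_cast h1) zero_le
      rw [hb, cmb_zero]
      exact zero_le
    · obtain ⟨y, hy, hy'⟩ := one (t⁻¹ • x) (hx.smul _) (by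
        rw [h.smul, ← ht, ← NNReal.coe_mul, inv_mul_cancel₀ h0]; exact le_rfl)
      refine ⟨y, hy, t, ht, ?_⟩
      have := smul_le_smul_V' t hy'
      rwa [smul_smul, mul_inv_cancel₀ h0, one_smul] at this

open Classical in
theorem fdd_rej {ν : V → ℝ} (h : LN ν) {C : ℝ} (hC : 0 ≤ C) {N n m : ℕ} {F : Fin N → Pc}
    (hT : ∀ a i, Tl m ((F a).y i)) (hP : PD F)
    (hU : ∀ x : Fin N → V, (∀ a, InC (F a) (x a)) → ν (∑ a, x a) ^ 2 ≤ C * ∑ a, ν (x a) ^ 2)
    {Y : Fin N → Finset V} (hY : ∀ a, ∀ y ∈ Y a, InC (F a) y ∧ ν y ≤ 2) {L : V → Prop}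
    (hL : ∀ y : Fin n → V, Dj y → (∀ j, Tl m (y j)) → Up ν (4 * C) y → ∃ j, L (y j)) :
    (univ.filter fun a => ∃ y ∈ Y a, ¬ L y).card < n := by
  by_contra hn
  push Not at hn
  let e := (univ.filter fun a => ∃ y ∈ Y a, ¬ L y).orderEmbOfCardLe hn
  have he : Function.Injective e := e.injective
  have hm : ∀ j, ∃ y ∈ Y (e j), ¬ L y := fun j =>
    (mem_filter.1 (Finset.orderEmbOfCardLe_mem _ hn j)).2
  choose y hy hy' using hm
  have hc : ∀ j, InC (F (e j)) (y j) := fun j => (hY _ _ (hy j)).1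
  obtain ⟨j, hj⟩ := hL y (fun k p q hp hq => by
      obtain ⟨i, hi⟩ := (hc p).ne_zero hp
      obtain ⟨i', hi'⟩ := (hc q).ne_zero hq
      exact he (hP k _ _ i i' hi hi'))
    (fun j k hk => by
      obtain ⟨i, hi⟩ := (hc j).ne_zero hk
      exact hT _ i k hi)
    (fun t => by
      let x : Fin N → V := Function.extend e (fun j => t j • y j) 0
      have hx : ∀ j, x (e j) = t j • y j := fun j => he.extend_apply _ _ j
      have hx0 : ∀ a, a ∉ e '' (univ : Finset (Fin n)) → x a = 0 := fun a ha =>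
        Function.extend_apply' _ _ a fun ⟨j, hj⟩ => ha ⟨j, mem_coe.2 (mem_univ j), hj⟩
      have h1 := hU x fun a => by
        by_cases ha : a ∈ e '' (univ : Finset (Fin n))
        · obtain ⟨j, -, rfl⟩ := ha
          rw [hx]; exact (hc j).smul _
        · rw [hx0 a ha]; exact InC.zero _
      have e1 : cmb t y = ∑ a, x a :=
        Finset.sum_of_injOn e he.injOn (fun _ _ => mem_univ _) (fun a _ ha => hx0 a ha)
          fun j _ => (hx j).symm
      have e2 : ∑ j, ν (t j • y j) ^ 2 = ∑ a, ν (x a) ^ 2 :=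
        Finset.sum_of_injOn e he.injOn (fun _ _ => mem_univ _)
          (fun a _ ha => by rw [hx0 a ha, h.zero]; simp) fun j _ => by rw [hx]
      have h2 : ∑ j, ν (t j • y j) ^ 2 ≤ 4 * ssq t := by
        rw [ssq, mul_sum]
        refine sum_le_sum fun j _ => ?_
        rw [h.smul, mul_pow]
        have a1 := (hY _ _ (hy j)).2
        have a2 := h.nonneg (y j)
        have a3 : ν (y j) ^ 2 ≤ 4 := by nlinarith
        nlinarith [sq_nonneg (t j : ℝ)]
      rw [e1]
      rw [← e2] at h1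
      nlinarith)
  exact hy' j hj

theorem seq_of_ub {ν : V → ℝ} (h : LN ν) (hU : UB ν) (hS : SUP ν) :
    ∃ (C H : ℝ) (F : ℕ → Pc), PSeq ν C F ∧ SUp ν H F := by
  classical
  obtain ⟨C, hS⟩ := hS
  obtain ⟨H, Lose, L0, L1, L2⟩ := hU (4 * max C 0)
  obtain ⟨s, F, s0, hI, hQ⟩ := dc (σ := Finset (Set (V × ℝ)) × ℕ) (α := Pc)
    (fun s => ∀ D ∈ s.1, Lose D)
    (fun k s s' F => NF ν k F.y ∧ Dev ν k F.y ∧ (∀ x, InC F x → FD ν C (k + 1) x) ∧
      s.2 < s'.2 ∧ (∀ i, Win s.2 s'.2 (F.y i)) ∧ ∀ D ∈ s.1, ∀ p ∈ D, ∀ x, InC F x →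
        ∃ D' ∈ s'.1, ∃ p' ∈ D', p.1 + x ≤ p'.1 ∧ p'.2 = p.2 + ν x ^ 2)
    ({{(0, 0)}}, 0) (fun D hD => by rw [mem_singleton.1 hD]; exact L0) (by
      rintro k ⟨Hs, m⟩ hI
      choose! n mm hn using fun D hD => L2 D hD 1
      obtain ⟨F, f1, f2, f3, f4, f5⟩ := hS (1 + ∑ D ∈ Hs, n D) (k + 1) k
        (max (max m k) (Hs.sup mm)) (Nat.succ_pos k)
      choose Y hY hY' using fun a => fdd_net h (F a) (f1 a).1
      have hrej : ∀ D ∈ Hs, (univ.filter fun a => ∃ y ∈ Y a,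
          ¬ Lose (extH D fun _ : Fin 1 => y)).card < n D := fun D hD => by
        have := fdd_rej h (le_max_right C 0) (n := n D) (m := mm D)
          (fun a i => ((f1 a).2.2 i).mono ((Finset.le_sup hD).trans (le_max_right _ _))) f2
          (fun x hx => (f5 x hx).trans (mul_le_mul_of_nonneg_right (le_max_left _ _)
            (sum_nonneg fun _ _ => sq_nonneg _))) hY
          (L := fun y => Lose (extH D fun _ : Fin 1 => y)) fun y d1 d2 d3 => by
            obtain ⟨j, hj⟩ := hn D (hI D hD) (fun _ => y)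
              (fun k p q hp hq => Prod.ext (Subsingleton.elim _ _) (d1 k _ _ hp hq))
              (fun _ => d2) fun _ => d3
            refine ⟨j 0, ?_⟩
            have e : (fun a : Fin 1 => y (j a)) = fun _ => y (j 0) :=
              funext fun a => by rw [Subsingleton.elim a 0]
            rwa [e] at hj
        convert this
      obtain ⟨a, -, ha⟩ := Finset.exists_mem_notMem_of_card_lt_card
        (s := Hs.biUnion fun D => univ.filter fun a => ∃ y ∈ Y a,
          ¬ Lose (extH D fun _ : Fin 1 => y)) (t := univ) (by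
          refine card_biUnion_le.trans_lt ?_
          rw [card_univ, Fintype.card_fin]
          have := sum_le_sum fun D hD => (hrej D hD).le
          omega)
      have ha' : ∀ D ∈ Hs, ∀ y ∈ Y a, Lose (extH D fun _ : Fin 1 => y) := fun D hD y hy => by
        by_contra hc
        exact ha (mem_biUnion.2 ⟨D, hD, mem_filter.2 ⟨mem_univ _, y, hy, hc⟩⟩)
      obtain ⟨m', hm', hw⟩ := exists_win (m := m) (y := (F a).y) fun i =>
        ((f1 a).2.2 i).mono ((le_max_left _ _).trans (le_max_left _ _))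
      refine ⟨F a, ((Hs ×ˢ Y a).image fun q => extH q.1 fun _ : Fin 1 => q.2, m'), ?_,
        (f1 a).mono ((le_max_right _ _).trans (le_max_left _ _)), f3 a, f4 a, hm', hw, ?_⟩
      · intro D hD
        obtain ⟨q, hq, rfl⟩ := mem_image.1 hD
        exact ha' _ (mem_product.1 hq).1 _ (mem_product.1 hq).2
      · intro D hD p hp x hx
        obtain ⟨y, hy, t, ht, hxy⟩ := hY' a x hx
        refine ⟨_, mem_image_of_mem _ (mem_product.2 ⟨hD, hy⟩ : (D, y) ∈ Hs ×ˢ Y a), _,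
          ⟨p, hp, fun _ => t, rfl⟩, ?_, ?_⟩
        · simpa [cmb] using hxy
        · simp [ssq, ht])
  have hmono : StrictMono fun k => (s k).2 := strictMono_nat_of_lt_succ fun k => (hQ k).2.2.2.1
  refine ⟨C, H, F, ⟨fun k => (hQ k).1, fun n k k' i i' a b => ?_, fun k => (hQ k).2.1,
    fun k => (hQ k).2.2.1⟩, fun σ x hx => ?_⟩
  · obtain ⟨a1, a2⟩ := (hQ k).2.2.2.2.1 i n a
    obtain ⟨b1, b2⟩ := (hQ k').2.2.2.2.1 i' n b
    have c1 := hmono.lt_iff_lt.1 (a1.trans_lt b2)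
    have c2 := hmono.lt_iff_lt.1 (b1.trans_lt a2)
    omega
  · let x' : ℕ → V := fun k => if k ∈ σ then x k else 0
    have hx' : ∀ k, InC (F k) (x' k) := fun k => by
      by_cases hk : k ∈ σ
      · simp only [x', if_pos hk]; exact hx k hk
      · simp only [x', if_neg hk]; exact InC.zero _
    have key : ∀ k, ∃ D ∈ (s k).1, ∃ p ∈ D, ∑ i ∈ range k, x' i ≤ p.1 ∧
        p.2 = ∑ i ∈ range k, ν (x' i) ^ 2 := by
      intro k
      induction k with
      | zero => exact ⟨{(0, 0)}, by rw [s0]; exact mem_singleton_self _, (0, 0), rfl, by simp⟩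
      | succ k ih =>
        obtain ⟨D, hD, p, hp, a1, a2⟩ := ih
        obtain ⟨D', hD', p', hp', b1, b2⟩ := (hQ k).2.2.2.2.2 D hD p hp _ (hx' k)
        refine ⟨D', hD', p', hp', ?_, ?_⟩
        · rw [sum_range_succ]; exact (add_le_add a1 le_rfl).trans b1
        · rw [sum_range_succ, b2, a2]
    obtain ⟨D, hD, p, hp, a1, a2⟩ := key (σ.sup id + 1)
    have hsub : σ ⊆ range (σ.sup id + 1) := fun k hk =>
      mem_range.2 (Nat.lt_succ_of_le (Finset.le_sup (f := id) hk))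
    have e1 : ∑ k ∈ σ, x k = ∑ i ∈ range (σ.sup id + 1), x' i := by
      rw [← sum_subset hsub fun k _ hk => if_neg hk]
      exact sum_congr rfl fun k hk => (if_pos hk).symm
    have e2 : ∑ k ∈ σ, ν (x k) ^ 2 = ∑ i ∈ range (σ.sup id + 1), ν (x' i) ^ 2 := by
      rw [← sum_subset hsub fun k _ hk => by simp only [x', if_neg hk, h.zero]; simp]
      exact sum_congr rfl fun k hk => by simp only [x', if_pos hk]
    rw [e1, e2, ← a2]
    exact (pow_le_pow_left₀ (h.nonneg _) (h.mono _ _ a1) 2).trans (L1 D (hI _ D hD) p hp)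

end Pool.Agent.Lib.MP_435322_an.UD
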