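import Pool.Agent.Lib.MP_435322_an.UBasic

/-! Supply of pieces from spreading models. -/

namespace Pool.Agent.Lib.MP_435322_an.UD

open Finset
open scoped NNReal

/-- the realisation clause of `KR` -/
def us_Real (ν : V → ℝ) {d : ℕ} (ρ : ∀ k : ℕ, (Fin k → Fin d → ℝ≥0) → ℝ) (n' m : ℕ)
    (T : ℕ → Fin d → V) : Prop :=
  Dj (fun p : ℕ × Fin d => T p.1 p.2) ∧ (∀ j g, Tl m (T j g)) ∧
    ∀ (k : ℕ) (e : Fin k → ℕ), StrictMono e → (∀ i, e i < n') →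
      ∀ v : Fin k → Fin d → ℝ≥0, ρ k v ≤ 2 * ν (∑ i, cmb (v i) (T (e i))) ∧
        ν (∑ i, cmb (v i) (T (e i))) ≤ 2 * ρ k v

section
variable {ν : V → ℝ} {d : ℕ} {ρ : ∀ k : ℕ, (Fin k → Fin d → ℝ≥0) → ℝ}

theorem us_nonneg (h : LN ν) (hR : ∀ n' m, ∃ T, us_Real ν ρ n' m T) (k : ℕ)
    (v : Fin k → Fin d → ℝ≥0) : 0 ≤ ρ k v := by
  obtain ⟨T, -, -, h3⟩ := hR k 0
  have h4 := (h3 k (fun i => (i : ℕ)) (fun _ _ hab => hab) (fun i => i.2) v).2
  have h5 := h.nonneg (∑ i, cmb (v i) (T (i : ℕ)))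
  linarith

theorem us_one {n' m : ℕ} {T : ℕ → Fin d → V} (hT : us_Real ν ρ n' m T) {j : ℕ} (hj : j < n')
    (v : Fin d → ℝ≥0) :
    ρ 1 (fun _ => v) ≤ 2 * ν (cmb v (T j)) ∧ ν (cmb v (T j)) ≤ 2 * ρ 1 (fun _ => v) := by
  have h4 := hT.2.2 1 (fun _ => j) (fun a b hab => absurd hab (by rw [Subsingleton.elim a b]; exact lt_irrefl _))
    (fun _ => hj) (fun _ => v)
  simpa using h4

theorem us_dj {n' m : ℕ} {T : ℕ → Fin d → V} (hT : us_Real ν ρ n' m T) {v v' : Fin d → ℝ≥0}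
    {j j' n : ℕ} (h1 : cmb v (T j) n ≠ 0) (h2 : cmb v' (T j') n ≠ 0) : j = j' := by
  obtain ⟨g, -, hg⟩ := cmb_ne_zero h1
  obtain ⟨g', -, hg'⟩ := cmb_ne_zero h2
  exact congrArg Prod.fst (hT.1 n (j, g) (j', g') hg hg')

theorem us_up (h : LN ν) {n' m : ℕ} {T : ℕ → Fin d → V} (hT : us_Real ν ρ n' m T) {C : ℝ}
    (hC : 0 ≤ C) {k : ℕ} {v : Fin d → ℝ≥0}
    (hK : ∀ t : Fin k → ℝ≥0, ρ k (fun j => t j • v) ^ 2 ≤ C * ssq t * ρ 1 (fun _ => v) ^ 2)
    {e : Fin k → ℕ} (he : StrictMono e) (hn : ∀ i, e i < n') (c : ℝ≥0) {κ : ℝ}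
    (hc : ((c : ℝ) * ρ 1 (fun _ => v)) ^ 2 ≤ κ) :
    Up ν (4 * C * κ) (fun j => c • cmb v (T (e j))) := by
  intro t
  have h1 : cmb t (fun j => c • cmb v (T (e j))) = c • ∑ j, cmb (t j • v) (T (e j)) := by
    rw [Finset.smul_sum]
    unfold cmb
    refine Finset.sum_congr rfl fun j _ => ?_
    have := cmb_smul (t j) v (T (e j))
    unfold cmb at this
    rw [this, smul_comm]
  rw [h1, h.smul]
  have h2 := (hT.2.2 k e he hn (fun j => t j • v)).2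
  have h3 := h.nonneg (∑ j, cmb (t j • v) (T (e j)))
  have h4 := hK t
  have h5 := ssq_nonneg t
  have h6 : ν (∑ j, cmb (t j • v) (T (e j))) ^ 2 ≤ 4 * ρ k (fun j => t j • v) ^ 2 := by
    nlinarith
  calc ((c : ℝ) * ν (∑ j, cmb (t j • v) (T (e j)))) ^ 2
      = (c : ℝ) ^ 2 * ν (∑ j, cmb (t j • v) (T (e j))) ^ 2 := by ring
    _ ≤ (c : ℝ) ^ 2 * (4 * (C * ssq t * ρ 1 (fun _ => v) ^ 2)) :=
        mul_le_mul_of_nonneg_left (by linarith) (sq_nonneg _)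
    _ = 4 * C * ssq t * ((c : ℝ) * ρ 1 (fun _ => v)) ^ 2 := by ring
    _ ≤ 4 * C * ssq t * κ := mul_le_mul_of_nonneg_left hc (by positivity)
    _ = 4 * C * κ * ssq t := by ring

theorem us_two (h : LN ν) {n' m : ℕ} {T : ℕ → Fin d → V} (hT : us_Real ν ρ n' m T) {C : ℝ}
    (hC : 0 ≤ C) {k : ℕ} {v : Fin d → ℝ≥0} (h0 : 0 ≤ ρ k (fun _ => v))
    (hK2 : ∀ t : Fin k → ℝ≥0, ρ k (fun j => t j • v) ^ 2 ≤ C * ssq t * ρ 1 (fun _ => v) ^ 2)
    (hK1 : k * ρ 1 (fun _ => v) ^ 2 ≤ C * ρ k (fun _ => v) ^ 2)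
    {e : Fin k → ℕ} (he : StrictMono e) (hn : ∀ i, e i < n') :
    k * ρ 1 (fun _ => v) ^ 2 ≤ 4 * C * ν (∑ i, cmb v (T (e i))) ^ 2 ∧
      ν (∑ i, cmb v (T (e i))) ^ 2 ≤ 4 * C * (k * ρ 1 (fun _ => v) ^ 2) := by
  obtain ⟨h1, h2⟩ := hT.2.2 k e he hn (fun _ => v)
  have h3 := h.nonneg (∑ j, cmb v (T (e j)))
  have h4 := hK2 (fun _ => 1)
  have h5 : ssq (fun _ : Fin k => (1 : ℝ≥0)) = k := by simp [ssq]
  simp only [one_smul, h5] at h4
  constructor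
  · have h6 : ρ k (fun _ => v) ^ 2 ≤ 4 * ν (∑ i, cmb v (T (e i))) ^ 2 := by nlinarith
    have h7 := mul_le_mul_of_nonneg_left h6 hC
    linarith
  · have h6 : ν (∑ i, cmb v (T (e i))) ^ 2 ≤ 4 * ρ k (fun _ => v) ^ 2 := by nlinarith
    linarith

theorem us_zero (h : LN ν) (hR : ∀ n' m, ∃ T, us_Real ν ρ n' m T)
    (hP : ∀ g, 0 < ρ 1 (fun _ => Pi.single g 1)) {v : Fin d → ℝ≥0}
    (hv : ρ 1 (fun _ => v) = 0) : v = 0 := by
  obtain ⟨T, hT⟩ := hR 1 0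
  funext g
  have h1 := (us_one hT one_pos v).2
  have h2 := (us_one hT one_pos (Pi.single g 1)).1
  rw [cmb_single, one_smul] at h2
  have h3 := h.le_cmb v (T 0) g
  have h4 := hP g
  have h5 : (v g : ℝ) ≤ 0 := by
    by_contra h6
    have h7 : 0 < (v g : ℝ) * ν (T 0 g) := mul_pos (not_le.1 h6) (by linarith)
    linarith
  exact NNReal.coe_eq_zero.1 (le_antisymm h5 (v g).2)

/-- upper estimate for arbitrary vectors from the upward game -/
theorem us_ab (h : LN ν) (hR : ∀ n' m, ∃ T, us_Real ν ρ n' m T)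
    (hP : ∀ g, 0 < ρ 1 (fun _ => Pi.single g 1)) {C H : ℝ} (hC : 0 ≤ C) {N n0 m0 : ℕ}
    (hK : ∀ (t : Fin n0 → ℝ≥0) (v : Fin d → ℝ≥0),
      ρ n0 (fun j => t j • v) ^ 2 ≤ C * ssq t * ρ 1 (fun _ => v) ^ 2)
    (hA : ∀ arr : Fin N → Fin n0 → V, Dj (fun p : Fin N × Fin n0 => arr p.1 p.2) →
      (∀ a j, Tl m0 (arr a j)) → (∀ a, Up ν (4 * C) (arr a)) →
      ∃ s : Fin N → Fin n0, Up ν H (fun a => arr a (s a)))
    (v : Fin N → Fin d → ℝ≥0) : ρ N v ^ 2 ≤ 4 * H * ∑ a, ρ 1 (fun _ => v a) ^ 2 := by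
  obtain ⟨T, hT⟩ := hR (N * n0) m0
  let r : Fin N → ℝ≥0 := fun a => ⟨ρ 1 (fun _ => v a), us_nonneg h hR _ _⟩
  have hr : ∀ a, (r a : ℝ) = ρ 1 (fun _ => v a) := fun _ => rfl
  have hlt : ∀ (a : Fin N) (j : Fin n0), (j : ℕ) + n0 * a < N * n0 := fun a j =>
    (finProdFinEquiv (a, j)).2
  obtain ⟨s, hs⟩ := hA (fun a j => (r a)⁻¹ • cmb (v a) (T (j + n0 * a)))
    (fun n p q hp hq => by
      have h1 := us_dj hT (smul_ne_zero_V hp) (smul_ne_zero_V hq)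
      exact finProdFinEquiv.injective (Fin.ext h1))
    (fun a j => (Tl.cmb (hT.2.1 _) _).smul _)
    (fun a => by
      have h1 := us_up h hT hC (fun t => hK t (v a)) (e := fun j : Fin n0 => (j : ℕ) + n0 * a)
        (fun i j hij => Nat.add_lt_add_right hij _) (hlt a) (r a)⁻¹ (κ := 1) (by
          rw [← hr, ← NNReal.coe_mul]
          have h2 : (r a)⁻¹ * r a ≤ 1 := inv_mul_le_one
          have h3 : (((r a)⁻¹ * r a : ℝ≥0) : ℝ) ≤ 1 := h2
          exact pow_le_one₀ (NNReal.coe_nonneg _) h3)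
      rwa [mul_one] at h1)
  have h1 := hs r
  have h2 : cmb r (fun a => (r a)⁻¹ • cmb (v a) (T (s a + n0 * a))) =
      ∑ a, cmb (v a) (T (s a + n0 * a)) := by
    refine Finset.sum_congr rfl fun a _ => ?_
    by_cases h0 : r a = 0
    · have h3 : v a = 0 := us_zero h hR hP (by rw [← hr, h0]; rfl)
      rw [h0, h3, cmb_zero, zero_smul]
    · rw [smul_smul, mul_inv_cancel₀ h0, one_smul]
  rw [h2] at h1
  have h3 := (hT.2.2 N (fun a => (s a : ℕ) + n0 * a) (fun a b hab => by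
    have h4 : n0 * ((a : ℕ) + 1) ≤ n0 * b := Nat.mul_le_mul_left _ hab
    have h5 := (s a).2
    rw [Nat.mul_add, Nat.mul_one] at h4
    show (s a : ℕ) + n0 * a < s b + n0 * b
    omega) (fun a => hlt a (s a)) v).1
  have h4 := us_nonneg h hR N v
  have h5 : ssq r = ∑ a, ρ 1 (fun _ => v a) ^ 2 := rfl
  rw [h5] at h1
  have h6 : ρ N v ^ 2 ≤ 4 * ν (∑ a, cmb (v a) (T (s a + n0 * a))) ^ 2 := by nlinarith
  linarith

end

theorem us_kr {ν : V → ℝ} (hK : KR ν) :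
    ∃ C : ℝ, 1 ≤ C ∧ ∀ (n : ℕ) (D : ℝ), ∃ (d : ℕ) (ρ : ∀ k : ℕ, (Fin k → Fin d → ℝ≥0) → ℝ),
    (∀ n' m : ℕ, ∃ T, us_Real ν ρ n' m T) ∧
    (∀ g, 0 < ρ 1 (fun _ => Pi.single g 1)) ∧ DevF D (fun v => ρ 1 (fun _ => v)) ∧
    (∀ k ≤ n, ∀ (t : Fin k → ℝ≥0) (v : Fin d → ℝ≥0),
      ρ k (fun j => t j • v) ^ 2 ≤ C * ssq t * ρ 1 (fun _ => v) ^ 2) ∧
    ∀ k ≤ n, ∀ v : Fin d → ℝ≥0, k * ρ 1 (fun _ => v) ^ 2 ≤ C * ρ k (fun _ => v) ^ 2 := by
  obtain ⟨C, hC⟩ := hK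
  refine ⟨max C 1, le_max_right _ _, fun n D => ?_⟩
  obtain ⟨d, ρ, h1, h2, h3, h4, h5⟩ := hC n D
  refine ⟨d, ρ, h1, h2, h3, fun k hk t v => (h4 k hk t v).trans ?_,
    fun k hk v => (h5 k hk v).trans ?_⟩
  · exact mul_le_mul_of_nonneg_right
      (mul_le_mul_of_nonneg_right (le_max_left _ _) (ssq_nonneg t)) (sq_nonneg _)
  · exact mul_le_mul_of_nonneg_right (le_max_left _ _) (sq_nonneg _)

theorem normUp_of_kr {ν : V → ℝ} (h : LN ν) (hK : KR ν) : NormUp ν := by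
  obtain ⟨C, hC1, hC⟩ := us_kr hK
  refine ⟨4 * C * 4, fun n m => ?_⟩
  obtain ⟨d, ρ, hR, hP, hD, hK2, -⟩ := hC n 0
  have hv : ∃ v : Fin d → ℝ≥0, 0 < ρ 1 (fun _ => v) := by
    obtain ⟨w, hw | hw⟩ := hD
    · refine ⟨w, lt_of_le_of_ne (us_nonneg h hR _ _) fun h0 => ?_⟩
      simp only [← h0] at hw
      simp at hw
    · rw [zero_mul] at hw
      obtain ⟨g, -, -⟩ := Finset.exists_ne_zero_of_sum_ne_zero hw.ne'
      exact ⟨_, hP g⟩
  obtain ⟨v, hv⟩ := hv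
  obtain ⟨T, hT⟩ := hR n m
  let c : ℝ≥0 := ⟨2 / ρ 1 (fun _ => v), by positivity⟩
  have hc : (c : ℝ) = 2 / ρ 1 (fun _ => v) := rfl
  refine ⟨fun j => c • cmb v (T j), fun k p q hp hq =>
    Fin.ext (us_dj hT (smul_ne_zero_V hp) (smul_ne_zero_V hq)),
    fun j => (Tl.cmb (hT.2.1 _) _).smul _, fun j => ?_, ?_⟩
  · rw [h.smul, hc, div_mul_eq_mul_div, le_div_iff₀ hv, one_mul]
    exact (us_one hT j.2 v).1
  · refine us_up h hT (by linarith) (fun t => hK2 n le_rfl t v) (e := fun j : Fin n => (j : ℕ))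
      (fun _ _ hab => hab) (fun i => i.2) c ?_
    rw [hc, div_mul_cancel₀ _ hv.ne']
    norm_num

theorem sup_of_kr {ν : V → ℝ} (h : LN ν) (hK : KR ν) (hU : UB ν) : SUP ν := by
  obtain ⟨C, hC1, hC⟩ := us_kr hK
  have hC0 : 0 ≤ C := by linarith
  obtain ⟨H, Lose, hL0, hL1, hL2⟩ := hU (4 * C)
  refine ⟨16 * C ^ 2 + 64 * |H| * C, fun N M D m hM => ?_⟩
  obtain ⟨n0, m0, hA⟩ := hL2 _ hL0 (N * M)
  obtain ⟨d, ρ, hR, hP, hD, hK2, hK1⟩ := hC (max n0 M) (16 * C ^ 2 * |D|)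
  have hAB := us_ab h hR hP (H := |H|) hC0 (N := N * M) (m0 := m0) (hK2 n0 (le_max_left _ _))
    (fun arr a1 a2 a3 => by
      obtain ⟨s, hs⟩ := hA arr a1 a2 a3
      refine ⟨s, fun t => ?_⟩
      have h1 := hL1 _ hs (0 + cmb t (fun a => arr a (s a)), 0 + ssq t) ⟨(0, 0), rfl, t, rfl⟩
      simp only [zero_add] at h1
      exact h1.trans (mul_le_mul_of_nonneg_right (le_abs_self H) (ssq_nonneg t)))
  obtain ⟨T, hT⟩ := hR (N * M) m
  have hlt : ∀ (a : Fin N) (j : Fin M), (j : ℕ) + M * a < N * M := fun a j =>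
    (finProdFinEquiv (a, j)).2
  have hMr : (0 : ℝ) < M := Nat.cast_pos.2 hM
  -- two-sided estimates on subsets of a block
  have hB : ∀ (a : Fin N) (v : Fin d → ℝ≥0) (B : Finset (Fin M)),
      B.card * ρ 1 (fun _ => v) ^ 2 ≤ 4 * C * ν (∑ j ∈ B, cmb v (T (j + M * a))) ^ 2 ∧
      ν (∑ j ∈ B, cmb v (T (j + M * a))) ^ 2 ≤ 4 * C * (B.card * ρ 1 (fun _ => v) ^ 2) := by
    intro a v B
    have hk : B.card ≤ max n0 M :=
      le_trans (by simpa using B.card_le_univ) (le_max_right _ _)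
    have h1 := us_two h hT hC0 (us_nonneg h hR _ _) (fun t => hK2 _ hk t v) (hK1 _ hk v)
      (e := fun i : Fin B.card => (B.orderEmbOfFin rfl i : ℕ) + M * a)
      (fun i j hij => Nat.add_lt_add_right ((B.orderEmbOfFin rfl).strictMono hij) _)
      (fun i => hlt a _)
    have h2 : ∑ i : Fin B.card, cmb v (T ((B.orderEmbOfFin rfl i : ℕ) + M * a)) =
        ∑ j ∈ B, cmb v (T (j + M * a)) := by
      rw [← Finset.sum_coe_sort B, ← (B.orderIsoOfFin rfl).toEquiv.sum_comp]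
      rfl
    rwa [h2] at h1
  have hF : ∀ (a : Fin N) (v : Fin d → ℝ≥0),
      M * ρ 1 (fun _ => v) ^ 2 ≤ 4 * C * ν (∑ j : Fin M, cmb v (T (j + M * a))) ^ 2 ∧
      ν (∑ j : Fin M, cmb v (T (j + M * a))) ^ 2 ≤ 4 * C * (M * ρ 1 (fun _ => v) ^ 2) := by
    intro a v
    simpa using hB a v Finset.univ
  let S : Fin N → Fin d → V := fun a g => ∑ j : Fin M, T (j + M * a) g
  have hS : ∀ a g, M * ρ 1 (fun _ => Pi.single g 1) ^ 2 ≤ 4 * C * ν (S a g) ^ 2 ∧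
      ν (S a g) ^ 2 ≤ 4 * C * (M * ρ 1 (fun _ => Pi.single g 1) ^ 2) := by
    intro a g
    have h1 := hF a (Pi.single g 1)
    simp only [cmb_single, one_smul] at h1
    exact h1
  let w : Fin N → Fin d → ℝ≥0 := fun a g => ⟨ν (S a g), h.nonneg _⟩
  have hw : ∀ a g, (w a g : ℝ) = ν (S a g) := fun _ _ => rfl
  have hw0 : ∀ a g, w a g ≠ 0 := fun a g h0 => by
    have h1 := (hS a g).1
    rw [← hw, h0] at h1
    have h2 := mul_pos hMr (pow_pos (hP g) 2)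
    simp at h1
    linarith
  let y : Fin N → Fin d → V := fun a g => (w a g)⁻¹ • S a g
  have hy : ∀ a n g, y a g n ≠ 0 → ∃ j : Fin M, T (j + M * a) g n ≠ 0 := fun a n g hn => by
    obtain ⟨j, -, hj⟩ := sum_ne_zero_V (smul_ne_zero_V hn)
    exact ⟨j, hj⟩
  have hcmb : ∀ a b, cmb b (y a) =
      ∑ j : Fin M, cmb (fun g => b g * (w a g)⁻¹) (T (j + M * a)) := fun a b => by
    unfold cmb
    rw [Finset.sum_comm]
    refine Finset.sum_congr rfl fun g _ => ?_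
    rw [← Finset.smul_sum, smul_smul]
  have hH := abs_nonneg H
  have hHC : 0 ≤ 64 * |H| * C := by positivity
  refine ⟨fun a => ⟨d, y a⟩, fun a => ⟨fun g => ?_, fun n g g' hg hg' => ?_, fun g n hn => ?_⟩,
    fun n a a' g g' hg hg' => ?_, fun a => ?_, fun a x hx => ?_, fun x hx => ?_⟩
  · show ν ((w a g)⁻¹ • S a g) = 1
    rw [h.smul, ← hw, ← NNReal.coe_mul, inv_mul_cancel₀ (hw0 a g), NNReal.coe_one]
  · obtain ⟨j, hj⟩ := hy a n g hg
    obtain ⟨j', hj'⟩ := hy a n g' hg'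
    exact congrArg Prod.snd (hT.1 n (j + M * a, g) (j' + M * a, g') hj hj')
  · obtain ⟨j, hj⟩ := hy a n g hn
    exact hT.2.1 _ _ n hj
  · obtain ⟨j, hj⟩ := hy a n g hg
    obtain ⟨j', hj'⟩ := hy a' n g' hg'
    have h1 : (j : ℕ) + M * a = j' + M * a' :=
      congrArg Prod.fst (hT.1 n (j + M * a, g) (j' + M * a', g') hj hj')
    exact congrArg Prod.fst (finProdFinEquiv.injective (a₁ := (a, j)) (a₂ := (a', j')) (Fin.ext h1))
  · obtain ⟨u, hu⟩ := hD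
    refine ⟨fun g => u g * w a g, ?_⟩
    have h1 : cmb (fun g => u g * w a g) (y a) = ∑ j : Fin M, cmb u (T (j + M * a)) := by
      rw [hcmb]
      refine Finset.sum_congr rfl fun j _ => ?_
      have h2 : (fun g => u g * w a g * (w a g)⁻¹) = u :=
        funext fun g => mul_inv_cancel_right₀ (hw0 a g) _
      rw [h2]
    show D * ssq (fun g => u g * w a g) < ν (cmb (fun g => u g * w a g) (y a)) ^ 2 ∨
      D * ν (cmb (fun g => u g * w a g) (y a)) ^ 2 < ssq (fun g => u g * w a g)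
    rw [h1]
    obtain ⟨h2, h3⟩ := hF a u
    have h4 : M * ∑ g, (u g : ℝ) ^ 2 * ρ 1 (fun _ => Pi.single g 1) ^ 2 ≤
        4 * C * ssq (fun g => u g * w a g) := by
      unfold ssq
      rw [Finset.mul_sum, Finset.mul_sum]
      refine Finset.sum_le_sum fun g _ => ?_
      have h5 := mul_le_mul_of_nonneg_left (hS a g).1 (sq_nonneg (u g : ℝ))
      rw [NNReal.coe_mul, hw]
      linarith
    have h5 : ssq (fun g => u g * w a g) ≤
        4 * C * (M * ∑ g, (u g : ℝ) ^ 2 * ρ 1 (fun _ => Pi.single g 1) ^ 2) := by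
      unfold ssq
      rw [Finset.mul_sum, Finset.mul_sum]
      refine Finset.sum_le_sum fun g _ => ?_
      have h5 := mul_le_mul_of_nonneg_left (hS a g).2 (sq_nonneg (u g : ℝ))
      rw [NNReal.coe_mul, hw]
      linarith
    have hD0 := abs_nonneg D
    have hD1 := le_abs_self D
    have hq := ssq_nonneg (fun g => u g * w a g)
    have hCp : 0 < 4 * C := by linarith
    generalize ssq (fun g => u g * w a g) = q at *
    generalize ν (∑ j : Fin M, cmb u (T (j + M * a))) = z at *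
    generalize ∑ g, (u g : ℝ) ^ 2 * ρ 1 (fun _ => Pi.single g 1) ^ 2 = σ at *
    rcases hu with hu | hu
    · left
      simp only at hu
      have h6 : D * q ≤ |D| * q := mul_le_mul_of_nonneg_right hD1 hq
      have h7 := mul_le_mul_of_nonneg_left h5 hD0
      have h8 := mul_lt_mul_of_pos_left hu hMr
      refine lt_of_mul_lt_mul_left ?_ hCp.le
      have h9 := mul_le_mul_of_nonneg_left (h6.trans h7) hCp.le
      nlinarith
    · right
      simp only at hu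
      have h6 : D * z ^ 2 ≤ |D| * z ^ 2 := mul_le_mul_of_nonneg_right hD1 (sq_nonneg _)
      have h7 := mul_le_mul_of_nonneg_left h3 hD0
      have h8 := mul_lt_mul_of_pos_left hu hMr
      refine lt_of_mul_lt_mul_left ?_ hCp.le
      have h9 := mul_le_mul_of_nonneg_left (h6.trans h7) hCp.le
      nlinarith
  · obtain ⟨b, rfl⟩ := hx
    show FD ν _ M (cmb b (y a))
    rw [hcmb]
    generalize (fun g => b g * (w a g)⁻¹) = v
    refine ⟨fun j => cmb v (T (j + M * a)), fun n p q hp hq =>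
      Fin.ext (Nat.add_right_cancel (us_dj hT hp hq)), le_rfl, fun B => ?_⟩
    obtain ⟨h1, h2⟩ := hB a v B
    obtain ⟨h3, h4⟩ := hF a v
    have hk : (0 : ℝ) ≤ B.card := Nat.cast_nonneg _
    generalize ν (∑ j ∈ B, cmb v (T (j + M * a))) = z at *
    generalize ν (∑ j : Fin M, cmb v (T (j + M * a))) = x at *
    generalize ρ 1 (fun _ => v) = r at *
    constructor
    · have h5 := mul_le_mul_of_nonneg_left h4 hk
      have h6 := mul_le_mul_of_nonneg_left h1 (show 0 ≤ 4 * C * M by positivity)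
      have h7 : 0 ≤ 64 * |H| * C * M * z ^ 2 := by positivity
      nlinarith
    · have h5 := mul_le_mul_of_nonneg_left h2 hMr.le
      have h6 := mul_le_mul_of_nonneg_left h3 (show 0 ≤ 4 * C * B.card by positivity)
      have h7 : 0 ≤ 64 * |H| * C * B.card * x ^ 2 := by positivity
      nlinarith
  · have hx' : ∀ a, ∃ v : Fin d → ℝ≥0, x a = ∑ j : Fin M, cmb v (T (j + M * a)) := fun a => by
      obtain ⟨b, hb⟩ := hx a
      exact ⟨_, hb.trans (hcmb a b)⟩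
    choose v hv using hx'
    let v' : Fin (N * M) → Fin d → ℝ≥0 := fun i => v (finProdFinEquiv.symm i).1
    have h1 : ∑ a, x a = ∑ i : Fin (N * M), cmb (v' i) (T i) := by
      rw [← finProdFinEquiv.sum_comp, Fintype.sum_prod_type]
      refine Finset.sum_congr rfl fun a _ => ?_
      rw [hv]
      refine Finset.sum_congr rfl fun j _ => ?_
      simp only [v', Equiv.symm_apply_apply]
      rfl
    have h2 : ∑ i : Fin (N * M), ρ 1 (fun _ => v' i) ^ 2 =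
        ∑ a, (M : ℝ) * ρ 1 (fun _ => v a) ^ 2 := by
      rw [← finProdFinEquiv.sum_comp, Fintype.sum_prod_type]
      refine Finset.sum_congr rfl fun a _ => ?_
      simp only [v', Equiv.symm_apply_apply]
      simp
    have h3 := hAB v'
    rw [h2] at h3
    have h4 : ∑ a, (M : ℝ) * ρ 1 (fun _ => v a) ^ 2 ≤ 4 * C * ∑ a, ν (x a) ^ 2 := by
      rw [Finset.mul_sum]
      refine Finset.sum_le_sum fun a _ => ?_
      rw [hv]
      exact (hF a (v a)).1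
    have h5 := (hT.2.2 (N * M) (fun i => (i : ℕ)) (fun _ _ hab => hab) (fun i => i.2) v').2
    rw [← h1] at h5
    have h6 := h.nonneg (∑ a, x a)
    have h7 : ν (∑ a, x a) ^ 2 ≤ 4 * ρ (N * M) v' ^ 2 := by nlinarith
    have h8 := mul_le_mul_of_nonneg_left h4 hH
    have h9 : 0 ≤ 16 * C ^ 2 * ∑ a, ν (x a) ^ 2 := by positivity
    nlinarith

end Pool.Agent.Lib.MP_435322_an.UD
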