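import Pool.Agent.Lib.MP_435322_an.UUp
import Pool.Agent.Lib.MP_435322_an.UDown
import Pool.Agent.Lib.MP_435322_an.UFdd
import Pool.Agent.Lib.MP_435322_an.UAs
import Pool.Agent.Lib.MP_435322_an.USpread
import Pool.Agent.Lib.MP_435322_an.USupply

/-! The lattice dichotomy: gadgets or an l2-sum. -/

namespace Pool.Agent.Lib.MP_435322_an.UD

open Finset
open scoped NNReal

theorem dich {ν : V → ℝ} (h : LN ν) (hH : NH ν) (hb : NHb ν) : Gads ν ∨ L2 ν := by
  classical
  by_cases hG : Gads ν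
  · exact Or.inl hG
  right
  have key : UB ν ∧ SUP ν := by
    by_cases hA : NonAs ν
    · have hK := kr_of_nonAs h hH hA
      have hU := ub_of_not_gads h (normUp_of_kr h hK) hG
      exact ⟨hU, sup_of_kr h hK hU⟩
    · obtain ⟨h1, h2⟩ := sup_of_as h hb hA
      exact ⟨ub_of_not_gads h h1 hG, h2⟩
  obtain ⟨C, H, F, hF, hup⟩ := seq_of_ub h key.1 key.2
  by_contra hL
  refine hG (gads_of_fail h hF fun κ hκ hκ' C' hlo => hL ?_)
  refine ⟨max H C', fun γ => F (κ γ), fun k => (hF.1 _).mono (Nat.zero_le _),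
    fun n k k' i i' h1 h2 => hκ (hF.2.1 n _ _ i i' h1 h2),
    fun k => (hF.2.2.1 (κ k)).mono (by exact_mod_cast hκ' k), fun σ x hx => ?_, fun σ x hx => ?_⟩
  · have h1 := hup (σ.map ⟨κ, hκ⟩) (Function.extend κ x 0) (fun k hk => by
      obtain ⟨γ, hγ, rfl⟩ := Finset.mem_map.1 hk
      show InC (F (κ γ)) (Function.extend κ x 0 (κ γ))
      rw [hκ.extend_apply]
      exact hx γ hγ)
    simp only [Finset.sum_map, Function.Embedding.coeFn_mk, hκ.extend_apply] at h1
    exact h1.trans (mul_le_mul_of_nonneg_right (le_max_left _ _)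
      (Finset.sum_nonneg fun _ _ => sq_nonneg _))
  · exact (hlo σ x hx).trans (mul_le_mul_of_nonneg_right (le_max_right _ _) (sq_nonneg _))

end Pool.Agent.Lib.MP_435322_an.UD
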