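import Pool.Agent.Lib.MP_435322_an.UDefs

/-! Continuous families of subspaces reducing eventual equality to isomorphism. -/

namespace Pool.Agent.Lib.MP_435322_an.UD

open Filter Pool.Agent.Lib.MP_435322_an

universe u v w

/-- a lower semicontinuous family of closed subspaces that codes eventual equality -/
def Fam (𝕜 : Type w) [RCLike 𝕜] (W : Type u) [NormedAddCommGroup W] [NormedSpace 𝕜 W] : Prop :=
  ∃ S : (ℕ → Bool) → Submodule 𝕜 W, (∀ a, IsClosed (S a : Set W)) ∧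
    (∀ U : Set W, IsOpen U → IsOpen {a : ℕ → Bool | ((S a : Set W) ∩ U).Nonempty}) ∧
    ∀ a b, (∀ᶠ n in atTop, a n = b n) ↔ Nonempty (S a ≃L[𝕜] S b)

variable {𝕜 : Type w} [RCLike 𝕜]

theorem Fam.map {W : Type u} [NormedAddCommGroup W] [NormedSpace 𝕜 W] [CompleteSpace W]
    {Y : Type v} [NormedAddCommGroup Y] [NormedSpace 𝕜 Y] (h : Fam 𝕜 W)
    (j : W →L[𝕜] Y) {c : ℝ} (hc : 0 < c) (hj : ∀ x, c * ‖x‖ ≤ ‖j x‖) : Fam 𝕜 Y := by
  obtain ⟨S, hS1, hS2, hS3⟩ := h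
  have hj' : ∀ x, ‖x‖ ≤ 1 / c * ‖j x‖ := fun x => by
    rw [one_div, inv_mul_eq_div, le_div_iff₀ hc, mul_comm]; exact hj x
  have hanti : AntilipschitzWith ⟨1 / c, by positivity⟩ j :=
    AddMonoidHomClass.antilipschitz_of_bound j hj'
  have hcl : Topology.IsClosedEmbedding j := hanti.isClosedEmbedding j.uniformContinuous
  have hiso : ∀ a, Nonempty (S a ≃L[𝕜] (S a).map (j : W →ₗ[𝕜] Y)) := fun a =>
    ⟨(Submodule.equivMapOfInjective (j : W →ₗ[𝕜] Y) hcl.injective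
      (S a)).toContinuousLinearEquivOfBounds ‖j‖ (1 / c) (fun x => j.le_opNorm x) (fun y => by
        obtain ⟨x, rfl⟩ := (Submodule.equivMapOfInjective (j : W →ₗ[𝕜] Y) hcl.injective
          (S a)).surjective y
        rw [LinearEquiv.symm_apply_apply]
        exact hj' x)⟩
  refine ⟨fun a => (S a).map (j : W →ₗ[𝕜] Y), fun a => hcl.isClosedMap _ (hS1 a),
    fun U hU => ?_, fun a a' => ?_⟩
  · have e : {a : ℕ → Bool | ((((S a).map (j : W →ₗ[𝕜] Y) : Submodule 𝕜 Y) : Set Y) ∩ U).Nonempty}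
        = {a | ((S a : Set W) ∩ j ⁻¹' U).Nonempty} := by
      ext a
      exact Set.image_inter_nonempty_iff
    rw [e]
    exact hS2 _ (hU.preimage j.continuous)
  · obtain ⟨e1⟩ := hiso a
    obtain ⟨e2⟩ := hiso a'
    rw [hS3]
    exact ⟨fun ⟨e⟩ => ⟨(e1.symm.trans e).trans e2⟩, fun ⟨e⟩ => ⟨(e1.trans e).trans e2.symm⟩⟩

theorem Fam.ergodic {Y : Type v} [NormedAddCommGroup Y] [NormedSpace 𝕜 Y] (h : Fam 𝕜 Y) :
    IsErgodic 𝕜 Y := by
  obtain ⟨S, hS1, hS2, hS3⟩ := h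
  refine ⟨fun a => ⟨S a, hS1 a⟩, ?_, hS3⟩
  refine measurable_generateFrom ?_
  rintro _ ⟨U, hU, rfl⟩
  exact (hS2 U hU).measurableSet

theorem rad_eq {E : Type u} [NormedAddCommGroup E] {n : ℕ} (x : Fin n → E) :
    (∑ ε : Fin n → ℤˣ, ‖∑ i, ε i • x i‖ ^ 2) / 2 ^ n = rad (nq E) x := by
  unfold rad Ex nq hf
  rw [Finset.sum_div]
  refine Finset.sum_congr rfl fun ε _ => ?_
  rw [Finset.prod_const, Finset.card_univ, Fintype.card_fin, one_div, inv_pow]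
  ring

end Pool.Agent.Lib.MP_435322_an.UD
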