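import Pool.Agent.Lib.MP_435322_an.UCore
import Pool.Agent.Lib.MP_435322_an.UFam
import Pool.Agent.Lib.MP_435322_an.UBasic

/-! Gadgets in every tail give a family of subspaces coding eventual equality. -/

namespace Pool.Agent.Lib.MP_435322_an.UD

open Finset Filter Pool.Agent.Lib.MP_435322_an
open scoped NNReal

universe u w

/-- `lift` realises the lattice functional `ν` in `W` up to the constant `U` -/
def LEq (𝕜 : Type w) [RCLike 𝕜] {W : Type u} [NormedAddCommGroup W] [NormedSpace 𝕜 W]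
    (ν : V → ℝ) (lift : V → W) (U : ℝ) : Prop :=
  ∀ (Q : Type) [Fintype Q] (g : Q → V), Dj g → ∀ κ : Q → 𝕜,
    ‖∑ p, κ p • lift (g p)‖ ≤ ν (cmb (fun p => ‖κ p‖₊) g) ∧
    ν (cmb (fun p => ‖κ p‖₊) g) ≤ U * ‖∑ p, κ p • lift (g p)‖

/-- the data of a gadget -/
structure GadStr where
  I : Type
  inst : Fintype I
  g : Fin 4 → I → V

/-- the test property of a gadget -/
def gad_Test (ν : V → ℝ) (K : ℝ) {I : Type} [Fintype I] (g : Fin 4 → I → V) : Prop :=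
  ∀ c : I → Fin 4, ∃ (l : Fin 4) (t : I → ℝ≥0),
    (∀ i, c i ≠ l → t i = 0) ∧ ∀ l', l' ≠ l → K * ν (cmb t (g l')) < ν (cmb t (g l))

theorem gad_nondeg {ν : V → ℝ} (hν : LN ν) {K : ℝ} (hK : 0 ≤ K) {m : ℕ} (h : Gad ν K m) :
    ∃ (o : GadStr) (m' : ℕ), m < m' ∧ Dj (fun p : Fin 4 × o.I => o.g p.1 p.2) ∧
      (∀ l i, Win m m' (o.g l i)) ∧ (∀ l i, 0 < ν (o.g l i)) ∧ @gad_Test ν K o.I o.inst o.g := by
  classical
  obtain ⟨I, inst, g, hd, ht, hc⟩ := h
  obtain ⟨m', hm, hw⟩ := exists_win (m := m) (y := fun p : Fin 4 × I => g p.1 p.2)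
    (fun p => ht p.1 p.2)
  let pr : I → Prop := fun i => ∀ l, 0 < ν (g l i)
  have hdeg : ∀ i, ¬ pr i → ∃ l, ν (g l i) = 0 := by
    intro i hi
    simp only [pr, not_forall, not_lt] at hi
    obtain ⟨l, hl⟩ := hi
    exact ⟨l, le_antisymm hl (hν.nonneg _)⟩
  choose dl hdl using hdeg
  refine ⟨⟨{i // pr i}, inferInstance, fun l i => g l i.1⟩, m', hm, ?_, fun l i => hw (l, i.1),
    fun l i => i.2 l, fun c => ?_⟩
  · exact hd.comp (e := fun p : Fin 4 × {i // pr i} => (p.1, p.2.1)) (fun p q h => by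
      simp only [Prod.mk.injEq] at h
      exact Prod.ext h.1 (Subtype.ext h.2))
  · obtain ⟨l, t, h1, h2⟩ := hc (fun i => if h : pr i then c ⟨i, h⟩ else dl i h)
    have hsplit : ∀ l', cmb t (g l') = cmb (fun i : {i // pr i} => t i.1) (fun i => g l' i.1) +
        ∑ i : {i // ¬ pr i}, t i.1 • g l' i.1 := fun l' =>
      (Fintype.sum_subtype_add_sum_subtype pr (fun i => t i • g l' i)).symm
    refine ⟨l, fun i => t i.1, fun i hi => h1 i.1 (by rw [dif_pos i.2]; exact hi),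
      fun l' hl' => ?_⟩
    have h3 := h2 l' hl'
    have h4 : ν (cmb (fun i : {i // pr i} => t i.1) (fun i => g l' i.1)) ≤ ν (cmb t (g l')) := by
      apply hν.mono
      rw [hsplit l']
      exact le_self_add
    have h5 : ν (cmb t (g l)) ≤ ν (cmb (fun i : {i // pr i} => t i.1) (fun i => g l i.1)) := by
      rw [hsplit l]
      refine (hν.add _ _).trans ?_
      have h6 := hν.sum_le Finset.univ (fun i : {i // ¬ pr i} => t i.1 • g l i.1)
      rw [Finset.sum_eq_zero (f := fun i : {i // ¬ pr i} => ν (t i.1 • g l i.1))] at h6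
      · linarith
      · intro i _
        rw [hν.smul]
        by_cases h7 : dl i.1 i.2 = l
        · rw [← h7, hdl, mul_zero]
        · rw [h1 i.1 (by rw [dif_neg i.2]; exact h7)]
          simp
    exact (mul_le_mul_of_nonneg_left h4 hK).trans_lt (h3.trans_le h5)

theorem gad_LM {ν : V → ℝ} (hν : LN ν) {Q : Type} [Fintype Q] (g : Q → V) :
    LM (fun s => ν (cmb s g)) :=
  ⟨fun _ _ h => hν.mono _ _ (cmb_mono h g), fun x y => by rw [cmb_add]; exact hν.add _ _,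
    fun c x => by rw [cmb_smul]; exact hν.smul _ _⟩

theorem gad_LowQ {ν : V → ℝ} (hν : LN ν) {C : ℝ} (hC : 0 ≤ C)
    (h3 : ∀ (n : ℕ) (y : Fin n → V), Dj y → ∑ j, ν (y j) ^ 3 ≤ C * ν (∑ j, y j) ^ 3)
    {Q : Type} [Fintype Q] [DecidableEq Q] {g : Q → V} (hg : Dj g) :
    LowQ (fun s => ν (cmb s g)) C := by
  intro m A hA s
  have h1 := h3 m (fun k => cmb (fun p => if p ∈ A k then s p else 0) g) (fun n k k' hk hk' => by
    obtain ⟨p, hp, hp'⟩ := cmb_ne_zero hk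
    obtain ⟨q, hq, hq'⟩ := cmb_ne_zero hk'
    have := hg n p q hp' hq'
    subst this
    refine hA k k' p ?_ ?_
    · by_contra h; exact hp (if_neg h)
    · by_contra h; exact hq (if_neg h))
  refine h1.trans (mul_le_mul_of_nonneg_left (pow_le_pow_left₀ (hν.nonneg _) (hν.mono _ _ ?_) 3) hC)
  have e : ∑ k, cmb (fun p => if p ∈ A k then s p else 0) g =
      cmb (fun p => ∑ k, if p ∈ A k then s p else 0) g := by
    unfold cmb
    rw [Finset.sum_comm]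
    exact Finset.sum_congr rfl fun p _ => by rw [Finset.sum_smul]
  rw [e]
  refine cmb_mono (fun p => ?_) g
  by_cases h : ∃ k, p ∈ A k
  · obtain ⟨k, hk⟩ := h
    rw [Finset.sum_eq_single k, if_pos hk]
    · intro k' _ hk'
      exact if_neg fun h => hk' (hA k' k p h hk)
    · intro h; exact (h (Finset.mem_univ k)).elim
  · rw [Finset.sum_eq_zero]
    · exact zero_le
    · intro k _
      exact if_neg fun hk => h ⟨k, hk⟩

theorem gad_cmb_row {I : Type} [Fintype I] (g : Fin 4 → I → V) (l : Fin 4) (t : I → ℝ≥0) :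
    cmb (fun p : Fin 4 × I => if p.1 = l then t p.2 else 0) (fun p => g p.1 p.2) =
      cmb t (g l) := by
  unfold cmb
  rw [Fintype.sum_prod_type, Finset.sum_eq_single l]
  · simp
  · intro l' _ hl'
    simp [hl']
  · intro h; exact (h (Finset.mem_univ l)).elim

/-- slopes -/
noncomputable def gad_sig (k : ℕ) (b : Bool) : ℝ := 3 + (1 / 2) ^ (2 * k + b.toNat)

theorem gad_sig_mem (k : ℕ) (b : Bool) : 3 ≤ gad_sig k b ∧ gad_sig k b ≤ 4 := by
  unfold gad_sig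
  have h1 : (0 : ℝ) ≤ (1 / 2) ^ (2 * k + b.toNat) := by positivity
  have h2 : (1 / 2 : ℝ) ^ (2 * k + b.toNat) ≤ 1 := pow_le_one₀ (by norm_num) (by norm_num)
  constructor <;> linarith

theorem gad_pow_sep {n n' : ℕ} (h : n ≠ n') :
    (1 / 2 : ℝ) ^ (n + 1) ≤ |(1 / 2 : ℝ) ^ n - (1 / 2) ^ n'| := by
  have h0 : (0 : ℝ) ≤ (1 / 2) ^ n := by positivity
  rcases lt_or_gt_of_ne h with h | h
  · have h1 : (1 / 2 : ℝ) ^ n' ≤ (1 / 2) ^ (n + 1) :=
      pow_le_pow_of_le_one (by norm_num) (by norm_num) h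
    refine le_trans ?_ (le_abs_self _)
    rw [pow_succ] at h1 ⊢
    linarith
  · have h1 : (1 / 2 : ℝ) ^ n ≤ (1 / 2) ^ (n' + 1) :=
      pow_le_pow_of_le_one (by norm_num) (by norm_num) h
    refine le_trans ?_ (neg_le_abs _)
    rw [pow_succ] at h1 ⊢
    linarith

theorem gad_sig_sep {k k' : ℕ} {b b' : Bool} (h : k = k' → b ≠ b') :
    (1 / 2 : ℝ) ^ (2 * k + 2) ≤ |gad_sig k b - gad_sig k' b'| := by
  have h1 : 2 * k + b.toNat ≠ 2 * k' + b'.toNat := by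
    revert h
    cases b <;> cases b' <;> simp <;> omega
  have h2 := gad_pow_sep h1
  unfold gad_sig
  rw [add_sub_add_left_eq_sub]
  refine le_trans (pow_le_pow_of_le_one (by norm_num) (by norm_num) ?_) h2
  have := Bool.toNat_le b
  omega

section
variable {𝕜 : Type w} [RCLike 𝕜] {W : Type u} [NormedAddCommGroup W] [NormedSpace 𝕜 W]

/-- the embedding attached to a gadget and a slope -/
noncomputable def gad_Psi (lift : V → W) (σ : ℝ) {I : Type} [Fintype I] (g : Fin 4 → I → V) :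
    (I → 𝕜 × 𝕜) →ₗ[𝕜] W where
  toFun z := ∑ p : Fin 4 × I, lam σ p.1 (z p.2) • lift (g p.1 p.2)
  map_add' z z' := by
    rw [← Finset.sum_add_distrib]
    refine Finset.sum_congr rfl fun p _ => ?_
    rw [← add_smul]
    congr 1
    simp only [lam, Pi.add_apply, Prod.fst_add, Prod.snd_add]
    ring
  map_smul' c z := by
    rw [Finset.smul_sum]
    refine Finset.sum_congr rfl fun p _ => ?_
    rw [smul_smul]
    congr 1
    simp only [lam, Pi.smul_apply, Prod.smul_fst, Prod.smul_snd, smul_eq_mul, RingHom.id_apply]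
    ring

theorem gad_Psi_apply (lift : V → W) (σ : ℝ) {I : Type} [Fintype I] (g : Fin 4 → I → V)
    (z : I → 𝕜 × 𝕜) :
    gad_Psi lift σ g z = ∑ p : Fin 4 × I, lam σ p.1 (z p.2) • lift (g p.1 p.2) := rfl

theorem gad_Psi_inj {ν : V → ℝ} (hν : LN ν) {lift : V → W} {U : ℝ} (hLE : LEq 𝕜 ν lift U)
    (σ : ℝ) {I : Type} [Fintype I] {g : Fin 4 → I → V}
    (hd : Dj (fun p : Fin 4 × I => g p.1 p.2)) (hpos : ∀ l i, 0 < ν (g l i)) :
    Function.Injective (gad_Psi (𝕜 := 𝕜) lift σ g) := by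
  rw [injective_iff_map_eq_zero]
  intro z hz
  have h1 := (hLE _ _ hd (fun p => lam σ p.1 (z p.2))).2
  rw [← gad_Psi_apply, hz, norm_zero, mul_zero] at h1
  have h2 : ∀ l i, lam σ l (z i) = 0 := by
    intro l i
    have h3 := (hν.le_cmb (fun p : Fin 4 × I => ‖lam σ p.1 (z p.2)‖₊) (fun p => g p.1 p.2)
      (l, i)).trans h1
    have h4 := hpos l i
    simp only [coe_nnnorm] at h3
    have h5 : ‖lam σ l (z i)‖ ≤ 0 := by
      by_contra h
      push Not at h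
      exact absurd h3 (not_le.2 (mul_pos h h4))
    exact norm_le_zero_iff.1 h5
  funext i
  have a0 := h2 0 i
  have a1 := h2 1 i
  simp [lam, sl] at a0 a1
  refine Prod.ext a0 ?_
  rw [a0, zero_sub, neg_eq_zero] at a1
  exact a1

theorem gad_PS (P : ℕ → W →L[𝕜] W) (hP1 : ∀ i x, P i (P i x) = P i x)
    (hP2 : ∀ i j, i ≠ j → ∀ x, P i (P j x) = 0) (s t : Finset ℕ) (x : W) :
    (∑ n ∈ s, P n) ((∑ n ∈ t, P n) x) = ∑ n ∈ s ∩ t, P n x := by
  rw [_root_.sum_apply, _root_.sum_apply]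
  have h : ∀ i, P i (∑ n ∈ t, P n x) = if i ∈ t then P i x else 0 := by
    intro i
    rw [map_sum]
    split_ifs with h
    · rw [Finset.sum_eq_single i]
      · exact hP1 i x
      · intro j _ hj; exact hP2 i j hj.symm x
      · intro h1; exact (h1 h).elim
    · exact Finset.sum_eq_zero fun j hj => hP2 i j (by rintro rfl; exact h hj) x
  simp only [h]
  rw [Finset.sum_ite_mem]

theorem gad_open {P : ℕ → W →L[𝕜] W} {G : ℕ → Bool → Submodule 𝕜 W}
    (hP1 : ∀ i w, P i (P i w) = P i w) (hP2 : ∀ i j, i ≠ j → ∀ w, P i (P j w) = 0)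
    (hs : ∀ w, Tendsto (fun N => ∑ j ∈ Finset.range N, P j w) atTop (nhds w))
    {U : Set W} (hU : IsOpen U) :
    IsOpen {u : ℕ → Bool | ((fam P G u : Set W) ∩ U).Nonempty} := by
  rw [isOpen_iff_mem_nhds]
  rintro u ⟨w, hw, hwU⟩
  obtain ⟨N, hN⟩ := ((hs w).eventually (hU.mem_nhds hwU)).exists
  have h1 : ∀ᶠ v in nhds u, ∀ i ∈ Finset.range N, v i = u i := by
    rw [Filter.eventually_all_finset]
    intro i _
    have h2 := (continuous_apply (A := fun _ : ℕ => Bool) i).tendsto u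
    rw [nhds_discrete Bool, tendsto_pure] at h2
    exact h2
  refine h1.mono fun v hv => ⟨_, mem_fam.2 fun i => ?_, hN⟩
  rw [P_trunc hP1 hP2]
  split_ifs with h
  · rw [hv i (Finset.mem_range.2 h)]; exact mem_fam.1 hw i
  · exact Submodule.zero_mem _

/-- coordinates of the `k`-th block -/
theorem gad_coord {P : ℕ → W →L[𝕜] W} {E : ℕ → Type w} [∀ k, NormedAddCommGroup (E k)]
    [∀ k, NormedSpace 𝕜 (E k)] [∀ k, FiniteDimensional 𝕜 (E k)]
    (Ψ : ∀ k, Bool → E k →ₗ[𝕜] W) (hinj : ∀ k b, Function.Injective (Ψ k b))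
    (v : ℕ → Bool) (k : ℕ) :
    ∃ co : fam P (fun k b => LinearMap.range (Ψ k b)) v →ₗ[𝕜] E k, Continuous co ∧
      ∀ x, Ψ k (v k) (co x) = P k x := by
  let pr : fam P (fun k b => LinearMap.range (Ψ k b)) v →L[𝕜] LinearMap.range (Ψ k (v k)) :=
    ((P k).comp (fam P (fun k b => LinearMap.range (Ψ k b)) v).subtypeL).codRestrict _
      (fun w => mem_fam.1 w.2 k)
  let χ := (LinearEquiv.ofInjective (Ψ k (v k)) (hinj k (v k))).symm
  refine ⟨χ.toLinearMap.comp pr.toLinearMap,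
    (LinearMap.continuous_of_finiteDimensional χ.toLinearMap).comp pr.continuous, fun x => ?_⟩
  exact LinearEquiv.ofInjective_symm_apply (Ψ k (v k)) (h := hinj k (v k)) (pr x)

theorem gad_main (P : ℕ → W →L[𝕜] W) (hP1 : ∀ i x, P i (P i x) = P i x)
    (hP2 : ∀ i j, i ≠ j → ∀ x, P i (P j x) = 0)
    (hs : ∀ w, Tendsto (fun N => ∑ j ∈ Finset.range N, P j w) atTop (nhds w))
    {U : ℝ} (hU0 : 0 ≤ U) (hU1 : ∀ (k : ℕ) (x : W), ‖P k x‖ ≤ U * ‖x‖)
    (hU2 : ∀ (N : ℕ) (x : W), ‖∑ j ∈ Finset.range N, P j x‖ ≤ U * ‖x‖)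
    {ν : V → ℝ} (hν : LN ν) {C : ℝ} (hC : 0 ≤ C)
    (h3 : ∀ (n : ℕ) (y : Fin n → V), Dj y → ∑ j, ν (y j) ^ 3 ≤ C * ν (∑ j, y j) ^ 3)
    (lift : V → W) (hLE : LEq 𝕜 ν lift U) (C' : ℝ) (hC' : 0 < C')
    (hcore : ∀ (I J : Type) [Fintype I] [DecidableEq I] [Fintype J] [DecidableEq J]
      (μ : (Fin 4 × I → ℝ≥0) → ℝ) (μ' : (Fin 4 × J → ℝ≥0) → ℝ), LM μ → LM μ' → LowQ μ' C →
      ∀ (σ δ : ℝ) (σ' : J → ℝ), 3 ≤ σ → σ ≤ 4 → (∀ j, 3 ≤ σ' j ∧ σ' j ≤ 4) → 0 < δ → δ ≤ 1 →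
      (∀ j, δ ≤ |σ - σ' j|) →
      ∀ (A : (I → 𝕜 × 𝕜) →ₗ[𝕜] (J → 𝕜 × 𝕜)) (B : (J → 𝕜 × 𝕜) →ₗ[𝕜] (I → 𝕜 × 𝕜)) (a b : ℝ),
      0 ≤ a → 0 ≤ b →
      (∀ z, μ' (fun p => ‖lam (σ' p.2) p.1 (A z p.2)‖₊) ≤ a * μ (fun p => ‖lam σ p.1 (z p.2)‖₊)) →
      (∀ y, μ (fun p => ‖lam σ p.1 (B y p.2)‖₊) ≤ b * μ' (fun p => ‖lam (σ' p.2) p.1 (y p.2)‖₊)) →
      (∀ i, ‖(B (A (Pi.single i (0, 1))) i).2 - 1‖ ≤ 1 / 2) →
      ∀ K : ℝ, (∀ c : I → Fin 4, ∃ (l : Fin 4) (t : I → ℝ≥0), (∀ i, c i ≠ l → t i = 0) ∧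
        ∀ l', l' ≠ l → K * μ (fun p => if p.1 = l' then t p.2 else 0) <
          μ (fun p => if p.1 = l then t p.2 else 0)) →
      K ≤ C' * a * b / δ)
    (I : ℕ → Type) [∀ k, Fintype (I k)] (g : ∀ k, Fin 4 → I k → V)
    (hd : ∀ k, Dj (fun p : Fin 4 × I k => g k p.1 p.2))
    (hd' : ∀ n k k' l l' i i', g k l i n ≠ 0 → g k' l' i' n ≠ 0 → k = k')
    (hpos : ∀ k l i, 0 < ν (g k l i)) (hfix : ∀ k l i, P k (lift (g k l i)) = lift (g k l i))
    (htest : ∀ k : ℕ, gad_Test ν (C' * (k + 1) / (1 / 2) ^ (2 * k + 2)) (g k)) : Fam 𝕜 W := by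
  classical
  let Ψ : ∀ k, Bool → (I k → 𝕜 × 𝕜) →ₗ[𝕜] W := fun k b => gad_Psi lift (gad_sig k b) (g k)
  have hinj : ∀ k b, Function.Injective (Ψ k b) := fun k b =>
    gad_Psi_inj hν hLE _ (hd k) (hpos k)
  have hPΨ : ∀ k b z, P k (Ψ k b z) = Ψ k b z := by
    intro k b z
    simp only [Ψ, gad_Psi_apply, map_sum, map_smul, hfix]
  let G : ℕ → Bool → Submodule 𝕜 W := fun k b => LinearMap.range (Ψ k b)
  have hG : ∀ n b, ∀ x ∈ G n b, P n x = x := by
    rintro n b _ ⟨z, rfl⟩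
    exact hPΨ n b z
  have hfin : ∀ n b, FiniteDimensional 𝕜 (G n b) := fun n b => inferInstance
  have hrk : ∀ n, Module.finrank 𝕜 (G n true) = Module.finrank 𝕜 (G n false) := fun n => by
    rw [LinearMap.finrank_range_of_inj (hinj n true), LinearMap.finrank_range_of_inj (hinj n false)]
  have hmem : ∀ (u : ℕ → Bool) k z, Ψ k (u k) z ∈ fam P G u := by
    intro u k z
    refine mem_fam.2 fun i => ?_
    by_cases hi : i = k
    · subst hi; rw [hPΨ]; exact ⟨z, rfl⟩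
    · rw [← hPΨ, hP2 i k hi]; exact Submodule.zero_mem _
  let inc : ∀ (u : ℕ → Bool) k, (I k → 𝕜 × 𝕜) →ₗ[𝕜] fam P G u := fun u k =>
    (Ψ k (u k)).codRestrict _ (hmem u k)
  have hinc : ∀ u k z, (inc u k z : W) = Ψ k (u k) z := fun u k z => rfl
  choose co hco1 hco2 using fun v k => gad_coord (P := P) Ψ hinj v k
  have hcoinc : ∀ u k z, co u k (inc u k z) = z := fun u k z =>
    hinj k (u k) (by rw [hco2, hinc, hPΨ])
  refine ⟨fam P G, fam_closed hfin, fun U hU => gad_open hP1 hP2 hs hU, fun u v => ⟨fun h => ?_, ?_⟩⟩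
  · obtain ⟨N, hN⟩ := eventually_atTop.1 h
    exact fam_iso hP1 hP2 hG hfin hrk N u v hN
  rintro ⟨e⟩
  by_contra hne
  rw [not_eventually] at hne
  obtain ⟨a, ha⟩ : ∃ a, a = U * U * ‖(e : fam P G u →L[𝕜] fam P G v)‖ := ⟨_, rfl⟩
  obtain ⟨b, hb⟩ : ∃ b, b = U * U * ‖(e.symm : fam P G v →L[𝕜] fam P G u)‖ := ⟨_, rfl⟩
  have ha0 : 0 ≤ a := ha ▸ mul_nonneg (mul_nonneg hU0 hU0) (norm_nonneg _)
  have hb0 : 0 ≤ b := hb ▸ mul_nonneg (mul_nonneg hU0 hU0) (norm_nonneg _)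
  obtain ⟨k0, hk0⟩ := exists_nat_ge (a * b)
  obtain ⟨k, hk, huv⟩ := (frequently_atTop.1 hne) k0
  let tr : ℕ → fam P G v → fam P G v := fun N x => ∑ j : Fin N, inc v j (co v j x)
  have htr : ∀ N x, (tr N x : W) = ∑ j ∈ Finset.range N, P j x := by
    intro N x
    simp only [tr, Submodule.coe_sum, hinc, hco2]
    exact Fin.sum_univ_eq_sum_range (fun j => P j (x : W)) N
  have htt : ∀ x, Tendsto (fun N => tr N x) atTop (nhds x) := by
    intro x
    rw [tendsto_subtype_rng]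
    simp only [htr]
    exact hs _
  have hev : ∀ᶠ N in atTop, ∀ i : I k,
      ‖(co u k (e.symm (tr N (e (inc u k (Pi.single i (0, 1)))))) i).2 - 1‖ ≤ 1 / 2 := by
    rw [Filter.eventually_all]
    intro i
    have hc : Continuous fun x : fam P G v => ‖(co u k (e.symm x) i).2 - 1‖ :=
      ((continuous_snd.comp ((continuous_apply i).comp ((hco1 u k).comp
        e.symm.continuous))).sub continuous_const).norm
    have h1 := (hc.tendsto _).comp (htt (e (inc u k (Pi.single i (0, 1)))))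
    have h2 : ‖(co u k (e.symm (e (inc u k (Pi.single i (0, 1))))) i).2 - 1‖ = 0 := by
      rw [e.symm_apply_apply, hcoinc]
      simp
    rw [h2] at h1
    exact h1.eventually (ge_mem_nhds (by norm_num : (0 : ℝ) < 1 / 2))
  obtain ⟨N, hN⟩ := hev.exists
  let J : Type := Σ j : Fin N, I j
  let gJ : Fin 4 × J → V := fun p => g p.2.1 p.1 p.2.2
  have hdJ : Dj gJ := by
    rintro n ⟨l, j, i⟩ ⟨l', j', i'⟩ h1 h2
    have h3 : j = j' := Fin.ext (hd' n _ _ _ _ _ _ h1 h2)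
    subst h3
    have h4 := hd j n (l, i) (l', i') h1 h2
    simp only [Prod.mk.injEq] at h4
    obtain ⟨rfl, rfl⟩ := h4
    rfl
  let σ' : J → ℝ := fun j => gad_sig j.1 (v j.1)
  obtain ⟨A, hA⟩ : ∃ A : (I k → 𝕜 × 𝕜) →ₗ[𝕜] (J → 𝕜 × 𝕜),
      ∀ z (j : J), A z j = co v j.1 (e (inc u k z)) j.2 :=
    ⟨LinearMap.pi fun j : J => (LinearMap.proj j.2).comp ((co v j.1).comp
      (e.toLinearEquiv.toLinearMap.comp (inc u k))), fun z j => rfl⟩
  obtain ⟨S, hS⟩ : ∃ S : (J → 𝕜 × 𝕜) →ₗ[𝕜] fam P G v,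
      ∀ y, S y = ∑ j : Fin N, inc v j (fun i => y ⟨j, i⟩) :=
    ⟨∑ j : Fin N, (inc v j).comp (LinearMap.pi fun i : I j => LinearMap.proj (⟨j, i⟩ : J)),
      fun y => by
        simp only [LinearMap.sum_apply]
        rfl⟩
  have hS' : ∀ y, (S y : W) = ∑ p : Fin 4 × J, lam (σ' p.2) p.1 (y p.2) • lift (gJ p) := by
    intro y
    rw [hS, Submodule.coe_sum, Fintype.sum_prod_type_right, Fintype.sum_sigma]
    refine Finset.sum_congr rfl fun j _ => ?_
    rw [hinc, gad_Psi_apply, Fintype.sum_prod_type_right]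
  obtain ⟨B, hB⟩ : ∃ B : (J → 𝕜 × 𝕜) →ₗ[𝕜] (I k → 𝕜 × 𝕜), ∀ y, B y = co u k (e.symm (S y)) :=
    ⟨(co u k).comp (e.symm.toLinearEquiv.toLinearMap.comp S), fun y => rfl⟩
  have hSA : ∀ z, S (A z) = tr N (e (inc u k z)) := fun z => by
    rw [hS]
    simp only [hA, tr]
  have hδ : (0 : ℝ) < (1 / 2) ^ (2 * k + 2) := by positivity
  have key := hcore (I k) J (fun s => ν (cmb s (fun p : Fin 4 × I k => g k p.1 p.2)))
    (fun s => ν (cmb s gJ)) (gad_LM hν _) (gad_LM hν _) (gad_LowQ hν hC h3 hdJ)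
    (gad_sig k (u k)) ((1 / 2) ^ (2 * k + 2)) σ' (gad_sig_mem _ _).1 (gad_sig_mem _ _).2
    (fun j => gad_sig_mem _ _) hδ (pow_le_one₀ (by norm_num) (by norm_num))
    (fun j => gad_sig_sep fun h => by rw [← h]; exact huv) A B a b ha0 hb0
    (fun z => by
      have h1 := (hLE _ gJ hdJ (fun p => lam (σ' p.2) p.1 (A z p.2))).2
      rw [← hS', hSA, htr] at h1
      have h2 := hU2 N (e (inc u k z))
      have h4 := (e : fam P G u →L[𝕜] fam P G v).le_opNorm (inc u k z)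
      have h5 := (hLE _ _ (hd k) (fun p => lam (gad_sig k (u k)) p.1 (z p.2))).1
      have h6 : ‖((e (inc u k z) : fam P G v) : W)‖ ≤ ‖(e : fam P G u →L[𝕜] fam P G v)‖ *
          ν (cmb (fun p : Fin 4 × I k => ‖lam (gad_sig k (u k)) p.1 (z p.2)‖₊)
            (fun p => g k p.1 p.2)) :=
        h4.trans (mul_le_mul_of_nonneg_left h5 (norm_nonneg _))
      refine h1.trans ((mul_le_mul_of_nonneg_left
        (h2.trans (mul_le_mul_of_nonneg_left h6 hU0)) hU0).trans (le_of_eq ?_))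
      rw [ha]; ring)
    (fun y => by
      have h1 := (hLE _ _ (hd k) (fun p => lam (gad_sig k (u k)) p.1 (B y p.2))).2
      have h1' : ∑ p : Fin 4 × I k, lam (gad_sig k (u k)) p.1 (B y p.2) • lift (g k p.1 p.2) =
          P k (e.symm (S y)) := by rw [hB]; exact hco2 u k _
      rw [h1'] at h1
      have h2 := hU1 k (e.symm (S y))
      have h4 := (e.symm : fam P G v →L[𝕜] fam P G u).le_opNorm (S y)
      have h5 := (hLE _ gJ hdJ (fun p => lam (σ' p.2) p.1 (y p.2))).1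
      rw [← hS'] at h5
      have h6 : ‖((e.symm (S y) : fam P G u) : W)‖ ≤ ‖(e.symm : fam P G v →L[𝕜] fam P G u)‖ *
          ν (cmb (fun p : Fin 4 × J => ‖lam (σ' p.2) p.1 (y p.2)‖₊) gJ) :=
        h4.trans (mul_le_mul_of_nonneg_left h5 (norm_nonneg _))
      refine h1.trans ((mul_le_mul_of_nonneg_left
        (h2.trans (mul_le_mul_of_nonneg_left h6 hU0)) hU0).trans (le_of_eq ?_))
      rw [hb]; ring)
    (fun i => by rw [hB, hSA]; exact hN i)
    (C' * (k + 1) / (1 / 2) ^ (2 * k + 2)) (fun c => by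
      obtain ⟨l, t, h1, h2⟩ := htest k c
      refine ⟨l, t, h1, fun l' hl' => ?_⟩
      simp only [gad_cmb_row]
      exact h2 l' hl')
  rw [div_le_div_iff_of_pos_right hδ, mul_assoc, mul_le_mul_iff_right₀ hC'] at key
  have : (k0 : ℝ) ≤ k := by exact_mod_cast hk
  linarith

end

theorem gad_family {𝕜 : Type w} [RCLike 𝕜] {W : Type u} [NormedAddCommGroup W] [NormedSpace 𝕜 W]
    (P : ℕ → W →L[𝕜] W) (hP1 : ∀ i x, P i (P i x) = P i x)
    (hP2 : ∀ i j, i ≠ j → ∀ x, P i (P j x) = 0) (hs : ∀ x, HasSum (fun n => P n x) x)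
    {U : ℝ} (hU : ∀ (σ : Finset ℕ) (x : W), ‖∑ n ∈ σ, P n x‖ ≤ U * ‖x‖)
    {ν : V → ℝ} (hν : LN ν) (h3 : Low3 ν) (lift : V → W)
    (hl : ∀ (g : V) (n : ℕ), g n = 0 → P n (lift g) = 0) (hLE : LEq 𝕜 ν lift U)
    (hG : Gads ν) : Fam 𝕜 W := by
  obtain ⟨C, hC⟩ := h3
  obtain ⟨C', hC', hcore⟩ := coreA 𝕜 |C|
  obtain ⟨m, o, hm0, hm, ho⟩ := sel_nat (fun (k : ℕ) m m' (o : GadStr) =>
      Dj (fun p : Fin 4 × o.I => o.g p.1 p.2) ∧
      (∀ l i, Win m m' (o.g l i)) ∧ (∀ l i, 0 < ν (o.g l i)) ∧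
      @gad_Test ν (C' * (k + 1) / (1 / 2) ^ (2 * k + 2)) o.I o.inst o.g) 0
    (fun k m => gad_nondeg hν (by positivity) (hG _ m))
  let P' : ℕ → W →L[𝕜] W := fun k => ∑ n ∈ Finset.Ico (m k) (m (k + 1)), P n
  have hP' : ∀ k x, P' k x = ∑ n ∈ Finset.Ico (m k) (m (k + 1)), P n x := fun k x =>
    _root_.sum_apply _ _ _
  have hwin : ∀ k k' n, m k ≤ n → n < m (k + 1) → m k' ≤ n → n < m (k' + 1) → k = k' := by
    intro k k' n a b c d
    have h4 := hm.lt_iff_lt.1 (a.trans_lt d)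
    have h5 := hm.lt_iff_lt.1 (c.trans_lt b)
    omega
  have hsum : ∀ N x, ∑ j ∈ Finset.range N, P' j x = ∑ n ∈ Finset.range (m N), P n x := by
    intro N x
    induction N with
    | zero => simp [hm0]
    | succ N ih =>
      rw [Finset.sum_range_succ, ih, hP',
        Finset.sum_range_add_sum_Ico _ (hm.monotone (Nat.le_succ N))]
  have hU' : ∀ (σ : Finset ℕ) (x : W), ‖∑ n ∈ σ, P n x‖ ≤ |U| * ‖x‖ := fun σ x =>
    (hU σ x).trans (mul_le_mul_of_nonneg_right (le_abs_self U) (norm_nonneg _))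
  let _ : ∀ k, Fintype (o k).I := fun k => (o k).inst
  refine gad_main P' (fun i x => ?_) (fun i j hij x => ?_) (fun x => ?_) (abs_nonneg U)
    (fun k x => ?_) (fun N x => ?_) hν (abs_nonneg C) (fun n y hy => ?_) lift ?_ C' hC' hcore
    (fun k => (o k).I) (fun k => (o k).g) (fun k => (ho k).1) ?_ (fun k => (ho k).2.2.1) ?_
    (fun k => (ho k).2.2.2)
  · rw [gad_PS P hP1 hP2, Finset.inter_self, hP']
  · rw [gad_PS P hP1 hP2]
    refine Finset.sum_eq_zero fun n hn => (hij ?_).elim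
    simp only [Finset.mem_inter, Finset.mem_Ico] at hn
    exact hwin i j n hn.1.1 hn.1.2 hn.2.1 hn.2.2
  · simp only [hsum]
    exact (hs x).tendsto_sum_nat.comp hm.tendsto_atTop
  · rw [hP']; exact hU' _ _
  · rw [hsum]; exact hU' _ _
  · exact (hC n y hy).trans
      (mul_le_mul_of_nonneg_right (le_abs_self C) (pow_nonneg (hν.nonneg _) 3))
  · intro Q _ g hg κ
    exact ⟨(hLE Q g hg κ).1, (hLE Q g hg κ).2.trans
      (mul_le_mul_of_nonneg_right (le_abs_self U) (norm_nonneg _))⟩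
  · intro n k k' l l' i i' h1 h2
    have a := (ho k).2.1 l i n h1
    have b := (ho k').2.1 l' i' n h2
    exact hwin k k' n a.1 a.2 b.1 b.2
  · intro k l i
    rw [hP']
    refine HasSum.unique (hasSum_sum_of_ne_finset_zero fun n hn => hl _ n ?_) (hs _)
    by_contra h
    exact hn (Finset.mem_Ico.2 ((ho k).2.1 l i n h))

end Pool.Agent.Lib.MP_435322_an.UD
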