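import Pool.Agent.Lib.MP_435322_an.Rad

/-! Khintchine multipliers in a finite lattice with a lower 3-estimate. -/

namespace Pool.Agent.Lib.MP_435322_an.UD

open Finset Pool.Agent.Lib.MP_435322_an
open scoped NNReal

/-- monotone sublinear functional on a finite-dimensional cone -/
structure LM {Q : Type} (μ : (Q → ℝ≥0) → ℝ) : Prop where
  mono : ∀ x y, x ≤ y → μ x ≤ μ y
  add : ∀ x y, μ (x + y) ≤ μ x + μ y
  smul : ∀ (c : ℝ≥0) x, μ (c • x) = c * μ x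

/-- lower 3-estimate for restrictions to disjoint sets -/
def LowQ {Q : Type} [DecidableEq Q] (μ : (Q → ℝ≥0) → ℝ) (C : ℝ) : Prop :=
  ∀ (m : ℕ) (A : Fin m → Finset Q), (∀ k k' p, p ∈ A k → p ∈ A k' → k = k') → ∀ s : Q → ℝ≥0,
    ∑ k, μ (fun p => if p ∈ A k then s p else 0) ^ 3 ≤ C * μ s ^ 3

theorem kh_zero {Q : Type} {μ : (Q → ℝ≥0) → ℝ} (h : LM μ) : μ 0 = 0 := by
  have := h.smul 0 0
  simpa using this

theorem kh_nonneg {Q : Type} {μ : (Q → ℝ≥0) → ℝ} (h : LM μ) (x : Q → ℝ≥0) : 0 ≤ μ x := by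
  rw [← kh_zero h]
  exact h.mono _ _ fun _ => zero_le

theorem kh_sum {Q : Type} {μ : (Q → ℝ≥0) → ℝ} (h : LM μ) {κ : Type} (S : Finset κ)
    (x : κ → Q → ℝ≥0) : μ (∑ k ∈ S, x k) ≤ ∑ k ∈ S, μ (x k) := by
  classical
  induction S using Finset.induction_on with
  | empty => simp [kh_zero h]
  | insert j S hj ih =>
    rw [Finset.sum_insert hj, Finset.sum_insert hj]
    exact (h.add _ _).trans (by linarith)

/-- Jensen's inequality for a monotone sublinear functional -/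
theorem LM.jensen {Q : Type} {μ : (Q → ℝ≥0) → ℝ} (h : LM μ) {ι : Type} [Fintype ι]
    [DecidableEq ι] (s : Q → ℝ≥0) (f : (ι → ℤˣ) → Q → ℝ≥0)
    (hs : ∀ p, (s p : ℝ) ≤ Ex hf (fun ε => (f ε p : ℝ))) : μ s ≤ Ex hf (fun ε => μ (f ε)) := by
  let wt : (ι → ℤˣ) → ℝ≥0 := fun ε => ⟨∏ j, hf (ε j), isW_hf.prod_nonneg ε⟩
  have h1 : s ≤ ∑ ε, wt ε • f ε := by
    intro p
    rw [← NNReal.coe_le_coe, Finset.sum_apply, NNReal.coe_sum]
    exact hs p
  refine (h.mono _ _ h1).trans ((kh_sum h _ _).trans (le_of_eq ?_))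
  unfold Ex
  exact Finset.sum_congr rfl fun ε _ => h.smul _ _

section RandomSets
variable {Q : Type} [Fintype Q] [DecidableEq Q] {μ : (Q → ℝ≥0) → ℝ}

/-- restriction to a set -/
def kh_res (A : Finset Q) (s : Q → ℝ≥0) : Q → ℝ≥0 := fun p => if p ∈ A then s p else 0

/-- indicator -/
def kh_ind (A : Finset Q) (p : Q) : ℝ := if p ∈ A then 1 else 0

omit [Fintype Q] in
theorem kh_ind_nonneg (A : Finset Q) (p : Q) : 0 ≤ kh_ind A p := by
  unfold kh_ind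
  split_ifs <;> norm_num

/-- every random set with marginals at most `θ` has average norm at most `b` -/
def kh_B (μ : (Q → ℝ≥0) → ℝ) (s : Q → ℝ≥0) (θ b : ℝ) : Prop :=
  ∀ (Ω : Type) [Fintype Ω] (w : Ω → ℝ), IsW w → ∀ A : Ω → Finset Q,
    (∀ p, ∑ ω, w ω * kh_ind (A ω) p ≤ θ) → ∑ ω, w ω * μ (kh_res (A ω) s) ≤ b

theorem kh_triv (h : LM μ) (s : Q → ℝ≥0) (θ : ℝ) :
    kh_B μ s θ (θ * (Fintype.card Q * μ s)) := by
  intro Ω _ w hw A hA
  have h1 : ∀ T : Finset Q, μ (kh_res T s) ≤ (∑ p, kh_ind T p) * μ s := by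
    intro T
    rcases T.eq_empty_or_nonempty with rfl | ⟨p, hp⟩
    · have : kh_res (∅ : Finset Q) s = 0 := by
        funext p
        simp [kh_res]
      rw [this, kh_zero h]
      exact mul_nonneg (Finset.sum_nonneg fun p _ => kh_ind_nonneg _ p) (kh_nonneg h s)
    · have h2 : μ (kh_res T s) ≤ μ s := h.mono _ _ fun q => by
        unfold kh_res
        split_ifs
        · exact le_rfl
        · exact zero_le
      have h3 : kh_ind T p ≤ ∑ q, kh_ind T q :=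
        Finset.single_le_sum (f := fun q => kh_ind T q) (fun q _ => kh_ind_nonneg T q)
          (Finset.mem_univ p)
      have h4 : kh_ind T p = 1 := by simp [kh_ind, hp]
      have h5 := kh_nonneg h s
      nlinarith
  calc ∑ ω, w ω * μ (kh_res (A ω) s) ≤ ∑ ω, w ω * ((∑ p, kh_ind (A ω) p) * μ s) :=
        Finset.sum_le_sum fun ω _ => mul_le_mul_of_nonneg_left (h1 _) (hw.nonneg ω)
    _ = (∑ p, ∑ ω, w ω * kh_ind (A ω) p) * μ s := by
        rw [Finset.sum_comm, Finset.sum_mul]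
        refine Finset.sum_congr rfl fun ω _ => ?_
        rw [← mul_assoc, Finset.mul_sum]
    _ ≤ (∑ _p : Q, θ) * μ s :=
        mul_le_mul_of_nonneg_right (Finset.sum_le_sum fun p _ => hA p) (kh_nonneg h s)
    _ = _ := by
        rw [Finset.sum_const, Finset.card_univ, nsmul_eq_mul]
        ring

theorem kh_ex_one {Ω κ : Type} [Fintype Ω] [Fintype κ] [DecidableEq κ] {w : Ω → ℝ} (hw : IsW w)
    (k : κ) (f : Ω → ℝ) : Ex w (fun ζ : κ → Ω => f (ζ k)) = ∑ ω, w ω * f ω := by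
  rw [Ex_resample hw k]
  simp only [Function.update_self]
  exact Ex_const hw _

theorem kh_ex_two {Ω κ : Type} [Fintype Ω] [Fintype κ] [DecidableEq κ] {w : Ω → ℝ} (hw : IsW w)
    {k l : κ} (hkl : l ≠ k) (f : Ω → ℝ) :
    Ex w (fun ζ : κ → Ω => f (ζ k) * f (ζ l)) = (∑ ω, w ω * f ω) ^ 2 := by
  rw [Ex_resample hw k]
  simp only [Function.update_self, Function.update_of_ne hkl]
  have e : ∀ ζ : κ → Ω, ∑ a, w a * (f a * f (ζ l)) = (∑ ω, w ω * f ω) * f (ζ l) := by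
    intro ζ
    rw [Finset.sum_mul]
    exact Finset.sum_congr rfl fun a _ => by ring
  rw [Ex_congr e, Ex_mul, kh_ex_one hw l f, sq]

omit [Fintype Q] in
theorem kh_step (h : LM μ) {C c : ℝ} (hL : LowQ μ C) (hc : 0 ≤ c) (hC : C ≤ c ^ 3)
    (s : Q → ℝ≥0) (M : ℕ) (hM : 0 < M) {θ θ' b : ℝ} (hθ : (M : ℝ) ^ 3 * θ ^ 2 ≤ θ')
    (hb : kh_B μ s θ' b) : kh_B μ s θ (c / M * μ s + b) := by
  intro Ω _ w hw A hA
  have hs := kh_nonneg h s
  have hMp : (0 : ℝ) < M := by exact_mod_cast hM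
  let κ := Fin (M ^ 3)
  let G : κ → (κ → Ω) → Finset Q := fun k ζ => (A (ζ k)).filter fun p => ∀ l, l ≠ k → p ∉ A (ζ l)
  let R : κ → (κ → Ω) → Finset Q := fun k ζ => (A (ζ k)).filter fun p => ∃ l, l ≠ k ∧ p ∈ A (ζ l)
  have hW : IsW (fun ζ : κ → Ω => ∏ j, w (ζ j)) := ⟨hw.prod_nonneg, hw.sum_prod⟩
  have hR : ∀ k, Ex w (fun ζ : κ → Ω => μ (kh_res (R k ζ) s)) ≤ b := by
    intro k
    refine hb (κ → Ω) _ hW (R k) fun p => ?_
    have h0 : 0 ≤ ∑ ω, w ω * kh_ind (A ω) p :=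
      Finset.sum_nonneg fun ω _ => mul_nonneg (hw.nonneg ω) (kh_ind_nonneg _ _)
    have h1 : ∀ ζ : κ → Ω, kh_ind (R k ζ) p
        ≤ ∑ l ∈ Finset.univ.erase k, kh_ind (A (ζ k)) p * kh_ind (A (ζ l)) p := by
      intro ζ
      have hn : ∀ l ∈ Finset.univ.erase k, 0 ≤ kh_ind (A (ζ k)) p * kh_ind (A (ζ l)) p :=
        fun l _ => mul_nonneg (kh_ind_nonneg _ _) (kh_ind_nonneg _ _)
      by_cases hp : p ∈ R k ζ
      · obtain ⟨hk, l, hl, hpl⟩ := Finset.mem_filter.mp hp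
        refine le_trans ?_ (Finset.single_le_sum hn
          (Finset.mem_erase.mpr ⟨hl, Finset.mem_univ l⟩))
        simp [kh_ind, hp, hk, hpl]
      · rw [show kh_ind (R k ζ) p = 0 by simp [kh_ind, hp]]
        exact Finset.sum_nonneg hn
    have h2 := Ex_mono hw h1
    rw [Ex_sum] at h2
    have h3 : ∑ l ∈ Finset.univ.erase k,
        Ex w (fun ζ : κ → Ω => kh_ind (A (ζ k)) p * kh_ind (A (ζ l)) p)
        ≤ ∑ _l ∈ Finset.univ.erase k, θ ^ 2 := by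
      refine Finset.sum_le_sum fun l hl => ?_
      rw [kh_ex_two hw (Finset.ne_of_mem_erase hl) (fun ω => kh_ind (A ω) p)]
      exact pow_le_pow_left₀ h0 (hA p) 2
    have h4 : ∑ _l ∈ Finset.univ.erase k, θ ^ 2 ≤ ∑ _l : κ, θ ^ 2 :=
      Finset.sum_le_sum_of_subset_of_nonneg (Finset.erase_subset _ _) fun _ _ _ => sq_nonneg _
    have h5 : ∑ _l : κ, θ ^ 2 = (M : ℝ) ^ 3 * θ ^ 2 := by
      rw [Finset.sum_const, Finset.card_univ, Fintype.card_fin, nsmul_eq_mul]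
      push_cast
      ring
    exact h2.trans (h3.trans (h4.trans (h5.trans_le hθ)))
  have hG : ∀ ζ : κ → Ω, ∑ k, μ (kh_res (G k ζ) s) ≤ (M : ℝ) ^ 2 * c * μ s := by
    intro ζ
    have h1 := hL (M ^ 3) (fun k => G k ζ) (fun k k' p hk hk' => by
      by_contra hne
      exact (Finset.mem_filter.mp hk').2 k hne (Finset.mem_filter.mp hk).1) s
    have h2 := pow_sum_le_card_mul_sum_pow (s := (Finset.univ : Finset κ))
      (f := fun k => μ (kh_res (G k ζ) s)) (fun k _ => kh_nonneg h _) 2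
    rw [Finset.card_univ, Fintype.card_fin] at h2
    have h3 : ∑ k, μ (kh_res (G k ζ) s) ^ 3 ≤ c ^ 3 * μ s ^ 3 :=
      h1.trans (mul_le_mul_of_nonneg_right hC (pow_nonneg hs 3))
    refine le_of_pow_le_pow_left₀ (n := 3) (by norm_num) (by positivity) (h2.trans ?_)
    calc ((M ^ 3 : ℕ) : ℝ) ^ 2 * ∑ k, μ (kh_res (G k ζ) s) ^ (2 + 1)
        ≤ ((M ^ 3 : ℕ) : ℝ) ^ 2 * (c ^ 3 * μ s ^ 3) :=
          mul_le_mul_of_nonneg_left h3 (by positivity)
      _ = _ := by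
          push_cast
          ring
  have hsplit : ∀ (k : κ) (ζ : κ → Ω),
      μ (kh_res (A (ζ k)) s) ≤ μ (kh_res (G k ζ) s) + μ (kh_res (R k ζ) s) := by
    intro k ζ
    refine (h.mono _ _ fun p => ?_).trans (h.add _ _)
    rw [Pi.add_apply]
    unfold kh_res
    by_cases hp : p ∈ A (ζ k)
    · rw [if_pos hp]
      by_cases hq : ∃ l, l ≠ k ∧ p ∈ A (ζ l)
      · rw [if_pos (show p ∈ R k ζ from Finset.mem_filter.mpr ⟨hp, hq⟩)]
        exact le_add_self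
      · rw [if_pos (show p ∈ G k ζ from Finset.mem_filter.mpr ⟨hp, fun l hl hl' => hq ⟨l, hl, hl'⟩⟩)]
        exact le_self_add
    · rw [if_neg hp]
      exact zero_le
  have h1 : ∑ k : κ, Ex w (fun ζ : κ → Ω => μ (kh_res (A (ζ k)) s))
      ≤ ∑ k : κ, (Ex w (fun ζ : κ → Ω => μ (kh_res (G k ζ) s)) + b) := by
    refine Finset.sum_le_sum fun k _ => (Ex_mono hw (hsplit k)).trans ?_
    rw [Ex_add]
    linarith [hR k]
  have h2 : ∑ k : κ, Ex w (fun ζ : κ → Ω => μ (kh_res (G k ζ) s)) ≤ (M : ℝ) ^ 2 * c * μ s := by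
    rw [← Ex_sum]
    exact (Ex_mono hw hG).trans (Ex_const hw _).le
  simp only [kh_ex_one hw _ (fun ω => μ (kh_res (A ω) s))] at h1
  rw [Finset.sum_add_distrib, Finset.sum_const, Finset.sum_const, Finset.card_univ,
    Fintype.card_fin, nsmul_eq_mul, nsmul_eq_mul] at h1
  push_cast at h1
  have h3 : (M : ℝ) ^ 3 * (c / M * μ s + b) = (M : ℝ) ^ 2 * c * μ s + (M : ℝ) ^ 3 * b := by
    field_simp
  refine le_of_mul_le_mul_left ?_ (pow_pos hMp 3)
  rw [h3]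
  linarith

theorem kh_iter (h : LM μ) {C c : ℝ} (hL : LowQ μ C) (hc : 0 ≤ c) (hC : C ≤ c ^ 3)
    (s : Q → ℝ≥0) (n : ℕ) : ∀ j : ℕ, kh_B μ s (1 / 8 ^ (j + 1))
      (2 * c / 2 ^ j * μ s + 1 / 8 ^ (j + n) * (Fintype.card Q * μ s)) := by
  have hs := kh_nonneg h s
  induction n with
  | zero =>
    intro j Ω _ w hw A hA
    refine (kh_triv h s _ Ω w hw A hA).trans ?_
    have h1 : (1 : ℝ) / 8 ^ (j + 1) ≤ 1 / 8 ^ (j + 0) :=
      one_div_le_one_div_of_le (by positivity) (pow_le_pow_right₀ (by norm_num) (by omega))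
    have h2 : (0 : ℝ) ≤ Fintype.card Q * μ s := by positivity
    have h3 : (0 : ℝ) ≤ 2 * c / 2 ^ j * μ s := by positivity
    nlinarith
  | succ n ih =>
    intro j Ω _ w hw A hA
    have h8 : (((2 ^ j : ℕ) : ℝ)) ^ 3 = 8 ^ j := by
      push_cast
      rw [← pow_mul, mul_comm, pow_mul]
      norm_num
    have hθ : (((2 ^ j : ℕ) : ℝ)) ^ 3 * (1 / 8 ^ (j + 1)) ^ 2 ≤ 1 / 8 ^ (j + 1 + 1) := by
      rw [h8]
      refine le_of_eq ?_
      field_simp
      ring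
    refine (kh_step h hL hc hC s (2 ^ j) (by positivity) hθ (ih (j + 1)) Ω w hw A hA).trans
      (le_of_eq ?_)
    rw [show j + 1 + n = j + (n + 1) by omega]
    push_cast
    field_simp
    ring

theorem kh_lim (h : LM μ) {C c : ℝ} (hL : LowQ μ C) (hc : 0 ≤ c) (hC : C ≤ c ^ 3)
    (s : Q → ℝ≥0) (j : ℕ) : kh_B μ s (1 / 8 ^ (j + 1)) (2 * c / 2 ^ j * μ s) := by
  intro Ω _ w hw A hA
  have h1 : Filter.Tendsto (fun n : ℕ => 2 * c / 2 ^ j * μ s
      + (1 / 8 : ℝ) ^ n * (1 / 8 ^ j * (Fintype.card Q * μ s))) Filter.atTop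
      (nhds (2 * c / 2 ^ j * μ s + 0 * (1 / 8 ^ j * (Fintype.card Q * μ s)))) :=
    ((tendsto_pow_atTop_nhds_zero_of_lt_one (by norm_num) (by norm_num)).mul_const _).const_add _
  rw [zero_mul, add_zero] at h1
  refine ge_of_tendsto' h1 fun n => (kh_iter h hL hc hC s n j Ω w hw A hA).trans (le_of_eq ?_)
  rw [pow_add, one_div_pow]
  field_simp

end RandomSets

theorem kh_layers (x s : ℝ) (hs : 0 ≤ s) (K : ℕ) (hx : x ≤ 3 * 8 ^ K * s) :
    x ≤ 3 * s + ∑ k ∈ Finset.range K, if 3 * 8 ^ k * s < x then 3 * 8 ^ (k + 1) * s else 0 := by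
  induction K with
  | zero => simpa using hx
  | succ K ih =>
    rw [Finset.sum_range_succ]
    have h0 : 0 ≤ ∑ k ∈ Finset.range K,
        if 3 * 8 ^ k * s < x then 3 * 8 ^ (k + 1) * s else (0 : ℝ) :=
      Finset.sum_nonneg fun k _ => by
        split_ifs
        · positivity
        · exact le_rfl
    by_cases hK : 3 * 8 ^ K * s < x
    · rw [if_pos hK]
      linarith
    · rw [if_neg hK]
      have := ih (not_lt.mp hK)
      linarith

/-- the square function -/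
noncomputable def kh_sq {𝕜 : Type*} [RCLike 𝕜] {Q ι : Type} [Fintype ι] (u : ι → Q → 𝕜) :
    Q → ℝ≥0 := fun p => ⟨Real.sqrt (∑ i, ‖u i p‖ ^ 2), Real.sqrt_nonneg _⟩

theorem kh_sq_sq {𝕜 : Type*} [RCLike 𝕜] {Q ι : Type} [Fintype ι] (u : ι → Q → 𝕜) (p : Q) :
    (kh_sq u p : ℝ) ^ 2 = ∑ i, ‖u i p‖ ^ 2 :=
  Real.sq_sqrt (Finset.sum_nonneg fun _ _ => sq_nonneg _)

theorem kh_le_sq {𝕜 : Type*} [RCLike 𝕜] {Q ι : Type} [Fintype ι] (u : ι → Q → 𝕜) (p : Q) (i : ι) :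
    ‖u i p‖ ≤ kh_sq u p :=
  Real.le_sqrt_of_sq_le (Finset.single_le_sum (f := fun i => ‖u i p‖ ^ 2)
    (fun _ _ => sq_nonneg _) (Finset.mem_univ i))

/-- upper Khintchine inequality -/
theorem kh_upper {𝕜 : Type*} [RCLike 𝕜] {Q ι : Type} [Fintype Q] [DecidableEq Q] [Fintype ι]
    [DecidableEq ι] {μ : (Q → ℝ≥0) → ℝ} (h : LM μ) {C c : ℝ} (hL : LowQ μ C) (hc : 0 ≤ c)
    (hC : C ≤ c ^ 3) (u : ι → Q → 𝕜) :
    Ex hf (fun ε : ι → ℤˣ => μ (fun p => ‖∑ i, ε i • u i p‖₊)) ≤ (3 + 96 * c) * μ (kh_sq u) := by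
  classical
  have hs := kh_nonneg h (kh_sq u)
  let K := Fintype.card ι
  let A : ℕ → (ι → ℤˣ) → Finset Q := fun k ε =>
    Finset.univ.filter fun p => 3 * 8 ^ k * (kh_sq u p : ℝ) < ‖∑ i, ε i • u i p‖
  have hbd : ∀ (ε : ι → ℤˣ) (p : Q), ‖∑ i, ε i • u i p‖ ≤ K * (kh_sq u p : ℝ) := by
    intro ε p
    refine (norm_sum_le _ _).trans ?_
    calc ∑ i, ‖ε i • u i p‖ ≤ ∑ _i : ι, (kh_sq u p : ℝ) :=
          Finset.sum_le_sum fun i _ => by
            rw [norm_units_smul]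
            exact kh_le_sq u p i
      _ = _ := by rw [Finset.sum_const, Finset.card_univ, nsmul_eq_mul]
  have hK : (K : ℝ) ≤ 3 * 8 ^ K := by
    have h1 : K < 8 ^ K := Nat.lt_pow_self (by norm_num)
    have h2 : (K : ℝ) < 8 ^ K := by exact_mod_cast h1
    have h3 : (0 : ℝ) < 8 ^ K := by positivity
    linarith
  have h1 : ∀ ε : ι → ℤˣ, μ (fun p => ‖∑ i, ε i • u i p‖₊) ≤ 3 * μ (kh_sq u)
      + ∑ k ∈ Finset.range K, 3 * 8 ^ (k + 1) * μ (kh_res (A k ε) (kh_sq u)) := by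
    intro ε
    have h2 : (fun p => ‖∑ i, ε i • u i p‖₊) ≤ (3 : ℝ≥0) • kh_sq u
        + ∑ k ∈ Finset.range K, (3 * 8 ^ (k + 1) : ℝ≥0) • kh_res (A k ε) (kh_sq u) := by
      intro p
      rw [← NNReal.coe_le_coe, Pi.add_apply, Finset.sum_apply, NNReal.coe_add, NNReal.coe_sum,
        coe_nnnorm]
      refine (kh_layers _ (kh_sq u p) (kh_sq u p).2 K ((hbd ε p).trans
        (mul_le_mul_of_nonneg_right hK (kh_sq u p).2))).trans (le_of_eq ?_)
      congr 1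
      refine Finset.sum_congr rfl fun k _ => ?_
      simp only [Pi.smul_apply, smul_eq_mul, kh_res, A, Finset.mem_filter, Finset.mem_univ,
        true_and]
      split_ifs
      · push_cast
        ring
      · simp
    refine (h.mono _ _ h2).trans ((h.add _ _).trans (add_le_add ?_ ?_))
    · rw [h.smul]
      norm_num
    · refine (kh_sum h _ _).trans (le_of_eq (Finset.sum_congr rfl fun k _ => ?_))
      rw [h.smul]
      push_cast
      ring
  have hW : IsW (fun ε : ι → ℤˣ => ∏ j, hf (ε j)) := ⟨isW_hf.prod_nonneg, isW_hf.sum_prod⟩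
  have h3 : ∀ k, Ex hf (fun ε : ι → ℤˣ => μ (kh_res (A k ε) (kh_sq u)))
      ≤ 2 * c / 2 ^ (4 * k) * μ (kh_sq u) := by
    intro k
    refine kh_lim h hL hc hC (kh_sq u) (4 * k) (ι → ℤˣ) _ hW (A k) fun p => ?_
    change Ex hf (fun ε : ι → ℤˣ => kh_ind (A k ε) p) ≤ _
    rcases (kh_sq u p).2.eq_or_lt with h0 | h0
    · have h0' : (kh_sq u p : ℝ) = 0 := h0.symm
      have : ∀ ε : ι → ℤˣ, kh_ind (A k ε) p = 0 := by
        intro ε
        have h4 := hbd ε p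
        have h5 : p ∉ A k ε := by
          simp only [A, Finset.mem_filter, Finset.mem_univ, true_and, not_lt]
          rw [h0', mul_zero] at h4 ⊢
          exact h4
        simp [kh_ind, h5]
      rw [Ex_congr this, Ex_const isW_hf]
      positivity
    · have h0' : (0 : ℝ) < kh_sq u p := h0
      have hp : (0 : ℝ) < 3 * 8 ^ k * (kh_sq u p : ℝ) := by positivity
      have h4 : ∀ ε : ι → ℤˣ, kh_ind (A k ε) p
          ≤ 1 / (3 * 8 ^ k * (kh_sq u p : ℝ)) ^ 4 * (‖∑ i, ε i • u i p‖ ^ 2) ^ 2 := by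
        intro ε
        unfold kh_ind
        split_ifs with hA
        · have h5 := (Finset.mem_filter.mp hA).2
          rw [← pow_mul, one_div, inv_mul_eq_div, le_div_iff₀ (by positivity), one_mul]
          exact pow_le_pow_left₀ hp.le h5.le 4
        · positivity
      refine (Ex_mono isW_hf h4).trans ?_
      rw [Ex_mul]
      have h6 := (rad_moments (fun i => u i p)).2
      rw [← kh_sq_sq u p] at h6
      refine (mul_le_mul_of_nonneg_left h6 (by positivity)).trans ?_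
      have e : 1 / (3 * 8 ^ k * (kh_sq u p : ℝ)) ^ 4 * (4 * ((kh_sq u p : ℝ) ^ 2) ^ 2)
          = 32 / 81 * (1 / 8 ^ (4 * k + 1)) := by
        rw [pow_succ (8 : ℝ) (4 * k), mul_comm 4 k, pow_mul (8 : ℝ) k 4]
        field_simp
        ring
      rw [e]
      have : (0 : ℝ) < 1 / 8 ^ (4 * k + 1) := by positivity
      linarith
  refine (Ex_mono isW_hf h1).trans ?_
  rw [Ex_add, Ex_const isW_hf, Ex_sum]
  have h4 : ∑ k ∈ Finset.range K,
      Ex hf (fun ε : ι → ℤˣ => 3 * 8 ^ (k + 1) * μ (kh_res (A k ε) (kh_sq u)))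
      ≤ ∑ k ∈ Finset.range K, 48 * c * μ (kh_sq u) * (1 / 2) ^ k := by
    refine Finset.sum_le_sum fun k _ => ?_
    rw [Ex_mul]
    refine (mul_le_mul_of_nonneg_left (h3 k) (by positivity)).trans (le_of_eq ?_)
    have e1 : (8 : ℝ) ^ (k + 1) = 8 * (2 ^ k) ^ 3 := by
      rw [pow_succ, ← pow_mul, mul_comm k 3, pow_mul]
      norm_num [mul_comm]
    rw [e1, mul_comm 4 k, pow_mul (2 : ℝ) k 4, one_div_pow]
    field_simp
    ring
  rw [← Finset.mul_sum] at h4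
  have h5 := sum_geometric_two_le K
  have h6 : 0 ≤ 48 * c * μ (kh_sq u) := by positivity
  have h7 := mul_le_mul_of_nonneg_left h5 h6
  linarith

/-- lower Khintchine inequality -/
theorem kh_lower {𝕜 : Type*} [RCLike 𝕜] {Q ι : Type} [Fintype ι] [DecidableEq ι]
    {μ : (Q → ℝ≥0) → ℝ} (h : LM μ) (a : ι → Q → 𝕜) :
    μ (kh_sq a) ≤ 6 * Ex hf (fun ε : ι → ℤˣ => μ (fun p => ‖∑ i, ε i • a i p‖₊)) := by
  have h1 := h.jensen ((1 / 6 : ℝ≥0) • kh_sq a) (fun (ε : ι → ℤˣ) p => ‖∑ i, ε i • a i p‖₊)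
    (fun p => by
      have h2 := rad_moments (fun i => a i p)
      rw [← kh_sq_sq a p] at h2
      have h3 := Ex_first_ge isW_hf (fun ε : ι → ℤˣ => ‖∑ i, ε i • a i p‖)
        (fun _ => norm_nonneg _) (kh_sq a p) 3 (kh_sq a p).2 (by norm_num) h2.1
        (h2.2.trans (by nlinarith [sq_nonneg ((kh_sq a p : ℝ) ^ 2)]))
      refine le_trans (le_of_eq ?_) h3
      simp only [Pi.smul_apply, smul_eq_mul]
      push_cast
      ring)
  rw [h.smul] at h1
  push_cast at h1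
  linarith

theorem mult (𝕜 : Type*) [RCLike 𝕜] (C : ℝ) : ∃ C' : ℝ, 0 < C' ∧
    ∀ (Q ι : Type) [Fintype Q] [DecidableEq Q] [Fintype ι] [DecidableEq ι]
      (μ : (Q → ℝ≥0) → ℝ), LM μ → LowQ μ C → ∀ (u a : ι → Q → 𝕜) (D : ℝ), 0 ≤ D →
      (∀ i p, ‖u i p‖ ≤ D * ‖a i p‖) →
      Ex hf (fun ε : ι → ℤˣ => μ (fun p => ‖∑ i, ε i • u i p‖₊)) ≤
        C' * D * Ex hf (fun ε : ι → ℤˣ => μ (fun p => ‖∑ i, ε i • a i p‖₊)) := by
  have hc : 0 ≤ |C| + 1 := by positivity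
  have hC : C ≤ (|C| + 1) ^ 3 := by
    have h1 := le_abs_self C
    have h2 := abs_nonneg C
    have h3 : |C| + 1 ≤ (|C| + 1) ^ 3 := le_self_pow₀ (by linarith) (by norm_num)
    linarith
  refine ⟨6 * (3 + 96 * (|C| + 1)), by positivity, ?_⟩
  intro Q ι _ _ _ _ μ h hL u a D hD hua
  have h1 := kh_upper h hL hc hC u
  have h2 := kh_lower h a
  have h3 : μ (kh_sq u) ≤ D * μ (kh_sq a) := by
    have h4 := h.smul ⟨D, hD⟩ (kh_sq a)
    refine (h.mono _ _ fun p => ?_).trans (le_of_eq h4)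
    rw [← NNReal.coe_le_coe]
    change (kh_sq u p : ℝ) ≤ D * kh_sq a p
    refine le_of_pow_le_pow_left₀ (n := 2) (by norm_num) (mul_nonneg hD (kh_sq a p).2) ?_
    rw [mul_pow, kh_sq_sq, kh_sq_sq, Finset.mul_sum]
    refine Finset.sum_le_sum fun i _ => ?_
    rw [← mul_pow]
    exact pow_le_pow_left₀ (norm_nonneg _) (hua i p) 2
  have h5 : (0 : ℝ) ≤ 3 + 96 * (|C| + 1) := by positivity
  calc _ ≤ (3 + 96 * (|C| + 1)) * μ (kh_sq u) := h1
    _ ≤ (3 + 96 * (|C| + 1)) * (D * μ (kh_sq a)) := mul_le_mul_of_nonneg_left h3 h5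
    _ ≤ (3 + 96 * (|C| + 1)) * (D * (6 * Ex hf
        (fun ε : ι → ℤˣ => μ (fun p => ‖∑ i, ε i • a i p‖₊)))) :=
      mul_le_mul_of_nonneg_left (mul_le_mul_of_nonneg_left h2 hD) h5
    _ = _ := by ring

end Pool.Agent.Lib.MP_435322_an.UD
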