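import Pool.Agent.Lib.MP_435322_an.ULat
import Pool.Agent.Lib.MP_435322_an.UL2
import Pool.Agent.Lib.MP_435322_an.UDich

/-! Spaces with an unconditional decomposition: assembling the proof. -/

namespace Pool.Agent.Lib.MP_435322_an.UD

open Finset Filter Pool.Agent.Lib.MP_435322_an
open scoped NNReal

universe u w

variable {𝕜 : Type w} [RCLike 𝕜] {W : Type u} [NormedAddCommGroup W] [NormedSpace 𝕜 W]

section leq
variable {ν : V → ℝ} {lift : V → W} {U : ℝ}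

theorem LEq.one (h : LEq 𝕜 ν lift U) (y : V) : ‖lift y‖ ≤ ν y ∧ ν y ≤ U * ‖lift y‖ := by
  have := h Unit (fun _ => y) (fun _ _ _ _ _ => rfl) (fun _ => 1)
  simpa [cmb] using this

theorem norm_sg (e : ℤˣ) : ‖((sg e : ℝ) : 𝕜)‖₊ = 1 := by
  rcases Int.units_eq_one_or e with rfl | rfl <;> simp [sg]

theorem LEq.sign (h : LEq 𝕜 ν lift U) {k : ℕ} {y : Fin k → V} (hy : Dj y) (b : Fin k → ℝ≥0)
    (ε : Fin k → ℤˣ) : ‖∑ j, ε j • (((b j : ℝ) : 𝕜) • lift (y j))‖ ≤ ν (cmb b y) ∧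
      ν (cmb b y) ≤ U * ‖∑ j, ε j • (((b j : ℝ) : 𝕜) • lift (y j))‖ := by
  have h1 := h (Fin k) y hy (fun j => ((sg (ε j) : ℝ) : 𝕜) * ((b j : ℝ) : 𝕜))
  have h2 : (fun j => ‖((sg (ε j) : ℝ) : 𝕜) * ((b j : ℝ) : 𝕜)‖₊) = b := by
    funext j
    rw [nnnorm_mul, norm_sg, one_mul]
    apply NNReal.eq
    simp
  have h3 : ∑ j, ε j • (((b j : ℝ) : 𝕜) • lift (y j))
      = ∑ j, (((sg (ε j) : ℝ) : 𝕜) * ((b j : ℝ) : 𝕜)) • lift (y j) :=
    Finset.sum_congr rfl fun j _ => by rw [units_smul_eq (𝕜 := 𝕜), smul_smul]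
  rw [h2] at h1
  rw [h3]
  exact h1

theorem LEq.rad (hν : LN ν) (h : LEq 𝕜 ν lift U) {k : ℕ} {y : Fin k → V} (hy : Dj y)
    (b : Fin k → ℝ≥0) :
    rad (nq W) (fun j => ((b j : ℝ) : 𝕜) • lift (y j)) ≤ ν (cmb b y) ^ 2 ∧
    ν (cmb b y) ^ 2 ≤ U ^ 2 * rad (nq W) (fun j => ((b j : ℝ) : 𝕜) • lift (y j)) := by
  constructor
  · rw [← Ex_const (ι := Fin k) isW_hf (ν (cmb b y) ^ 2)]
    exact Ex_mono isW_hf fun ε => pow_le_pow_left₀ (norm_nonneg _) (h.sign hy b ε).1 2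
  · rw [← Ex_const (ι := Fin k) isW_hf (ν (cmb b y) ^ 2)]
    unfold Pool.Agent.Lib.MP_435322_an.rad
    rw [← Ex_mul]
    refine Ex_mono isW_hf fun ε => ?_
    have := pow_le_pow_left₀ (hν.nonneg _) (h.sign hy b ε).2 2
    rwa [mul_pow] at this

theorem cmb_one {k : ℕ} (y : Fin k → V) : cmb 1 y = ∑ j, y j := by simp [cmb]

theorem LEq.rad1 (hν : LN ν) (h : LEq 𝕜 ν lift U) (hU : 0 ≤ U) {k : ℕ} {y : Fin k → V}
    (hy : Dj y) :
    √((∑ ε : Fin k → ℤˣ, ‖∑ i, ε i • lift (y i)‖ ^ 2) / 2 ^ k) ≤ ν (∑ j, y j) ∧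
    ν (∑ j, y j) ≤ U * √((∑ ε : Fin k → ℤˣ, ‖∑ i, ε i • lift (y i)‖ ^ 2) / 2 ^ k) := by
  have h1 := h.rad hν hy 1
  simp only [Pi.one_apply, NNReal.coe_one, RCLike.ofReal_one, one_smul, cmb_one] at h1
  rw [rad_eq]
  constructor
  · exact Real.sqrt_le_iff.2 ⟨hν.nonneg _, h1.1⟩
  · rw [← Real.sqrt_sq hU, ← Real.sqrt_mul (sq_nonneg _)]
    exact Real.le_sqrt_of_sq_le h1.2

theorem pow_rpow_eq (r : ℕ) (s : ℝ) : (((4 ^ r : ℕ) : ℝ)) ^ (1 / 2 + s) = (2 * 4 ^ s) ^ r := by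
  have h4 : (4 : ℝ) ^ (1 / 2 : ℝ) = 2 := by
    rw [show (4 : ℝ) = 2 ^ (2 : ℝ) by norm_num, ← Real.rpow_mul (by norm_num)]; norm_num
  rw [← h4, ← Real.rpow_add (by norm_num), Nat.cast_pow, ← Real.rpow_natCast,
    ← Real.rpow_natCast, ← Real.rpow_mul (by norm_num), ← Real.rpow_mul (by norm_num), mul_comm]
  norm_num

theorem LEq.nh (hν : LN ν) (h : LEq 𝕜 ν lift U) (hU : 1 ≤ U)
    (htype : ∀ p : ℝ, 1 ≤ p → p < 2 → HasType W p) (hcot : ∀ q : ℝ, 2 < q → HasCotype W q) :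
    NH ν := by
  intro lam hlam
  obtain ⟨s, hs0, hs1, hs2⟩ : ∃ s : ℝ, 0 < s ∧ s < 1 / 2 ∧ (4 : ℝ) ^ s ≤ lam := by
    have hc : ContinuousAt (fun s : ℝ => (4 : ℝ) ^ s) 0 :=
      (Real.continuous_const_rpow (by norm_num)).continuousAt
    have h1 : ∀ᶠ s in nhds (0 : ℝ), (4 : ℝ) ^ s < lam :=
      hc.eventually (gt_mem_nhds (by simpa only [Real.rpow_zero] using hlam))
    have h2 : ∀ᶠ s in nhds (0 : ℝ), s < 1 / 2 := gt_mem_nhds (by norm_num)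
    obtain ⟨s, ⟨h3, h4⟩, h5⟩ := (((h1.and h2).filter_mono nhdsWithin_le_nhds).and
      (self_mem_nhdsWithin (s := Set.Ioi (0 : ℝ)))).exists
    exact ⟨s, h5, h4, h3.le⟩
  have hp0 : 0 < 1 / 2 + s := by linarith
  have hq0 : 0 < 1 / 2 - s := by linarith
  obtain ⟨C1, hC1⟩ := htype (1 / (1 / 2 + s)) (by rw [le_div_iff₀ hp0]; linarith)
    (by rw [div_lt_iff₀ hp0]; linarith)
  obtain ⟨C2, hC2⟩ := hcot (1 / (1 / 2 - s)) (by rw [lt_div_iff₀ hq0]; linarith)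
  have hU0 : 0 ≤ U := by linarith
  have h4s : (0 : ℝ) < 4 ^ s := by positivity
  refine ⟨U * (|C1| + |C2|), fun r y hy => ⟨fun h1 => ?_, fun h1 => ?_⟩⟩
  · have h2 := hC1 _ (fun j => lift (y j))
    rw [one_div_one_div] at h2
    have h3 : ∑ j, ‖lift (y j)‖ ^ (1 / (1 / 2 + s)) ≤ ((4 ^ r : ℕ) : ℝ) := by
      have := Finset.sum_le_card_nsmul Finset.univ (fun j => ‖lift (y j)‖ ^ (1 / (1 / 2 + s))) 1
        (fun j _ => Real.rpow_le_one (norm_nonneg _) ((h.one _).1.trans (h1 j)) (by positivity))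
      simpa using this
    have h4 := Real.rpow_le_rpow (by positivity) h3 hp0.le
    rw [pow_rpow_eq] at h4
    have h5 : ((2 : ℝ) * 4 ^ s) ^ r ≤ lam ^ r * 2 ^ r := by
      rw [← mul_pow]
      exact pow_le_pow_left₀ (by positivity) (by linarith) r
    have h6 := (h.rad1 hν hU0 hy).2
    have h7 : C1 * (∑ j, ‖lift (y j)‖ ^ (1 / (1 / 2 + s))) ^ (1 / 2 + s)
        ≤ (|C1| + |C2|) * (lam ^ r * 2 ^ r) :=
      mul_le_mul ((le_abs_self _).trans (le_add_of_nonneg_right (abs_nonneg _))) (h4.trans h5)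
        (by positivity) (by positivity)
    calc ν (∑ j, y j) ≤ U * ((|C1| + |C2|) * (lam ^ r * 2 ^ r)) :=
          h6.trans (mul_le_mul_of_nonneg_left (h2.trans h7) hU0)
      _ = _ := by ring
  · have h2 := hC2 _ (fun j => lift (y j))
    rw [one_div_one_div] at h2
    have hU' : 0 < U := by linarith
    have h3 : ((4 ^ r : ℕ) : ℝ) * U⁻¹ ^ (1 / (1 / 2 - s))
        ≤ ∑ j, ‖lift (y j)‖ ^ (1 / (1 / 2 - s)) := by
      have := Finset.card_nsmul_le_sum Finset.univ (fun j => ‖lift (y j)‖ ^ (1 / (1 / 2 - s)))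
        (U⁻¹ ^ (1 / (1 / 2 - s))) (fun j _ => Real.rpow_le_rpow (by positivity)
          (by rw [inv_le_iff_one_le_mul₀' hU']; exact (h1 j).trans (h.one _).2) (by positivity))
      simpa using this
    have h4 := Real.rpow_le_rpow (by positivity) h3 hq0.le
    rw [Real.mul_rpow (by positivity) (by positivity), ← Real.rpow_mul (by positivity),
      one_div_mul_cancel hq0.ne', Real.rpow_one, sub_eq_add_neg, pow_rpow_eq] at h4
    rw [sub_eq_add_neg] at h2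
    have h6 := (h.rad1 hν hU0 hy).1
    have h7 : ((2 : ℝ) * 4 ^ (-s)) ^ r * U⁻¹ ≤ (|C1| + |C2|) * ν (∑ j, y j) :=
      h4.trans (h2.trans (mul_le_mul
        ((le_abs_self _).trans (le_add_of_nonneg_left (abs_nonneg _))) h6 (by positivity)
        (by positivity)))
    have h8 : (2 : ℝ) ^ r ≤ lam ^ r * (2 * 4 ^ (-s)) ^ r := by
      rw [← mul_pow]
      gcongr
      rw [Real.rpow_neg (by norm_num)]
      have : 1 ≤ lam * (4 ^ s)⁻¹ := by rw [← div_eq_mul_inv, le_div_iff₀ h4s]; linarith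
      nlinarith
    rw [mul_inv_le_iff₀ hU'] at h7
    calc (2 : ℝ) ^ r ≤ lam ^ r * ((|C1| + |C2|) * ν (∑ j, y j) * U) :=
          h8.trans (mul_le_mul_of_nonneg_left h7 (by positivity))
      _ = _ := by ring

theorem LEq.low3 (hν : LN ν) (h : LEq 𝕜 ν lift U) (hU : 1 ≤ U) (hcot : HasCotype W 3) :
    Low3 ν := by
  obtain ⟨C, hC⟩ := hcot
  have hU0 : 0 ≤ U := by linarith
  refine ⟨U ^ 3 * |C| ^ 3, fun n y hy => ?_⟩
  have h2 := hC _ (fun j => lift (y j))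
  have h6 := (h.rad1 hν hU0 hy).1
  have h7 : (∑ j, ‖lift (y j)‖ ^ (3 : ℝ)) ^ (1 / 3 : ℝ) ≤ |C| * ν (∑ j, y j) :=
    h2.trans (mul_le_mul (le_abs_self _) h6 (by positivity) (by positivity))
  have h8 := pow_le_pow_left₀ (by positivity) h7 3
  rw [← Real.rpow_natCast, ← Real.rpow_mul (by positivity)] at h8
  norm_num at h8
  have h9 : ∑ j, ν (y j) ^ 3 ≤ U ^ 3 * ∑ j, ‖lift (y j)‖ ^ 3 := by
    rw [Finset.mul_sum]
    refine Finset.sum_le_sum fun j _ => ?_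
    rw [← mul_pow]
    exact pow_le_pow_left₀ (hν.nonneg _) (h.one _).2 3
  calc _ ≤ U ^ 3 * (|C| * ν (∑ j, y j)) ^ 3 :=
        h9.trans (mul_le_mul_of_nonneg_left h8 (by positivity))
    _ = _ := by ring

theorem fam_of_l2 [CompleteSpace W] (hν : LN ν) (h : LEq 𝕜 ν lift U) (hU : 1 ≤ U)
    (hcot : ∀ q : ℝ, 2 < q → HasCotype W q) (hL : L2 ν) : Fam 𝕜 W := by
  classical
  obtain ⟨C, F, hF1, hF2, hF3, hF4, hF5⟩ := hL
  let G : ℕ → Submodule 𝕜 W := fun k => Submodule.span 𝕜 (Set.range fun g => lift ((F k).y g))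
  have hfin : ∀ k, FiniteDimensional 𝕜 (G k) := fun k =>
    FiniteDimensional.span_of_finite 𝕜 (Set.finite_range _)
  have hU0 : 0 ≤ U := by linarith
  refine l2_family G (fun k => (G k).closed_of_finiteDimensional) (C := U ^ 2 * |C|)
    (fun σ z hz => ?_) hcot (fun K N => ?_)
  · choose c hc using fun k => (Submodule.mem_span_range_iff_exists_fun 𝕜).1 (hz k)
    let x : ℕ → V := fun k => cmb (fun g => ‖c k g‖₊) (F k).y
    have h1 : ∀ k, ‖z k‖ ≤ ν (x k) ∧ ν (x k) ≤ U * ‖z k‖ := fun k => by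
      rw [← hc k]; exact h _ _ (hF1 k).2.1 _
    have hd : Dj (fun p : Σ k : σ, Fin (F k).d => (F p.1).y p.2) := by
      rintro n ⟨⟨k, hk⟩, i⟩ ⟨⟨k', hk'⟩, i'⟩ hp hq
      obtain rfl := hF2 n k k' i i' hp hq
      obtain rfl := (hF1 k).2.1 n i i' hp hq
      rfl
    have h2 := h _ _ hd (fun p => c p.1 p.2)
    have h3 : ∑ p : Σ k : σ, Fin (F k).d, c p.1 p.2 • lift ((F p.1).y p.2) = ∑ k ∈ σ, z k := by
      rw [Fintype.sum_sigma, ← Finset.sum_coe_sort σ z]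
      exact Finset.sum_congr rfl fun k _ => hc k
    have h4 : cmb (fun p : Σ k : σ, Fin (F k).d => ‖c p.1 p.2‖₊) (fun p => (F p.1).y p.2)
        = ∑ k ∈ σ, x k := by
      unfold cmb
      rw [Fintype.sum_sigma, ← Finset.sum_coe_sort σ x]
      rfl
    rw [h3, h4] at h2
    have h5 := hF4 σ x fun k _ => ⟨_, rfl⟩
    have h6 := hF5 σ x fun k _ => ⟨_, rfl⟩
    have h7 : ∑ k ∈ σ, ν (x k) ^ 2 ≤ U ^ 2 * ∑ k ∈ σ, ‖z k‖ ^ 2 := by
      rw [Finset.mul_sum]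
      refine Finset.sum_le_sum fun k _ => ?_
      rw [← mul_pow]
      exact pow_le_pow_left₀ (hν.nonneg _) (h1 k).2 2
    have h8 : ∑ k ∈ σ, ‖z k‖ ^ 2 ≤ ∑ k ∈ σ, ν (x k) ^ 2 :=
      Finset.sum_le_sum fun k _ => pow_le_pow_left₀ (norm_nonneg _) (h1 k).1 2
    have h9 := pow_le_pow_left₀ (norm_nonneg _) h2.1 2
    have h10 := pow_le_pow_left₀ (hν.nonneg _) h2.2 2
    have h11 : 0 ≤ ∑ k ∈ σ, ν (x k) ^ 2 := Finset.sum_nonneg fun _ _ => sq_nonneg _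
    constructor
    · calc _ ≤ |C| * ∑ k ∈ σ, ν (x k) ^ 2 :=
            h9.trans (h5.trans (mul_le_mul_of_nonneg_right (le_abs_self _) h11))
        _ ≤ |C| * (U ^ 2 * ∑ k ∈ σ, ‖z k‖ ^ 2) := mul_le_mul_of_nonneg_left h7 (abs_nonneg _)
        _ = _ := by ring
    · calc _ ≤ |C| * ν (∑ k ∈ σ, x k) ^ 2 :=
            h8.trans (h6.trans (mul_le_mul_of_nonneg_right (le_abs_self _) (sq_nonneg _)))
        _ ≤ |C| * (U * ‖∑ k ∈ σ, z k‖) ^ 2 := mul_le_mul_of_nonneg_left h10 (abs_nonneg _)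
        _ = _ := by ring
  · obtain ⟨n0, hn0⟩ := exists_nat_ge (U ^ 2 * |K|)
    refine ⟨max N n0, le_max_left _ _, ?_⟩
    set n := max N n0
    have hn : U ^ 2 * |K| ≤ n := hn0.trans (by exact_mod_cast le_max_right _ _)
    by_contra hcon
    push Not at hcon
    obtain ⟨b, hb⟩ := hF3 n
    let x : Fin (F n).d → G n := fun g => ⟨((b g : ℝ) : 𝕜) • lift ((F n).y g),
      Submodule.smul_mem _ _ (Submodule.subset_span ⟨g, rfl⟩)⟩
    have e1 : rad (nq (G n)) x = rad (nq W) (fun g => ((b g : ℝ) : 𝕜) • lift ((F n).y g)) :=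
      (rad_map (G n).subtype.toAddMonoidHom (nq W) x).symm
    have e2 : ∀ g, nq (G n) (x g) = (b g : ℝ) ^ 2 * ‖lift ((F n).y g)‖ ^ 2 := fun g => by
      show ‖((b g : ℝ) : 𝕜) • lift ((F n).y g)‖ ^ 2 = _
      rw [norm_smul, RCLike.norm_ofReal, mul_pow, sq_abs]
    have e3 : ∑ g, nq (G n) (x g) ≤ ssq b := Finset.sum_le_sum fun g _ => by
      rw [e2]
      have := pow_le_pow_left₀ (norm_nonneg _) ((h.one ((F n).y g)).1.trans ((hF1 n).1 g).le) 2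
      nlinarith [sq_nonneg (b g : ℝ)]
    have e4 : ssq b ≤ U ^ 2 * ∑ g, nq (G n) (x g) := by
      rw [Finset.mul_sum]
      refine Finset.sum_le_sum fun g _ => ?_
      rw [e2]
      have := pow_le_pow_left₀ zero_le_one (((hF1 n).1 g).symm.le.trans (h.one ((F n).y g)).2) 2
      nlinarith [sq_nonneg (b g : ℝ)]
    have r := h.rad hν (hF1 n).2.1 b
    rw [← e1] at r
    have t1 := (hcon true (F n).d).const nq_nonneg (le_abs_self K) _ le_rfl x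
    have t2 := (hcon false (F n).d).const nq_nonneg (le_abs_self K) _ le_rfl x
    simp only [Ineq, if_true, Bool.false_eq_true, if_false] at t1 t2
    have hK := abs_nonneg K
    have hU2 : 0 ≤ U ^ 2 := sq_nonneg _
    rcases hb with hb | hb
    · have : ν (cmb b (F n).y) ^ 2 ≤ U ^ 2 * |K| * ssq b := by
        rw [mul_assoc]
        exact r.2.trans (mul_le_mul_of_nonneg_left
          (t1.trans (mul_le_mul_of_nonneg_left e3 hK)) hU2)
      nlinarith [ssq_nonneg b]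
    · have : ssq b ≤ U ^ 2 * |K| * ν (cmb b (F n).y) ^ 2 := by
        rw [mul_assoc]
        exact e4.trans (mul_le_mul_of_nonneg_left
          (t2.trans (mul_le_mul_of_nonneg_left r.1 hK)) hU2)
      nlinarith [sq_nonneg (ν (cmb b (F n).y))]

end leq

/-- two-sided l2 estimate on a tail of the decomposition -/
def TS (P : ℕ → W →L[𝕜] W) (N : ℕ) (C : ℝ) : Prop :=
  ∀ (σ : Finset ℕ) (z : ℕ → W), (∀ n ∈ σ, N ≤ n) → (∀ n, P n (z n) = z n) →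
    ‖∑ n ∈ σ, z n‖ ^ 2 ≤ C * ∑ n ∈ σ, ‖z n‖ ^ 2 ∧ ∑ n ∈ σ, ‖z n‖ ^ 2 ≤ C * ‖∑ n ∈ σ, z n‖ ^ 2

theorem TS.shift {P : ℕ → W →L[𝕜] W} {N : ℕ} {C : ℝ} (h : TS P N C) {M : ℕ} (hM : N ≤ M)
    (σ : Finset ℕ) (z : ℕ → W) (hz : ∀ n, P (n + M) (z n) = z n) :
    ‖∑ n ∈ σ, z n‖ ^ 2 ≤ |C| * ∑ n ∈ σ, ‖z n‖ ^ 2 ∧
      ∑ n ∈ σ, ‖z n‖ ^ 2 ≤ |C| * ‖∑ n ∈ σ, z n‖ ^ 2 := by
  have hi : Function.Injective (fun n => n + M) := add_left_injective M
  have h1 := h (σ.map ⟨_, hi⟩) (fun n => if M ≤ n then z (n - M) else 0)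
    (fun n hn => by
      obtain ⟨k, -, rfl⟩ := Finset.mem_map.1 hn
      exact hM.trans (Nat.le_add_left _ _))
    (fun n => by
      split_ifs with h2
      · have := hz (n - M)
        rwa [Nat.sub_add_cancel h2] at this
      · exact map_zero _)
  simp only [Finset.sum_map, Function.Embedding.coeFn_mk, Nat.le_add_left, if_true,
    Nat.add_sub_cancel] at h1
  exact ⟨h1.1.trans (mul_le_mul_of_nonneg_right (le_abs_self _)
    (Finset.sum_nonneg fun _ _ => sq_nonneg _)),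
    h1.2.trans (mul_le_mul_of_nonneg_right (le_abs_self _) (sq_nonneg _))⟩

theorem fam_of_ts [CompleteSpace W] {P : ℕ → W →L[𝕜] W} (hP1 : ∀ i x, P i (P i x) = P i x)
    (hs : ∀ x, HasSum (fun n => P n x) x) {U : ℝ}
    (hU : ∀ (σ : Finset ℕ) (x : W), ‖∑ n ∈ σ, P n x‖ ≤ U * ‖x‖)
    (hcot : ∀ q : ℝ, 2 < q → HasCotype W q)
    (htail : ∀ N : ℕ, ¬ IsHilbertian 𝕜 (⨅ n : Fin N, (P n).ker : Submodule 𝕜 W))
    {N : ℕ} {C : ℝ} (h : TS P N C) : Fam 𝕜 W := by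
  let G : ℕ → Submodule 𝕜 W := fun k => (P (k + N) - ContinuousLinearMap.id 𝕜 W).ker
  have hG : ∀ k z, z ∈ G k ↔ P (k + N) z = z := fun k z => by
    show (P (k + N) - ContinuousLinearMap.id 𝕜 W) z = 0 ↔ _
    rw [_root_.sub_apply, sub_eq_zero]; rfl
  refine l2_family G (fun k => ContinuousLinearMap.isClosed_ker _) (C := |C|)
    (fun σ z hz => h.shift le_rfl σ z fun n => (hG n _).1 (hz n)) hcot (fun K N' => ?_)
  by_contra hcon
  push Not at hcon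
  set M := N' + N with hM
  let T : Submodule 𝕜 W := ⨅ n : Fin M, (P n).ker
  have hTc : IsClosed (T : Set W) := by
    show IsClosed ((⨅ n : Fin M, (P n).ker : Submodule 𝕜 W) : Set W)
    rw [Submodule.coe_iInf]
    exact isClosed_iInter fun n => ContinuousLinearMap.isClosed_ker _
  have : CompleteSpace T := hTc.completeSpace_coe
  have hsh := fun (x : W) (σ : Finset ℕ) => h.shift (M := M) (by omega) σ
    (fun n => P (n + M) x) (fun n => hP1 _ _)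
  have hb : ∀ (x : W) (σ : Finset ℕ), ∑ n ∈ σ, ‖P (n + M) x‖ ^ 2 ≤ |C| * U ^ 2 * ‖x‖ ^ 2 := by
    intro x σ
    have h1 := hU (σ.map ⟨_, add_left_injective M⟩) x
    rw [Finset.sum_map] at h1
    have h2 := pow_le_pow_left₀ (norm_nonneg _) h1 2
    rw [mul_pow] at h2
    rw [mul_assoc]
    exact (hsh x σ).2.trans (mul_le_mul_of_nonneg_left h2 (abs_nonneg _))
  have hsm : ∀ x : W, Summable fun n => ‖P (n + M) x‖ ^ 2 := fun x =>
    summable_of_sum_le (fun _ => sq_nonneg _) (hb x)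
  have hlow : ∀ x : T, ‖(x : W)‖ ^ 2 ≤ |C| * ∑' n, ‖P (n + M) x‖ ^ 2 := by
    intro x
    have h0 : ∑ i ∈ Finset.range M, P i (x : W) = 0 := Finset.sum_eq_zero fun i hi =>
      (Submodule.mem_iInf _).1 x.2 ⟨i, Finset.mem_range.1 hi⟩
    have h1 := (hasSum_nat_add_iff' (f := fun n => P n (x : W)) M).2 (hs x)
    rw [h0, sub_zero] at h1
    refine le_of_tendsto' ((h1.tendsto_sum_nat.norm).pow 2) fun k => ?_
    exact (hsh x _).1.trans (mul_le_mul_of_nonneg_left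
      ((hsm x).sum_le_tsum _ fun _ _ => sq_nonneg _) (abs_nonneg _))
  have key : ∀ b m, Inv b (nq T) m (max (|C| * (|C| * U ^ 2) * |K|) 1) := by
    intro b m
    have h1 : Inv b (fun x : T => ∑' n, ‖P (n + M) x‖ ^ 2) m |K| := by
      refine Inv.hasSum (qq := fun n (x : T) => ‖P (n + M) x‖ ^ 2) (fun x => (hsm x).hasSum)
        fun n => ?_
      have e : n + N' + N = n + M := by omega
      let pr : T →L[𝕜] G (n + N') :=
        ((P (n + M)).comp T.subtypeL).codRestrict (G (n + N')) (fun x => by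
          rw [hG, e]; exact hP1 _ _)
      have := Inv.transfer (q := fun x : T => ‖P (n + M) x‖ ^ 2)
        (pr : T →ₗ[𝕜] G (n + N')).toAddMonoidHom zero_le_one zero_le_one
        (fun w => by rw [one_mul]; exact le_rfl) (fun w => by rw [one_mul]; exact le_rfl)
        (abs_nonneg K)
        ((hcon (n + N') (Nat.le_add_left _ _) b m).const nq_nonneg (le_abs_self K))
      simpa using this
    have h2 := Inv.transfer (q := nq T) (AddMonoidHom.id T) (abs_nonneg C)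
      (β := |C| * U ^ 2) (by positivity) hlow
      (fun x => (hsm x).tsum_le_of_sum_le (hb x)) (abs_nonneg K) h1
    exact h2.const nq_nonneg (le_max_left _ _)
  exact htail M (kwapien (le_max_right _ _) (key true) (key false))

theorem lattice_of_not_ts {P : ℕ → W →L[𝕜] W} (h : ∀ N C, ¬ TS P N C) :
    ∃ e : ℕ → W, (∀ n, P n (e n) = e n) ∧ ∀ (D : ℝ) (m : ℕ), ∃ σ : Finset ℕ, (∀ n ∈ σ, m ≤ n) ∧
      (D * ∑ n ∈ σ, ‖e n‖ ^ 2 < ‖∑ n ∈ σ, e n‖ ^ 2 ∨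
        D * ‖∑ n ∈ σ, e n‖ ^ 2 < ∑ n ∈ σ, ‖e n‖ ^ 2) := by
  classical
  obtain ⟨m, o, -, h1, h2⟩ := sel_nat (α := Finset ℕ × (ℕ → W)) (fun j a b o =>
    (∀ n ∈ o.1, a ≤ n ∧ n < b) ∧ (∀ n, P n (o.2 n) = o.2 n) ∧
      ((j : ℝ) * ∑ n ∈ o.1, ‖o.2 n‖ ^ 2 < ‖∑ n ∈ o.1, o.2 n‖ ^ 2 ∨
        (j : ℝ) * ‖∑ n ∈ o.1, o.2 n‖ ^ 2 < ∑ n ∈ o.1, ‖o.2 n‖ ^ 2)) 0 (fun j a => by
    have h3 := h a j
    simp only [TS, not_forall, not_and_or, not_le] at h3
    obtain ⟨σ, z, h4, h5, h6⟩ := h3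
    refine ⟨(σ, z), max a (σ.sup id) + 1, by omega, fun n hn => ⟨h4 n hn, ?_⟩, h5, h6⟩
    have : n ≤ σ.sup id := Finset.le_sup (f := id) hn
    omega)
  have huniq : ∀ n j j', n ∈ (o j).1 → n ∈ (o j').1 → j = j' := fun n j j' a b => by
    have h4 := h1.lt_iff_lt.1 (((h2 j).1 n a).1.trans_lt ((h2 j').1 n b).2)
    have h5 := h1.lt_iff_lt.1 (((h2 j').1 n b).1.trans_lt ((h2 j).1 n a).2)
    omega
  let e : ℕ → W := fun n => if hn : ∃ j, n ∈ (o j).1 then (o hn.choose).2 n else 0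
  have he : ∀ j, ∀ n ∈ (o j).1, e n = (o j).2 n := fun j n hn => by
    have h3 : ∃ j, n ∈ (o j).1 := ⟨j, hn⟩
    show (if hn : ∃ j, n ∈ (o j).1 then (o hn.choose).2 n else 0) = _
    rw [dif_pos h3, huniq n _ j h3.choose_spec hn]
  refine ⟨e, fun n => ?_, fun D a => ?_⟩
  · show P n (if hn : ∃ j, n ∈ (o j).1 then (o hn.choose).2 n else 0)
      = if hn : ∃ j, n ∈ (o j).1 then (o hn.choose).2 n else 0
    split_ifs with h3
    · exact (h2 _).2.1 n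
    · exact map_zero _
  · obtain ⟨j0, hj0⟩ := exists_nat_ge D
    have hD : D ≤ (max a j0 : ℕ) := hj0.trans (by exact_mod_cast le_max_right _ _)
    refine ⟨(o (max a j0)).1, fun n hn => (le_max_left a j0).trans
      ((h1.id_le _).trans ((h2 _).1 n hn).1), ?_⟩
    rw [Finset.sum_congr rfl (he (max a j0)),
      Finset.sum_congr rfl (fun n hn => by rw [he (max a j0) n hn] :
        ∀ n ∈ (o (max a j0)).1, ‖e n‖ ^ 2 = ‖(o (max a j0)).2 n‖ ^ 2)]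
    rcases (h2 (max a j0)).2.2 with h3 | h3
    · exact Or.inl ((mul_le_mul_of_nonneg_right hD
        (Finset.sum_nonneg fun _ _ => sq_nonneg _)).trans_lt h3)
    · exact Or.inr ((mul_le_mul_of_nonneg_right hD (sq_nonneg _)).trans_lt h3)

theorem tw_single (e : ℕ → W) (n : ℕ) : tw e (1 : ℕ → 𝕜) (Finsupp.single n 1) = e n := by
  rw [tw_eq e _ _ Finsupp.support_single_subset]; simp

theorem nhb_nu {e : ℕ → W} {U : ℝ} (h : LEq 𝕜 (nu 𝕜 e) (tw e (1 : ℕ → 𝕜)) U)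
    (hd : ∀ (D : ℝ) (m : ℕ), ∃ σ : Finset ℕ, (∀ n ∈ σ, m ≤ n) ∧
      (D * ∑ n ∈ σ, ‖e n‖ ^ 2 < ‖∑ n ∈ σ, e n‖ ^ 2 ∨
        D * ‖∑ n ∈ σ, e n‖ ^ 2 < ∑ n ∈ σ, ‖e n‖ ^ 2)) : NHb (nu 𝕜 e) := by
  classical
  intro D m
  have hν := ln_nu (𝕜 := 𝕜) e
  obtain ⟨σ, h1, h2⟩ := hd (|D| * U ^ 2) m
  have hs : ∀ n p : ℕ, (Finsupp.single p 1 : V) n ≠ 0 → p = n := fun n p hp => by
    by_contra h0; exact hp (Finsupp.single_eq_of_ne' h0)
  obtain ⟨k, -, y, b, hy, e1, e2⟩ := normalize_fam hν σ (fun n => Finsupp.single n 1) m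
    (fun n p q _ _ hp hq => (hs n p hp).trans (hs n q hq).symm)
    (fun i hi n hn => hs n i hn ▸ h1 i hi)
  refine ⟨k, y, hy, Dev.mono (D := |D|) ⟨b, ?_⟩ (le_abs_self D)⟩
  have h3 := h σ (fun n => Finsupp.single n 1)
    (fun n p q hp hq => Subtype.ext ((hs n p hp).trans (hs n q hq).symm)) (fun _ => 1)
  simp only [tw_single, one_smul, nnnorm_one, cmb] at h3
  rw [Finset.sum_coe_sort σ e, Finset.sum_coe_sort σ (fun n => (Finsupp.single n 1 : V))] at h3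
  have h4 : ∀ n, ‖e n‖ ≤ nu 𝕜 e (Finsupp.single n 1) ∧ nu 𝕜 e (Finsupp.single n 1) ≤ U * ‖e n‖ :=
    fun n => by have := h.one (Finsupp.single n 1); rwa [tw_single] at this
  have h5 : ∑ n ∈ σ, nu 𝕜 e (Finsupp.single n 1) ^ 2 ≤ U ^ 2 * ∑ n ∈ σ, ‖e n‖ ^ 2 := by
    rw [Finset.mul_sum]
    refine Finset.sum_le_sum fun n _ => ?_
    rw [← mul_pow]
    exact pow_le_pow_left₀ (hν.nonneg _) (h4 n).2 2
  have h6 : ∑ n ∈ σ, ‖e n‖ ^ 2 ≤ ∑ n ∈ σ, nu 𝕜 e (Finsupp.single n 1) ^ 2 :=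
    Finset.sum_le_sum fun n _ => pow_le_pow_left₀ (norm_nonneg _) (h4 n).1 2
  have h7 := pow_le_pow_left₀ (norm_nonneg _) h3.1 2
  have h8 := pow_le_pow_left₀ (hν.nonneg _) h3.2 2
  rw [mul_pow] at h8
  rw [e1, e2]
  rcases h2 with h2 | h2
  · left
    have := mul_le_mul_of_nonneg_left h5 (abs_nonneg D)
    linarith
  · right
    have := mul_le_mul_of_nonneg_left h8 (abs_nonneg D)
    linarith

theorem fam_main [CompleteSpace W] (P : ℕ → W →L[𝕜] W) (hP1 : ∀ i x, P i (P i x) = P i x)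
    (hP2 : ∀ i j, i ≠ j → ∀ x, P i (P j x) = 0) (hs : ∀ x, HasSum (fun n => P n x) x)
    (htype : ∀ p : ℝ, 1 ≤ p → p < 2 → HasType W p) (hcot : ∀ q : ℝ, 2 < q → HasCotype W q)
    (htail : ∀ N : ℕ, ¬ IsHilbertian 𝕜 (⨅ n : Fin N, (P n).ker : Submodule 𝕜 W)) :
    Fam 𝕜 W := by
  obtain ⟨U, hU1, hU⟩ := uncond P hs
  have hU' : ∀ (σ : Finset ℕ) (x : W), ‖∑ n ∈ σ, P n x‖ ≤ U * ‖x‖ := fun σ x => by
    simpa using hU σ 1 (fun _ => by simp) x
  by_cases hT : ∃ N C, TS P N C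
  · obtain ⟨N, C, hT⟩ := hT
    exact fam_of_ts hP1 hs hU' hcot htail hT
  push Not at hT
  obtain ⟨e, he, hd⟩ := lattice_of_not_ts hT
  have hν := ln_nu (𝕜 := 𝕜) e
  have hL := leq_nu hP2 hs he hU
  rcases dich hν (hL.nh hν hU1 htype hcot) (nhb_nu hL hd) with hG | hG
  · refine gad_family P hP1 hP2 hs hU' hν (hL.low3 hν hU1 (hcot 3 (by norm_num))) _
      (fun g n hn => ?_) hL hG
    rw [P_tw hP2 he, hn]; simp
  · exact fam_of_l2 hν hL hU1 hcot hG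

end Pool.Agent.Lib.MP_435322_an.UD
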