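import Pool.Agent.Lib.MP_435322_an.UCov

/-! Spreading models of finite-dimensional cones. -/

namespace Pool.Agent.Lib.MP_435322_an.UD

open Finset
open scoped NNReal

/-- an asymptotic model: every step can be realised in every tail -/
def Mod (ν : V → ℝ) {d : ℕ} (R : V → List (Fin d → ℝ≥0) → ℝ) : Prop :=
  (∀ x, R x [] = ν x) ∧
  ∀ (S : Finset (V × (Fin d → ℝ≥0) × List (Fin d → ℝ≥0))) (ε : ℝ), 0 < ε → ∀ m : ℕ,
    ∃ T : Fin d → V, Dj T ∧ (∀ g, Tl m (T g)) ∧
      ∀ p ∈ S, |R p.1 (p.2.1 :: p.2.2) - R (p.1 + cmb p.2.1 T) p.2.2| ≤ ε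

variable {ν : V → ℝ} {d : ℕ} {R : V → List (Fin d → ℝ≥0) → ℝ}

/-- the one-step property for an indexed finite family -/
theorem um_step (hR : Mod ν R) {ι : Type} (s : Finset ι) (x : ι → V) (a : ι → Fin d → ℝ≥0)
    (L : ι → List (Fin d → ℝ≥0)) {ε : ℝ} (hε : 0 < ε) (m : ℕ) :
    ∃ T : Fin d → V, Dj T ∧ (∀ g, Tl m (T g)) ∧
      ∀ i ∈ s, |R (x i) (a i :: L i) - R (x i + cmb (a i) T) (L i)| ≤ ε := by
  classical
  obtain ⟨T, h1, h2, h3⟩ := hR.2 (s.image fun i => (x i, a i, L i)) ε hε m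
  exact ⟨T, h1, h2, fun i hi => h3 (x i, a i, L i) (Finset.mem_image_of_mem _ hi)⟩

/-- the one-step property for three triples -/
theorem um_step3 (hR : Mod ν R) (x y z : V) (a b c : Fin d → ℝ≥0)
    (A B L : List (Fin d → ℝ≥0)) {ε : ℝ} (hε : 0 < ε) :
    ∃ T : Fin d → V, |R x (a :: A) - R (x + cmb a T) A| ≤ ε ∧
      |R y (b :: B) - R (y + cmb b T) B| ≤ ε ∧ |R z (c :: L) - R (z + cmb c T) L| ≤ ε := by
  classical
  obtain ⟨T, -, -, h3⟩ := hR.2 {(x, a, A), (y, b, B), (z, c, L)} ε hε 0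
  exact ⟨T, h3 (x, a, A) (by simp), h3 (y, b, B) (by simp), h3 (z, c, L) (by simp)⟩

theorem um_le {p q : ℝ} (h : ∀ ε : ℝ, 0 < ε → p ≤ q + 3 * ε) : p ≤ q := by
  refine le_of_forall_pos_le_add fun ε hε => ?_
  have := h (ε / 3) (by positivity)
  linarith

theorem Mod.cov (h : LN ν) (hR : Mod ν R) {L A B : List (Fin d → ℝ≥0)} (hc : Cov L A B) :
    ∀ z x y : V, z ≤ x + y → R z L ≤ R x A + R y B := by
  induction hc with
  | nil =>
    intro z x y hz
    rw [hR.1, hR.1, hR.1]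
    exact h.le_add hz
  | @skipA L A B a _ ih =>
    intro z x y hz
    refine um_le fun ε hε => ?_
    obtain ⟨T, h1, -, -⟩ := um_step3 hR x x x a a a A A A hε
    have h4 := ih z (x + cmb a T) y (hz.trans (add_le_add_left le_self_add y))
    have h5 := abs_le.1 h1
    linarith [h5.1]
  | @skipB L A B b _ ih =>
    intro z x y hz
    refine um_le fun ε hε => ?_
    obtain ⟨T, h1, -, -⟩ := um_step3 hR y y y b b b B B B hε
    have h4 := ih z x (y + cmb b T) (hz.trans (add_le_add_right le_self_add x))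
    have h5 := abs_le.1 h1
    linarith [h5.1]
  | @useA L A B c a hca _ ih =>
    intro z x y hz
    refine um_le fun ε hε => ?_
    obtain ⟨T, h1, -, h3⟩ := um_step3 hR x x z a a c A A L hε
    have h4 := ih (z + cmb c T) (x + cmb a T) y (by
      calc z + cmb c T ≤ (x + y) + cmb a T := add_le_add hz (cmb_mono hca T)
        _ = x + cmb a T + y := by abel)
    have h5 := abs_le.1 h1
    have h6 := abs_le.1 h3
    linarith [h5.1, h6.2]
  | @useB L A B c b hcb _ ih =>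
    intro z x y hz
    refine um_le fun ε hε => ?_
    obtain ⟨T, h1, -, h3⟩ := um_step3 hR y y z b b c B B L hε
    have h4 := ih (z + cmb c T) x (y + cmb b T) (by
      calc z + cmb c T ≤ (x + y) + cmb b T := add_le_add hz (cmb_mono hcb T)
        _ = x + (y + cmb b T) := by abel)
    have h5 := abs_le.1 h1
    have h6 := abs_le.1 h3
    linarith [h5.1, h6.2]
  | @useAB L A B c a b hc _ ih =>
    intro z x y hz
    refine um_le fun ε hε => ?_
    obtain ⟨T, h1, h2, h3⟩ := um_step3 hR x y z a b c A B L hε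
    have h4 := ih (z + cmb c T) (x + cmb a T) (y + cmb b T) (by
      calc z + cmb c T ≤ (x + y) + cmb (a + b) T := add_le_add hz (cmb_mono hc T)
        _ = x + cmb a T + (y + cmb b T) := by rw [cmb_add]; abel)
    have h5 := abs_le.1 h1
    have h6 := abs_le.1 h3
    have h7 := abs_le.1 h2
    linarith [h5.1, h6.2, h7.1]

theorem um_eq {p q K : ℝ} (hK : 0 ≤ K) (h : ∀ ε : ℝ, 0 < ε → |p - q| ≤ K * ε) : p = q := by
  refine eq_of_forall_dist_le fun ε hε => ?_
  rw [Real.dist_eq]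
  refine (h (ε / (K + 1)) (by positivity)).trans ?_
  rw [← mul_div_assoc, div_le_iff₀ (by positivity)]
  nlinarith

theorem Mod.smul (h : LN ν) (hR : Mod ν R) (c : ℝ≥0) (L : List (Fin d → ℝ≥0)) :
    ∀ x : V, R (c • x) (L.map (c • ·)) = c * R x L := by
  induction L with
  | nil => intro x; rw [List.map_nil, hR.1, hR.1, h.smul]
  | cons a L ih =>
    intro x
    have hc : (0 : ℝ) ≤ c := c.2
    refine um_eq (K := 1 + c) (by positivity) fun ε hε => ?_
    obtain ⟨T, h1, h2, -⟩ := um_step3 hR (c • x) x x (c • a) a a (L.map (c • ·)) L L hε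
    rw [cmb_smul, ← smul_add, ih] at h1
    rw [List.map_cons]
    have h5 := abs_le.1 h1
    have h6 := abs_le.1 h2
    have h7 := mul_le_mul_of_nonneg_left h6.1 hc
    have h8 := mul_le_mul_of_nonneg_left h6.2 hc
    rw [abs_le]
    constructor <;> nlinarith [h5.1, h5.2]

theorem um_zero_cons (hR : Mod ν R) (x : V) (L : List (Fin d → ℝ≥0)) :
    R x (0 :: L) = R x L := by
  refine um_eq (K := 1) zero_le_one fun ε hε => ?_
  obtain ⟨T, h1, -, -⟩ := um_step3 hR x x x 0 0 0 L L L hε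
  rw [cmb_zero, add_zero] at h1
  linarith

theorem um_cons_congr (hR : Mod ν R) {L L' : List (Fin d → ℝ≥0)} (hL : ∀ x, R x L = R x L')
    (a : Fin d → ℝ≥0) (x : V) : R x (a :: L) = R x (a :: L') := by
  refine um_eq (K := 2) zero_le_two fun ε hε => ?_
  obtain ⟨T, h1, h2, -⟩ := um_step3 hR x x x a a a L L' L hε
  rw [hL] at h1
  have h5 := abs_le.1 h1
  have h6 := abs_le.1 h2
  rw [abs_le]
  constructor <;> linarith [h5.1, h5.2, h6.1, h6.2]

/-- zero entries may be removed -/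
theorem um_pad (hR : Mod ν R) {α : Type} (w : α → Fin d → ℝ≥0) {l l' : List α}
    (hl : l.Sublist l') : l'.Nodup → (∀ j ∈ l', j ∉ l → w j = 0) →
      ∀ x, R x (l'.map w) = R x (l.map w) := by
  induction hl with
  | slnil => intro _ _ x; rfl
  | @cons l l' a hs ih =>
    intro hn hw x
    rw [List.nodup_cons] at hn
    rw [List.map_cons, hw a List.mem_cons_self (fun ha => hn.1 (hs.subset ha)), um_zero_cons hR]
    exact ih hn.2 (fun j hj => hw j (List.mem_cons_of_mem _ hj)) x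
  | @cons_cons l l' a hs ih =>
    intro hn hw x
    rw [List.nodup_cons] at hn
    rw [List.map_cons, List.map_cons]
    refine um_cons_congr hR (ih hn.2 fun j hj hj' => hw j (List.mem_cons_of_mem _ hj) ?_) _ x
    rw [List.mem_cons, not_or]
    exact ⟨fun hja => hn.1 (hja ▸ hj), hj'⟩

/-- finite realisation of the model -/
theorem um_real (hR : Mod ν R) {ι : Type} (s : Finset ι) {ε : ℝ} (hε : 0 < ε) (n : ℕ) :
    ∀ (x : ι → V) (v : ι → Fin n → Fin d → ℝ≥0) (m : ℕ), ∃ T : ℕ → Fin d → V,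
      Dj (fun p : ℕ × Fin d => T p.1 p.2) ∧ (∀ j g, Tl m (T j g)) ∧
      ∀ i ∈ s, |R (x i) (List.ofFn (v i)) - ν (x i + ∑ j : Fin n, cmb (v i j) (T j))| ≤ n * ε := by
  induction n with
  | zero =>
    intro x v m
    refine ⟨fun _ _ => 0, fun n p q hp _ => (hp rfl).elim, fun j g n hn => (hn rfl).elim,
      fun i _ => ?_⟩
    simp [hR.1]
  | succ n ih =>
    intro x v m
    obtain ⟨T0, h1, h2, h3⟩ := um_step hR s x (fun i => v i 0)
      (fun i => List.ofFn fun j : Fin n => v i j.succ) hε m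
    obtain ⟨b, hb, hw⟩ := exists_win h2
    obtain ⟨T1, h4, h5, h6⟩ := ih (fun i => x i + cmb (v i 0) T0) (fun i j => v i j.succ) b
    refine ⟨fun j => Nat.casesOn j T0 T1, ?_, ?_, fun i hi => ?_⟩
    · rintro k ⟨j, g⟩ ⟨j', g'⟩ hp hq
      cases j with
      | zero =>
        cases j' with
        | zero => rw [h1 k g g' hp hq]
        | succ j' => exact absurd (hw g k hp).2 (not_lt.2 (h5 j' g' k hq))
      | succ j =>
        cases j' with
        | zero => exact absurd (hw g' k hq).2 (not_lt.2 (h5 j g k hp))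
        | succ j' =>
          have := h4 k (j, g) (j', g') hp hq
          rw [Prod.mk.injEq] at this
          rw [this.1, this.2]
    · intro j g
      cases j with
      | zero => exact h2 g
      | succ j => exact (h5 j g).mono hb.le
    · rw [List.ofFn_succ, Fin.sum_univ_succ, ← add_assoc]
      have h7 := abs_le.1 (h3 i hi)
      have h8 := abs_le.1 (h6 i hi)
      change |R (x i) (v i 0 :: List.ofFn fun j : Fin n => v i j.succ) -
        ν (x i + cmb (v i 0) T0 + ∑ j : Fin n, cmb (v i j.succ) (T1 j))| ≤ _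
      rw [abs_le]
      push_cast
      constructor <;> linarith [h7.1, h7.2, h8.1, h8.2]

/-- monotone sublinear functional on a finite-dimensional cone -/
structure um_SLin {κ : Type} (F : (κ → ℝ≥0) → ℝ) : Prop where
  mono : ∀ u w, (∀ i, u i ≤ w i) → F u ≤ F w
  add : ∀ u w, F (u + w) ≤ F u + F w
  smul : ∀ (c : ℝ≥0) u, F (c • u) = c * F u

theorem um_SLin.zero {κ : Type} {F : (κ → ℝ≥0) → ℝ} (h : um_SLin F) : F 0 = 0 := by
  simpa using h.smul 0 0

theorem um_SLin.near {κ : Type} {F : (κ → ℝ≥0) → ℝ} (h : um_SLin F) {u w : κ → ℝ≥0} {η : ℝ≥0}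
    (hw : ∀ i, w i ≤ u i + η) : F w ≤ F u + η * F 1 := by
  rw [← h.smul]
  refine (h.mono _ (u + η • 1) fun i => ?_).trans (h.add _ _)
  simpa using hw i

/-- closeness on a finite net gives equivalence -/
theorem um_net {κ : Type} [Fintype κ] {F : (κ → ℝ≥0) → ℝ} (hF : um_SLin F) {c0 : ℝ}
    (hc : 0 < c0) (hl : ∀ u i, c0 * (u i : ℝ≥0) ≤ F u) :
    ∃ (G : Finset (κ → ℝ≥0)) (δ : ℝ), 0 < δ ∧ ∀ F' : (κ → ℝ≥0) → ℝ, um_SLin F' →
      (∀ u ∈ G, |F u - F' u| ≤ δ) → ∀ u, F u ≤ 2 * F' u ∧ F' u ≤ 2 * F u := by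
  classical
  have h1 : 0 ≤ F 1 := by rw [← hF.zero]; exact hF.mono _ _ fun i => zero_le
  let η : ℝ≥0 := ⟨c0 / (4 * (F 1 + c0)), by positivity⟩
  have hη : 0 < η := by
    change (0 : ℝ) < c0 / (4 * (F 1 + c0))
    positivity
  have hη2 : (η : ℝ) * (F 1 + c0) = c0 / 4 := by
    change c0 / (4 * (F 1 + c0)) * (F 1 + c0) = c0 / 4
    field_simp
  have hη0 : (0 : ℝ) ≤ η := η.2
  obtain ⟨G, hG⟩ := grid κ η hη
  refine ⟨insert 1 G, c0 / 4, by positivity, fun F' hF' hd u => ?_⟩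
  have key : ∀ v : κ → ℝ≥0, (∀ i, v i ≤ 1) → (∃ i, v i = 1) →
      F v ≤ 2 * F' v ∧ F' v ≤ 2 * F v := by
    rintro v hv ⟨i, hi⟩
    obtain ⟨w, hwG, hw⟩ := hG v hv
    have a1 := abs_le.1 (hd w (Finset.mem_insert_of_mem hwG))
    have a2 := abs_le.1 (hd 1 (Finset.mem_insert_self _ _))
    have a3 := hF.mono v w fun i => (hw i).1
    have a4 := hF'.mono v w fun i => (hw i).1
    have a5 := hF.near fun i => (hw i).2
    have a6 := hF'.near fun i => (hw i).2
    have a7 := hl v i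
    rw [hi, NNReal.coe_one, mul_one] at a7
    have a8 : (η : ℝ) * F' 1 ≤ η * (F 1 + c0) :=
      mul_le_mul_of_nonneg_left (by linarith [a2.1]) hη0
    have a9 : (η : ℝ) * F 1 ≤ η * (F 1 + c0) :=
      mul_le_mul_of_nonneg_left (by linarith) hη0
    constructor <;> linarith [a1.1, a1.2]
  by_cases hu : u = 0
  · rw [hu, hF.zero, hF'.zero]; simp
  obtain ⟨i0, hi0⟩ := Function.ne_iff.1 hu
  have : Nonempty κ := ⟨i0⟩
  obtain ⟨i, hi⟩ := Finite.exists_max u
  have hpos : u i ≠ 0 := fun h0 => hi0 (le_antisymm ((hi i0).trans h0.le) zero_le)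
  have hk := key ((u i)⁻¹ • u) (fun j => by
      rw [Pi.smul_apply, smul_eq_mul, inv_mul_le_iff₀ (pos_iff_ne_zero.2 hpos), mul_one]
      exact hi j) ⟨i, by rw [Pi.smul_apply, smul_eq_mul, inv_mul_cancel₀ hpos]⟩
  have e1 : u = u i • ((u i)⁻¹ • u) := by rw [smul_smul, mul_inv_cancel₀ hpos, one_smul]
  have hn : (0 : ℝ) ≤ u i := (u i).2
  have b1 := mul_le_mul_of_nonneg_left hk.1 hn
  have b2 := mul_le_mul_of_nonneg_left hk.2 hn
  have c1 := hF.smul (u i) ((u i)⁻¹ • u)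
  have c2 := hF'.smul (u i) ((u i)⁻¹ • u)
  rw [← e1] at c1 c2
  constructor <;> linarith

theorem um_cov_single {α : Type} [Add α] [Preorder α] {a b : α} (hab : a ≤ b) :
    ∀ L : List α, b ∈ L → Cov [a] L [] := by
  intro L
  induction L with
  | nil => intro hb; simp at hb
  | cons c L ih =>
    intro hb
    rcases List.mem_cons.1 hb with rfl | hb
    · exact Cov.useA hab (Cov.nil_left _ _)
    · exact Cov.skipA _ (ih hb)

theorem um_mono (h : LN ν) (hR : Mod ν R) {L A : List (Fin d → ℝ≥0)} (hc : Cov L A []) :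
    R 0 L ≤ R 0 A := by
  have := Mod.cov h hR hc 0 0 0 (by simp)
  rwa [hR.1, h.zero, add_zero] at this

theorem Mod.ur (h : LN ν) (hR : Mod ν R) (hpos : ∀ g, 0 < R 0 [Pi.single g 1]) (n' m : ℕ) :
    ∃ T : ℕ → Fin d → V, Dj (fun p : ℕ × Fin d => T p.1 p.2) ∧
      (∀ j g, Tl m (T j g)) ∧ ∀ (k : ℕ) (e : Fin k → ℕ), StrictMono e → (∀ i, e i < n') →
        ∀ v : Fin k → Fin d → ℝ≥0, R 0 (List.ofFn v) ≤ 2 * ν (∑ i, cmb (v i) (T (e i))) ∧
          ν (∑ i, cmb (v i) (T (e i))) ≤ 2 * R 0 (List.ofFn v) := by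
  classical
  obtain ⟨c0, hc, hc0⟩ : ∃ c0 : ℝ, 0 < c0 ∧ ∀ g, c0 ≤ R 0 [Pi.single g 1] := by
    rcases isEmpty_or_nonempty (Fin d) with hd | hd
    · exact ⟨1, one_pos, fun g => hd.elim g⟩
    · obtain ⟨g, hg⟩ := Finite.exists_min fun g => R 0 [Pi.single g 1]
      exact ⟨_, hpos g, hg⟩
  let F : (Fin n' × Fin d → ℝ≥0) → ℝ := fun u => R 0 (List.ofFn fun j g => u (j, g))
  have hF : um_SLin F := by
    refine ⟨fun u w huw => um_mono h hR (Cov.ofFn_le fun j g => huw (j, g)), fun u w => ?_,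
      fun c u => ?_⟩
    · exact Mod.cov h hR (Cov.ofFn_add fun j g => le_rfl) 0 0 0 (by simp)
    · have := Mod.smul h hR c (List.ofFn fun j g => u (j, g)) 0
      rw [smul_zero, List.map_ofFn] at this
      exact this
  have hl : ∀ (u : Fin n' × Fin d → ℝ≥0) i, c0 * (u i : ℝ≥0) ≤ F u := by
    rintro u ⟨j, g⟩
    have h1 := Mod.smul h hR (u (j, g)) [Pi.single g 1] 0
    rw [smul_zero, List.map_singleton] at h1
    have h2 : R 0 [u (j, g) • (Pi.single g 1 : Fin d → ℝ≥0)] ≤ F u := by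
      refine um_mono h hR (um_cov_single (b := fun g => u (j, g)) (fun g' => ?_) _
        ((List.mem_ofFn' _ _).2 ⟨j, rfl⟩))
      by_cases hg : g' = g
      · subst hg; simp
      · simp [hg]
    have h3 := mul_le_mul_of_nonneg_left (hc0 g) (u (j, g)).2
    change (u (j, g) : ℝ) * c0 ≤ (u (j, g) : ℝ) * _ at h3
    linarith
  obtain ⟨G, δ, hδ, hG⟩ := um_net hF hc hl
  obtain ⟨T, h1, h2, h3⟩ := um_real hR G (ε := δ / (n' + 1)) (by positivity) n' (fun _ => 0)
    (fun u j g => u (j, g)) m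
  refine ⟨T, h1, h2, fun k e he hen v => ?_⟩
  let F' : (Fin n' × Fin d → ℝ≥0) → ℝ := fun u => ν (∑ j : Fin n', cmb (fun g => u (j, g)) (T j))
  have hF' : um_SLin F' := by
    refine ⟨fun u w huw => h.mono _ _ (Finset.sum_le_sum fun j _ =>
      cmb_mono (fun g => huw (j, g)) _), fun u w => ?_, fun c u => ?_⟩
    · refine h.le_add (le_of_eq ?_)
      rw [← Finset.sum_add_distrib]
      exact Finset.sum_congr rfl fun j _ => cmb_add _ _ _
    · change ν _ = c * ν _
      rw [← h.smul, Finset.smul_sum]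
      exact congrArg ν (Finset.sum_congr rfl fun j _ => cmb_smul c _ _)
  have hk := hG F' hF' (fun u hu => by
    have h4 := h3 u hu
    rw [zero_add] at h4
    refine h4.trans ?_
    rw [← mul_div_assoc, div_le_iff₀ (by positivity)]
    nlinarith)
  let e' : Fin k → Fin n' := fun i => ⟨e i, hen i⟩
  have he' : StrictMono e' := fun a b hab => he hab
  let w : Fin n' → Fin d → ℝ≥0 := Function.extend e' v 0
  have hw1 : ∀ i, w (e' i) = v i := fun i => he'.injective.extend_apply v _ i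
  have hw2 : ∀ j, j ∉ Set.range e' → w j = 0 := fun j hj => Function.extend_apply' v (0 : Fin n' → Fin d → ℝ≥0) j hj
  have hk2 := hk fun p => w p.1 p.2
  have e1 : F (fun p => w p.1 p.2) = R 0 (List.ofFn v) := by
    change R 0 (List.ofFn w) = _
    have hs : (List.ofFn e').Sublist (List.finRange n') :=
      List.sublist_of_subperm_of_pairwise (r := (· < ·))
        ((List.nodup_ofFn.2 he'.injective).subperm fun j _ => List.mem_finRange j)
        (List.pairwise_ofFn.2 fun a b hab => he' hab) (List.pairwise_lt_finRange n')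
    have := um_pad hR w hs (List.nodup_finRange n')
      (fun j _ hj => hw2 j fun hj' => hj ((List.mem_ofFn' _ _).2 hj')) 0
    rw [← List.ofFn_eq_map, List.map_ofFn] at this
    rw [this]
    exact congrArg (fun f => R 0 (List.ofFn f)) (funext hw1)
  have e2 : F' (fun p => w p.1 p.2) = ν (∑ i, cmb (v i) (T (e i))) := by
    change ν (∑ j : Fin n', cmb (w j) (T j)) = _
    refine congrArg ν (Fintype.sum_of_injective e' he'.injective _ _ (fun j hj => ?_)
      fun i => ?_).symm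
    · rw [hw2 j hj, cmb_zero]
    · rw [hw1]
  rwa [e1, e2] at hk2

theorem um_tens (hR : Mod ν R) {ι : Type} (s : Finset ι) (v : ι → Fin d → ℝ≥0)
    (L : ι → List (Fin d → ℝ≥0)) (u : List ℝ≥0) :
    ∀ (x : ι → V) (ε : ℝ), 0 < ε → ∀ m : ℕ, ∃ T : Fin d → V, Dj T ∧ (∀ g, Tl m (T g)) ∧
      ∀ i ∈ s, |R (x i) (u.map (· • v i) ++ L i) - R (x i + cmb (v i) T) (L i)| ≤ ε := by
  induction u with
  | nil =>
    intro x ε hε m
    refine ⟨fun _ => 0, fun n p q hp _ => (hp rfl).elim, fun g n hn => (hn rfl).elim,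
      fun i _ => ?_⟩
    simp [cmb, hε.le]
  | cons c u ih =>
    intro x ε hε m
    obtain ⟨T1, h1, h2, h3⟩ := um_step hR s x (fun i => c • v i)
      (fun i => u.map (· • v i) ++ L i) (half_pos hε) m
    obtain ⟨b, hb, hw⟩ := exists_win h2
    obtain ⟨T2, h4, h5, h6⟩ := ih (fun i => x i + cmb (c • v i) T1) (ε / 2) (half_pos hε) b
    have hor : ∀ g n, (c • T1 g + T2 g) n ≠ 0 → T1 g n ≠ 0 ∨ T2 g n ≠ 0 := by
      intro g n hn
      by_contra hc
      push Not at hc
      apply hn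
      simp [hc.1, hc.2]
    refine ⟨fun g => c • T1 g + T2 g, fun n p q hp hq => ?_, fun g n hn => ?_, fun i hi => ?_⟩
    · rcases hor p n hp with hp | hp <;> rcases hor q n hq with hq | hq
      · exact h1 n p q hp hq
      · exact absurd (hw p n hp).2 (not_lt.2 (h5 q n hq))
      · exact absurd (hw q n hq).2 (not_lt.2 (h5 p n hp))
      · exact h4 n p q hp hq
    · rcases hor g n hn with hp | hp
      · exact h2 g n hp
      · exact hb.le.trans (h5 g n hp)
    · have e1 : x i + cmb (v i) (fun g => c • T1 g + T2 g) =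
          x i + cmb (c • v i) T1 + cmb (v i) T2 := by
        rw [add_assoc]
        congr 1
        unfold cmb
        rw [← Finset.sum_add_distrib]
        refine Finset.sum_congr rfl fun g _ => ?_
        rw [smul_add, smul_smul, Pi.smul_apply, smul_eq_mul, mul_comm]
      rw [e1, List.map_cons, List.cons_append]
      have h7 := abs_le.1 (h3 i hi)
      have h8 := abs_le.1 (h6 i hi)
      rw [abs_le]
      constructor <;> linarith [h7.1, h7.2, h8.1, h8.2]

theorem Mod.tensor (hR : Mod ν R) (u : List ℝ≥0) :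
    Mod ν (fun x L => R x (L.flatMap fun v => u.map (· • v))) := by
  refine ⟨fun x => hR.1 x, fun S ε hε m => ?_⟩
  obtain ⟨T, h1, h2, h3⟩ := um_tens hR S (fun p => p.2.1)
    (fun p => p.2.2.flatMap fun v => u.map (· • v)) u (fun p => p.1) ε hε m
  refine ⟨T, h1, h2, fun p hp => ?_⟩
  have := h3 p hp
  simpa only [List.flatMap_cons] using this

/-- iterated ultralimit -/
noncomputable def um_R (ν : V → ℝ) (T : ℕ → Fin d → V) : List (Fin d → ℝ≥0) → V → ℝ
  | [], x => ν x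
  | a :: L, x => Filter.limUnder (Filter.hyperfilter ℕ : Filter ℕ)
      fun m => um_R ν T L (x + cmb a (T m))

theorem um_lim {f : ℕ → ℝ} {a b : ℝ} (hf : ∀ m, f m ∈ Set.Icc a b) :
    Filter.Tendsto f (Filter.hyperfilter ℕ : Filter ℕ)
      (nhds (Filter.limUnder (Filter.hyperfilter ℕ : Filter ℕ) f)) := by
  refine tendsto_nhds_limUnder ?_
  obtain ⟨t, -, ht⟩ := (isCompact_Icc (a := a) (b := b)).ultrafilter_le_nhds
    ((Filter.hyperfilter ℕ).map f) (by
      rw [Filter.le_principal_iff, Ultrafilter.coe_map, Filter.mem_map]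
      exact Filter.univ_mem' hf)
  exact ⟨t, ht⟩

theorem um_bound (h : LN ν) {T : ℕ → Fin d → V} (hT : ∀ m g, ν (T m g) = 1)
    (L : List (Fin d → ℝ≥0)) :
    ∀ x, um_R ν T L x ∈ Set.Icc 0 (ν x + (L.map fun a => ∑ g, (a g : ℝ)).sum) := by
  induction L with
  | nil => intro x; exact ⟨h.nonneg x, by simp [um_R]⟩
  | cons a L ih =>
    intro x
    have hf : ∀ m, um_R ν T L (x + cmb a (T m)) ∈
        Set.Icc 0 (ν x + ((a :: L).map fun a => ∑ g, (a g : ℝ)).sum) := by
      intro m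
      refine ⟨(ih _).1, (ih _).2.trans ?_⟩
      have h1 := h.add x (cmb a (T m))
      have h2 := h.cmb_le a (T m)
      simp only [hT, mul_one] at h2
      rw [List.map_cons, List.sum_cons]
      linarith
    exact isClosed_Icc.mem_of_tendsto (um_lim hf) (Filter.Eventually.of_forall hf)

theorem um_tendsto (h : LN ν) {T : ℕ → Fin d → V} (hT : ∀ m g, ν (T m g) = 1)
    (a : Fin d → ℝ≥0) (L : List (Fin d → ℝ≥0)) (x : V) :
    Filter.Tendsto (fun m => um_R ν T L (x + cmb a (T m))) (Filter.hyperfilter ℕ : Filter ℕ)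
      (nhds (um_R ν T (a :: L) x)) := by
  refine um_lim (a := 0) (b := ν x + ∑ g, (a g : ℝ) + (L.map fun a => ∑ g, (a g : ℝ)).sum)
    fun m => ⟨(um_bound h hT L _).1, (um_bound h hT L _).2.trans ?_⟩
  have h1 := h.add x (cmb a (T m))
  have h2 := h.cmb_le a (T m)
  simp only [hT, mul_one] at h2
  linarith

theorem um_mod (h : LN ν) {T : ℕ → Fin d → V} (hT : ∀ m, NF ν m (T m)) :
    Mod ν (fun x L => um_R ν T L x) := by
  refine ⟨fun x => rfl, fun S ε hε m => ?_⟩
  have h1 : ∀ᶠ k in (Filter.hyperfilter ℕ : Filter ℕ), ∀ p ∈ S,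
      |um_R ν T (p.2.1 :: p.2.2) p.1 - um_R ν T p.2.2 (p.1 + cmb p.2.1 (T k))| ≤ ε := by
    rw [Filter.eventually_all_finset]
    intro p _
    have := Metric.tendsto_nhds.1 (um_tendsto h (fun m => (hT m).1) p.2.1 p.2.2 p.1) ε hε
    refine this.mono fun k hk => ?_
    rw [Real.dist_eq, abs_sub_comm] at hk
    exact hk.le
  have h2 : ∀ᶠ k in (Filter.hyperfilter ℕ : Filter ℕ), m ≤ k :=
    Nat.hyperfilter_le_atTop (Filter.eventually_ge_atTop m)
  obtain ⟨k, hk1, hk2⟩ := (h1.and h2).exists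
  exact ⟨T k, (hT k).2.1, fun g => ((hT k).2.2 g).mono hk2, hk1⟩

/-- a deviating family has a deviating coefficient vector in a fixed finite set -/
theorem um_dev (h : LN ν) (k : ℕ) {D : ℝ} (hD : 1 ≤ D) :
    ∃ G : Finset (Fin k → ℝ≥0), ∀ y : Fin k → V, (∀ i, ν (y i) = 1) → Dev ν D y →
      ∃ w ∈ G, 1 ≤ ssq w ∧ ssq w ≤ 4 ∧
        (D ≤ ν (cmb w y) ^ 2 ∨ D * ν (cmb w y) ^ 2 ≤ 4) := by
  have hD0 : 0 < D := by linarith
  let η : ℝ≥0 := ⟨1 / ((k + 1) * D), by positivity⟩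
  have hη : 0 < η := by
    change (0 : ℝ) < 1 / ((k + 1) * D)
    positivity
  have hη0 : (0 : ℝ) ≤ η := η.2
  have hη1 : (k : ℝ) * η * D ≤ 1 := by
    change (k : ℝ) * (1 / ((k + 1) * D)) * D ≤ 1
    rw [mul_one_div, div_mul_eq_mul_div, div_le_one (by positivity)]
    nlinarith
  have hη2 : (η : ℝ) ≤ 1 := by
    change 1 / (((k : ℝ) + 1) * D) ≤ 1
    rw [div_le_one (by positivity)]
    have : (0 : ℝ) ≤ k := Nat.cast_nonneg k
    nlinarith
  have hkη : (0 : ℝ) ≤ k * η := by positivity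
  have hη3 : (k : ℝ) * η ≤ 1 := by nlinarith
  obtain ⟨G, hG⟩ := grid (Fin k) η hη
  refine ⟨G, fun y hy ⟨b0, hb0⟩ => ?_⟩
  have hs : 0 < ssq b0 := by
    rcases hb0 with hb | hb
    · refine (ssq_nonneg b0).lt_of_ne fun h0 => ?_
      have hb1 : b0 = 0 := funext fun i => by
        have h1 := le_ssq b0 i
        rw [← h0] at h1
        have h2 : (b0 i : ℝ) = 0 := pow_eq_zero_iff two_ne_zero |>.1 (le_antisymm h1 (sq_nonneg _))
        exact NNReal.coe_eq_zero.1 h2
      rw [← h0, hb1, cmb_zero, h.zero] at hb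
      simp at hb
    · exact lt_of_le_of_lt (by positivity) hb
  let c : ℝ≥0 := ⟨(Real.sqrt (ssq b0))⁻¹, by positivity⟩
  have hc : (c : ℝ) ^ 2 * ssq b0 = 1 := by
    change ((Real.sqrt (ssq b0))⁻¹) ^ 2 * ssq b0 = 1
    rw [inv_pow, Real.sq_sqrt hs.le, inv_mul_cancel₀ hs.ne']
  have hc0 : (0 : ℝ) < (c : ℝ) ^ 2 := by
    refine lt_of_le_of_ne (sq_nonneg _) fun h0 => ?_
    rw [← h0] at hc
    simp at hc
  obtain ⟨b, hb1, hb2⟩ : ∃ b : Fin k → ℝ≥0, ssq b = 1 ∧
      (D ≤ ν (cmb b y) ^ 2 ∨ D * ν (cmb b y) ^ 2 ≤ 1) := by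
    refine ⟨c • b0, by rw [ssq_smul, hc], ?_⟩
    rw [cmb_smul, h.smul, mul_pow]
    rcases hb0 with hb | hb
    · left
      have := mul_le_mul_of_nonneg_left hb.le hc0.le
      nlinarith
    · right
      have := mul_le_mul_of_nonneg_left hb.le hc0.le
      nlinarith
  have hb3 : ∀ i, b i ≤ 1 := fun i => by
    have h1 := le_ssq b i
    rw [hb1] at h1
    have h2 : (b i : ℝ) ≤ 1 := by nlinarith [(b i).2]
    exact_mod_cast h2
  obtain ⟨w, hwG, hw⟩ := hG b hb3
  have h1 : ν (cmb b y) ≤ ν (cmb w y) := h.mono _ _ (cmb_mono (fun i => (hw i).1) y)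
  have h2 : ν (cmb w y) ≤ ν (cmb b y) + k * η := by
    have h3 : cmb w y ≤ cmb b y + cmb (fun _ => η) y := by
      rw [← cmb_add]
      exact cmb_mono (fun i => (hw i).2) y
    have h4 := h.cmb_le (fun _ => η) y
    simp only [hy, mul_one, Finset.sum_const, Finset.card_univ, Fintype.card_fin,
      nsmul_eq_mul] at h4
    linarith [h.le_add h3]
  have h0 := h.nonneg (cmb b y)
  refine ⟨w, hwG, ?_, ?_, ?_⟩
  · rw [← hb1]
    refine Finset.sum_le_sum fun i _ => ?_
    have h3 : (b i : ℝ) ≤ w i := (hw i).1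
    exact pow_le_pow_left₀ (b i).2 h3 2
  · have h3 : ssq w ≤ ∑ i, (2 * (b i : ℝ) ^ 2 + 2 * (η : ℝ) ^ 2) := by
      refine Finset.sum_le_sum fun i _ => ?_
      have h3 : (w i : ℝ) ≤ b i + η := (hw i).2
      have h4 := pow_le_pow_left₀ (w i).2 h3 2
      refine h4.trans ?_
      nlinarith [sq_nonneg ((b i : ℝ) - η)]
    rw [Finset.sum_add_distrib, ← Finset.mul_sum] at h3
    simp only [Finset.sum_const, Finset.card_univ, Fintype.card_fin, nsmul_eq_mul] at h3
    change ssq w ≤ 2 * ssq b + _ at h3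
    rw [hb1] at h3
    nlinarith
  · rcases hb2 with hb | hb
    · left
      exact hb.trans (pow_le_pow_left₀ h0 h1 2)
    · right
      have h3 := pow_le_pow_left₀ (h.nonneg _) h2 2
      have h4 : (ν (cmb b y) + k * η) ^ 2 ≤ 2 * ν (cmb b y) ^ 2 + 2 * (k * η) ^ 2 := by
        nlinarith [sq_nonneg (ν (cmb b y) - k * η)]
      have h5 : D * ((k : ℝ) * η) ^ 2 ≤ 1 := by nlinarith
      have h6 := mul_le_mul_of_nonneg_left (h3.trans h4) hD0.le
      nlinarith

theorem exists_mod (h : LN ν) (hA : NonAs ν) (D : ℝ) :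
    ∃ (d : ℕ) (R : V → List (Fin d → ℝ≥0) → ℝ), Mod ν R ∧ (∀ g, R 0 [Pi.single g 1] = 1) ∧
      DevF D (fun v => R 0 [v]) := by
  have hD0 := abs_nonneg D
  have hD1 := le_abs_self D
  obtain ⟨d0, hd0⟩ := hA (4 * |D| + 4)
  obtain ⟨k, -, hk⟩ := pigeon (Finset.range (d0 + 1))
    (fun k m => ∃ y : Fin k → V, NF ν m y ∧ Dev ν (4 * |D| + 4) y)
    (fun k m m' hm ⟨y, h1, h2⟩ => ⟨y, h1.mono hm, h2⟩)
    (fun m => by
      obtain ⟨k, hk, y, h1, h2⟩ := hd0 m
      exact ⟨k, Finset.mem_range.2 (Nat.lt_succ_of_le hk), y, h1, h2⟩)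
  obtain ⟨G, hG⟩ := um_dev h k (D := 4 * |D| + 4) (by linarith)
  obtain ⟨w, -, hw⟩ := pigeon G
    (fun w m => ∃ y : Fin k → V, NF ν m y ∧ 1 ≤ ssq w ∧ ssq w ≤ 4 ∧
      (4 * |D| + 4 ≤ ν (cmb w y) ^ 2 ∨ (4 * |D| + 4) * ν (cmb w y) ^ 2 ≤ 4))
    (fun w m m' hm ⟨y, h1, h2⟩ => ⟨y, h1.mono hm, h2⟩)
    (fun m => by
      obtain ⟨y, h1, h2⟩ := hk m
      obtain ⟨w, hw, h3⟩ := hG y h1.1 h2
      exact ⟨w, hw, y, h1, h3⟩)
  choose T hT hw1 hw2 hw3 using hw
  have hone : ∀ g, um_R ν T [Pi.single g 1] 0 = 1 := by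
    intro g
    have h1 := um_tendsto h (fun m => (hT m).1) (Pi.single g 1) [] 0
    have h2 : (fun m => um_R ν T [] (0 + cmb (Pi.single g 1) (T m))) = fun _ => (1 : ℝ) := by
      funext m
      rw [zero_add, cmb_single, one_smul]
      exact (hT m).1 g
    rw [h2] at h1
    exact tendsto_nhds_unique h1 tendsto_const_nhds
  refine ⟨k, fun x L => um_R ν T L x, um_mod h hT, hone, w, ?_⟩
  have h1 := um_tendsto h (fun m => (hT m).1) w [] 0
  have hcl : IsClosed {t : ℝ | 4 * |D| + 4 ≤ t ^ 2 ∨ (4 * |D| + 4) * t ^ 2 ≤ 4} :=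
    (isClosed_le (f := fun _ : ℝ => 4 * |D| + 4) (g := fun t : ℝ => t ^ 2) continuous_const
      (by fun_prop)).union (isClosed_le (f := fun t : ℝ => (4 * |D| + 4) * t ^ 2)
        (g := fun _ : ℝ => (4 : ℝ)) (by fun_prop) continuous_const)
  have h2 := hcl.mem_of_tendsto h1 (Filter.Eventually.of_forall fun m => by
    rw [zero_add]
    exact hw3 m)
  simp only [hone, one_pow, mul_one]
  change D * ssq w < um_R ν T [w] 0 ^ 2 ∨ D * um_R ν T [w] 0 ^ 2 < ssq w
  have h3 := hw1 0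
  have h4 := hw2 0
  rcases h2 with h2 | h2
  · left
    nlinarith
  · right
    have h5 := sq_nonneg (um_R ν T [w] 0)
    have h6 := mul_le_mul_of_nonneg_right hD1 h5
    rcases h5.eq_or_lt with h7 | h7
    · rw [← h7]; linarith
    · linarith

end Pool.Agent.Lib.MP_435322_an.UD
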